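import Pool.Agent.JG.LVal

/-!
# [JT] the condition on the class group and the units of `ℚ(ω, ∛D)`, the statement on the central values modulo `2`

`M = K(∛D)`, `K = ℚ(ω)`, `D` not a cube. For a unit `u` of `M` of relative norm `1` the digits at `2` decide whether `u` is the class of a local point:
 - `v₂(D) = 3 m`, `m = 0, 1`, `D = 8^m D'`, `s' = ∛D / 2^m`: `u^63 ≡ 1 + 2 (q₁ s' + q₂ s'²) mod 4`, `(q₁, q₂)` in `W2`;
 - `v₂(D) = 2, 4, 5`: `u³ ≡ 1 mod π²`, `π³ ~ 2`, that is `(u³ - 1)³ ≡ 0 mod 4`;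
 - `v₂(D) = 1`: `u c² ≡ 1 + a s + a³ D mod 4` for an integral `c` and an `a` in `{0, 1, ω, ω²}`.
-/

set_option autoImplicit false

open NumberField IsDedekindDomain
open scoped Classical ComplexConjugate

namespace JT

open CM27 NAB JZ JL
open CU (la eE om)
open JG (Val2 ValL PsiG kap)

/-- A cube root of `D`. -/
noncomputable def cD (D : Eis) : ℂ := emb D ^ ((1 : ℂ) / 3)

/-- The field `ℚ(ω, ∛D)`. -/
noncomputable def KM (D : Eis) : IntermediateField ℚ ℂ := IntermediateField.adjoin ℚ {w, cD D}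

theorem cD_cube (D : Eis) : cD D ^ 3 = emb D := by
  unfold cD
  rw [← Complex.cpow_nat_mul]
  norm_num

theorem isIntegral_cD (D : Eis) : IsIntegral ℤ (cD D) := by
  refine IsIntegral.of_pow (n := 3) (by norm_num) ?_
  rw [cD_cube]; exact isIntegral_emb D

instance (D : Eis) : NumberField (KM D) := by
  have h : FiniteDimensional ℚ (KM D) := by
    unfold KM
    refine IntermediateField.finiteDimensional_adjoin fun x hx => ?_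
    rcases hx with rfl | hx
    · exact isIntegral_w.tower_top
    · rw [Set.mem_singleton_iff] at hx
      rw [hx]; exact (isIntegral_cD D).tower_top
  exact { to_charZero := inferInstance, to_finiteDimensional := h }

/-- `a` is `0`, `1`, `ω` or `ω²`: the representatives modulo `2`. -/
def R4 (a : Eis) : Prop := a = 0 ∨ a = 1 ∨ a = om ∨ a = om ^ 2

/-- The classes of the local points for `v₂(D) = 0` (`m = 0`; `D ≡ e (1 + 2 d) mod 4`) and `v₂(D) = 3` (`m = 1`). -/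
def W2 (m : ℕ) (D' q₁ q₂ : Eis) : Prop :=
  (m = 0 ∧ ∃ e d a : Eis, R4 e ∧ R4 d ∧ R4 a ∧ (4 : Eis) ∣ D' - e * (1 + 2 * d) ∧ (2 : Eis) ∣ q₁ - a * d ∧
    (2 : Eis) ∣ q₂ - a ^ 2 * (d + e)) ∨
  (m = 1 ∧ (2 : Eis) ∣ q₂)

/-- The unit `u` of relative norm `1` is the class of a local point at `2`; `s = ∛D`. -/
def On2 (D : Eis) (s u : ℂ) : Prop :=
  (∃ (m : ℕ) (D' q₁ q₂ : Eis), m ≤ 1 ∧ D = 8 ^ m * D' ∧ ¬ (2 : Eis) ∣ D' ∧ W2 m D' q₁ q₂ ∧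
    IsIntegral ℤ ((u ^ 63 - 1 - 2 * (emb q₁ * (s / 2 ^ m) + emb q₂ * (s / 2 ^ m) ^ 2)) / 4)) ∨
  (∃ (k : ℕ) (D' : Eis), (k = 2 ∨ k = 4 ∨ k = 5) ∧ D = 2 ^ k * D' ∧ ¬ (2 : Eis) ∣ D' ∧ IsIntegral ℤ ((u ^ 3 - 1) ^ 3 / 4)) ∨
  (∃ D' : Eis, D = 2 * D' ∧ ¬ (2 : Eis) ∣ D' ∧ ∃ (a : Eis) (c : ℂ), R4 a ∧ c ∈ KM D ∧ IsIntegral ℤ c ∧
    IsIntegral ℤ ((u * c ^ 2 - 1 - emb a * s - emb (a ^ 3 * D)) / 4))

/-- The class number of `ℚ(ω, ∛D)` is odd, and there is a unit `u = u₀ + u₁ s + u₂ s²`, `s = ∛D`, of relative norm `1`, which is not the class of a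
local point at `2`. -/
def UC2 (D : Eis) : Prop :=
  Odd (classNumber (KM D)) ∧
  ∃ u₀ u₁ u₂ : ℂ, u₀ ∈ CF.KK ∧ u₁ ∈ CF.KK ∧ u₂ ∈ CF.KK ∧
    (u₀ + u₁ * cD D + u₂ * cD D ^ 2) * (u₀ + u₁ * (w * cD D) + u₂ * (w * cD D) ^ 2) *
      (u₀ + u₁ * (w ^ 2 * cD D) + u₂ * (w ^ 2 * cD D) ^ 2) = 1 ∧
    IsIntegral ℤ (u₀ + u₁ * cD D + u₂ * cD D ^ 2) ∧ ¬ On2 D (cD D) (u₀ + u₁ * cD D + u₂ * cD D ^ 2)

/-- Sixth-power-free, not a cube, and the conditions which mean that the Tamagawa numbers are odd. -/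
structure Cl2 (D : Eis) : Prop where
  free : ∀ p : Eis, Prime p → ¬ p ^ 6 ∣ D
  ncube : ¬ ∃ x : Eis, x ^ 3 = D
  odd : ∀ p c : Eis, Prime p → ¬ p ∣ 6 → ¬ p ∣ c → D = p ^ 3 * c → ∀ x : Eis, ¬ p ∣ c - x ^ 3
  lam : ∀ η : Eis, (η = 1 ∨ η = -1) → ¬ la ^ 4 ∣ D - η
  two3 : ∀ c : Eis, D = 8 * c → ¬ (2 : Eis) ∣ c - 1
  two2 : ∀ c : Eis, ¬ (2 : Eis) ∣ c → D = 4 * c → ∀ y : Eis, ¬ (4 : Eis) ∣ c - y ^ 2 - 2

/-- The statement on the central values of the L-function of `E_D` modulo `2`. The number `q` is `#Ш ∏ c_v / #E(K)²` if the conjecture holds. -/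
def LVal2 (D : Eis) : Prop :=
  ∃ p₂ pl : Eis, Val2 D p₂ ∧ ValL D pl ∧
  ∃ Φ : ℂ → ℂ, Differentiable ℂ Φ ∧
    (∀ s : ℂ, 3 / 2 < s.re → Φ s = LSeries (fun n => IL CF.KK (fun I => conj (emb (PsiG D p₂ pl I))) n) s) ∧
    ∃ q : ℚ, Φ 1 * conj (Φ 1) = (((q : ℝ) * kap D / ‖emb (4 * D)‖ ^ ((1 : ℝ) / 3) : ℝ) : ℂ) * (Om : ℂ) ^ 2 ∧
      (q = 0 ∨ 0 ≤ padicValRat 2 q) ∧ ((q ≠ 0 ∧ padicValRat 2 q = 0) ↔ UC2 D)

end JT
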