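import Pool.Agent.JG.SH
import Pool.Agent.JT.UC

/-!
# [JT-SH2] the excluded cases: `2` divides the Tamagawa number

See JG/SH.lean. `V` = the valuation of the maximal ideal of `A` on `K`. `VC63.NR (ED D) P`: MP_9ab903_nt/NT/V2.lean.

PROOF. `two_dvd_index` [SH2a]: as `JG.three_dvd_index`: in `G ⧸ closure S` the class of `T` is not `0` (`JG.mk_sub`), twice it is `0`.
`even_root` [SH2a]: `VC63.tamagawa_eq`, `two_dvd_index` with `S = {NR}`, `JG.closedX hl (Or.inl _)` (`l ∣ ρ`, so `l ∣ D`), `JG.nrX_i`. `T = (-ρ, 0)`: a nonsingular point of the curve over `K`: `3 ρ² ≠ 0` (`JD.s3_nonsing`); `T ∉ S` since `V ρ < 1`; `T = -T`, so `T + T = 0 ∈ S`. See the proof of `JG.three_sq`.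
`even_two2` [SH2a]: `T = (2 x, 2 y)`: `(2 y)² = (2 x)³ + 4 c`. `T ∉ S` (`JG.nrX_two`, `V 2 < 1`). `T + T`: the slope is `3 (2 x)² / (2 (2 y)) = 3 x² / y`, of valuation `1` (`3` is a unit), the `x`-coordinate of `T + T` is `(3 x² / y)² - 4 x`, of valuation `1`: `T + T ∈ S` (`nrX_two`). `closedX` with `Or.inr`.
`nrY2`, `closedY2` [SH2b]: copy the proofs of `JG.nrY`, `JG.shd_x`, `JG.shd_y`, `JG.closedY` (JG/SH.lean): they use only `D ≡ η mod l²`... (`2 D + η x² ≡ 3 η ≡ 0 mod l`).
`even_la` [SH2b]: `T = (-ρ, 0)`, `T ∉ S` (`nrY2`, `V 0 < 1`), `T + T = 0`; `closedY2`, `two_dvd_index`, `VC63.tamagawa_eq`.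
`cube_of_mod` [SH2c]: `c = x³ + π t`, `x` is a unit (`c` is), Hensel's lemma `JD.hensel3` for `X³ - c`, `x₀ = x`: `V (x³ - c) < 1`, `V (3 x²) = 1`; the root is integral.
`cl2_of` [SH2c] (pattern: `JG.clG_of`): each condition: suppose it fails, find `v` with `2 ∣ tam`. `odd`: `v = (p)` (`CU.pl p hp`), `c ≡ x³ mod p`, `lo c = y³` (`cube_of_mod`), `D = (p y)³`: `even_root`, minimality `unit_p'` (`k = 3`). `lam`: `v = (la)`, `la⁴ ∣ D - η`: `JD.cube_four` (JD/E1.lean) for `lo (η D)` (`η² = 1`, `la⁴ ∣ η D - 1`): `lo D = (η (1 + l m))³`; `even_la` with `l² ∣ D - η`;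
minimality `unit_la'` (`k = 0`). `two3`: `v = (2)`, `D = 8 c`, `2 ∣ c - 1`: `lo c = y³` (`cube_of_mod` with `x = 1`, `π = 2`), `D = (2 y)³`: `even_root`; `unit_two'` (`k = 3`). `two2`: `4 ∣ c - y² - 2`: `c = y² + 2 + 4 t`, `¬ 2 ∣ y` (as `¬ 2 ∣ c`); `-(1 + 2 t) = x³` (`cube_of_mod` with `-1`, `π = 2`): `y² = 2 x³ + c`: `even_two2`; `unit_two'` (`k = 2`).
`ncube_of` [SH2c]: `D = x³`: the point `(-x, 0)` has order 2. As `JG.nsq_of`.
-/

set_option autoImplicit false

open NumberField IsDedekindDomain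
open scoped Classical

namespace JT

open CM27 CF JZ
open JD (ED ED_map ED_Δ ED_c₄ ED_equation jK)
open CU (la om eE t5b_lo)

/-- [SH2a] -/
theorem two_dvd_index {G : Type*} [AddCommGroup G] (S : Set G) (h0 : (0 : G) ∈ S) (hneg : ∀ P ∈ S, -P ∈ S)
    (h : ∀ P Q : G, P ∉ S → Q ∈ S → P + Q ∉ S) (T : G) (hT : T ∉ S) (h2 : T + T ∈ S) :
    2 ∣ (AddSubgroup.closure S).index := by
  have : Fact (Nat.Prime 2) := ⟨Nat.prime_two⟩
  have h1 : addOrderOf (QuotientAddGroup.mk T : G ⧸ AddSubgroup.closure S) = 2 := by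
    apply addOrderOf_eq_prime
    · have h3 : 2 • (QuotientAddGroup.mk T : G ⧸ AddSubgroup.closure S) = QuotientAddGroup.mk (T + T) := by
        rw [two_nsmul]
        rfl
      rw [h3, QuotientAddGroup.eq_zero_iff]
      exact AddSubgroup.subset_closure h2
    · rw [Ne, QuotientAddGroup.eq_zero_iff]
      exact fun h2 => hT (JG.mk_sub S h0 hneg h T h2)
  rw [AddSubgroup.index, ← h1]
  exact addOrderOf_dvd_natCard _

section
variable {A : Type} [CommRing A] [IsDomain A] [IsDiscreteValuationRing A] (K : Type) [Field K]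
  [Algebra A K] [IsFractionRing A K] {l ε D : A}

/-- [SH2a] -/
theorem even_root (hl : Irreducible l) (hD0 : D ≠ 0) (h6 : (6 : K) ≠ 0)
    (hu : ∀ T : WeierstrassCurve.VariableChange K, (T • (ED D).map (algebraMap A K)).IsMinimal A →
      (IsDiscreteValuationRing.maximalIdeal A).valuation K (T.u : K) = 1) (ρ : A) (hρ : ρ ^ 3 = D) (hlρ : l ∣ ρ) :
    2 ∣ SBSD.tamagawa A (ED (algebraMap A K D)) := by
  have hlD : l ∣ D := by
    rw [← hρ]
    exact dvd_pow hlρ (by norm_num)
  have hX : ∀ (x y : K) (h : ((ED D).map (algebraMap A K)).toAffine.Nonsingular x y),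
      VC63.NR (ED D) (.some x y h) ↔ 1 ≤ (IsDiscreteValuationRing.maximalIdeal A).valuation K x :=
    fun x y h => JG.nrX_i hl hlD x y h
  have hinj : Function.Injective (algebraMap A K) := IsFractionRing.injective A K
  have hρ0 : algebraMap A K ρ ≠ 0 := by
    intro h
    have h1 : ρ = 0 := hinj (by rw [h, map_zero])
    rw [h1] at hρ
    exact hD0 (by rw [← hρ]; ring)
  have h3K : (3 : K) ≠ 0 := fun h => h6 (by linear_combination 2 * h)
  have hρK : (algebraMap A K ρ) ^ 3 = algebraMap A K D := by rw [← map_pow, hρ]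
  have hTn : ((ED D).map (algebraMap A K)).toAffine.Nonsingular (-algebraMap A K ρ) 0 := by
    rw [ED_map, JG.SHa_ns]
    refine ⟨by rw [← hρK]; ring, Or.inl ?_⟩
    rw [neg_sq]
    exact mul_ne_zero h3K (pow_ne_zero 2 hρ0)
  have hW : SBSD.tamagawa A (ED (algebraMap A K D)) =
      SBSD.tamagawa A ((ED D).map (algebraMap A K)) := by rw [ED_map]
  rw [hW, VC63.tamagawa_eq (ED D) hu]
  have hneg : ∀ x y : K, ((ED D).map (algebraMap A K)).toAffine.negY x y = -y := by
    intro x y
    rw [WeierstrassCurve.Affine.negY]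
    simp [ED]
  refine two_dvd_index _ trivial ?_ (fun P Q hP hQ => JG.closedX hl (Or.inl hlD) P Q hP hQ)
    (.some (-algebraMap A K ρ) 0 hTn) ?_ ?_
  · intro P hP
    match P, hP with
    | .zero, _ => exact trivial
    | .some x y h, hP =>
      have h1 : 1 ≤ (IsDiscreteValuationRing.maximalIdeal A).valuation K x := (hX x y h).1 hP
      change VC63.NR (ED D) (-(.some x y h))
      rw [WeierstrassCurve.Affine.Point.neg_some, hX]
      exact h1
  · intro h
    have h1 := (hX _ _ hTn).1 h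
    obtain ⟨a, ha⟩ := hlρ
    rw [Valuation.map_neg, ha] at h1
    exact absurd h1 (not_le.2 (JG.shc_lt1 hl a))
  · have h1 : -(WeierstrassCurve.Affine.Point.some (-algebraMap A K ρ) 0 hTn :
        ((ED D).map (algebraMap A K)).toAffine.Point) = .some (-algebraMap A K ρ) 0 hTn := by
      rw [WeierstrassCurve.Affine.Point.neg_some, WeierstrassCurve.Affine.Point.some.injEq]
      exact ⟨rfl, by rw [hneg, neg_zero]⟩
    have h2 : (WeierstrassCurve.Affine.Point.some (-algebraMap A K ρ) 0 hTn :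
        ((ED D).map (algebraMap A K)).toAffine.Point) + .some (-algebraMap A K ρ) 0 hTn = 0 := by
      rw [add_eq_zero_iff_eq_neg]
      exact h1.symm
    rw [h2]
    exact trivial

omit [Field K] [Algebra A K] [IsFractionRing A K] in
theorem SH2a_unit (h2 : Irreducible (2 : A)) {a b : A} (ha : IsUnit a) : IsUnit (a - 2 * b) := by
  by_contra h
  have h1 : a - 2 * b ∈ IsLocalRing.maximalIdeal A := (IsLocalRing.mem_maximalIdeal _).2 h
  have h3 : (2 : A) ∈ IsLocalRing.maximalIdeal A := (IsLocalRing.mem_maximalIdeal _).2 h2.not_isUnit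
  have h4 : a ∈ IsLocalRing.maximalIdeal A := by
    have := Ideal.add_mem _ h1 (Ideal.mul_mem_right b _ h3)
    rwa [sub_add_cancel] at this
  exact (IsLocalRing.mem_maximalIdeal _).1 h4 ha

/-- [SH2a] -/
theorem even_two2 (h2 : Irreducible (2 : A)) (h6 : (6 : K) ≠ 0) {c x y : A} (hx : IsUnit x) (hy : IsUnit y) (he : y ^ 2 = 2 * x ^ 3 + c)
    (hD : D = 4 * c)
    (hu : ∀ T : WeierstrassCurve.VariableChange K, (T • (ED D).map (algebraMap A K)).IsMinimal A →
      (IsDiscreteValuationRing.maximalIdeal A).valuation K (T.u : K) = 1) :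
    2 ∣ SBSD.tamagawa A (ED (algebraMap A K D)) := by
  have hinj : Function.Injective (algebraMap A K) := IsFractionRing.injective A K
  have h3u : IsUnit (3 : A) := JG.sa_three_unit h2
  have h2K : (2 : K) ≠ 0 := fun h => h6 (by linear_combination 3 * h)
  have hy0 : algebraMap A K y ≠ 0 := fun h => hy.ne_zero (hinj (by rw [h, map_zero]))
  obtain ⟨z, hz⟩ := hy.exists_right_inv
  have e : (2 * y) ^ 2 = (2 * x) ^ 3 + D := by
    rw [hD]
    linear_combination 4 * he
  have heq : (algebraMap A K (2 * y)) ^ 2 = (algebraMap A K (2 * x)) ^ 3 + algebraMap A K D := by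
    rw [← map_pow, ← map_pow, ← map_add, e]
  have h2y : (2 : K) * algebraMap A K (2 * y) ≠ 0 := by
    rw [map_mul, map_ofNat]
    exact mul_ne_zero h2K (mul_ne_zero h2K hy0)
  have hns : ((ED D).map (algebraMap A K)).toAffine.Nonsingular (algebraMap A K (2 * x)) (algebraMap A K (2 * y)) := by
    rw [ED_map]
    exact JD.s3_nonsing _ _ _ heq (Or.inr h2y)
  have hX : ∀ (x y : K) (h : ((ED D).map (algebraMap A K)).toAffine.Nonsingular x y),
      VC63.NR (ED D) (.some x y h) ↔ 1 ≤ (IsDiscreteValuationRing.maximalIdeal A).valuation K x :=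
    fun x y h => JG.nrX_two h2 x y h
  have hneg : ∀ x y : K, ((ED D).map (algebraMap A K)).toAffine.negY x y = -y := by
    intro x y
    rw [WeierstrassCurve.Affine.negY]
    simp [ED]
  rw [← ED_map, VC63.tamagawa_eq (ED D) hu]
  refine two_dvd_index _ trivial ?_ (fun P Q hP hQ => JG.closedX h2 (Or.inr h2) P Q hP hQ)
    (.some _ _ hns) ?_ ?_
  · intro P hP
    match P, hP with
    | .zero, _ => exact trivial
    | .some x y h, hP =>
      have h1 : 1 ≤ (IsDiscreteValuationRing.maximalIdeal A).valuation K x := (hX x y h).1 hP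
      change VC63.NR (ED D) (-(.some x y h))
      rw [WeierstrassCurve.Affine.Point.neg_some, hX]
      exact h1
  · intro h
    have h1 := (hX _ _ hns).1 h
    exact absurd h1 (not_le.2 (JG.shc_lt1 h2 x))
  · have e0 := hns.1
    rw [ED_map, ED_equation] at e0
    have hxy : ¬(algebraMap A K (2 * x) = algebraMap A K (2 * x) ∧ algebraMap A K (2 * y) =
        ((ED D).map (algebraMap A K)).toAffine.negY (algebraMap A K (2 * x)) (algebraMap A K (2 * y))) := by
      rintro ⟨-, h⟩
      rw [hneg] at h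
      exact h2y (by linear_combination h)
    have hs := JD.s4c_slope ((ED D).map (algebraMap A K)).toAffine (by simp [ED]) (by simp [ED]) (by simp [ED])
      (by simp [ED]) e0 e0 hxy
    have hm : algebraMap A K (3 * x ^ 2 * z) * (2 * algebraMap A K (2 * y)) = 3 * (algebraMap A K (2 * x)) ^ 2 := by
      have e1 : 3 * x ^ 2 * z * (2 * (2 * y)) = 3 * (2 * x) ^ 2 := by linear_combination (12 * x ^ 2) * hz
      have e2 := congrArg (algebraMap A K) e1
      rw [map_mul, map_mul (algebraMap A K) 2, map_ofNat, map_mul (algebraMap A K) 3 ((2 * x) ^ 2), map_ofNat, map_pow] at e2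
      exact e2
    have hsm : ((ED D).map (algebraMap A K)).toAffine.slope (algebraMap A K (2 * x)) (algebraMap A K (2 * x))
        (algebraMap A K (2 * y)) (algebraMap A K (2 * y)) = algebraMap A K (3 * x ^ 2 * z) := by
      apply mul_right_cancel₀ h2y
      rw [hm]
      linear_combination hs
    change VC63.NR (ED D) ((WeierstrassCurve.Affine.Point.some _ _ hns :
      ((ED D).map (algebraMap A K)).toAffine.Point) + .some _ _ hns)
    rw [WeierstrassCurve.Affine.Point.add_some hxy, hX]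
    have hXX : ((ED D).map (algebraMap A K)).toAffine.addX (algebraMap A K (2 * x)) (algebraMap A K (2 * x))
        (((ED D).map (algebraMap A K)).toAffine.slope (algebraMap A K (2 * x)) (algebraMap A K (2 * x))
        (algebraMap A K (2 * y)) (algebraMap A K (2 * y))) =
        algebraMap A K ((3 * x ^ 2 * z) ^ 2 - 2 * (2 * x)) := by
      rw [hsm, WeierstrassCurve.Affine.addX]
      have e3 : algebraMap A K ((3 * x ^ 2 * z) ^ 2 - 2 * (2 * x)) =
          (algebraMap A K (3 * x ^ 2 * z)) ^ 2 - 2 * algebraMap A K (2 * x) := by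
        rw [map_sub, map_pow, map_mul (algebraMap A K) 2 (2 * x), map_ofNat]
      rw [e3]
      simp only [ED, WeierstrassCurve.map_a₁, WeierstrassCurve.map_a₂, map_zero]
      ring
    rw [hXX]
    have hzu : IsUnit z := IsUnit.of_mul_eq_one y (by rw [mul_comm]; exact hz)
    have hu1 : IsUnit ((3 * x ^ 2 * z) ^ 2) := ((h3u.mul (hx.pow 2)).mul hzu).pow 2
    rw [JG.shc_unit (SH2a_unit h2 hu1)]

variable {K}

/-- [SH2b] -/
theorem nrY2 (hl : Irreducible l) (hε : IsUnit ε) (h3 : (3 : A) = ε * l ^ 2) (hres : ∀ x : A, l ∣ x ∨ l ∣ x - 1 ∨ l ∣ x + 1)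
    {η e : A} (hη : η = 1 ∨ η = -1) (hD : D = η + l ^ 2 * e) (x y : K)
    (h : ((ED D).map (algebraMap A K)).toAffine.Nonsingular x y) :
    VC63.NR (ED D) (.some x y h) ↔ 1 ≤ (IsDiscreteValuationRing.maximalIdeal A).valuation K y := by
  have hinj : Function.Injective (algebraMap A K) := IsFractionRing.injective A K
  have heq : y ^ 2 = x ^ 3 + algebraMap A K D := by
    have h1 := h.1
    rw [ED_map, ED_equation] at h1
    exact h1
  have hred : (ED D).map (IsLocalRing.residue A) = ED (IsLocalRing.residue A D) := ED_map _ _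
  have hl' : l ∈ IsLocalRing.maximalIdeal A := (IsLocalRing.mem_maximalIdeal l).2 hl.not_isUnit
  have h30 : (3 : IsLocalRing.ResidueField A) = 0 := by
    have h1 : IsLocalRing.residue A 3 = 0 := by
      rw [IsLocalRing.residue_eq_zero_iff, h3]
      exact Ideal.mul_mem_left _ _ (Ideal.pow_mem_of_mem _ hl' 2 (by norm_num))
    rwa [map_ofNat] at h1
  simp only [VC63.NR, hred]
  constructor
  · intro H
    by_contra hcon
    push Not at hcon
    obtain ⟨b, hb⟩ := IsDiscreteValuationRing.exists_lift_of_le_one hcon.le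
    obtain ⟨a, ha⟩ := JD.s4b_x heq hb
    have h1 := (JD.s4b_nonsing _ h30 _ _ _).1 (H a b ha hb)
    apply h1.2
    rw [IsLocalRing.residue_eq_zero_iff]
    rw [← hb, JD.s4b_mem] at hcon
    exact hcon
  · intro H a b ha hb
    rw [JD.s4b_nonsing _ h30]
    subst ha hb
    have hAeq : b ^ 2 = a ^ 3 + D := by
      apply hinj
      rw [map_pow, map_add, map_pow]
      exact heq
    refine ⟨?_, ?_⟩
    · rw [← map_pow, hAeq, map_add, map_pow]
    · rw [Ne, IsLocalRing.residue_eq_zero_iff]
      intro hmem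
      rw [← JD.s4b_mem (K := K)] at hmem
      exact absurd H (not_le.2 hmem)

/-- [SH2b] helper: `V y < 1` implies `V (x + η) < 1` -/
theorem SH2b_x (hl : Irreducible l) (h3 : (3 : A) = ε * l ^ 2) (hres : ∀ x : A, l ∣ x ∨ l ∣ x - 1 ∨ l ∣ x + 1)
    {η e : A} (hη : η = 1 ∨ η = -1) (hD : D = η + l ^ 2 * e) {x y : K} (h : y ^ 2 = x ^ 3 + algebraMap A K D)
    (hy : (IsDiscreteValuationRing.maximalIdeal A).valuation K y < 1) :
    ∃ s : A, x = algebraMap A K (-η + l * s) := by
  have hinj : Function.Injective (algebraMap A K) := IsFractionRing.injective A K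
  obtain ⟨u, hu⟩ := JG.shd_dvd hl hy
  obtain ⟨a, ha⟩ := JD.s4b_x h hu.symm
  have hAeq : (l * u) ^ 2 = a ^ 3 + D := by
    apply hinj
    rw [map_pow, map_add, map_pow, ha, ← hu]
    exact h
  have h1 : ¬ l ∣ 1 := fun h => hl.not_isUnit (isUnit_of_dvd_one h)
  have hl3 : l ∣ 3 := ⟨ε * l, by rw [h3]; ring⟩
  have h2 : ¬ l ∣ 2 := fun h => h1 (by
    have := dvd_sub hl3 h
    rwa [show (3 : A) - 2 = 1 by norm_num] at this)
  have hη2 : η ^ 2 = 1 := by rcases hη with rfl | rfl <;> ring
  have ha' : l ∣ a + η := by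
    rcases hres a with ⟨c, hc⟩ | ⟨c, hc⟩ | ⟨c, hc⟩
    · exfalso
      apply h1
      refine ⟨η * (l * u ^ 2 - l ^ 2 * c ^ 3 - l * e), ?_⟩
      subst hc
      linear_combination -hη2 - η * hAeq - η * hD
    · rcases hη with rfl | rfl
      · exfalso
        apply h2
        refine ⟨l * u ^ 2 - l * e - 3 * c - 3 * l * c ^ 2 - l ^ 2 * c ^ 3, ?_⟩
        have hc' : a = 1 + l * c := by linear_combination hc
        subst hc'
        linear_combination -hAeq - hD
      · exact ⟨c, by linear_combination hc⟩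
    · rcases hη with rfl | rfl
      · exact ⟨c, by linear_combination hc⟩
      · exfalso
        apply h2
        refine ⟨-(l * u ^ 2) + l * e + 3 * c - 3 * l * c ^ 2 + l ^ 2 * c ^ 3, ?_⟩
        have hc' : a = -1 + l * c := by linear_combination hc
        subst hc'
        linear_combination hAeq + hD
  obtain ⟨s, hs⟩ := ha'
  have hs' : a = -η + l * s := by linear_combination hs
  exact ⟨s, by rw [← ha, hs']⟩

/-- [SH2b] helper: `V (x + η) < 1` implies `V y < 1` -/
theorem SH2b_y (hl : Irreducible l) (h3 : (3 : A) = ε * l ^ 2)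
    {η e : A} (hη : η = 1 ∨ η = -1) (hD : D = η + l ^ 2 * e) {x y : K} (h : y ^ 2 = x ^ 3 + algebraMap A K D)
    (hx : (IsDiscreteValuationRing.maximalIdeal A).valuation K (x + algebraMap A K η) < 1) :
    (IsDiscreteValuationRing.maximalIdeal A).valuation K y < 1 := by
  have hη2 : η ^ 2 = 1 := by rcases hη with rfl | rfl <;> ring
  obtain ⟨s, hs⟩ := JG.shd_dvd hl hx
  have hx' : x = algebraMap A K (-η + l * s) := by
    rw [map_add, map_neg, ← hs]
    ring
  have h1 : y ^ 2 = algebraMap A K (l * (l ^ 2 * s * ε - η * ε * l ^ 3 * s ^ 2 + l ^ 2 * s ^ 3 + l * e)) := by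
    rw [h, hx', ← map_pow, ← map_add]
    congr 1
    rw [hD]
    linear_combination (l * s - η * l ^ 2 * s ^ 2) * h3 + (-η + 3 * l * s) * hη2
  have h2 : (IsDiscreteValuationRing.maximalIdeal A).valuation K (y ^ 2) < 1 := by
    rw [h1]
    exact JG.shc_lt1 hl _
  rw [map_pow] at h2
  by_contra hcon
  exact absurd (one_le_pow₀ (not_lt.1 hcon) (n := 2)) (not_le.2 h2)

/-- [SH2b] -/
theorem closedY2 (hl : Irreducible l) (hε : IsUnit ε) (h3 : (3 : A) = ε * l ^ 2) (hres : ∀ x : A, l ∣ x ∨ l ∣ x - 1 ∨ l ∣ x + 1)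
    {η e : A} (hη : η = 1 ∨ η = -1) (hD : D = η + l ^ 2 * e)
    (P Q : ((ED D).map (algebraMap A K)).toAffine.Point) (hP : ¬ VC63.NR (ED D) P) (hQ : VC63.NR (ED D) Q) :
    ¬ VC63.NR (ED D) (P + Q) := by
  have hinj : Function.Injective (algebraMap A K) := IsFractionRing.injective A K
  have hη2 : η ^ 2 = 1 := by rcases hη with rfl | rfl <;> ring
  rcases P with _ | ⟨x, y, h⟩
  · exact absurd trivial hP
  rcases Q with _ | ⟨xQ, yQ, hQ'⟩
  · have e : (.some x y h : ((ED D).map (algebraMap A K)).toAffine.Point) + .zero = .some x y h := add_zero _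
    rw [e]
    exact hP
  rw [nrY2 hl hε h3 hres hη hD] at hP hQ
  set V := (IsDiscreteValuationRing.maximalIdeal A).valuation K with hV
  rw [not_le] at hP
  have e₁ := h.1
  have e₂ := hQ'.1
  rw [ED_map, ED_equation] at e₁ e₂
  obtain ⟨s, hs⟩ := SH2b_x hl h3 hres hη hD e₁ hP
  have hxη : V (x + algebraMap A K η) < 1 := by
    rw [hs, ← map_add, show -η + l * s + η = l * s by ring]
    exact JG.shc_lt1 hl _
  have hQη : 1 ≤ V (xQ + algebraMap A K η) := by
    by_contra hcon
    exact absurd (SH2b_y hl h3 hη hD e₂ (not_le.1 hcon)) (not_lt.2 hQ)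
  have hne : x ≠ xQ := by
    rintro rfl
    exact absurd hxη (not_lt.2 hQη)
  have hxy : ¬(x = xQ ∧ y = ((ED D).map (algebraMap A K)).toAffine.negY xQ yQ) := fun h => hne h.1
  rw [WeierstrassCurve.Affine.Point.add_some hxy, nrY2 hl hε h3 hres hη hD, not_le]
  have h4 := (WeierstrassCurve.Affine.nonsingular_add h hQ' hxy).1
  have h5 := JD.s4c_eq ((ED D).map (algebraMap A K)).toAffine (by simp [ED]) (by simp [ED]) (by simp [ED])
        (by simp [ED]) (d := algebraMap A K D) (by simp [ED]) h4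
  apply SH2b_y hl h3 hη hD h5
  rw [WeierstrassCurve.Affine.slope_of_X_ne hne]
  have hX : ((ED D).map (algebraMap A K)).toAffine.addX x xQ ((y - yQ) / (x - xQ)) = ((y - yQ) / (x - xQ)) ^ 2 - x - xQ := by
    rw [WeierstrassCurve.Affine.addX]
    simp [ED]
  rw [hX]
  have hx0 : x - xQ ≠ 0 := sub_ne_zero.2 hne
  have hvx : V (x - xQ) = V (xQ + algebraMap A K η) := by
    rw [show x - xQ = (x + algebraMap A K η) - (xQ + algebraMap A K η) by ring]
    exact Valuation.map_sub_eq_of_lt_right _ (lt_of_lt_of_le hxη hQη)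
  have key : (((y - yQ) / (x - xQ)) ^ 2 - x - xQ + algebraMap A K η) * (x - xQ) ^ 2 =
      (2 * algebraMap A K D + algebraMap A K η * x ^ 2) + xQ * (x ^ 2 - 2 * algebraMap A K η * x) +
        xQ ^ 2 * (x + algebraMap A K η) - 2 * y * yQ := by
    field_simp
    linear_combination e₁ + e₂
  have hpos : 0 < V (x - xQ) := zero_lt_iff.2 ((Valuation.ne_zero_iff _).2 hx0)
  suffices hsuf : V ((2 * algebraMap A K D + algebraMap A K η * x ^ 2) + xQ * (x ^ 2 - 2 * algebraMap A K η * x) +
        xQ ^ 2 * (x + algebraMap A K η) - 2 * y * yQ) < V (x - xQ) ^ 2 by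
    rw [← key, map_mul, map_pow] at hsuf
    by_contra hcon
    rw [not_lt] at hcon
    exact absurd (le_mul_of_one_le_left (zero_le : 0 ≤ V (x - xQ) ^ 2) hcon) (not_le.2 hsuf)
  have t1 : V (2 * algebraMap A K D + algebraMap A K η * x ^ 2) < 1 := by
    have e : 2 * algebraMap A K D + algebraMap A K η * x ^ 2 =
        algebraMap A K (l * (ε * η * l + 2 * l * e - 2 * s + η * l * s ^ 2)) := by
      rw [hs, show (2 : K) = algebraMap A K 2 by rw [map_ofNat], ← map_mul, ← map_pow, ← map_mul, ← map_add]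
      congr 1
      rw [hD]
      linear_combination (η - 2 * l * s) * hη2 + η * h3
    rw [e]
    exact JG.shc_lt1 hl _
  have t2 : V (x ^ 2 - 2 * algebraMap A K η * x) < 1 := by
    have e : x ^ 2 - 2 * algebraMap A K η * x = algebraMap A K (l * (ε * l - 4 * η * s + l * s ^ 2)) := by
      rw [hs, show (2 : K) = algebraMap A K 2 by rw [map_ofNat], ← map_mul, ← map_pow, ← map_mul, ← map_sub]
      congr 1
      linear_combination 3 * hη2 + h3
    rw [e]
    exact JG.shc_lt1 hl _
  have v2 : V 2 ≤ 1 := by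
    rw [show (2 : K) = algebraMap A K 2 by rw [map_ofNat]]
    exact JG.shc_le _
  have vD : V (algebraMap A K D) ≤ 1 := JG.shc_le _
  rw [hvx]
  have t4 : V (2 * y * yQ) ≤ V y * V yQ := by
    rw [map_mul, map_mul]
    exact mul_le_mul_left (mul_le_of_le_one_left' v2) _
  rcases le_or_gt (V xQ) 1 with hq | hq
  · have hyQ : V yQ ≤ 1 := by
      by_contra hcon
      rw [not_le] at hcon
      have h6 : V (yQ ^ 2) ≤ 1 := by
        rw [e₂]
        refine Valuation.map_add_le V ?_ vD
        rw [map_pow]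
        exact pow_le_one' hq 3
      rw [map_pow] at h6
      exact absurd (one_lt_pow₀ hcon two_ne_zero) (not_lt.2 h6)
    have h7 : V ((2 * algebraMap A K D + algebraMap A K η * x ^ 2) + xQ * (x ^ 2 - 2 * algebraMap A K η * x) +
        xQ ^ 2 * (x + algebraMap A K η) - 2 * y * yQ) < 1 := by
      refine Valuation.map_sub_lt V (Valuation.map_add_lt V (Valuation.map_add_lt V t1 ?_) ?_) ?_
      · rw [map_mul]
        exact lt_of_le_of_lt (mul_le_of_le_one_left' hq) t2
      · rw [map_mul, map_pow]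
        exact lt_of_le_of_lt (mul_le_of_le_one_left' (pow_le_one' hq 2)) hxη
      · exact lt_of_le_of_lt (t4.trans (mul_le_of_le_one_right' hyQ)) hP
    exact lt_of_lt_of_le h7 (one_le_pow₀ hQη)
  · have hqη : V (xQ + algebraMap A K η) = V xQ :=
      Valuation.map_add_eq_of_lt_left _ (lt_of_le_of_lt (JG.shc_le _) hq)
    rw [hqη]
    have hq1 : 1 < V xQ ^ 2 := one_lt_pow₀ hq two_ne_zero
    have hyQ : V yQ ≤ V xQ ^ 2 := by
      have h6 : V yQ ^ 2 = V xQ ^ 3 := by
        rw [← map_pow, e₂, Valuation.map_add_eq_of_lt_left, map_pow]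
        rw [map_pow]
        exact lt_of_le_of_lt vD (one_lt_pow₀ hq (by norm_num))
      by_contra hcon
      rw [not_le] at hcon
      have h7 : V xQ ^ 3 ≤ (V xQ ^ 2) ^ 2 := by
        rw [← pow_mul]
        exact pow_le_pow_right₀ hq.le (by norm_num)
      have h8 : (V xQ ^ 2) ^ 2 < V yQ ^ 2 := pow_lt_pow_left₀ hcon zero_le two_ne_zero
      rw [h6] at h8
      exact absurd h7 (not_le.2 h8)
    have hq0 : 0 < V xQ := lt_trans zero_lt_one hq
    refine Valuation.map_sub_lt V (Valuation.map_add_lt V (Valuation.map_add_lt V (t1.trans hq1) ?_) ?_) ?_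
    · rw [map_mul, show V xQ ^ 2 = V xQ * V xQ from pow_two _]
      exact mul_lt_mul_of_pos_left (t2.trans hq) hq0
    · rw [map_mul, map_pow]
      exact mul_lt_of_lt_one_right (pow_pos hq0 2) hxη
    · refine lt_of_le_of_lt (t4.trans (mul_le_mul_right hyQ _)) ?_
      exact mul_lt_of_lt_one_left (pow_pos hq0 2) hP

variable (K)

/-- [SH2b] -/
theorem even_la (hl : Irreducible l) (hε : IsUnit ε) (h3 : (3 : A) = ε * l ^ 2) (hres : ∀ x : A, l ∣ x ∨ l ∣ x - 1 ∨ l ∣ x + 1)
    {η e : A} (hη : η = 1 ∨ η = -1) (hD : D = η + l ^ 2 * e) (h6 : (6 : K) ≠ 0)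
    (hu : ∀ T : WeierstrassCurve.VariableChange K, (T • (ED D).map (algebraMap A K)).IsMinimal A →
      (IsDiscreteValuationRing.maximalIdeal A).valuation K (T.u : K) = 1) (ρ : A) (hρ : ρ ^ 3 = D) :
    2 ∣ SBSD.tamagawa A (ED (algebraMap A K D)) := by
  have hinj : Function.Injective (algebraMap A K) := IsFractionRing.injective A K
  have hη2 : η ^ 2 = 1 := by rcases hη with rfl | rfl <;> ring
  have hX : ∀ (x y : K) (h : ((ED D).map (algebraMap A K)).toAffine.Nonsingular x y),
      VC63.NR (ED D) (.some x y h) ↔ 1 ≤ (IsDiscreteValuationRing.maximalIdeal A).valuation K y :=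
    fun x y h => nrY2 hl hε h3 hres hη hD x y h
  have hρ0 : algebraMap A K ρ ≠ 0 := by
    intro h
    have h1 : ρ = 0 := hinj (by rw [h, map_zero])
    rw [h1] at hρ
    apply hl.not_isUnit
    apply IsUnit.of_mul_eq_one (-(l * e * η))
    linear_combination η * hD + η * hρ + hη2
  have h3K : (3 : K) ≠ 0 := fun h => h6 (by linear_combination 2 * h)
  have hρK : (algebraMap A K ρ) ^ 3 = algebraMap A K D := by rw [← map_pow, hρ]
  have hTn : ((ED D).map (algebraMap A K)).toAffine.Nonsingular (-algebraMap A K ρ) 0 := by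
    rw [ED_map, JG.SHa_ns]
    refine ⟨by rw [← hρK]; ring, Or.inl ?_⟩
    rw [neg_sq]
    exact mul_ne_zero h3K (pow_ne_zero 2 hρ0)
  have hneg : ∀ x y : K, ((ED D).map (algebraMap A K)).toAffine.negY x y = -y := by
    intro x y
    rw [WeierstrassCurve.Affine.negY]
    simp [ED]
  rw [← ED_map, VC63.tamagawa_eq (ED D) hu]
  refine two_dvd_index _ trivial ?_ (fun P Q hP hQ => closedY2 hl hε h3 hres hη hD P Q hP hQ)
    (.some (-algebraMap A K ρ) 0 hTn) ?_ ?_
  · intro P hP
    match P, hP with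
    | .zero, _ => exact trivial
    | .some x y h, hP =>
      have h1 : 1 ≤ (IsDiscreteValuationRing.maximalIdeal A).valuation K y := (hX x y h).1 hP
      change VC63.NR (ED D) (-(.some x y h))
      rw [WeierstrassCurve.Affine.Point.neg_some, hX, hneg, Valuation.map_neg]
      exact h1
  · intro h
    have h1 := (hX _ _ hTn).1 h
    rw [map_zero] at h1
    exact absurd h1 (not_le.2 zero_lt_one)
  · have h1 : -(WeierstrassCurve.Affine.Point.some (-algebraMap A K ρ) 0 hTn :
        ((ED D).map (algebraMap A K)).toAffine.Point) = .some (-algebraMap A K ρ) 0 hTn := by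
      rw [WeierstrassCurve.Affine.Point.neg_some, WeierstrassCurve.Affine.Point.some.injEq]
      exact ⟨rfl, by rw [hneg, neg_zero]⟩
    have h2 : (WeierstrassCurve.Affine.Point.some (-algebraMap A K ρ) 0 hTn :
        ((ED D).map (algebraMap A K)).toAffine.Point) + .some (-algebraMap A K ρ) 0 hTn = 0 := by
      rw [add_eq_zero_iff_eq_neg]
      exact h1.symm
    rw [h2]
    exact trivial

end

/-- [SH2c] -/
theorem cube_of_mod (v : HeightOneSpectrum (𝓞 KK)) (h3 : IsUnit (3 : v.adicCompletionIntegers KK)) {π c x : v.adicCompletionIntegers KK}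
    (hπ : Irreducible π) (hc : IsUnit c) (h : π ∣ c - x ^ 3) : ∃ y : v.adicCompletionIntegers KK, y ^ 3 = c := by
  have h3v : Valued.v (3 : v.adicCompletion KK) = (1 : WithZero (Multiplicative ℤ)) := by
    have e : ((3 : v.adicCompletionIntegers KK) : v.adicCompletion KK) = 3 :=
      map_ofNat (algebraMap (v.adicCompletionIntegers KK) (v.adicCompletion KK)) 3
    rw [← e]
    exact HeightOneSpectrum.adicCompletionIntegers.isUnit_iff_valued_eq_one.1 h3
  have hcv : Valued.v (c : v.adicCompletion KK) = (1 : WithZero (Multiplicative ℤ)) :=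
    HeightOneSpectrum.adicCompletionIntegers.isUnit_iff_valued_eq_one.1 hc
  have hπv : Valued.v (π : v.adicCompletion KK) < (1 : WithZero (Multiplicative ℤ)) :=
    JG.she_lt v hπ.not_isUnit
  obtain ⟨t, ht⟩ := h
  have hct : Valued.v ((c : v.adicCompletion KK) - (x : v.adicCompletion KK) ^ 3) < (1 : WithZero (Multiplicative ℤ)) := by
    have e : (c : v.adicCompletion KK) - (x : v.adicCompletion KK) ^ 3 =
        (π : v.adicCompletion KK) * (t : v.adicCompletion KK) := by
      have h5 := congrArg (algebraMap (v.adicCompletionIntegers KK) (v.adicCompletion KK)) ht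
      rw [map_sub, map_pow, map_mul] at h5
      exact h5
    rw [e, map_mul]
    calc Valued.v (π : v.adicCompletion KK) * Valued.v (t : v.adicCompletion KK)
        ≤ Valued.v (π : v.adicCompletion KK) * 1 := mul_le_mul' le_rfl t.2
      _ < 1 := by rw [mul_one]; exact hπv
  have hx3 : Valued.v ((x : v.adicCompletion KK) ^ 3) = (1 : WithZero (Multiplicative ℤ)) := by
    have e : (x : v.adicCompletion KK) ^ 3 = (c : v.adicCompletion KK) -
        ((c : v.adicCompletion KK) - (x : v.adicCompletion KK) ^ 3) := by ring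
    rw [e, Valuation.map_sub_eq_of_lt_left _ (by rw [hcv]; exact hct), hcv]
  have hx1 : Valued.v (x : v.adicCompletion KK) = (1 : WithZero (Multiplicative ℤ)) := by
    refine le_antisymm x.2 (not_lt.1 fun hlt => ?_)
    rw [map_pow] at hx3
    exact absurd hx3 (pow_lt_one₀ zero_le hlt (by norm_num)).ne
  obtain ⟨w, hw, -⟩ := JD.hensel3 v (p := 0) (q := 0) (t := -(c : v.adicCompletion KK)) (x₀ := (x : v.adicCompletion KK))
    (by rw [map_zero]; exact zero_le) (by rw [map_zero]; exact zero_le) (by rw [Valuation.map_neg]; exact hcv.le) hx1.le (by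
      have e : (x : v.adicCompletion KK) ^ 3 + 0 * (x : v.adicCompletion KK) ^ 2 + 0 * (x : v.adicCompletion KK) +
          -(c : v.adicCompletion KK) = -((c : v.adicCompletion KK) - (x : v.adicCompletion KK) ^ 3) := by ring
      rw [e, Valuation.map_neg]
      exact hct) (by
      have e : 3 * (x : v.adicCompletion KK) ^ 2 + 2 * 0 * (x : v.adicCompletion KK) + 0 =
          3 * (x : v.adicCompletion KK) ^ 2 := by ring
      rw [e, map_mul, map_pow, h3v, hx1, one_pow, mul_one])
  have hw3 : w ^ 3 = (c : v.adicCompletion KK) := by linear_combination hw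
  have hwi : w ∈ v.adicCompletionIntegers KK := by
    show Valued.v w ≤ (1 : WithZero (Multiplicative ℤ))
    by_contra hcon
    push Not at hcon
    have h1 := one_lt_pow₀ hcon three_ne_zero
    rw [← map_pow, hw3, hcv] at h1
    exact lt_irrefl _ h1
  refine ⟨⟨w, hwi⟩, ?_⟩
  apply Subtype.ext
  exact hw3

/-- [SH2c] helper -/
theorem SH2c_cube4 (v : HeightOneSpectrum (𝓞 KK)) {l ε : v.adicCompletionIntegers KK} (hl : Irreducible l) (hε : IsUnit ε)
    (h3 : 3 = ε * l ^ 2) (n : v.adicCompletionIntegers KK) : ∃ y : v.adicCompletionIntegers KK, y ^ 3 = 1 + l ^ 4 * n := by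
  have hlv : Valued.v (l : v.adicCompletion KK) < (1 : WithZero (Multiplicative ℤ)) := JG.she_lt v hl.not_isUnit
  have hεv : Valued.v (ε : v.adicCompletion KK) = (1 : WithZero (Multiplicative ℤ)) :=
    HeightOneSpectrum.adicCompletionIntegers.isUnit_iff_valued_eq_one.1 hε
  have h3K : (3 : v.adicCompletion KK) = (ε : v.adicCompletion KK) * (l : v.adicCompletion KK) ^ 2 := by
    have h5 := congrArg (algebraMap (v.adicCompletionIntegers KK) (v.adicCompletion KK)) h3
    rw [map_ofNat, map_mul, map_pow] at h5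
    exact h5
  have hln : Valued.v ((l : v.adicCompletion KK) * (n : v.adicCompletion KK)) < (1 : WithZero (Multiplicative ℤ)) := by
    rw [map_mul]
    calc Valued.v (l : v.adicCompletion KK) * Valued.v (n : v.adicCompletion KK)
        ≤ Valued.v (l : v.adicCompletion KK) * 1 := mul_le_mul' le_rfl n.2
      _ < 1 := by rw [mul_one]; exact hlv
  obtain ⟨w, hw, hw'⟩ := JD.hensel3 v (p := (ε : v.adicCompletion KK) * (l : v.adicCompletion KK)) (q := (ε : v.adicCompletion KK))
    (t := -((l : v.adicCompletion KK) * (n : v.adicCompletion KK))) (x₀ := 0)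
    (by rw [map_mul, hεv, one_mul]; exact hlv.le) hεv.le (by rw [Valuation.map_neg]; exact hln.le)
    (by rw [map_zero]; exact zero_le) (by
      have e : (0 : v.adicCompletion KK) ^ 3 + (ε : v.adicCompletion KK) * (l : v.adicCompletion KK) * 0 ^ 2 +
          (ε : v.adicCompletion KK) * 0 + -((l : v.adicCompletion KK) * (n : v.adicCompletion KK)) =
          -((l : v.adicCompletion KK) * (n : v.adicCompletion KK)) := by ring
      rw [e, Valuation.map_neg]
      exact hln) (by
      have e : 3 * (0 : v.adicCompletion KK) ^ 2 + 2 * ((ε : v.adicCompletion KK) * (l : v.adicCompletion KK)) * 0 +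
          (ε : v.adicCompletion KK) = (ε : v.adicCompletion KK) := by ring
      rw [e]
      exact hεv)
  rw [sub_zero] at hw'
  refine ⟨1 + l * ⟨w, hw'.le⟩, ?_⟩
  apply Subtype.ext
  change (1 + (l : v.adicCompletion KK) * w) ^ 3 = 1 + (l : v.adicCompletion KK) ^ 4 * (n : v.adicCompletion KK)
  linear_combination (l : v.adicCompletion KK) ^ 3 * hw + ((l : v.adicCompletion KK) * w + (l : v.adicCompletion KK) ^ 2 * w ^ 2) * h3K

/-- [SH2c] -/
theorem cl2_of {D : Eis} (hfree : ∀ p : Eis, Prime p → ¬ p ^ 6 ∣ D) (hncube : ¬ ∃ x : Eis, x ^ 3 = D)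
    (htam : ∀ v : HeightOneSpectrum (𝓞 KK), ¬ 2 ∣ SBSD.tam (ED (jK D)) v) : Cl2 D := by
  have hdom : IsDomain Eis := eis_isDomain
  have hcon : ∀ v : HeightOneSpectrum (𝓞 KK), ¬ 2 ∣ SBSD.tamagawa (v.adicCompletionIntegers KK)
      (ED (algebraMap (v.adicCompletionIntegers KK) (v.adicCompletion KK) (t5b_lo v D))) := by
    intro v h
    apply htam v
    unfold SBSD.tam
    rw [JD.bc]
    exact h
  have hvp : ∀ (p : Eis) (hp : Prime p), (CU.pl p hp).asIdeal = Ideal.span {eE p} := fun p hp => rfl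
  refine ⟨hfree, hncube, ?_, ?_, ?_, ?_⟩
  · intro p c hp h6 hc hD x hx
    have hv := hvp p hp
    set v := CU.pl p hp with hvdef
    have hl := CU.t5b_irr' hp hv
    have h3u : IsUnit (3 : v.adicCompletionIntegers KK) := by
      have h1 := CU.t5b_unit hv 3 (fun h => h6 (h.trans ⟨2, by norm_num⟩))
      rwa [map_ofNat] at h1
    have h6u : IsUnit (6 : v.adicCompletionIntegers KK) := by
      have h1 := CU.t5b_unit hv 6 h6
      rwa [map_ofNat] at h1
    have hcu := CU.t5b_unit hv c hc
    obtain ⟨y, hy⟩ := cube_of_mod v h3u hl hcu (x := t5b_lo v x) (by rw [← map_pow, ← map_sub]; exact map_dvd _ hx)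
    have hlo : t5b_lo v D = t5b_lo v p ^ 3 * t5b_lo v c := by rw [hD, map_mul, map_pow]
    apply hcon v
    rw [hlo]
    refine even_root (v.adicCompletion KK) hl (mul_ne_zero (pow_ne_zero _ hl.ne_zero) hcu.ne_zero) (JD.s5b_six_ne v)
      (JG.unit_p' h6u _ _ hl hcu 3 (by norm_num)) (t5b_lo v p * y) ?_ (Dvd.intro _ rfl)
    rw [mul_pow, hy]
  · intro η hη hdvd
    have hv := hvp la CU.la_prime
    set v := CU.pl la CU.la_prime with hvdef
    have hl := CU.t5b_irr' CU.la_prime hv
    have hε := CU.t5b_eps v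
    have h3 := CU.t5b_three v
    obtain ⟨d, hd⟩ := hdvd
    have hlaD : ¬ la ∣ D := by
      intro h
      have h4 : la ∣ η := by
        have h5 := dvd_sub h (Dvd.intro (la ^ 3 * d) (by ring) : la ∣ la ^ 4 * d)
        rwa [← hd, sub_sub_cancel] at h5
      apply CU.la_prime.not_isUnit
      rcases hη with rfl | rfl
      · exact isUnit_of_dvd_one h4
      · exact isUnit_of_dvd_one ((dvd_neg).1 h4)
    have hη' : t5b_lo v η = 1 ∨ t5b_lo v η = -1 := by
      rcases hη with rfl | rfl
      · left; rw [map_one]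
      · right; rw [map_neg, map_one]
    have hlo : t5b_lo v D = t5b_lo v η + t5b_lo v la ^ 2 * (t5b_lo v la ^ 2 * t5b_lo v d) := by
      have h1 : D = η + la ^ 2 * (la ^ 2 * d) := by linear_combination hd
      rw [h1]
      simp only [map_add, map_mul, map_pow]
    obtain ⟨y, hy⟩ := SH2c_cube4 v hl hε h3 (t5b_lo v η * t5b_lo v d)
    refine hcon v (even_la (v.adicCompletion KK) hl hε h3 (CU.t5b_res hv) hη' hlo (JD.s5b_six_ne v) ?_ (t5b_lo v η * y) ?_)
    · have h5 := JG.unit_la' (K := v.adicCompletion KK) hl hε h3 (CU.t5b_res hv) _ (CU.t5b_unit hv D hlaD) 0 (by norm_num)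
        (fun h => by omega)
      rw [pow_zero, one_mul] at h5
      exact h5
    · have hη2 : t5b_lo v η ^ 2 = 1 := by
        rcases hη' with h | h <;> rw [h] <;> ring
      rw [mul_pow, hy, hlo]
      linear_combination (t5b_lo v η + t5b_lo v la ^ 4 * t5b_lo v d * (1 + t5b_lo v η ^ 2)) * hη2
  · intro c hD hx
    have hc : ¬ (2 : Eis) ∣ c := by
      intro h
      have h1 := dvd_sub h hx
      rw [sub_sub_cancel] at h1
      exact TH.b4_two_prime.not_isUnit (isUnit_of_dvd_one h1)
    have hv := hvp 2 TH.b4_two_prime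
    set v := CU.pl 2 TH.b4_two_prime with hvdef
    have hl := CU.t5b_irr' TH.b4_two_prime hv
    rw [map_ofNat] at hl
    have hcu := CU.t5b_unit hv c hc
    obtain ⟨y, hy⟩ := cube_of_mod v (JG.sa_three_unit hl) hl hcu (x := 1) (by
      have h1 := map_dvd (t5b_lo v) hx
      rw [map_ofNat, map_sub, map_one] at h1
      rwa [one_pow])
    have hlo : t5b_lo v D = 2 ^ 3 * t5b_lo v c := by
      rw [hD, map_mul, map_ofNat]
      norm_num
    apply hcon v
    rw [hlo]
    refine even_root (v.adicCompletion KK) hl (mul_ne_zero (pow_ne_zero _ hl.ne_zero) hcu.ne_zero) (JD.s5b_six_ne v)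
      (JG.unit_two' hl _ hcu 3 (by norm_num) (fun h => by omega)) (2 * y) ?_ (Dvd.intro _ rfl)
    rw [mul_pow, hy]
  · intro c hc hD y hx
    have hy2 : ¬ (2 : Eis) ∣ y := by
      rintro ⟨z, hz⟩
      obtain ⟨t, ht⟩ := hx
      exact hc ⟨2 * z ^ 2 + 1 + 2 * t, by linear_combination ht + (y + 2 * z) * hz⟩
    have hv := hvp 2 TH.b4_two_prime
    set v := CU.pl 2 TH.b4_two_prime with hvdef
    have hl := CU.t5b_irr' TH.b4_two_prime hv
    rw [map_ofNat] at hl
    have hcu := CU.t5b_unit hv c hc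
    have hyu := CU.t5b_unit hv y hy2
    obtain ⟨t, ht⟩ := hx
    have hlc : t5b_lo v c = t5b_lo v y ^ 2 + 2 + 4 * t5b_lo v t := by
      have h1 : c = y ^ 2 + 2 + 4 * t := by linear_combination ht
      rw [h1]
      simp only [map_add, map_mul, map_pow, map_ofNat]
    have hwu : IsUnit (-(1 + 2 * t5b_lo v t)) := by
      have h1 : ¬ (2 : Eis) ∣ -(1 + 2 * t) := by
        rintro ⟨z, hz⟩
        exact TH.b4_two_prime.not_isUnit (isUnit_of_dvd_one ⟨-t - z, by linear_combination -hz⟩)
      have h2 := CU.t5b_unit hv _ h1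
      simpa only [map_neg, map_add, map_one, map_mul, map_ofNat] using h2
    obtain ⟨X, hX⟩ := cube_of_mod v (JG.sa_three_unit hl) hl hwu (x := -1) ⟨-t5b_lo v t, by ring⟩
    have hXu : IsUnit X := by
      rw [← hX] at hwu
      exact isUnit_of_dvd_unit (dvd_pow_self X three_ne_zero) hwu
    have hlo : t5b_lo v D = 2 ^ 2 * t5b_lo v c := by
      rw [hD, map_mul, map_ofNat]
      norm_num
    apply hcon v
    rw [hlo]
    refine even_two2 (v.adicCompletion KK) hl (JD.s5b_six_ne v) hXu hyu ?_ (by ring)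
      (JG.unit_two' hl _ hcu 2 (by norm_num) (fun h => by omega))
    rw [hX, hlc]
    ring

/-- [SH2c] -/
theorem ncube_of {D : Eis} (hD : D ≠ 0) (h : ∀ P : (ED (jK D)).toAffine.Point, 2 • P = 0 → P = 0) : ¬ ∃ x : Eis, x ^ 3 = D := by
  rintro ⟨x, hx⟩
  have hx0 : x ≠ 0 := by
    rintro rfl
    exact hD (by rw [← hx]; ring)
  have hy0 : (jK x : KK) ≠ 0 := by
    intro h0
    exact hx0 (JD.jK_inj (h0.trans (map_zero _).symm))
  have hy : (jK x : KK) ^ 3 = jK D := by rw [← map_pow, hx]
  have hns : (ED (jK D)).toAffine.Nonsingular (-jK x) 0 := by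
    rw [JG.SHa_ns]
    refine ⟨by rw [← hy]; ring, Or.inl ?_⟩
    rw [neg_sq]
    exact mul_ne_zero three_ne_zero (pow_ne_zero 2 hy0)
  have hneg : (ED (jK D)).toAffine.negY (-jK x) 0 = 0 := by
    simp [WeierstrassCurve.Affine.negY, ED]
  have h1 : -(WeierstrassCurve.Affine.Point.some (-jK x) 0 hns : (ED (jK D)).toAffine.Point) = .some (-jK x) 0 hns := by
    rw [WeierstrassCurve.Affine.Point.neg_some, WeierstrassCurve.Affine.Point.some.injEq]
    exact ⟨rfl, hneg⟩
  have h2 := h (.some (-jK x) 0 hns) (by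
    rw [two_smul, add_eq_zero_iff_eq_neg]
    exact h1.symm)
  exact WeierstrassCurve.Affine.Point.some_ne_zero hns h2

end JT
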