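import Pool.Agent.JG.ST

/-!
# [JT-ST2] the Tamagawa numbers of `y² = x³ + D` are odd (abstract discrete valuation ring `A`)

The reduction types with an even Tamagawa number are excluded, the Tamagawa number is `1` or `3`. See JG/ST.lean (the files `tamX`, `tamY`, `STb_add`, `tamI` there are the model).

PROOF. `index_odd3` [ST2a]: let `H` be the closure of `S`. `3 P ∈ H` for all `P` (`P ∈ S`: clear; `P ∉ S`: hypothesis `h3`), so `G ⧸ H` has exponent 3. `G ⧸ H` is finite: `q ↦ if q = 0 then none else some (f q.out)` is injective (as in `JD.index_odd`, JD/S4.lean; `q.out ∉ S` for `q ≠ 0`; `f q.out = f q'.out` gives `q.out - q'.out ∈ S`, so `q = q'`). If `2` divides the order there is an element of order 2 (Cauchy), but `3 x = 0`.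
`tamV` [ST2b]: `VC63.tamagawa_eq`, `index_odd3` with `S = {NR}`. A point without `NR` is `(r + p m, q n)`, `n` a unit: `JD.s3_nonsing` (if `3` is a unit and `l ∤ a` then `3 ā² ≠ 0`; if `2` is a unit and `l ∤ b` then `2 b̄ ≠ 0`), `hs`. `f P` = the class of `n` modulo `2 l` (`A ⧸ span {2 l}` is finite: `2 l ≠ 0`; in a discrete valuation ring with finite residue field;
or take as target two digits: `(n mod l, ((n - σ(n)) / l) mod l)` with a section `σ` of the residue map; `2 l ∣ l²` unit, since `l ∣ 2` implies `2 ~ l` is not known in general, so better use the finiteness of `A ⧸ l^k` for `2 l ~ l^k`: `IsLocalRing.finite_quotient_iff` or induction on `k`).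
 (i) `P = (r + p m₁, q n₁)`, `Q = (r + p m₂, q n₂)`, `n₁ - n₂ = 2 l t`: `P - Q = P + (r + p m₂, - q n₂)` has `NR`: if it is not `0`: the slope `μ` (`JD.s4c_slope`: `μ (y_P + y_{-Q}') = x² + x x' + x'²` has to be replaced: here use `WeierstrassCurve.Affine.slope_of_X_ne`): if `m₁ ≠ m₂`: `μ = (q n₁ + q n₂) / (p (m₁ - m₂))`, and `q (n₁ + n₂) = 2 q (n₁ - l t) = p u (n₁ - l t)`, so `μ = w / (m₁ - m₂)` with a unit `w ∈ A`.
 If `m₁ = m₂`: both points have the same `x`, `y_P² = y_Q²`, so `q n₁ = ± q n₂`; `n₁ = n₂`: `P - Q = 0`; `n₁ = - n₂`: then `2 n₁ = 2 l t`, `n₁ = l t` (`2 ≠ 0` in `A`: if `2 = 0` then `u p = 0`), not a unit. `x₃ = μ² - x - x'`, `1 ≤ V μ`. If `1 < V μ`: `V x₃ > 1`, so `NR` (no integral coordinates). If `V μ = 1`: `μ ∈ A` is a unit: `x₃ = μ² - 2 r - p (m₁ + m₂)`, `y₃ = - (μ (x₃ - x) + y) = - μ (μ² - 3 r - p (2 m₁ + m₂)) - q n₁`.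
 If `3` is a unit and `r = 0`: `x₃ ≡ μ² mod l` (`l ∣ p`), `s3_nonsing` (`3 x₃² ≠ 0`). If `2` is a unit and `l ∣ 3`: `l ∣ q` (`2 q = u p`), so `y₃ ≡ - μ³ mod l`: `s3_nonsing` (`2 y₃ ≠ 0`).
 (ii) `P = (r + p m, q n)`: `P + P = (x₃, y₃)` with `μ = 3 x² / (2 y) = p l w / (2 q n) = l w / (u n) =: l w'`, `w' ∈ A`; `x₃ = μ² - 2 x = r + p m₃` (`p ∣ μ²` since `p ∣ (l w)²`, `p ∣ 3 r`), `y₃ = - (μ (x₃ - x) + y) = - (μ p (m₃ - m) + q n)`, `μ p = μ (2 q / u)`: `y₃ = q n₃`, `n₃ = - (n + 2 l w' (m₃ - m) / u)`: so `- (P + P) = (r + p m₃, q (-n₃))`, `-n₃ - n = 2 l (..)`: by (i) `P + (P + P) = P - (-(P + P))` has `NR`.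
`tam_p2` [ST2c] (`hu` from `unit_p'`; `2`, `3` are units). `k = 0`: `JD.tamagawa_good`. `k = 1`, `k = 5`: `tamX` as in `tam_p'`. `k = 3`: `tamX`: `a = l x`, `b = l² b₂`, `l b₂² = x³ + D'` (`STd_three` and its proof), so `l ∣ D' - (-x)³`: contradiction to `hk`. `k = 2`: `tamV` with `r = 0`, `p = q = l`, `u = 2`: `a = l m`, `b = l n`, `n² = l m³ + D'`, `n` a unit; `w = 3 m²`... (`3 (l m)² = l (l (3 m²))`).
`k = 4`: `tamV` with `r = 0`, `p = q = l²`, `u = 2`: `a = l² m`, `b = l² n`, `n² = l² m³ + D'` (the proof of `STd_four`); `w = 3 l m²`.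
`tam_two2` [ST2d] (`3` is a unit, `l = 2`; `hu` from `unit_two'`). `k = 1, 5`: `tamX` as in `tam_two'`. `k = 4`: `tamX`, `h4`. `k = 3`: `tamX`: `a = 2 x`, `b = 4 y`, `2 y² = x³ + D'`; `x` is a unit (`2 ∤ D'`), `x³ ≡ 1 mod 2`: hypothesis `hres4`: so `2 ∣ D' + 1`, i. e. `2 ∣ D' - 1`: contradiction to `h3`.
`k = 0`: `tamV` with `r = 0`, `p = 2`, `q = 1`, `u = 1`: `a = 2 m`, `b = n`, `b² = 8 m³ + D'` a unit; `w = 3 m²`. `k = 2`: `a = 2 x`, `b = 2 y`, `y² = 2 x³ + D'`; if `2 ∤ x` then `x³ ≡ 1 mod 2` and `4 ∣ D' - y² + 2`, so `4 ∣ D' - y² - 2`: contradiction to `h2'`. So `x = 2 m`: `tamV` with `r = 0`, `p = 4`, `q = 2`, `u = 1`: `a = 4 m`, `b = 2 n`, `n² = 16 m³ + D'`; `w = 6 m²`.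
`tam_la2` [ST2e] (`2` is a unit: `sta_two_unit`; `hu` from `unit_la'`; `l ∣ 3`). `k = 1, 5`: `tamY` as in `tam_la'`. `k = 0`: if `l² ∤ D' - η` for `η = ± 1`: `JXD.tamagawa_laX`. Otherwise `l² ∣ D' - η`: `tamV` with `r = -η`, `p = q = l`, `u = 2`: a point with `l ∣ b`: `a³ ≡ - D' ≡ -η mod l`, so `a = -η + l m` (`hres`), `b = l n`, `l² n² = (D' - η) + l³ (m³ + ε m) - η ε l⁴ m²`
(`3 = ε l²`): if `l ∣ n` then `l³ ∣ D' - η` and modulo `l⁴`: `D' - η ≡ - l³ (m³ + ε m) mod l⁴`, `m³ + ε m ≡ m³ - m ≡ 0 mod l` (`hε'`, `hres`): `l⁴ ∣ D' - η`: contradiction to `h0`. So `n` is a unit. `w`: `3 x² = l (l (ε x²))`. `p ∣ 3 r`: clear.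
`k = 2`: `tamV` with `r = 0`, `p = q = l`: `b² = a³ + l² D'`, `l ∣ b`, `l ∣ a`: `n² = l m³ + D'`; `k = 4`: `tamV` with `r = 0`, `p = q = l²` (`STd_four`).
`k = 3`: `a = l a'`, `b = l b'`, `b'² = l (a'³ + D')`, `b' = l b''`, `l b''² = a'³ + D'`, `a' ≡ -D' mod l`: `a' = -η + l m` with `η = ± 1`, `η ≡ D'`; `a'³ = -η + l³ (..)`, so `D' - η = l b''² - l³ (..)`; if `l ∣ b''` then `l³ ∣ D' - η`: contradiction to `h3a`. So `tamV` with `r = -l η`, `p = q = l²`, `u = 2`, `b = l² b''`; `η` is determined by `D'` (`hres D'`). `3 (r + p m)² = 3 l² (-η + l m)² = l² (l (ε l (..)²))`.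
-/

set_option autoImplicit false

open NumberField IsDedekindDomain
open scoped Classical

namespace JT

open JD (ED ED_map ED_Δ ED_c₄ ED_equation)
open JG (tamX tamY unit_p' unit_two' unit_la' STd_three STd_four STd_five sta_two_unit)

/-- [ST2a] -/
theorem index_odd3 {G : Type*} [AddCommGroup G] (S : Set G) (h0 : (0 : G) ∈ S) {α : Type*} [Finite α] (f : G → α)
    (h : ∀ P Q : G, P ∉ S → Q ∉ S → f P = f Q → P - Q ∈ S) (h3 : ∀ P : G, P ∉ S → P + (P + P) ∈ S) :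
    (AddSubgroup.closure S).index ≠ 0 ∧ ¬ 2 ∣ (AddSubgroup.closure S).index := by
  set H := AddSubgroup.closure S with hH
  have hsub : ∀ x ∈ S, x ∈ H := fun x hx => AddSubgroup.subset_closure hx
  have h2 : ∀ q : G ⧸ H, q + (q + q) = 0 := by
    intro q
    induction q using QuotientAddGroup.induction_on with
    | H P =>
      rw [← QuotientAddGroup.mk_add, ← QuotientAddGroup.mk_add, QuotientAddGroup.eq_zero_iff]
      by_cases hP : P ∈ S
      · exact H.add_mem (hsub P hP) (H.add_mem (hsub P hP) (hsub P hP))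
      · exact hsub _ (h3 P hP)
  have hout : ∀ q : G ⧸ H, q ≠ 0 → q.out ∉ S := by
    intro q hq hS
    apply hq
    rw [← QuotientAddGroup.out_eq' q, QuotientAddGroup.eq_zero_iff]
    exact hsub _ hS
  have hinj : Function.Injective
      (fun q : G ⧸ H => if q = 0 then (none : Option α) else some (f q.out)) := by
    intro q q' hqq
    by_cases hq : q = 0
    · by_cases hq' : q' = 0
      · rw [hq, hq']
      · simp [hq, hq'] at hqq
    · by_cases hq' : q' = 0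
      · simp [hq, hq'] at hqq
      · simp only [hq, hq', if_false, Option.some.injEq] at hqq
        have h3 := hsub _ (h _ _ (hout q hq) (hout q' hq') hqq)
        rw [← QuotientAddGroup.eq_zero_iff, QuotientAddGroup.mk_sub, QuotientAddGroup.out_eq',
          QuotientAddGroup.out_eq'] at h3
        exact sub_eq_zero.mp h3
  have hfin : Finite (G ⧸ H) := Finite.of_injective _ hinj
  have hidx : H.index = Nat.card (G ⧸ H) := rfl
  rw [hidx]
  refine ⟨Nat.card_pos.ne', fun h3 => ?_⟩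
  have : Fact (Nat.Prime 2) := ⟨Nat.prime_two⟩
  obtain ⟨x, hx⟩ := exists_prime_addOrderOf_dvd_card' 2 h3
  have h4 : addOrderOf x ∣ 3 := addOrderOf_dvd_of_nsmul_eq_zero (by
    have h5 := h2 x
    rw [← h5]
    abel)
  rw [hx] at h4
  exact absurd h4 (by norm_num)

/-- [ST2e] helper: the descent for the exponent `4` -/
theorem ST2e_four {R : Type} [CommRing R] [IsDomain R] {l D' : R} (hp : Prime l) {a b : R}
    (hab : b ^ 2 = a ^ 3 + l ^ 4 * D') (ha : l ∣ a) : ∃ x y : R, a = l ^ 2 * x ∧ b = l ^ 2 * y ∧ y ^ 2 = l ^ 2 * x ^ 3 + D' := by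
  obtain ⟨a₁, rfl⟩ := ha
  obtain ⟨b₁, rfl⟩ : l ∣ b := hp.dvd_of_dvd_pow (n := 2) ⟨l ^ 2 * a₁ ^ 3 + l ^ 3 * D', by linear_combination hab⟩
  have h1 : b₁ ^ 2 = l * a₁ ^ 3 + l ^ 2 * D' :=
    mul_left_cancel₀ (pow_ne_zero 2 hp.ne_zero) (by linear_combination hab)
  obtain ⟨b₂, rfl⟩ : l ∣ b₁ := hp.dvd_of_dvd_pow (n := 2) ⟨a₁ ^ 3 + l * D', by linear_combination h1⟩
  have h2 : l * b₂ ^ 2 = a₁ ^ 3 + l * D' := mul_left_cancel₀ hp.ne_zero (by linear_combination h1)
  obtain ⟨a₂, rfl⟩ : l ∣ a₁ := hp.dvd_of_dvd_pow (n := 3) ⟨b₂ ^ 2 - D', by linear_combination -h2⟩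
  exact ⟨a₂, b₂, by ring, by ring, mul_left_cancel₀ hp.ne_zero (by linear_combination h2)⟩

/-- [ST2e] helper: `a³ ≡ -η mod l` implies `a ≡ -η mod l` -/
theorem ST2e_key {R : Type} [CommRing R] {l : R} (hl1 : ¬ l ∣ 1) (hl2 : ¬ l ∣ 2)
    (hres : ∀ x : R, l ∣ x ∨ l ∣ x - 1 ∨ l ∣ x + 1) {a η : R} (hη : η = 1 ∨ η = -1) (h : l ∣ a ^ 3 + η) :
    ∃ m : R, a = -η + l * m := by
  obtain ⟨t, ht⟩ := h
  rcases hres a with ⟨c, hc⟩ | ⟨c, hc⟩ | ⟨c, hc⟩
  · exfalso
    have hη2 : η ^ 2 = 1 := by rcases hη with rfl | rfl <;> ring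
    subst hc
    exact hl1 ⟨η * (t - l ^ 2 * c ^ 3), by linear_combination η * ht - hη2⟩
  · rcases hη with rfl | rfl
    · exfalso
      have hc' : a = 1 + l * c := by linear_combination hc
      subst hc'
      exact hl2 ⟨t - 3 * c - 3 * l * c ^ 2 - l ^ 2 * c ^ 3, by linear_combination ht⟩
    · exact ⟨c, by linear_combination hc⟩
  · rcases hη with rfl | rfl
    · exact ⟨c, by linear_combination hc⟩
    · exfalso
      have hc' : a = -1 + l * c := by linear_combination hc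
      subst hc'
      exact hl2 ⟨-t + 3 * c - 3 * l * c ^ 2 + l ^ 2 * c ^ 3, by linear_combination -ht⟩

section
variable (A : Type) [CommRing A] [IsDomain A] [IsDiscreteValuationRing A] (K : Type) [Field K]
  [Algebra A K] [IsFractionRing A K]

/-! ### [ST2b] auxiliary lemmas -/

theorem st2b_some {F : Type} [Field F] {W : WeierstrassCurve.Affine F} {x y x' y' : F} (h : W.Nonsingular x y)
    (hx : x = x') (hy : y = y') : ∃ h' : W.Nonsingular x' y',
      (WeierstrassCurve.Affine.Point.some _ _ h : W.Point) = .some _ _ h' := by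
  subst hx hy
  exact ⟨h, rfl⟩

/-- the sum of two singular points with opposite classes -/
theorem st2b_add (l : A) (hl : Irreducible l) (D r p q u : A)
    (hp : l ∣ p) (hp0 : p ≠ 0) (hun : IsUnit u) (h2q : 2 * q = u * p)
    (hc : (IsUnit (3 : A) ∧ r = 0) ∨ (IsUnit (2 : A) ∧ l ∣ 3)) {m₁ n₁ m₂ n₂ t : A} (hn1 : IsUnit n₁)
    (hn : n₁ + n₂ = 2 * l * t)
    (h₁ : ((ED D).map (algebraMap A K)).toAffine.Nonsingular (algebraMap A K (r + p * m₁)) (algebraMap A K (q * n₁)))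
    (h₂ : ((ED D).map (algebraMap A K)).toAffine.Nonsingular (algebraMap A K (r + p * m₂)) (algebraMap A K (q * n₂))) :
    VC63.NR (ED D) ((.some _ _ h₁ : ((ED D).map (algebraMap A K)).toAffine.Point) + .some _ _ h₂) := by
  have hinj : Function.Injective (algebraMap A K) := IsFractionRing.injective A K
  have e₁ := JD.s3_eq A K h₁
  have e₂ := JD.s3_eq A K h₂
  have hup0 : u * p ≠ 0 := mul_ne_zero hun.ne_zero hp0
  have h20 : (2 : A) ≠ 0 := by
    intro h0
    rw [h0, zero_mul] at h2q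
    exact hup0 h2q.symm
  have hq0 : q ≠ 0 := by
    intro h0
    rw [h0, mul_zero] at h2q
    exact hup0 h2q.symm
  have hneg : ∀ x y : K, ((ED D).map (algebraMap A K)).toAffine.negY x y = -y := by
    intro x y
    rw [WeierstrassCurve.Affine.negY]
    simp [ED]
  by_cases hxy : algebraMap A K (r + p * m₁) = algebraMap A K (r + p * m₂) ∧
      algebraMap A K (q * n₁) = ((ED D).map (algebraMap A K)).toAffine.negY (algebraMap A K (r + p * m₂))
        (algebraMap A K (q * n₂))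
  · rw [WeierstrassCurve.Affine.Point.add_of_Y_eq hxy.1 hxy.2]
    exact trivial
  · -- the abscissas are different
    have hx : r + p * m₁ ≠ r + p * m₂ := by
      intro hx
      have h3 : (q * n₁ - q * n₂) * (q * n₁ + q * n₂) = 0 := by
        rw [hx] at e₁
        linear_combination e₁ - e₂
      rcases mul_eq_zero.1 h3 with h4 | h4
      · have h5 : n₁ = n₂ := mul_left_cancel₀ hq0 (sub_eq_zero.1 h4)
        have h6 : n₁ = l * t := mul_left_cancel₀ h20 (by
          rw [← h5] at hn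
          linear_combination hn)
        exact hl.not_isUnit (isUnit_of_dvd_unit ⟨t, h6⟩ hn1)
      · apply hxy
        refine ⟨by rw [hx], ?_⟩
        rw [hneg, ← map_neg]
        congr 1
        linear_combination h4
    have hx' : algebraMap A K (r + p * m₁) ≠ algebraMap A K (r + p * m₂) := fun h => hx (hinj h)
    rw [WeierstrassCurve.Affine.Point.add_some hxy]
    have h4 := (WeierstrassCurve.Affine.nonsingular_add h₁ h₂ hxy).1
    obtain ⟨μ, hμ⟩ : ∃ μ, μ = ((ED D).map (algebraMap A K)).toAffine.slope (algebraMap A K (r + p * m₁))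
      (algebraMap A K (r + p * m₂)) (algebraMap A K (q * n₁)) (algebraMap A K (q * n₂)) := ⟨_, rfl⟩
    have hμ2 : μ * algebraMap A K (m₁ - m₂) = algebraMap A K (u * (n₁ - l * t)) := by
      have h5 : algebraMap A K (r + p * m₁) - algebraMap A K (r + p * m₂) ≠ 0 := sub_ne_zero.2 hx'
      have h6 : μ * (algebraMap A K (r + p * m₁) - algebraMap A K (r + p * m₂)) =
          algebraMap A K (q * n₁) - algebraMap A K (q * n₂) := by
        rw [hμ, WeierstrassCurve.Affine.slope_of_X_ne hx', div_mul_cancel₀ _ h5]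
      have hp0' : algebraMap A K p ≠ 0 := fun h => hp0 (hinj (by rw [h, map_zero]))
      apply mul_left_cancel₀ hp0'
      have h7 : q * n₁ - q * n₂ = p * (u * (n₁ - l * t)) := by
        linear_combination -q * hn + (n₁ - l * t) * h2q
      have h8 : algebraMap A K p * algebraMap A K (u * (n₁ - l * t)) =
          algebraMap A K (q * n₁) - algebraMap A K (q * n₂) := by rw [← map_mul, ← h7, map_sub]
      rw [h8, ← h6]
      simp only [map_sub, map_add, map_mul]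
      ring
    have hX : ((ED D).map (algebraMap A K)).toAffine.addX (algebraMap A K (r + p * m₁)) (algebraMap A K (r + p * m₂)) μ =
        μ ^ 2 - algebraMap A K (r + p * m₁) - algebraMap A K (r + p * m₂) := by
      rw [WeierstrassCurve.Affine.addX]
      simp [ED]
    have hY : ((ED D).map (algebraMap A K)).toAffine.addY (algebraMap A K (r + p * m₁)) (algebraMap A K (r + p * m₂))
        (algebraMap A K (q * n₁)) μ =
        -(μ * ((μ ^ 2 - algebraMap A K (r + p * m₁) - algebraMap A K (r + p * m₂)) - algebraMap A K (r + p * m₁)) +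
          algebraMap A K (q * n₁)) := by
      rw [WeierstrassCurve.Affine.addY, hneg, WeierstrassCurve.Affine.negAddY, hX]
    rw [← hμ] at h4
    have hred : (ED D).map (IsLocalRing.residue A) = ED (IsLocalRing.residue A D) := ED_map _ _
    simp only [VC63.NR, hred]
    rw [← hμ]
    intro a₃ b₃ ha₃ hb₃
    rw [← ha₃, ← hb₃, ED_map, ED_equation] at h4
    have heq : b₃ ^ 2 = a₃ ^ 3 + D := by
      apply hinj
      rw [map_pow, map_add, map_pow]
      exact h4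
    rw [hX] at ha₃
    rw [hY] at hb₃
    -- the slope is integral
    obtain ⟨μ₀, hμ0⟩ : ∃ μ₀ : A, algebraMap A K μ₀ = μ := by
      refine IsIntegrallyClosed.exists_algebraMap_eq_of_isIntegral_pow (n := 2) (by norm_num) ?_
      have h5 : μ ^ 2 = algebraMap A K (a₃ + (r + p * m₁) + (r + p * m₂)) := by
        rw [map_add, map_add, ha₃]
        ring
      rw [h5]
      exact isIntegral_algebraMap
    have hunit : IsUnit μ₀ := by
      have h5 : μ₀ * (m₁ - m₂) = u * (n₁ - l * t) := by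
        apply hinj
        rw [map_mul, hμ0, hμ2]
      have h6 : IsUnit (n₁ - l * t) := by
        by_contra h6
        have h7 : n₁ - l * t ∈ IsLocalRing.maximalIdeal A := (IsLocalRing.mem_maximalIdeal _).2 h6
        rw [hl.maximalIdeal_eq, Ideal.mem_span_singleton] at h7
        have h8 : l ∣ n₁ := by
          have := dvd_add h7 (Dvd.intro t (rfl : l * t = l * t))
          rwa [sub_add_cancel] at this
        exact hl.not_isUnit (isUnit_of_dvd_unit h8 hn1)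
      exact isUnit_of_mul_isUnit_left (h5 ▸ hun.mul h6)
    have hlμ : ¬ l ∣ μ₀ := fun h => hl.not_isUnit (isUnit_of_dvd_unit h hunit)
    have ha4 : a₃ = μ₀ ^ 2 - (r + p * m₁) - (r + p * m₂) := by
      apply hinj
      rw [ha₃, map_sub, map_sub, map_pow, hμ0]
    have hb4 : b₃ = -(μ₀ * ((μ₀ ^ 2 - (r + p * m₁) - (r + p * m₂)) - (r + p * m₁)) + q * n₁) := by
      apply hinj
      rw [hb₃]
      simp only [map_neg, map_add, map_mul, map_sub, map_pow, hμ0]
    have hres0 : ∀ x : A, IsLocalRing.residue A x = 0 ↔ l ∣ x := fun x => by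
      rw [IsLocalRing.residue_eq_zero_iff, hl.maximalIdeal_eq, Ideal.mem_span_singleton]
    obtain ⟨p', hp'⟩ := hp
    rcases hc with ⟨h3, hr⟩ | ⟨h2, h3⟩
    · have h3' : (3 : IsLocalRing.ResidueField A) ≠ 0 := by
        have h5 := (h3.map (IsLocalRing.residue A)).ne_zero
        rwa [map_ofNat] at h5
      refine JD.s3_nonsing _ _ _ (by rw [← map_pow, heq, map_add, map_pow]) (Or.inl ?_)
      refine mul_ne_zero h3' (pow_ne_zero 2 ?_)
      rw [Ne, hres0]
      rintro ⟨c, hc⟩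
      apply hlμ
      refine hl.prime.dvd_of_dvd_pow (n := 2) ⟨c + p' * m₁ + p' * m₂, ?_⟩
      rw [ha4, hr, hp'] at hc
      linear_combination hc
    · have h2' : (2 : IsLocalRing.ResidueField A) ≠ 0 := by
        have h5 := (h2.map (IsLocalRing.residue A)).ne_zero
        rwa [map_ofNat] at h5
      refine JD.s3_nonsing _ _ _ (by rw [← map_pow, heq, map_add, map_pow]) (Or.inr ?_)
      refine mul_ne_zero h2' ?_
      rw [Ne, hres0]
      rintro ⟨c, hc⟩
      apply hlμ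
      obtain ⟨s, hs⟩ := h3
      have hlq : l ∣ q := by
        have h5 : l ∣ 2 * q := by
          rw [h2q, hp']
          exact ⟨u * p', by ring⟩
        rcases hl.prime.dvd_or_dvd h5 with h6 | h6
        · exact absurd (isUnit_of_dvd_unit h6 h2) hl.not_isUnit
        · exact h6
      obtain ⟨q', hq'⟩ := hlq
      refine hl.prime.dvd_of_dvd_pow (n := 3) ⟨-c + μ₀ * (s * r + p' * (2 * m₁ + m₂)) - q' * n₁, ?_⟩
      rw [hb4, hq', hp'] at hc
      linear_combination -hc + μ₀ * r * hs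

/-- the double of a singular point -/
theorem st2b_dbl (l : A) (D r p q u : A) (hp0 : p ≠ 0) (hun : IsUnit u) (h2q : 2 * q = u * p) (h3r : p ∣ 3 * r)
    {m n w : A} (hn : IsUnit n) (hw1 : 3 * (r + p * m) ^ 2 = p * (l * w)) (hw2 : p ∣ (l * w) ^ 2)
    (h₁ : ((ED D).map (algebraMap A K)).toAffine.Nonsingular (algebraMap A K (r + p * m)) (algebraMap A K (q * n))) :
    ∃ (m₃ n₃ t : A) (h₃ : ((ED D).map (algebraMap A K)).toAffine.Nonsingular (algebraMap A K (r + p * m₃))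
      (algebraMap A K (q * n₃))), n + n₃ = 2 * l * t ∧
      (.some _ _ h₁ : ((ED D).map (algebraMap A K)).toAffine.Point) + .some _ _ h₁ = .some _ _ h₃ := by
  have hinj : Function.Injective (algebraMap A K) := IsFractionRing.injective A K
  have hup0 : u * p ≠ 0 := mul_ne_zero hun.ne_zero hp0
  have hq0 : 2 * q ≠ 0 := by
    rw [h2q]
    exact hup0
  have hneg : ∀ x y : K, ((ED D).map (algebraMap A K)).toAffine.negY x y = -y := by
    intro x y
    rw [WeierstrassCurve.Affine.negY]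
    simp [ED]
  have h2y : algebraMap A K (q * n) + algebraMap A K (q * n) ≠ 0 := by
    rw [← map_add]
    intro h
    have h5 : q * n + q * n = 0 := hinj (by rw [h, map_zero])
    exact mul_ne_zero hq0 hn.ne_zero (by linear_combination h5)
  have hyn : algebraMap A K (q * n) ≠ ((ED D).map (algebraMap A K)).toAffine.negY (algebraMap A K (r + p * m))
      (algebraMap A K (q * n)) := by
    rw [hneg]
    intro h
    apply h2y
    linear_combination h
  have hxy : ¬(algebraMap A K (r + p * m) = algebraMap A K (r + p * m) ∧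
      algebraMap A K (q * n) = ((ED D).map (algebraMap A K)).toAffine.negY (algebraMap A K (r + p * m))
        (algebraMap A K (q * n))) := fun h => hyn h.2
  obtain ⟨μ, hμ⟩ : ∃ μ, μ = ((ED D).map (algebraMap A K)).toAffine.slope (algebraMap A K (r + p * m))
      (algebraMap A K (r + p * m)) (algebraMap A K (q * n)) (algebraMap A K (q * n)) := ⟨_, rfl⟩
  obtain ⟨v, hv⟩ := (hun.mul hn).exists_left_inv
  -- the slope
  have hμ2 : μ = algebraMap A K (l * (w * v)) := by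
    have h5 : μ * (algebraMap A K (q * n) + algebraMap A K (q * n)) = 3 * algebraMap A K (r + p * m) ^ 2 := by
      rw [hμ, WeierstrassCurve.Affine.slope_of_Y_ne rfl hyn, hneg, sub_neg_eq_add, div_mul_cancel₀ _ h2y]
      simp [ED]
    have h6 : algebraMap A K (l * (w * v)) * (algebraMap A K (q * n) + algebraMap A K (q * n)) =
        3 * algebraMap A K (r + p * m) ^ 2 := by
      have h7 : l * (w * v) * (q * n + q * n) = 3 * (r + p * m) ^ 2 := by
        linear_combination l * w * v * n * h2q + p * l * w * hv - hw1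
      have h8 := congrArg (algebraMap A K) h7
      rw [map_mul, map_add, map_mul (algebraMap A K) 3, map_pow, map_ofNat] at h8
      exact h8
    exact mul_right_cancel₀ h2y (h5.trans h6.symm)
  obtain ⟨e, he⟩ := h3r
  obtain ⟨z, hz⟩ := hw2
  obtain ⟨u', hu'⟩ := hun.exists_left_inv
  have hX : ((ED D).map (algebraMap A K)).toAffine.addX (algebraMap A K (r + p * m)) (algebraMap A K (r + p * m)) μ =
      algebraMap A K (r + p * (z * v ^ 2 - e - 2 * m)) := by
    have h5 : ((ED D).map (algebraMap A K)).toAffine.addX (algebraMap A K (r + p * m)) (algebraMap A K (r + p * m)) μ =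
        μ ^ 2 - algebraMap A K (r + p * m) - algebraMap A K (r + p * m) := by
      rw [WeierstrassCurve.Affine.addX]
      simp [ED]
    rw [h5, hμ2, ← map_pow, ← map_sub, ← map_sub]
    congr 1
    linear_combination v ^ 2 * hz - he
  have hY : ((ED D).map (algebraMap A K)).toAffine.addY (algebraMap A K (r + p * m)) (algebraMap A K (r + p * m))
      (algebraMap A K (q * n)) μ =
      algebraMap A K (q * (-(n + 2 * l * (w * v * (z * v ^ 2 - e - 2 * m - m) * u')))) := by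
    rw [WeierstrassCurve.Affine.addY, hneg, WeierstrassCurve.Affine.negAddY, hX, hμ2, ← map_sub, ← map_mul, ← map_add,
      ← map_neg]
    congr 1
    linear_combination (l * (w * v) * (z * v ^ 2 - e - 2 * m - m) * u') * h2q +
      (l * (w * v) * p * (z * v ^ 2 - e - 2 * m - m)) * hu'
  have h5 := WeierstrassCurve.Affine.Point.add_some (h₁ := h₁) (h₂ := h₁) hxy
  obtain ⟨h₃, h6⟩ := st2b_some (WeierstrassCurve.Affine.nonsingular_add h₁ h₁ hxy) (hμ ▸ hX) (hμ ▸ hY)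
  refine ⟨_, _, -(w * v * (z * v ^ 2 - e - 2 * m - m) * u'), h₃, by ring, ?_⟩
  rw [h5, h6]

/-- [ST2b] -/
theorem tamV [Finite (IsLocalRing.ResidueField A)] (l : A) (hl : Irreducible l) (D r p q u : A)
    (hu : ∀ T : WeierstrassCurve.VariableChange K, (T • (ED D).map (algebraMap A K)).IsMinimal A →
      (IsDiscreteValuationRing.maximalIdeal A).valuation K (T.u : K) = 1)
    (hp : l ∣ p) (hp0 : p ≠ 0) (hun : IsUnit u) (h2q : 2 * q = u * p)
    (hc : (IsUnit (3 : A) ∧ r = 0) ∨ (IsUnit (2 : A) ∧ l ∣ 3)) (h3r : p ∣ 3 * r)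
    (hw : ∀ m : A, ∃ w : A, 3 * (r + p * m) ^ 2 = p * (l * w) ∧ p ∣ (l * w) ^ 2)
    (hs : ∀ a b : A, b ^ 2 = a ^ 3 + D → (IsUnit (3 : A) → l ∣ a) → (IsUnit (2 : A) → l ∣ b) →
      ∃ m n : A, IsUnit n ∧ a = r + p * m ∧ b = q * n) :
    SBSD.tamagawa A (ED (algebraMap A K D)) ≠ 0 ∧ ¬ 2 ∣ SBSD.tamagawa A (ED (algebraMap A K D)) := by
  have hup0 : u * p ≠ 0 := mul_ne_zero hun.ne_zero hp0
  have h20 : (2 : A) ≠ 0 := by
    intro h0
    rw [h0, zero_mul] at h2q
    exact hup0 h2q.symm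
  have hW : SBSD.tamagawa A (ED (algebraMap A K D)) =
      SBSD.tamagawa A ((ED D).map (algebraMap A K)) := by rw [ED_map]
  rw [hW, VC63.tamagawa_eq (ED D) hu]
  have hred : (ED D).map (IsLocalRing.residue A) = ED (IsLocalRing.residue A D) := ED_map _ _
  have hres0 : ∀ x : A, IsLocalRing.residue A x = 0 ↔ l ∣ x := fun x => by
    rw [IsLocalRing.residue_eq_zero_iff, hl.maximalIdeal_eq, Ideal.mem_span_singleton]
  have hneg : ∀ x y : K, ((ED D).map (algebraMap A K)).toAffine.negY x y = -y := by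
    intro x y
    rw [WeierstrassCurve.Affine.negY]
    simp [ED]
  let Sg : ((ED D).map (algebraMap A K)).toAffine.Point → Prop := fun P =>
    ∃ n m : A, IsUnit n ∧ ∃ hn : ((ED D).map (algebraMap A K)).toAffine.Nonsingular
      (algebraMap A K (r + p * m)) (algebraMap A K (q * n)), P = .some _ _ hn
  have hSg : ∀ P : ((ED D).map (algebraMap A K)).toAffine.Point, ¬ VC63.NR (ED D) P → Sg P := by
    intro P hP
    match P, hP with
    | .zero, hP => exact absurd trivial hP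
    | .some x y h, hP =>
      simp only [VC63.NR, hred] at hP
      push Not at hP
      obtain ⟨a, b, ha, hb, hns⟩ := hP
      subst ha hb
      have heq := JD.s3_eq A K h
      have hla : IsUnit (3 : A) → l ∣ a := by
        intro h3
        by_contra hla
        apply hns
        have h3' : (3 : IsLocalRing.ResidueField A) ≠ 0 := by
          have h5 := (h3.map (IsLocalRing.residue A)).ne_zero
          rwa [map_ofNat] at h5
        refine JD.s3_nonsing _ _ _ (by rw [← map_pow, heq, map_add, map_pow]) (Or.inl ?_)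
        refine mul_ne_zero h3' (pow_ne_zero 2 ?_)
        rw [Ne, hres0]
        exact hla
      have hlb : IsUnit (2 : A) → l ∣ b := by
        intro h2
        by_contra hlb
        apply hns
        have h2' : (2 : IsLocalRing.ResidueField A) ≠ 0 := by
          have h5 := (h2.map (IsLocalRing.residue A)).ne_zero
          rwa [map_ofNat] at h5
        refine JD.s3_nonsing _ _ _ (by rw [← map_pow, heq, map_add, map_pow]) (Or.inr ?_)
        refine mul_ne_zero h2' ?_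
        rw [Ne, hres0]
        exact hlb
      obtain ⟨m, n, hn, ham, hbn⟩ := hs a b heq hla hlb
      subst ham hbn
      exact ⟨n, m, hn, h, rfl⟩
  -- the finite set of classes
  have h2l0 : (2 : A) * l ≠ 0 := mul_ne_zero h20 hl.ne_zero
  have hfin : Finite (A ⧸ Ideal.span {(2 : A) * l}) := by
    have hI : Ideal.span {(2 : A) * l} ≠ ⊥ := by
      rw [Ne, Ideal.span_singleton_eq_bot]
      exact h2l0
    obtain ⟨k, hk⟩ := IsDiscreteValuationRing.ideal_eq_span_pow_irreducible hI hl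
    rw [IsLocalRing.finite_quotient_iff]
    refine ⟨k, ?_⟩
    rw [hk, hl.maximalIdeal_eq, Ideal.span_singleton_pow]
  have key : ∀ {n₁ n₂ m₁ m₂ t : A} (_ : IsUnit n₁) (h₁ : ((ED D).map (algebraMap A K)).toAffine.Nonsingular
      (algebraMap A K (r + p * m₁)) (algebraMap A K (q * n₁))) (h₂ : ((ED D).map (algebraMap A K)).toAffine.Nonsingular
      (algebraMap A K (r + p * m₂)) (algebraMap A K (q * n₂))), n₁ - n₂ = 2 * l * t →
      VC63.NR (ED D) ((.some _ _ h₁ : ((ED D).map (algebraMap A K)).toAffine.Point) - .some _ _ h₂) := by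
    intro n₁ n₂ m₁ m₂ t hn1 h₁ h₂ ht
    obtain ⟨h₃, h6⟩ := st2b_some ((WeierstrassCurve.Affine.nonsingular_neg _ _).2 h₂) rfl
      (show ((ED D).map (algebraMap A K)).toAffine.negY (algebraMap A K (r + p * m₂)) (algebraMap A K (q * n₂)) =
        algebraMap A K (q * (-n₂)) by
        rw [hneg, mul_neg, map_neg])
    have h7 : -(.some _ _ h₂ : ((ED D).map (algebraMap A K)).toAffine.Point) = .some _ _ h₃ := by
      rw [← h6]
      rfl
    rw [sub_eq_add_neg, h7]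
    exact st2b_add A K l hl D r p q u hp hp0 hun h2q hc (t := t) hn1 (by linear_combination ht) h₁ h₃
  let f : ((ED D).map (algebraMap A K)).toAffine.Point → A ⧸ Ideal.span {(2 : A) * l} := fun P =>
    if h : Sg P then Ideal.Quotient.mk _ h.choose else 0
  refine index_odd3 {P : ((ED D).map (algebraMap A K)).toAffine.Point | VC63.NR (ED D) P} ?_ f ?_ ?_
  · exact trivial
  · intro P Q hP hQ hf
    have hS1 : Sg P := hSg P hP
    have hS2 : Sg Q := hSg Q hQ
    have e1 : f P = Ideal.Quotient.mk _ hS1.choose := dif_pos hS1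
    have e2 : f Q = Ideal.Quotient.mk _ hS2.choose := dif_pos hS2
    rw [e1, e2, Ideal.Quotient.eq, Ideal.mem_span_singleton] at hf
    obtain ⟨m₁, hn1, h₁, hP1⟩ := hS1.choose_spec
    obtain ⟨m₂, hn2, h₂, hQ1⟩ := hS2.choose_spec
    obtain ⟨t, ht⟩ := hf
    have h7 := key hn1 h₁ h₂ ht
    rw [← hP1, ← hQ1] at h7
    exact h7
  · intro P hP
    obtain ⟨n, m, hn, h₁, hP1⟩ := hSg P hP
    obtain ⟨w, hw1, hw2⟩ := hw m
    obtain ⟨m₃, n₃, t, h₃, ht, h6⟩ := st2b_dbl A K l D r p q u hp0 hun h2q h3r hn hw1 hw2 h₁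
    show VC63.NR (ED D) (P + (P + P))
    rw [hP1, h6]
    exact st2b_add A K l hl D r p q u hp hp0 hun h2q hc hn ht h₁ h₃

/-- [ST2c] -/
theorem tam_p2 [Finite (IsLocalRing.ResidueField A)] (h6 : IsUnit (6 : A)) (l D' : A) (hl : Irreducible l) (hD : IsUnit D')
    (k : ℕ) (hk5 : k ≤ 5) (hk : k = 3 → ∀ x : A, ¬ l ∣ D' - x ^ 3) :
    SBSD.tamagawa A (ED (algebraMap A K (l ^ k * D'))) ≠ 0 ∧ ¬ 2 ∣ SBSD.tamagawa A (ED (algebraMap A K (l ^ k * D'))) := by
  have hp : Prime l := hl.prime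
  have hl0 : l ≠ 0 := hl.ne_zero
  have h3 : IsUnit (3 : A) := isUnit_of_dvd_unit ⟨2, by norm_num⟩ h6
  have h2 : IsUnit (2 : A) := isUnit_of_dvd_unit ⟨3, by norm_num⟩ h6
  have hlD : ¬ l ∣ D' := fun h => hl.not_isUnit (isUnit_of_dvd_unit h hD)
  have one : ∀ n : ℕ, n = 1 → n ≠ 0 ∧ ¬ 2 ∣ n := by
    rintro n rfl
    exact ⟨one_ne_zero, by norm_num⟩
  have hun : ∀ x : A, ¬ l ∣ x → IsUnit x := by
    intro x hx
    by_contra hxu
    have h1 : x ∈ IsLocalRing.maximalIdeal A := (IsLocalRing.mem_maximalIdeal _).2 hxu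
    rw [hl.maximalIdeal_eq, Ideal.mem_span_singleton] at h1
    exact hx h1
  have hu : ∀ T : WeierstrassCurve.VariableChange K, (T • (ED (l ^ k * D')).map (algebraMap A K)).IsMinimal A →
      (IsDiscreteValuationRing.maximalIdeal A).valuation K (T.u : K) = 1 :=
    fun T hT => unit_p' h6 l D' hl hD k hk5 T hT
  obtain rfl | rfl | rfl | rfl | rfl | rfl : k = 0 ∨ k = 1 ∨ k = 2 ∨ k = 3 ∨ k = 4 ∨ k = 5 := by omega
  · refine one _ (JD.tamagawa_good A K (l ^ 0 * D') ?_)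
    rw [pow_zero, one_mul]
    exact h6.mul hD
  · refine one _ (tamX A K h3 l hl _ hu ?_)
    rintro a b h ⟨a', rfl⟩
    obtain ⟨b', rfl⟩ : l ∣ b := hp.dvd_of_dvd_pow (n := 2) ⟨l ^ 2 * a' ^ 3 + D', by rw [h]; ring⟩
    refine hlD ⟨b' ^ 2 - l * a' ^ 3, mul_left_cancel₀ hl0 ?_⟩
    linear_combination -h
  · refine tamV A K l hl _ 0 l l 2 hu dvd_rfl hl0 h2 rfl (Or.inl ⟨h3, rfl⟩) (by simp) ?_ ?_
    · intro m
      exact ⟨3 * m ^ 2, by ring, ⟨l * (3 * m ^ 2) ^ 2, by ring⟩⟩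
    · intro a b hab ha hb
      obtain ⟨m, rfl⟩ := ha h3
      obtain ⟨n, rfl⟩ := hb h2
      have h1 : n ^ 2 = l * m ^ 3 + D' :=
        mul_left_cancel₀ (pow_ne_zero 2 hl0) (by linear_combination hab)
      refine ⟨m, n, hun n ?_, by ring, rfl⟩
      rintro ⟨c, rfl⟩
      exact hlD ⟨l * c ^ 2 - m ^ 3, by linear_combination -h1⟩
  · refine one _ (tamX A K h3 l hl _ hu ?_)
    rintro a b h ⟨x, rfl⟩
    obtain ⟨b₁, rfl⟩ : l ∣ b := hp.dvd_of_dvd_pow (n := 2) ⟨l ^ 2 * (x ^ 3 + D'), by linear_combination h⟩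
    have h1 : b₁ ^ 2 = l * (x ^ 3 + D') :=
      mul_left_cancel₀ (pow_ne_zero 2 hl0) (by linear_combination h)
    obtain ⟨b₂, rfl⟩ : l ∣ b₁ := hp.dvd_of_dvd_pow (n := 2) ⟨x ^ 3 + D', h1⟩
    have h4 : l * b₂ ^ 2 = x ^ 3 + D' := mul_left_cancel₀ hl0 (by linear_combination h1)
    exact hk rfl (-x) ⟨b₂ ^ 2, by linear_combination -h4⟩
  · refine tamV A K l hl _ 0 (l ^ 2) (l ^ 2) 2 hu (dvd_pow_self l two_ne_zero) (pow_ne_zero 2 hl0) h2 rfl
      (Or.inl ⟨h3, rfl⟩) (by simp) ?_ ?_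
    · intro m
      exact ⟨3 * l * m ^ 2, by ring, ⟨(3 * l * m ^ 2) ^ 2, by ring⟩⟩
    · intro a b hab ha hb
      obtain ⟨a₁, rfl⟩ := ha h3
      obtain ⟨b₁, rfl⟩ := hb h2
      have h1 : b₁ ^ 2 = l * a₁ ^ 3 + l ^ 2 * D' :=
        mul_left_cancel₀ (pow_ne_zero 2 hl0) (by linear_combination hab)
      obtain ⟨b₂, rfl⟩ : l ∣ b₁ := hp.dvd_of_dvd_pow (n := 2) ⟨a₁ ^ 3 + l * D', by linear_combination h1⟩
      have h4 : l * b₂ ^ 2 = a₁ ^ 3 + l * D' := mul_left_cancel₀ hl0 (by linear_combination h1)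
      obtain ⟨a₂, rfl⟩ : l ∣ a₁ := hp.dvd_of_dvd_pow (n := 3) ⟨b₂ ^ 2 - D', by linear_combination -h4⟩
      have h5 : b₂ ^ 2 = l ^ 2 * a₂ ^ 3 + D' := mul_left_cancel₀ hl0 (by linear_combination h4)
      refine ⟨a₂, b₂, hun b₂ ?_, by ring, by ring⟩
      rintro ⟨c, rfl⟩
      exact hlD ⟨l * c ^ 2 - l * a₂ ^ 3, by linear_combination -h5⟩
  · refine one _ (tamX A K h3 l hl _ hu ?_)
    intro a b hab
    exact STd_five hp hlD hab

/-- [ST2d] -/
theorem tam_two2 [Finite (IsLocalRing.ResidueField A)] (h2 : Irreducible (2 : A)) (hres4 : ∀ x : A, IsUnit x → (2 : A) ∣ x ^ 3 - 1)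
    (D' : A) (hD : IsUnit D') (k : ℕ) (hk : k ≤ 5)
    (h4 : k = 4 → ∀ x : A, ¬ (4 : A) ∣ D' - x ^ 2) (h3 : k = 3 → ¬ (2 : A) ∣ D' - 1) (h2' : k = 2 → ∀ y : A, ¬ (4 : A) ∣ D' - y ^ 2 - 2) :
    SBSD.tamagawa A (ED (algebraMap A K (2 ^ k * D'))) ≠ 0 ∧ ¬ 2 ∣ SBSD.tamagawa A (ED (algebraMap A K (2 ^ k * D'))) := by
  have hp : Prime (2 : A) := h2.prime
  have hD2 : ¬ (2 : A) ∣ D' := fun h => h2.not_isUnit (isUnit_of_dvd_unit h hD)
  have h3u : IsUnit (3 : A) := by
    by_contra h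
    have h1 : (3 : A) ∈ IsLocalRing.maximalIdeal A := (IsLocalRing.mem_maximalIdeal _).2 h
    have h2' : (2 : A) ∈ IsLocalRing.maximalIdeal A := (IsLocalRing.mem_maximalIdeal _).2 h2.not_isUnit
    have h3 : (1 : A) ∈ IsLocalRing.maximalIdeal A := by
      have h4 := Ideal.sub_mem _ h1 h2'
      rwa [show (3 : A) - 2 = 1 by norm_num] at h4
    exact (IsLocalRing.mem_maximalIdeal _).1 h3 isUnit_one
  have hu := unit_two' (K := K) h2 D' hD k hk h4
  have one : ∀ n : ℕ, n = 1 → n ≠ 0 ∧ ¬ 2 ∣ n := by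
    rintro n rfl
    exact ⟨one_ne_zero, by norm_num⟩
  have hun : ∀ x : A, ¬ (2 : A) ∣ x → IsUnit x := by
    intro x hx
    by_contra hxu
    have h1 : x ∈ IsLocalRing.maximalIdeal A := (IsLocalRing.mem_maximalIdeal _).2 hxu
    rw [h2.maximalIdeal_eq, Ideal.mem_span_singleton] at h1
    exact hx h1
  have h40 : (4 : A) = 2 * 2 := by norm_num
  obtain rfl | rfl | rfl | rfl | rfl | rfl : k = 0 ∨ k = 1 ∨ k = 2 ∨ k = 3 ∨ k = 4 ∨ k = 5 := by omega
  · refine tamV A K 2 h2 _ 0 2 1 1 hu dvd_rfl hp.ne_zero isUnit_one (by ring) (Or.inl ⟨h3u, rfl⟩) (by simp) ?_ ?_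
    · intro m
      exact ⟨3 * m ^ 2, by ring, ⟨2 * (3 * m ^ 2) ^ 2, by ring⟩⟩
    · intro a b hab ha _
      obtain ⟨m, rfl⟩ := ha h3u
      refine ⟨m, b, hun b ?_, by ring, by ring⟩
      rintro ⟨c, rfl⟩
      exact hD2 ⟨2 * c ^ 2 - 4 * m ^ 3, by linear_combination -hab⟩
  · apply one
    refine tamX A K h3u 2 h2 _ hu ?_
    rintro a b hab ⟨a', rfl⟩
    obtain ⟨b', rfl⟩ : (2 : A) ∣ b := hp.dvd_of_dvd_pow (n := 2) ⟨4 * a' ^ 3 + D', by linear_combination hab⟩
    exact hD2 ⟨b' ^ 2 - 2 * a' ^ 3, mul_left_cancel₀ hp.ne_zero (by linear_combination -hab)⟩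
  · refine tamV A K 2 h2 _ 0 4 2 1 hu ⟨2, by norm_num⟩ (by rw [h40]; exact mul_ne_zero hp.ne_zero hp.ne_zero)
      isUnit_one (by norm_num) (Or.inl ⟨h3u, rfl⟩) (by simp) ?_ ?_
    · intro m
      exact ⟨6 * m ^ 2, by ring, ⟨(6 * m ^ 2) ^ 2, by ring⟩⟩
    · intro a b hab ha _
      obtain ⟨x, rfl⟩ := ha h3u
      obtain ⟨y, rfl⟩ : (2 : A) ∣ b := hp.dvd_of_dvd_pow (n := 2) ⟨4 * x ^ 3 + 2 * D', by linear_combination hab⟩
      have hy : y ^ 2 = 2 * x ^ 3 + D' :=
        mul_left_cancel₀ (pow_ne_zero 2 hp.ne_zero) (by linear_combination hab)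
      have hx2 : (2 : A) ∣ x := by
        by_contra hx
        obtain ⟨e, he⟩ := hres4 x (hun x hx)
        exact h2' rfl y ⟨-e - 1, by linear_combination -hy - 2 * he⟩
      obtain ⟨m, rfl⟩ := hx2
      refine ⟨m, y, hun y ?_, by ring, rfl⟩
      rintro ⟨c, rfl⟩
      exact hD2 ⟨2 * c ^ 2 - 8 * m ^ 3, by linear_combination -hy⟩
  · apply one
    refine tamX A K h3u 2 h2 _ hu ?_
    rintro a b h ⟨x, rfl⟩
    have hx := (STd_three hp hD2 h).1
    obtain ⟨b₁, rfl⟩ : (2 : A) ∣ b := hp.dvd_of_dvd_pow (n := 2) ⟨2 ^ 2 * (x ^ 3 + D'), by linear_combination h⟩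
    have h1 : b₁ ^ 2 = 2 * (x ^ 3 + D') :=
      mul_left_cancel₀ (pow_ne_zero 2 hp.ne_zero) (by linear_combination h)
    obtain ⟨b₂, rfl⟩ : (2 : A) ∣ b₁ := hp.dvd_of_dvd_pow (n := 2) ⟨x ^ 3 + D', h1⟩
    have h5 : 2 * b₂ ^ 2 = x ^ 3 + D' := mul_left_cancel₀ hp.ne_zero (by linear_combination h1)
    obtain ⟨e, he⟩ := hres4 x (hun x hx)
    exact h3 rfl ⟨b₂ ^ 2 - e - 1, by linear_combination -h5 - he⟩
  · apply one
    refine tamX A K h3u 2 h2 _ hu ?_
    intro a b hab ha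
    obtain ⟨x, y, h⟩ := STd_four hp hab ha
    exact h4 rfl y ⟨-x ^ 3, by linear_combination -h⟩
  · apply one
    refine tamX A K h3u 2 h2 _ hu ?_
    intro a b hab
    exact STd_five hp hD2 hab

/-- [ST2e] -/
theorem tam_la2 [Finite (IsLocalRing.ResidueField A)] {l ε : A} (hl : Irreducible l) (hε : IsUnit ε) (hε' : l ∣ ε + 1)
    (h3 : (3 : A) = ε * l ^ 2) (hres : ∀ x : A, l ∣ x ∨ l ∣ x - 1 ∨ l ∣ x + 1) (D' : A) (hD : IsUnit D') (k : ℕ) (hk : k ≤ 5)
    (h0 : k = 0 → ∀ η : A, (η = 1 ∨ η = -1) → ¬ l ^ 4 ∣ D' - η)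
    (h3a : k = 3 → ∀ η : A, (η = 1 ∨ η = -1) → ¬ l ^ 3 ∣ D' - η) :
    SBSD.tamagawa A (ED (algebraMap A K (l ^ k * D'))) ≠ 0 ∧ ¬ 2 ∣ SBSD.tamagawa A (ED (algebraMap A K (l ^ k * D'))) := by
  have hp : Prime l := hl.prime
  have hl0 : l ≠ 0 := hl.ne_zero
  have hDl : ¬ l ∣ D' := fun h => hl.not_isUnit (isUnit_of_dvd_unit h hD)
  have hl1 : ¬ l ∣ 1 := fun h => hl.not_isUnit (isUnit_of_dvd_one h)
  have h2u : IsUnit (2 : A) := sta_two_unit hl h3
  have hl2 : ¬ l ∣ 2 := fun h => hl.not_isUnit (isUnit_of_dvd_unit h h2u)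
  have hl3 : l ∣ 3 := ⟨ε * l, by rw [h3]; ring⟩
  have hun : ∀ x : A, ¬ l ∣ x → IsUnit x := by
    intro x hx
    by_contra hxu
    have h1 : x ∈ IsLocalRing.maximalIdeal A := (IsLocalRing.mem_maximalIdeal _).2 hxu
    rw [hl.maximalIdeal_eq, Ideal.mem_span_singleton] at h1
    exact hx h1
  have one : ∀ n : ℕ, n = 1 → n ≠ 0 ∧ ¬ 2 ∣ n := by
    rintro n rfl
    exact ⟨one_ne_zero, by norm_num⟩
  have hu := unit_la' (K := K) hl hε h3 hres D' hD k hk h3a
  obtain rfl | rfl | rfl | rfl | rfl | rfl : k = 0 ∨ k = 1 ∨ k = 2 ∨ k = 3 ∨ k = 4 ∨ k = 5 := by omega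
  · by_cases hη : ∃ η : A, (η = 1 ∨ η = -1) ∧ l ^ 2 ∣ D' - η
    · obtain ⟨η, hη, t, ht⟩ := hη
      have hη2 : η ^ 2 = 1 := by rcases hη with rfl | rfl <;> ring
      refine tamV A K l hl _ (-η) l l 2 hu dvd_rfl hl0 h2u rfl (Or.inr ⟨h2u, hl3⟩) (hl3.mul_right _) ?_ ?_
      · intro m
        exact ⟨ε * (-η + l * m) ^ 2, by linear_combination (-η + l * m) ^ 2 * h3,
          ⟨l * (ε * (-η + l * m) ^ 2) ^ 2, by ring⟩⟩
      · intro a b hab _ hb
        obtain ⟨n, rfl⟩ := hb h2u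
        rw [pow_zero, one_mul] at hab
        obtain ⟨m, rfl⟩ := ST2e_key hl1 hl2 hres hη (a := a) ⟨l * n ^ 2 - l * t, by linear_combination -hab - ht⟩
        refine ⟨m, n, hun n ?_, rfl, rfl⟩
        rintro ⟨n', rfl⟩
        obtain ⟨e', he'⟩ := hε'
        obtain ⟨f, hf⟩ : l ∣ m ^ 3 - m := by
          rcases hres m with ⟨c, hc⟩ | ⟨c, hc⟩ | ⟨c, hc⟩
          · exact ⟨c * (m ^ 2 - 1), by linear_combination (m ^ 2 - 1) * hc⟩
          · exact ⟨c * (m * (m + 1)), by linear_combination (m * (m + 1)) * hc⟩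
          · exact ⟨c * (m * (m - 1)), by linear_combination (m * (m - 1)) * hc⟩
        refine h0 rfl η hη ⟨n' ^ 2 + ε * η * m ^ 2 - (f + e' * m), ?_⟩
        linear_combination -hab + (η - 3 * l * m) * hη2 + (-l * m + η * l ^ 2 * m ^ 2) * h3 - l ^ 3 * hf - l ^ 3 * m * he'
    · rw [pow_zero, one_mul]
      apply one
      exact JXD.tamagawa_laX K hl hε h3 hres hD (fun η hη' h => hη ⟨η, hη', h⟩)
  · apply one
    refine tamY A K l ε hl h3 _ hu ?_
    rintro a b hab ⟨b', rfl⟩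
    obtain ⟨a', rfl⟩ : l ∣ a := hp.dvd_of_dvd_pow (n := 3) ⟨l * b' ^ 2 - D', by linear_combination -hab⟩
    exact hDl ⟨b' ^ 2 - l * a' ^ 3, mul_left_cancel₀ hp.ne_zero (by linear_combination -hab)⟩
  · refine tamV A K l hl _ 0 l l 2 hu dvd_rfl hl0 h2u rfl (Or.inr ⟨h2u, hl3⟩) (hl3.mul_right _) ?_ ?_
    · intro m
      exact ⟨3 * m ^ 2, by ring, ⟨l * (3 * m ^ 2) ^ 2, by ring⟩⟩
    · intro a b hab _ hb
      obtain ⟨n, rfl⟩ := hb h2u
      obtain ⟨m, rfl⟩ : l ∣ a := hp.dvd_of_dvd_pow (n := 3) ⟨l * n ^ 2 - l * D', by linear_combination -hab⟩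
      have h1 : n ^ 2 = l * m ^ 3 + D' :=
        mul_left_cancel₀ (pow_ne_zero 2 hl0) (by linear_combination hab)
      refine ⟨m, n, hun n ?_, by ring, rfl⟩
      rintro ⟨n', rfl⟩
      exact hDl ⟨l * n' ^ 2 - m ^ 3, by linear_combination -h1⟩
  · obtain ⟨η, hη, t, ht⟩ : ∃ η : A, (η = 1 ∨ η = -1) ∧ l ∣ D' - η := by
      rcases hres D' with h | h | h
      · exact absurd h hDl
      · exact ⟨1, Or.inl rfl, h⟩
      · exact ⟨-1, Or.inr rfl, by rwa [sub_neg_eq_add]⟩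
    have hη2 : η ^ 2 = 1 := by rcases hη with rfl | rfl <;> ring
    refine tamV A K l hl _ (-(l * η)) (l ^ 2) (l ^ 2) 2 hu (dvd_pow_self l two_ne_zero) (pow_ne_zero 2 hl0) h2u rfl
      (Or.inr ⟨h2u, hl3⟩) ⟨-(ε * (l * η)), by linear_combination -(l * η) * h3⟩ ?_ ?_
    · intro m
      exact ⟨ε * l * (-η + l * m) ^ 2, by linear_combination (l ^ 2 * (-η + l * m) ^ 2) * h3,
        ⟨(ε * l * (-η + l * m) ^ 2) ^ 2, by ring⟩⟩
    · intro a b hab _ hb
      obtain ⟨b', rfl⟩ := hb h2u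
      obtain ⟨a', rfl⟩ : l ∣ a := hp.dvd_of_dvd_pow (n := 3) ⟨l * b' ^ 2 - l ^ 2 * D', by linear_combination -hab⟩
      have h1 : b' ^ 2 = l * (a' ^ 3 + D') :=
        mul_left_cancel₀ (pow_ne_zero 2 hl0) (by linear_combination hab)
      obtain ⟨n, rfl⟩ : l ∣ b' := hp.dvd_of_dvd_pow (n := 2) ⟨a' ^ 3 + D', h1⟩
      have h2 : l * n ^ 2 = a' ^ 3 + D' := mul_left_cancel₀ hl0 (by linear_combination h1)
      obtain ⟨m, rfl⟩ := ST2e_key hl1 hl2 hres hη (a := a') ⟨n ^ 2 - t, by linear_combination -h2 - ht⟩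
      refine ⟨m, n, hun n ?_, by ring, by ring⟩
      rintro ⟨n', rfl⟩
      refine h3a rfl η hη ⟨n' ^ 2 + ε * η * l * m ^ 2 - ε * m - m ^ 3, ?_⟩
      linear_combination -h2 + (η - 3 * l * m) * hη2 + (-l * m + η * l ^ 2 * m ^ 2) * h3
  · refine tamV A K l hl _ 0 (l ^ 2) (l ^ 2) 2 hu (dvd_pow_self l two_ne_zero) (pow_ne_zero 2 hl0) h2u rfl
      (Or.inr ⟨h2u, hl3⟩) (by rw [mul_zero]; exact dvd_zero _) ?_ ?_
    · intro m
      exact ⟨3 * l * m ^ 2, by ring, ⟨(3 * l * m ^ 2) ^ 2, by ring⟩⟩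
    · intro a b hab _ hb
      obtain ⟨b', rfl⟩ := hb h2u
      have ha : l ∣ a := hp.dvd_of_dvd_pow (n := 3) ⟨l * b' ^ 2 - l ^ 3 * D', by linear_combination -hab⟩
      obtain ⟨m, n, rfl, hb', h1⟩ := ST2e_four hp hab ha
      refine ⟨m, n, hun n ?_, by ring, hb'⟩
      rintro ⟨n', rfl⟩
      exact hDl ⟨l * n' ^ 2 - l * m ^ 3, by linear_combination -h1⟩
  · apply one
    refine tamY A K l ε hl h3 _ hu ?_
    rintro a b hab ⟨b', rfl⟩
    have ha : l ∣ a := hp.dvd_of_dvd_pow (n := 3) ⟨l * b' ^ 2 - l ^ 4 * D', by linear_combination -hab⟩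
    exact STd_five hp hDl hab ha

end

end JT
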