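import Pool.Agent.JT.ZT
import Pool.Agent.JT.SH2
import Pool.Agent.JG.SJ
import Pool.Agent.ISO.Sha

/-!
# [JT-FT] every elliptic curve over `ℚ(ω)` with `j = 0`, without rational point of order `2` and with odd Tamagawa numbers, given the central values
-/

set_option autoImplicit false

open NumberField IsDedekindDomain
open scoped Classical

namespace JT

open CM27 CF JZ
open JD (ED ED_Δ ED_equation jK jK_inj z1_elliptic)

/-- There is no point of order `2`. -/
def NoTwo (K : Type) [Field K] (_i : DecidableEq K) (E : WeierstrassCurve K) : Prop :=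
  ∀ P : E.toAffine.Point, 2 • P = 0 → P = 0

theorem noTwo_iff {K : Type} [Field K] (i j : DecidableEq K) (E : WeierstrassCurve K) :
    NoTwo K i E ↔ NoTwo K j E := by
  rw [Subsingleton.elim i j]

theorem noTwo_smul {K : Type} [Field K] (W : WeierstrassCurve K) (C : WeierstrassCurve.VariableChange K) :
    NoTwo K (fun a b => Classical.propDecidable (a = b)) (C • W) ↔ NoTwo K (fun a b => Classical.propDecidable (a = b)) W := by
  have e := VC63.vcEquiv W C
  unfold NoTwo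
  constructor
  · intro h P hP
    have h1 := h (e.symm P) (by rw [← map_nsmul, hP, map_zero])
    have h2 := congrArg e h1
    rwa [e.apply_symm_apply, map_zero] at h2
  · intro h P hP
    have h1 := h (e P) (by rw [← map_nsmul, hP, map_zero])
    have h2 := congrArg e.symm h1
    rwa [e.symm_apply_apply, map_zero] at h2

section
variable {K : Type} [Field K] [NumberField K] (W : WeierstrassCurve K) (hΔ : W.Δ ≠ 0) (C : WeierstrassCurve.VariableChange K)
include hΔ

theorem modTwo_smul : EQV.ModTwo (C • W) ↔ EQV.ModTwo W := by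
  unfold EQV.ModTwo
  rw [ISO.isoi_isElliptic]
  have h1 := ISO.entire_smul W hΔ C
  have h2 := ISO.bsd_smul W hΔ C
  have h3 := (ISO.pts W C).1
  have h4 := ISO.sha_smul W C 2
  simp only [h1, h2, h3, h4]

theorem twoPart_smul : SBSD2.TwoPartRankZero (C • W) ↔ SBSD2.TwoPartRankZero W := by
  unfold SBSD2.TwoPartRankZero
  rw [ISO.isoi_isElliptic]
  have h1 := ISO.entire_smul W hΔ C
  have h2 := ISO.bsd_smul W hΔ C
  have h3 := (ISO.pts W C).1
  have h5 := (ISO.pts W C).2.2.1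
  have h4 : (∀ (x : SBSD.Sha (C • W)) (k : ℕ), 2 ^ k • x = 0 → x = 0) ↔
      ∀ (x : SBSD.Sha W) (k : ℕ), 2 ^ k • x = 0 → x = 0 := by
    constructor
    · intro h x k
      exact (ISO.sha_smul W C (2 ^ k)).1 (fun x => h x k) x
    · intro h x k
      exact (ISO.sha_smul W C (2 ^ k)).2 (fun x => h x k) x
  simp only [h1, h2, h3, h4, h5]

end

theorem ED_ne2 {D : Eis} (h0 : D ≠ 0) : (ED (jK D)).Δ ≠ 0 := by
  rw [ED_Δ]
  have h1 : jK D ≠ 0 := fun h => h0 (jK_inj (h.trans (map_zero jK).symm))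
  exact mul_ne_zero (by norm_num) (pow_ne_zero _ h1)

theorem exists_cl2 (W : WeierstrassCurve KK) (hΔ : W.Δ ≠ 0) (h4 : W.c₄ = 0) (i : DecidableEq KK)
    (h2 : NoTwo KK i W) (htam : ∀ v : HeightOneSpectrum (𝓞 KK), ¬ 2 ∣ SBSD.tam W v) :
    ∃ (D : Eis) (C : WeierstrassCurve.VariableChange KK), Cl2 D ∧ W = C • ED (jK D) := by
  obtain ⟨D, C, hfree, rfl⟩ := JG.exists_D W hΔ h4
  have hD0 : D ≠ 0 := by
    rintro rfl
    exact hfree 2 TH.b4_two_prime (dvd_zero _)
  refine ⟨D, C, cl2_of hfree ?_ ?_, rfl⟩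
  · have h := (noTwo_smul (ED (jK D)) C).1 ((noTwo_iff _ _ _).1 h2)
    exact ncube_of hD0 ((noTwo_iff _ _ _).1 h)
  · intro v
    rw [← ISO.tam_smul (ED (jK D)) (ED_ne2 hD0) C v]
    exact htam v

/-- The conjecture modulo `2`. -/
theorem modTwo_all (hL : ∀ D : Eis, Cl2 D → LVal2 D) (W : WeierstrassCurve KK) (hΔ : W.Δ ≠ 0) (h4 : W.c₄ = 0) (i : DecidableEq KK)
    (h2 : NoTwo KK i W) (htam : ∀ v : HeightOneSpectrum (𝓞 KK), ¬ 2 ∣ SBSD.tam W v) :
    EQV.ModTwo W := by
  obtain ⟨D, C, hD, rfl⟩ := exists_cl2 W hΔ h4 i h2 htam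
  exact (modTwo_smul (ED (jK D)) (ED_ne2 (cl2_ne hD)) C).2 (modTwo2 hD (hL D hD))

theorem two_core {K : Type} [Field K] [CharZero K] (i : DecidableEq K) {d : K}
    (hn : ∀ x : K, x ^ 3 ≠ d) : NoTwo K i (ED d) := by
  intro P hP
  cases P with
  | zero => rfl
  | some x y hxy =>
    exfalso
    have heq : y ^ 2 = x ^ 3 + d := (ED_equation d x y).1 hxy.1
    have h1 : (WeierstrassCurve.Affine.Point.some x y hxy : (ED d).toAffine.Point) = -.some x y hxy := by
      rw [two_nsmul] at hP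
      exact eq_neg_of_add_eq_zero_left hP
    rw [WeierstrassCurve.Affine.Point.neg_some, WeierstrassCurve.Affine.Point.some.injEq] at h1
    have h2 : (ED d).toAffine.negY x y = -y := by
      simp [WeierstrassCurve.Affine.negY, ED]
    have h3 : y = 0 := by
      have h4 := h1.2
      rw [h2] at h4
      have h5 : (2 : K) * y = 0 := by linear_combination h4
      exact (mul_eq_zero.1 h5).resolve_left two_ne_zero
    rw [h3] at heq
    exact hn (-x) (by linear_combination heq)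

/-- There is no point of order `2` if `D` is not a cube. -/
theorem no_two {D : Eis} (hnc : ¬ ∃ x : Eis, x ^ 3 = D) (i : DecidableEq KK) : NoTwo KK i (ED (jK D)) :=
  two_core i (not_cube hnc)

/-- The class `Cl2` in terms of the curve. -/
theorem cl2_iff (D : Eis) (i : DecidableEq KK) : Cl2 D ↔ D ≠ 0 ∧ (∀ p : Eis, Prime p → ¬ p ^ 6 ∣ D) ∧
    NoTwo KK i (ED (jK D)) ∧ ∀ v : HeightOneSpectrum (𝓞 KK), ¬ 2 ∣ SBSD.tam (ED (jK D)) v := by
  constructor
  · intro h
    exact ⟨cl2_ne h, h.free, no_two h.ncube i, fun v => (tam_all2 v h).2⟩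
  · rintro ⟨h0, h1, h2, h3⟩
    exact cl2_of h1 (ncube_of h0 ((noTwo_iff _ _ _).1 h2)) h3

/-- The conjecture modulo `2` for every elliptic curve over `ℚ(ω)` with `j = 0`, no rational point of order `2` and odd Tamagawa numbers. -/
theorem modTwo_j (hL : ∀ D : Eis, Cl2 D → LVal2 D) (E : WeierstrassCurve KK) [E.IsElliptic] (hj : E.j = 0) (i : DecidableEq KK)
    (h2 : NoTwo KK i E) (htam : ∀ v : HeightOneSpectrum (𝓞 KK), ¬ 2 ∣ SBSD.tam E v) :
    EQV.ModTwo E :=
  modTwo_all hL E E.isUnit_Δ.ne_zero (E.j_eq_zero_iff.1 hj) i h2 htam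

/-- The `2`-part of the conjecture in the case of rank `0`. -/
theorem twoPart_all (hL : ∀ D : Eis, Cl2 D → LVal2 D) (W : WeierstrassCurve KK) (hΔ : W.Δ ≠ 0) (h4 : W.c₄ = 0) (i : DecidableEq KK)
    (h2 : NoTwo KK i W) (htam : ∀ v : HeightOneSpectrum (𝓞 KK), ¬ 2 ∣ SBSD.tam W v)
    (hfin : Finite W.toAffine.Point) (hsha : ∀ x : SBSD.Sha W, 2 • x = 0 → x = 0) : SBSD2.TwoPartRankZero W := by
  obtain ⟨D, C, hD, rfl⟩ := exists_cl2 W hΔ h4 i h2 htam
  have hΔ0 := ED_ne2 (cl2_ne hD)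
  have h5 : UC2 D := (uc_iff2 hD).2 ⟨(ISO.pts (ED (jK D)) C).1.1 hfin, (ISO.sha_smul (ED (jK D)) C 2).1 hsha⟩
  exact (twoPart_smul (ED (jK D)) hΔ0 C).2 (final_all2 hD h5 (hL D hD))

end JT
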