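import Pool.Agent.JT.N0
import Pool.Agent.Q3D.AMain

/-!
# [JT-M1] if the Selmer group is trivial then `E_d(F)` is finite of odd order

PROOF. `half_of_sq`: `g = (a, b, c)` with `g² = (x, 1, 0)`: `a² + 2 d b c = x`, `2 a b + d c² = 1`, `b² + 2 a c = 0`. Replacing `g` by `-g` we may assume `nm d g = y` (`(nm d g)² = nm d (x, 1, 0) = x³ + d = y²`). In an algebraic closure `L` with root `ρ`: `r ρ' = ev (mp g) ρ'` satisfies the hypotheses of `halfE` (product: `nm_ev`), so there is `Q` over `L` with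
`2 Q = P` and `rr ρ' Q = ev (mp g) ρ'`. `Q` is fixed by all automorphisms `σ` of `L / F`: `σ Q - Q =: T` satisfies `2 T = σ P - P = 0`, and `rr (σ ρ') (σ Q) = σ (rr ρ' Q) = ev (mp g) (σ ρ') = rr (σ ρ') Q`, also `rr (σ ρ') (Q + T) = sg (σ ρ') T * rr (σ ρ') Q`; `rr (σ ρ') Q ≠ 0` (its square is `x + σ ρ' ≠ 0`: `x³ + d = y² ≠ 0`), so
`sg ρ'' T = 1` for all roots, `T = 0`. So `Q` is the image of a point over `F` (coordinates fixed, `InfiniteGalois.mem_range_algebraMap_iff_fixed`; nonsingularity as in `JD.exists_ptE`, JD/M1.lean), and `ptE_injective`. (Or explicitly: `Q = (x + 3 (a² - d b c), ± (9 a (a² - d b c) - nm d g))`.)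
`surj2`: `P = 0`: `Q = 0`. `P = (x, y)`: `y ≠ 0` since `-x` is not a cube root of `d`... (`y = 0` gives `(-x)³ = d`). `Sel0` for `u = (x, 1, 0)`: `nm d u = x³ + d = y²` (`nm_pt`), `LocA`: second alternative with the point `(x, y)` itself: `mu d u u` is a square.
`fin_of_two`: `F'` a number field with a root `ρ` of `d` (here given as hypothesis `F'`): apply Q3D/A10: `Q3D.finite_index` for the translated curve over `F'` with a place `v` over `2` (Q3D/AMain.lean: existence of `v`; `d` integral, so `ρ` is integral, `a = (1 - o) ρ`, `b = (1 - o²) ρ` are integral): a subgroup `H₁` with finite quotient (`Q3D.exists_ker_red`, A10a).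
Pull back to `E_d(F)` (`P ↦ tw (ptE P)`, as `M2a_gen` in JD/M2.lean): `H`, membership `1 < w x` (`w (x + ρ) = w x` if `1 < w x` since `w ρ ≤ 1`), finite quotient. `Q3D.dbl_raise`: `w x(2P) * w 4 = w x(P)`. Then as `finite_of_phiE` in JD/M2.lean (`M2b_abs` with `f P = 2 • P`, injective since `2 P = 0` implies `P = 0`: `y = 0`, `(-x)³ = d`).
Odd order: an element of order 2 (Cauchy, `exists_prime_addOrderOf_dvd_card`) is killed by 2.
-/

set_option autoImplicit false

open NumberField IsDedekindDomain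
open scoped Classical

namespace JT

open JD (ED ptE Coc LocTriv)
open CUD (gal_comm alg_comm tau_comm am_ne am_o)

/-- a point fixed by the Galois group is rational -/
theorem m1a_desc {K L : Type} [Field K] [CharZero K] [Field L] [Algebra K L] [IsGalois K L] {d : K} (hd : d ≠ 0)
    (P : (ED (algebraMap K L d)).toAffine.Point) (h : ∀ σ : L ≃ₐ[K] L, ptE (σ : L →+* L) (gal_comm σ d) P = P) :
    ∃ Q : (ED d).toAffine.Point, ptE (algebraMap K L) rfl Q = P := by
  cases P with
  | zero => exact ⟨0, rfl⟩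
  | some X Y hXY =>
    have h1 : ∀ σ : L ≃ₐ[K] L, σ X = X ∧ σ Y = Y := by
      intro σ
      have h2 := h σ
      simp only [ptE, WeierstrassCurve.Affine.Point.some.injEq] at h2
      exact h2
    obtain ⟨x, hx⟩ := (InfiniteGalois.mem_range_algebraMap_iff_fixed (k := K) X).2 fun τ => (h1 τ).1
    obtain ⟨y, hy⟩ := (InfiniteGalois.mem_range_algebraMap_iff_fixed (k := K) Y).2 fun τ => (h1 τ).2
    have heq : y ^ 2 = x ^ 3 + d := by
      have h1 := (JD.ED_equation _ _ _).1 hXY.1
      apply (algebraMap K L).injective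
      rw [map_pow, map_add, map_pow, hx, hy, h1]
    refine ⟨.some x y ((JD.ED_nonsingular two_ne_zero three_ne_zero hd _ _).2 heq), ?_⟩
    simp only [ptE, WeierstrassCurve.Affine.Point.some.injEq]
    exact ⟨hx, hy⟩

/-- the case `nm d g = y` -/
theorem m1a_core {F : Type} [Field F] [CharZero F] {d o : F} (hd : d ≠ 0) (ho : o ^ 2 + o + 1 = 0) {x y : F}
    (hN : (ED d).toAffine.Nonsingular x y) (hy : y ≠ 0) (g : F × F × F) (hg : (x, 1, 0) = mu d g g) (hn : nm d g = y) :
    ∃ Q : (ED d).toAffine.Point, 2 • Q = .some x y hN := by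
  let L := AlgebraicClosure F
  have : CharZero L := charZero_of_injective_algebraMap (algebraMap F L).injective
  have : IsGalois F L := ⟨⟩
  obtain ⟨ρ₀, h₀⟩ := IsAlgClosed.exists_pow_nat_eq (algebraMap F L d) (n := 3) (by norm_num)
  have hdL : algebraMap F L d ≠ 0 := am_ne hd
  have hoL : algebraMap F L o ^ 2 + algebraMap F L o + 1 = 0 := am_o ho
  have hr : ∀ ρ' : L, ρ' ^ 3 = algebraMap F L d → ev (mp (algebraMap F L) g) ρ' ^ 2 = algebraMap F L x + ρ' := by
    intro ρ' h'
    have h1 : ev (mp (algebraMap F L) ((x, 1, 0) : F × F × F)) ρ' = algebraMap F L x + ρ' := by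
      simp only [mp, map_one, map_zero]
      exact ev_pt _ ρ'
    rw [← h1, hg, mp_mu, ev_mu h', sq]
  have hp : ev (mp (algebraMap F L) g) ρ₀ * ev (mp (algebraMap F L) g) (algebraMap F L o * ρ₀) *
      ev (mp (algebraMap F L) g) (algebraMap F L o ^ 2 * ρ₀) = algebraMap F L y := by
    rw [nm_ev hoL h₀, mp_nm, hn]
  let P : (ED d).toAffine.Point := .some x y hN
  have hP : ∃ hN', ptE (algebraMap F L) rfl P = .some (algebraMap F L x) (algebraMap F L y) hN' := ⟨_, rfl⟩
  obtain ⟨hN', hP'⟩ := hP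
  obtain ⟨Q, hQ, hQr⟩ := halfE hdL hoL h₀ hN' (fun ρ' => ev (mp (algebraMap F L) g) ρ') hr hp
  have hne : ∀ ρ' : L, ρ' ^ 3 = algebraMap F L d → rr ρ' Q ≠ 0 := by
    intro ρ' h' h0
    have h2 := nm_ev hoL h' (mp (algebraMap F L) g)
    rw [mp_nm, hn, ← hQr ρ' h', h0, zero_mul, zero_mul] at h2
    exact hy ((map_eq_zero (algebraMap F L)).1 h2.symm)
  have hfix : ∀ σ : L ≃ₐ[F] L, ptE (σ : L →+* L) (gal_comm σ d) Q = Q := by
    intro σ
    set T := ptE (σ : L →+* L) (gal_comm σ d) Q - Q with hTdef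
    have hQT : ptE (σ : L →+* L) (gal_comm σ d) Q = Q + T := by rw [hTdef]; abel
    have hT2 : TwoE T := by
      rw [twoE_iff, hTdef, nsmul_sub, ← JD.ptE_nsmul, hQ, sub_eq_zero]
      simp only [ptE, WeierstrassCurve.Affine.Point.some.injEq]
      exact ⟨σ.commutes x, σ.commutes y⟩
    have hsg : ∀ ρ' : L, ρ' ^ 3 = algebraMap F L d → sg ρ' T = 1 := by
      intro ρ' h'
      have h4 : (σ.symm ρ') ^ 3 = algebraMap F L d := by rw [← map_pow, h', AlgEquiv.commutes]
      have h5 : rr (σ (σ.symm ρ')) (ptE (σ : L →+* L) (gal_comm σ d) Q) = σ (rr (σ.symm ρ') Q) :=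
        rr_ptE (σ : L →+* L) (gal_comm σ d) (σ.symm ρ') Q
      have h6 : σ (ev (mp (algebraMap F L) g) (σ.symm ρ')) = ev (mp (algebraMap F L) g) ρ' := by
        simp only [ev, mp, map_add, map_mul, map_pow, AlgEquiv.apply_symm_apply, AlgEquiv.commutes]
      rw [AlgEquiv.apply_symm_apply, hQT, rr_add hdL hoL h' Q T hT2, hQr _ h4, h6, ← hQr _ h'] at h5
      rcases sg_pm ρ' T with h7 | h7
      · exact h7
      · exfalso
        rw [h7] at h5
        push_cast at h5
        have h8 : 2 * rr ρ' Q = 0 := by linear_combination -h5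
        rcases mul_eq_zero.1 h8 with h9 | h9
        · exact two_ne_zero h9
        · exact hne ρ' h' h9
    have hT0 : T = 0 := sg_inj hdL hoL h₀ T 0 hT2 twoE_zero fun ρ' h' => by rw [hsg ρ' h', sg_zero]
    rw [hQT, hT0, add_zero]
  obtain ⟨Q₀, hQ₀⟩ := m1a_desc hd Q hfix
  refine ⟨Q₀, ?_⟩
  apply JD.ptE_injective (algebraMap F L) rfl
  rw [JD.ptE_nsmul, hQ₀, hQ]
  exact hP'.symm

/-- [M1a] -/
theorem half_of_sq {F : Type} [Field F] [CharZero F] {d o : F} (hd : d ≠ 0) (ho : o ^ 2 + o + 1 = 0) {x y : F}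
    (hN : (ED d).toAffine.Nonsingular x y) (hy : y ≠ 0) (h : SqA d (x, 1, 0)) :
    ∃ Q : (ED d).toAffine.Point, 2 • Q = .some x y hN := by
  obtain ⟨g, hg⟩ := h
  have h1 : nm d g ^ 2 = y ^ 2 := by
    rw [sq, ← nm_mu, ← hg, nm_pt]
    exact ((JD.ED_equation _ _ _).1 hN.1).symm
  rcases sq_eq_sq_iff_eq_or_eq_neg.1 h1 with h2 | h2
  · exact m1a_core hd ho hN hy g hg h2
  · refine m1a_core hd ho hN hy (-g.1, -g.2.1, -g.2.2) ?_ ?_
    · rw [hg]
      simp only [mu, Prod.mk.injEq]
      refine ⟨?_, ?_, ?_⟩ <;> ring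
    · have h3 : nm d (-g.1, -g.2.1, -g.2.2) = -nm d g := by
        simp only [nm]
        ring
      rw [h3, h2, neg_neg]

/-- [M1b] -/
theorem surj2 {F : Type} [Field F] [NumberField F] {d o : F} (hd : d ≠ 0) (ho : o ^ 2 + o + 1 = 0) (hnc : ∀ x : F, x ^ 3 ≠ d)
    (hsel : Sel0 F d) (P : (ED d).toAffine.Point) : ∃ Q : (ED d).toAffine.Point, 2 • Q = P := by
  cases P with
  | zero => exact ⟨0, nsmul_zero 2⟩
  | some x y hN =>
    have heq : y ^ 2 = x ^ 3 + d := (JD.ED_equation _ _ _).1 hN.1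
    have hy : y ≠ 0 := by
      rintro rfl
      exact hnc (-x) (by linear_combination heq)
    have hnm : nm d ((x, 1, 0) : F × F × F) = y ^ 2 := by rw [nm_pt, heq]
    refine half_of_sq hd ho hN hy (hsel (x, 1, 0) ?_ ?_ fun v => Or.inr ?_)
    · rw [hnm]
      exact pow_ne_zero 2 hy
    · exact ⟨y, by rw [hnm, sq]⟩
    · refine ⟨algebraMap F _ x, algebraMap F _ y, ?_, ?_⟩
      · rw [← map_pow, heq, map_add, map_pow]
      · refine ⟨(algebraMap F _ x, 1, 0), ?_⟩
        simp only [mp, map_one, map_zero]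

theorem m1b_abs {A : Type} [AddCommGroup A] (f : A → A)
    (hadd : ∀ P Q, f (P + Q) = f P + f Q) (hs : ∀ P, ∃ Q, f Q = P)
    (H : AddSubgroup A) (hfin : Finite (A ⧸ H)) (ht : A → ℕ) (h1 : ∀ P ∈ H, f P ∈ H)
    (h2 : ∀ P ∈ H, P ≠ 0 → ht P < ht (f P)) : Finite A := by
  let φ : A →+ A := AddMonoidHom.mk' f hadd
  have h1 : ∀ P ∈ H, φ P ∈ H := h1
  have h2 : ∀ P ∈ H, P ≠ 0 → ht P < ht (φ P) := h2
  have hs : ∀ P, ∃ Q, φ Q = P := hs
  have hpres : H ≤ H.comap φ := h1
  have hhalf : ∀ Q, φ Q ∈ H → Q ∈ H := by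
    let ψ := QuotientAddGroup.map H H φ hpres
    have hg : Function.Surjective ψ := by
      intro q
      obtain ⟨P, rfl⟩ := QuotientAddGroup.mk_surjective q
      obtain ⟨Q, hQP⟩ := hs P
      refine ⟨(Q : A ⧸ H), ?_⟩
      change ((φ Q : A) : A ⧸ H) = (P : A ⧸ H)
      rw [hQP]
    have hinj : Function.Injective ψ := Finite.injective_iff_surjective.2 hg
    intro Q hQH
    have h5 : ψ (Q : A ⧸ H) = ψ 0 := by
      rw [map_zero]
      exact (QuotientAddGroup.eq_zero_iff _).2 hQH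
    exact (QuotientAddGroup.eq_zero_iff _).1 (hinj h5)
  have hker : ∀ n : ℕ, ∀ P ∈ H, ht P = n → P = 0 := by
    intro n
    induction n using Nat.strong_induction_on with
    | _ n ih =>
      intro P hP hn
      obtain ⟨Q, rfl⟩ := hs P
      have hQ1 : Q ∈ H := hhalf Q hP
      by_cases hQ0 : Q = 0
      · rw [hQ0, map_zero]
      · have h3 := h2 Q hQ1 hQ0
        exact absurd (ih (ht Q) (by omega) Q hQ1 rfl) hQ0
  refine Finite.of_injective (fun P : A => (P : A ⧸ H)) fun P Q hPQ => ?_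
  have h5 : -P + Q ∈ H := QuotientAddGroup.eq.1 hPQ
  have h6 := hker _ _ h5 rfl
  have h7 : Q = P + (-P + Q) := by abel
  rw [h7, h6, add_zero]

theorem m1b_odd {A : Type} [AddCommGroup A] [Finite A]
    (h : ∀ P : A, 2 • P = 0 → P = 0) : Odd (Nat.card A) := by
  rw [← Nat.not_even_iff_odd, even_iff_two_dvd]
  intro hdvd
  have : Fintype A := Fintype.ofFinite _
  have : Fact (Nat.Prime 2) := ⟨Nat.prime_two⟩
  obtain ⟨P, hP⟩ := exists_prime_addOrderOf_dvd_card (G := A) 2 (by
    rw [← Nat.card_eq_fintype_card]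
    exact hdvd)
  have h3P : 2 • P = 0 := by rw [← hP]; exact addOrderOf_nsmul_eq_zero P
  rw [h P h3P, addOrderOf_zero] at hP
  omega

/-- `P = 0` or `1 < w x(P)` -/
def m1b_InK {K : Type} [Field K] (w : Valuation K (WithZero (Multiplicative ℤ))) {d : K} : (ED d).toAffine.Point → Prop
  | .zero => True
  | .some x _ _ => 1 < w x

/-- the logarithm of `w x(P)` -/
noncomputable def m1b_ht {K : Type} [Field K]
    (w : Valuation K (WithZero (Multiplicative ℤ))) {d : K} : (ED d).toAffine.Point → ℕ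
  | .zero => 0
  | .some x _ _ => (WithZero.log (w x)).toNat

theorem m1b_lt {K : Type} [Field K]
    (w : Valuation K (WithZero (Multiplicative ℤ))) {x x' e : K} (h3 : w e < 1) (hx : 1 < w x)
    (h : w x' * w e = w x) : 1 < w x' ∧ (WithZero.log (w x)).toNat < (WithZero.log (w x')).toNat := by
  have h8 : w x < w x' := by
    have h0 : w x' ≠ 0 := by
      intro h0
      rw [h0, zero_mul] at h
      rw [← h] at hx
      exact absurd hx (not_lt.2 zero_le)
    rw [← h]
    calc w x' * w e < w x' * 1 := mul_lt_mul_of_pos_left h3 (zero_lt_iff.mpr h0)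
      _ = w x' := mul_one _
  have hx' := hx.trans h8
  refine ⟨hx', ?_⟩
  obtain ⟨n, hn⟩ := Q3D.d10c_exp w hx
  obtain ⟨n', hn'⟩ := Q3D.d10c_exp w hx'
  rw [hn, hn', WithZero.exp_lt_exp] at h8
  rw [hn, hn', WithZero.log_exp, WithZero.log_exp]
  omega

/-- a place over `2` -/
theorem m1b_place (F : Type) [Field F] [NumberField F] : ∃ v : HeightOneSpectrum (𝓞 F), v.valuation F 2 < 1 := by
  have h2 : ¬ IsUnit (2 : 𝓞 F) := by
    intro hu
    have h1 : IsUnit (Algebra.norm ℤ (2 : 𝓞 F)) := hu.map _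
    have h3 : Algebra.norm ℤ (2 : 𝓞 F) = 2 ^ Module.finrank ℤ (𝓞 F) := by
      have h5 := Algebra.norm_algebraMap (R := ℤ) (S := 𝓞 F) (2 : ℤ)
      rw [← h5]
      congr 1
      norm_num
    rw [h3, Int.isUnit_iff] at h1
    have h4 : 0 < Module.finrank ℤ (𝓞 F) := Module.finrank_pos
    rcases h1 with h1 | h1
    · have : (1 : ℤ) < 2 ^ Module.finrank ℤ (𝓞 F) := one_lt_pow₀ (by norm_num) h4.ne'
      omega
    · have : (0 : ℤ) < 2 ^ Module.finrank ℤ (𝓞 F) := by positivity
      omega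
  obtain ⟨P, hP, hle⟩ := Ideal.exists_le_maximal (Ideal.span {(2 : 𝓞 F)})
    (fun h => h2 (Ideal.span_singleton_eq_top.1 h))
  have h2P : (2 : 𝓞 F) ∈ P := hle (Ideal.mem_span_singleton_self _)
  refine ⟨⟨P, hP.isPrime, ?_⟩, ?_⟩
  · rintro rfl
    rw [Ideal.mem_bot] at h2P
    exact two_ne_zero h2P
  · have h5 := (HeightOneSpectrum.valuation_lt_one_iff_mem (K := F) ⟨P, hP.isPrime, by
      rintro rfl
      rw [Ideal.mem_bot] at h2P
      exact two_ne_zero h2P⟩ (2 : 𝓞 F)).2 h2P
    have h6 : (algebraMap (𝓞 F) F) 2 = 2 := map_ofNat (algebraMap (𝓞 F) F) 2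
    exact h6 ▸ h5

/-- [M1c] -/
theorem fin_of_two {F F' : Type} [Field F] [NumberField F] [Field F'] [NumberField F'] [Algebra F F'] {d o : F} (hd : d ≠ 0)
    (hdi : IsIntegral ℤ d) (ho : o ^ 2 + o + 1 = 0) (hnc : ∀ x : F, x ^ 3 ≠ d) {ρ : F'} (hρ : ρ ^ 3 = algebraMap F F' d)
    (h : ∀ P : (ED d).toAffine.Point, ∃ Q : (ED d).toAffine.Point, 2 • Q = P) :
    Finite (ED d).toAffine.Point ∧ Odd (Nat.card (ED d).toAffine.Point) := by
  have hdF : algebraMap F F' d ≠ 0 := am_ne hd
  have hoF : algebraMap F F' o ^ 2 + algebraMap F F' o + 1 = 0 := am_o ho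
  have hρ0 : ρ ≠ 0 := root_ne hdF hρ
  obtain ⟨v, hv⟩ := m1b_place F'
  have hint : ∀ z : F', IsIntegral ℤ z → v.valuation F' z ≤ 1 := by
    intro z hz
    exact v.valuation_le_one (⟨z, hz⟩ : 𝓞 F')
  have hdi' : IsIntegral ℤ (algebraMap F F' d) := hdi.map (algebraMap F F').toIntAlgHom
  have hρi : IsIntegral ℤ ρ := IsIntegral.of_pow (n := 3) (by norm_num) (by rw [hρ]; exact hdi')
  have hoi : IsIntegral ℤ (algebraMap F F' o) := by
    have h3 : algebraMap F F' o ^ 3 = 1 := by linear_combination (algebraMap F F' o - 1) * hoF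
    exact IsIntegral.of_pow (n := 3) (by norm_num) (by rw [h3]; exact isIntegral_one)
  have hvρ := hint ρ hρi
  have hab : v.valuation F' ((1 - algebraMap F F' o) * ρ) ≤ 1 ∧ v.valuation F' ((1 - algebraMap F F' o ^ 2) * ρ) ≤ 1 :=
    ⟨hint _ ((isIntegral_one.sub hoi).mul hρi), hint _ ((isIntegral_one.sub (hoi.pow 2)).mul hρi)⟩
  have hnd := tw_nd (K := F') hoF three_ne_zero hρ0
  obtain ⟨e, he⟩ := exists_tw (d := algebraMap F F' d) hoF hρ
  obtain ⟨H₁, hH₁⟩ := Q3D.exists_ker_red (v.valuation F') hab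
  have hfin : Finite ((Q3D.W ((1 - algebraMap F F' o) * ρ) ((1 - algebraMap F F' o ^ 2) * ρ)).toAffine.Point ⧸ H₁) :=
    Q3D.finite_index hnd v hab H₁ hH₁
  let g : (ED d).toAffine.Point →+
      (Q3D.W ((1 - algebraMap F F' o) * ρ) ((1 - algebraMap F F' o ^ 2) * ρ)).toAffine.Point :=
    e.toAddMonoidHom.comp (JD.ptHE (algebraMap F F') rfl)
  have hgs : ∀ (x y : F) (h : (ED d).toAffine.Nonsingular x y),
      ∃ h', g (.some x y h) = .some (algebraMap F F' x + ρ) (algebraMap F F' y) h' := by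
    intro x y h
    exact he _ _ _
  set w : Valuation F (WithZero (Multiplicative ℤ)) := (v.valuation F').comap (algebraMap F F') with hw
  have hwa : ∀ x : F, w x = v.valuation F' (algebraMap F F' x) := fun _ => rfl
  have hw4 : w 4 = v.valuation F' 4 := by rw [hwa, map_ofNat]
  have hw4' : w 4 < 1 := by
    rw [hw4]
    have h1 : (4 : F') = 2 * 2 := by norm_num
    rw [h1, map_mul]
    calc v.valuation F' 2 * v.valuation F' 2 ≤ 1 * v.valuation F' 2 := mul_le_mul_left hv.le _
      _ = v.valuation F' 2 := one_mul _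
      _ < 1 := hv
  -- adding `ρ` does not change the valuation of a big element
  have hadd : ∀ z : F', 1 < v.valuation F' z → v.valuation F' (z + ρ) = v.valuation F' z := by
    intro z hz
    exact Q3D.a10a_add _ (lt_of_le_of_lt hvρ hz)
  have hadd' : ∀ z : F', 1 < v.valuation F' (z + ρ) ↔ 1 < v.valuation F' z := by
    intro z
    constructor
    · intro h1
      by_contra h2
      exact absurd h1 (not_lt.2 (Q3D.a10a_le_add _ (not_lt.1 h2) hvρ))
    · intro h1
      rw [hadd z h1]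
      exact h1
  have hmem : ∀ P, P ∈ H₁.comap g ↔ m1b_InK w P := by
    intro P
    rw [AddSubgroup.mem_comap, hH₁]
    cases P with
    | zero =>
      have h0 : (WeierstrassCurve.Affine.Point.zero : (ED d).toAffine.Point) = 0 := rfl
      rw [h0, map_zero]
      exact Iff.rfl
    | some x y h =>
      obtain ⟨h', e'⟩ := hgs x y h
      rw [e']
      exact hadd' (algebraMap F F' x)
  have hfinH : Finite ((ED d).toAffine.Point ⧸ H₁.comap g) := by
    refine Finite.of_injective (QuotientAddGroup.map (H₁.comap g) H₁ g le_rfl) ?_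
    intro a b hab
    obtain ⟨P, rfl⟩ := QuotientAddGroup.mk_surjective a
    obtain ⟨Q, rfl⟩ := QuotientAddGroup.mk_surjective b
    have h4 : ((g P : (Q3D.W ((1 - algebraMap F F' o) * ρ) ((1 - algebraMap F F' o ^ 2) * ρ)).toAffine.Point) :
        (Q3D.W ((1 - algebraMap F F' o) * ρ) ((1 - algebraMap F F' o ^ 2) * ρ)).toAffine.Point ⧸ H₁) =
        ((g Q : (Q3D.W ((1 - algebraMap F F' o) * ρ) ((1 - algebraMap F F' o ^ 2) * ρ)).toAffine.Point) :
          (Q3D.W ((1 - algebraMap F F' o) * ρ) ((1 - algebraMap F F' o ^ 2) * ρ)).toAffine.Point ⧸ H₁) := hab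
    rw [QuotientAddGroup.eq] at h4 ⊢
    rw [AddSubgroup.mem_comap, map_add, map_neg]
    exact h4
  have hraise : ∀ (x y : F) (h : (ED d).toAffine.Nonsingular x y), 1 < w x →
      ∃ (x' y' : F) (h' : (ED d).toAffine.Nonsingular x' y'),
        2 • (.some x y h : (ED d).toAffine.Point) = .some x' y' h' ∧ w x' * w 4 = w x := by
    intro x y h hx
    obtain ⟨h', e1⟩ := hgs x y h
    have hx1 : 1 < v.valuation F' (algebraMap F F' x + ρ) := (hadd' _).2 hx
    obtain ⟨x', y', h'', h5, h6⟩ := Q3D.dbl_raise hnd (v.valuation F') hab h' hx1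
    have h7 : g (2 • (.some x y h : (ED d).toAffine.Point)) = .some x' y' h'' := by
      rw [map_nsmul, e1, h5]
    cases hP : 2 • (.some x y h : (ED d).toAffine.Point) with
    | zero =>
      exfalso
      have h0 : (WeierstrassCurve.Affine.Point.zero : (ED d).toAffine.Point) = 0 := rfl
      rw [hP, h0, map_zero] at h7
      cases h7
    | some x₁ y₁ h₁ =>
      obtain ⟨h₂, e₂⟩ := hgs x₁ y₁ h₁
      rw [hP, e₂, WeierstrassCurve.Affine.Point.some.injEq] at h7
      refine ⟨x₁, y₁, h₁, rfl, ?_⟩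
      rw [hadd _ hx] at h6
      have h8 : 1 < v.valuation F' x' := by
        by_contra h9
        have h10 : v.valuation F' x' * v.valuation F' 4 ≤ 1 := by
          calc v.valuation F' x' * v.valuation F' 4 ≤ 1 * 1 :=
                mul_le_mul' (not_lt.1 h9) (by rw [← hw4]; exact hw4'.le)
            _ = 1 := one_mul 1
        rw [h6] at h10
        exact absurd hx (not_lt.2 h10)
      have h11 : v.valuation F' x' = v.valuation F' (algebraMap F F' x₁) := by
        rw [← h7.1] at h8 ⊢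
        exact hadd _ ((hadd' _).1 h8)
      rw [hwa, hwa x, hw4, ← h11, h6]
  have hfinE : Finite (ED d).toAffine.Point := by
    refine m1b_abs (fun P : (ED d).toAffine.Point => 2 • P) (fun P Q => nsmul_add P Q 2) h (H₁.comap g) hfinH (m1b_ht w)
      ?_ ?_
    · intro P hP
      rcases P with _ | ⟨x, y, k⟩
      · have h1 : 2 • (WeierstrassCurve.Affine.Point.zero : (ED d).toAffine.Point) = 0 := nsmul_zero 2
        show 2 • (WeierstrassCurve.Affine.Point.zero : (ED d).toAffine.Point) ∈ _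
        rw [h1]
        exact AddSubgroup.zero_mem _
      · have hx : 1 < w x := (hmem _).1 hP
        obtain ⟨x', y', h', h5, h6⟩ := hraise x y k hx
        show 2 • (WeierstrassCurve.Affine.Point.some x y k : (ED d).toAffine.Point) ∈ _
        rw [h5, hmem]
        exact (m1b_lt w hw4' hx h6).1
    · intro P hP hP0
      rcases P with _ | ⟨x, y, k⟩
      · exact absurd rfl hP0
      · have hx : 1 < w x := (hmem _).1 hP
        obtain ⟨x', y', h', h5, h6⟩ := hraise x y k hx
        show m1b_ht w _ < m1b_ht w (2 • (WeierstrassCurve.Affine.Point.some x y k : (ED d).toAffine.Point))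
        rw [h5]
        exact (m1b_lt w hw4' hx h6).2
  refine ⟨hfinE, m1b_odd fun P h2 => ?_⟩
  have h3 := (twoE_iff P).2 h2
  cases P with
  | zero => rfl
  | some x y hxy =>
    exfalso
    have hy : y = 0 := h3
    subst hy
    have heq : (0 : F) ^ 2 = x ^ 3 + d := (JD.ED_equation d x 0).1 hxy.1
    exact hnc (-x) (by linear_combination heq)

end JT
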