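import Pool.Agent.JT.N0

/-!
# [JT-N2] the class of a cocycle is trivial if `u` is a square; the local condition

PROOF. `cob_of_sq`: `u = g²`, `g` a triple over `K`. Replacing `g` by `-g` we may assume `nm d g = n` (`(nm d g)² = n²`, `nm d (-g) = - nm d g`). For a root `ρ`: `(t ρ)² = (ev (mp g) ρ)²`, so `t ρ = ε ρ * ev (mp g) ρ`, `ε ρ = ± 1`; the product of `ε` over the three roots is `1` (`TD.prod`, `nm_ev`). `sg_surj`: `T`, `sg ρ T = ε ρ`.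
For `σ` and a root `ρ' = σ ρ`: `σ (t ρ) = ε ρ * ev (mp g) (σ ρ)` and `σ (t ρ) = sg (σ ρ) (c σ) * ε (σ ρ) * ev (mp g) (σ ρ)`, so `sg (σ ρ) (c σ) = ε ρ * ε (σ ρ) = sg (σ ρ) (σ T) * sg (σ ρ) T = sg (σ ρ) (σ T - T)` (`sg_ptE`, `sg_sub`). `sg_inj`.

`loc_of_cob`: put `T = ptE ι (c σ)` for `τ`, where `σ` is the restriction of `τ` (`hres`, copy from `Q3D.locB`, Q3D/A7.lean). The roots of `d` in `Lv` are the images `ι ρ` (three roots; `root_cases`). First case `TwoE Q`: `G (ι ρ) = ι (t ρ) * sg (ι ρ) Q`. For `τ`: `τ (G (ι ρ)) = ι (σ (t ρ)) * sg (ι ρ) Q`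
`= sg (σ ρ) (c σ) * ι (t (σ ρ)) * sg (τ (ι ρ)) (τ Q)` and `τ Q = Q + T`, `sg (τ (ι ρ)) (Q + T) = sg (τ (ι ρ)) Q * sg (τ (ι ρ)) T`, `sg (τ (ι ρ)) T = sg (ι (σ ρ)) (ptE ι (c σ)) = sg (σ ρ) (c σ)`: so `τ (G (ι ρ)) = G (τ (ι ρ))`; `interp_gal` for `Fv`, `Lv`: `g` over `Fv` with `ev g ρ' = G ρ'`; `ev_inj'`: `u = g²`.
(To define `G` on `Lv`: `G ρ' = if h : ∃ ρ, ρ ^ 3 = d ∧ ι ρ = ρ' then ι (t h.choose) * .. else 0`; `ι` is injective.) Second case: `Q` is not killed by 2: `G (ι ρ) = ι (t ρ) * rr (ι ρ) Q`: `τ (rr (ι ρ) Q) = rr (τ (ι ρ)) (τ Q) = rr (τ ι ρ) (Q + T) = sg (τ ι ρ) T * rr (τ ι ρ) Q` (`rr_ptE`, `rr_add`), so again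
`τ (G ρ') = G (τ ρ')`, `g` over `Fv`. `dblE`: `2 Q = (X, Y)`, fixed by all `τ` (`2 T = 0`), so `X = x`, `Y = y` in `Fv`, `X + ρ' = rr ρ' Q ^ 2`, so `ev (u (x + T)) ρ' = ι (t ρ)² (X + ρ') = (ev g ρ')²` for all roots: `mu (u, (x, 1, 0)) = g²` (`ev_inj'`, `mp_inj`): second alternative of `LocA`.
-/

set_option autoImplicit false

open NumberField IsDedekindDomain
open scoped Classical

namespace JT

open JD (ED ptE Coc LocTriv)
open CUD (gal_comm alg_comm tau_comm am_ne am_o)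

theorem N2a_sq {L : Type} [Field L] {d : L} (ρ : L) (P : (ED d).toAffine.Point) :
    sg ρ P * sg ρ P = 1 := by
  rcases sg_pm ρ P with h | h <;> rw [h] <;> norm_num

theorem N2a_ev {K L : Type} [Field K] [Field L] [Algebra K L] (σ : L ≃ₐ[K] L) (u : K × K × K) (ρ : L) :
    σ (ev (mp (algebraMap K L) u) ρ) = ev (mp (algebraMap K L) u) (σ ρ) := by
  simp only [ev, mp, map_add, map_mul, map_pow, AlgEquiv.commutes]

/-- a square root with the norm `n` -/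
theorem N2a_root {K : Type} [Field K] {d n : K} {u : K × K × K} (hs : SqA d u) (hn : nm d u = n ^ 2) :
    ∃ g : K × K × K, u = mu d g g ∧ nm d g = n := by
  obtain ⟨g, hg⟩ := hs
  have h1 : nm d g * nm d g = n ^ 2 := by rw [← nm_mu, ← hg, hn]
  have h2 : (nm d g - n) * (nm d g + n) = 0 := by linear_combination h1
  rcases mul_eq_zero.1 h2 with h3 | h3
  · exact ⟨g, hg, sub_eq_zero.1 h3⟩
  · refine ⟨(-g.1, -g.2.1, -g.2.2), ?_, ?_⟩
    · rw [hg]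
      simp only [mu, Prod.mk.injEq]
      refine ⟨?_, ?_, ?_⟩ <;> ring
    · have h4 : nm d (-g.1, -g.2.1, -g.2.2) = -nm d g := by
        simp only [nm]
        ring
      rw [h4]
      linear_combination -h3

/-- [N2a] -/
theorem cob_of_sq {K L : Type} [Field K] [CharZero K] [Field L] [Algebra K L] [IsAlgClosure K L] {d o : K} (hd : d ≠ 0)
    (ho : o ^ 2 + o + 1 = 0) {c : (L ≃ₐ[K] L) → (ED (algebraMap K L d)).toAffine.Point} (hT : ∀ σ, TwoE (c σ))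
    {u : K × K × K} {n : K} {t : L → L} (ht : TD d u n t) (hk : Ksg t c) (hs : SqA d u) :
    ∃ T : (ED (algebraMap K L d)).toAffine.Point, TwoE T ∧
      ∀ σ : L ≃ₐ[K] L, c σ = ptE (σ : L →+* L) (gal_comm σ d) T - T := by
  have hcl : IsAlgClosed L := IsAlgClosure.isAlgClosed K
  have hL0 : CharZero L := charZero_of_injective_algebraMap (algebraMap K L).injective
  have hdL : algebraMap K L d ≠ 0 := (map_ne_zero _).2 hd
  obtain ⟨oL, hoL'⟩ : ∃ oL, algebraMap K L o = oL := ⟨_, rfl⟩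
  have hoL : oL ^ 2 + oL + 1 = 0 := hoL' ▸ am_o ho
  obtain ⟨ρ₀, hρ₀⟩ := IsAlgClosed.exists_pow_nat_eq (algebraMap K L d) (n := 3) (by norm_num)
  obtain ⟨g, hg, hgn⟩ := N2a_root hs ht.nm
  -- the values of `g`
  have hgsq : ∀ ρ : L, ρ ^ 3 = algebraMap K L d →
      t ρ ^ 2 = ev (mp (algebraMap K L) g) ρ * ev (mp (algebraMap K L) g) ρ := fun ρ hρ => by
    rw [ht.sq ρ hρ, hg, mp_mu, ev_mu hρ]
  have hg0 : ∀ ρ : L, ρ ^ 3 = algebraMap K L d → ev (mp (algebraMap K L) g) ρ ≠ 0 := fun ρ hρ h0 => by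
    have h1 := hgsq ρ hρ
    rw [h0, mul_zero] at h1
    exact (ht.ev_ne hoL hρ).2 (pow_eq_zero_iff (n := 2) (by norm_num) |>.1 h1)
  obtain ⟨ε, hεdef⟩ : ∃ ε : L → ℤ, ∀ ρ, ε ρ = if t ρ = ev (mp (algebraMap K L) g) ρ then 1 else -1 :=
    ⟨_, fun _ => rfl⟩
  have hε : ∀ ρ : L, ρ ^ 3 = algebraMap K L d →
      t ρ = ((ε ρ : ℤ) : L) * ev (mp (algebraMap K L) g) ρ := fun ρ hρ => by
    rw [hεdef]
    split_ifs with h
    · rw [h, Int.cast_one, one_mul]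
    · have h1 : (t ρ - ev (mp (algebraMap K L) g) ρ) * (t ρ + ev (mp (algebraMap K L) g) ρ) = 0 := by
        linear_combination hgsq ρ hρ
      have h2 := (mul_eq_zero.1 h1).resolve_left (sub_ne_zero.2 h)
      rw [Int.cast_neg, Int.cast_one]
      linear_combination h2
  have hεpm : ∀ ρ : L, ε ρ = 1 ∨ ε ρ = -1 := fun ρ => by
    rw [hεdef]
    split_ifs
    · exact Or.inl rfl
    · exact Or.inr rfl
  have hεsq : ∀ ρ : L, ε ρ * ε ρ = 1 := fun ρ => by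
    rcases hεpm ρ with h | h <;> rw [h] <;> norm_num
  have hprod : ε ρ₀ * ε (oL * ρ₀) * ε (oL ^ 2 * ρ₀) = 1 := by
    have h1 := ht.prod oL ρ₀ hoL hρ₀
    have h2 := nm_ev hoL hρ₀ (mp (algebraMap K L) g)
    rw [mp_nm, hgn] at h2
    rw [hε _ hρ₀, hε _ (root_om hoL hρ₀), hε _ (root_om2 hoL hρ₀)] at h1
    have hn0 : algebraMap K L n ≠ 0 := (map_ne_zero _).2 ht.n0
    have h3 : (((ε ρ₀ * ε (oL * ρ₀) * ε (oL ^ 2 * ρ₀) : ℤ) : L)) * algebraMap K L n =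
        1 * algebraMap K L n := by
      push_cast
      linear_combination h1 - (((ε ρ₀ : ℤ) : L) * ((ε (oL * ρ₀) : ℤ) : L) * ((ε (oL ^ 2 * ρ₀) : ℤ) : L)) * h2
    have h4 := mul_right_cancel₀ hn0 h3
    exact_mod_cast h4
  obtain ⟨T, hT2, hTs⟩ := sg_surj hdL hoL hρ₀ ε (fun ρ' _ => hεpm ρ') hprod
  refine ⟨T, hT2, fun σ => ?_⟩
  have hT3 : TwoE (ptE (σ : L →+* L) (gal_comm σ d) T) := (twoE_ptE _ _ _).2 hT2
  refine sg_inj hdL hoL hρ₀ _ _ (hT σ) (twoE_sub _ _ hT3 hT2) fun ρ' hρ' => ?_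
  obtain ⟨ρ, rfl⟩ : ∃ ρ, σ ρ = ρ' := ⟨σ.symm ρ', σ.apply_symm_apply ρ'⟩
  have hρ : ρ ^ 3 = algebraMap K L d := by
    apply σ.injective
    rw [map_pow, hρ', AlgEquiv.commutes]
  have h1 : sg (σ ρ) (ptE (σ : L →+* L) (gal_comm σ d) T) = sg ρ T :=
    sg_ptE (σ : L →+* L) (gal_comm σ d) ρ T
  rw [sg_sub hdL hoL hρ' _ _ hT3 hT2, h1, hTs ρ hρ, hTs (σ ρ) hρ']
  have h2 := hk σ ρ hρ
  rw [hε ρ hρ, hε (σ ρ) hρ', map_mul, map_intCast, N2a_ev] at h2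
  have h3 : (((ε ρ : ℤ)) : L) = ((sg (σ ρ) (c σ) * ε (σ ρ) : ℤ) : L) := by
    apply mul_right_cancel₀ (hg0 (σ ρ) hρ')
    push_cast
    linear_combination h2
  have h4 : ε ρ = sg (σ ρ) (c σ) * ε (σ ρ) := by exact_mod_cast h3
  rw [h4, mul_assoc, hεsq, mul_one]

/-- the values of `t` at the roots in the extension -/
theorem n2b_tv {F L Lv : Type} [Field F] [Field L] [Algebra F L] [Field Lv] [Algebra F Lv] {d : F} (ι : L →ₐ[F] Lv)
    (t : L → L) : ∃ tv : Lv → Lv, ∀ ρ : L, ρ ^ 3 = algebraMap F L d → tv (ι ρ) = ι (t ρ) := by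
  refine ⟨fun ρ' => if h : ∃ ρ : L, ι ρ = ρ' then ι (t h.choose) else 0, fun ρ hρ => ?_⟩
  have h : ∃ ρ' : L, ι ρ' = ι ρ := ⟨ρ, rfl⟩
  have h1 : h.choose = ρ := ι.toRingHom.injective h.choose_spec
  show (if h : ∃ ρ' : L, ι ρ' = ι ρ then ι (t h.choose) else 0) = ι (t ρ)
  rw [dif_pos h, h1]

/-- restriction of automorphisms -/
theorem n2b_res {F L : Type} [Field F] [Field L] [Algebra F L] [IsAlgClosure F L]
    (Fv Lv : Type) [Field Fv] [Algebra F Fv] [Field Lv] [Algebra Fv Lv]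
    [Algebra F Lv] [IsScalarTower F Fv Lv] (ι : L →ₐ[F] Lv) (τ : Lv ≃ₐ[Fv] Lv) :
    ∃ σ : L ≃ₐ[F] L, ∀ x, ι (σ x) = τ (ι x) := by
  have : Normal F L := IsAlgClosure.normal F L
  let _ : Algebra L Lv := (ι : L →+* Lv).toAlgebra
  have : IsScalarTower F L Lv := IsScalarTower.of_algebraMap_eq' (by
    ext x
    show algebraMap F Lv x = ι (algebraMap F L x)
    rw [ι.commutes])
  refine ⟨(τ.restrictScalars F).restrictNormal L, fun x => ?_⟩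
  exact AlgEquiv.restrictNormal_commutes (τ.restrictScalars F) L x

/-- the roots in the extension come from `L` -/
theorem n2b_pre {F L Lv : Type} [Field F] [Field L] [Algebra F L] [Field Lv] [Algebra F Lv] {d o : F}
    (ho : o ^ 2 + o + 1 = 0) (ι : L →ₐ[F] Lv) {ρ₀ : L} (h₀ : ρ₀ ^ 3 = algebraMap F L d) {ρ' : Lv}
    (h' : ρ' ^ 3 = algebraMap F Lv d) : ∃ ρ : L, ρ ^ 3 = algebraMap F L d ∧ ι ρ = ρ' := by
  have h1 : (ι ρ₀) ^ 3 = algebraMap F Lv d := by rw [← map_pow, h₀, ι.commutes]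
  rcases root_cases (am_o (L := Lv) ho) h1 h' with h | h | h
  · exact ⟨ρ₀, h₀, h.symm⟩
  · exact ⟨algebraMap F L o * ρ₀, root_om (am_o ho) h₀, by rw [h, map_mul, ι.commutes]⟩
  · exact ⟨algebraMap F L o ^ 2 * ρ₀, root_om2 (am_o ho) h₀, by rw [h, map_mul, map_pow, ι.commutes]⟩

theorem n2b_sq {K : Type} [Field K] {d : K} {Lv : Type} [Field Lv] (ρ : K) (T : (ED d).toAffine.Point) :
    ((sg ρ T : ℤ) : Lv) * ((sg ρ T : ℤ) : Lv) = 1 := by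
  rcases sg_pm ρ T with h | h <;> rw [h] <;> norm_num

/-- the final step: an equivariant square root of `u (x + T)` resp. `u` -/
theorem n2b_fin {Fv Lv : Type} [Field Fv] [CharZero Fv] [Field Lv] [Algebra Fv Lv] [IsGalois Fv Lv] {dv : Fv} {ov ρ : Lv}
    (ho : ov ^ 2 + ov + 1 = 0) (hd : dv ≠ 0) (hρ : ρ ^ 3 = algebraMap Fv Lv dv) (G : Lv → Lv) (uv : Fv × Fv × Fv)
    (hG : ∀ (τ : Lv ≃ₐ[Fv] Lv) (ρ' : Lv), ρ' ^ 3 = algebraMap Fv Lv dv → τ (G ρ') = G (τ ρ'))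
    (hG2 : ∀ ρ' : Lv, ρ' ^ 3 = algebraMap Fv Lv dv → G ρ' ^ 2 = ev (mp (algebraMap Fv Lv) uv) ρ') : SqA dv uv := by
  have : CharZero Lv := charZero_of_injective_algebraMap (algebraMap Fv Lv).injective
  obtain ⟨g, hg⟩ := interp_gal ho hd hρ G hG
  refine ⟨g, mp_inj (algebraMap Fv Lv) ?_⟩
  refine ev_inj' ho three_ne_zero ((map_ne_zero _).2 hd) hρ fun ρ' h' => ?_
  rw [mp_mu, ev_mu h', hg ρ' h', ← hG2 ρ' h', sq]

/-- [N2b] -/
theorem loc_of_cob {F L : Type} [Field F] [CharZero F] [Field L] [Algebra F L] [IsAlgClosure F L] {d o : F} (hd : d ≠ 0)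
    (ho : o ^ 2 + o + 1 = 0) {c : (L ≃ₐ[F] L) → (ED (algebraMap F L d)).toAffine.Point} (hT : ∀ σ, TwoE (c σ))
    {u : F × F × F} {n : F} {t : L → L} (ht : TD d u n t) (hk : Ksg t c)
    (Fv Lv : Type) [Field Fv] [Algebra F Fv] [Field Lv] [Algebra Fv Lv] [IsAlgClosure Fv Lv]
    [Algebra F Lv] [IsScalarTower F Fv Lv] (ι : L →ₐ[F] Lv) (Q : (ED (algebraMap F Lv d)).toAffine.Point)
    (hQ : ∀ (τ : Lv ≃ₐ[Fv] Lv) (σ : L ≃ₐ[F] L), (∀ x, ι (σ x) = τ (ι x)) →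
      ptE (ι : L →+* Lv) (alg_comm ι d) (c σ) = ptE (τ : Lv →+* Lv) (tau_comm F Fv Lv τ d) Q - Q) :
    LocA (algebraMap F Fv d) (mp (algebraMap F Fv) u) := by
  have : CharZero Fv := charZero_of_injective_algebraMap (algebraMap F Fv).injective
  have : CharZero Lv := charZero_of_injective_algebraMap (algebraMap Fv Lv).injective
  have : CharZero L := charZero_of_injective_algebraMap (algebraMap F L).injective
  have : IsAlgClosed L := IsAlgClosure.isAlgClosed F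
  have : Algebra.IsAlgebraic Fv Lv := IsAlgClosure.isAlgebraic
  have : Normal Fv Lv := IsAlgClosure.normal Fv Lv
  have : IsGalois Fv Lv := ⟨⟩
  obtain ⟨ρ₀, h₀⟩ := IsAlgClosed.exists_pow_nat_eq (algebraMap F L d) (n := 3) (by norm_num)
  have hdF : algebraMap F Fv d ≠ 0 := am_ne hd
  have hdL : algebraMap F Lv d ≠ 0 := am_ne hd
  have hoL : algebraMap F Lv o ^ 2 + algebraMap F Lv o + 1 = 0 := am_o ho
  have htow : ∀ x : F, algebraMap F Lv x = algebraMap Fv Lv (algebraMap F Fv x) := fun x =>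
    IsScalarTower.algebraMap_apply F Fv Lv x
  have hρ₀ : (ι ρ₀) ^ 3 = algebraMap F Lv d := by rw [← map_pow, h₀, ι.commutes]
  obtain ⟨tv, htv⟩ := n2b_tv (d := d) ι t
  have hroot : ∀ (τ : Lv ≃ₐ[Fv] Lv) (ρ' : Lv), ρ' ^ 3 = algebraMap F Lv d → (τ ρ') ^ 3 = algebraMap F Lv d := by
    intro τ ρ' h'
    rw [← map_pow, h', htow, τ.commutes]
  -- the basic facts
  have hT' : ∀ τ : Lv ≃ₐ[Fv] Lv, ∃ T : (ED (algebraMap F Lv d)).toAffine.Point, TwoE T ∧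
      ptE (τ : Lv →+* Lv) (tau_comm F Fv Lv τ d) Q = Q + T ∧
      ∀ ρ' : Lv, ρ' ^ 3 = algebraMap F Lv d → τ (tv ρ') = (sg (τ ρ') T : Lv) * tv (τ ρ') := by
    intro τ
    obtain ⟨σ, hσ⟩ := n2b_res Fv Lv ι τ
    refine ⟨ptE (ι : L →+* Lv) (alg_comm ι d) (c σ), (twoE_ptE _ _ _).2 (hT σ), ?_, ?_⟩
    · rw [hQ τ σ hσ]; abel
    · intro ρ' h'
      obtain ⟨ρ, hρ, rfl⟩ := n2b_pre ho ι h₀ h'
      have hσρ : (σ ρ) ^ 3 = algebraMap F L d := by rw [← map_pow, hρ, σ.commutes]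
      have h1 : sg (ι (σ ρ)) (ptE (ι : L →+* Lv) (alg_comm ι d) (c σ)) = sg (σ ρ) (c σ) :=
        sg_ptE (ι : L →+* Lv) (alg_comm ι d) (σ ρ) (c σ)
      rw [htv ρ hρ, ← hσ (t ρ), hk σ ρ hρ, map_mul, map_intCast, ← hσ ρ, h1, htv _ hσρ]
  -- the squares
  have htv2 : ∀ ρ' : Lv, ρ' ^ 3 = algebraMap F Lv d →
      tv ρ' ^ 2 = ev (mp (algebraMap Fv Lv) (mp (algebraMap F Fv) u)) ρ' := by
    intro ρ' h'
    obtain ⟨ρ, hρ, rfl⟩ := n2b_pre ho ι h₀ h'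
    have h1 : mp (algebraMap Fv Lv) (mp (algebraMap F Fv) u) = mp (ι : L →+* Lv) (mp (algebraMap F L) u) := by
      simp only [mp, ← htow]
      simp only [RingHom.coe_coe, ι.commutes]
    rw [htv ρ hρ, ← map_pow, ht.sq ρ hρ, h1]
    exact (mp_ev (ι : L →+* Lv) _ ρ).symm
  have htow' : algebraMap Fv Lv (algebraMap F Fv d) = algebraMap F Lv d := (htow d).symm
  by_cases hQ2 : TwoE Q
  · left
    refine n2b_fin (ρ := ι ρ₀) hoL hdF (by rw [hρ₀, htow]) (fun ρ' => tv ρ' * (sg ρ' Q : Lv)) _ ?_ ?_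
    · intro τ ρ' h'
      rw [htow'] at h'
      obtain ⟨T, hT1, hT2, hT3⟩ := hT' τ
      have h3 : sg (τ ρ') (ptE (τ : Lv →+* Lv) (tau_comm F Fv Lv τ d) Q) = sg ρ' Q :=
        sg_ptE (τ : Lv →+* Lv) (tau_comm F Fv Lv τ d) ρ' Q
      rw [hT2, sg_add hdL hoL (hroot τ ρ' h') Q T hQ2 hT1] at h3
      have h4 := n2b_sq (Lv := Lv) (τ ρ') T
      show τ (tv ρ' * (sg ρ' Q : Lv)) = tv (τ ρ') * (sg (τ ρ') Q : Lv)
      rw [map_mul, map_intCast, hT3 ρ' h', ← h3, Int.cast_mul]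
      linear_combination (tv (τ ρ') * (sg (τ ρ') Q : Lv)) * h4
    · intro ρ' h'
      rw [htow'] at h'
      have h4 := n2b_sq (Lv := Lv) ρ' Q
      show (tv ρ' * (sg ρ' Q : Lv)) ^ 2 = _
      rw [← htv2 ρ' h']
      linear_combination (tv ρ' ^ 2) * h4
  · right
    obtain ⟨X, Y, hN, hdbl, hX, -⟩ := dblE hdL hoL hρ₀ Q hQ2
    have hfix : ∀ τ : Lv ≃ₐ[Fv] Lv, τ X = X ∧ τ Y = Y := by
      intro τ
      obtain ⟨T, hT1, hT2, -⟩ := hT' τ
      have h2T : 2 • T = 0 := (twoE_iff T).1 hT1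
      have h1 : ptE (τ : Lv →+* Lv) (tau_comm F Fv Lv τ d) (2 • Q) = 2 • Q := by
        rw [JD.ptE_nsmul, hT2, nsmul_add, h2T, add_zero]
      rw [hdbl] at h1
      simp only [ptE, WeierstrassCurve.Affine.Point.some.injEq] at h1
      exact h1
    obtain ⟨x, hx⟩ := (InfiniteGalois.mem_range_algebraMap_iff_fixed (k := Fv) X).2 fun τ => (hfix τ).1
    obtain ⟨y, hy⟩ := (InfiniteGalois.mem_range_algebraMap_iff_fixed (k := Fv) Y).2 fun τ => (hfix τ).2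
    have heq : y ^ 2 = x ^ 3 + algebraMap F Fv d := by
      have h1 := (JD.ED_equation _ _ _).1 hN.1
      apply (algebraMap Fv Lv).injective
      rw [map_pow, map_add, map_pow, hx, hy, htow', h1]
    refine ⟨x, y, heq, ?_⟩
    refine n2b_fin (ρ := ι ρ₀) hoL hdF (by rw [hρ₀, htow]) (fun ρ' => tv ρ' * rr ρ' Q) _ ?_ ?_
    · intro τ ρ' h'
      rw [htow'] at h'
      obtain ⟨T, hT1, hT2, hT3⟩ := hT' τ
      have h3 : rr (τ ρ') (ptE (τ : Lv →+* Lv) (tau_comm F Fv Lv τ d) Q) = τ (rr ρ' Q) :=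
        rr_ptE (τ : Lv →+* Lv) (tau_comm F Fv Lv τ d) ρ' Q
      rw [hT2, rr_add hdL hoL (hroot τ ρ' h') Q T hT1] at h3
      have h4 := n2b_sq (Lv := Lv) (τ ρ') T
      show τ (tv ρ' * rr ρ' Q) = tv (τ ρ') * rr (τ ρ') Q
      rw [map_mul, hT3 ρ' h', ← h3]
      linear_combination (tv (τ ρ') * rr (τ ρ') Q) * h4
    · intro ρ' h'
      rw [htow'] at h'
      have h5 : ev (mp (algebraMap Fv Lv) ((x, 1, 0) : Fv × Fv × Fv)) ρ' = X + ρ' := by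
        simp only [mp, map_one, map_zero, hx]
        exact ev_pt X ρ'
      show (tv ρ' * rr ρ' Q) ^ 2 = _
      rw [mp_mu, ev_mu (by rw [htow']; exact h'), h5, ← htv2 ρ' h', hX ρ' h']
      ring

end JT
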