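import Pool.Agent.JT.N1
import Pool.Agent.JT.N2

/-!
# [JT-N3] the Tate–Shafarevich group has no elements of 2-power order

PROOF. `step2`: `kummer3`, for every `v` an embedding `ι = IsAlgClosed.lift`, `loc_of_cob`, `Sel0`, `cob_of_sq` (as `Q3D.sha_step`, Q3D/A9b.lean). `sha_pow2`: copy `Q3D.sha_core`, `Q3D.a9b_gen`, `Q3D.a9b_two_pow`, `Q3D.sha_pow` (Q3D/A9b.lean) with `ED d`, `ptE`, `JD.trE`, `JD.trE_map` (see JD/N1.lean, `n1_gen`), `two_surjE`, `twoE_iff`, `JD.Coc.sub`, `JD.LocTriv.sub`.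
-/

set_option autoImplicit false

open NumberField IsDedekindDomain
open scoped Classical

namespace JT

open JD (ED ptE Coc LocTriv)
open CUD (gal_comm alg_comm tau_comm am_ne am_o)

/-- [N3a] -/
theorem step2 {F : Type} [Field F] [NumberField F] {d o : F} (hd : d ≠ 0) (ho : o ^ 2 + o + 1 = 0) (hnc : ∀ x : F, x ^ 3 ≠ d)
    (hsel : Sel0 F d) : Step2 F d := by
  intro c hc hT hloc
  obtain ⟨u, n, t, ht, hk⟩ := kummer3 hd ho hnc c hc hT
  have hloc' : ∀ v : HeightOneSpectrum (𝓞 F),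
      LocA (algebraMap F (v.adicCompletion F) d) (mp (algebraMap F (v.adicCompletion F)) u) := by
    intro v
    let ι : AlgebraicClosure F →ₐ[F] AlgebraicClosure (v.adicCompletion F) := IsAlgClosed.lift
    obtain ⟨Q, hQ⟩ := hloc v ι
    exact loc_of_cob hd ho hT ht hk (v.adicCompletion F) (AlgebraicClosure (v.adicCompletion F)) ι Q hQ
  have hn : nm d u ≠ 0 := by
    rw [ht.nm]
    exact pow_ne_zero 2 ht.n0
  have hs : IsSquare (nm d u) := ⟨n, by rw [ht.nm, sq]⟩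
  obtain ⟨T, -, h⟩ := cob_of_sq hd ho hT ht hk (hsel u hn hs hloc')
  exact ⟨T, h⟩

theorem n3_core {F : Type} [Field F] [NumberField F] {d : F} (hd : d ≠ 0) (hstep : Step2 F d)
    (c : (AlgebraicClosure F ≃ₐ[F] AlgebraicClosure F) →
      (ED (algebraMap F (AlgebraicClosure F) d)).toAffine.Point)
    (hc : Coc F (AlgebraicClosure F) d c)
    (hloc : ∀ v : HeightOneSpectrum (𝓞 F),
      LocTriv c (v.adicCompletion F) (AlgebraicClosure (v.adicCompletion F)))
    (h2 : ∃ P : (ED (algebraMap F (AlgebraicClosure F) d)).toAffine.Point, ∀ σ,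
      2 • c σ = ptE (σ : AlgebraicClosure F →+* AlgebraicClosure F) (gal_comm σ d) P - P) :
    ∃ P : (ED (algebraMap F (AlgebraicClosure F) d)).toAffine.Point, ∀ σ,
      c σ = ptE (σ : AlgebraicClosure F →+* AlgebraicClosure F) (gal_comm σ d) P - P := by
  -- division by two
  obtain ⟨Q, hQ⟩ := h2
  obtain ⟨P, hP⟩ := two_surjE (am_ne (L := AlgebraicClosure F) hd) Q
  have hc1 := hc.sub P
  have hl1 := fun v => (hloc v).sub P
  set c1 : (AlgebraicClosure F ≃ₐ[F] AlgebraicClosure F) →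
    (ED (algebraMap F (AlgebraicClosure F) d)).toAffine.Point :=
    fun σ => c σ - (ptE (σ : AlgebraicClosure F →+* AlgebraicClosure F) (gal_comm σ d) P - P)
    with hc1def
  have hK : ∀ σ, TwoE (c1 σ) := by
    intro σ
    rw [twoE_iff, hc1def]
    simp only
    rw [nsmul_sub, hQ σ, ← hP, JD.ptE_nsmul, nsmul_sub, sub_self]
  obtain ⟨T, hT⟩ := hstep c1 hc1 hK hl1
  refine ⟨P + T, fun σ => ?_⟩
  have h6 : c σ - (ptE (σ : AlgebraicClosure F →+* AlgebraicClosure F) (gal_comm σ d) P - P) =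
      ptE (σ : AlgebraicClosure F →+* AlgebraicClosure F) (gal_comm σ d) T - T := hT σ
  have h7 : c σ =
      (ptE (σ : AlgebraicClosure F →+* AlgebraicClosure F) (gal_comm σ d) T - T) +
      (ptE (σ : AlgebraicClosure F →+* AlgebraicClosure F) (gal_comm σ d) P - P) := by
    rw [← h6]
    abel
  rw [h7, JD.ptE_add]
  abel

theorem n3_gen {F : Type} [Field F] [NumberField F] {d : F} (hd : d ≠ 0) (hstep : Step2 F d)
    (c : SBSD.AbsGal F → SBSD.Pts (ED d) (AlgebraicClosure F)) (hc : c ∈ SBSD.cocycles (ED d))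
    (hloc : ∀ v : HeightOneSpectrum (𝓞 F), SBSD.TrivialOver (ED d) (v.adicCompletion F) c)
    (h2 : ∃ P : SBSD.Pts (ED d) (AlgebraicClosure F), ∀ σ : SBSD.AbsGal F,
      2 • c σ = WeierstrassCurve.Affine.Point.map (W' := ED d) σ.toAlgHom P - P) :
    c ∈ SBSD.coboundaries (ED d) := by
  obtain ⟨hc1, hc2⟩ := hc
  let L := AlgebraicClosure F
  let ee := JD.trE d L
  have hgact : ∀ (σ : L ≃ₐ[F] L) (P : SBSD.Pts (ED d) (AlgebraicClosure F)),
      ee (WeierstrassCurve.Affine.Point.map (W' := ED d) σ.toAlgHom P) =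
        ptE (σ : L →+* L) (gal_comm σ d) (ee P) := fun σ P => JD.trE_map d L L σ.toAlgHom P
  obtain ⟨Q, hQ⟩ := h2
  obtain ⟨P, hP⟩ := n3_core hd hstep (fun σ => ee (c σ))
    ⟨hc1.comp ee, fun σ τ => by
      rw [hc2 σ τ, map_add, hgact]⟩
    (fun v ι => by
      obtain ⟨Q', hQ'⟩ := hloc v ι
      refine ⟨JD.trE d (AlgebraicClosure (v.adicCompletion F)) Q', fun τ σ hστ => ?_⟩
      have h6 := congrArg (JD.trE d (AlgebraicClosure (v.adicCompletion F))) (hQ' τ σ hστ)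
      rw [JD.trE_map, map_sub, JD.trE_map] at h6
      exact h6)
    ⟨ee Q, fun σ => by
      change 2 • ee (c σ) = ptE (σ : L →+* L) (gal_comm σ d) (ee Q) - ee Q
      rw [← map_nsmul, hQ σ, map_sub, hgact]⟩
  refine ⟨ee.symm P, fun σ => ee.injective ?_⟩
  rw [map_sub, hgact, ee.apply_symm_apply]
  exact hP σ

theorem n3_two_pow {A : Type} [AddCommGroup A] (h : ∀ x : A, 2 • x = 0 → x = 0) (k : ℕ) :
    ∀ x : A, 2 ^ k • x = 0 → x = 0 := by
  induction k with
  | zero =>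
    intro x h2
    simpa using h2
  | succ k ih =>
    intro x h2
    refine ih x (h _ ?_)
    rw [smul_smul, ← pow_succ', h2]

/-- [N3b] -/
theorem sha_pow2 {F : Type} [Field F] [NumberField F] {d o : F} (hd : d ≠ 0) (ho : o ^ 2 + o + 1 = 0) (hnc : ∀ x : F, x ^ 3 ≠ d)
    (hsel : Sel0 F d) (x : SBSD.Sha (ED d)) (k : ℕ) (h : 2 ^ k • x = 0) : x = 0 := by
  have hstep := step2 hd ho hnc hsel
  refine n3_two_pow (A := SBSD.Sha (ED d)) (fun x hx => ?_) k x h
  obtain ⟨c, rfl⟩ := QuotientAddGroup.mk_surjective x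
  obtain ⟨hc1, hc2, -⟩ := c.2
  have h2 : 2 • c ∈ (SBSD.coboundaries (ED d)).addSubgroupOf (SBSD.locTrivial (ED d)) := by
    rw [← QuotientAddGroup.eq_zero_iff]
    exact hx
  obtain ⟨P, hP⟩ := AddSubgroup.mem_addSubgroupOf.1 h2
  exact (QuotientAddGroup.eq_zero_iff _).2 (AddSubgroup.mem_addSubgroupOf.2
    (n3_gen hd hstep c.1 hc1 hc2 ⟨P, fun σ => hP σ⟩))

end JT
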