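import Pool.Agent.JT.SP2
import Pool.Agent.JT.ST2

/-!
# [JT-SQ2] minimality, Tamagawa numbers, Néron factors, L-series and period of `E_D` for `Cl2 D`

As JG/SQ.lean.
-/

set_option autoImplicit false

open NumberField IsDedekindDomain ArithmeticFunction
open scoped Classical ComplexConjugate

namespace JT

open CM27 CMT NAB CF JZ
open JD (ED ED_map jK)
open CU (la om eE t5b_lo)
open JG (approxG dvd_powG Good2 GoodL good_two good_la good_tam unit_la' unit_two' unit_p' cond_two4 sqc_ne neron_u sqc_single kap Val2 ValL PsiG psvG poly_la poly_two PsiG_norm_le sqe_mul sqe_one)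

section
variable {D : Eis} (v : HeightOneSpectrum (𝓞 KK))

omit D in
theorem eps_mod : t5b_lo v la ∣ t5b_lo v (-om ^ 2) + 1 := by
  have h : la ∣ -om ^ 2 + 1 := ⟨1 + om, by
    have h1 : om ^ 2 + om + 1 = 0 := by decide
    have h2 : la = 1 - om := by decide
    rw [h2]
    ring⟩
  have h2 := map_dvd (t5b_lo v) h
  rwa [map_add, map_one] at h2

omit v D in
theorem cube_mod2 (m : Eis) (hm : ¬ (2 : Eis) ∣ m) : (2 : Eis) ∣ m ^ 3 - 1 := by
  have key : ∀ p : ZMod 2 × ZMod 2, p ≠ 0 → JG.SNa_m p (JG.SNa_m p p) = (1, 0) := by decide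
  have h0 : JG.SNa_r m ≠ 0 := fun h => hm ((JG.SNa_r_dvd m).2 h)
  have h1 : JG.SNa_r (m * (m * m)) = (1, 0) := by
    rw [JG.SNa_r_mul, JG.SNa_r_mul]
    exact key _ h0
  rw [JG.SNa_r_dvd]
  have h2 : m ^ 3 - 1 + 1 = m * (m * m) := by ring
  have h3 : JG.SNa_r (m ^ 3 - 1) + (1, 0) = (1, 0) := by
    have h5 : JG.SNa_r (1 : Eis) = (1, 0) := by decide
    have h6 := JG.SNa_r_add (m ^ 3 - 1) 1
    rw [h5] at h6
    rw [← h6, h2, h1]
  have h4 : ∀ q : ZMod 2 × ZMod 2, q + (1, 0) = (1, 0) → q = 0 := by decide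
  exact h4 _ h3

omit D in
theorem res4 (hv : v.asIdeal = Ideal.span {eE (2 : Eis)}) (x : v.adicCompletionIntegers KK) (hx : IsUnit x) :
    (2 : v.adicCompletionIntegers KK) ∣ x ^ 3 - 1 := by
  obtain ⟨m, hm⟩ := approxG TH.b4_two_prime hv 1 x
  rw [pow_one, map_ofNat] at hm
  have hirr := CU.t5b_irr' TH.b4_two_prime hv
  rw [map_ofNat] at hirr
  have h2m : ¬ (2 : Eis) ∣ m := by
    intro h
    have h1 := map_dvd (t5b_lo v) h
    rw [map_ofNat] at h1
    have h2 := dvd_add hm h1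
    rw [sub_add_cancel] at h2
    exact hirr.not_isUnit (isUnit_of_dvd_unit h2 hx)
  have h3 := map_dvd (t5b_lo v) (cube_mod2 m h2m)
  rw [map_ofNat, map_sub, map_pow, map_one] at h3
  have h4 : x ^ 3 - 1 = (x - t5b_lo v m) * (x ^ 2 + x * t5b_lo v m + t5b_lo v m ^ 2) + (t5b_lo v m ^ 3 - 1) := by ring
  rw [h4]
  exact dvd_add (hm.mul_right _) h3

/-- [SQa] -/
theorem min_all2 (hD : Cl2 D) (h2 : v.asIdeal = Ideal.span {eE (2 : Eis)} → ¬ Good2 D)
    (h3 : v.asIdeal = Ideal.span {eE la} → ¬ GoodL D) (T : WeierstrassCurve.VariableChange (v.adicCompletion KK))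
    (hT : (T • (ED (t5b_lo v D)).map (algebraMap (v.adicCompletionIntegers KK) (v.adicCompletion KK))).IsMinimal
      (v.adicCompletionIntegers KK)) :
    (IsDiscreteValuationRing.maximalIdeal (v.adicCompletionIntegers KK)).valuation (v.adicCompletion KK)
      (T.u : v.adicCompletion KK) = 1 := by
  rcases places2 v hD with ⟨hv, k, c, hk, hc, he⟩ | ⟨hv, h3u, h2i, k, c, hk, hc, he⟩ |
    ⟨b, hb, -, hv, h6, h6u, k, c, hk, hc, he⟩
  · have hlo : t5b_lo v D = t5b_lo v la ^ k * t5b_lo v c := by rw [he, map_mul, map_pow]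
    rw [hlo] at hT
    exact unit_la' (CU.t5b_irr' CU.la_prime hv) (CU.t5b_eps v) (CU.t5b_three v) (CU.t5b_res hv) _
      (CU.t5b_unit hv _ hc) k hk ((cond_la2 v hD hv hc he).2 (h3 hv)) T hT
  · have hlo : t5b_lo v D = 2 ^ k * t5b_lo v c := by rw [he, map_mul, map_pow, map_ofNat]
    rw [hlo] at hT
    exact unit_two' h2i _ (CU.t5b_unit hv _ hc) k hk
      (fun hk4 x => cond_two4 v hv (h2 hv) hc (by rw [he, hk4]) x) T hT
  · have hlo : t5b_lo v D = t5b_lo v b ^ k * t5b_lo v c := by rw [he, map_mul, map_pow]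
    rw [hlo] at hT
    exact unit_p' h6u (t5b_lo v b) (t5b_lo v c) (CU.t5b_irr' hb hv) (CU.t5b_unit hv _ hc) k hk T hT

/-- [SQb] -/
theorem tam_all2 (hD : Cl2 D) : SBSD.tam (ED (jK D)) v ≠ 0 ∧ ¬ 2 ∣ SBSD.tam (ED (jK D)) v := by
  have hcr := CM27.card_residue KK v
  obtain ⟨-, hfin⟩ := hcr
  unfold SBSD.tam
  by_cases hg2 : v.asIdeal = Ideal.span {eE (2 : Eis)} ∧ Good2 D
  · obtain ⟨hv, s, c, hs, hDe⟩ := hg2
    obtain ⟨hJ, C, -, hC⟩ := good_two v hv hs hDe
    rw [hC, good_tam hJ C]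
    norm_num
  by_cases hgl : v.asIdeal = Ideal.span {eE la} ∧ GoodL D
  · obtain ⟨hv, η, c, hη, hDe⟩ := hgl
    obtain ⟨hJ, C, -, hC⟩ := good_la v hv hη hDe
    rw [hC, good_tam hJ C]
    norm_num
  rw [JD.bc]
  rcases places2 v hD with ⟨hv, k, c, hk, hc, he⟩ | ⟨hv, h3, h2i, k, c, hk, hc, he⟩ |
    ⟨b, hb, hp, hv, hb6, h6, k, c, hk, hc, he⟩
  · have hD' : t5b_lo v D = t5b_lo v la ^ k * t5b_lo v c := by rw [he, map_mul, map_pow]
    obtain ⟨c0, c3a⟩ := cond_la2 v hD hv hc he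
    rw [hD']
    exact tam_la2 _ _ (CU.t5b_irr' CU.la_prime hv) (CU.t5b_eps v) (eps_mod v) (CU.t5b_three v) (CU.t5b_res hv)
      _ (CU.t5b_unit hv c hc) k hk c0 (c3a fun h => hgl ⟨hv, h⟩)
  · have hD' : t5b_lo v D = 2 ^ k * t5b_lo v c := by rw [he, map_mul, map_pow, map_ofNat]
    rw [hD']
    refine tam_two2 _ _ h2i (res4 v hv) _ (CU.t5b_unit hv c hc) k hk ?_ (fun h => cond_two3 v hD hv he h)
      (fun h y => cond_two2 v hD hv hc he h y)
    intro h4
    rw [h4] at he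
    exact cond_two4 v hv (fun h => hg2 ⟨hv, h⟩) hc he
  · have hD' : t5b_lo v D = t5b_lo v b ^ k * t5b_lo v c := by rw [he, map_mul, map_pow]
    rw [hD']
    exact tam_p2 _ _ h6 _ _ (CU.t5b_irr' hb hv) (CU.t5b_unit hv c hc) k hk
      fun h => cond_p2 v hD hb hv hb6 hc he h

theorem sqc_neron2 (hD : Cl2 D) (h2 : v.asIdeal = Ideal.span {eE (2 : Eis)} → ¬ Good2 D)
    (h3 : v.asIdeal = Ideal.span {eE la} → ¬ GoodL D) : SBSD.neron (ED (jK D)) v = 1 := by
  refine PI.neron_of KK v (ED (jK D)) fun T hT => ?_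
  have h1 : (ED (jK D)).baseChange (v.adicCompletion KK) =
      (ED (t5b_lo v D)).map (algebraMap (v.adicCompletionIntegers KK) (v.adicCompletion KK)) := by
    rw [ED_map]
    exact JD.bc v D
  rw [h1] at hT
  exact min_all2 v hD h2 h3 T hT

/-- [SQc] -/
theorem neron_2 (hD : Cl2 D) : SBSD.neron (ED (jK D)) v =
    (if v.asIdeal = Ideal.span {eE (2 : Eis)} then (if Good2 D then 4 else 1) else 1) *
      (if v.asIdeal = Ideal.span {eE la} then (if GoodL D then 3 else 1) else 1) := by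
  by_cases h2 : v.asIdeal = Ideal.span {eE (2 : Eis)}
  · have h3 := sqc_ne v h2
    rw [if_pos h2, if_neg h3, mul_one]
    by_cases hG : Good2 D
    · rw [if_pos hG]
      obtain ⟨s, c, hs, hDe⟩ := hG
      obtain ⟨hJ, C, hCu, hC⟩ := good_two v h2 hs hDe
      have hi := CU.t5b_irr' TH.b4_two_prime h2
      rw [map_ofNat] at hi
      have h4 := neron_u KK v (ED (jK D)) _ hJ C 2 hi hCu hC
      rw [h4, h2, CU.absNorm_span]
      have h5 : (2 : Eis).norm.natAbs = 4 := by decide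
      rw [h5]
      norm_num
    · rw [if_neg hG]
      exact sqc_neron2 v hD (fun _ => hG) (fun h => absurd h h3)
  · rw [if_neg h2, one_mul]
    by_cases h3 : v.asIdeal = Ideal.span {eE la}
    · rw [if_pos h3]
      by_cases hG : GoodL D
      · rw [if_pos hG]
        obtain ⟨η, c, hη, hDe⟩ := hG
        obtain ⟨hJ, C, hCu, hC⟩ := good_la v h3 hη hDe
        have hi := CU.t5b_irr' CU.la_prime h3
        have h4 := neron_u KK v (ED (jK D)) _ hJ C _ hi hCu hC
        rw [h4, h3, CU.absNorm_span]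
        have h5 : la.norm.natAbs = 3 := by decide
        rw [h5]
        norm_num
      · rw [if_neg hG]
        exact sqc_neron2 v hD (fun h => absurd h h2) (fun _ => hG)
    · rw [if_neg h3]
      exact sqc_neron2 v hD (fun h => absurd h h2) (fun h => absurd h h3)

end

/-- [SQb] -/
theorem finprod_tam2 {D : Eis} (hD : Cl2 D) : ∃ c : ℕ, c ≠ 0 ∧ ¬ 2 ∣ c ∧
    ∏ᶠ v : HeightOneSpectrum (𝓞 KK), SBSD.tam (ED (jK D)) v = c := by
  have h := finprod_induction (f := fun v : HeightOneSpectrum (𝓞 KK) => SBSD.tam (ED (jK D)) v)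
    (fun c : ℕ => c ≠ 0 ∧ ¬ 2 ∣ c) (by norm_num)
    (fun x y hx hy => ⟨mul_ne_zero hx.1 hy.1, fun h =>
      ((Nat.Prime.dvd_mul Nat.prime_two).1 h).elim hx.2 hy.2⟩)
    (fun v => tam_all2 v hD)
  exact ⟨_, h.1, h.2, rfl⟩

/-- [SQc] -/
theorem finprod_neron2 {D : Eis} (hD : Cl2 D) :
    ∏ᶠ v : HeightOneSpectrum (𝓞 KK), SBSD.neron (ED (jK D)) v = kap D := by
  obtain ⟨h1, h2⟩ := sqc_single (2 : Eis) TH.b4_two_prime (if Good2 D then 4 else 1)
  obtain ⟨h3, h4⟩ := sqc_single la CU.la_prime (if GoodL D then 3 else 1)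
  have h5 : (fun v : HeightOneSpectrum (𝓞 KK) => SBSD.neron (ED (jK D)) v) = fun v =>
      (if v.asIdeal = Ideal.span {eE (2 : Eis)} then (if Good2 D then 4 else 1) else 1) *
      (if v.asIdeal = Ideal.span {eE la} then (if GoodL D then 3 else 1) else 1) := by
    funext v
    exact neron_2 v hD
  rw [h5, finprod_mul_distrib h2 h4, h1, h3]
  unfold kap
  push_cast
  rfl

/-- [SQc] -/
theorem period_2 {D : Eis} (hD : Cl2 D) (h0 : D ≠ 0) :
    SBSD.period (ED (jK D)) = √3 * Om ^ 2 / ‖emb (4 * D)‖ ^ ((1 : ℝ) / 3) * kap D := by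
  have h1 : ∀ v : InfinitePlace KK,
      SBSD.archPeriod (ED (jK D)) v = √3 * Om ^ 2 / ‖emb (4 * D)‖ ^ ((1 : ℝ) / 3) := by
    intro v
    have hne2 : v.embedding (jK D) ≠ 0 := by
      rw [JD.jK_apply, ← norm_ne_zero_iff, CU.norm_embedding_KK, norm_ne_zero_iff, ← map_zero emb]
      exact fun h => h0 (emb_injective h)
    have h5 : ‖4 * v.embedding (jK D)‖ = ‖emb (4 * D)‖ := by
      rw [norm_mul, JD.jK_apply, CU.norm_embedding_KK, map_mul, norm_mul]
      congr 1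
      have h6 : emb (4 : Eis) = 4 := map_ofNat emb 4
      rw [h6]
    unfold SBSD.archPeriod
    rw [dif_neg (CU.not_isReal_KK v), ED_map, JD.complexArea_ED _ hne2, h5]
    ring
  unfold SBSD.period
  rw [finprod_neron2 hD]
  simp only [h1]
  rw [Finset.prod_const, Finset.card_univ, CU.card_place_KK, pow_one]

theorem sqd_key2 {D p₂ pl : Eis} (v : HeightOneSpectrum (𝓞 KK)) (hD : Cl2 D) (h1 : ¬ IsUnit (6 * t5b_lo v D))
    (h2 : v.asIdeal = Ideal.span {eE (2 : Eis)} → ¬ Good2 D) (h3 : v.asIdeal = Ideal.span {eE la} → ¬ GoodL D)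
    (h4 : psvG D p₂ pl v = 0) :
    ∃ a b : ℤ, (ED (algebraMap (v.adicCompletionIntegers KK) (v.adicCompletion KK) (t5b_lo v D))).localPolynomial
        (v.adicCompletionIntegers KK) = 1 - Polynomial.C a * Polynomial.X + Polynomial.C b * Polynomial.X ^ 2 ∧
      (a : ℂ) = emb (psvG D p₂ pl v) + conj (emb (psvG D p₂ pl v)) ∧
      (b : ℂ) = emb (psvG D p₂ pl v) * conj (emb (psvG D p₂ pl v)) := by
  refine ⟨0, 0, ?_, ?_, ?_⟩
  · rw [JD.localPoly_bad _ _ _ h1 (fun T hT => min_all2 v hD h2 h3 T hT)]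
    simp
  · rw [h4]
    simp
  · rw [h4]
    simp

/-- [SQd] -/
theorem LCW_2 {D p₂ pl : Eis} (hD : Cl2 D) (h2 : Val2 D p₂) (h3 : ValL D pl) :
    LCW KK (ED (jK D)) = IL KK (fun I => emb (PsiG D p₂ pl I)) * IL KK (fun I => conj (emb (PsiG D p₂ pl I))) := by
  have hone : PsiG D p₂ pl 1 = 1 := NAB.cm_one _
  have hmul : ∀ I J : Ideal (𝓞 KK), PsiG D p₂ pl (I * J) = PsiG D p₂ pl I * PsiG D p₂ pl J := fun I J => NAB.cm_mul _ I J
  refine LCW_eq_IL KK _ (fun I => emb (PsiG D p₂ pl I)) (fun I => conj (emb (PsiG D p₂ pl I)))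
    (by simp only [hone, map_one]) (by simp only [hone, map_one])
    (fun I J => by simp only [hmul, map_mul]) (fun I J => by simp only [hmul, map_mul]) ?_
  intro v
  rw [JD.bc]
  have hpr : PsiG D p₂ pl v.asIdeal = psvG D p₂ pl v := NAB.cm_prime _ v
  rw [hpr]
  have hne : ¬ (Ideal.span {eE la} = Ideal.span {eE (2 : Eis)}) := by
    intro h
    have h5 : eE la ∈ Ideal.span {eE (2 : Eis)} := h ▸ Ideal.mem_span_singleton_self _
    have h6 : eE (2 : Eis) ∣ eE la := Ideal.mem_span_singleton.1 h5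
    have h7 : (2 : Eis) ∣ la := (map_dvd_iff eE).1 h6
    have h8 : (2 : Eis) ∣ 3 := by
      have h9 := CU.three_eq
      rw [h9]
      exact (h7.trans (dvd_pow_self la two_ne_zero)).mul_left _
    have h10 : (2 : Eis) ∣ 1 := by
      have h11 : (1 : Eis) = 3 - 2 := by norm_num
      rw [h11]
      exact dvd_sub h8 dvd_rfl
    exact TH.b4_two_prime.not_isUnit (isUnit_of_dvd_one h10)
  rcases places2 v hD with ⟨hv, k, c, hk, hc, he⟩ | ⟨hv, h3u, h2i, k, c, hk, hc, he⟩ |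
    ⟨b, hb, hp, hv, h6, h6u, k, c, hk, hc, he⟩
  · have hv2 : ¬ v.asIdeal = Ideal.span {eE (2 : Eis)} := fun h => hne (hv.symm.trans h)
    have e1 : psvG D p₂ pl v = pl := (if_neg hv2).trans (if_pos hv)
    rcases h3 with ⟨hn, h0⟩ | ⟨η, c', n, hη, hD', hn, hcn, hp1, hp2⟩
    · refine sqd_key2 v hD ?_ (fun h => absurd h hv2) (fun _ => hn) (e1.trans h0)
      intro h
      have h1 : (6 : v.adicCompletionIntegers KK) * t5b_lo v D =
          t5b_lo v la * (2 * t5b_lo v (-om ^ 2) * t5b_lo v la * t5b_lo v D) := by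
        have h3 := CU.t5b_three v
        linear_combination (2 * t5b_lo v D) * h3
      rw [h1] at h
      exact (CU.t5b_irr' CU.la_prime hv).not_isUnit (isUnit_of_mul_isUnit_left h)
    · rw [e1]
      exact poly_la v hv hη hD' hn hcn hp1 hp2
  · have e1 : psvG D p₂ pl v = p₂ := if_pos hv
    rcases h2 with ⟨hn, h0⟩ | ⟨s, c', e, ζ, hs, hD', hp1, he1, he2, hz, hz'⟩
    · refine sqd_key2 v hD ?_ (fun _ => hn) (fun h => absurd (h.symm.trans hv) hne) (e1.trans h0)
      intro h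
      have h1 : (6 : v.adicCompletionIntegers KK) * t5b_lo v D = 2 * (3 * t5b_lo v D) := by ring
      rw [h1] at h
      exact h2i.not_isUnit (isUnit_of_mul_isUnit_left h)
    · rw [e1, hp1]
      exact poly_two v hv hs hD' he1 he2 hz hz'
  · have hvl : ¬ v.asIdeal = Ideal.span {eE la} := by
      intro h
      have h5 : eE b ∣ eE la := Ideal.mem_span_singleton.1 (by rw [← hv, h]; exact Ideal.mem_span_singleton_self _)
      have h7 : b ∣ la := (map_dvd_iff eE).1 h5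
      refine h6 (h7.trans ?_)
      have h8 : (6 : Eis) = 2 * 3 := by norm_num
      rw [h8, CU.three_eq]
      exact ((dvd_pow_self la two_ne_zero).mul_left _).mul_left _
    have hv2 : ¬ v.asIdeal = Ideal.span {eE (2 : Eis)} := by
      intro h
      have h5 : eE b ∣ eE 2 := Ideal.mem_span_singleton.1 (by rw [← hv, h]; exact Ideal.mem_span_singleton_self _)
      have h7 : b ∣ 2 := (map_dvd_iff eE).1 h5
      exact h6 (h7.trans ⟨3, by norm_num⟩)
    have e1 : psvG D p₂ pl v = JD.psv6 (eE D) v := (if_neg hv2).trans (if_neg hvl)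
    by_cases hk0 : k = 0
    · have hbD : ¬ b ∣ 2 * D := by
        intro h
        rcases hb.dvd_or_dvd h with h | h
        · exact h6 (h.trans ⟨3, by norm_num⟩)
        · rw [he, hk0, pow_zero, one_mul] at h
          exact hc h
      have hu : IsUnit (6 * t5b_lo v D) :=
        h6u.mul (CU.t5b_unit hv _ (fun h => hbD (h.mul_left _)))
      rw [e1, ← JD.Psi6_prime]
      exact JD.s6b_good v hb hp hv hbD hu
    · have hbD : b ∣ D := by
        rw [he]
        exact (dvd_pow_self b hk0).mul_right _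
      refine sqd_key2 v hD ?_ (fun h => absurd h hv2) (fun h => absurd h hvl) ?_
      · intro h
        obtain ⟨x, hx⟩ := hbD
        rw [hx, map_mul] at h
        exact (CU.t5b_irr' hb hv).not_isUnit (isUnit_of_mul_isUnit_left (isUnit_of_mul_isUnit_right h))
      · rw [e1]
        refine JD.psv6_zero _ (Or.inr ?_)
        rw [hv]
        exact Ideal.mem_span_singleton.2 (map_dvd eE hbD)

/-- [SQe] -/
theorem entire_2 {D p₂ pl : Eis} (hD : Cl2 D) (h2 : Val2 D p₂) (h3 : ValL D pl) (Φ : ℂ → ℂ) (hΦ : Differentiable ℂ Φ)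
    (hs : ∀ s : ℂ, 3 / 2 < s.re → Φ s = LSeries (fun n => IL KK (fun I => conj (emb (PsiG D p₂ pl I))) n) s) :
    SBSD2.IsEntireLSeries (ED (jK D)) (fun s => Φ s * conj (Φ (conj s))) := by
  obtain ⟨g, hg⟩ : ∃ g : Ideal (𝓞 KK) → ℂ, g = fun I => emb (PsiG D p₂ pl I) := ⟨_, rfl⟩
  have hlam : ∀ I : Ideal (𝓞 KK), I ≠ 0 → ‖g I‖ ^ 2 ≤ Ideal.absNorm I := by
    intro I hI
    rw [hg]
    exact PsiG_norm_le h2 h3 I hI
  have hlam' : ∀ I : Ideal (𝓞 KK), I ≠ 0 → ‖conj (g I)‖ ^ 2 ≤ Ideal.absNorm I := by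
    intro I hI
    rw [Complex.norm_conj]
    exact hlam I hI
  have hs' : ∀ s : ℂ, 3 / 2 < s.re →
      Φ s = LSeries (fun n => IL KK (fun I => conj (g I)) n) s := by
    intro s h5
    rw [hg]
    exact hs s h5
  have cc : Differentiable ℂ (fun s => conj (Φ (conj s))) :=
    fun s => differentiableAt_conj_conj_iff.2 (hΦ (conj s))
  have hLf : (fun k => ((ED (jK D)).LFunction k : ℂ)) =
      fun k => (IL KK g * IL KK (fun I => conj (g I))) k := by
    have h6 := LCW_2 hD h2 h3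
    rw [hg, ← h6]
    rfl
  refine ⟨hΦ.mul cc, ?_⟩
  intro s h5
  have t1 := LSeriesSummable_IL KK _ hlam s h5
  have t2 := LSeriesSummable_IL KK _ hlam' s h5
  have t3 : (ED (jK D)).LSeries s =
      LSeries (fun k => ((ED (jK D)).LFunction k : ℂ)) s := rfl
  rw [t3, hLf]
  refine ⟨ArithmeticFunction.LSeriesSummable_mul t1 t2, ?_⟩
  change Φ s * conj (Φ (conj s)) = _
  rw [ArithmeticFunction.LSeries_mul' t1 t2, hs' s h5, hs' (conj s) (by
    rw [Complex.conj_re]; exact h5), NAB.LSeries_conj, NAB.LSeries_conj, Complex.conj_conj, Complex.conj_conj,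
    mul_comm]

end JT
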