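import Pool.Agent.JT.X1
import Pool.Agent.CUE.A4

/-!
# [JT-X2] if `E_d(F)` is finite and the Tate–Shafarevich group has no element of order 2 then `Sel0`

PROOF. `cob_of_sha2`: as `JD.cob_of_sha` (JD/E10.lean) or EQV/H6: `c' = (trE d _).symm ∘ c` is in `SBSD.cocycles (ED d)` and locally trivial: at the finite places by `hloc` (`JD.trE_map`), at the infinite places `v`: the completion is `ℂ` (`CUD.isComplex_of_o ho v`), every element of `v.Completion` is a square and has a cube root: `LocA` holds (first alternative: all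
triples of nonzero norm are squares: `interp'` with a square root of `ev u ρ'`) so `LocTriv` by `cz_loc` (see `JD.e10a_inf`). `2 • c = 0` (`twoE_iff`), so the class is `0` in `Sha` by `hsha`.
`sq_of_cob`: `c σ = σ P - P`. `2 P` is fixed by all `σ` (`2 c σ = 0`), so `2 P = ptE Q₀`, `Q₀ ∈ E_d(K)` (coordinates fixed). `E_d(K)` is finite without elements of order 2 (`y = 0` gives `(-x)³ = d`), so doubling is injective, hence surjective on it: `Q₀ = 2 Q₁`. `T = P - ptE Q₁` is killed by 2 and `c σ = σ T - T`. `G ρ = t ρ * sg ρ T`: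
`σ (G ρ) = sg (σ ρ) (c σ) t (σ ρ) sg (σ ρ) (σ T)`, `sg (σ ρ) (σ T) = sg (σ ρ) (c σ + T) = sg (σ ρ) (c σ) sg (σ ρ) T`; so `σ (G ρ) = G (σ ρ)`. `interp_gal`: `g` over `K` with `ev (mp g) ρ = G ρ`, `(G ρ)² = t ρ ^ 2 = ev (mp u) ρ`, so `u = g²` (`ev_inj'`, `mp_inj`).
`sel0_of_fin`: `nm d u = n²`, `exists_t`, `exists_cz`, `cz_loc`, `cob_of_sha2`, `sq_of_cob`.
-/

set_option autoImplicit false

open NumberField IsDedekindDomain
open scoped Classical

namespace JT

open JD (ED ptE Coc LocTriv)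
open CUD (gal_comm alg_comm tau_comm am_ne am_o)

theorem x2a_triv {K : Type} [Field K] [CharZero K] {d : K}
    {c : (AlgebraicClosure K ≃ₐ[K] AlgebraicClosure K) → (ED (algebraMap K (AlgebraicClosure K) d)).toAffine.Point}
    (L : Type) [Field L] [Algebra K L] (h : LocTriv c L (AlgebraicClosure L)) :
    SBSD.TrivialOver (ED d) L (fun σ => (JD.trE d (AlgebraicClosure K)).symm (c σ)) := by
  intro j
  obtain ⟨Q₀, hQ₀⟩ := h j
  refine ⟨(JD.trE d (AlgebraicClosure L)).symm Q₀, fun σ τ hστ => ?_⟩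
  apply (JD.trE d (AlgebraicClosure L)).injective
  rw [map_sub, JD.trE_map d _ _ j, JD.trE_map d _ _ (σ.toAlgHom.restrictScalars K), AddEquiv.apply_symm_apply,
    AddEquiv.apply_symm_apply]
  exact hQ₀ σ τ hστ

/-- over an algebraically closed field every triple of nonzero norm is a square -/
theorem x2a_sq {C : Type} [Field C] [CharZero C] [IsAlgClosed C] {d o : C} (hd : d ≠ 0) (ho : o ^ 2 + o + 1 = 0)
    (u : C × C × C) : SqA d u := by
  obtain ⟨ρ, hρ⟩ := IsAlgClosed.exists_pow_nat_eq d (n := 3) (by norm_num)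
  have hs : ∀ z : C, ∃ y : C, y ^ 2 = z := fun z => IsAlgClosed.exists_pow_nat_eq z (by norm_num)
  choose r hr using hs
  obtain ⟨g, hg⟩ := interp' ho three_ne_zero hd hρ (fun ρ' => r (ev u ρ'))
  refine ⟨g, ev_inj' ho three_ne_zero hd hρ fun ρ' h' => ?_⟩
  rw [ev_mu h', hg ρ' h', ← sq, hr]

/-- [X2a] -/
theorem cob_of_sha2 {F : Type} [Field F] [NumberField F] {d o : F} (hd : d ≠ 0) (ho : o ^ 2 + o + 1 = 0)
    (hsha : ∀ x : SBSD.Sha (ED d), 2 • x = 0 → x = 0)
    {c : (AlgebraicClosure F ≃ₐ[F] AlgebraicClosure F) → (ED (algebraMap F (AlgebraicClosure F) d)).toAffine.Point}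
    (hT : ∀ σ, TwoE (c σ)) (hc : Coc F (AlgebraicClosure F) d c)
    {u : F × F × F} {n : F} {t : AlgebraicClosure F → AlgebraicClosure F} (ht : TD d u n t) (hk : Ksg t c)
    (hloc : ∀ v : HeightOneSpectrum (𝓞 F), LocTriv c (v.adicCompletion F) (AlgebraicClosure (v.adicCompletion F))) :
    ∃ P : (ED (algebraMap F (AlgebraicClosure F) d)).toAffine.Point,
      ∀ σ, c σ = ptE (σ : AlgebraicClosure F →+* AlgebraicClosure F) (gal_comm σ d) P - P := by
  let cz : SBSD.AbsGal F → SBSD.Pts (ED d) (AlgebraicClosure F) :=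
    fun σ => (JD.trE d (AlgebraicClosure F)).symm (c σ)
  have hmem : cz ∈ SBSD.cocycles (ED d) := by
    refine ⟨hc.loc.comp (JD.trE d (AlgebraicClosure F)).symm, fun σ τ => ?_⟩
    apply (JD.trE d (AlgebraicClosure F)).injective
    have hgact := JD.trE_map d (AlgebraicClosure F) (AlgebraicClosure F) σ.toAlgHom (cz τ)
    rw [map_add, hgact]
    show (JD.trE d (AlgebraicClosure F)) ((JD.trE d (AlgebraicClosure F)).symm (c (σ * τ))) =
      (JD.trE d (AlgebraicClosure F)) ((JD.trE d (AlgebraicClosure F)).symm (c σ)) +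
      ptE _ _ ((JD.trE d (AlgebraicClosure F)) ((JD.trE d (AlgebraicClosure F)).symm (c τ)))
    rw [AddEquiv.apply_symm_apply, AddEquiv.apply_symm_apply, AddEquiv.apply_symm_apply]
    exact hc.crossed σ τ
  have hcz : cz ∈ SBSD.locTrivial (ED d) := by
    refine ⟨hmem, fun v => x2a_triv _ (hloc v), fun v => x2a_triv _ ?_⟩
    have hv := CUD.isComplex_of_o ho v
    have hC : IsAlgClosed v.Completion :=
      IsAlgClosed.of_ringEquiv ℂ v.Completion (InfinitePlace.Completion.ringEquivComplexOfIsComplex hv).symm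
    have hz : CharZero v.Completion := charZero_of_injective_algebraMap (algebraMap F v.Completion).injective
    exact cz_loc hd ho hT ht hk _ _ (Or.inl (x2a_sq (am_ne hd) (am_o ho) _))
  let x : SBSD.Sha (ED d) := QuotientAddGroup.mk ⟨cz, hcz⟩
  have hCF : CharZero (AlgebraicClosure F) :=
    charZero_of_injective_algebraMap (algebraMap F (AlgebraicClosure F)).injective
  have h2 : 2 • x = 0 := by
    have h3 : 2 • (⟨cz, hcz⟩ : SBSD.locTrivial (ED d)) = 0 := by
      apply Subtype.ext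
      funext σ
      change 2 • (JD.trE d (AlgebraicClosure F)).symm (c σ) = 0
      rw [← map_nsmul, (twoE_iff _).1 (hT σ), map_zero]
    change QuotientAddGroup.mk (2 • (⟨cz, hcz⟩ : SBSD.locTrivial (ED d))) = _
    rw [h3]
    rfl
  have h5 := (QuotientAddGroup.eq_zero_iff _).1 (hsha x h2)
  obtain ⟨P, hP⟩ := AddSubgroup.mem_addSubgroupOf.1 h5
  refine ⟨JD.trE d (AlgebraicClosure F) P, fun σ => ?_⟩
  have h6 := congrArg (JD.trE d (AlgebraicClosure F)) (hP σ)
  change JD.trE d (AlgebraicClosure F) ((JD.trE d (AlgebraicClosure F)).symm (c σ)) = _ at h6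
  rw [AddEquiv.apply_symm_apply, map_sub, JD.trE_map d _ _ σ.toAlgHom P] at h6
  exact h6

theorem x2b_sq {K : Type} [Field K] {d : K} {Lv : Type} [Field Lv] (ρ : K) (T : (ED d).toAffine.Point) :
    ((sg ρ T : ℤ) : Lv) * ((sg ρ T : ℤ) : Lv) = 1 := by
  rcases sg_pm ρ T with h | h <;> rw [h] <;> norm_num

theorem x2b_fin {Fv Lv : Type} [Field Fv] [CharZero Fv] [Field Lv] [Algebra Fv Lv] [IsGalois Fv Lv] {dv : Fv} {ov ρ : Lv}
    (ho : ov ^ 2 + ov + 1 = 0) (hd : dv ≠ 0) (hρ : ρ ^ 3 = algebraMap Fv Lv dv) (G : Lv → Lv) (uv : Fv × Fv × Fv)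
    (hG : ∀ (τ : Lv ≃ₐ[Fv] Lv) (ρ' : Lv), ρ' ^ 3 = algebraMap Fv Lv dv → τ (G ρ') = G (τ ρ'))
    (hG2 : ∀ ρ' : Lv, ρ' ^ 3 = algebraMap Fv Lv dv → G ρ' ^ 2 = ev (mp (algebraMap Fv Lv) uv) ρ') : SqA dv uv := by
  have : CharZero Lv := charZero_of_injective_algebraMap (algebraMap Fv Lv).injective
  obtain ⟨g, hg⟩ := interp_gal ho hd hρ G hG
  refine ⟨g, mp_inj (algebraMap Fv Lv) ?_⟩
  refine ev_inj' ho three_ne_zero ((map_ne_zero _).2 hd) hρ fun ρ' h' => ?_
  rw [mp_mu, ev_mu h', hg ρ' h', ← hG2 ρ' h', sq]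

/-- doubling is surjective on the finite group `E_d(K)` -/
theorem x2b_surj {K : Type} [Field K] [CharZero K] {d : K} (hnc : ∀ x : K, x ^ 3 ≠ d)
    (hfin : Finite (ED d).toAffine.Point) (P : (ED d).toAffine.Point) : ∃ Q : (ED d).toAffine.Point, 2 • Q = P := by
  have h0 : ∀ P : (ED d).toAffine.Point, 2 • P = 0 → P = 0 := by
    intro P h2
    have h3 := (twoE_iff P).2 h2
    cases P with
    | zero => rfl
    | some x y hxy =>
      exfalso
      have hy : y = 0 := h3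
      subst hy
      have heq : (0 : K) ^ 2 = x ^ 3 + d := (JD.ED_equation d x 0).1 hxy.1
      exact hnc (-x) (by linear_combination heq)
  have hinj : Function.Injective (fun P : (ED d).toAffine.Point => 2 • P) := by
    intro P Q hPQ
    have h2 : 2 • (P - Q) = 0 := by
      rw [nsmul_sub]
      exact sub_eq_zero.2 hPQ
    exact sub_eq_zero.1 (h0 _ h2)
  exact (Finite.injective_iff_surjective.1 hinj) P

/-- a point fixed by the Galois group is rational -/
theorem x2b_desc {K L : Type} [Field K] [CharZero K] [Field L] [Algebra K L] [IsGalois K L] {d : K} (hd : d ≠ 0)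
    (P : (ED (algebraMap K L d)).toAffine.Point) (h : ∀ σ : L ≃ₐ[K] L, ptE (σ : L →+* L) (gal_comm σ d) P = P) :
    ∃ Q : (ED d).toAffine.Point, ptE (algebraMap K L) rfl Q = P := by
  cases P with
  | zero => exact ⟨0, rfl⟩
  | some X Y hXY =>
    have h1 : ∀ σ : L ≃ₐ[K] L, σ X = X ∧ σ Y = Y := by
      intro σ
      have h2 := h σ
      simp only [ptE, WeierstrassCurve.Affine.Point.some.injEq] at h2
      exact h2
    obtain ⟨x, hx⟩ := (InfiniteGalois.mem_range_algebraMap_iff_fixed (k := K) X).2 fun τ => (h1 τ).1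
    obtain ⟨y, hy⟩ := (InfiniteGalois.mem_range_algebraMap_iff_fixed (k := K) Y).2 fun τ => (h1 τ).2
    have heq : y ^ 2 = x ^ 3 + d := by
      have h1 := (JD.ED_equation _ _ _).1 hXY.1
      apply (algebraMap K L).injective
      rw [map_pow, map_add, map_pow, hx, hy, h1]
    refine ⟨.some x y ((JD.ED_nonsingular two_ne_zero three_ne_zero hd _ _).2 heq), ?_⟩
    simp only [ptE, WeierstrassCurve.Affine.Point.some.injEq]
    exact ⟨hx, hy⟩

/-- [X2b] -/
theorem sq_of_cob {K L : Type} [Field K] [CharZero K] [Field L] [Algebra K L] [IsAlgClosure K L] {d o : K} (hd : d ≠ 0)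
    (ho : o ^ 2 + o + 1 = 0) (hnc : ∀ x : K, x ^ 3 ≠ d) (hfin : Finite (ED d).toAffine.Point)
    {c : (L ≃ₐ[K] L) → (ED (algebraMap K L d)).toAffine.Point} (hT : ∀ σ, TwoE (c σ))
    {u : K × K × K} {n : K} {t : L → L} (ht : TD d u n t) (hk : Ksg t c)
    {P : (ED (algebraMap K L d)).toAffine.Point} (hP : ∀ σ, c σ = ptE (σ : L →+* L) (gal_comm σ d) P - P) : SqA d u := by
  have : CharZero L := charZero_of_injective_algebraMap (algebraMap K L).injective
  have : IsAlgClosed L := IsAlgClosure.isAlgClosed K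
  have : Algebra.IsAlgebraic K L := IsAlgClosure.isAlgebraic
  have : Normal K L := IsAlgClosure.normal K L
  have : IsGalois K L := ⟨⟩
  obtain ⟨ρ₀, h₀⟩ := IsAlgClosed.exists_pow_nat_eq (algebraMap K L d) (n := 3) (by norm_num)
  have hdL : algebraMap K L d ≠ 0 := am_ne hd
  have hoL : algebraMap K L o ^ 2 + algebraMap K L o + 1 = 0 := am_o ho
  have hfix : ∀ σ : L ≃ₐ[K] L, ptE (σ : L →+* L) (gal_comm σ d) (2 • P) = 2 • P := by
    intro σ
    have h1 := (twoE_iff _).1 (hT σ)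
    rw [hP σ, nsmul_sub, sub_eq_zero] at h1
    rw [JD.ptE_nsmul, h1]
  obtain ⟨Q₀, hQ₀⟩ := x2b_desc hd (2 • P) hfix
  obtain ⟨Q₁, hQ₁⟩ := x2b_surj hnc hfin Q₀
  set T := P - ptE (algebraMap K L) rfl Q₁ with hTdef
  have hT2 : TwoE T := by
    rw [twoE_iff, hTdef, nsmul_sub, ← JD.ptE_nsmul, hQ₁, hQ₀, sub_self]
  have hcT : ∀ σ : L ≃ₐ[K] L, ptE (σ : L →+* L) (gal_comm σ d) T = c σ + T := by
    intro σ
    have h4 : ptE (σ : L →+* L) (gal_comm σ d) (ptE (algebraMap K L) rfl Q₁) = ptE (algebraMap K L) rfl Q₁ := by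
      rw [JD.ptE_comp]
      refine JD.ptE_congr ?_ _ _ Q₁
      ext z
      exact σ.commutes z
    rw [hTdef, JD.ptE_sub, h4, hP σ]
    abel
  refine x2b_fin hoL hd h₀ (fun ρ => t ρ * (sg ρ T : L)) u ?_ ?_
  · intro σ ρ hρ
    have hσρ : (σ ρ) ^ 3 = algebraMap K L d := by rw [← map_pow, hρ, σ.commutes]
    have h3 : sg (σ ρ) (ptE (σ : L →+* L) (gal_comm σ d) T) = sg ρ T := sg_ptE (σ : L →+* L) (gal_comm σ d) ρ T
    rw [hcT σ, sg_add hdL hoL hσρ _ _ (hT σ) hT2] at h3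
    have h4 := x2b_sq (Lv := L) (σ ρ) (c σ)
    show σ (t ρ * (sg ρ T : L)) = t (σ ρ) * (sg (σ ρ) T : L)
    rw [map_mul, map_intCast, hk σ ρ hρ, ← h3, Int.cast_mul]
    linear_combination (t (σ ρ) * (sg (σ ρ) T : L)) * h4
  · intro ρ hρ
    have h4 := x2b_sq (Lv := L) ρ T
    show (t ρ * (sg ρ T : L)) ^ 2 = _
    rw [← ht.sq ρ hρ]
    linear_combination (t ρ ^ 2) * h4

/-- [X2c] -/
theorem sel0_of_fin {F : Type} [Field F] [NumberField F] {d o : F} (hd : d ≠ 0) (ho : o ^ 2 + o + 1 = 0)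
    (hnc : ∀ x : F, x ^ 3 ≠ d) (hfin : Finite (ED d).toAffine.Point) (hsha : ∀ x : SBSD.Sha (ED d), 2 • x = 0 → x = 0) :
    Sel0 F d := by
  intro u hu hs hloc
  obtain ⟨n, hn⟩ := hs
  have hn0 : n ≠ 0 := by
    rintro rfl
    exact hu (by rw [hn, mul_zero])
  obtain ⟨t, ht⟩ := exists_t (L := AlgebraicClosure F) hd ho hn0 (by rw [hn, sq])
  obtain ⟨c, hT, hc, hk⟩ := exists_cz hd ho ht
  obtain ⟨P, hP⟩ := cob_of_sha2 hd ho hsha hT hc ht hk fun v =>
    cz_loc hd ho hT ht hk _ _ (hloc v)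
  exact sq_of_cob hd ho hnc hfin hT ht hk hP

end JT
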