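import Pool.Agent.JT.T2
import Pool.Agent.JT.SQ2
import Pool.Agent.JT.M1
import Pool.Agent.JT.N3
import Pool.Agent.JT.X2
import Pool.Agent.JXD.T4
import Pool.Agent.EQV.Defs

/-!
# [JT-ZT] the conjecture of Birch and Swinnerton-Dyer modulo `2` for the curves `y² = x³ + D` over `ℚ(ω)` with odd Tamagawa numbers and without rational point of order `2`, given the central values
-/

set_option autoImplicit false

open NumberField IsDedekindDomain
open scoped Classical ComplexConjugate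

namespace JT

open CM27 NAB CF JZ
open JD (ED jK jK_inj z1_elliptic quot exists_o tcard tcard_eq bsd_eq)
open CU (la om eE)
open JG (kap)

theorem kap_pos (D : Eis) : 0 < kap D := by
  unfold kap
  split_ifs <;> norm_num

/-- The quotient of the conjecture. -/
theorem quot2 {D : Eis} (hD : Cl2 D) : ∃ c : ℕ, c ≠ 0 ∧ ¬ 2 ∣ c ∧ ∀ (a : ℂ) (q : ℚ),
    a = (((q : ℝ) * kap D / ‖emb (4 * D)‖ ^ ((1 : ℝ) / 3) : ℝ) : ℂ) * (Om : ℂ) ^ 2 →
    ∀ t : ℕ, quot D a t = ((q * (t : ℚ) ^ 2 / (c : ℚ) : ℚ) : ℂ) := by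
  obtain ⟨c, hc, hc3, htam⟩ := finprod_tam2 hD
  have hD0 : D ≠ 0 := cl2_ne hD
  refine ⟨c, hc, hc3, ?_⟩
  intro a q ha t
  have := CM27.eis_isDomain
  have hX0 : (0 : ℝ) < ‖emb (4 * D)‖ :=
    norm_pos_iff.2 ((map_ne_zero_iff emb emb_injective).2 (mul_ne_zero (by decide) hD0))
  have hOm0 : (0 : ℝ) < Om := Om_pos
  have hs3 : (0 : ℝ) < √3 := by positivity
  have hY0 : (0 : ℝ) < ‖emb (4 * D)‖ ^ ((1 : ℝ) / 3) := Real.rpow_pos_of_pos hX0 _
  rw [quot, period_2 hD hD0, htam, CU.abs_discr_KK, ha]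
  generalize ‖emb (4 * D)‖ ^ ((1 : ℝ) / 3) = Y at *
  have hc0 : (c : ℝ) ≠ 0 := by exact_mod_cast hc
  have hk0 : (kap D : ℝ) ≠ 0 := by exact_mod_cast (kap_pos D).ne'
  have key : (q : ℝ) * kap D / Y * Om ^ 2 * √3 * (t : ℝ) ^ 2 / (√3 * Om ^ 2 / Y * kap D * (c : ℝ)) =
      (q : ℝ) * (t : ℝ) ^ 2 / c := by
    field_simp
  have key2 := congrArg (fun x : ℝ => (x : ℂ)) key
  simp only [Complex.ofReal_mul, Complex.ofReal_div, Complex.ofReal_pow, Complex.ofReal_natCast,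
    Complex.ofReal_ratCast] at key2
  push_cast
  exact key2

theorem ncK {D : Eis} (hD : Cl2 D) (x : KK) : x ^ 3 ≠ jK D := not_cube hD.ncube x

theorem jK_ne {D : Eis} (hD : Cl2 D) : jK D ≠ 0 := fun h => cl2_ne hD (jK_inj (h.trans (map_zero jK).symm))

/-- The descent. -/
theorem descent2 {D : Eis} (hD : Cl2 D) (h : UC2 D) :
    Finite (ED (jK D)).toAffine.Point ∧ ¬ 2 ∣ Nat.card (ED (jK D)).toAffine.Point ∧
      ∀ (x : SBSD.Sha (ED (jK D))) (k : ℕ), 2 ^ k • x = 0 → x = 0 := by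
  have hs : Sel0 KK (jK D) := (sel0_uc hD).2 h
  have ho : (jK om) ^ 2 + jK om + 1 = 0 := by
    rw [← map_pow, ← map_add, ← map_one jK, ← map_add]
    have h1 : om ^ 2 + om + 1 = 0 := by decide
    rw [h1, map_zero]
  letI := algK (KM D) (w_memM D)
  obtain ⟨σ, hQ⟩ := exists_cubM hD
  have hcu : (⟨cD D, cD_mem D⟩ : KM D) ^ 3 = algebraMap KK (KM D) (jK D) := cubeM D
  have hint : IsIntegral ℤ (jK D) := RingOfIntegers.isIntegral_coe (eE D)
  obtain ⟨h1, h2⟩ := fin_of_two (jK_ne hD) hint ho (ncK hD) hcu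
    (fun P => surj2 (jK_ne hD) ho (ncK hD) hs P)
  exact ⟨h1, fun h3 => (Nat.not_even_iff_odd.2 h2) (even_iff_two_dvd.2 h3),
    fun x k hx => sha_pow2 (jK_ne hD) ho (ncK hD) hs x k hx⟩

/-- The class number of `ℚ(ω, ∛D)` is odd and there is a unit of relative norm `1` which is not the class of a local point at `2`,
if and only if `E_D(K)` is finite and the Tate–Shafarevich group has no element of order `2`. -/
theorem uc_iff2 {D : Eis} (hD : Cl2 D) : UC2 D ↔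
    (Finite (ED (jK D)).toAffine.Point ∧ ∀ x : SBSD.Sha (ED (jK D)), 2 • x = 0 → x = 0) := by
  constructor
  · intro h
    obtain ⟨h1, -, h3⟩ := descent2 hD h
    exact ⟨h1, fun x hx => h3 x 1 (by rw [pow_one]; exact hx)⟩
  · rintro ⟨h1, h2⟩
    have ho : (jK om) ^ 2 + jK om + 1 = 0 := by
      rw [← map_pow, ← map_add, ← map_one jK, ← map_add]
      have h1 : om ^ 2 + om + 1 = 0 := by decide
      rw [h1, map_zero]
    exact (sel0_uc hD).1 (sel0_of_fin (jK_ne hD) ho (ncK hD) h1 h2)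

theorem padic_nat2 (m : ℕ) (h : ¬ 2 ∣ m) : padicValRat 2 (m : ℚ) = 0 := by
  rw [padicValRat.of_nat, padicValNat.eq_zero_of_not_dvd h]
  rfl

theorem val2 (q : ℚ) (t c : ℕ) (hq : q ≠ 0) (ht : t ≠ 0) (hc : c ≠ 0) (hc3 : ¬ 2 ∣ c) :
    padicValRat 2 (q * (t : ℚ) ^ 2 / (c : ℚ)) = padicValRat 2 q + 2 * padicValRat 2 (t : ℚ) := by
  have hf : Fact (Nat.Prime 2) := ⟨Nat.prime_two⟩
  have h2' : (t : ℚ) ≠ 0 := by exact_mod_cast ht
  have hc1 : (c : ℚ) ≠ 0 := by exact_mod_cast hc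
  rw [padicValRat.div (mul_ne_zero hq (pow_ne_zero _ h2')) hc1,
    padicValRat.mul hq (pow_ne_zero _ h2'), padicValRat.pow, padic_nat2 c hc3]
  push_cast
  ring

/-- The `2`-part of the conjecture. -/
theorem final_all2 {D : Eis} (hD : Cl2 D) (h : UC2 D) (hL : LVal2 D) : SBSD2.TwoPartRankZero (ED (jK D)) := by
  obtain ⟨p₂, pl, hp2, hpl, Φ, hΦ, hs, q, hq, -, hu⟩ := hL
  obtain ⟨hq0, hv⟩ := hu.2 h
  obtain ⟨hfin, hcard, hsha⟩ := descent2 hD h
  obtain ⟨c, hc, hc3, hquot⟩ := quot2 hD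
  have hE := entire_2 hD hp2 hpl Φ hΦ hs
  have hD0 : D ≠ 0 := cl2_ne hD
  have hL1 : Φ 1 * conj (Φ (conj 1)) = (((q : ℝ) * kap D / ‖emb (4 * D)‖ ^ ((1 : ℝ) / 3) : ℝ) : ℂ) * (Om : ℂ) ^ 2 := by
    rw [map_one]
    exact hq
  set t := Nat.card (ED (jK D)).toAffine.Point with ht
  have ht1 : t ≠ 0 := by
    intro h0
    rw [h0] at hcard
    exact hcard (dvd_zero 2)
  have ht0 : (t : ℚ) ≠ 0 := by exact_mod_cast ht1
  have hc1 : (c : ℚ) ≠ 0 := by exact_mod_cast hc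
  have hL0 : Φ 1 * conj (Φ (conj 1)) ≠ 0 := by
    rw [hL1]
    have := CM27.eis_isDomain
    have hX0 : (0 : ℝ) < ‖emb (4 * D)‖ :=
      norm_pos_iff.2 ((map_ne_zero_iff emb emb_injective).2 (mul_ne_zero (by decide) hD0))
    have hY0 : (0 : ℝ) < ‖emb (4 * D)‖ ^ ((1 : ℝ) / 3) := Real.rpow_pos_of_pos hX0 _
    have hOmC : (Om : ℂ) ≠ 0 := by exact_mod_cast Om_pos.ne'
    refine mul_ne_zero ?_ (pow_ne_zero _ hOmC)
    rw [Complex.ofReal_ne_zero]
    have hq1 : (q : ℝ) ≠ 0 := by exact_mod_cast hq0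
    have hk0 : (kap D : ℝ) ≠ 0 := by exact_mod_cast (kap_pos D).ne'
    positivity
  refine ⟨z1_elliptic hD0, hfin, fun s => Φ s * conj (Φ (conj s)), hE, ?_, hL0, hsha,
    q * (t : ℚ) ^ 2 / (c : ℚ), ?_, ?_, ?_⟩
  · exact CMT.order_eq _ (AnalyticAt.analyticOrderAt_eq_zero (hE.1.analyticAt 1) |>.2 hL0)
  · exact div_ne_zero (mul_ne_zero hq0 (pow_ne_zero _ ht0)) hc1
  · rw [val2 q t c hq0 ht1 hc hc3, hv, padic_nat2 t hcard]
    norm_num
  · have h5 := hquot _ q hL1 t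
    rw [quot] at h5
    rw [SBSD2.bsdQuotient, CMT.card_tors]
    exact h5

/-- The conjecture modulo `2` for all `D`. -/
theorem modTwo2 {D : Eis} (hD : Cl2 D) (hL : LVal2 D) : EQV.ModTwo (ED (jK D)) := by
  obtain ⟨p₂, pl, hp2, hpl, Φ, hΦ, hs, q, hq, hv, hu⟩ := hL
  obtain ⟨c, hc, hc3, hquot⟩ := quot2 hD
  have hL1 : Φ 1 * conj (Φ (conj 1)) = (((q : ℝ) * kap D / ‖emb (4 * D)‖ ^ ((1 : ℝ) / 3) : ℝ) : ℂ) * (Om : ℂ) ^ 2 := by
    rw [map_one]
    exact hq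
  set t := tcard (ED (jK D)) with ht
  have hc1 : (c : ℚ) ≠ 0 := by exact_mod_cast hc
  have ht0 : 0 ≤ padicValRat 2 (t : ℚ) := by
    rw [padicValRat.of_nat]
    positivity
  refine ⟨z1_elliptic (cl2_ne hD), fun s => Φ s * conj (Φ (conj s)), entire_2 hD hp2 hpl Φ hΦ hs,
    q * (t : ℚ) ^ 2 / (c : ℚ), ?_, ?_, ?_⟩
  · have h5 := hquot _ q hL1 t
    rw [quot] at h5
    rw [bsd_eq]
    exact h5
  · by_cases h1 : q = 0
    · rw [h1]; simp
    by_cases h2 : t = 0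
    · rw [h2]; simp
    rw [val2 q t c h1 h2 hc hc3]
    have := hv.resolve_left h1
    linarith
  · rw [← uc_iff2 hD, ← hu]
    constructor
    · rintro ⟨h1, h2⟩
      have h3 : q ≠ 0 := by
        rintro rfl
        simp at h1
      have h4 : t ≠ 0 := by
        intro h5
        rw [h5] at h1
        simp at h1
      rw [val2 q t c h3 h4 hc hc3] at h2
      have := hv.resolve_left h3
      exact ⟨h3, by linarith⟩
    · intro h
      obtain ⟨hfin, hcard, -⟩ := descent2 hD (hu.1 h)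
      obtain ⟨h1, h2⟩ := h
      have ht3 : ¬ 2 ∣ t := by
        rw [ht, tcard_eq]
        exact hcard
      have h4 : t ≠ 0 := by
        intro h5
        rw [h5] at ht3
        exact ht3 (dvd_zero 2)
      have h4' : (t : ℚ) ≠ 0 := by exact_mod_cast h4
      refine ⟨div_ne_zero (mul_ne_zero h1 (pow_ne_zero _ h4')) hc1, ?_⟩
      rw [val2 q t c h1 h4 hc hc3, h2, padic_nat2 t ht3]
      norm_num

end JT
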