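import Pool.Agent.JT.Alg
import Pool.Agent.Q3D.A3

/-!
# [JT-T0] the points of order 2 on `y² = x³ + d`, doubling, and the translation to `Q3D.W`

`ρ` is a cube root of `d`, `T_ρ = (-ρ, 0)`. `sg ρ` is the character of the 2-torsion which is `1` at `0` and `T_ρ`, `-1` at the other two points. `rr ρ P` is a square root of `x (2 P) + ρ`.

PROOF of the statements below. `tw` : as `toW` in JD/P1.lean (`WeierstrassCurve.VariableChange`; there `y ↦ y - r`; here `x ↦ x + ρ`: the variable change `⟨1, -ρ, 0, 0⟩` (sign to be checked) sends `ED d` to `Q3D.W ((1 - o) ρ) ((1 - o²) ρ)`: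
`(x - ρ)³ + ρ³ = x³ - 3 ρ x² + 3 ρ² x`, and `-(a + b) = -(2 - o - o²) ρ = -3 ρ`, `a b = (1 - o)(1 - o²) ρ² = 3 ρ²`.) The others: cases on `P`, unfold, `field_simp`/`ring_nf` with `ho`.
-/

set_option autoImplicit false

open scoped Classical

namespace JT

open JD (ED ptE)

section
variable {K : Type} [Field K] {d : K}

/-- `P` is killed by 2 -/
def TwoE : (ED d).toAffine.Point → Prop
  | .zero => True
  | .some _ y _ => y = 0

/-- the character of the 2-torsion which is `1` at `(-ρ, 0)` -/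
noncomputable def sg (ρ : K) : (ED d).toAffine.Point → ℤ
  | .zero => 1
  | .some x _ _ => if x + ρ = 0 then 1 else -1

/-- a square root of `x (2 P) + ρ` (`0` if `2 P = 0`) -/
def rr (ρ : K) : (ED d).toAffine.Point → K
  | .zero => 0
  | .some x y _ => (x ^ 2 + 2 * ρ * x - 2 * ρ ^ 2) / (2 * y)

theorem tw_nd {ρ o : K} (ho : o ^ 2 + o + 1 = 0) (h3 : (3 : K) ≠ 0) (hρ : ρ ≠ 0) : Q3D.Nd ((1 - o) * ρ) ((1 - o ^ 2) * ρ) := by
  have h1 : 1 - o ≠ 0 := by
    intro h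
    apply h3
    linear_combination ho + (o + 2) * h
  have h2 : 1 - o ^ 2 ≠ 0 := by
    intro h
    apply h3
    linear_combination (2 - o) * ho + (1 - o) * h
  refine ⟨mul_ne_zero h1 hρ, mul_ne_zero h2 hρ, fun h => ?_⟩
  have h4 : (1 - o) * o * ρ = 0 := by linear_combination -h
  have ho0 : o ≠ 0 := by
    rintro rfl
    apply one_ne_zero (α := K)
    linear_combination ho
  exact mul_ne_zero (mul_ne_zero h1 ho0) hρ h4

/-- the change of variables `(x, y) ↦ (x - ρ, y)` -/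
def T0_S (ρ : K) : WeierstrassCurve.VariableChange K := ⟨1, -ρ, 0, 0⟩

theorem T0_S_smul {ρ o : K} (ho : o ^ 2 + o + 1 = 0) (hρ : ρ ^ 3 = d) :
    T0_S ρ • ED d = Q3D.W ((1 - o) * ρ) ((1 - o ^ 2) * ρ) := by
  ext
  · rw [WeierstrassCurve.variableChange_a₁]; simp [ED, T0_S, Q3D.W]
  · rw [WeierstrassCurve.variableChange_a₂]
    simp only [ED, T0_S, Q3D.W, inv_one, Units.val_one]
    linear_combination (-ρ) * ho
  · rw [WeierstrassCurve.variableChange_a₃]; simp [ED, T0_S, Q3D.W]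
  · rw [WeierstrassCurve.variableChange_a₄]
    simp only [ED, T0_S, Q3D.W, inv_one, Units.val_one]
    linear_combination (ρ ^ 2 * (2 - o)) * ho
  · rw [WeierstrassCurve.variableChange_a₆]
    simp only [ED, T0_S, Q3D.W, inv_one, Units.val_one]
    linear_combination (-1) * hρ

/-- the translation `(x, y) ↦ (x + ρ, y)` -/
theorem exists_tw {ρ o : K} (ho : o ^ 2 + o + 1 = 0) (hρ : ρ ^ 3 = d) :
    ∃ e : (ED d).toAffine.Point ≃+ (Q3D.W ((1 - o) * ρ) ((1 - o ^ 2) * ρ)).toAffine.Point,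
      ∀ (x y : K) (h : (ED d).toAffine.Nonsingular x y), ∃ h', e (.some x y h) = .some (x + ρ) y h' := by
  refine ⟨(VC63.vcEquiv (ED d) (T0_S ρ)).symm.trans (CM27.trEq (T0_S_smul ho hρ)), fun x y hxy => ?_⟩
  have hns : (Q3D.W ((1 - o) * ρ) ((1 - o ^ 2) * ρ)).toAffine.Nonsingular (x + ρ) y := by
    rw [← T0_S_smul ho hρ, VC63.vc_nonsingular]
    have eX : VC63.vX (T0_S ρ) (x + ρ) = x := by simp [VC63.vX, T0_S]
    have eY : VC63.vY (T0_S ρ) (x + ρ) y = y := by simp [VC63.vY, T0_S]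
    rw [eX, eY]
    exact hxy
  refine ⟨hns, ?_⟩
  rw [← AddEquiv.eq_symm_apply]
  have e1 : (CM27.trEq (T0_S_smul ho hρ)).symm (.some (x + ρ) y hns) =
      .some (x + ρ) y (by rw [T0_S_smul ho hρ]; exact hns) := by
    rw [AddEquiv.symm_apply_eq, CM27.trEq_some]
  have e2 : ((VC63.vcEquiv (ED d) (T0_S ρ)).symm.trans (CM27.trEq (T0_S_smul ho hρ))).symm
      (.some (x + ρ) y hns) = VC63.vcFun (ED d) (T0_S ρ)
      ((CM27.trEq (T0_S_smul ho hρ)).symm (.some (x + ρ) y hns)) := rfl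
  rw [e2, e1, VC63.vcFun_some]
  have eX : VC63.vX (T0_S ρ) (x + ρ) = x := by simp [VC63.vX, T0_S]
  have eY : VC63.vY (T0_S ρ) (x + ρ) y = y := by simp [VC63.vY, T0_S]
  rw [WeierstrassCurve.Affine.Point.some.injEq]
  exact ⟨eX.symm, eY.symm⟩

/-- the table of the translation -/
theorem tw_table [CharZero K] {ρ o : K} (hd : d ≠ 0) (ho : o ^ 2 + o + 1 = 0) (hρ : ρ ^ 3 = d)
    (e : (ED d).toAffine.Point ≃+ (Q3D.W ((1 - o) * ρ) ((1 - o ^ 2) * ρ)).toAffine.Point)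
    (he : ∀ (x y : K) (h : (ED d).toAffine.Nonsingular x y), ∃ h', e (.some x y h) = .some (x + ρ) y h')
    (P : (ED d).toAffine.Point) :
    (TwoE P ↔ Q3D.Two (e P)) ∧ sg ρ P = Q3D.s0 (e P) ∧ sg (o * ρ) P = Q3D.s1 (e P) ∧ sg (o ^ 2 * ρ) P = Q3D.s2 (e P) ∧
      rr ρ P = Q3D.r0 (e P) ∧ rr (o * ρ) P = Q3D.r1 (e P) ∧ rr (o ^ 2 * ρ) P = Q3D.r2 (e P) := by
  cases P with
  | zero =>
    have h0 : e WeierstrassCurve.Affine.Point.zero = WeierstrassCurve.Affine.Point.zero := map_zero e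
    rw [h0]
    exact ⟨Iff.rfl, rfl, rfl, rfl, rfl, rfl, rfl⟩
  | some x y h =>
    obtain ⟨h', he'⟩ := he x y h
    rw [he']
    refine ⟨Iff.rfl, rfl, ?_, ?_, ?_, ?_, ?_⟩
    · show (if x + o * ρ = 0 then (1 : ℤ) else -1) = if x + ρ = (1 - o) * ρ then (1 : ℤ) else -1
      have : x + o * ρ = 0 ↔ x + ρ = (1 - o) * ρ :=
        ⟨fun h => by linear_combination h, fun h => by linear_combination h⟩
      simp only [this]
    · show (if x + o ^ 2 * ρ = 0 then (1 : ℤ) else -1) = if x + ρ = (1 - o ^ 2) * ρ then (1 : ℤ) else -1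
      have : x + o ^ 2 * ρ = 0 ↔ x + ρ = (1 - o ^ 2) * ρ :=
        ⟨fun h => by linear_combination h, fun h => by linear_combination h⟩
      simp only [this]
    · show (x ^ 2 + 2 * ρ * x - 2 * ρ ^ 2) / (2 * y) = ((x + ρ) ^ 2 - (1 - o) * ρ * ((1 - o ^ 2) * ρ)) / (2 * y)
      congr 1
      linear_combination (ρ ^ 2 * (o - 2)) * ho
    · show (x ^ 2 + 2 * (o * ρ) * x - 2 * (o * ρ) ^ 2) / (2 * y) =
        ((x + ρ) ^ 2 - 2 * ((1 - o) * ρ) * (x + ρ) + (1 - o) * ρ * ((1 - o ^ 2) * ρ)) / (2 * y)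
      congr 1
      linear_combination (-(ρ ^ 2 * o)) * ho
    · show (x ^ 2 + 2 * (o ^ 2 * ρ) * x - 2 * (o ^ 2 * ρ) ^ 2) / (2 * y) =
        ((x + ρ) ^ 2 - 2 * ((1 - o ^ 2) * ρ) * (x + ρ) + (1 - o) * ρ * ((1 - o ^ 2) * ρ)) / (2 * y)
      congr 1
      linear_combination (ρ ^ 2 * (o - 2 * o ^ 2)) * ho

theorem sg_pm (ρ : K) (P : (ED d).toAffine.Point) : sg ρ P = 1 ∨ sg ρ P = -1 := by
  cases P with
  | zero => exact Or.inl rfl
  | some x y h =>
    show (if x + ρ = 0 then (1 : ℤ) else -1) = 1 ∨ (if x + ρ = 0 then (1 : ℤ) else -1) = -1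
    by_cases hx : x + ρ = 0
    · exact Or.inl (if_pos hx)
    · exact Or.inr (if_neg hx)

theorem sg_zero (ρ : K) : sg ρ (0 : (ED d).toAffine.Point) = 1 := rfl

theorem twoE_zero : TwoE (0 : (ED d).toAffine.Point) := trivial

theorem twoE_ptE {L : Type} [Field L] (f : K →+* L) {d' : L} (h : f d = d') (P : (ED d).toAffine.Point) :
    TwoE (ptE f h P) ↔ TwoE P := by
  cases P with
  | zero => exact Iff.rfl
  | some x y h' =>
    show f y = 0 ↔ y = 0
    exact map_eq_zero f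

theorem sg_ptE {L : Type} [Field L] (f : K →+* L) {d' : L} (h : f d = d') (ρ : K) (P : (ED d).toAffine.Point) :
    sg (f ρ) (ptE f h P) = sg ρ P := by
  cases P with
  | zero => rfl
  | some x y h' =>
    show (if f x + f ρ = 0 then (1 : ℤ) else -1) = if x + ρ = 0 then (1 : ℤ) else -1
    have h1 : f x + f ρ = 0 ↔ x + ρ = 0 := by rw [← map_add]; exact map_eq_zero f
    simp only [h1]

theorem rr_ptE {L : Type} [Field L] (f : K →+* L) {d' : L} (h : f d = d') (ρ : K) (P : (ED d).toAffine.Point) :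
    rr (f ρ) (ptE f h P) = f (rr ρ P) := by
  cases P with
  | zero => exact (map_zero f).symm
  | some x y h' =>
    show ((f x) ^ 2 + 2 * f ρ * f x - 2 * (f ρ) ^ 2) / (2 * f y) = f ((x ^ 2 + 2 * ρ * x - 2 * ρ ^ 2) / (2 * y))
    simp only [map_div₀, map_sub, map_add, map_mul, map_pow, map_ofNat]

end

end JT
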