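import Pool.Agent.JT.T0

/-!
# [JT-T1] the points of order 2 on `y² = x³ + d` and doubling: laws

PROOF. All by the translation `e = tw` (T0: `exists_tw`, `tw_table`, `tw_nd`) and the laws for `Q3D.W` (Q3D/A2.lean: `two_iff`, `two_cases`, `dbl`, `half`, `two_surj`; Q3D/A3.lean: `two_neg`, `two_add`, `s0_add`, `s1_add`, `s2_eq`, `s_inj`, `r0_add`, `r1_add`, `r2_add`, the tables `a3_s0_T0`...). For a statement about a
root `ρ'` apply the translation with `ρ := ρ'` itself (then `sg ρ' = s0`, `rr ρ' = r0`).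
`twoE_iff` holds without a root in `K`? yes: directly: `2 P = 0` iff `P = -P` iff `y = -y` (see `Q3D.two_iff`); prove it directly (`(ED d).negY x y = -y`), no `hρ` needed. The same for `twoE_neg`.
`sg_prod`: `s2 = s0 s1` and `s_i² = 1`. `sg_inj`: `Q3D.s_inj`. `sg_surj`: the four points `0`, `(-ρ, 0)`, `(-o ρ, 0)`, `(-o² ρ, 0)`.
`dblE`: `Q3D.dbl` for the root `ρ` gives `2 • P = (X, Y)` in translated coordinates, `X + ρ' = rr ρ' P ^ 2` for the three roots (`root_cases`); `Y = rr ρ P * rr (o ρ) P * rr (o² ρ) P`: directly from the doubling formula: `y (2 P) = (x⁶ + 20 d x³ - 8 d²) / (8 y³)` and the product of the three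
`x² + 2 ρ x - 2 ρ²` is `x⁶ + 20 d x³ - 8 d²` (the norm form `nm`: `nm_ev` with the triple `(x², 2 x, -2)`). The doubling formula: `two_nsmul`, `add_some`, `slope_of_Y_ne`, `addY` (as in `Q3D.dbl`).
`halfE`: let `P = (x, y)`. `Q3D.half` (with `u = r ρ`, `v = r (o ρ)`, `w = r (o² ρ)` in translated coordinates) gives `Q'` with `2 Q' = P`; `Q'` is not killed by 2 (`P ≠ 0`); by `dblE`, `(rr ρ' Q')² = x + ρ' = (r ρ')²`, so `rr ρ' Q' = ε ρ' * r ρ'`, `ε = ± 1`. If no `r ρ'` is `0` the product of the `ε` is `1` (both products are `y ≠ 0`);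
if `r ρ' = 0` for one root choose `ε ρ'` as the product of the other two. `sg_surj` gives `T` with `sg ρ' T = ε ρ'`; `Q = Q' + T`: `2 Q = 2 Q' = P` and `rr ρ' Q = sg ρ' T * rr ρ' Q' = r ρ'` (`rr_add`).
-/

set_option autoImplicit false

open scoped Classical

namespace JT

open JD (ED ptE)

/-! ### auxiliary lemmas for the last three statements -/

theorem T1b_congr {K : Type} [Field K] {d x y x' y' : K} (h : (ED d).toAffine.Nonsingular x y)
    (h' : (ED d).toAffine.Nonsingular x' y') (hx : x = x') (hy : y = y') :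
    (WeierstrassCurve.Affine.Point.some x y h : (ED d).toAffine.Point) = .some x' y' h' := by
  subst hx hy
  rfl

theorem T1b_dbl {K : Type} [Field K] [CharZero K] {d x y : K} (h' : (ED d).toAffine.Nonsingular x y) (hy : y ≠ 0) :
    ∃ h'' : (ED d).toAffine.Nonsingular ((x ^ 4 - 8 * d * x) / (4 * y ^ 2)) ((x ^ 6 + 20 * d * x ^ 3 - 8 * d ^ 2) / (8 * y ^ 3)),
      2 • (WeierstrassCurve.Affine.Point.some x y h' : (ED d).toAffine.Point) =
        .some ((x ^ 4 - 8 * d * x) / (4 * y ^ 2)) ((x ^ 6 + 20 * d * x ^ 3 - 8 * d ^ 2) / (8 * y ^ 3)) h'' := by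
  have heq : y ^ 2 = x ^ 3 + d := (JD.ED_equation d x y).1 h'.1
  have hneg : ∀ x y : K, (ED d).toAffine.negY x y = -y := fun x y => by
    simp [WeierstrassCurve.Affine.negY, ED]
  have haddX : ∀ x₁ x₂ l : K, (ED d).toAffine.addX x₁ x₂ l = l ^ 2 - x₁ - x₂ := fun x₁ x₂ l => by
    simp only [WeierstrassCurve.Affine.addX, ED]
    ring
  have haddY : ∀ x₁ x₂ y₁ l : K, (ED d).toAffine.addY x₁ x₂ y₁ l = -(l * (l ^ 2 - x₁ - x₂ - x₁) + y₁) :=
    fun x₁ x₂ y₁ l => by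
    simp only [WeierstrassCurve.Affine.addY, WeierstrassCurve.Affine.negAddY, hneg, haddX]
  have hne : y ≠ (ED d).toAffine.negY x y := by
    rw [hneg]
    intro hh
    apply hy
    have h3 : (2 : K) * y = 0 := by linear_combination hh
    exact (mul_eq_zero.1 h3).resolve_left two_ne_zero
  have hxy : ¬ (x = x ∧ y = (ED d).toAffine.negY x y) := fun hh => hne hh.2
  have hsl : (ED d).toAffine.slope x x y y = 3 * x ^ 2 / (2 * y) := by
    rw [WeierstrassCurve.Affine.slope_of_Y_ne rfl hne, hneg]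
    simp only [ED]
    congr 1
    · ring
    · ring
  have hX : (ED d).toAffine.addX x x ((ED d).toAffine.slope x x y y) = (x ^ 4 - 8 * d * x) / (4 * y ^ 2) := by
    rw [haddX, hsl]
    field_simp
    linear_combination (-32 * x) * heq
  have hY : (ED d).toAffine.addY x x y ((ED d).toAffine.slope x x y y) =
      (x ^ 6 + 20 * d * x ^ 3 - 8 * d ^ 2) / (8 * y ^ 3) := by
    rw [haddY, hsl]
    field_simp
    linear_combination (224 * x ^ 3 - 64 * y ^ 2 - 64 * d) * heq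
  have hns := WeierstrassCurve.Affine.nonsingular_add h' h' hxy
  have h'' : (ED d).toAffine.Nonsingular ((x ^ 4 - 8 * d * x) / (4 * y ^ 2))
      ((x ^ 6 + 20 * d * x ^ 3 - 8 * d ^ 2) / (8 * y ^ 3)) := by
    rw [← hX, ← hY]
    exact hns
  refine ⟨h'', ?_⟩
  rw [two_nsmul, WeierstrassCurve.Affine.Point.add_some hxy]
  exact T1b_congr _ _ hX hY

theorem T1b_sum {K : Type} [Field K] {ρ₁ ρ₂ ρ₃ x u v w : K} (h2 : (2 : K) ≠ 0) (hu : u ^ 2 = x + ρ₁) (hv : v ^ 2 = x + ρ₂)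
    (hw : w ^ 2 = x + ρ₃) (h3 : (ρ₁ - ρ₂) * (ρ₁ - ρ₃) = 3 * ρ₁ ^ 2) (huv : u + v ≠ 0) (huw : u + w ≠ 0)
    (hvw : v + w ≠ 0) {x' : K} (hx' : x' + ρ₁ = (u + v) * (u + w)) :
    (x' ^ 2 + 2 * ρ₁ * x' - 2 * ρ₁ ^ 2) / (2 * ((u + v) * (u + w) * (v + w))) = u := by
  rw [div_eq_iff (mul_ne_zero h2 (mul_ne_zero (mul_ne_zero huv huw) hvw))]
  have e1 : (u ^ 2 - v ^ 2) * (u ^ 2 - w ^ 2) = 3 * ρ₁ ^ 2 := by
    rw [hu, hv, hw, ← h3]
    ring
  linear_combination (x' + ρ₁ + (u + v) * (u + w)) * hx' + e1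

section
variable {K : Type} [Field K] [CharZero K] {d : K}

theorem twoE_iff (P : (ED d).toAffine.Point) : TwoE P ↔ 2 • P = 0 := by
  have hneg : ∀ x y : K, (ED d).toAffine.negY x y = -y := fun x y => by
    simp [WeierstrassCurve.Affine.negY, ED]
  cases P with
  | zero =>
    have h0 : (WeierstrassCurve.Affine.Point.zero : (ED d).toAffine.Point) = 0 := rfl
    rw [h0, nsmul_zero]
    exact ⟨fun _ => rfl, fun _ => trivial⟩
  | some x y h' =>
    have h1 : TwoE (WeierstrassCurve.Affine.Point.some x y h' : (ED d).toAffine.Point) ↔ y = 0 := Iff.rfl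
    rw [h1, two_nsmul, add_eq_zero_iff_eq_neg, WeierstrassCurve.Affine.Point.neg_some,
      WeierstrassCurve.Affine.Point.some.injEq, hneg]
    constructor
    · intro hy
      exact ⟨rfl, by rw [hy, neg_zero]⟩
    · rintro ⟨_, hy⟩
      have h3 : (2 : K) * y = 0 := by linear_combination hy
      exact (mul_eq_zero.1 h3).resolve_left two_ne_zero

theorem twoE_neg (P : (ED d).toAffine.Point) (h : TwoE P) : TwoE (-P) := by
  rw [twoE_iff] at h ⊢
  rw [smul_neg, h, neg_zero]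

theorem twoE_add (P Q : (ED d).toAffine.Point) (h : TwoE P) (h' : TwoE Q) : TwoE (P + Q) := by
  rw [twoE_iff] at h h' ⊢
  rw [smul_add, h, h', add_zero]

theorem twoE_sub (P Q : (ED d).toAffine.Point) (h : TwoE P) (h' : TwoE Q) : TwoE (P - Q) := by
  rw [sub_eq_add_neg]
  exact twoE_add P (-Q) h (twoE_neg Q h')

variable {ρ o : K} (hd : d ≠ 0) (ho : o ^ 2 + o + 1 = 0) (hρ : ρ ^ 3 = d)
include hd ho hρ

theorem sg_add (T T' : (ED d).toAffine.Point) (hT : TwoE T) (hT' : TwoE T') : sg ρ (T + T') = sg ρ T * sg ρ T' := by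
  obtain ⟨e, he⟩ := exists_tw ho hρ
  have hnd := tw_nd ho (three_ne_zero (α := K)) (root_ne hd hρ)
  have t1 := tw_table hd ho hρ e he T
  have t2 := tw_table hd ho hρ e he T'
  have t3 := tw_table hd ho hρ e he (T + T')
  rw [t3.2.1, t1.2.1, t2.2.1, map_add]
  exact Q3D.s0_add hnd _ _ (t1.1.1 hT) (t2.1.1 hT')

theorem sg_neg (T : (ED d).toAffine.Point) (hT : TwoE T) : sg ρ (-T) = sg ρ T := by
  cases T with
  | zero => rfl
  | some x y h' =>
    rw [WeierstrassCurve.Affine.Point.neg_some]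
    rfl

theorem sg_sub (T T' : (ED d).toAffine.Point) (hT : TwoE T) (hT' : TwoE T') : sg ρ (T - T') = sg ρ T * sg ρ T' := by
  rw [sub_eq_add_neg, sg_add hd ho hρ _ _ hT (twoE_neg _ hT'), sg_neg hd ho hρ _ hT']

theorem sg_prod (T : (ED d).toAffine.Point) (hT : TwoE T) : sg ρ T * sg (o * ρ) T * sg (o ^ 2 * ρ) T = 1 := by
  obtain ⟨e, he⟩ := exists_tw ho hρ
  have hnd := tw_nd ho (three_ne_zero (α := K)) (root_ne hd hρ)
  have t1 := tw_table hd ho hρ e he T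
  have h2 := Q3D.s2_eq hnd (e T) (t1.1.1 hT)
  rw [t1.2.1, t1.2.2.1, t1.2.2.2.1, h2]
  rcases Q3D.s0_pm (e T) with h0 | h0 <;> rcases Q3D.s1_pm (e T) with h1 | h1 <;> rw [h0, h1] <;>
    norm_num

theorem sg_inj (T T' : (ED d).toAffine.Point) (hT : TwoE T) (hT' : TwoE T')
    (h : ∀ ρ' : K, ρ' ^ 3 = d → sg ρ' T = sg ρ' T') : T = T' := by
  obtain ⟨e, he⟩ := exists_tw ho hρ
  have hnd := tw_nd ho (three_ne_zero (α := K)) (root_ne hd hρ)
  have t1 := tw_table hd ho hρ e he T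
  have t2 := tw_table hd ho hρ e he T'
  apply e.injective
  refine Q3D.s_inj hnd _ _ (t1.1.1 hT) (t2.1.1 hT') ?_ ?_
  · rw [← t1.2.1, ← t2.2.1]
    exact h ρ hρ
  · rw [← t1.2.2.1, ← t2.2.2.1]
    exact h _ (root_om ho hρ)

/-- two of the characters suffice -/
theorem sg_inj2 (T T' : (ED d).toAffine.Point) (hT : TwoE T) (hT' : TwoE T')
    (h1 : sg (o * ρ) T = sg (o * ρ) T') (h2 : sg (o ^ 2 * ρ) T = sg (o ^ 2 * ρ) T') : T = T' := by
  refine sg_inj hd ho hρ T T' hT hT' fun ρ' hρ' => ?_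
  rcases root_cases ho hρ hρ' with rfl | rfl | rfl
  · have p1 := sg_prod hd ho hρ T hT
    have p2 := sg_prod hd ho hρ T' hT'
    rw [← h1, ← h2] at p2
    rcases sg_pm (o * ρ') T with a1 | a1 <;> rcases sg_pm (o ^ 2 * ρ') T with a2 | a2 <;>
      rw [a1, a2] at p1 p2 <;> linarith
  · exact h1
  · exact h2

theorem sg_surj (ε : K → ℤ) (h : ∀ ρ' : K, ρ' ^ 3 = d → ε ρ' = 1 ∨ ε ρ' = -1) (hp : ε ρ * ε (o * ρ) * ε (o ^ 2 * ρ) = 1) :
    ∃ T : (ED d).toAffine.Point, TwoE T ∧ ∀ ρ' : K, ρ' ^ 3 = d → sg ρ' T = ε ρ' := by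
  have h3 : (3 : K) ≠ 0 := three_ne_zero
  have h2 : (2 : K) ≠ 0 := two_ne_zero
  have hρ0 : ρ ≠ 0 := root_ne hd hρ
  have hnd := tw_nd ho h3 hρ0
  have n1 : o * ρ ≠ ρ := fun h => hnd.a0 (by linear_combination -h)
  have n2 : o ^ 2 * ρ ≠ ρ := fun h => hnd.b0 (by linear_combination -h)
  have n3 : o ^ 2 * ρ ≠ o * ρ := fun h => hnd.ab (by linear_combination h)
  have hr1 := root_om ho hρ
  have hr2 := root_om2 ho hρ
  have hns : ∀ z : K, z ^ 3 = d → (ED d).toAffine.Nonsingular (-z) 0 := fun z hz => by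
    rw [JD.ED_nonsingular h2 h3 hd]
    linear_combination hz
  have key : ∀ (z : K) (hz : z ^ 3 = d), (∀ ρ' : K, ρ' ^ 3 = d → (ρ' = z ∧ ε ρ' = 1) ∨ (ρ' ≠ z ∧ ε ρ' = -1)) →
      ∃ T : (ED d).toAffine.Point, TwoE T ∧ ∀ ρ' : K, ρ' ^ 3 = d → sg ρ' T = ε ρ' := fun z hz hh => by
    refine ⟨.some (-z) 0 (hns z hz), (rfl : (0 : K) = 0), fun ρ' hρ' => ?_⟩
    show (if -z + ρ' = 0 then (1 : ℤ) else -1) = ε ρ'
    rcases hh ρ' hρ' with ⟨a, b⟩ | ⟨a, b⟩
    · rw [b, if_pos (by rw [a]; ring)]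
    · rw [b, if_neg (fun h => a (by linear_combination h))]
  rcases h ρ hρ with e0 | e0 <;> rcases h _ hr1 with e1 | e1 <;> rcases h _ hr2 with e2 | e2 <;>
    rw [e0, e1, e2] at hp <;> norm_num at hp
  · refine ⟨0, trivial, fun ρ' hρ' => ?_⟩
    rw [sg_zero]
    rcases root_cases ho hρ hρ' with rfl | rfl | rfl
    · exact e0.symm
    · exact e1.symm
    · exact e2.symm
  · refine key ρ hρ fun ρ' hρ' => ?_
    rcases root_cases ho hρ hρ' with rfl | rfl | rfl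
    · exact Or.inl ⟨rfl, e0⟩
    · exact Or.inr ⟨n1, e1⟩
    · exact Or.inr ⟨n2, e2⟩
  · refine key _ hr1 fun ρ' hρ' => ?_
    rcases root_cases ho hρ hρ' with rfl | rfl | rfl
    · exact Or.inr ⟨n1.symm, e0⟩
    · exact Or.inl ⟨rfl, e1⟩
    · exact Or.inr ⟨n3, e2⟩
  · refine key _ hr2 fun ρ' hρ' => ?_
    rcases root_cases ho hρ hρ' with rfl | rfl | rfl
    · exact Or.inr ⟨n2.symm, e0⟩
    · exact Or.inr ⟨n3.symm, e1⟩
    · exact Or.inl ⟨rfl, e2⟩

theorem rr_add (P T : (ED d).toAffine.Point) (hT : TwoE T) : rr ρ (P + T) = sg ρ T * rr ρ P := by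
  obtain ⟨e, he⟩ := exists_tw ho hρ
  have hnd := tw_nd ho (three_ne_zero (α := K)) (root_ne hd hρ)
  have t1 := tw_table hd ho hρ e he P
  have t2 := tw_table hd ho hρ e he T
  have t3 := tw_table hd ho hρ e he (P + T)
  rw [t3.2.2.2.2.1, t1.2.2.2.2.1, t2.2.1, map_add]
  exact Q3D.r0_add hnd _ _ (t2.1.1 hT)

omit hρ in
theorem rr_two (P : (ED d).toAffine.Point) (h : TwoE P) (ρ' : K) : rr ρ' P = 0 := by
  cases P with
  | zero => rfl
  | some x y h' =>
    have hy : y = 0 := h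
    show (x ^ 2 + 2 * ρ' * x - 2 * ρ' ^ 2) / (2 * y) = 0
    rw [hy, mul_zero, div_zero]

theorem dblE (P : (ED d).toAffine.Point) (hP : ¬ TwoE P) :
    ∃ (X Y : K) (h' : (ED d).toAffine.Nonsingular X Y), 2 • P = .some X Y h' ∧ (∀ ρ' : K, ρ' ^ 3 = d → X + ρ' = rr ρ' P ^ 2) ∧
      Y = rr ρ P * rr (o * ρ) P * rr (o ^ 2 * ρ) P := by
  cases P with
  | zero => exact absurd trivial hP
  | some x y h' =>
    have hy : y ≠ 0 := hP
    have heq : y ^ 2 = x ^ 3 + d := (JD.ED_equation d x y).1 h'.1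
    obtain ⟨h'', h2⟩ := T1b_dbl h' hy
    refine ⟨_, _, h'', h2, fun ρ' hρ' => ?_, ?_⟩
    · show (x ^ 4 - 8 * d * x) / (4 * y ^ 2) + ρ' = ((x ^ 2 + 2 * ρ' * x - 2 * ρ' ^ 2) / (2 * y)) ^ 2
      field_simp
      linear_combination (16 * ρ') * heq + (32 * x - 16 * ρ') * hρ'
    · show (x ^ 6 + 20 * d * x ^ 3 - 8 * d ^ 2) / (8 * y ^ 3) =
        (x ^ 2 + 2 * ρ * x - 2 * ρ ^ 2) / (2 * y) * ((x ^ 2 + 2 * (o * ρ) * x - 2 * (o * ρ) ^ 2) / (2 * y)) *
          ((x ^ 2 + 2 * (o ^ 2 * ρ) * x - 2 * (o ^ 2 * ρ) ^ 2) / (2 * y))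
      have h3 := nm_ev ho hρ ((x ^ 2, 2 * x, -2) : K × K × K)
      simp only [ev, nm] at h3
      have e : (x ^ 2 + 2 * ρ * x - 2 * ρ ^ 2) / (2 * y) * ((x ^ 2 + 2 * (o * ρ) * x - 2 * (o * ρ) ^ 2) / (2 * y)) *
          ((x ^ 2 + 2 * (o ^ 2 * ρ) * x - 2 * (o ^ 2 * ρ) ^ 2) / (2 * y)) =
          ((x ^ 2 + 2 * x * ρ + -2 * ρ ^ 2) * (x ^ 2 + 2 * x * (o * ρ) + -2 * (o * ρ) ^ 2) *
            (x ^ 2 + 2 * x * (o ^ 2 * ρ) + -2 * (o ^ 2 * ρ) ^ 2)) / (8 * y ^ 3) := by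
        field_simp
        ring
      rw [e, h3]
      congr 1
      ring

theorem halfE {x y : K} (hN : (ED d).toAffine.Nonsingular x y) (r : K → K) (hr : ∀ ρ' : K, ρ' ^ 3 = d → r ρ' ^ 2 = x + ρ')
    (hp : r ρ * r (o * ρ) * r (o ^ 2 * ρ) = y) :
    ∃ Q : (ED d).toAffine.Point, 2 • Q = .some x y hN ∧ ∀ ρ' : K, ρ' ^ 3 = d → rr ρ' Q = r ρ' := by
  have hu := hr ρ hρ
  have hv := hr (o * ρ) (root_om ho hρ)
  have hw := hr (o ^ 2 * ρ) (root_om2 ho hρ)
  set u := r ρ with hu'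
  set v := r (o * ρ) with hv'
  set w := r (o ^ 2 * ρ) with hw'
  have h3 : (3 : K) ≠ 0 := three_ne_zero
  have h2 : (2 : K) ≠ 0 := two_ne_zero
  have hρ0 : ρ ≠ 0 := root_ne hd hρ
  have ho3 : o ^ 3 = 1 := by linear_combination (o - 1) * ho
  have ho0 : o ≠ 0 := by
    rintro rfl
    rw [zero_pow (by norm_num)] at ho3
    exact zero_ne_one ho3
  have hnd := tw_nd ho h3 hρ0
  have huv : u + v ≠ 0 := by
    intro h1
    apply hnd.a0
    linear_combination hv - hu + (u - v) * h1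
  have huw : u + w ≠ 0 := by
    intro h1
    apply hnd.b0
    linear_combination hw - hu + (u - w) * h1
  have hvw : v + w ≠ 0 := by
    intro h1
    apply hnd.ab
    linear_combination hv - hw - (v - w) * h1
  -- the products of the differences of the roots
  have k1 : (ρ - o * ρ) * (ρ - o ^ 2 * ρ) = 3 * ρ ^ 2 := by
    linear_combination (-ρ ^ 2) * ho + ρ ^ 2 * ho3
  have k2 : (o * ρ - ρ) * (o * ρ - o ^ 2 * ρ) = 3 * (o * ρ) ^ 2 := by
    linear_combination (-o * ρ ^ 2) * ho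
  have k3 : (o ^ 2 * ρ - ρ) * (o ^ 2 * ρ - o * ρ) = 3 * (o ^ 2 * ρ) ^ 2 := by
    linear_combination (ρ ^ 2 * (o - 2 * o ^ 2)) * ho
  obtain ⟨x', hx'⟩ : ∃ x', x' = (u + v) * (u + w) - ρ := ⟨_, rfl⟩
  have x1 : x' + ρ = (u + v) * (u + w) := by rw [hx']; ring
  have x2 : x' + o * ρ = (v + u) * (v + w) := by
    rw [hx']
    linear_combination hu - hv
  have x3 : x' + o ^ 2 * ρ = (w + u) * (w + v) := by
    rw [hx']
    linear_combination hu - hw
  have hQ : (ED d).toAffine.Nonsingular x' ((u + v) * (u + w) * (v + w)) := by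
    rw [JD.ED_nonsingular h2 h3 hd]
    have e1 := nm_ev ho hρ ((x', 1, 0) : K × K × K)
    rw [ev_pt, ev_pt, ev_pt, nm_pt, x1, x2, x3] at e1
    rw [← e1]
    ring
  have hQ2 : ¬ TwoE (WeierstrassCurve.Affine.Point.some _ _ hQ : (ED d).toAffine.Point) := by
    intro h1
    have h4 : (u + v) * (u + w) * (v + w) = 0 := h1
    exact mul_ne_zero (mul_ne_zero huv huw) hvw h4
  have r1 : rr ρ (WeierstrassCurve.Affine.Point.some _ _ hQ : (ED d).toAffine.Point) = u :=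
    T1b_sum h2 hu hv hw k1 huv huw hvw x1
  have r2 : rr (o * ρ) (WeierstrassCurve.Affine.Point.some _ _ hQ : (ED d).toAffine.Point) = v := by
    have h5 := T1b_sum h2 hv hu hw k2 (by rwa [add_comm]) hvw huw x2
    have e : (v + u) * (v + w) * (u + w) = (u + v) * (u + w) * (v + w) := by ring
    rw [e] at h5
    exact h5
  have r3 : rr (o ^ 2 * ρ) (WeierstrassCurve.Affine.Point.some _ _ hQ : (ED d).toAffine.Point) = w := by
    have h5 := T1b_sum h2 hw hu hv k3 (by rwa [add_comm]) (by rwa [add_comm]) huv x3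
    have e : (w + u) * (w + v) * (u + v) = (u + v) * (u + w) * (v + w) := by ring
    rw [e] at h5
    exact h5
  obtain ⟨X, Y, hXY, h2Q, hX, hY⟩ := dblE hd ho hρ _ hQ2
  refine ⟨.some _ _ hQ, ?_, fun ρ' hρ' => ?_⟩
  · rw [h2Q]
    apply T1b_congr
    · have h6 := hX ρ hρ
      rw [r1, hu] at h6
      exact add_right_cancel h6
    · rw [hY, r1, r2, r3]
      exact hp
  · rcases root_cases ho hρ hρ' with rfl | rfl | rfl
    · exact r1
    · exact r2
    · exact r3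

end

/-- the doubling is surjective over an algebraically closed field -/
theorem two_surjE {K : Type} [Field K] [CharZero K] [IsAlgClosed K] {d : K} (hd : d ≠ 0) (P : (ED d).toAffine.Point) :
    ∃ Q : (ED d).toAffine.Point, 2 • Q = P := by
  cases P with
  | zero => exact ⟨0, nsmul_zero 2⟩
  | some x y hN =>
    have heq : y ^ 2 = x ^ 3 + d := (JD.ED_equation d x y).1 hN.1
    obtain ⟨s, hs⟩ := IsAlgClosed.exists_pow_nat_eq (-3 : K) (n := 2) (by norm_num)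
    obtain ⟨o, ho⟩ : ∃ o : K, o ^ 2 + o + 1 = 0 := ⟨(-1 + s) / 2, by
      field_simp
      linear_combination hs⟩
    obtain ⟨ρ, hρ⟩ := IsAlgClosed.exists_pow_nat_eq d (n := 3) (by norm_num)
    have h3 : (3 : K) ≠ 0 := three_ne_zero
    have hρ0 : ρ ≠ 0 := root_ne hd hρ
    have hnd := tw_nd ho h3 hρ0
    obtain ⟨u, hu⟩ := IsAlgClosed.exists_pow_nat_eq (x + ρ) (n := 2) (by norm_num)
    obtain ⟨v, hv⟩ := IsAlgClosed.exists_pow_nat_eq (x + o * ρ) (n := 2) (by norm_num)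
    obtain ⟨w, hw⟩ := IsAlgClosed.exists_pow_nat_eq (x + o ^ 2 * ρ) (n := 2) (by norm_num)
    have e1 := nm_ev ho hρ ((x, 1, 0) : K × K × K)
    rw [ev_pt, ev_pt, ev_pt, nm_pt, ← heq, ← hu, ← hv, ← hw] at e1
    -- the sign
    obtain ⟨u', hu', hp⟩ : ∃ u', u' ^ 2 = x + ρ ∧ u' * v * w = y := by
      have h4 : (u * v * w - y) * (u * v * w + y) = 0 := by linear_combination e1
      rcases mul_eq_zero.1 h4 with h5 | h5
      · exact ⟨u, hu, sub_eq_zero.1 h5⟩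
      · exact ⟨-u, by rw [neg_pow_two, hu], by linear_combination -h5⟩
    have n1 : o * ρ ≠ ρ := fun h => hnd.a0 (by linear_combination -h)
    have n2 : o ^ 2 * ρ ≠ ρ := fun h => hnd.b0 (by linear_combination -h)
    have n3 : o ^ 2 * ρ ≠ o * ρ := fun h => hnd.ab (by linear_combination h)
    obtain ⟨r, hr⟩ : ∃ r : K → K, ∀ z, r z = if z = ρ then u' else if z = o * ρ then v else w := ⟨_, fun _ => rfl⟩
    have r1 : r ρ = u' := by rw [hr, if_pos rfl]
    have r2 : r (o * ρ) = v := by rw [hr, if_neg n1, if_pos rfl]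
    have r3 : r (o ^ 2 * ρ) = w := by rw [hr, if_neg n2, if_neg n3]
    obtain ⟨Q, hQ, -⟩ := halfE hd ho hρ hN r (fun ρ' hρ' => by
      rcases root_cases ho hρ hρ' with rfl | rfl | rfl
      · rw [r1, hu']
      · rw [r2, hv]
      · rw [r3, hw]) (by rw [r1, r2, r3]; exact hp)
    exact ⟨Q, hQ⟩

end JT
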