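import Pool.Agent.JT.N0
import Pool.Agent.TRS.S3a

/-!
# [JT-N1] the Kummer class of a cocycle with values in the 2-torsion

PROOF. `χ_restr` (N1a): for an intermediate field `M` of `L / K` the map `(L ≃ₐ[M] L) → (L ≃ₐ[K] L)`, `s ↦ s.restrictScalars K`, is continuous: copy `N3a_hom`, `N3a_cont` of JD/N3.lean with `M` in place of `F` and `K` in place of `KK` (only `Algebra K M`, `IsScalarTower K M L` used).
`exists_ev` (N1b): an element of `IntermediateField.adjoin K {ρ}`, `ρ³ = d`, is `ev (mp u) ρ` for a triple `u` over `K`: `IntermediateField.adjoin_induction` needs inverses; easier: `ρ` is integral over `K`, `IntermediateField.adjoin_simple_toSubalgebra_of_integral`: the elements are the polynomials in `ρ` (`Algebra.adjoin_singleton_eq_range_aeval`),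
`Polynomial.induction_on'` or `p %ₘ (X³ - C d)` (`Polynomial.aeval_modByMonic_eq_self_of_root`, degree `< 3`: `p = a + b X + c X²`).
`kummer3` (N1c): a root `ρ₀` exists (`IsAlgClosed`). `M = K(ρ₀)`. `χ s = sg ρ₀ (c (s.restrictScalars K))` for `s : L ≃ₐ[M] L`: values `± 1`, locally constant (`hc.loc.comp_continuous`), multiplicative: `hc.crossed`, `sg_add`, `sg_ptE` (`s ρ₀ = ρ₀`). `TRS.kummer_char (K := M) (Ω := L)`: `α ∈ L`, `α ≠ 0`, `s α = χ s α`, `α² = z ∈ M`;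
`z = ev (mp u) ρ₀` by `exists_ev`. The Galois group acts transitively on the roots of `X³ - d` (`d` is not a cube in `K`, so `X³ - C d` is irreducible over `K`: a polynomial of degree 3 without root, `Polynomial.irreducible_iff_roots_eq_zero_of_degree_le_three` or `X_pow_sub_C_irreducible_iff_of_prime`; two roots of an irreducible polynomial have
the same minimal polynomial, so there is `σ : L ≃ₐ[K] L` with `σ ρ₀ = ρ`: `IsAlgClosed`/`Normal`: `minpoly.eq_of_irreducible_of_monic`, `Normal.exists_algEquiv...` e. g. `IsConjRoot`/`isConjRoot_iff_exists_algEquiv`). For every root `ρ` choose `σ_ρ` with `σ_ρ ρ₀ = ρ` and put `t ρ = sg ρ (c σ_ρ) * σ_ρ α`.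
CLAIM: for every `σ` with `σ ρ₀ = ρ`: `t ρ = sg ρ (c σ) * σ α`: `σ = σ_ρ s`, `s = σ_ρ⁻¹ σ` fixes `ρ₀` (so it is the restriction of an element `s'` of `L ≃ₐ[M] L`), `c σ = c σ_ρ + σ_ρ (c s)`, `sg ρ (c σ) = sg ρ (c σ_ρ) * sg ρ₀ (c s)`, `σ α = σ_ρ (s α) = sg ρ₀ (c s) σ_ρ α`. Then `Ksg`: `σ (t ρ) = sg ρ (c σ_ρ) (σ σ_ρ) α`, and
`t (σ ρ) = sg (σ ρ) (c (σ σ_ρ)) (σ σ_ρ) α`, `sg (σ ρ) (c (σ σ_ρ)) = sg (σ ρ) (c σ) * sg ρ (c σ_ρ)`. `sq`: `t ρ ^ 2 = σ_ρ (α²) = σ_ρ (ev (mp u) ρ₀) = ev (mp u) ρ`. The product `N = t ρ t (o ρ) t (o² ρ)` (independent of the choice of `o`, `ρ`: all products over the three roots) is fixed by all `σ` (`sg_prod`; `σ` permutes the roots),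
so `N = algebraMap n` (`InfiniteGalois.mem_range_algebraMap_iff_fixed`); `nm d u = n²` by `nm_ev`; `n ≠ 0` as all `t ρ ≠ 0`.
-/

set_option autoImplicit false

open NumberField IsDedekindDomain
open scoped Classical

namespace JT

open JD (ED ptE Coc LocTriv)
open CUD (gal_comm alg_comm tau_comm am_ne am_o)

/-- [N1a] -/
theorem restr_cont {K M L : Type} [Field K] [Field M] [Field L] [Algebra K M] [Algebra M L] [Algebra K L] [IsScalarTower K M L]
    [Algebra.IsAlgebraic K L] :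
    Continuous (fun s : L ≃ₐ[M] L => (s.restrictScalars K : L ≃ₐ[K] L)) := by
  let hom : (L ≃ₐ[M] L) →* (L ≃ₐ[K] L) :=
    { toFun := fun s => s.restrictScalars K, map_one' := rfl, map_mul' := fun _ _ => rfl }
  have h : Continuous hom := by
    refine continuous_of_continuousAt_one _ ?_
    intro s hs
    rw [map_one, krullTopology_mem_nhds_one_iff] at hs
    obtain ⟨E, hE, hEs⟩ := hs
    rw [Filter.mem_map, krullTopology_mem_nhds_one_iff]
    let b := Module.finBasis K E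
    let S : Set L := Set.range (fun i => ((b i : E) : L))
    have hS : Finite S := Set.finite_range _
    have hfin : FiniteDimensional M (IntermediateField.adjoin M S) := by
      apply IntermediateField.finiteDimensional_adjoin
      rintro x ⟨i, rfl⟩
      have h1 : IsIntegral K ((b i : E) : L) :=
        (Algebra.IsIntegral.isIntegral (R := K) (b i)).map E.val
      exact h1.tower_top
    refine ⟨IntermediateField.adjoin M S, hfin, ?_⟩
    intro σ hσ
    apply hEs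
    rw [SetLike.mem_coe, IntermediateField.mem_fixingSubgroup_iff] at hσ ⊢
    have h2 : ∀ i, σ ((b i : E) : L) = ((b i : E) : L) := fun i =>
      hσ _ (IntermediateField.subset_adjoin M S ⟨i, rfl⟩)
    intro x hx
    have h3 := b.sum_repr ⟨x, hx⟩
    have h4 : x = ∑ i, (b.repr ⟨x, hx⟩ i) • ((b i : E) : L) := by
      have h5 := congrArg (E.val) h3
      rw [map_sum] at h5
      simp only [map_smul] at h5
      exact h5.symm
    have h6 : (hom σ) x = ∑ i, (b.repr ⟨x, hx⟩ i) • σ ((b i : E) : L) := by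
      conv_lhs => rw [h4]
      rw [map_sum]
      simp only [map_smul]
      rfl
    rw [h6]
    conv_rhs => rw [h4]
    refine Finset.sum_congr rfl fun i _ => ?_
    rw [h2]
  exact h

/-- [N1b] -/
theorem exists_ev {K L : Type} [Field K] [Field L] [Algebra K L] {d : K} {ρ : L} (hρ : ρ ^ 3 = algebraMap K L d) {z : L}
    (hz : z ∈ IntermediateField.adjoin K {ρ}) : ∃ u : K × K × K, ev (mp (algebraMap K L) u) ρ = z := by
  have hint : IsIntegral K ρ := ⟨Polynomial.X ^ 3 - Polynomial.C d,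
    Polynomial.monic_X_pow_sub_C d (by norm_num), by
      rw [Polynomial.eval₂_sub, Polynomial.eval₂_X_pow, Polynomial.eval₂_C, hρ, sub_self]⟩
  have h1 : z ∈ (IntermediateField.adjoin K {ρ}).toSubalgebra := hz
  rw [IntermediateField.adjoin_simple_toSubalgebra_of_isAlgebraic hint.isAlgebraic,
    Algebra.adjoin_singleton_eq_range_aeval] at h1
  obtain ⟨p, hp⟩ := h1
  have hp' : Polynomial.aeval ρ p = z := hp
  have hm : (Polynomial.X ^ 3 - Polynomial.C d : Polynomial K).Monic :=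
    Polynomial.monic_X_pow_sub_C d (by norm_num)
  have h2 := Polynomial.aeval_modByMonic_eq_self_of_root (p := p)
    (q := (Polynomial.X ^ 3 - Polynomial.C d : Polynomial K)) (x := ρ) (by
      rw [map_sub, map_pow, Polynomial.aeval_X, Polynomial.aeval_C, hρ, sub_self])
  set q := p %ₘ (Polynomial.X ^ 3 - Polynomial.C d : Polynomial K) with hq
  have hdeg : q.natDegree < 3 := by
    have h3 := Polynomial.natDegree_modByMonic_lt p hm (by
      intro h1
      have := congrArg Polynomial.natDegree h1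
      rw [Polynomial.natDegree_X_pow_sub_C, Polynomial.natDegree_one] at this
      omega)
    rwa [Polynomial.natDegree_X_pow_sub_C] at h3
  have h3 := Polynomial.aeval_eq_sum_range' hdeg ρ
  refine ⟨(q.coeff 0, q.coeff 1, q.coeff 2), ?_⟩
  rw [← hp', ← h2, h3, Finset.sum_range_succ, Finset.sum_range_succ, Finset.sum_range_one]
  simp only [ev, mp, Algebra.smul_def]
  ring

/-- [N1c] the roots of `X³ - d` are conjugate -/
theorem exists_conj {K L : Type} [Field K] [CharZero K] [Field L] [Algebra K L] [IsAlgClosure K L] {d : K} (hnc : ∀ x : K, x ^ 3 ≠ d)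
    {ρ ρ' : L} (hρ : ρ ^ 3 = algebraMap K L d) (hρ' : ρ' ^ 3 = algebraMap K L d) : ∃ σ : L ≃ₐ[K] L, σ ρ = ρ' := by
  have hnorm : Normal K L := IsAlgClosure.normal K L
  have hirr : Irreducible (Polynomial.X ^ 3 - Polynomial.C d : Polynomial K) :=
    X_pow_sub_C_irreducible_of_prime Nat.prime_three hnc
  have hm : (Polynomial.X ^ 3 - Polynomial.C d : Polynomial K).Monic :=
    Polynomial.monic_X_pow_sub_C d (by norm_num)
  have h1 : ∀ x : L, x ^ 3 = algebraMap K L d →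
      Polynomial.X ^ 3 - Polynomial.C d = minpoly K x := fun x hx => by
    refine minpoly.eq_of_irreducible_of_monic hirr ?_ hm
    rw [map_sub, map_pow, Polynomial.aeval_X, Polynomial.aeval_C, hx, sub_self]
  have h2 : IsConjRoot K ρ' ρ := by
    show minpoly K ρ' = minpoly K ρ
    rw [← h1 ρ hρ, ← h1 ρ' hρ']
  exact isConjRoot_iff_exists_algEquiv.1 h2

theorem N1d_sq {L : Type} [Field L] {d : L} (ρ : L) (P : (ED d).toAffine.Point) :
    ((sg ρ P : ℤ) : L) * ((sg ρ P : ℤ) : L) = 1 := by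
  rcases sg_pm ρ P with h | h <;> rw [h] <;> norm_num

theorem N1d_ne {L : Type} [Field L] {d : L} (ρ : L) (P : (ED d).toAffine.Point) :
    ((sg ρ P : ℤ) : L) ≠ 0 := by
  intro h
  have := N1d_sq ρ P
  rw [h, mul_zero] at this
  exact zero_ne_one this

/-- the sign of a cocycle -/
theorem N1d_mul {K L : Type} [Field K] [CharZero K] [Field L] [CharZero L] [Algebra K L] {d o : K} (hd : d ≠ 0)
    (ho : o ^ 2 + o + 1 = 0) {c : (L ≃ₐ[K] L) → (ED (algebraMap K L d)).toAffine.Point} (hc : Coc K L d c)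
    (hT : ∀ σ, TwoE (c σ)) {ρ : L} (hρ : ρ ^ 3 = algebraMap K L d) (σ τ : L ≃ₐ[K] L) :
    sg (σ ρ) (c (σ * τ)) = sg (σ ρ) (c σ) * sg ρ (c τ) := by
  have hdL : algebraMap K L d ≠ 0 := (map_ne_zero _).2 hd
  have hoL : (algebraMap K L o) ^ 2 + algebraMap K L o + 1 = 0 := am_o ho
  have hσρ : (σ ρ) ^ 3 = algebraMap K L d := by rw [← map_pow, hρ, AlgEquiv.commutes]
  rw [hc.crossed, sg_add hdL hoL hσρ _ _ (hT σ) ((twoE_ptE _ _ _).2 (hT τ))]
  congr 1
  exact sg_ptE (σ : L →+* L) (gal_comm σ d) ρ (c τ)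

theorem N1d_ev {K L : Type} [Field K] [Field L] [Algebra K L] (σ : L ≃ₐ[K] L) (u : K × K × K) (ρ : L) :
    σ (ev (mp (algebraMap K L) u) ρ) = ev (mp (algebraMap K L) u) (σ ρ) := by
  simp only [ev, mp, map_add, map_mul, map_pow, AlgEquiv.commutes]

/-- [N1d] -/
theorem kummer3 {K L : Type} [Field K] [CharZero K] [Field L] [Algebra K L] [IsAlgClosure K L] {d o : K} (hd : d ≠ 0)
    (ho : o ^ 2 + o + 1 = 0) (hnc : ∀ x : K, x ^ 3 ≠ d)
    (c : (L ≃ₐ[K] L) → (ED (algebraMap K L d)).toAffine.Point) (hc : Coc K L d c) (hT : ∀ σ, TwoE (c σ)) :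
    ∃ (u : K × K × K) (n : K) (t : L → L), TD d u n t ∧ Ksg t c := by
  have hcl : IsAlgClosed L := IsAlgClosure.isAlgClosed K
  have hnorm : Normal K L := IsAlgClosure.normal K L
  have halg : Algebra.IsAlgebraic K L := IsAlgClosure.isAlgebraic
  have hgal : IsGalois K L := ⟨⟩
  have hL0 : CharZero L := charZero_of_injective_algebraMap (algebraMap K L).injective
  have hdL : algebraMap K L d ≠ 0 := (map_ne_zero _).2 hd
  obtain ⟨oL, hoL'⟩ : ∃ oL, algebraMap K L o = oL := ⟨_, rfl⟩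
  have hoL : oL ^ 2 + oL + 1 = 0 := hoL' ▸ am_o ho
  have hoσ : ∀ σ : L ≃ₐ[K] L, σ oL = oL := fun σ => by rw [← hoL', AlgEquiv.commutes]
  obtain ⟨ρ₀, hρ₀⟩ := IsAlgClosed.exists_pow_nat_eq (algebraMap K L d) (n := 3) (by norm_num)
  have hσρ : ∀ (σ : L ≃ₐ[K] L) (ρ : L), ρ ^ 3 = algebraMap K L d → (σ ρ) ^ 3 = algebraMap K L d :=
    fun σ ρ hρ => by rw [← map_pow, hρ, AlgEquiv.commutes]
  have hmul := fun (ρ : L) (hρ : ρ ^ 3 = algebraMap K L d) (σ τ : L ≃ₐ[K] L) =>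
    N1d_mul hd ho hc hT hρ σ τ
  -- the Kummer generator over `M = K(ρ₀)`
  obtain ⟨α, u, hα0, hαs, hαu⟩ : ∃ (α : L) (u : K × K × K), α ≠ 0 ∧
      (∀ s : L ≃ₐ[K] L, s ρ₀ = ρ₀ → s α = ((sg ρ₀ (c s) : ℤ) : L) * α) ∧
      ev (mp (algebraMap K L) u) ρ₀ = α ^ 2 := by
    have hM0 : CharZero (IntermediateField.adjoin K {ρ₀}) :=
      charZero_of_injective_algebraMap (algebraMap K (IntermediateField.adjoin K {ρ₀})).injective
    have hgM : IsGalois (IntermediateField.adjoin K {ρ₀}) L := inferInstance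
    have hfix : ∀ s : L ≃ₐ[IntermediateField.adjoin K {ρ₀}] L, s ρ₀ = ρ₀ := fun s =>
      s.commutes ⟨ρ₀, IntermediateField.mem_adjoin_simple_self K ρ₀⟩
    obtain ⟨α, hα0, hα, z, hz0, hz⟩ := TRS.kummer_char (K := IntermediateField.adjoin K {ρ₀}) (Ω := L)
      (fun s => sg ρ₀ (c (s.restrictScalars K))) (fun s => sg_pm _ _)
      ((hc.loc.comp_continuous restr_cont).comp (sg ρ₀)) (fun s s' => by
        have h1 := hmul ρ₀ hρ₀ (s.restrictScalars K) (s'.restrictScalars K)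
        have h2 : (s.restrictScalars K) ρ₀ = ρ₀ := hfix s
        rw [h2] at h1
        exact h1)
    obtain ⟨u, hu⟩ := exists_ev hρ₀ (z := (z : L)) z.2
    refine ⟨α, u, hα0, fun s hs => ?_, ?_⟩
    · have hsM : ∀ m : IntermediateField.adjoin K {ρ₀}, s (algebraMap _ L m) = algebraMap _ L m := fun m => by
        obtain ⟨v, hv⟩ := exists_ev hρ₀ (z := (m : L)) m.2
        show s (m : L) = m
        rw [← hv, N1d_ev, hs]
      exact hα (AlgEquiv.ofRingEquiv (f := s.toRingEquiv) hsM)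
    · rw [hu]
      exact hz
  -- the square roots
  have hex : ∀ ρ : L, ∃ σ : L ≃ₐ[K] L, ρ ^ 3 = algebraMap K L d → σ ρ₀ = ρ := fun ρ => by
    by_cases h : ρ ^ 3 = algebraMap K L d
    · obtain ⟨σ, hσ⟩ := exists_conj hnc hρ₀ h
      exact ⟨σ, fun _ => hσ⟩
    · exact ⟨1, fun h' => absurd h' h⟩
  choose f hf using hex
  obtain ⟨t, ht⟩ : ∃ t : L → L, ∀ ρ, t ρ = ((sg ρ (c (f ρ)) : ℤ) : L) * f ρ α := ⟨_, fun _ => rfl⟩
  have key : ∀ ρ : L, ρ ^ 3 = algebraMap K L d → ∀ σ : L ≃ₐ[K] L, σ ρ₀ = ρ →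
      t ρ = ((sg ρ (c σ) : ℤ) : L) * σ α := by
    intro ρ hρ σ hσ
    have h1 : ((f ρ)⁻¹ * σ) ρ₀ = ρ₀ := by
      rw [AlgEquiv.mul_apply, hσ]
      nth_rewrite 2 [← hf ρ hρ]
      exact (f ρ).symm_apply_apply ρ₀
    have h2 := hmul ρ₀ hρ₀ (f ρ) ((f ρ)⁻¹ * σ)
    rw [mul_inv_cancel_left, hf ρ hρ] at h2
    have h3 := hαs _ h1
    have h4 : σ α = ((sg ρ₀ (c ((f ρ)⁻¹ * σ)) : ℤ) : L) * f ρ α := by
      have h5 : σ α = f ρ (((f ρ)⁻¹ * σ) α) := by
        rw [← AlgEquiv.mul_apply, mul_inv_cancel_left]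
      rw [h5, h3, map_mul, map_intCast]
    rw [ht, h2, h4]
    push_cast
    have h6 := N1d_sq ρ₀ (c ((f ρ)⁻¹ * σ))
    linear_combination (-((sg ρ (c (f ρ)) : ℤ) : L) * f ρ α) * h6
  have hKsg : Ksg t c := by
    intro σ ρ hρ
    have h1 := key (σ ρ) (hσρ σ ρ hρ) (σ * f ρ) (by rw [AlgEquiv.mul_apply, hf ρ hρ])
    have h2 := hmul ρ hρ σ (f ρ)
    rw [h1, h2, ht, map_mul, map_intCast, AlgEquiv.mul_apply]
    push_cast
    have h6 := N1d_sq (σ ρ) (c σ)
    linear_combination (-((sg ρ (c (f ρ)) : ℤ) : L) * σ (f ρ α)) * h6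
  have hsq : ∀ ρ : L, ρ ^ 3 = algebraMap K L d → t ρ ^ 2 = ev (mp (algebraMap K L) u) ρ := by
    intro ρ hρ
    have h6 := N1d_sq ρ (c (f ρ))
    have h7 : (f ρ α) ^ 2 = ev (mp (algebraMap K L) u) ρ := by
      rw [← map_pow, ← hαu, N1d_ev, hf ρ hρ]
    rw [ht, ← h7]
    linear_combination ((f ρ α) ^ 2) * h6
  have ht0 : ∀ ρ : L, ρ ^ 3 = algebraMap K L d → t ρ ≠ 0 := by
    intro ρ hρ
    rw [ht]
    exact mul_ne_zero (N1d_ne _ _) ((map_ne_zero (f ρ)).2 hα0)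
  -- the product over the roots
  have ho3 : oL ^ 3 = 1 := by linear_combination (oL - 1) * hoL
  have ho4 : oL ^ 2 * oL ^ 2 = oL := by linear_combination oL * ho3
  have hinv : ∀ ρ : L, ρ ^ 3 = algebraMap K L d →
      t ρ * t (oL * ρ) * t (oL ^ 2 * ρ) = t ρ₀ * t (oL * ρ₀) * t (oL ^ 2 * ρ₀) := by
    intro ρ hρ
    rcases root_cases hoL hρ₀ hρ with rfl | rfl | rfl
    · rfl
    · have e1 : oL * (oL * ρ₀) = oL ^ 2 * ρ₀ := by ring
      have e2 : oL ^ 2 * (oL * ρ₀) = ρ₀ := by linear_combination ρ₀ * ho3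
      rw [e1, e2]
      ring
    · have e1 : oL * (oL ^ 2 * ρ₀) = ρ₀ := by linear_combination ρ₀ * ho3
      have e2 : oL ^ 2 * (oL ^ 2 * ρ₀) = oL * ρ₀ := by rw [← mul_assoc, ho4]
      rw [e1, e2]
      ring
  have hfixN : ∀ σ : L ≃ₐ[K] L, σ (t ρ₀ * t (oL * ρ₀) * t (oL ^ 2 * ρ₀)) =
      t ρ₀ * t (oL * ρ₀) * t (oL ^ 2 * ρ₀) := by
    intro σ
    have h1 := hKsg σ ρ₀ hρ₀
    have h2 := hKsg σ (oL * ρ₀) (root_om hoL hρ₀)
    have h3 := hKsg σ (oL ^ 2 * ρ₀) (root_om2 hoL hρ₀)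
    rw [map_mul σ oL, hoσ] at h2
    rw [map_mul σ (oL ^ 2), map_pow, hoσ] at h3
    rw [map_mul, map_mul, h1, h2, h3, ← hinv (σ ρ₀) (hσρ σ ρ₀ hρ₀)]
    have h4 := sg_prod hdL hoL (hσρ σ ρ₀ hρ₀) (c σ) (hT σ)
    have h5 : ((sg (σ ρ₀) (c σ) : ℤ) : L) * ((sg (oL * σ ρ₀) (c σ) : ℤ) : L) *
        ((sg (oL ^ 2 * σ ρ₀) (c σ) : ℤ) : L) = 1 := by exact_mod_cast h4
    linear_combination (t (σ ρ₀) * t (oL * σ ρ₀) * t (oL ^ 2 * σ ρ₀)) * h5
  obtain ⟨n, hn⟩ := (InfiniteGalois.mem_range_algebraMap_iff_fixed (k := K)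
    (t ρ₀ * t (oL * ρ₀) * t (oL ^ 2 * ρ₀))).2 hfixN
  have hprod : ∀ ρ : L, ρ ^ 3 = algebraMap K L d →
      t ρ * t (oL * ρ) * t (oL ^ 2 * ρ) = algebraMap K L n := fun ρ hρ => by
    rw [hinv ρ hρ, hn]
  refine ⟨u, n, t, ⟨hsq, ?_, ?_, ?_⟩, hKsg⟩
  · intro h0
    rw [h0, map_zero] at hn
    exact mul_ne_zero (mul_ne_zero (ht0 _ hρ₀) (ht0 _ (root_om hoL hρ₀)))
      (ht0 _ (root_om2 hoL hρ₀)) hn.symm
  · apply (algebraMap K L).injective
    rw [← mp_nm, ← nm_ev hoL hρ₀, ← hsq _ hρ₀, ← hsq _ (root_om hoL hρ₀), ← hsq _ (root_om2 hoL hρ₀),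
      map_pow, hn]
    ring
  · intro o' ρ ho' hρ
    have h1 : (o' - oL) * (o' - oL ^ 2) = 0 := by
      linear_combination ho' - o' * hoL + ho3
    rcases mul_eq_zero.1 h1 with h2 | h2
    · rw [sub_eq_zero.1 h2]
      exact hprod ρ hρ
    · rw [sub_eq_zero.1 h2]
      have e1 : (oL ^ 2) ^ 2 * ρ = oL * ρ := by rw [sq (oL ^ 2), ho4]
      rw [e1, ← hprod ρ hρ]
      ring

end JT
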