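import Pool.Agent.JT.X1

/-!
# [JT-A1] the classes of points form a group, stable under the automorphism

PROOF. `locA_mul`: `L` an algebraic closure of `C`. `nm d u = n²`, `nm d v = m²`. `exists_t` for `u` and `v` gives `t`, `t'`; `fun ρ => t ρ * t' ρ` satisfies `TD` for `mu d u v`, `n * m` (`ev_mu`, `nm_mu`). `exists_cz`: cocycles `c`, `c'`; `c + c'` satisfies `Ksg` for the product (`sg_add`, `twoE_add`). `cz_loc` with `F := C`, `Fv := C`, `Lv := L` (`algebraMap C C = RingHom.id`, so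
`LocA (algebraMap C C d) (mp (algebraMap C C) u)` is `LocA d u`), `ι = AlgHom.id`: points `Q`, `Q'`; `Q + Q'` satisfies the hypothesis of `loc_of_cob` for `c + c'`. (A root `ρ` and `o` exist in `L`.)
`locA_sq_mul`: `mu u (mu g g)`: if `mu u (x, 1, 0) = h²` then `mu (mu u g²) (x, 1, 0) = (h g)²` (`mu_assoc`, `mu_comm`). Conversely `locA_of_sq_mul`: multiply by the square of the inverse of `g`: `inv g = (g₀² - d g₁ g₂, d g₂² - g₀ g₁, g₁² - g₀ g₂) / nm d g`.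
`locA_sig`: let `f (a, b, c) = (a, o b, o² c)`; `f (mu d u v) = mu d (f u) (f v)` (`o³ = 1`). `mu u (x, 1, 0) = g²` gives `mu (f u) (x, o, 0) = (f g)²`, and `(x, o, 0) = o (o² x, 1, 0)`, `o = (o²)²`, so `mu (f u) (o² x, 1, 0) = (o (f g))²`; `(o² x)³ = x³`.
-/

set_option autoImplicit false

open scoped Classical

namespace JT

open JD (ED ptE Coc LocTriv)

section
variable {C : Type} [Field C] {d : C}

/-- the inverse of a triple of nonzero norm -/
theorem exists_inv {g : C × C × C} (hg : nm d g ≠ 0) : ∃ h : C × C × C, mu d g h = (1, 0, 0) ∧ nm d h ≠ 0 := by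
  have h1 : mu d g ((g.1 ^ 2 - d * g.2.1 * g.2.2) / nm d g, (d * g.2.2 ^ 2 - g.1 * g.2.1) / nm d g,
      (g.2.1 ^ 2 - g.1 * g.2.2) / nm d g) = (1, 0, 0) := by
    have e : ∀ a b c : C, a * (b / nm d g) = a * b / nm d g := fun a b _ => (mul_div_assoc _ _ _).symm
    simp only [mu, Prod.mk.injEq]
    refine ⟨?_, ?_, ?_⟩
    · rw [← mul_right_inj' hg]
      field_simp
      simp only [nm]
      ring
    · field_simp
      ring
    · field_simp
      ring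
  refine ⟨_, h1, fun h0 => ?_⟩
  have h2 := congrArg (nm d) h1
  rw [nm_mu, h0, mul_zero] at h2
  apply one_ne_zero (α := C)
  rw [h2]
  simp only [nm]
  ring

theorem mu_one (u : C × C × C) : mu d u (1, 0, 0) = u ∧ mu d (1, 0, 0) u = u := by
  simp only [mu]
  constructor <;> refine Prod.ext ?_ (Prod.ext ?_ ?_) <;> simp only <;> ring

theorem sqA_mul {u v : C × C × C} (hu : SqA d u) (hv : SqA d v) : SqA d (mu d u v) := by
  obtain ⟨g, rfl⟩ := hu
  obtain ⟨h, rfl⟩ := hv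
  refine ⟨mu d g h, ?_⟩
  simp only [mu, Prod.mk.injEq]
  refine ⟨?_, ?_, ?_⟩ <;> ring

theorem sqA_of_sq_mul {u g : C × C × C} (hg : nm d g ≠ 0) (h : SqA d (mu d u (mu d g g))) : SqA d u := by
  obtain ⟨k, hk⟩ := h
  obtain ⟨i, hi, -⟩ := exists_inv hg
  have h1 : mu d (mu d g g) (mu d i i) = (1, 0, 0) := by
    have e : mu d (mu d g g) (mu d i i) = mu d (mu d g i) (mu d g i) := by
      simp only [mu, Prod.mk.injEq]
      refine ⟨?_, ?_, ?_⟩ <;> ring
    rw [e, hi]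
    exact (mu_one _).1
  have h2 : u = mu d (mu d u (mu d g g)) (mu d i i) := by
    rw [mu_assoc, h1]
    exact (mu_one u).1.symm
  rw [h2, hk]
  exact sqA_mul ⟨k, rfl⟩ ⟨i, rfl⟩

theorem locA_sq_mul {u g : C × C × C} (h : LocA d u) : LocA d (mu d u (mu d g g)) := by
  rcases h with h | ⟨x, y, hxy, h⟩
  · exact Or.inl (sqA_mul h ⟨g, rfl⟩)
  · refine Or.inr ⟨x, y, hxy, ?_⟩
    rw [mu_assoc, mu_comm d (mu d g g), ← mu_assoc]
    exact sqA_mul h ⟨g, rfl⟩

theorem locA_of_sq_mul {u g : C × C × C} (hg : nm d g ≠ 0) (h : LocA d (mu d u (mu d g g))) : LocA d u := by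
  rcases h with h | ⟨x, y, hxy, h⟩
  · exact Or.inl (sqA_of_sq_mul hg h)
  · refine Or.inr ⟨x, y, hxy, ?_⟩
    rw [mu_assoc, mu_comm d (mu d g g), ← mu_assoc] at h
    exact sqA_of_sq_mul hg h

/-- the class of a point -/
theorem locA_pt {x y : C} (h : y ^ 2 = x ^ 3 + d) : LocA d (x, 1, 0) := by
  exact Or.inr ⟨x, y, h, ⟨_, rfl⟩⟩

theorem locA_sig {o : C} (ho : o ^ 2 + o + 1 = 0) {u : C × C × C} (h : LocA d u) :
    LocA d (u.1, o * u.2.1, o ^ 2 * u.2.2) := by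
  have ho3 : o ^ 3 = 1 := by linear_combination (o - 1) * ho
  have hf : ∀ a b : C × C × C, ((mu d a b).1, o * (mu d a b).2.1, o ^ 2 * (mu d a b).2.2) =
      mu d (a.1, o * a.2.1, o ^ 2 * a.2.2) (b.1, o * b.2.1, o ^ 2 * b.2.2) := fun a b => by
    simp only [mu, Prod.mk.injEq]
    refine ⟨?_, ?_, ?_⟩
    · linear_combination (-(d * (a.2.1 * b.2.2 + a.2.2 * b.2.1))) * ho3
    · linear_combination (-(d * a.2.2 * b.2.2 * o)) * ho3
    · ring
  rcases h with ⟨g, rfl⟩ | ⟨x, y, hxy, ⟨g, hg⟩⟩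
  · exact Or.inl ⟨_, hf g g⟩
  · refine Or.inr ⟨o ^ 2 * x, y, ?_, ⟨(o * g.1, o * (o * g.2.1), o * (o ^ 2 * g.2.2)), ?_⟩⟩
    · linear_combination hxy - (x ^ 3 * (o ^ 3 + 1)) * ho3
    · have h1 := hf u (x, 1, 0)
      rw [hg, hf g g] at h1
      simp only [mu, Prod.mk.injEq] at h1 ⊢
      obtain ⟨a1, a2, a3⟩ := h1
      refine ⟨?_, ?_, ?_⟩
      · linear_combination (-o ^ 2) * a1 - (d * (o ^ 2 * u.2.2)) * ho3
      · linear_combination (-o ^ 2) * a2 - u.1 * ho3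
      · linear_combination (-o ^ 2) * a3 - (o * u.2.1) * ho3

/-- multiplication by a square of `C` -/
theorem locA_scalar {u : C × C × C} {k : C} (hk : k ≠ 0) :
    LocA d (k ^ 2 * u.1, k ^ 2 * u.2.1, k ^ 2 * u.2.2) ↔ LocA d u := by
  have hn : nm d ((k, 0, 0) : C × C × C) ≠ 0 := by
    have : nm d ((k, 0, 0) : C × C × C) = k ^ 3 := by
      simp only [nm]
      ring
    rw [this]
    exact pow_ne_zero 3 hk
  have e : ((k ^ 2 * u.1, k ^ 2 * u.2.1, k ^ 2 * u.2.2) : C × C × C) =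
      mu d u (mu d (k, 0, 0) (k, 0, 0)) := by
    simp only [mu, Prod.mk.injEq]
    refine ⟨?_, ?_, ?_⟩ <;> ring
  rw [e]
  exact ⟨fun h => locA_of_sq_mul hn h, fun h => locA_sq_mul h⟩

end

theorem locA_mul {C : Type} [Field C] [CharZero C] {d o : C} (hd : d ≠ 0) (ho : o ^ 2 + o + 1 = 0) {u v : C × C × C}
    (hu : nm d u ≠ 0) (hu' : IsSquare (nm d u)) (hv : nm d v ≠ 0) (hv' : IsSquare (nm d v))
    (h : LocA d u) (h' : LocA d v) : LocA d (mu d u v) := by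
  obtain ⟨n, hn⟩ := hu'
  obtain ⟨m, hm⟩ := hv'
  have hn0 : n ≠ 0 := by
    rintro rfl
    exact hu (by rw [hn, mul_zero])
  have hm0 : m ≠ 0 := by
    rintro rfl
    exact hv (by rw [hm, mul_zero])
  have hL0 : CharZero (AlgebraicClosure C) :=
    charZero_of_injective_algebraMap (algebraMap C (AlgebraicClosure C)).injective
  have hdL : algebraMap C (AlgebraicClosure C) d ≠ 0 := (map_ne_zero _).2 hd
  have hoL : (algebraMap C (AlgebraicClosure C) o) ^ 2 + algebraMap C (AlgebraicClosure C) o + 1 = 0 := by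
    rw [← map_pow, ← map_add, ← map_one (algebraMap C (AlgebraicClosure C)), ← map_add, ho, map_zero]
  obtain ⟨t, ht⟩ := exists_t (L := AlgebraicClosure C) hd ho hn0 (hn.trans (sq n).symm)
  obtain ⟨t', ht'⟩ := exists_t (L := AlgebraicClosure C) hd ho hm0 (hm.trans (sq m).symm)
  obtain ⟨c, hT, -, hk⟩ := exists_cz hd ho ht
  obtain ⟨c', hT', -, hk'⟩ := exists_cz hd ho ht'
  obtain ⟨Q, hQ⟩ := cz_loc hd ho hT ht hk C (AlgebraicClosure C) h (AlgHom.id C (AlgebraicClosure C))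
  obtain ⟨Q', hQ'⟩ := cz_loc hd ho hT' ht' hk' C (AlgebraicClosure C) h' (AlgHom.id C (AlgebraicClosure C))
  have hT2 : ∀ σ, TwoE (c σ + c' σ) := fun σ => twoE_add _ _ (hT σ) (hT' σ)
  have ht2 : TD d (mu d u v) (n * m) (fun ρ => t ρ * t' ρ) := by
    refine ⟨fun ρ hρ => ?_, mul_ne_zero hn0 hm0, ?_, fun o' ρ ho' hρ => ?_⟩
    · show (t ρ * t' ρ) ^ 2 = _
      rw [mul_pow, ht.sq ρ hρ, ht'.sq ρ hρ, mp_mu, ev_mu hρ]
    · rw [nm_mu, hn, hm]
      ring
    · show t ρ * t' ρ * (t (o' * ρ) * t' (o' * ρ)) * (t (o' ^ 2 * ρ) * t' (o' ^ 2 * ρ)) = _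
      rw [map_mul, ← ht.prod o' ρ ho' hρ, ← ht'.prod o' ρ ho' hρ]
      ring
  have hk2 : Ksg (fun ρ => t ρ * t' ρ) (fun σ => c σ + c' σ) := by
    intro σ ρ hρ
    have hσρ : (σ ρ) ^ 3 = algebraMap C (AlgebraicClosure C) d := by
      rw [← map_pow, hρ, AlgEquiv.commutes]
    show σ (t ρ * t' ρ) = ((sg (σ ρ) (c σ + c' σ) : ℤ) : AlgebraicClosure C) * (t (σ ρ) * t' (σ ρ))
    rw [map_mul, hk σ ρ hρ, hk' σ ρ hρ, sg_add hdL hoL hσρ _ _ (hT σ) (hT' σ)]
    push_cast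
    ring
  exact loc_of_cob hd ho hT2 ht2 hk2 C (AlgebraicClosure C) (AlgHom.id C (AlgebraicClosure C)) (Q + Q')
    (fun τ σ hτσ => by
      rw [JD.ptE_add, JD.ptE_add, hQ τ σ hτσ, hQ' τ σ hτσ]
      abel)

/-- cancellation -/
theorem locA_of_mul {C : Type} [Field C] [CharZero C] {d o : C} (hd : d ≠ 0) (ho : o ^ 2 + o + 1 = 0) {u v : C × C × C}
    (hu : nm d u ≠ 0) (hu' : IsSquare (nm d u)) (hv : nm d v ≠ 0) (hv' : IsSquare (nm d v))
    (h : LocA d (mu d u v)) (h' : LocA d v) : LocA d u := by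
  have h1 : LocA d (mu d (mu d u v) v) := locA_mul hd ho (by rw [nm_mu]; exact mul_ne_zero hu hv)
    (by rw [nm_mu]; exact hu'.mul hv') hv hv' h h'
  rw [mu_assoc] at h1
  exact locA_of_sq_mul hv h1

end JT
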