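import Pool.Agent.JT.Q1
import Pool.Agent.JD.E6
import Pool.Agent.JD.E1

/-!
# [JT-L1] the places of `F = K(∛D)` and of `K`

`Ev α`: all valuations of `α` are even.

PROOF. `split_w` (the place `w` is moved by `σ`): let `P = {z | w z < 1}`, `P₁ = {z | w (σ z) < 1}`, `P₂ = {z | w (σ² z) < 1}`, three different maximal ideals of `𝓞 F` (`P ≠ P₁` by hypothesis: two places with the same ideal have the same valuation; `P₁ ≠ P₂`: apply `σ`; `P₂ = P` would give, applying `σ`, `P = P₁`; `σ³ = 1`: `sig_three`). For every `k` there is `x ∈ 𝓞 F`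
with `w (x - 1) ≤ exp (-k)`, `w (σ x) ≤ exp (-k)`, `w (σ² x) ≤ exp (-k)` (`P ^ k` and `P₁ ^ k * P₂ ^ k` are coprime: `Ideal.isCoprime_iff_exists`, `IsCoprime.pow`). `y = x s + σ (x s) + σ² (x s)` is fixed by `σ`, so `y ∈ KK` (`exists_of_fix3`), and `w (y - s) ≤ exp (-k)` (`s`, `σ s`, `σ² s` are integral: `w ≤ 1`). So for every `k` there is
`y_k ∈ KK` with `w (y_k - s) ≤ exp (-k)`. Let `v`, `φ` be as in `JD.l0a_map` (continuous; `v = w ∩ 𝓞 KK`; inside the proof of `l0a_map`: `HeightOneSpectrum.valuation_liesOver F v w : w (algebraMap x) = v x ^ e`); `y_k` is a Cauchy sequence in `v.adicCompletion KK` (`v (y_k - y_l) ^ e = w (y_k - y_l) ≤ exp (-min k l)`), let `ρ` be the limit (complete), `φ ρ = lim φ y_k = s` (continuity),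
`ρ³ = D` by injectivity of `φ`. `Below.int` as in `JD.exists_Below`.
`ev_fix`: `w (σ z) = w z` for all `z`: `α σ(α) σ²(α) = n²` (`norm3`), so `w(α)³ = w(n)²`, `w(α) = (w(n) / w(α))²`.
`below_sq`: `Valued.v x = γ²`, `x ≠ 0`: `x = π² t` with `Valued.v π = γ` (`π ∈ v.adicCompletion KK`: `HeightOneSpectrum.valuation_surjective` on `KK`), `Valued.v t = 1`, so `Valued.v (φ t) = 1` (`Below.int` for `t` and `t⁻¹`), `Valued.v (φ x) = (Valued.v (φ π))²`.
`hom3`: as `JD.e6b_hom` with triples (`exists_trip`, `trip_inj`, `ev_mul`). `val_of_ev`: as `JD.split_val` (`e6b_place`), with squares in place of cubes.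
-/

set_option autoImplicit false

open NumberField IsDedekindDomain
open scoped Classical

namespace JT

open CM27 CF JZ JD
open CU (la om eE)

/-- all valuations are even -/
def Ev {F : Type} [Field F] [NumberField F] (α : F) : Prop :=
  ∀ w : HeightOneSpectrum (𝓞 F), ∃ g : WithZero (Multiplicative ℤ), w.valuation F α = g ^ 2

section
variable {D : Eis} {F : Type} [Field F] [NumberField F] [Algebra KK F] {s : F} {σ : F ≃ₐ[KK] F}

omit [Algebra KK F] in
theorem L1a_ideal_ne {w w' : HeightOneSpectrum (𝓞 F)} {z : F} (h : w.valuation F z ≠ w'.valuation F z) :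
    w.asIdeal ≠ w'.asIdeal := by
  intro h1
  apply h
  rw [HeightOneSpectrum.ext h1]

omit [Algebra KK F] in
theorem L1a_pow_le (w : HeightOneSpectrum (𝓞 F)) {x : 𝓞 F} {k : ℕ} (h : x ∈ w.asIdeal ^ k) :
    w.valuation F (algebraMap (𝓞 F) F x) ≤ WithZero.exp (-(k : ℤ)) := by
  rw [HeightOneSpectrum.valuation_of_algebraMap w x]
  exact (w.intValuation_le_pow_iff_mem x k).2 h

theorem L1a_exists_k (γ : WithZero (Multiplicative ℤ)) (hγ : γ ≠ 0) : ∃ k : ℕ, WithZero.exp (-(k : ℤ)) < γ := by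
  obtain ⟨n, hn⟩ : ∃ n : ℤ, γ = WithZero.exp n := ⟨WithZero.log γ, (WithZero.exp_log hγ).symm⟩
  refine ⟨(-n).toNat + 1, ?_⟩
  rw [hn, WithZero.exp_lt_exp]
  show -(((-n).toNat + 1 : ℕ) : ℤ) < n
  omega

/-- the approximation -/
theorem L1a_approx (hD : D ≠ 0) (hQ : Cub D s σ) (w : HeightOneSpectrum (𝓞 F)) (hw : ∃ z : F, w.valuation F (σ z) ≠ w.valuation F z)
    (k : ℕ) : ∃ x : F, w.valuation F (x - 1) ≤ WithZero.exp (-(k : ℤ)) ∧ w.valuation F (σ x) ≤ WithZero.exp (-(k : ℤ)) ∧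
      w.valuation F (σ (σ x)) ≤ WithZero.exp (-(k : ℤ)) := by
  obtain ⟨z, hz⟩ := hw
  obtain ⟨w1, hw1⟩ := exists_cj σ w
  obtain ⟨w2, hw2⟩ := exists_cj σ w1
  have n1 : w.asIdeal ≠ w1.asIdeal := by
    refine L1a_ideal_ne (z := z) ?_
    rw [hw1]
    exact hz.symm
  have n2 : w.asIdeal ≠ w2.asIdeal := by
    refine L1a_ideal_ne (z := σ z) ?_
    rw [hw2, hw1, sig_three hD hQ]
    exact hz
  have m0 := w.isMaximal
  have m1 := w1.isMaximal
  have m2 := w2.isMaximal
  have c1 : IsCoprime w.asIdeal w1.asIdeal := Ideal.isCoprime_iff_sup_eq.2 (m0.coprime_of_ne m1 n1)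
  have c2 : IsCoprime w.asIdeal w2.asIdeal := Ideal.isCoprime_iff_sup_eq.2 (m0.coprime_of_ne m2 n2)
  have c3 : IsCoprime (w.asIdeal ^ k) (w1.asIdeal ^ k * w2.asIdeal ^ k) := IsCoprime.mul_right c1.pow c2.pow
  obtain ⟨i, hi, j, hj, hij⟩ := Ideal.isCoprime_iff_exists.1 c3
  refine ⟨algebraMap (𝓞 F) F j, ?_, ?_, ?_⟩
  · have h1 : algebraMap (𝓞 F) F (i + j) = 1 := by rw [hij, map_one]
    rw [map_add] at h1
    have e : algebraMap (𝓞 F) F j - 1 = -algebraMap (𝓞 F) F i := by linear_combination h1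
    rw [e, Valuation.map_neg]
    exact L1a_pow_le w hi
  · rw [← hw1]
    have h6 : w1.asIdeal ^ k * w2.asIdeal ^ k ≤ w1.asIdeal ^ k := Ideal.mul_le_left
    have h5 : j ∈ w1.asIdeal ^ k := h6 hj
    exact L1a_pow_le w1 h5
  · rw [← hw1, ← hw2]
    have h6 : w1.asIdeal ^ k * w2.asIdeal ^ k ≤ w2.asIdeal ^ k := Ideal.mul_le_right
    have h5 : j ∈ w2.asIdeal ^ k := h6 hj
    exact L1a_pow_le w2 h5

/-- an element of `KK` near `s` -/
theorem L1a_near (hD : D ≠ 0) (hQ : Cub D s σ) (w : HeightOneSpectrum (𝓞 F)) (hw : ∃ z : F, w.valuation F (σ z) ≠ w.valuation F z)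
    (k : ℕ) : w.valuation F s ≤ 1 ∧ ∃ y : KK, w.valuation F (algebraMap KK F y - s) ≤ WithZero.exp (-(k : ℤ)) := by
  obtain ⟨x, h1, h2, h3⟩ := L1a_approx hD hQ w hw k
  have hom : w.valuation F (jF F om) ≤ 1 := q3a_le w (int_jF F om)
  have hs : w.valuation F s ≤ 1 := by
    have h4 : w.valuation F s ^ 3 ≤ 1 := by
      rw [← map_pow, hQ.cu]
      exact q3a_le w (int_jF F D)
    by_contra h5
    exact absurd h4 (not_le.2 (one_lt_pow₀ (not_le.1 h5) (by norm_num)))
  refine ⟨hs, ?_⟩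
  have hs1 : w.valuation F (σ s) ≤ 1 := by
    rw [hQ.sig, map_mul]
    exact mul_le_one' hom hs
  have hs2 : w.valuation F (σ (σ s)) ≤ 1 := by
    rw [hQ.sig, map_mul, sig_jF, hQ.sig, map_mul, map_mul]
    exact mul_le_one' hom (mul_le_one' hom hs)
  obtain ⟨y, hy⟩ := exists_of_fix3 hD hQ (z := x * s + σ (x * s) + σ (σ (x * s))) (by
    rw [map_add, map_add, sig_three hD hQ]
    ring)
  refine ⟨y, ?_⟩
  have e : algebraMap KK F y - s = (x - 1) * s + σ x * σ s + σ (σ x) * σ (σ s) := by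
    rw [← hy, map_mul, map_mul]
    ring
  rw [e]
  refine (Valuation.map_add _ _ _).trans (max_le ((Valuation.map_add _ _ _).trans (max_le ?_ ?_)) ?_)
  · rw [map_mul]
    exact mul_le_of_le_of_le_one h1 hs
  · rw [map_mul]
    exact mul_le_of_le_of_le_one h2 hs1
  · rw [map_mul]
    exact mul_le_of_le_of_le_one h3 hs2

/-- elements near `1` are cubes -/
theorem L1a_cube (v : HeightOneSpectrum (𝓞 KK)) {x : v.adicCompletion KK} (hx : Valued.v (x - 1) ≤ WithZero.exp (-4 : ℤ)) :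
    ∃ m : v.adicCompletion KK, m ^ 3 = x := by
  have hdom := eis_isDomain
  have hlt4 : (WithZero.exp (-4 : ℤ) : WithZero (Multiplicative ℤ)) < 1 := by
    rw [← WithZero.exp_zero, WithZero.exp_lt_exp]
    norm_num
  by_cases h3 : v.valuation KK 3 = 1
  · obtain ⟨m, hm⟩ := CUD.cube_of_one v h3 x (hx.trans_lt hlt4)
    exact ⟨m, hm.symm⟩
  · have h4 : v.valuation KK (jK 3) < 1 := by
      refine lt_of_le_of_ne ?_ ?_
      · rw [jK_apply]
        exact HeightOneSpectrum.valuation_le_one v _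
      · rw [map_ofNat]
        exact h3
    have h5 : eE 3 ∈ v.asIdeal := by
      rw [jK_apply] at h4
      exact (HeightOneSpectrum.valuation_lt_one_iff_mem v (eE 3)).1 h4
    have e3 : (3 : Eis) = -om ^ 2 * la ^ 2 := by decide
    obtain ⟨b, hb, hv⟩ := CU.gen v
    have h6 := (CU.mem_iff hv 3).1 h5
    rw [e3] at h6
    have h7 : b ∣ la := by
      rcases hb.dvd_or_dvd h6 with h7 | h7
      · exact absurd (isUnit_of_dvd_unit h7 (CU.om_unit.pow 2).neg) hb.not_isUnit
      · exact hb.dvd_of_dvd_pow h7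
    have h8 : v.asIdeal = Ideal.span {eE la} := by
      rw [hv]
      exact CU.s1_span (hb.irreducible.associated_of_dvd CU.la_prime.irreducible h7)
    have h9 : eE la ≠ 0 := by
      rw [Ne, EmbeddingLike.map_eq_zero_iff]
      exact CU.la_prime.ne_zero
    have e1 : Valued.v (algebraMap KK (v.adicCompletion KK) (jK la)) = v.valuation KK (jK la) :=
      HeightOneSpectrum.valuedAdicCompletion_eq_valuation' v (jK la)
    have e2 : v.valuation KK (jK la) = v.intValuation (eE la) := by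
      rw [← HeightOneSpectrum.valuation_of_algebraMap (K := KK)]
      rfl
    have hl : Valued.v (algebraMap KK (v.adicCompletion KK) (jK la)) = WithZero.exp (-1 : ℤ) := by
      rw [e1, e2, v.intValuation_singleton h9 h8]
    have hun : ∀ a b : Eis, a * b = 1 → Valued.v (algebraMap KK (v.adicCompletion KK) (jK a)) = (1 : WithZero (Multiplicative ℤ)) := by
      intro a b hab
      have k1 : ∀ c : Eis, Valued.v (algebraMap KK (v.adicCompletion KK) (jK c)) ≤ (1 : WithZero (Multiplicative ℤ)) := by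
        intro c
        have k2 := HeightOneSpectrum.valuedAdicCompletion_eq_valuation' v (jK c)
        refine (le_of_eq k2).trans ?_
        rw [jK_apply]
        exact HeightOneSpectrum.valuation_le_one v _
      have k3 : Valued.v (algebraMap KK (v.adicCompletion KK) (jK a)) * Valued.v (algebraMap KK (v.adicCompletion KK) (jK b)) =
          (1 : WithZero (Multiplicative ℤ)) := by
        rw [← map_mul, ← map_mul, ← map_mul, hab, map_one, map_one, map_one]
      refine le_antisymm (k1 a) ?_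
      rw [← k3]
      exact mul_le_of_le_one_right' (k1 b)
    have hε := hun (-om ^ 2) (-om) (by decide)
    have h10 : (3 : v.adicCompletion KK) = algebraMap KK (v.adicCompletion KK) (jK (-om ^ 2)) *
        algebraMap KK (v.adicCompletion KK) (jK la) ^ 2 := by
      rw [← map_pow, ← map_pow, ← map_mul, ← map_mul, ← e3, map_ofNat, map_ofNat]
    obtain ⟨m, -, hm⟩ := cube_four v hl hε h10 hx
    exact ⟨_, hm.symm⟩

/-- the precision: `w (y³ - D) ≤ exp (-k)` gives `v (D / y³ - 1) ≤ exp (-4)` -/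
theorem L1a_prec (hD : D ≠ 0) (hQ : Cub D s σ) (w : HeightOneSpectrum (𝓞 F)) (hw : ∃ z : F, w.valuation F (σ z) ≠ w.valuation F z)
    (v : HeightOneSpectrum (𝓞 KK)) (φ : v.adicCompletion KK →+* w.adicCompletion F) (hB : Below v w φ) :
    ∃ y : KK, y ≠ 0 ∧ v.valuation KK (jK D / y ^ 3 - 1) ≤ WithZero.exp (-4 : ℤ) := by
  have hint : ∀ x : KK, v.valuation KK x ≤ 1 → w.valuation F (algebraMap KK F x) ≤ 1 := by
    intro x hx
    have h1 : Valued.v (algebraMap KK (v.adicCompletion KK) x) ≤ (1 : WithZero (Multiplicative ℤ)) :=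
      (le_of_eq (HeightOneSpectrum.valuedAdicCompletion_eq_valuation' v x)).trans hx
    have h2 := hB.int _ h1
    rw [hB.comm] at h2
    exact (le_of_eq (HeightOneSpectrum.valuedAdicCompletion_eq_valuation' w (algebraMap KK F x)).symm).trans h2
  obtain ⟨π, hπ⟩ := v.valuation_exists_uniformizer KK
  have hπ0 : π ≠ 0 := by
    rintro rfl
    rw [map_zero] at hπ
    exact absurd hπ.symm (by simp)
  have hs0 := s_ne hD hQ
  have hγ : w.valuation F (algebraMap KK F π) ^ 3 * w.valuation F s ^ 3 ≠ 0 := by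
    refine mul_ne_zero (pow_ne_zero 3 ?_) (pow_ne_zero 3 ?_)
    · rw [Valuation.ne_zero_iff, map_ne_zero]
      exact hπ0
    · rw [Valuation.ne_zero_iff]
      exact hs0
  obtain ⟨k, hk⟩ := L1a_exists_k _ hγ
  obtain ⟨hs, y, hy⟩ := L1a_near hD hQ w hw k
  have hπ1 : w.valuation F (algebraMap KK F π) ≤ 1 := by
    apply hint
    rw [hπ, ← WithZero.exp_zero, WithZero.exp_le_exp]
    norm_num
  have h1 : WithZero.exp (-(k : ℤ)) < w.valuation F s := by
    refine hk.trans_le ?_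
    have h2 : w.valuation F (algebraMap KK F π) ^ 3 ≤ 1 := pow_le_one' hπ1 3
    have h3 : w.valuation F s ^ 3 ≤ w.valuation F s := by
      have h4 : w.valuation F s ^ 3 = w.valuation F s ^ 2 * w.valuation F s := pow_succ _ 2
      rw [h4]
      exact mul_le_of_le_one_left' (pow_le_one' hs 2)
    exact (mul_le_of_le_one_left' h2).trans h3
  have hys : w.valuation F (algebraMap KK F y) = w.valuation F s := by
    have e : algebraMap KK F y = s + (algebraMap KK F y - s) := by ring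
    rw [e]
    exact Valuation.map_add_eq_of_lt_left _ (hy.trans_lt h1)
  have hy0 : y ≠ 0 := by
    rintro rfl
    rw [map_zero, map_zero] at hys
    exact hs0 ((Valuation.zero_iff _).1 hys.symm)
  refine ⟨y, hy0, ?_⟩
  have hyF : algebraMap KK F y ≠ 0 := by
    rw [map_ne_zero]
    exact hy0
  have h5 : w.valuation F (algebraMap KK F (jK D / y ^ 3 - 1)) * w.valuation F s ^ 3 ≤ WithZero.exp (-(k : ℤ)) := by
    rw [← hys, ← map_pow, ← map_mul]
    have e : algebraMap KK F (jK D / y ^ 3 - 1) * algebraMap KK F y ^ 3 =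
        -((algebraMap KK F y - s) * (algebraMap KK F y ^ 2 + algebraMap KK F y * s + s ^ 2)) := by
      rw [map_sub, map_div₀, map_pow, map_one, ← jF_apply, ← hQ.cu]
      field_simp
      ring
    rw [e, Valuation.map_neg, map_mul]
    refine mul_le_of_le_of_le_one hy ?_
    have hy1 : w.valuation F (algebraMap KK F y) ≤ 1 := hys.le.trans hs
    refine (Valuation.map_add _ _ _).trans (max_le ((Valuation.map_add _ _ _).trans (max_le ?_ ?_)) ?_)
    · rw [map_pow]
      exact pow_le_one' hy1 2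
    · rw [map_mul]
      exact mul_le_one' hy1 hs
    · rw [map_pow]
      exact pow_le_one' hs 2
  obtain ⟨X, hX⟩ : ∃ X : KK, X = jK D / y ^ 3 - 1 := ⟨_, rfl⟩
  rw [← hX] at h5 ⊢
  by_contra h6
  rw [not_le] at h6
  have hX0 : X ≠ 0 := by
    rintro rfl
    rw [map_zero] at h6
    exact absurd h6 (not_lt.2 zero_le)
  have hXv : v.valuation KK X ≠ 0 := (Valuation.ne_zero_iff _).2 hX0
  have h7 : v.valuation KK (π ^ 3 / X) ≤ 1 := by
    rw [map_div₀, map_pow, hπ]
    obtain ⟨n, hn⟩ : ∃ n : ℤ, v.valuation KK X = WithZero.exp n := ⟨WithZero.log (v.valuation KK X), (WithZero.exp_log hXv).symm⟩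
    rw [hn, WithZero.exp_lt_exp] at h6
    rw [hn, ← WithZero.exp_nsmul, ← WithZero.exp_sub, ← WithZero.exp_zero, WithZero.exp_le_exp]
    show 3 • (-1 : ℤ) - n ≤ 0
    rw [nsmul_eq_mul]
    push_cast
    omega
  have h8 := hint _ h7
  rw [map_div₀, map_div₀, map_pow, map_pow] at h8
  have hXw : 0 < w.valuation F (algebraMap KK F X) := by
    rw [zero_lt_iff, Valuation.ne_zero_iff, map_ne_zero]
    exact hX0
  have h9 : w.valuation F (algebraMap KK F π) ^ 3 ≤ w.valuation F (algebraMap KK F X) := by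
    rwa [div_le_one₀ hXw] at h8
  have h10 : w.valuation F (algebraMap KK F π) ^ 3 * w.valuation F s ^ 3 ≤ WithZero.exp (-(k : ℤ)) :=
    (mul_le_mul_left h9 _).trans h5
  exact absurd hk (not_lt.2 h10)

theorem L1a_val (v : HeightOneSpectrum (𝓞 KK)) (x : KK) {γ : WithZero (Multiplicative ℤ)} (h : v.valuation KK x ≤ γ) :
    Valued.v (algebraMap KK (v.adicCompletion KK) x) ≤ γ :=
  (le_of_eq (HeightOneSpectrum.valuedAdicCompletion_eq_valuation' v x)).trans h

theorem L1a_val_sub (v : HeightOneSpectrum (𝓞 KK)) (x : KK) {γ : WithZero (Multiplicative ℤ)} (h : v.valuation KK (x - 1) ≤ γ) :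
    Valued.v (algebraMap KK (v.adicCompletion KK) x - 1) ≤ γ := by
  have h1 := L1a_val v (x - 1) h
  have e : algebraMap KK (v.adicCompletion KK) (x - 1) = algebraMap KK (v.adicCompletion KK) x - 1 := by
    rw [map_sub, map_one]
  rwa [e] at h1

/-- [L1a] -/
theorem split_w (hD : D ≠ 0) (hQ : Cub D s σ) (w : HeightOneSpectrum (𝓞 F)) (hw : ∃ z : F, w.valuation F (σ z) ≠ w.valuation F z) :
    ∃ (v : HeightOneSpectrum (𝓞 KK)) (φ : v.adicCompletion KK →+* w.adicCompletion F), Below v w φ ∧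
      ∃ ρ : v.adicCompletion KK, ρ ^ 3 = algebraMap KK (v.adicCompletion KK) (jK D) ∧ φ ρ = algebraMap F (w.adicCompletion F) s := by
  obtain ⟨v, φ, hB⟩ := exists_Below w
  obtain ⟨y, hy0, hy⟩ := L1a_prec hD hQ w hw v φ hB
  refine ⟨v, φ, hB, ?_⟩
  obtain ⟨m, hm⟩ := L1a_cube v (x := algebraMap KK (v.adicCompletion KK) (jK D / y ^ 3)) (L1a_val_sub v _ hy)
  obtain ⟨ρ₀, hρ₀⟩ : ∃ ρ₀ : v.adicCompletion KK, ρ₀ ^ 3 = algebraMap KK (v.adicCompletion KK) (jK D) := by
    refine ⟨m * algebraMap KK (v.adicCompletion KK) y, ?_⟩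
    rw [mul_pow, hm, ← map_pow, ← map_mul, div_mul_cancel₀ _ (pow_ne_zero 3 hy0)]
  obtain ⟨o, ho⟩ : ∃ o : v.adicCompletion KK, o = algebraMap KK (v.adicCompletion KK) (jK om) := ⟨_, rfl⟩
  have ho3 : o ^ 3 = 1 := by
    rw [ho, ← map_pow, ← map_pow, show (om : Eis) ^ 3 = 1 by decide, map_one, map_one]
  have ho2 : o ^ 2 + o + 1 = 0 := by
    rw [ho, ← map_one (algebraMap KK (v.adicCompletion KK)), ← map_one jK, ← map_pow, ← map_pow, ← map_add, ← map_add, ← map_add,
      ← map_add, show (om : Eis) ^ 2 + om + 1 = 0 by decide, map_zero, map_zero]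
  have hφ3 : (φ ρ₀) ^ 3 = algebraMap F (w.adicCompletion F) s ^ 3 := by
    rw [← map_pow, hρ₀, hB.comm, ← jF_apply, ← map_pow, hQ.cu]
  have hf3 : (φ o) ^ 3 = 1 := by rw [← map_pow, ho3, map_one]
  have hf2 : (φ o) ^ 2 + φ o + 1 = 0 := by
    rw [← map_one φ, ← map_pow, ← map_add, ← map_add, ho2, map_zero]
  generalize algebraMap F (w.adicCompletion F) s = S at hφ3 ⊢
  have h1 : (φ ρ₀ - S) * ((φ ρ₀ - φ o * S) * (φ ρ₀ - φ o ^ 2 * S)) = 0 := by
    linear_combination hφ3 + (-(φ ρ₀) ^ 2 * S + φ ρ₀ * φ o * S ^ 2) * hf2 - S ^ 3 * hf3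
  rcases mul_eq_zero.1 h1 with h2 | h2
  · exact ⟨ρ₀, hρ₀, sub_eq_zero.1 h2⟩
  · rcases mul_eq_zero.1 h2 with h3 | h3
    · refine ⟨o ^ 2 * ρ₀, ?_, ?_⟩
      · linear_combination (o ^ 3 + 1) * ρ₀ ^ 3 * ho3 + hρ₀
      · rw [map_mul, map_pow, sub_eq_zero.1 h3]
        linear_combination S * hf3
    · refine ⟨o * ρ₀, ?_, ?_⟩
      · linear_combination ρ₀ ^ 3 * ho3 + hρ₀
      · rw [map_mul, sub_eq_zero.1 h3]
        linear_combination S * hf3

/-- [L1b] -/
theorem ev_fix (hD : D ≠ 0) (hQ : Cub D s σ) (w : HeightOneSpectrum (𝓞 F)) (hw : ∀ z : F, w.valuation F (σ z) = w.valuation F z)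
    {u : KK × KK × KK} (hu : nm (jK D) u ≠ 0) (hs : IsSquare (nm (jK D) u)) :
    ∃ g : WithZero (Multiplicative ℤ), w.valuation F (ev (mp (algebraMap KK F) u) s) = g ^ 2 := by
  obtain ⟨n, hn⟩ := hs
  have h1 := norm3 hD hQ u
  set α := ev (mp (algebraMap KK F) u) s with hα
  have hα0 : α ≠ 0 := (nm_ne_iff hD hQ u).1 hu
  have ha0 : w.valuation F α ≠ 0 := (Valuation.ne_zero_iff _).2 hα0
  have h2 := congrArg (w.valuation F) h1
  rw [map_mul, map_mul, hw (σ α), hw α, hn, map_mul, map_mul] at h2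
  refine ⟨w.valuation F (algebraMap KK F n) / w.valuation F α, ?_⟩
  rw [div_pow, eq_div_iff (pow_ne_zero 2 ha0), sq (w.valuation F (algebraMap KK F n)), ← h2, sq, ← mul_assoc]

/-- [L1c] -/
theorem below_sq {v : HeightOneSpectrum (𝓞 KK)} {w : HeightOneSpectrum (𝓞 F)} {φ : v.adicCompletion KK →+* w.adicCompletion F}
    (h : Below v w φ) {x : v.adicCompletion KK} (hx : ∃ g : WithZero (Multiplicative ℤ), Valued.v x = g ^ 2) :
    ∃ g : WithZero (Multiplicative ℤ), Valued.v (φ x) = g ^ 2 := by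
  obtain ⟨g, hg⟩ := hx
  by_cases hg0 : g = 0
  · have hx0 : x = 0 := by
      rw [hg0, zero_pow (by norm_num)] at hg
      exact (map_eq_zero _).1 hg
    exact ⟨0, by rw [hx0, map_zero, map_zero, zero_pow (by norm_num)]⟩
  obtain ⟨a, ha⟩ := v.valuation_surjective KK g
  set π : v.adicCompletion KK := algebraMap KK (v.adicCompletion KK) a with hπ
  have hvπ : Valued.v π = g := by
    rw [← ha]
    exact HeightOneSpectrum.valuedAdicCompletion_eq_valuation' v a
  have hπ0 : π ≠ 0 := by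
    intro h0
    rw [h0, map_zero] at hvπ
    exact hg0 hvπ.symm
  have hx0 : x ≠ 0 := by
    intro h0
    rw [h0, map_zero] at hg
    exact pow_ne_zero 2 hg0 hg.symm
  have ht : Valued.v (x / π ^ 2) = (1 : WithZero (Multiplicative ℤ)) := by
    rw [map_div₀, map_pow, hvπ, hg, div_self (pow_ne_zero 2 hg0)]
  have ht' : Valued.v (π ^ 2 / x) = (1 : WithZero (Multiplicative ℤ)) := by
    rw [map_div₀, map_pow, hvπ, hg, div_self (pow_ne_zero 2 hg0)]
  have k1 := h.int _ ht.le
  have k2 := h.int _ ht'.le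
  have hφx : φ x ≠ 0 := (map_ne_zero φ).2 hx0
  have hφπ : φ π ≠ 0 := (map_ne_zero φ).2 hπ0
  have z1 : Valued.v (φ x) ≠ (0 : WithZero (Multiplicative ℤ)) := (Valuation.ne_zero_iff _).2 hφx
  have z2 : Valued.v (φ π) ≠ (0 : WithZero (Multiplicative ℤ)) := (Valuation.ne_zero_iff _).2 hφπ
  rw [map_div₀, map_pow, map_div₀, map_pow] at k1 k2
  refine ⟨Valued.v (φ π), le_antisymm ?_ ?_⟩
  · exact (div_le_one₀ (zero_lt_iff.2 (pow_ne_zero 2 z2))).1 k1
  · exact (div_le_one₀ (zero_lt_iff.2 z1)).1 k2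

/-- [L1d] -/
theorem hom3 (hD : D ≠ 0) (hQ : Cub D s σ) {C : Type} [Field C] [Algebra KK C] {ρ : C} (hρ : ρ ^ 3 = algebraMap KK C (jK D)) :
    ∃ i : F →+* C, ∀ u : KK × KK × KK, i (ev (mp (algebraMap KK F) u) s) = ev (mp (algebraMap KK C) u) ρ := by
  choose U hU using exists_trip (F := F) hD hQ
  have hf : ∀ u : KK × KK × KK, U (ev (mp (algebraMap KK F) u) s) = u := by
    intro u
    exact (trip_inj hD hQ (hU (ev (mp (algebraMap KK F) u) s))).symm
  have hs3 : s ^ 3 = algebraMap KK F (jK D) := by rw [hQ.cu, jF_apply]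
  refine ⟨
    { toFun := fun z => ev (mp (algebraMap KK C) (U z)) ρ
      map_one' := ?_
      map_mul' := ?_
      map_zero' := ?_
      map_add' := ?_ }, fun u => ?_⟩
  · have h1 : (1 : F) = ev (mp (algebraMap KK F) ((1, 0, 0) : KK × KK × KK)) s := by
      simp only [ev, mp, map_one, map_zero]
      ring
    rw [h1, hf]
    simp only [ev, mp, map_one, map_zero]
    ring
  · intro x y
    have h1 : x * y = ev (mp (algebraMap KK F) (mu (jK D) (U x) (U y))) s := by
      rw [ev_mul hD hQ, ← hU x, ← hU y]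
    show ev (mp (algebraMap KK C) (U (x * y))) ρ = ev (mp (algebraMap KK C) (U x)) ρ * ev (mp (algebraMap KK C) (U y)) ρ
    rw [h1, hf, mp_mu, ev_mu hρ]
  · have h1 : (0 : F) = ev (mp (algebraMap KK F) ((0, 0, 0) : KK × KK × KK)) s := by
      simp only [ev, mp, map_zero]
      ring
    show ev (mp (algebraMap KK C) (U 0)) ρ = 0
    rw [h1, hf]
    simp only [ev, mp, map_zero]
    ring
  · intro x y
    have h1 : x + y = ev (mp (algebraMap KK F) (U x + U y)) s := by
      have h2 : ev (mp (algebraMap KK F) (U x + U y)) s =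
          ev (mp (algebraMap KK F) (U x)) s + ev (mp (algebraMap KK F) (U y)) s := by
        simp only [ev, mp, Prod.fst_add, Prod.snd_add, map_add]
        ring
      rw [h2, ← hU x, ← hU y]
    show ev (mp (algebraMap KK C) (U (x + y))) ρ = ev (mp (algebraMap KK C) (U x)) ρ + ev (mp (algebraMap KK C) (U y)) ρ
    rw [h1, hf]
    simp only [ev, mp, Prod.fst_add, Prod.snd_add, map_add]
    ring
  · show ev (mp (algebraMap KK C) (U (ev (mp (algebraMap KK F) u) s))) ρ = _
    rw [hf]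

/-- [L1e] -/
theorem val_of_ev (hD : D ≠ 0) (hQ : Cub D s σ) {u : KK × KK × KK} (hu : nm (jK D) u ≠ 0)
    (he : Ev (ev (mp (algebraMap KK F) u) s)) (v : HeightOneSpectrum (𝓞 KK)) {ρ : v.adicCompletion KK}
    (hρ : ρ ^ 3 = algebraMap KK (v.adicCompletion KK) (jK D)) :
    ∃ g : WithZero (Multiplicative ℤ), Valued.v (ev (mp (algebraMap KK (v.adicCompletion KK)) u) ρ) = g ^ 2 := by
  obtain ⟨i, hi⟩ := hom3 hD hQ hρ
  have hi' : ∀ x : KK, i (algebraMap KK F x) = algebraMap KK (v.adicCompletion KK) x := by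
    intro x
    have h := hi (x, 0, 0)
    simp only [ev, mp, map_zero, zero_mul, add_zero] at h
    exact h
  obtain ⟨w, hw⟩ := e6b_place v i hi'
  have hw1 : ∀ z : F, w.valuation F z = 1 → Valued.v (i z) = (1 : WithZero (Multiplicative ℤ)) := by
    intro z hz
    have hz0 : z ≠ 0 := by
      rintro rfl
      rw [map_zero] at hz
      exact zero_ne_one hz
    refine le_antisymm (hw z hz.le) ?_
    have h1 := hw z⁻¹ (by rw [map_inv₀, hz, inv_one])
    rw [map_inv₀, map_inv₀] at h1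
    have h0 : (Valued.v (i z) : WithZero (Multiplicative ℤ)) ≠ 0 :=
      (Valuation.ne_zero_iff _).2 ((map_ne_zero i).2 hz0)
    exact (inv_le_one₀ (zero_lt_iff.2 h0)).1 h1
  have hα0 : ev (mp (algebraMap KK F) u) s ≠ 0 := (nm_ne_iff hD hQ u).1 hu
  obtain ⟨g, hg⟩ := he w
  have hg0 : g ≠ 0 := by
    rintro rfl
    rw [zero_pow (by norm_num : (2 : ℕ) ≠ 0)] at hg
    exact hα0 ((map_eq_zero _).1 hg)
  obtain ⟨π, hπ⟩ := w.valuation_surjective F g
  have hπ0 : π ≠ 0 := by
    rintro rfl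
    rw [map_zero] at hπ
    exact hg0 hπ.symm
  set α := ev (mp (algebraMap KK F) u) s with hα
  have h1 : w.valuation F (α / π ^ 2) = 1 := by
    rw [map_div₀, map_pow, hg, hπ, div_self (pow_ne_zero _ hg0)]
  refine ⟨Valued.v (i π), ?_⟩
  have h2 := hw1 _ h1
  have h3 : α = α / π ^ 2 * π ^ 2 := by
    rw [div_mul_cancel₀ _ (pow_ne_zero _ hπ0)]
  rw [← hi, ← hα, h3, map_mul, map_mul, h2, one_mul, map_pow, map_pow]

end

end JT
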