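import Pool.Agent.JT.Alg
import Pool.Agent.JD.E1
import Pool.Agent.EQV.H8a

/-!
# [JT-L2] the places with `2 ∤ v` at which `d` is not a cube: every triple of square norm is a square

For `u = (u₀, u₁, u₂)`: `e₁ = 3 u₀`, `e₂ = 3 (u₀² - d u₁ u₂)`, `u³ - e₁ u² + e₂ u - nm u = 0` in `C[T]/(T³ - d)`. If `a² = u`, `b² = u'`, `c² = u''` (conjugates), `a b c = n`, then `r = a + b + c` is a root of `q(X) = X⁴ - 2 e₁ X² - 8 n X + (e₁² - 4 e₂)`.

PROOF.
`sqA_of_root`: `P = (r² - e₁)/2`, `P² = e₂ + 2 n r` (from `q(r) = 0`). In the algebra `(r u + n)² = u (u + P)²`: the difference is `u³ + (2 P - r²) u² + (P² - 2 n r) u - n² = u³ - e₁ u² + e₂ u - n² = 0`. `u + P` is invertible (its norm is not `0`; inverse `(g₀² - d g₁ g₂, d g₂² - g₀ g₁, g₁² - g₀ g₂) / nm d g`), `g = (r u + n) / (u + P)`, `g² = u`.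
`nm_noncube`: in an algebraic closure with a root `ρ` of `d`: `nm_ev`: one of the values `ev u ρ'` is `0`; the minimal polynomial of `ρ'` over `C` is `X³ - d` (irreducible, no root), so `u = 0`. (Or directly: if `u₀ + u₁ ρ + u₂ ρ² = 0`, `u ≠ 0`, then `ρ` satisfies an equation of degree `≤ 2` over `C`; `minpoly` has degree 3.)
`res_quartic` (finite field `k`, `2 ≠ 0`): hypothesis `hns`: every root of `χ = X³ - e₁ X² + e₂ X - n²` in `k` is a multiple root.
 Case A: `χ` has a root `a` in `k`. Then `χ = (X - a)(X² + ..)`, `a` a multiple root, so `χ = (X - a)² (X - b)` with `b ∈ k`, and `b` is a root, so also a multiple root: `b = a`. So `e₁ = 3 a`, `e₂ = 3 a²`, `n² = a³`, `a ≠ 0`, `b₀ = n / a`: `b₀² = n²/a² = a`, `b₀³ = b₀ a = n`. `r = 3 b₀`: `q(X) = (X - 3 b₀)(X + b₀)³`, `q'(3 b₀) = (4 b₀)³ ≠ 0`.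
 Case B: `χ` has no root in `k`, so it is irreducible; `M = AdjoinRoot χ` is a finite field with `q³` elements (`q = card k`), `α` the root, the roots of `χ` in `M` are `α, α^q, α^(q²)` (distinct; `FiniteField` Frobenius), `α^(1 + q + q²) = n²`, so `α ^ ((q³ - 1)/2) = (n²)^((q-1)/2) = 1` and `α = β²` (`FiniteField.isSquare_iff`). `N β = β^(1+q+q²)` is in `k` and
 `(N β)² = n²`; replacing `β` by `-β` we may assume `N β = n` (`1 + q + q²` is odd). `r = β + β^q + β^(q²)` is fixed by Frobenius, so in `k`; with `b = β^q`, `c = β^(q²)`: `e₁ = β² + b² + c²`, `e₂ = ..`, `n = β b c`: `q(r) = 0` and `q'(r) = 8 (β + b)(β + c)(b + c)` (identity), which is `≠ 0` since `β² , b², c²` are distinct.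
`hensel4`: as `JD.hensel3` (JD/E1.lean) for the monic quartic.
`ns_int`: let `χ = X³ - e₁ X² + e₂ X - n²`, `v n = 1`, without root in the completion `C`. Then `v e₁, v e₂ ≤ 1`: suppose not. If `v e₂ < v e₁`, `1 < v e₁`: `X = e₁ Z`: `Z³ - Z² + (e₂/e₁²) Z - n²/e₁³`: mod the maximal ideal `Z³ - Z²`, `Z = 1` is a simple root: `hensel3` gives a root, contradiction. If `v e₁ ≤ v e₂`, `1 < v e₂`:
 `X = n²/(e₂ W)`: `W³ - W² + (e₁ n²/e₂²) W - n⁴/e₂³ = 0`: simple root `W = 1` modulo the maximal ideal.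
`ns_unit`: for `v n = 1`: if `u` is a scalar (`u₁ = u₂ = 0`): `u₀³ = n²`, `u₀ = (n/u₀)²`. Otherwise `χ_u` has no root `x` in `C` (`nm d (u₀ - x, u₁, u₂) = χ..(x)` up to sign, and `nm_noncube`). `ns_int`: `e₁, e₂` integral. Reduce modulo the maximal ideal (residue field finite, `2 ≠ 0` there): `χ̄` has no simple root (`hensel3`), `res_quartic` gives a simple root of `q̄`, `hensel4` a root `r ∈ C`.
 `nm d (u + P) ≠ 0` by `nm_noncube` since `u` is not a scalar. `sqA_of_root`.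
`ns_sq`: `m` with `v n = exp (-m)`; `π` a uniformizer; `u' = u³ / π^(2 m)` (as triples: `mu u (mu u u)` times the scalar), `nm u' = (n³ / π^(3 m))²`, `v (n³/π^(3m)) = 1`: `ns_unit` for `u'`: `u³ = (π^m g)²`, so `u = (π^m g u^(-1))²` (`u` invertible).
-/

set_option autoImplicit false

open NumberField IsDedekindDomain
open scoped Classical

namespace JT

open CM27 CF JZ JD
open CU (la om eE)

/-- [L2a] -/
theorem sqA_of_root {C : Type} [Field C] (h2 : (2 : C) ≠ 0) {d : C} {u : C × C × C} {n r : C} (hn : nm d u = n ^ 2)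
    (hr : r ^ 4 - 2 * (3 * u.1) * r ^ 2 - 8 * n * r + ((3 * u.1) ^ 2 - 4 * (3 * (u.1 ^ 2 - d * u.2.1 * u.2.2))) = 0)
    (hP : nm d (u.1 + (r ^ 2 - 3 * u.1) / 2, u.2.1, u.2.2) ≠ 0) : SqA d u := by
  obtain ⟨u₀, u₁, u₂⟩ := u
  simp only at hr hP hn ⊢
  set P : C := (r ^ 2 - 3 * u₀) / 2 with hPdef
  have hP2 : 2 * P = r ^ 2 - 3 * u₀ := by
    rw [hPdef]
    field_simp
  have h4 : (4 : C) ≠ 0 := by
    have h : (4 : C) = 2 * 2 := by norm_num
    rw [h]
    exact mul_ne_zero h2 h2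
  have hPP : P ^ 2 = 3 * (u₀ ^ 2 - d * u₁ * u₂) + 2 * n * r := by
    apply mul_left_cancel₀ h4
    linear_combination hr + (2 * P + (r ^ 2 - 3 * u₀)) * hP2
  have hn' : u₀ ^ 3 + d * u₁ ^ 3 + d ^ 2 * u₂ ^ 3 - 3 * d * u₀ * u₁ * u₂ = n ^ 2 := hn
  set N : C := nm d (u₀ + P, u₁, u₂) with hN
  have hN' : (u₀ + P) ^ 3 + d * u₁ ^ 3 + d ^ 2 * u₂ ^ 3 - 3 * d * (u₀ + P) * u₁ * u₂ = N := hN.symm
  set w : C × C × C := (u₀ + P, u₁, u₂) with hw
  set z : C × C × C := (((u₀ + P) ^ 2 - d * u₁ * u₂) / N, (d * u₂ ^ 2 - (u₀ + P) * u₁) / N, (u₁ ^ 2 - (u₀ + P) * u₂) / N) with hz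
  set A : C × C × C := (r * u₀ + n, r * u₁, r * u₂) with hA
  have h1 : mu d w z = (1, 0, 0) := by
    simp only [hw, hz, mu, Prod.mk.injEq]
    refine ⟨?_, ?_, ?_⟩
    · field_simp
      linear_combination hN'
    · field_simp
      ring
    · field_simp
      ring
  have h3 : mu d A A = mu d (u₀, u₁, u₂) (mu d w w) := by
    simp only [hA, hw, mu, Prod.mk.injEq]
    refine ⟨?_, ?_, ?_⟩
    · linear_combination -hn' - (u₀ ^ 2 + 2 * d * u₁ * u₂) * hP2 - u₀ * hPP
    · linear_combination -(2 * u₀ * u₁ + d * u₂ ^ 2) * hP2 - u₁ * hPP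
    · linear_combination -(2 * u₀ * u₂ + u₁ ^ 2) * hP2 - u₂ * hPP
  have hone : ∀ v : C × C × C, mu d v (1, 0, 0) = v := by
    intro v
    simp only [mu]
    refine Prod.ext ?_ (Prod.ext ?_ ?_) <;> simp
  refine ⟨mu d A z, ?_⟩
  calc ((u₀, u₁, u₂) : C × C × C) = mu d (u₀, u₁, u₂) (mu d (mu d w z) (mu d w z)) := by
        rw [h1, hone, hone]
    _ = mu d (mu d (u₀, u₁, u₂) (mu d w w)) (mu d z z) := by
        rw [mu_assoc, mu_assoc, mu_assoc, mu_comm d z (mu d w z), mu_assoc]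
    _ = mu d (mu d A A) (mu d z z) := by rw [h3]
    _ = mu d (mu d A z) (mu d A z) := by
        rw [mu_assoc, mu_assoc, mu_comm d z (mu d A z), mu_assoc]

/-- [L2a] -/
theorem nm_noncube {C : Type} [Field C] [CharZero C] {d o : C} (ho : o ^ 2 + o + 1 = 0) (hnc : ∀ x : C, x ^ 3 ≠ d) {u : C × C × C}
    (h : nm d u = 0) : u = (0, 0, 0) := by
  obtain ⟨u₀, u₁, u₂⟩ := u
  let L := AlgebraicClosure C
  have : CharZero L := charZero_of_injective_algebraMap (algebraMap C L).injective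
  obtain ⟨ρ₀, h₀⟩ := IsAlgClosed.exists_pow_nat_eq (algebraMap C L d) (n := 3) (by norm_num)
  have hoL : algebraMap C L o ^ 2 + algebraMap C L o + 1 = 0 := CUD.am_o ho
  have h1 := nm_ev hoL h₀ (mp (algebraMap C L) (u₀, u₁, u₂))
  rw [mp_nm, h, map_zero] at h1
  have h2 : ∃ ρ : L, ρ ^ 3 = algebraMap C L d ∧ ev (mp (algebraMap C L) (u₀, u₁, u₂)) ρ = 0 := by
    rcases mul_eq_zero.1 h1 with h3 | h3
    · rcases mul_eq_zero.1 h3 with h4 | h4
      · exact ⟨_, h₀, h4⟩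
      · exact ⟨_, root_om hoL h₀, h4⟩
    · exact ⟨_, root_om2 hoL h₀, h3⟩
  obtain ⟨ρ, hρ, hev⟩ := h2
  have hirr : Irreducible (Polynomial.X ^ 3 - Polynomial.C d : Polynomial C) :=
    X_pow_sub_C_irreducible_of_prime Nat.prime_three hnc
  have hmin : (Polynomial.X ^ 3 - Polynomial.C d : Polynomial C) = minpoly C ρ := by
    refine minpoly.eq_of_irreducible_of_monic hirr ?_ (Polynomial.monic_X_pow_sub_C d (by norm_num))
    simp [hρ]
  let p : Polynomial C := Polynomial.C u₀ + Polynomial.C u₁ * Polynomial.X + Polynomial.C u₂ * Polynomial.X ^ 2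
  have hp : Polynomial.aeval ρ p = 0 := by
    simp only [p, map_add, map_mul, map_pow, Polynomial.aeval_C, Polynomial.aeval_X]
    exact hev
  have hp0 : p = 0 := by
    by_contra hne
    have h5 := Polynomial.natDegree_le_of_dvd (minpoly.dvd C ρ hp) hne
    rw [← hmin, Polynomial.natDegree_X_pow_sub_C] at h5
    have h6 : p.natDegree ≤ 2 := by
      simp only [p]
      compute_degree
    omega
  have c0 := congrArg (fun q => Polynomial.coeff q 0) hp0
  have c1 := congrArg (fun q => Polynomial.coeff q 1) hp0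
  have c2 := congrArg (fun q => Polynomial.coeff q 2) hp0
  simp [p, Polynomial.coeff_X, Polynomial.coeff_C] at c0 c1 c2
  rw [c0, c1, c2]

/-- [L2b] a root of the residual cubic -/
theorem l2b_A {k : Type} [Field k] (h2 : (2 : k) ≠ 0) {e₁ e₂ n : k} (hn : n ≠ 0)
    (hns : ∀ x : k, x ^ 3 - e₁ * x ^ 2 + e₂ * x - n ^ 2 = 0 → 3 * x ^ 2 - 2 * e₁ * x + e₂ = 0) {a : k}
    (ha : a ^ 3 - e₁ * a ^ 2 + e₂ * a - n ^ 2 = 0) :
    ∃ r : k, r ^ 4 - 2 * e₁ * r ^ 2 - 8 * n * r + (e₁ ^ 2 - 4 * e₂) = 0 ∧ 4 * r ^ 3 - 4 * e₁ * r - 8 * n ≠ 0 := by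
  have ha1 := hns a ha
  have hb : (e₁ - 2 * a) ^ 3 - e₁ * (e₁ - 2 * a) ^ 2 + e₂ * (e₁ - 2 * a) - n ^ 2 = 0 := by
    linear_combination ha + (e₁ - 2 * a - a) * ha1
  have hb1 := hns _ hb
  have h3 : (e₁ - 3 * a) ^ 2 = 0 := by
    linear_combination hb1 - ha1
  have he1 : e₁ = 3 * a := by
    have := pow_eq_zero_iff (two_ne_zero) |>.1 h3
    linear_combination this
  have he2 : e₂ = 3 * a ^ 2 := by
    rw [he1] at ha1
    linear_combination ha1
  have hn2 : n ^ 2 = a ^ 3 := by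
    rw [he1, he2] at ha
    linear_combination (-1 : k) * ha
  have ha0 : a ≠ 0 := by
    rintro rfl
    apply hn
    have : n ^ 2 = 0 := by rw [hn2]; ring
    exact pow_eq_zero_iff two_ne_zero |>.1 this
  have hr : (3 * n / a) ^ 2 = 9 * a := by
    rw [div_pow, div_eq_iff (pow_ne_zero 2 ha0)]
    linear_combination 9 * hn2
  have hr' : n * (3 * n / a) = 3 * a ^ 2 := by
    rw [mul_div_assoc', div_eq_iff ha0]
    linear_combination 3 * hn2
  refine ⟨3 * n / a, ?_, ?_⟩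
  · have h4 : (3 * n / a) ^ 4 = 81 * a ^ 2 := by
      have : (3 * n / a) ^ 4 = ((3 * n / a) ^ 2) ^ 2 := by ring
      rw [this, hr]
      ring
    rw [h4, hr, he1, he2]
    linear_combination (-8 : k) * hr'
  · have h5 : 4 * (3 * n / a) ^ 3 - 4 * e₁ * (3 * n / a) - 8 * n = 2 ^ 6 * n := by
      have : 4 * (3 * n / a) ^ 3 - 4 * e₁ * (3 * n / a) - 8 * n = (4 * (3 * n / a) ^ 2 - 4 * e₁) * (3 * n / a) - 8 * n := by ring
      rw [this, hr, he1]
      field_simp
      ring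
    rw [h5]
    exact mul_ne_zero (pow_ne_zero 6 h2) hn

theorem l2b_fix {k M : Type} [Field k] [Fintype k] [Field M] [Algebra k M] {x : M} (hx : x ^ Fintype.card k = x) :
    ∃ y : k, algebraMap k M y = x := by
  have h1 : ((Polynomial.X ^ Fintype.card k - Polynomial.X : Polynomial k)) ≠ 0 :=
    FiniteField.X_pow_card_sub_X_ne_zero k Fintype.one_lt_card
  have h2 : (Polynomial.X ^ Fintype.card k - Polynomial.X : Polynomial k).roots.card =
      (Polynomial.X ^ Fintype.card k - Polynomial.X : Polynomial k).natDegree := by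
    rw [FiniteField.roots_X_pow_card_sub_X, FiniteField.X_pow_card_sub_X_natDegree_eq k Fintype.one_lt_card]
    rfl
  have h3 := Polynomial.C_leadingCoeff_mul_prod_multiset_X_sub_C h2
  have h4 := congrArg (Polynomial.aeval x) h3
  rw [map_sub, map_pow, Polynomial.aeval_X, hx, sub_self, map_mul, mul_eq_zero] at h4
  rcases h4 with h4 | h4
  · rw [Polynomial.aeval_C, map_eq_zero, Polynomial.leadingCoeff_eq_zero] at h4
    exact absurd h4 h1
  · rw [map_multiset_prod, Multiset.prod_eq_zero_iff, Multiset.mem_map] at h4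
    obtain ⟨p, hp, hp'⟩ := h4
    rw [Multiset.mem_map] at hp
    obtain ⟨y, -, rfl⟩ := hp
    refine ⟨y, ?_⟩
    rw [map_sub, Polynomial.aeval_X, Polynomial.aeval_C, sub_eq_zero] at hp'
    exact hp'.symm

/-- symmetric functions of three different roots -/
theorem l2b_sym {M : Type} [Field M] {x y z e₁ e₂ m : M} (hxy : x ≠ y) (hxz : x ≠ z) (hyz : y ≠ z)
    (hx : x ^ 3 - e₁ * x ^ 2 + e₂ * x - m = 0) (hy : y ^ 3 - e₁ * y ^ 2 + e₂ * y - m = 0)
    (hz : z ^ 3 - e₁ * z ^ 2 + e₂ * z - m = 0) : e₁ = x + y + z ∧ e₂ = x * y + x * z + y * z ∧ m = x * y * z := by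
  have h1 : x ^ 2 + x * y + y ^ 2 - e₁ * (x + y) + e₂ = 0 := by
    apply mul_left_cancel₀ (sub_ne_zero.2 hxy)
    linear_combination hx - hy
  have h2 : x ^ 2 + x * z + z ^ 2 - e₁ * (x + z) + e₂ = 0 := by
    apply mul_left_cancel₀ (sub_ne_zero.2 hxz)
    linear_combination hx - hz
  have h3 : e₁ = x + y + z := by
    apply mul_left_cancel₀ (sub_ne_zero.2 hyz)
    linear_combination h2 - h1
  have h4 : e₂ = x * y + x * z + y * z := by
    rw [h3] at h1
    linear_combination h1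
  refine ⟨h3, h4, ?_⟩
  rw [h3, h4] at hx
  linear_combination (-1 : M) * hx

/-- [L2b] the irreducible case -/
theorem l2b_B {k : Type} [Field k] [Fintype k] (h2 : (2 : k) ≠ 0) {e₁ e₂ n : k} (hn : n ≠ 0)
    (hns : ∀ x : k, x ^ 3 - e₁ * x ^ 2 + e₂ * x - n ^ 2 ≠ 0) :
    ∃ r : k, r ^ 4 - 2 * e₁ * r ^ 2 - 8 * n * r + (e₁ ^ 2 - 4 * e₂) = 0 ∧ 4 * r ^ 3 - 4 * e₁ * r - 8 * n ≠ 0 := by
  set χ : Polynomial k := Polynomial.X ^ 3 + Polynomial.C (-e₁) * Polynomial.X ^ 2 + Polynomial.C e₂ * Polynomial.X +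
    Polynomial.C (-n ^ 2) with hχ
  have hm : χ.Monic := by rw [hχ]; monicity!
  have hdeg : χ.natDegree = 3 := by rw [hχ]; compute_degree!
  have hirr : Irreducible χ := by
    rw [hm.irreducible_iff_roots_eq_zero_of_degree_le_three (by omega) (by omega)]
    by_contra hne
    obtain ⟨x, hx⟩ := Multiset.exists_mem_of_ne_zero hne
    rw [Polynomial.mem_roots hm.ne_zero, Polynomial.IsRoot.def] at hx
    apply hns x
    rw [hχ] at hx
    simp only [Polynomial.eval_add, Polynomial.eval_mul, Polynomial.eval_pow, Polynomial.eval_X, Polynomial.eval_C] at hx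
    linear_combination hx
  have hev : ∀ (M' : Type) [Field M'] [Algebra k M'] (a' : M'), Polynomial.aeval a' χ =
      a' ^ 3 - algebraMap k M' e₁ * a' ^ 2 + algebraMap k M' e₂ * a' - algebraMap k M' (n ^ 2) := by
    intro M' _ _ a'
    rw [hχ]
    simp only [map_add, map_mul, map_pow, Polynomial.aeval_X, Polynomial.aeval_C, map_neg]
    ring
  have : Fact (Irreducible χ) := ⟨hirr⟩
  set M := AdjoinRoot χ with hM
  have hfd : Module.Finite k M := Module.Finite.of_basis (AdjoinRoot.powerBasis hm.ne_zero).basis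
  have hfr : Module.finrank k M = 3 := by
    rw [(AdjoinRoot.powerBasis hm.ne_zero).finrank, AdjoinRoot.powerBasis_dim, hdeg]
  have hfin : Finite M := Module.finite_of_finite k
  have hft : Fintype M := Fintype.ofFinite M
  set q := Fintype.card k with hq
  have hcard : Fintype.card M = q ^ 3 := by
    rw [← hfr]
    exact Module.card_eq_pow_finrank
  set a : M := AdjoinRoot.root χ with ha
  set i := algebraMap k M with hi
  have hroot : a ^ 3 - i e₁ * a ^ 2 + i e₂ * a - i (n ^ 2) = 0 := by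
    have h5 : Polynomial.aeval a χ = 0 := by
      rw [ha, AdjoinRoot.aeval_eq, AdjoinRoot.mk_self]
    rw [hev] at h5
    exact h5
  set φ := FiniteField.frobeniusAlgHom k M with hφ
  have hφx : ∀ x : M, φ x = x ^ q := fun x => rfl
  have hφi : Function.Injective φ := φ.toRingHom.injective
  have hroot' : ∀ x : M, x ^ 3 - i e₁ * x ^ 2 + i e₂ * x - i (n ^ 2) = 0 →
      (φ x) ^ 3 - i e₁ * (φ x) ^ 2 + i e₂ * (φ x) - i (n ^ 2) = 0 := by
    intro x hx
    have h5 := congrArg φ hx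
    rw [map_zero, map_sub, map_add, map_sub, map_mul, map_mul, map_pow, map_pow, hi, φ.commutes, φ.commutes, φ.commutes] at h5
    exact h5
  have hφ3 : ∀ x : M, φ (φ (φ x)) = x := by
    intro x
    rw [hφx, hφx, hφx, ← pow_mul, ← pow_mul]
    have h5 : q * (q * q) = Fintype.card M := by rw [hcard]; ring
    rw [h5]
    exact FiniteField.pow_card x
  have hr1 := hroot' a hroot
  have hr2 := hroot' _ hr1
  have hne1 : a ≠ φ a := by
    intro h5
    obtain ⟨y, hy⟩ := l2b_fix (k := k) (x := a) (by rw [← hφx]; exact h5.symm)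
    apply hns y
    apply i.injective
    rw [map_zero, map_sub, map_add, map_sub, map_mul, map_mul, map_pow, map_pow, hi, hy]
    exact hroot
  have hne2 : a ≠ φ (φ a) := by
    intro h5
    apply hne1
    have h6 := congrArg φ h5
    rw [hφ3] at h6
    exact h6.symm
  have hne3 : φ a ≠ φ (φ a) := fun h5 => hne1 (hφi h5)
  obtain ⟨s1, s2, s3⟩ := l2b_sym hne1 hne2 hne3 hroot hr1 hr2
  have h2M : (2 : M) ≠ 0 := by
    intro h5
    apply h2
    apply i.injective
    rw [map_ofNat, h5, map_zero]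
  have hodd : q % 2 = 1 := by
    rw [hq]
    refine FiniteField.odd_card_of_char_ne_two ?_
    intro h5
    have := ringChar.Nat.cast_ringChar (R := k)
    rw [h5] at this
    exact h2 (by exact_mod_cast this)
  have hchM : ringChar M ≠ 2 := by
    intro h5
    have := ringChar.Nat.cast_ringChar (R := M)
    rw [h5] at this
    exact h2M (by exact_mod_cast this)
  have hin : i n ≠ 0 := (map_ne_zero _).2 hn
  have ha0 : a ≠ 0 := by
    intro h5
    rw [h5, zero_mul, zero_mul, map_pow] at s3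
    exact hin (pow_eq_zero_iff two_ne_zero |>.1 s3)
  obtain ⟨h, hh⟩ : ∃ h : ℕ, q = 2 * h + 1 := ⟨q / 2, by omega⟩
  have hsq : IsSquare a := by
    rw [FiniteField.isSquare_iff hchM ha0, hcard]
    have h5 : q ^ 3 / 2 = (1 + q + q * q) * h := by
      have h6 : q ^ 3 = 2 * ((1 + q + q * q) * h) + 1 := by
        rw [hh]
        ring
      omega
    rw [h5, pow_mul]
    have h6 : a ^ (1 + q + q * q) = i (n ^ 2) := by
      rw [s3, hφx, hφx, pow_add, pow_add, pow_one, ← pow_mul]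
    rw [h6, ← map_pow, ← pow_mul]
    have h7 : n ^ (2 * h) = 1 := by
      have h8 := FiniteField.pow_card_sub_one_eq_one n hn
      have h9 : Fintype.card k - 1 = 2 * h := by
        rw [← hq, hh]
        rfl
      rwa [h9] at h8
    rw [h7, map_one]
  obtain ⟨b, hb, hbn⟩ : ∃ b : M, a = b ^ 2 ∧ b * φ b * φ (φ b) = i n := by
    obtain ⟨b, hb⟩ := hsq
    have h5 : (b * φ b * φ (φ b)) ^ 2 = (i n) ^ 2 := by
      rw [← map_pow, s3, hb, map_mul, map_mul]
      ring
    rcases sq_eq_sq_iff_eq_or_eq_neg.1 h5 with h6 | h6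
    · exact ⟨b, by rw [hb]; ring, h6⟩
    · refine ⟨-b, by rw [hb]; ring, ?_⟩
      rw [map_neg, map_neg]
      linear_combination (-1 : M) * h6
  obtain ⟨r, hr⟩ := l2b_fix (k := k) (x := b + φ b + φ (φ b)) (by
    rw [← hφx, map_add, map_add, hφ3]
    ring)
  have t1 : i e₁ = b ^ 2 + (φ b) ^ 2 + (φ (φ b)) ^ 2 := by
    rw [s1, hb, map_pow, map_pow]
  have t2 : i e₂ = b ^ 2 * (φ b) ^ 2 + b ^ 2 * (φ (φ b)) ^ 2 + (φ b) ^ 2 * (φ (φ b)) ^ 2 := by
    rw [s2, hb, map_pow, map_pow]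
  have hd1 : b ^ 2 ≠ (φ b) ^ 2 := by
    rw [← map_pow, ← hb]
    exact hne1
  have hd2 : b ^ 2 ≠ (φ (φ b)) ^ 2 := by
    rw [← map_pow, ← map_pow, ← hb]
    exact hne2
  have hd3 : (φ b) ^ 2 ≠ (φ (φ b)) ^ 2 := by
    rw [← map_pow, ← map_pow, ← map_pow, ← hb]
    exact hne3
  refine ⟨r, ?_, ?_⟩
  · apply i.injective
    rw [map_zero]
    simp only [map_add, map_sub, map_mul, map_pow, map_ofNat]
    rw [show i r = _ from hr, t1, t2, ← hbn]
    ring
  · intro h5
    have h6 := congrArg i h5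
    rw [map_zero] at h6
    simp only [map_sub, map_mul, map_pow, map_ofNat] at h6
    rw [show i r = _ from hr, t1, ← hbn] at h6
    have h7 : (2 : M) ^ 3 * ((b + φ b) * ((b + φ (φ b)) * (φ b + φ (φ b)))) = 0 := by
      linear_combination h6
    rcases mul_eq_zero.1 h7 with h8 | h8
    · exact pow_ne_zero 3 h2M h8
    · rcases mul_eq_zero.1 h8 with h9 | h9
      · apply hd1
        linear_combination (b - φ b) * h9
      · rcases mul_eq_zero.1 h9 with h9 | h9
        · apply hd2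
          linear_combination (b - φ (φ b)) * h9
        · apply hd3
          linear_combination (φ b - φ (φ b)) * h9

/-- [L2b] -/
theorem res_quartic {k : Type} [Field k] [Finite k] (h2 : (2 : k) ≠ 0) {e₁ e₂ n : k} (hn : n ≠ 0)
    (hns : ∀ x : k, x ^ 3 - e₁ * x ^ 2 + e₂ * x - n ^ 2 = 0 → 3 * x ^ 2 - 2 * e₁ * x + e₂ = 0) :
    ∃ r : k, r ^ 4 - 2 * e₁ * r ^ 2 - 8 * n * r + (e₁ ^ 2 - 4 * e₂) = 0 ∧ 4 * r ^ 3 - 4 * e₁ * r - 8 * n ≠ 0 := by
  by_cases h : ∃ a : k, a ^ 3 - e₁ * a ^ 2 + e₂ * a - n ^ 2 = 0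
  · obtain ⟨a, ha⟩ := h
    exact l2b_A h2 hn hns ha
  · have : Fintype k := Fintype.ofFinite k
    exact l2b_B h2 hn fun x hx => h ⟨x, hx⟩

section
variable {v : HeightOneSpectrum (𝓞 KK)}

/-- [L2c] -/
theorem hensel4 {a b c t x₀ : v.adicCompletion KK} (ha : Valued.v a ≤ (1 : WithZero (Multiplicative ℤ)))
    (hb : Valued.v b ≤ (1 : WithZero (Multiplicative ℤ))) (hc : Valued.v c ≤ (1 : WithZero (Multiplicative ℤ)))
    (ht : Valued.v t ≤ (1 : WithZero (Multiplicative ℤ))) (hx : Valued.v x₀ ≤ (1 : WithZero (Multiplicative ℤ)))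
    (h0 : Valued.v (x₀ ^ 4 + a * x₀ ^ 3 + b * x₀ ^ 2 + c * x₀ + t) < (1 : WithZero (Multiplicative ℤ)))
    (h1 : Valued.v (4 * x₀ ^ 3 + 3 * a * x₀ ^ 2 + 2 * b * x₀ + c) = (1 : WithZero (Multiplicative ℤ))) :
    ∃ x : v.adicCompletion KK, x ^ 4 + a * x ^ 3 + b * x ^ 2 + c * x + t = 0 ∧
      Valued.v (x - x₀) < (1 : WithZero (Multiplicative ℤ)) := by
  have hhens := CUD.c12a_hens KK v
  have hint : (Valued.v : Valuation (v.adicCompletion KK) _).Integers (v.adicCompletionIntegers KK) :=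
    Valuation.valuationSubring.integers _
  set A : v.adicCompletionIntegers KK := ⟨a, ha⟩ with hA
  set B : v.adicCompletionIntegers KK := ⟨b, hb⟩ with hB
  set D : v.adicCompletionIntegers KK := ⟨c, hc⟩ with hD
  set T : v.adicCompletionIntegers KK := ⟨t, ht⟩ with hT
  set X₀ : v.adicCompletionIntegers KK := ⟨x₀, hx⟩ with hX₀
  obtain ⟨s, hs, hs'⟩ := hhens.is_henselian
    (Polynomial.X ^ 4 + Polynomial.C A * Polynomial.X ^ 3 + Polynomial.C B * Polynomial.X ^ 2 +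
      Polynomial.C D * Polynomial.X + Polynomial.C T)
    (by monicity!) X₀ (by
      have h4 : Polynomial.eval X₀ (Polynomial.X ^ 4 + Polynomial.C A * Polynomial.X ^ 3 + Polynomial.C B * Polynomial.X ^ 2 +
          Polynomial.C D * Polynomial.X + Polynomial.C T) = X₀ ^ 4 + A * X₀ ^ 3 + B * X₀ ^ 2 + D * X₀ + T := by simp
      rw [h4]
      refine (Valuation.mem_maximalIdeal_iff _ _).2 ?_
      exact h0) (by
      have h4 : Polynomial.eval X₀ (Polynomial.derivative (Polynomial.X ^ 4 + Polynomial.C A * Polynomial.X ^ 3 +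
          Polynomial.C B * Polynomial.X ^ 2 + Polynomial.C D * Polynomial.X + Polynomial.C T)) =
          4 * X₀ ^ 3 + 3 * A * X₀ ^ 2 + 2 * B * X₀ + D := by
        simp
        ring
      rw [h4, hint.isUnit_iff_valuation_eq_one]
      exact h1)
  refine ⟨(s : v.adicCompletion KK), ?_, ?_⟩
  · have h4 : s ^ 4 + A * s ^ 3 + B * s ^ 2 + D * s + T = 0 := by
      have h5 := hs
      rw [Polynomial.IsRoot.def] at h5
      simpa only [Polynomial.eval_add, Polynomial.eval_mul, Polynomial.eval_pow, Polynomial.eval_X, Polynomial.eval_C] using h5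
    exact congrArg (fun x : v.adicCompletionIntegers KK => (x : v.adicCompletion KK)) h4
  · exact (Valuation.mem_maximalIdeal_iff _ _).1 hs'

/-- [L2c] -/
theorem l2c_h {q t : v.adicCompletion KK} (hq : Valued.v q < (1 : WithZero (Multiplicative ℤ)))
    (ht : Valued.v t < (1 : WithZero (Multiplicative ℤ))) :
    ∃ x : v.adicCompletion KK, x ^ 3 - x ^ 2 + q * x + t = 0 ∧ x ≠ 0 := by
  obtain ⟨x, hx, hx'⟩ := hensel3 v (p := -1) (q := q) (t := t) (x₀ := 1) (by rw [Valuation.map_neg, map_one]) hq.le ht.le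
    (by rw [map_one]) (by
      have h5 : (1 : v.adicCompletion KK) ^ 3 + -1 * 1 ^ 2 + q * 1 + t = q + t := by ring
      rw [h5]
      exact Valuation.map_add_lt _ hq ht) (by
      have h5 : 3 * (1 : v.adicCompletion KK) ^ 2 + 2 * -1 * 1 + q = 1 + q := by ring
      rw [h5, Valuation.map_add_eq_of_lt_left _ (by rw [map_one]; exact hq), map_one])
  refine ⟨x, by linear_combination hx, ?_⟩
  rintro rfl
  rw [zero_sub, Valuation.map_neg, map_one] at hx'
  exact lt_irrefl _ hx'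

/-- [L2c] -/
theorem ns_int {e₁ e₂ n : v.adicCompletion KK} (hn : Valued.v n = (1 : WithZero (Multiplicative ℤ)))
    (hroot : ∀ x : v.adicCompletion KK, x ^ 3 - e₁ * x ^ 2 + e₂ * x - n ^ 2 ≠ 0) :
    Valued.v e₁ ≤ (1 : WithZero (Multiplicative ℤ)) ∧ Valued.v e₂ ≤ (1 : WithZero (Multiplicative ℤ)) := by
  by_contra hcon
  rcases lt_or_ge (Valued.v e₂) (Valued.v e₁) with h | h
  · have h1 : (1 : WithZero (Multiplicative ℤ)) < Valued.v e₁ := by
      by_contra h2
      exact hcon ⟨not_lt.1 h2, h.le.trans (not_lt.1 h2)⟩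
    have h0 : e₁ ≠ 0 := by
      rintro rfl
      rw [map_zero] at h1
      exact absurd h1 (not_lt.2 zero_le)
    have hp : (0 : WithZero (Multiplicative ℤ)) < Valued.v e₁ := lt_trans zero_lt_one h1
    obtain ⟨z, hz, -⟩ := l2c_h (v := v) (q := e₂ / e₁ ^ 2) (t := -(n ^ 2 / e₁ ^ 3)) (by
      rw [map_div₀, map_pow, div_lt_one₀ (pow_pos hp 2), sq]
      exact lt_of_lt_of_le h (le_mul_of_one_le_right' h1.le)) (by
      rw [Valuation.map_neg, map_div₀, map_pow, map_pow, hn, one_pow, div_lt_one₀ (pow_pos hp 3)]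
      exact one_lt_pow' h1 (by norm_num))
    apply hroot (e₁ * z)
    have h5 : (e₁ * z) ^ 3 - e₁ * (e₁ * z) ^ 2 + e₂ * (e₁ * z) - n ^ 2 =
        e₁ ^ 3 * (z ^ 3 - z ^ 2 + e₂ / e₁ ^ 2 * z + -(n ^ 2 / e₁ ^ 3)) := by
      field_simp
      ring
    rw [h5, hz, mul_zero]
  · have h1 : (1 : WithZero (Multiplicative ℤ)) < Valued.v e₂ := by
      by_contra h2
      exact hcon ⟨h.trans (not_lt.1 h2), not_lt.1 h2⟩
    have h0 : e₂ ≠ 0 := by
      rintro rfl
      rw [map_zero] at h1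
      exact absurd h1 (not_lt.2 zero_le)
    have hn0 : n ≠ 0 := by
      rintro rfl
      rw [map_zero] at hn
      exact zero_ne_one hn
    have hp : (0 : WithZero (Multiplicative ℤ)) < Valued.v e₂ := lt_trans zero_lt_one h1
    obtain ⟨w, hw, hw0⟩ := l2c_h (v := v) (q := e₁ * n ^ 2 / e₂ ^ 2) (t := -(n ^ 4 / e₂ ^ 3)) (by
      rw [map_div₀, map_mul, map_pow, map_pow, hn, one_pow, mul_one, div_lt_one₀ (pow_pos hp 2), sq]
      exact lt_of_le_of_lt h (lt_mul_of_one_lt_right hp h1)) (by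
      rw [Valuation.map_neg, map_div₀, map_pow, map_pow, hn, one_pow, div_lt_one₀ (pow_pos hp 3)]
      exact one_lt_pow' h1 (by norm_num))
    apply hroot (n ^ 2 / (e₂ * w))
    have h5 : (n ^ 2 / (e₂ * w)) ^ 3 - e₁ * (n ^ 2 / (e₂ * w)) ^ 2 + e₂ * (n ^ 2 / (e₂ * w)) - n ^ 2 =
        -(n ^ 2 / w ^ 3) * (w ^ 3 - w ^ 2 + e₁ * n ^ 2 / e₂ ^ 2 * w + -(n ^ 4 / e₂ ^ 3)) := by
      field_simp
      ring
    rw [h5, hw, mul_zero]

/-- [L2d] -/
theorem l2d_val2 (h2 : v.valuation KK 2 = 1) : Valued.v (2 : v.adicCompletion KK) = (1 : WithZero (Multiplicative ℤ)) := by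
  have h : Valued.v (algebraMap KK (v.adicCompletion KK) 2) = v.valuation KK 2 :=
    HeightOneSpectrum.valuedAdicCompletion_eq_valuation' v (2 : KK)
  rw [map_ofNat, h2] at h
  exact h

/-- [L2d] -/
theorem l2d_res0 (x : v.adicCompletionIntegers KK) :
    IsLocalRing.residue (v.adicCompletionIntegers KK) x = 0 ↔
      Valued.v (x : v.adicCompletion KK) < (1 : WithZero (Multiplicative ℤ)) := by
  rw [IsLocalRing.residue_eq_zero_iff]
  exact Valuation.mem_maximalIdeal_iff _ _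

/-- [L2d] -/
theorem l2d_res1 (x : v.adicCompletionIntegers KK) :
    IsLocalRing.residue (v.adicCompletionIntegers KK) x ≠ 0 ↔
      Valued.v (x : v.adicCompletion KK) = (1 : WithZero (Multiplicative ℤ)) := by
  have h : Valued.v (x : v.adicCompletion KK) ≤ (1 : WithZero (Multiplicative ℤ)) := x.2
  rw [Ne, l2d_res0]
  exact ⟨fun h1 => le_antisymm h (not_lt.1 h1), fun h1 h2 => absurd h1 h2.ne⟩

/-- [L2d] a root of the quartic -/
theorem l2d_root (h2 : v.valuation KK 2 = 1) {e₁ e₂ n : v.adicCompletion KK} (hn : Valued.v n = (1 : WithZero (Multiplicative ℤ)))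
    (hroot : ∀ x : v.adicCompletion KK, x ^ 3 - e₁ * x ^ 2 + e₂ * x - n ^ 2 ≠ 0) :
    ∃ r : v.adicCompletion KK, r ^ 4 - 2 * e₁ * r ^ 2 - 8 * n * r + (e₁ ^ 2 - 4 * e₂) = 0 := by
  obtain ⟨he₁, he₂⟩ := ns_int hn hroot
  have h2v := l2d_val2 h2
  have hfin : Finite (IsLocalRing.ResidueField (v.adicCompletionIntegers KK)) := (CM27.card_residue KK v).2
  set k := IsLocalRing.ResidueField (v.adicCompletionIntegers KK) with hk
  set R : v.adicCompletionIntegers KK →+* k := IsLocalRing.residue (v.adicCompletionIntegers KK) with hR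
  have hRs : Function.Surjective R := IsLocalRing.residue_surjective
  set E₁ : v.adicCompletionIntegers KK := ⟨e₁, he₁⟩ with hE₁
  set E₂ : v.adicCompletionIntegers KK := ⟨e₂, he₂⟩ with hE₂
  set N : v.adicCompletionIntegers KK := ⟨n, hn.le⟩ with hN
  have hk2 : (2 : k) ≠ 0 := by
    have h5 := (l2d_res1 (v := v) 2).2 h2v
    rwa [map_ofNat] at h5
  have hkn : R N ≠ 0 := (l2d_res1 (v := v) N).2 hn
  obtain ⟨r', hr, hr'⟩ := res_quartic (k := k) (e₁ := R E₁) (e₂ := R E₂) (n := R N) hk2 hkn (by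
    intro x' hx'
    obtain ⟨x, rfl⟩ := hRs x'
    by_contra hne
    have h5 : R (x ^ 3 - E₁ * x ^ 2 + E₂ * x - N ^ 2) = 0 := by
      simpa only [map_sub, map_add, map_mul, map_pow] using hx'
    have h6 : R (3 * x ^ 2 - 2 * E₁ * x + E₂) ≠ 0 := by
      simpa only [map_sub, map_add, map_mul, map_pow, map_ofNat] using hne
    have h7 := (l2d_res0 (v := v) _).1 h5
    have h8 := (l2d_res1 (v := v) _).1 h6
    obtain ⟨z, hz, -⟩ := hensel3 v (p := -e₁) (q := e₂) (t := -n ^ 2) (x₀ := (x : v.adicCompletion KK))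
      (by rw [Valuation.map_neg]; exact he₁) he₂
      (by rw [Valuation.map_neg, map_pow, hn, one_pow]) x.2 (by
        have h9 : (x : v.adicCompletion KK) ^ 3 + -e₁ * x ^ 2 + e₂ * x + -n ^ 2 = x ^ 3 - e₁ * x ^ 2 + e₂ * x - n ^ 2 := by ring
        rw [h9]
        exact h7) (by
        have h9 : 3 * (x : v.adicCompletion KK) ^ 2 + 2 * -e₁ * x + e₂ = 3 * x ^ 2 - 2 * e₁ * x + e₂ := by ring
        rw [h9]
        exact h8)
    apply hroot z
    linear_combination hz)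
  obtain ⟨r, rfl⟩ := hRs r'
  have h5 : R (r ^ 4 - 2 * E₁ * r ^ 2 - 8 * N * r + (E₁ ^ 2 - 4 * E₂)) = 0 := by
    simpa only [map_sub, map_add, map_mul, map_pow, map_ofNat] using hr
  have h6 : R (4 * r ^ 3 - 4 * E₁ * r - 8 * N) ≠ 0 := by
    simpa only [map_sub, map_add, map_mul, map_pow, map_ofNat] using hr'
  have h7 := (l2d_res0 (v := v) _).1 h5
  have h8 := (l2d_res1 (v := v) _).1 h6
  have hi2 : Valued.v (2 : v.adicCompletion KK) ≤ (1 : WithZero (Multiplicative ℤ)) := h2v.le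
  have hi4 : Valued.v (4 : v.adicCompletion KK) ≤ (1 : WithZero (Multiplicative ℤ)) := (4 : v.adicCompletionIntegers KK).2
  have hi8 : Valued.v (8 : v.adicCompletion KK) ≤ (1 : WithZero (Multiplicative ℤ)) := (8 : v.adicCompletionIntegers KK).2
  obtain ⟨z, hz, -⟩ := hensel4 (v := v) (a := 0) (b := -(2 * e₁)) (c := -(8 * n)) (t := e₁ ^ 2 - 4 * e₂)
    (x₀ := (r : v.adicCompletion KK)) (by rw [map_zero]; exact zero_le)
    (by rw [Valuation.map_neg, map_mul]; exact mul_le_one' hi2 he₁)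
    (by rw [Valuation.map_neg, map_mul]; exact mul_le_one' hi8 hn.le)
    (Valuation.map_sub_le _ (by rw [map_pow]; exact pow_le_one' he₁ 2) (by rw [map_mul]; exact mul_le_one' hi4 he₂)) r.2 (by
      have h9 : (r : v.adicCompletion KK) ^ 4 + 0 * r ^ 3 + -(2 * e₁) * r ^ 2 + -(8 * n) * r + (e₁ ^ 2 - 4 * e₂) =
        r ^ 4 - 2 * e₁ * r ^ 2 - 8 * n * r + (e₁ ^ 2 - 4 * e₂) := by ring
      rw [h9]
      exact h7) (by
      have h9 : 4 * (r : v.adicCompletion KK) ^ 3 + 3 * 0 * r ^ 2 + 2 * -(2 * e₁) * r + -(8 * n) = 4 * r ^ 3 - 4 * e₁ * r - 8 * n := by ring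
      rw [h9]
      exact h8)
  exact ⟨z, by linear_combination hz⟩

/-- [L2d] -/
theorem ns_unit (h2 : v.valuation KK 2 = 1) {d o : v.adicCompletion KK} (ho : o ^ 2 + o + 1 = 0)
    (hnc : ∀ x : v.adicCompletion KK, x ^ 3 ≠ d) {u : v.adicCompletion KK × v.adicCompletion KK × v.adicCompletion KK}
    {n : v.adicCompletion KK} (hn : Valued.v n = (1 : WithZero (Multiplicative ℤ))) (hu : nm d u = n ^ 2) : SqA d u := by
  have hch : CharZero (v.adicCompletion KK) := charZero_of_injective_algebraMap (algebraMap KK (v.adicCompletion KK)).injective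
  have hn0 : n ≠ 0 := by
    rintro rfl
    rw [map_zero] at hn
    exact zero_ne_one hn
  by_cases hs : u.2.1 = 0 ∧ u.2.2 = 0
  · obtain ⟨u₀, u₁, u₂⟩ := u
    obtain ⟨h1, h3⟩ := hs
    simp only at h1 h3
    subst h1 h3
    have h4 : u₀ ^ 3 = n ^ 2 := by
      rw [← hu]
      simp only [nm]
      ring
    have h0 : u₀ ≠ 0 := by
      rintro rfl
      apply hn0
      have h5 : n ^ 2 = 0 := by rw [← h4]; ring
      exact pow_eq_zero_iff two_ne_zero |>.1 h5
    refine ⟨(n / u₀, 0, 0), ?_⟩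
    simp only [mu, Prod.mk.injEq]
    refine ⟨?_, by ring, by ring⟩
    field_simp
    linear_combination h4
  · have hx : ∀ x : v.adicCompletion KK, nm d (x, u.2.1, u.2.2) ≠ 0 := by
      intro x hx
      have h5 := nm_noncube ho hnc hx
      simp only [Prod.mk.injEq] at h5
      exact hs h5.2
    have hroot : ∀ x : v.adicCompletion KK, x ^ 3 - (3 * u.1) * x ^ 2 + (3 * (u.1 ^ 2 - d * u.2.1 * u.2.2)) * x - n ^ 2 ≠ 0 := by
      intro x h5
      apply hx (u.1 - x)
      rw [← hu] at h5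
      simp only [nm] at h5 ⊢
      linear_combination (-1 : v.adicCompletion KK) * h5
    obtain ⟨r, hr⟩ := l2d_root h2 hn hroot
    exact sqA_of_root two_ne_zero hu hr (hx _)

/-- [L2e] -/
theorem l2e_sq {C : Type} [Field C] (d : C) (b g : C × C × C) :
    mu d (mu d b b) (mu d g g) = mu d (mu d b g) (mu d b g) := by
  simp only [mu, Prod.mk.injEq]
  refine ⟨?_, ?_, ?_⟩ <;> ring

/-- [L2e] the inverse -/
theorem l2e_inv {C : Type} [Field C] {d : C} {u : C × C × C} (h : nm d u ≠ 0) : ∃ w : C × C × C, mu d w u = (1, 0, 0) := by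
  obtain ⟨a, b, c⟩ := u
  refine ⟨((a ^ 2 - d * b * c) / nm d (a, b, c), (d * c ^ 2 - a * b) / nm d (a, b, c), (b ^ 2 - a * c) / nm d (a, b, c)), ?_⟩
  generalize hN : nm d (a, b, c) = N at h ⊢
  simp only [nm] at hN
  simp only [mu, Prod.mk.injEq]
  refine ⟨?_, ?_, ?_⟩
  · field_simp
    rw [← hN]
    ring
  · field_simp
    ring
  · field_simp
    ring

/-- [L2e] -/
theorem l2e_one {C : Type} [Field C] (d : C) (u : C × C × C) : mu d (1, 0, 0) u = u := by
  obtain ⟨a, b, c⟩ := u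
  simp only [mu, Prod.mk.injEq]
  refine ⟨?_, ?_, ?_⟩ <;> ring

/-- [L2e] -/
theorem ns_sq (h2 : v.valuation KK 2 = 1) {d o : v.adicCompletion KK} (ho : o ^ 2 + o + 1 = 0)
    (hnc : ∀ x : v.adicCompletion KK, x ^ 3 ≠ d) {u : v.adicCompletion KK × v.adicCompletion KK × v.adicCompletion KK}
    (hu0 : nm d u ≠ 0) (hu : IsSquare (nm d u)) : SqA d u := by
  obtain ⟨s, hs⟩ := hu
  have hs0 : s ≠ 0 := by
    rintro rfl
    apply hu0
    rw [hs, zero_mul]
  obtain ⟨π₀, hπ₀⟩ := v.valuation_exists_uniformizer KK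
  set π : v.adicCompletion KK := algebraMap KK (v.adicCompletion KK) π₀ with hπd
  have hπ : Valued.v π = WithZero.exp (-1 : ℤ) :=
    (HeightOneSpectrum.valuedAdicCompletion_eq_valuation' v π₀).trans hπ₀
  have hπ0 : π ≠ 0 := by
    intro h0
    rw [h0, map_zero] at hπ
    exact WithZero.exp_ne_zero hπ.symm
  have hvs : Valued.v s ≠ 0 := (map_ne_zero _).2 hs0
  set m : ℤ := WithZero.log (Valued.v s) with hm
  have hvs' : Valued.v s = WithZero.exp m := (WithZero.exp_log hvs).symm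
  -- `c = π ^ m`, so `v c = exp (-m)`
  have hvc : Valued.v (π ^ m) = WithZero.exp (-m) := by
    rw [map_zpow₀, hπ, ← WithZero.exp_zsmul]
    congr 1
    simp
  have hc0 : π ^ m ≠ 0 := zpow_ne_zero _ hπ0
  set c := π ^ m with hc
  have hsc : Valued.v (s * c) = (1 : WithZero (Multiplicative ℤ)) := by
    rw [map_mul, hvs', hvc, ← WithZero.exp_add, add_neg_cancel, WithZero.exp_zero]
  have hn1 : nm d (mu d (mu d (c, 0, 0) (c, 0, 0)) (mu d u (mu d u u))) = ((s * c) ^ 3) ^ 2 := by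
    rw [nm_mu, nm_mu, nm_mu, nm_mu, hs]
    simp only [nm]
    ring
  obtain ⟨g, hg⟩ := ns_unit h2 ho hnc (n := (s * c) ^ 3) (by rw [map_pow, hsc, one_pow]) hn1
  obtain ⟨w, hw⟩ := l2e_inv hu0
  have hcc : mu d (c⁻¹, 0, 0) (c, 0, 0) = (1, 0, 0) := by
    simp only [mu, Prod.mk.injEq]
    refine ⟨?_, by ring, by ring⟩
    field_simp
    ring
  refine ⟨mu d w (mu d (c⁻¹, 0, 0) g), ?_⟩
  have e1 : mu d (mu d w (mu d (c⁻¹, 0, 0) g)) (mu d w (mu d (c⁻¹, 0, 0) g)) =
      mu d (mu d w w) (mu d (mu d (c⁻¹, 0, 0) (c⁻¹, 0, 0)) (mu d g g)) := by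
    rw [← l2e_sq, ← l2e_sq]
  have e2 : mu d (mu d (c⁻¹, 0, 0) (c⁻¹, 0, 0)) (mu d (mu d (c, 0, 0) (c, 0, 0)) (mu d u (mu d u u))) = mu d u (mu d u u) := by
    rw [← mu_assoc, l2e_sq, hcc, l2e_one, l2e_one]
  have e3 : mu d (mu d w w) (mu d u (mu d u u)) = u := by
    have e4 : mu d (mu d w w) (mu d u (mu d u u)) = mu d (mu d (mu d w w) (mu d u u)) u := by
      rw [mu_assoc d (mu d w w) (mu d u u) u, mu_comm d (mu d u u) u]
    rw [e4, l2e_sq, hw, l2e_one, l2e_one]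
  rw [e1, ← hg, e2, e3]

end

end JT
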