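import Pool.Agent.JT.Alg
import Pool.Agent.JD.E1
import Pool.Agent.EQV.H8a

/-!
# [JT-L3] the places at which `d = ρ³` is a cube and the curve has good reduction

`c ≠ 0`, `v ((1 - o) ρ) = v (c)²`: the differences of the three roots `ρ`, `o ρ`, `o² ρ` have all the valuation `v(c)²` (`v o = 1`, `1 - o² = -o² (1 - o)`... `1 - o² = (1 - o)(1 + o) = (1 - o)(-o²)`).

PROOF. `sp_dir`: `SqA`: the values are squares. Otherwise `u (x + T) = g²`, `y² = x³ + d = (x + ρ)(x + o ρ)(x + o² ρ)`; so `v (ev u ρ') * v (x + ρ') = v (ev g ρ')²`, it suffices that `v (x + ρ')` is a square or `0`. If `x + ρ' = 0` for one root `ρ'` then the other two `x + ρ''` are differences of roots, of valuation `v(c)²`, so the values of `u` at the other two roots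
have even valuation, and for `ρ'` itself use that the product of the three values is `nm d u = m²` (`nm_ev`); (if a value is `0` its valuation is `0 = 0²`; if one of the other two values is `0`, then... `nm d u ≠ 0` is assumed, so all values are nonzero). If all `x + ρ' ≠ 0`: if `v (x + ρ) > v(c)²` then all three have the same valuation `g` (differences have smaller valuation), `g³ = v(y)²`,
`g = (v(y)/g)²`. If all are `≤ v(c)²`: two of them differ by an element of valuation exactly `v(c)²`, so at most one of the three has valuation `< v(c)²`, two have valuation `v(c)²`, and the third is a square by the product `v(y)²`.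
`sp_conv`: let `β_i = ev u ρ_i` (`ρ_0 = ρ`, `ρ_1 = o ρ`, `ρ_2 = o² ρ`), `v β_i = γ_i²`; multiply `u` by the square of a triple (`interp'`) with values `π^(..)` to get all `v β_i = 1` (`LocA` is not changed: if `LocA (mu u g²)` then `LocA u`; multiply by the inverse square). `a = (1 - o) ρ / c²`, `b = (1 - o²) ρ / c²`, `a`, `b`, `a - b` are units. The statement `EQV3.locB_good` (EQV/H8a.lean) is proved
there for elements of the number field; copy the proof with local elements `α, β, γ₀, γ₁` of `v.adicCompletion KK` (the proof only uses their valuations): `Q3D.Img a b β₀ β₁`, that is: `β₀`, `β₁` squares (then `β₂` is a square, as `β₀ β₁ β₂ = m²`; all values are squares, `SqA` by `interp'`, `ev_inj'`), or `y'² = x' (x' - a)(x' - b)` with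
`β₀ x'`, `β₁ (x' - a)`, `β₀ β₁ (x' - b)` squares. Put `x = c² x' - ρ`, `y = c³ y'`: `x + ρ = c² x'`, `x + o ρ = c² (x' - a)`, `x + o² ρ = c² (x' - b)`, so `β_i (x + ρ_i)` are squares (`β₂ = (m/(β₀ β₁))² β₀ β₁`): `SqA (mu u (x, 1, 0))` by `interp'` and `ev_inj'`.
-/

set_option autoImplicit false

open NumberField IsDedekindDomain
open scoped Classical

namespace JT

open CM27 CF JZ JD
open CU (la om eE)

/-- if `d` is a cube then a triple is a square iff its three values are squares -/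
theorem sqA_of_val {C : Type} [Field C] {d o ρ : C} (h3 : (3 : C) ≠ 0) (hd : d ≠ 0) (ho : o ^ 2 + o + 1 = 0) (hρ : ρ ^ 3 = d)
    {u : C × C × C} (h : ∀ ρ' : C, ρ' ^ 3 = d → IsSquare (ev u ρ')) : SqA d u := by
  obtain ⟨g, hg⟩ := interp' ho h3 hd hρ (fun ρ' => if h' : ρ' ^ 3 = d then (h ρ' h').choose else 0)
  refine ⟨g, ev_inj' ho h3 hd hρ fun ρ' h' => ?_⟩
  have h4 := (h ρ' h').choose_spec
  rw [ev_mu h', hg ρ' h']
  simp only [dif_pos h']
  exact h4

/-- [L3a] -/
theorem l3a_sq {C : Type} [Field C] (w : Valuation C (WithZero (Multiplicative ℤ))) {κ : WithZero (Multiplicative ℤ)} (hκ : κ ≠ 0)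
    {a b c y : C} (hab : w (a - b) = κ ^ 2) (hac : w (a - c) = κ ^ 2) (hy : a * b * c = y ^ 2) :
    ∃ g : WithZero (Multiplicative ℤ), w a = g ^ 2 := by
  rcases lt_trichotomy (w a) (κ ^ 2) with h | h | h
  · have hb : w b = κ ^ 2 := by
      have e : b = a - (a - b) := by ring
      rw [e, Valuation.map_sub_eq_of_lt_right _ (by rw [hab]; exact h), hab]
    have hc : w c = κ ^ 2 := by
      have e : c = a - (a - c) := by ring
      rw [e, Valuation.map_sub_eq_of_lt_right _ (by rw [hac]; exact h), hac]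
    refine ⟨w y / κ ^ 2, ?_⟩
    rw [div_pow, ← map_pow, ← hy, map_mul, map_mul, hb, hc]
    field_simp
  · exact ⟨κ, h⟩
  · have hb : w b = w a := by
      have e : b = a - (a - b) := by ring
      rw [e, Valuation.map_sub_eq_of_lt_left _ (by rw [hab]; exact h)]
    have hc : w c = w a := by
      have e : c = a - (a - c) := by ring
      rw [e, Valuation.map_sub_eq_of_lt_left _ (by rw [hac]; exact h)]
    have ha0 : w a ≠ 0 := (lt_of_le_of_lt zero_le h).ne'
    refine ⟨w y / w a, ?_⟩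
    rw [div_pow, ← map_pow, ← hy, map_mul, map_mul, hb, hc]
    field_simp

/-- [L3a] -/
theorem l3a_div {C : Type} [Field C] (w : Valuation C (WithZero (Multiplicative ℤ))) {a U G : C} (ha0 : a ≠ 0)
    (ha : ∃ g : WithZero (Multiplicative ℤ), w a = g ^ 2) (h : U * a = G ^ 2) :
    ∃ g : WithZero (Multiplicative ℤ), w U = g ^ 2 := by
  obtain ⟨g, hg⟩ := ha
  have hg0 : g ≠ 0 := by
    rintro rfl
    rw [zero_pow two_ne_zero, map_eq_zero] at hg
    exact ha0 hg
  refine ⟨w G / g, ?_⟩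
  have h1 := congrArg w h
  rw [map_mul, map_pow, hg] at h1
  rw [div_pow, ← h1]
  field_simp

/-- [L3a] -/
theorem l3a_main {C : Type} [Field C] (w : Valuation C (WithZero (Multiplicative ℤ))) {κ : WithZero (Multiplicative ℤ)} (hκ : κ ≠ 0)
    {a b c y U V W m G H J : C} (hab : w (a - b) = κ ^ 2) (hac : w (a - c) = κ ^ 2) (hbc : w (b - c) = κ ^ 2)
    (hy : a * b * c = y ^ 2) (hm0 : U * V * W ≠ 0) (hm : U * V * W = m * m) (h1 : U * a = G ^ 2) (h2 : V * b = H ^ 2)
    (h3 : W * c = J ^ 2) : ∃ g : WithZero (Multiplicative ℤ), w U = g ^ 2 := by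
  by_cases ha0 : a = 0
  · have hb0 : b ≠ 0 := by
      rintro rfl
      rw [ha0, sub_zero, map_zero] at hab
      exact pow_ne_zero 2 hκ hab.symm
    have hc0 : c ≠ 0 := by
      rintro rfl
      rw [ha0, sub_zero, map_zero] at hac
      exact pow_ne_zero 2 hκ hac.symm
    obtain ⟨g, hg⟩ := l3a_div w hb0 (l3a_sq w hκ (y := y) (a := b) (b := a) (c := c) (by rw [Valuation.map_sub_swap, hab]) hbc
      (by rw [← hy]; ring)) h2
    obtain ⟨g', hg'⟩ := l3a_div w hc0 (l3a_sq w hκ (y := y) (a := c) (b := a) (c := b) (by rw [Valuation.map_sub_swap, hac])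
      (by rw [Valuation.map_sub_swap, hbc]) (by rw [← hy]; ring)) h3
    have hU0 : U ≠ 0 := by rintro rfl; exact hm0 (by ring)
    have hV0 : V ≠ 0 := by rintro rfl; exact hm0 (by ring)
    have hW0 : W ≠ 0 := by rintro rfl; exact hm0 (by ring)
    have hg0 : g ≠ 0 := by
      rintro rfl
      rw [zero_pow two_ne_zero, map_eq_zero] at hg
      exact hV0 hg
    have hg0' : g' ≠ 0 := by
      rintro rfl
      rw [zero_pow two_ne_zero, map_eq_zero] at hg'
      exact hW0 hg'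
    refine ⟨w m / (g * g'), ?_⟩
    have h4 := congrArg w hm
    rw [map_mul, map_mul, map_mul, hg, hg'] at h4
    rw [div_pow, sq (w m), ← h4]
    field_simp
  · exact l3a_div w ha0 (l3a_sq w hκ hab hac hy) h1

/-- [L3a] -/
theorem sp_dir {C : Type} [Field C] (w : Valuation C (WithZero (Multiplicative ℤ))) {d o ρ c : C} (ho : o ^ 2 + o + 1 = 0)
    (hρ : ρ ^ 3 = d) (hc0 : c ≠ 0) (hc : w ((1 - o) * ρ) = w c ^ 2) {u : C × C × C} (hu : nm d u ≠ 0) (hs : IsSquare (nm d u))
    (h : LocA d u) : ∀ ρ' : C, ρ' ^ 3 = d → ∃ g : WithZero (Multiplicative ℤ), w (ev u ρ') = g ^ 2 := by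
  intro ρ' hρ'
  rcases h with ⟨g, hg⟩ | ⟨x, y, hxy, g, hg⟩
  · refine ⟨w (ev g ρ'), ?_⟩
    rw [hg, ev_mu hρ', map_mul, sq]
  · have ho3 : o ^ 3 = 1 := by linear_combination (o - 1) * ho
    have hwo : w o = 1 := by
      have h1 : w o ^ 3 = 1 := by rw [← map_pow, ho3, map_one]
      exact (pow_eq_one_iff.1 h1).resolve_right (by norm_num)
    have hκ : w c ≠ 0 := (map_ne_zero _).2 hc0
    obtain ⟨m, hm⟩ := hs
    have hv : ∀ ρ₁ : C, ρ₁ ^ 3 = d → ev u ρ₁ * (x + ρ₁) = ev g ρ₁ ^ 2 := by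
      intro ρ₁ h₁
      have h2 := congrArg (fun t => ev t ρ₁) hg
      simp only [ev_mu h₁, ev_pt] at h2
      rw [h2, sq]
    have h0 := hv _ hρ
    have h1 := hv _ (root_om ho hρ)
    have h2 := hv _ (root_om2 ho hρ)
    have hp : (x + ρ) * (x + o * ρ) * (x + o ^ 2 * ρ) = y ^ 2 := by
      rw [hxy, ← nm_pt, ← nm_ev ho hρ, ev_pt, ev_pt, ev_pt]
    have hq : ev u ρ * ev u (o * ρ) * ev u (o ^ 2 * ρ) = m * m := by rw [nm_ev ho hρ, hm]
    have hq0 : ev u ρ * ev u (o * ρ) * ev u (o ^ 2 * ρ) ≠ 0 := by rw [nm_ev ho hρ]; exact hu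
    have d1 : w (x + ρ - (x + o * ρ)) = w c ^ 2 := by
      rw [← hc]
      congr 1
      ring
    have d2 : w (x + ρ - (x + o ^ 2 * ρ)) = w c ^ 2 := by
      have e : x + ρ - (x + o ^ 2 * ρ) = -o ^ 2 * ((1 - o) * ρ) := by
        linear_combination (1 - o) * ρ * ho
      rw [e, map_mul, hc, Valuation.map_neg, map_pow, hwo, one_pow, one_mul]
    have d3 : w (x + o * ρ - (x + o ^ 2 * ρ)) = w c ^ 2 := by
      have e : x + o * ρ - (x + o ^ 2 * ρ) = o * ((1 - o) * ρ) := by ring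
      rw [e, map_mul, hc, hwo, one_mul]
    rcases root_cases ho hρ hρ' with rfl | rfl | rfl
    · exact l3a_main w hκ d1 d2 d3 hp hq0 hq h0 h1 h2
    · exact l3a_main w hκ (a := x + o * ρ) (b := x + ρ) (c := x + o ^ 2 * ρ) (by rw [Valuation.map_sub_swap, d1]) d3 d2
        (by rw [← hp]; ring) (by convert hq0 using 1; ring) (by rw [← hq]; ring) h1 h0 h2
    · exact l3a_main w hκ (a := x + o ^ 2 * ρ) (b := x + ρ) (c := x + o * ρ) (by rw [Valuation.map_sub_swap, d2])
        (by rw [Valuation.map_sub_swap, d3]) d1 (by rw [← hp]; ring) (by convert hq0 using 1; ring) (by rw [← hq]; ring) h2 h0 h1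

/-- [L3b] -/
theorem img_good (v : HeightOneSpectrum (𝓞 KK)) (h2 : v.valuation KK 2 = 1) {a b b₀ b₁ : v.adicCompletion KK}
    (ha : Valued.v a = (1 : WithZero (Multiplicative ℤ))) (hb : Valued.v b = (1 : WithZero (Multiplicative ℤ)))
    (hab : Valued.v (a - b) = (1 : WithZero (Multiplicative ℤ))) (h₀ : Valued.v b₀ = (1 : WithZero (Multiplicative ℤ)))
    (h₁ : Valued.v b₁ = (1 : WithZero (Multiplicative ℤ))) : Q3D.Img a b b₀ b₁ := by
  have : v.asIdeal.IsMaximal := v.isMaximal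
  let _ : Field (𝓞 KK ⧸ v.asIdeal) := Ideal.Quotient.field v.asIdeal
  have : Finite (𝓞 KK ⧸ v.asIdeal) := Ideal.finiteQuotientOfFreeOfNeBot v.asIdeal v.ne_bot
  obtain ⟨ra, hra⟩ := EQV3.h8_approx v ha.le
  obtain ⟨rb, hrb⟩ := EQV3.h8_approx v hb.le
  obtain ⟨r0, hr0⟩ := EQV3.h8_approx v h₀.le
  obtain ⟨r1, hr1⟩ := EQV3.h8_approx v h₁.le
  change EQV3.H8A v _ _ at hra hrb hr0 hr1
  have na := (EQV3.h8_val v hra).1 ha
  have nb := (EQV3.h8_val v hrb).1 hb
  have n0 := (EQV3.h8_val v hr0).1 h₀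
  have n1 := (EQV3.h8_val v hr1).1 h₁
  have nab : Ideal.Quotient.mk v.asIdeal ra ≠ Ideal.Quotient.mk v.asIdeal rb := by
    have h3 := (EQV3.h8_val v (EQV3.h8_sub v hra hrb)).1 hab
    rw [map_sub] at h3
    exact sub_ne_zero.1 h3
  have hchar : ringChar (𝓞 KK ⧸ v.asIdeal) ≠ 2 := by
    intro hc
    have h3 : ((2 : ℕ) : 𝓞 KK ⧸ v.asIdeal) = 0 := by
      rw [← hc]
      exact ringChar.Nat.cast_ringChar
    have h4 : Ideal.Quotient.mk v.asIdeal (2 : 𝓞 KK) = 0 := by
      rw [← h3, map_ofNat]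
      norm_num
    rw [Ideal.Quotient.eq_zero_iff_mem, ← HeightOneSpectrum.valuation_lt_one_iff_mem (K := KK) v] at h4
    change v.valuation KK (algebraMap (𝓞 KK) KK 2) < 1 at h4
    rw [map_ofNat] at h4
    exact absurd h2 h4.ne
  have hγ0 : b₀ ≠ 0 := by
    intro h
    rw [h, map_zero] at h₀
    exact zero_ne_one h₀
  have hγ1 : b₁ ≠ 0 := by
    intro h
    rw [h, map_zero] at h₁
    exact zero_ne_one h₁
  by_cases hs : IsSquare (Ideal.Quotient.mk v.asIdeal r0) ∧ IsSquare (Ideal.Quotient.mk v.asIdeal r1)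
  · exact Or.inl ⟨EQV3.h8_sq v h2 hr0 n0 hs.1, EQV3.h8_sq v h2 hr1 n1 hs.2⟩
  · right
    obtain ⟨x', hx0, hx1, hx2⟩ := EQV3.exists_x hchar na nb nab n0 n1 hs
    obtain ⟨x, rfl⟩ := Ideal.Quotient.mk_surjective x'
    by_cases c0 : Ideal.Quotient.mk v.asIdeal x = 0
    · refine ⟨0, 0, by ring, ⟨0, by ring⟩, ?_, ?_⟩
      · refine EQV3.h8_sq v h2 (EQV3.h8_mul v hr1 (EQV3.h8_sub v (EQV3.h8_zero v) hra)) ?_ ?_
        · rw [map_mul, map_sub, map_zero, zero_sub]
          exact mul_ne_zero n1 (neg_ne_zero.2 na)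
        · rw [map_mul, map_sub, map_zero, ← c0]
          exact hx1
      · refine EQV3.h8_sq v h2 (EQV3.h8_mul v (EQV3.h8_mul v hr0 hr1) (EQV3.h8_sub v (EQV3.h8_zero v) hrb)) ?_ ?_
        · rw [map_mul, map_mul, map_sub, map_zero, zero_sub]
          exact mul_ne_zero (mul_ne_zero n0 n1) (neg_ne_zero.2 nb)
        · rw [map_mul, map_mul, map_sub, map_zero, ← c0]
          exact hx2
    · by_cases c1 : Ideal.Quotient.mk v.asIdeal x = Ideal.Quotient.mk v.asIdeal ra
      · refine ⟨a, 0, by ring, ?_, ⟨0, by ring⟩, ?_⟩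
        · refine EQV3.h8_sq v h2 (EQV3.h8_mul v hr0 hra) ?_ ?_
          · rw [map_mul]
            exact mul_ne_zero n0 na
          · rw [map_mul, ← c1]
            exact hx0
        · refine EQV3.h8_sq v h2 (EQV3.h8_mul v (EQV3.h8_mul v hr0 hr1) (EQV3.h8_sub v hra hrb)) ?_ ?_
          · rw [map_mul, map_mul, map_sub]
            exact mul_ne_zero (mul_ne_zero n0 n1) (sub_ne_zero.2 nab)
          · rw [map_mul, map_mul, map_sub, ← c1]
            exact hx2
      · by_cases c2 : Ideal.Quotient.mk v.asIdeal x = Ideal.Quotient.mk v.asIdeal rb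
        · refine ⟨b, 0, by ring, ?_, ?_, ⟨0, by ring⟩⟩
          · refine EQV3.h8_sq v h2 (EQV3.h8_mul v hr0 hrb) ?_ ?_
            · rw [map_mul]
              exact mul_ne_zero n0 nb
            · rw [map_mul, ← c2]
              exact hx0
          · refine EQV3.h8_sq v h2 (EQV3.h8_mul v hr1 (EQV3.h8_sub v hrb hra)) ?_ ?_
            · rw [map_mul, map_sub]
              exact mul_ne_zero n1 (sub_ne_zero.2 nab.symm)
            · rw [map_mul, map_sub, ← c2]
              exact hx1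
        · have hxx := EQV3.h8_self v x
          set X : v.adicCompletion KK := algebraMap KK (v.adicCompletion KK) (x : KK) with hX
          have s0 : IsSquare (b₀ * X) := by
            refine EQV3.h8_sq v h2 (EQV3.h8_mul v hr0 hxx) ?_ ?_
            · rw [map_mul]
              exact mul_ne_zero n0 c0
            · rw [map_mul]
              exact hx0
          have s1 : IsSquare (b₁ * (X - a)) := by
            refine EQV3.h8_sq v h2 (EQV3.h8_mul v hr1 (EQV3.h8_sub v hxx hra)) ?_ ?_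
            · rw [map_mul, map_sub]
              exact mul_ne_zero n1 (sub_ne_zero.2 c1)
            · rw [map_mul, map_sub]
              exact hx1
          have s2 : IsSquare (b₀ * b₁ * (X - b)) := by
            refine EQV3.h8_sq v h2 (EQV3.h8_mul v (EQV3.h8_mul v hr0 hr1) (EQV3.h8_sub v hxx hrb)) ?_ ?_
            · rw [map_mul, map_mul, map_sub]
              exact mul_ne_zero (mul_ne_zero n0 n1) (sub_ne_zero.2 c2)
            · rw [map_mul, map_mul, map_sub]
              exact hx2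
          obtain ⟨u0, hu0⟩ := s0
          obtain ⟨u1, hu1⟩ := s1
          obtain ⟨u2, hu2⟩ := s2
          refine ⟨X, u0 * u1 * u2 / (b₀ * b₁), ?_, ⟨u0, hu0⟩, ⟨u1, hu1⟩, ⟨u2, hu2⟩⟩
          have e : (u0 * u1 * u2) ^ 2 = (b₀ * X) * (b₁ * (X - a)) * (b₀ * b₁ * (X - b)) := by
            rw [hu0, hu1, hu2]
            ring
          rw [div_pow, e]
          field_simp

/-- [L3c] a square class up to a square -/
theorem L3c_sq {C : Type} [Field C] {β π z : C} (hπ : π ≠ 0) (h : IsSquare (β * π ^ 2 * z)) : IsSquare (β * z) := by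
  obtain ⟨s, hs⟩ := h
  refine ⟨s / π, ?_⟩
  field_simp
  linear_combination hs

/-- [L3c] the algebraic part -/
theorem L3c_alg {C : Type} [Field C] {d o ρ c π₀ π₁ : C} (h3 : (3 : C) ≠ 0) (ho : o ^ 2 + o + 1 = 0) (hd : d ≠ 0)
    (hρ : ρ ^ 3 = d) (hc0 : c ≠ 0) (h₀ : π₀ ≠ 0) (h₁ : π₁ ≠ 0) {u : C × C × C} (hu : nm d u ≠ 0) (hs : IsSquare (nm d u))
    (h : Q3D.Img ((1 - o) * ρ / c ^ 2) ((1 - o ^ 2) * ρ / c ^ 2) (ev u ρ * π₀ ^ 2) (ev u (o * ρ) * π₁ ^ 2)) :
    LocA d u := by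
  obtain ⟨m, hm⟩ := hs
  have hn := nm_ev ho hρ u
  have hb0 : ev u ρ ≠ 0 := by
    intro h0
    apply hu
    rw [← hn, h0]
    ring
  have hb1 : ev u (o * ρ) ≠ 0 := by
    intro h0
    apply hu
    rw [← hn, h0]
    ring
  have hb2 : ev u (o ^ 2 * ρ) = (m / (ev u ρ * ev u (o * ρ))) ^ 2 * (ev u ρ * ev u (o * ρ)) := by
    field_simp
    linear_combination hn + hm
  rcases h with ⟨q0, q1⟩ | ⟨x, y, hxy, q0, q1, q2⟩
  · left
    have e0 : IsSquare (ev u ρ) := by
      have := L3c_sq (z := 1) h₀ (by rwa [mul_one])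
      rwa [mul_one] at this
    have e1 : IsSquare (ev u (o * ρ)) := by
      have := L3c_sq (z := 1) h₁ (by rwa [mul_one])
      rwa [mul_one] at this
    refine sqA_of_val h3 hd ho hρ fun ρ' hρ' => ?_
    rcases root_cases ho hρ hρ' with rfl | rfl | rfl
    · exact e0
    · exact e1
    · rw [hb2]
      exact (IsSquare.sq _).mul (e0.mul e1)
  · right
    have hcc : c ^ 2 ≠ 0 := pow_ne_zero 2 hc0
    have ho3 : o ^ 3 = 1 := by linear_combination (o - 1) * ho
    refine ⟨c ^ 2 * x - ρ, c ^ 3 * y, ?_, ?_⟩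
    · have e1 : c ^ 2 * ((1 - o) * ρ / c ^ 2) = (1 - o) * ρ := by field_simp
      have e2 : c ^ 2 * ((1 - o ^ 2) * ρ / c ^ 2) = (1 - o ^ 2) * ρ := by field_simp
      have e3 : (c ^ 3 * y) ^ 2 = (c ^ 2 * x) * (c ^ 2 * x - c ^ 2 * ((1 - o) * ρ / c ^ 2)) *
          (c ^ 2 * x - c ^ 2 * ((1 - o ^ 2) * ρ / c ^ 2)) := by
        have : (c ^ 3 * y) ^ 2 = c ^ 6 * y ^ 2 := by ring
        rw [this, hxy]
        ring
      rw [e3, e1, e2, ← hρ]
      obtain ⟨X, hX⟩ : ∃ X, X = c ^ 2 * x := ⟨_, rfl⟩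
      rw [← hX]
      have e4 : o ^ 2 = -o - 1 := by linear_combination ho
      rw [e4]
      linear_combination (X * ρ ^ 2 - X ^ 2 * ρ - X * ρ ^ 2 * 2 + X ^ 2 * ρ) * ho
    · refine sqA_of_val h3 hd ho hρ fun ρ' hρ' => ?_
      rw [ev_mu hρ']
      have ex : ev (c ^ 2 * x - ρ, (1 : C), (0 : C)) ρ' = c ^ 2 * x - ρ + ρ' := by
        simp only [ev]
        ring
      rw [ex]
      rcases root_cases ho hρ hρ' with rfl | rfl | rfl
      · have e : c ^ 2 * x - ρ' + ρ' = c ^ 2 * x := by ring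
        rw [e]
        have h5 := L3c_sq h₀ q0
        have e' : ev u ρ' * (c ^ 2 * x) = c ^ 2 * (ev u ρ' * x) := by ring
        rw [e']
        exact (IsSquare.sq _).mul h5
      · have e : c ^ 2 * x - ρ + o * ρ = c ^ 2 * (x - (1 - o) * ρ / c ^ 2) := by
          field_simp
          ring
        rw [e]
        have h5 := L3c_sq h₁ q1
        have e' : ev u (o * ρ) * (c ^ 2 * (x - (1 - o) * ρ / c ^ 2)) =
            c ^ 2 * (ev u (o * ρ) * (x - (1 - o) * ρ / c ^ 2)) := by ring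
        rw [e']
        exact (IsSquare.sq _).mul h5
      · have e : c ^ 2 * x - ρ + o ^ 2 * ρ = c ^ 2 * (x - (1 - o ^ 2) * ρ / c ^ 2) := by
          field_simp
          ring
        rw [e, hb2]
        have q2' : IsSquare (ev u ρ * ev u (o * ρ) * (π₀ * π₁) ^ 2 * (x - (1 - o ^ 2) * ρ / c ^ 2)) := by
          have e' : ev u ρ * ev u (o * ρ) * (π₀ * π₁) ^ 2 * (x - (1 - o ^ 2) * ρ / c ^ 2) =
              ev u ρ * π₀ ^ 2 * (ev u (o * ρ) * π₁ ^ 2) * (x - (1 - o ^ 2) * ρ / c ^ 2) := by ring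
          rw [e']
          exact q2
        have h5 := L3c_sq (mul_ne_zero h₀ h₁) q2'
        have e' : (m / (ev u ρ * ev u (o * ρ))) ^ 2 * (ev u ρ * ev u (o * ρ)) *
            (c ^ 2 * (x - (1 - o ^ 2) * ρ / c ^ 2)) = (m / (ev u ρ * ev u (o * ρ)) * c) ^ 2 *
            (ev u ρ * ev u (o * ρ) * (x - (1 - o ^ 2) * ρ / c ^ 2)) := by ring
        rw [e']
        exact (IsSquare.sq _).mul h5

/-- [L3c] -/
theorem sp_conv (v : HeightOneSpectrum (𝓞 KK)) (h2 : v.valuation KK 2 = 1) {d o ρ c : v.adicCompletion KK}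
    (ho : o ^ 2 + o + 1 = 0) (hd : d ≠ 0) (hρ : ρ ^ 3 = d) (hc0 : c ≠ 0) (hc : Valued.v ((1 - o) * ρ) = Valued.v c ^ 2)
    {u : v.adicCompletion KK × v.adicCompletion KK × v.adicCompletion KK} (hu : nm d u ≠ 0) (hs : IsSquare (nm d u))
    (he : ∀ ρ' : v.adicCompletion KK, ρ' ^ 3 = d → ∃ g : WithZero (Multiplicative ℤ), Valued.v (ev u ρ') = g ^ 2) : LocA d u := by
  have : CharZero (v.adicCompletion KK) := charZero_of_injective_algebraMap (algebraMap KK _).injective
  have h3 : (3 : v.adicCompletion KK) ≠ 0 := by norm_num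
  have hn := nm_ev ho hρ u
  have hb0 : ev u ρ ≠ 0 := by
    intro h0
    apply hu
    rw [← hn, h0]
    ring
  have hb1 : ev u (o * ρ) ≠ 0 := by
    intro h0
    apply hu
    rw [← hn, h0]
    ring
  have key : ∀ β : v.adicCompletion KK, β ≠ 0 → (∃ g : WithZero (Multiplicative ℤ), Valued.v β = g ^ 2) →
      ∃ π : v.adicCompletion KK, π ≠ 0 ∧ Valued.v (β * π ^ 2) = (1 : WithZero (Multiplicative ℤ)) := by
    intro β hβ hg
    obtain ⟨g, hg⟩ := hg
    have hg0 : g ≠ 0 := by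
      rintro rfl
      apply hβ
      rw [zero_pow two_ne_zero] at hg
      exact (Valuation.zero_iff _).1 hg
    obtain ⟨π, hπ⟩ := HeightOneSpectrum.valuedAdicCompletion_surjective KK v g⁻¹
    have hπ' : Valued.v π = g⁻¹ := hπ
    refine ⟨π, ?_, ?_⟩
    · rintro rfl
      rw [map_zero] at hπ'
      exact inv_ne_zero hg0 hπ'.symm
    · rw [map_mul, map_pow, hπ', hg, inv_pow, mul_inv_cancel₀ (pow_ne_zero 2 hg0)]
  obtain ⟨π₀, h₀, hv0⟩ := key _ hb0 (he _ hρ)
  obtain ⟨π₁, h₁, hv1⟩ := key _ hb1 (he _ (root_om ho hρ))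
  have ho3 : o ^ 3 = 1 := by linear_combination (o - 1) * ho
  have hvo : Valued.v o = (1 : WithZero (Multiplicative ℤ)) := by
    have h4 : Valued.v o ^ 3 = (1 : WithZero (Multiplicative ℤ)) := by rw [← map_pow, ho3, map_one]
    exact (pow_eq_one_iff_of_nonneg zero_le' (by norm_num)).1 h4
  have hvc : Valued.v c ≠ (0 : WithZero (Multiplicative ℤ)) := (Valuation.ne_zero_iff _).2 hc0
  have hva : Valued.v ((1 - o) * ρ / c ^ 2) = (1 : WithZero (Multiplicative ℤ)) := by
    rw [map_div₀, hc, map_pow, div_self (pow_ne_zero 2 hvc)]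
  refine L3c_alg h3 ho hd hρ hc0 h₀ h₁ hu hs (img_good v h2 hva ?_ ?_ hv0 hv1)
  · have e : (1 - o ^ 2) * ρ / c ^ 2 = -(o ^ 2 * ((1 - o) * ρ / c ^ 2)) := by
      have e1 : 1 - o ^ 2 = -(o ^ 2 * (1 - o)) := by linear_combination -ho3
      rw [e1]
      ring
    rw [e, Valuation.map_neg, map_mul, map_pow, hvo, hva, one_pow, one_mul]
  · have e : (1 - o) * ρ / c ^ 2 - (1 - o ^ 2) * ρ / c ^ 2 = -(o * ((1 - o) * ρ / c ^ 2)) := by
      ring
    rw [e, Valuation.map_neg, map_mul, hvo, hva, one_mul]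

end JT
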