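import Pool.Agent.JT.UC
import Pool.Agent.JT.A1
import Pool.Agent.JT.L1
import Pool.Agent.JT.L2
import Pool.Agent.JT.L3

/-!
# [JT-Z0] the Selmer group and the classes with even valuations on `F = K(∛D)`

`NoBad2`: a triple `u` with square norm, such that all valuations of `ev u s` in `F` are even and which is the class of a local point at the place `2`, is a square.

PROOF. `good_at` [Z0a]: `v (D) = 3 v(ρ)` and `D` is sixth-power-free: `v(ρ) = 0` or `1` (in exponents; every place of `KK` is given by a prime `p` of `Eis`: see JD/JG files, e. g. `CU`/`JG.SN`: `v.asIdeal = span {eE p}`). `p ∤ 6`: `v ρ = 1` would give `D = p³ c`, `p ∤ c`, `c = (ρ/p)³`, approximating the integral element `ρ/p` by `x ∈ Eis`: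
`p ∣ c - x³`, contradiction to `Cl2.odd`; so `v ρ = 0`, `v (1 - o) = 0` (`(1 - o)² = -3 o`): `c = 1`. `p = 2`: the same with `Cl2.two3` (`ρ = 2 ρ'`, `ρ'³ = D/8 ≡ x³` mod 2, `x ∈ {1, ω, ω²}` mod 2, so `D/8 ≡ 1 mod 2`): `c = 1`. `p = λ`: `v ρ = 0` would give `ρ ≡ ± 1 mod λ`, `ρ = ±(1 + λ x)`, `ρ³ = ±(1 + 3 λ x + 3 λ² x² + λ³ x³) ≡ ± (1 + λ³ (x³ - x)) ≡ ±1 mod λ⁴`
(`3 = -ω² λ²`, `ω² ≡ 1 mod λ`, `x³ ≡ x mod λ`), so `λ⁴ ∣ D ∓ 1`, contradiction to `Cl2.lam`. So `v ρ = exp (-1)`, `v ((1 - o) ρ) = exp (-2)` (`o` is a primitive cube root of unity in the completion, so `o = ω` or `ω²`, `v (1 - o) = v λ = exp (-1)`): `c = λ`.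
`ev_of_loc` [Z0b]: `w` a place of `F`. If `w ∘ σ = w`: `ev_fix`. Otherwise `split_w`: `v`, `φ`, `ρ`; `good_at` gives `c`; `LocA` at `v`; `sp_dir`: `Valued.v (ev (mp u) ρ) = g²`; `φ (ev (mp u) ρ) = ` the image of `ev (mp u) s` in `w.adicCompletion F` (`Below.comm`, `φ ρ = s`); `below_sq`; `valuedAdicCompletion_eq_valuation'`.
`loc_of_ev` [Z0c]: `v ∤ 2`: if `D` is not a cube in the completion: `ns_sq`, so `LocA` (first alternative). If `D = ρ³`: `good_at`, `val_of_ev` for all the roots, `sp_conv`.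
`sel0_iff`: `Sel0`: `u` with `LocA` everywhere satisfies the hypotheses of `NoBad2` by `ev_of_loc`. Conversely `loc_of_ev` at `v ∤ 2`.
-/

set_option autoImplicit false

open NumberField IsDedekindDomain
open scoped Classical

namespace JT

open CM27 CF JZ JD
open CU (la om eE)

theorem cl2_ne {D : Eis} (hD : Cl2 D) : D ≠ 0 := by
  rintro rfl
  exact hD.ncube ⟨0, by norm_num⟩

/-- a class which is unramified and the class of a point at the place 2 is trivial -/
def NoBad2 (D : Eis) {F : Type} [Field F] [NumberField F] [Algebra KK F] (s : F) : Prop :=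
  ∀ u : KK × KK × KK, nm (jK D) u ≠ 0 → IsSquare (nm (jK D) u) → Ev (ev (mp (algebraMap KK F) u) s) →
    (∀ v : HeightOneSpectrum (𝓞 KK), v.valuation KK 2 < 1 →
      LocA (algebraMap KK (v.adicCompletion KK) (jK D)) (mp (algebraMap KK (v.adicCompletion KK)) u)) →
    SqA (jK D) u

section Z0a
variable {v : HeightOneSpectrum (𝓞 KK)} {p : Eis}

theorem Z0a_approx (hb : Prime p) (hv : v.asIdeal = Ideal.span {eE p}) (x : v.adicCompletionIntegers KK) :
    ∃ m : Eis, CU.t5b_lo v p ∣ x - CU.t5b_lo v m := by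
  have hirr : Irreducible (CU.t5b_lo v p) := CU.t5b_irr' hb hv
  obtain ⟨m, hm⟩ := (CMT.residue_completion KK v).1 (IsLocalRing.residue (v.adicCompletionIntegers KK) x)
  refine ⟨eE.symm m, ?_⟩
  have h1 : IsLocalRing.residue (v.adicCompletionIntegers KK) (x - CU.t5b_lo v (eE.symm m)) = 0 := by
    have h2 : CU.t5b_lo v (eE.symm m) = algebraMap (𝓞 KK) (v.adicCompletionIntegers KK) m := by
      show algebraMap (𝓞 KK) (v.adicCompletionIntegers KK) (eE (eE.symm m)) = _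
      rw [eE.apply_symm_apply]
    rw [map_sub, h2, ← hm, RingHom.comp_apply, sub_self]
  rw [IsLocalRing.residue_eq_zero_iff,
    (IsDiscreteValuationRing.irreducible_iff_uniformizer _).1 hirr, Ideal.mem_span_singleton] at h1
  exact h1

theorem Z0a_unit (hb : Prime p) (hv : v.asIdeal = Ideal.span {eE p}) {x : v.adicCompletionIntegers KK}
    (h : ¬ CU.t5b_lo v p ∣ x) : IsUnit x := by
  have hirr : Irreducible (CU.t5b_lo v p) := CU.t5b_irr' hb hv
  by_contra h1
  apply h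
  have h2 : x ∈ IsLocalRing.maximalIdeal (v.adicCompletionIntegers KK) :=
    (IsLocalRing.mem_maximalIdeal x).2 h1
  rw [(IsDiscreteValuationRing.irreducible_iff_uniformizer _).1 hirr, Ideal.mem_span_singleton] at h2
  exact h2

theorem Z0a_pow (hb : Prime p) (hv : v.asIdeal = Ideal.span {eE p}) (n : ℕ) (y : Eis)
    (h : CU.t5b_lo v p ^ n ∣ CU.t5b_lo v y) : p ^ n ∣ y := by
  induction n generalizing y with
  | zero => rw [pow_zero]; exact one_dvd y
  | succ n ih =>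
    have h1 : p ∣ y := by
      by_contra h2
      exact CU.t5b_dvd hb hv y h2 ((dvd_pow_self _ (Nat.succ_ne_zero n)).trans h)
    obtain ⟨y', rfl⟩ := h1
    rw [map_mul, pow_succ'] at h
    have h3 := (mul_dvd_mul_iff_left (CU.t5b_irr' hb hv).ne_zero).1 h
    rw [pow_succ']
    exact mul_dvd_mul_left p (ih y' h3)

theorem Z0a_val1 {x : v.adicCompletionIntegers KK} (h : IsUnit x) :
    Valued.v (x : v.adicCompletion KK) = (1 : WithZero (Multiplicative ℤ)) := by
  obtain ⟨y, hy⟩ := h.exists_right_inv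
  have h1 : (x : v.adicCompletion KK) * (y : v.adicCompletion KK) = 1 := by
    have := congrArg (fun z : v.adicCompletionIntegers KK => (z : v.adicCompletion KK)) hy
    exact this
  have h2 : Valued.v (x : v.adicCompletion KK) * Valued.v (y : v.adicCompletion KK) =
      (1 : WithZero (Multiplicative ℤ)) := by
    rw [← map_mul, h1, map_one]
  have hx : Valued.v (x : v.adicCompletion KK) ≤ (1 : WithZero (Multiplicative ℤ)) := x.2
  have hy' : Valued.v (y : v.adicCompletion KK) ≤ (1 : WithZero (Multiplicative ℤ)) := y.2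
  refine le_antisymm hx ?_
  rw [← h2]
  exact mul_le_of_le_one_right' hy'

/-- the two cases: a unit, or `p` divides the root -/
theorem Z0a_cases (hb : Prime p) (hv : v.asIdeal = Ideal.span {eE p}) {D : Eis} (hfree : ¬ p ^ 6 ∣ D)
    {r : v.adicCompletionIntegers KK} (hr : r ^ 3 = CU.t5b_lo v D) :
    IsUnit r ∨ ∃ (c : Eis) (r' : v.adicCompletionIntegers KK), D = p ^ 3 * c ∧ ¬ p ∣ c ∧ r = CU.t5b_lo v p * r' ∧
      IsUnit r' ∧ r' ^ 3 = CU.t5b_lo v c := by
  have hirr : Irreducible (CU.t5b_lo v p) := CU.t5b_irr' hb hv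
  by_cases h : CU.t5b_lo v p ∣ r
  · right
    obtain ⟨r', rfl⟩ := h
    have h1 : CU.t5b_lo v p ^ 3 ∣ CU.t5b_lo v D := ⟨r' ^ 3, by rw [← hr]; ring⟩
    obtain ⟨c, rfl⟩ := Z0a_pow hb hv 3 D h1
    have h2 : r' ^ 3 = CU.t5b_lo v c := by
      rw [mul_pow, map_mul, map_pow] at hr
      exact mul_left_cancel₀ (pow_ne_zero 3 hirr.ne_zero) hr
    have h3 : ¬ CU.t5b_lo v p ∣ r' := by
      rintro ⟨r'', rfl⟩
      have h4 : CU.t5b_lo v p ^ 3 ∣ CU.t5b_lo v c := ⟨r'' ^ 3, by rw [← h2]; ring⟩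
      obtain ⟨c', rfl⟩ := Z0a_pow hb hv 3 c h4
      exact hfree ⟨c', by ring⟩
    have h5 : ¬ p ∣ c := by
      rintro ⟨c', rfl⟩
      rw [map_mul] at h2
      exact h3 (hirr.prime.dvd_of_dvd_pow ⟨_, h2⟩)
    exact ⟨c, r', rfl, h5, rfl, Z0a_unit hb hv h3, h2⟩
  · exact Or.inl (Z0a_unit hb hv h)

theorem Z0a_la4 (hv : v.asIdeal = Ideal.span {eE la}) {r y s : v.adicCompletionIntegers KK} (hs : s = 1 ∨ s = -1)
    (hy : r - s = CU.t5b_lo v la * y) : CU.t5b_lo v la ^ 4 ∣ r ^ 3 - s := by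
  have h3 := CU.t5b_three v
  have hE : CU.t5b_lo v la ∣ CU.t5b_lo v (-om ^ 2) + 1 := by
    refine ⟨CU.t5b_lo v (1 + om), ?_⟩
    rw [← map_mul, ← map_one (CU.t5b_lo v), ← map_add]
    congr 1
  have hyy : CU.t5b_lo v la ∣ y ^ 3 - y := by
    have e : y ^ 3 - y = y * ((y - 1) * (y + 1)) := by ring
    rw [e]
    rcases CU.t5b_res hv y with h | h | h
    · exact h.mul_right _
    · exact (h.mul_right _).mul_left _
    · exact (h.mul_left _).mul_left _
  obtain ⟨a, ha⟩ := hE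
  obtain ⟨b, hb⟩ := hyy
  have hs2 : s ^ 2 = 1 := by rcases hs with rfl | rfl <;> ring
  have hr : r = s + CU.t5b_lo v la * y := by rw [← hy]; ring
  refine ⟨a * y + b + CU.t5b_lo v (-om ^ 2) * s * y ^ 2, ?_⟩
  rw [hr]
  set l := CU.t5b_lo v la
  set E := CU.t5b_lo v (-om ^ 2)
  linear_combination (s + 3 * l * y) * hs2 + (l * y + s * l ^ 2 * y ^ 2) * h3 + l ^ 3 * y * ha + l ^ 3 * hb

theorem Z0a_la (hv : v.asIdeal = Ideal.span {eE la}) {D : Eis} (hD : Cl2 D)
    {r : v.adicCompletionIntegers KK} (hr : r ^ 3 = CU.t5b_lo v D) :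
    ∃ r' : v.adicCompletionIntegers KK, r = CU.t5b_lo v la * r' ∧ IsUnit r' := by
  have hlp : Prime la := CU.la_prime
  rcases Z0a_cases hlp hv (hD.free la hlp) hr with h | ⟨c, r', -, -, h1, h2, -⟩
  · exfalso
    have key : ∀ (η : Eis) (s : v.adicCompletionIntegers KK), (η = 1 ∨ η = -1) → s = CU.t5b_lo v η → (s = 1 ∨ s = -1) →
        CU.t5b_lo v la ∣ r - s → False := by
      rintro η s hη hs hs' ⟨y, hy⟩
      have h1 := Z0a_la4 hv hs' hy
      rw [hr, hs, ← map_sub] at h1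
      exact hD.lam η hη (Z0a_pow hlp hv 4 _ h1)
    rcases CU.t5b_res hv r with h1 | h1 | h1
    · exact (CU.t5b_irr' hlp hv).not_isUnit (isUnit_of_dvd_unit h1 h)
    · exact key 1 1 (Or.inl rfl) (map_one _).symm (Or.inl rfl) h1
    · refine key (-1) (-1) (Or.inr rfl) (by rw [map_neg, map_one]) (Or.inr rfl) ?_
      rw [sub_neg_eq_add]
      exact h1
  · exact ⟨r', h1, h2⟩

theorem Z0a_eis_two {x : Eis} (h : ¬ (2 : Eis) ∣ x) : (2 : Eis) ∣ x ^ 3 - 1 := by
  obtain ⟨a, b⟩ := x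
  have key : ∀ x₀ y : Eis, (⟨a, b⟩ : Eis) = x₀ + 2 * y → (2 : Eis) ∣ x₀ ^ 3 - 1 → (2 : Eis) ∣ (⟨a, b⟩ : Eis) ^ 3 - 1 := by
    rintro x₀ y h1 ⟨z, hz⟩
    rw [h1]
    exact ⟨z + 3 * x₀ ^ 2 * y + 6 * x₀ * y ^ 2 + 4 * y ^ 3, by linear_combination hz⟩
  have e2 : (2 : Eis) = ⟨2, 0⟩ := rfl
  have e1r : (1 : Eis).re = 1 := rfl
  have e1i : (1 : Eis).im = 0 := rfl
  rcases Int.even_or_odd' a with ⟨k, rfl | rfl⟩ <;> rcases Int.even_or_odd' b with ⟨m, rfl | rfl⟩
  · exfalso
    apply h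
    refine ⟨⟨k, m⟩, ?_⟩
    rw [e2]
    apply QuadraticAlgebra.ext
    · rw [QuadraticAlgebra.re_mul]; simp
    · rw [QuadraticAlgebra.im_mul]; simp
  · refine key om ⟨k, m⟩ ?_ ⟨0, by decide⟩
    rw [e2]
    apply QuadraticAlgebra.ext
    · rw [QuadraticAlgebra.re_add, QuadraticAlgebra.re_mul]; simp [om]
    · rw [QuadraticAlgebra.im_add, QuadraticAlgebra.im_mul]; simp [om]; ring
  · refine key 1 ⟨k, m⟩ ?_ ⟨0, by decide⟩
    rw [e2]
    apply QuadraticAlgebra.ext
    · rw [QuadraticAlgebra.re_add, QuadraticAlgebra.re_mul, e1r]; simp; ring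
    · rw [QuadraticAlgebra.im_add, QuadraticAlgebra.im_mul, e1i]; simp
  · refine key (1 + om) ⟨k, m⟩ ?_ ⟨-1, by decide⟩
    rw [e2]
    apply QuadraticAlgebra.ext
    · rw [QuadraticAlgebra.re_add, QuadraticAlgebra.re_mul, QuadraticAlgebra.re_add, e1r]; simp [om]; ring
    · rw [QuadraticAlgebra.im_add, QuadraticAlgebra.im_mul, QuadraticAlgebra.im_add, e1i]; simp [om]; ring

theorem Z0a_two (hv : v.asIdeal = Ideal.span {eE (2 : Eis)}) {D : Eis} (hD : Cl2 D)
    {r : v.adicCompletionIntegers KK} (hr : r ^ 3 = CU.t5b_lo v D) : IsUnit r := by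
  have h2p : Prime (2 : Eis) := TH.b4_two_prime
  rcases Z0a_cases h2p hv (hD.free 2 h2p) hr with h | ⟨c, r', hDc, hc, h1, h2, h3⟩
  · exact h
  · exfalso
    obtain ⟨x, hx⟩ := Z0a_approx h2p hv r'
    have h4 : CU.t5b_lo v 2 ∣ CU.t5b_lo v (c - x ^ 3) := by
      rw [map_sub, map_pow, ← h3]
      have e : r' ^ 3 - CU.t5b_lo v x ^ 3 = (r' - CU.t5b_lo v x) * (r' ^ 2 + r' * CU.t5b_lo v x + CU.t5b_lo v x ^ 2) := by
        ring
      rw [e]
      exact hx.mul_right _
    have h5 : (2 : Eis) ∣ c - x ^ 3 := by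
      have := Z0a_pow h2p hv 1 (c - x ^ 3) (by rw [pow_one]; exact h4)
      rwa [pow_one] at this
    have h6 : ¬ (2 : Eis) ∣ x := by
      intro h7
      apply hc
      have h8 : (2 : Eis) ∣ x ^ 3 := dvd_pow h7 (by norm_num)
      have h9 := dvd_add h5 h8
      rwa [sub_add_cancel] at h9
    refine hD.two3 c (by rw [hDc]; norm_num) ?_
    have h7 := dvd_add h5 (Z0a_eis_two h6)
    rwa [sub_add_sub_cancel] at h7

theorem Z0a_odd (hp : Prime p) (hv : v.asIdeal = Ideal.span {eE p}) (h6 : ¬ p ∣ 6) {D : Eis} (hD : Cl2 D)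
    {r : v.adicCompletionIntegers KK} (hr : r ^ 3 = CU.t5b_lo v D) : IsUnit r := by
  rcases Z0a_cases hp hv (hD.free p hp) hr with h | ⟨c, r', hDc, hc, h1, h2, h3⟩
  · exact h
  · exfalso
    obtain ⟨x, hx⟩ := Z0a_approx hp hv r'
    refine hD.odd p c hp h6 hc hDc x ?_
    have h4 : CU.t5b_lo v p ∣ CU.t5b_lo v (c - x ^ 3) := by
      rw [map_sub, map_pow, ← h3]
      have e : r' ^ 3 - CU.t5b_lo v x ^ 3 = (r' - CU.t5b_lo v x) * (r' ^ 2 + r' * CU.t5b_lo v x + CU.t5b_lo v x ^ 2) := by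
        ring
      rw [e]
      exact hx.mul_right _
    have := Z0a_pow hp hv 1 (c - x ^ 3) (by rw [pow_one]; exact h4)
    rwa [pow_one] at this

end Z0a

/-- [Z0a] -/
theorem good_at {D : Eis} (hD : Cl2 D) (v : HeightOneSpectrum (𝓞 KK)) {o ρ : v.adicCompletion KK} (ho : o ^ 2 + o + 1 = 0)
    (hρ : ρ ^ 3 = algebraMap KK (v.adicCompletion KK) (jK D)) :
    ∃ c : v.adicCompletion KK, c ≠ 0 ∧ Valued.v ((1 - o) * ρ) = Valued.v c ^ 2 := by
  have hdom := eis_isDomain
  have hρ' : ρ ^ 3 = ((CU.t5b_lo v D : v.adicCompletionIntegers KK) : v.adicCompletion KK) := hρ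
  have hvρ : Valued.v ρ ≤ (1 : WithZero (Multiplicative ℤ)) := by
    have h1 : Valued.v ρ ^ 3 ≤ (1 : WithZero (Multiplicative ℤ)) := by
      rw [← map_pow, hρ']
      exact (CU.t5b_lo v D).2
    exact (pow_le_one_iff (by norm_num)).1 h1
  have hvo : Valued.v o = (1 : WithZero (Multiplicative ℤ)) := by
    have h1 : o ^ 3 = 1 := by linear_combination (o - 1) * ho
    have h2 : Valued.v o ^ 3 = (1 : WithZero (Multiplicative ℤ)) := by rw [← map_pow, h1, map_one]
    rw [← one_pow (M := WithZero (Multiplicative ℤ)) 3] at h2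
    exact (pow_left_inj₀ zero_le zero_le (by norm_num)).1 h2
  obtain ⟨r, hrρ⟩ : ∃ r : v.adicCompletionIntegers KK, (r : v.adicCompletion KK) = ρ := ⟨⟨ρ, hvρ⟩, rfl⟩
  have hr : r ^ 3 = CU.t5b_lo v D := by
    apply Subtype.ext
    rw [← hrρ] at hρ'
    exact hρ'
  have h1o : Valued.v (1 - o) ^ 2 = Valued.v (3 : v.adicCompletion KK) := by
    rw [← map_pow]
    have e : (1 - o) ^ 2 = -(3 * o) := by linear_combination ho
    rw [e, Valuation.map_neg, map_mul, hvo, mul_one]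
  have hcancel : ∀ {a b : WithZero (Multiplicative ℤ)}, a ^ 2 = b ^ 2 → a = b := fun {a b} h =>
    (pow_left_inj₀ zero_le zero_le (by norm_num)).1 h
  obtain ⟨p, hp, hv⟩ := CU.gen v
  by_cases h3 : p ∣ 3
  · have h4 : p ∣ la := by
      rw [CU.three_eq] at h3
      rcases hp.dvd_or_dvd h3 with h5 | h5
      · exact absurd (isUnit_of_dvd_unit h5 ((CU.om_unit.pow 2).neg)) hp.not_isUnit
      · exact hp.dvd_of_dvd_pow h5
    have hv' : v.asIdeal = Ideal.span {eE la} := by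
      rw [hv]
      exact CU.s1_span (hp.irreducible.associated_of_dvd CU.la_prime.irreducible h4)
    obtain ⟨r', h5, h6⟩ := Z0a_la hv' hD hr
    refine ⟨((CU.t5b_lo v la : v.adicCompletionIntegers KK) : v.adicCompletion KK), ?_, ?_⟩
    · intro h7
      exact (CU.t5b_irr' CU.la_prime hv').ne_zero (Subtype.ext h7)
    · have h7 : Valued.v (1 - o) = Valued.v ((CU.t5b_lo v la : v.adicCompletionIntegers KK) : v.adicCompletion KK) := by
        apply hcancel
        rw [h1o]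
        have e : (3 : v.adicCompletion KK) = ((CU.t5b_lo v (-om ^ 2) : v.adicCompletionIntegers KK) : v.adicCompletion KK) *
            ((CU.t5b_lo v la : v.adicCompletionIntegers KK) : v.adicCompletion KK) ^ 2 := by
          have := congrArg (fun z : v.adicCompletionIntegers KK => (z : v.adicCompletion KK)) (CU.t5b_three v)
          exact this
        rw [e, map_mul, map_pow, Z0a_val1 (CU.t5b_eps v), one_mul]
      have h8 : Valued.v ρ = Valued.v ((CU.t5b_lo v la : v.adicCompletionIntegers KK) : v.adicCompletion KK) := by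
        rw [← hrρ, h5]
        show Valued.v (((CU.t5b_lo v la : v.adicCompletionIntegers KK) : v.adicCompletion KK) * (r' : v.adicCompletion KK)) = _
        rw [map_mul, Z0a_val1 h6, mul_one]
      rw [map_mul, h7, h8, sq]
  · have hr1 : IsUnit r := by
      by_cases h2 : p ∣ 2
      · have hv' : v.asIdeal = Ideal.span {eE (2 : Eis)} := by
          rw [hv]
          exact CU.s1_span (hp.irreducible.associated_of_dvd TH.b4_two_prime.irreducible h2)
        exact Z0a_two hv' hD hr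
      · refine Z0a_odd hp hv ?_ hD hr
        intro h6
        have e : (6 : Eis) = 2 * 3 := by norm_num
        rw [e] at h6
        rcases hp.dvd_or_dvd h6 with h | h
        · exact h2 h
        · exact h3 h
    refine ⟨1, one_ne_zero, ?_⟩
    have h7 : Valued.v (1 - o) = (1 : WithZero (Multiplicative ℤ)) := by
      apply hcancel
      rw [h1o, one_pow]
      have h8 := Z0a_val1 (CU.t5b_unit hv 3 h3)
      rw [map_ofNat] at h8
      exact h8
    rw [map_mul, h7, one_mul, map_one, one_pow, ← hrρ]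
    exact Z0a_val1 hr1

theorem z0b_nm (D : Eis) {u : KK × KK × KK} (hu : nm (jK D) u ≠ 0) (hs : IsSquare (nm (jK D) u)) (v : HeightOneSpectrum (𝓞 KK)) :
    nm (algebraMap KK (v.adicCompletion KK) (jK D)) (mp (algebraMap KK (v.adicCompletion KK)) u) ≠ 0 ∧
    IsSquare (nm (algebraMap KK (v.adicCompletion KK) (jK D)) (mp (algebraMap KK (v.adicCompletion KK)) u)) := by
  rw [mp_nm]
  refine ⟨(map_ne_zero _).2 hu, ?_⟩
  exact hs.map (algebraMap KK (v.adicCompletion KK))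

theorem z0b_o (v : HeightOneSpectrum (𝓞 KK)) : (algebraMap KK (v.adicCompletion KK) (jK CU.om)) ^ 2 +
    algebraMap KK (v.adicCompletion KK) (jK CU.om) + 1 = 0 := CUD.am_o (by
  rw [← map_pow, ← map_one jK, ← map_add, ← map_add, show CU.om ^ 2 + CU.om + 1 = 0 by decide, map_zero])

section
variable {D : Eis} {F : Type} [Field F] [NumberField F] [Algebra KK F] {s : F} {σ : F ≃ₐ[KK] F}

/-- [Z0b] -/
theorem ev_of_loc (hD : Cl2 D) (hQ : Cub D s σ) {u : KK × KK × KK} (hu : nm (jK D) u ≠ 0) (hs : IsSquare (nm (jK D) u))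
    (hl : ∀ v : HeightOneSpectrum (𝓞 KK),
      LocA (algebraMap KK (v.adicCompletion KK) (jK D)) (mp (algebraMap KK (v.adicCompletion KK)) u)) :
    Ev (ev (mp (algebraMap KK F) u) s) := by
  intro w
  have hD0 := cl2_ne hD
  by_cases hw : ∀ z : F, w.valuation F (σ z) = w.valuation F z
  · exact ev_fix hD0 hQ w hw hu hs
  · push Not at hw
    obtain ⟨v, φ, hB, ρ, hρ, hφρ⟩ := split_w hD0 hQ w hw
    obtain ⟨c, hc0, hc⟩ := good_at hD v (z0b_o v) hρ
    obtain ⟨hu', hs'⟩ := z0b_nm D hu hs v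
    have h1 := sp_dir Valued.v (z0b_o v) hρ hc0 hc hu' hs' (hl v) ρ hρ
    obtain ⟨g, hg⟩ := below_sq hB h1
    refine ⟨g, ?_⟩
    have h2 : φ (ev (mp (algebraMap KK (v.adicCompletion KK)) u) ρ) =
        algebraMap F (w.adicCompletion F) (ev (mp (algebraMap KK F) u) s) := by
      simp only [ev, mp, map_add, map_mul, map_pow, hB.comm, hφρ]
    rw [h2] at hg
    rw [← hg]
    exact (HeightOneSpectrum.valuedAdicCompletion_eq_valuation' w _).symm

/-- [Z0c] -/
theorem loc_of_ev (hD : Cl2 D) (hQ : Cub D s σ) {u : KK × KK × KK} (hu : nm (jK D) u ≠ 0) (hs : IsSquare (nm (jK D) u))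
    (he : Ev (ev (mp (algebraMap KK F) u) s)) (v : HeightOneSpectrum (𝓞 KK)) (h2 : v.valuation KK 2 = 1) :
    LocA (algebraMap KK (v.adicCompletion KK) (jK D)) (mp (algebraMap KK (v.adicCompletion KK)) u) := by
  have hD0 := cl2_ne hD
  obtain ⟨hu', hs'⟩ := z0b_nm D hu hs v
  have hd0 : algebraMap KK (v.adicCompletion KK) (jK D) ≠ 0 := by
    refine (map_ne_zero _).2 fun h => hD0 (jK_inj (h.trans (map_zero jK).symm))
  by_cases hc : ∃ ρ : v.adicCompletion KK, ρ ^ 3 = algebraMap KK (v.adicCompletion KK) (jK D)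
  · obtain ⟨ρ, hρ⟩ := hc
    obtain ⟨c, hc0, hc⟩ := good_at hD v (z0b_o v) hρ
    exact sp_conv v h2 (z0b_o v) hd0 hρ hc0 hc hu' hs' fun ρ' hρ' => val_of_ev hD0 hQ hu he v hρ'
  · push Not at hc
    exact Or.inl (ns_sq h2 (z0b_o v) hc hu' hs')

theorem z0_two (v : HeightOneSpectrum (𝓞 KK)) : v.valuation KK 2 < 1 ∨ v.valuation KK 2 = 1 := by
  have h : v.valuation KK (algebraMap (𝓞 KK) KK 2) ≤ 1 := HeightOneSpectrum.valuation_le_one v 2
  rw [map_ofNat] at h
  exact lt_or_eq_of_le h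

theorem sel0_iff (hD : Cl2 D) (hQ : Cub D s σ) : Sel0 KK (jK D) ↔ NoBad2 D s := by
  constructor
  · intro h u hu hs he hl
    refine h u hu hs fun v => ?_
    rcases z0_two v with h2 | h2
    · exact hl v h2
    · exact loc_of_ev hD hQ hu hs he v h2
  · intro h u hu hs hl
    exact h u hu hs (ev_of_loc hD hQ hu hs hl) fun v _ => hl v

end

end JT
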