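import Pool.Agent.JT.R1
import Pool.Agent.JT.UC
import Pool.Agent.JD.T1

/-!
# [JT-T2] the field `KM D = ℚ(ω, ∛D)` inside `ℂ`

PROOF. `finrank_KM` [T2a]: as `JD.finrank_KD` / `t1a_fin` (JD/T1.lean) with three coordinates: every element of `KM D` is `u₀ + u₁ c + u₂ c²`, `c = cD D`, `u_i ∈ KK` (`t1a_adj`: `KM D` is `Algebra.adjoin ℚ {w, c}` since `w`, `c` are algebraic; the set of these elements is a `ℚ`-subalgebra: `c³ = emb D`), and `1, c, c²` are linearly independent over `KK`: `X³ - D` is irreducible over `KK` (no root: `not_cube hD.ncube`), so it is the minimal polynomial of `c`.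
(Or: `KM D` as an extension of `KK` is generated by `c` and its degree is the degree of the minimal polynomial.)
`exists_cubM` [T2a]: `exists_cub` (Q1).
`on2_iff` [T2b]: the elements of `KM D` and their images in `ℂ`: `jF_coeM`, `push_cast`; `isIntegral_algebraMap_iff` as in `JG.int_iffG` (JG/TG.lean).
`uc2_iff` [T2b]: `Odd n ↔ ¬ 2 ∣ n`. A unit `e` with triple `u`: its value is `u₀ + u₁ c + u₂ c²`, the norm: `norm3`/`nm_ev` (the product of the three values is `nm`), `on2_iff`, `on2F_iff`. Conversely `x = ev (mp u) s` is integral of norm 1, `x · (σ x · σ² x) = 1` (`norm3`) and `σ x · σ² x` is integral: a unit.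
-/

set_option autoImplicit false

open NumberField IsDedekindDomain
open scoped Classical

namespace JT

open CM27 CF JZ JD
open CU (la om eE)

theorem w_memM (D : Eis) : w ∈ KM D := IntermediateField.subset_adjoin ℚ _ (Set.mem_insert _ _)

theorem cD_mem (D : Eis) : cD D ∈ KM D := IntermediateField.subset_adjoin ℚ _ (Set.mem_insert_of_mem _ (Set.mem_singleton _))

theorem jF_coeM (D a : Eis) : letI := algK (KM D) (w_memM D); ((jF (KM D) a : KM D) : ℂ) = emb a := t1a_jF (KM D) (w_memM D) a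

theorem cubeM (D : Eis) : letI := algK (KM D) (w_memM D); (⟨cD D, cD_mem D⟩ : KM D) ^ 3 = jF (KM D) D := by
  letI := algK (KM D) (w_memM D)
  apply Subtype.ext
  rw [jF_coeM D D, ← cD_cube D]
  rfl

/-- `KK + KK c + KK c²` -/
noncomputable def T2a_A (D : Eis) : Subalgebra ℚ ℂ where
  carrier := {z | ∃ u v t : ℂ, u ∈ KK ∧ v ∈ KK ∧ t ∈ KK ∧ z = u + v * cD D + t * cD D ^ 2}
  mul_mem' := by
    rintro _ _ ⟨u, v, t, hu, hv, ht, rfl⟩ ⟨u', v', t', hu', hv', ht', rfl⟩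
    have hE := t1a_emb D
    refine ⟨u * u' + (v * t' + t * v') * emb D, u * v' + v * u' + t * t' * emb D, u * t' + v * v' + t * u', ?_, ?_, ?_, ?_⟩
    · exact add_mem (mul_mem hu hu') (mul_mem (add_mem (mul_mem hv ht') (mul_mem ht hv')) hE)
    · exact add_mem (add_mem (mul_mem hu hv') (mul_mem hv hu')) (mul_mem (mul_mem ht ht') hE)
    · exact add_mem (add_mem (mul_mem hu ht') (mul_mem hv hv')) (mul_mem ht hu')
    · linear_combination (v * t' + t * v' + t * t' * cD D) * cD_cube D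
  add_mem' := by
    rintro _ _ ⟨u, v, t, hu, hv, ht, rfl⟩ ⟨u', v', t', hu', hv', ht', rfl⟩
    exact ⟨u + u', v + v', t + t', add_mem hu hu', add_mem hv hv', add_mem ht ht', by ring⟩
  algebraMap_mem' := by
    intro q
    exact ⟨_, 0, 0, KK.algebraMap_mem q, zero_mem _, zero_mem _, by rw [zero_mul, zero_mul, add_zero, add_zero]⟩

theorem T2a_mem {D : Eis} {z : ℂ} (hz : z ∈ KM D) :
    ∃ u v t : ℂ, u ∈ KK ∧ v ∈ KK ∧ t ∈ KK ∧ z = u + v * cD D + t * cD D ^ 2 := by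
  have h2 := t1a_adj (cD D) (isIntegral_cD D) hz
  have h3 : Algebra.adjoin ℚ {w, cD D} ≤ T2a_A D := by
    apply Algebra.adjoin_le
    intro x hx
    rcases hx with rfl | hx
    · exact ⟨w, 0, 0, IntermediateField.subset_adjoin ℚ _ (Set.mem_singleton _), zero_mem _, zero_mem _,
        by ring⟩
    · rw [Set.mem_singleton_iff] at hx
      rw [hx]
      exact ⟨0, 1, 0, zero_mem _, one_mem _, zero_mem _, by ring⟩
  exact h3 h2

theorem T2a_li {D : Eis} (hD : Cl2 D) {a b e : KK} (h : (a : ℂ) + (b : ℂ) * cD D + (e : ℂ) * cD D ^ 2 = 0) :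
    a = 0 ∧ b = 0 ∧ e = 0 := by
  have ho : (jK om : KK) ^ 2 + jK om + 1 = 0 := by
    apply Subtype.ext
    have h1 : ((jK om : KK) : ℂ) = emb om := CU.eE_coe om
    have h2 : (((jK om : KK) ^ 2 + jK om + 1 : KK) : ℂ) = emb om ^ 2 + emb om + 1 := by
      push_cast
      rw [h1]
    rw [h2, ← map_pow, ← map_add, ← map_one (emb : Eis →+* ℂ), ← map_add]
    rw [show (om ^ 2 + om + 1 : Eis) = 0 by decide]
    simp
  have hd : ((jK D : KK) : ℂ) = emb D := CU.eE_coe D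
  have hnm : nm (jK D) (a, b, e) = 0 := by
    apply Subtype.ext
    have hw : (((jK om : KK)) : ℂ) ^ 2 + ((jK om : KK) : ℂ) + 1 = 0 := by
      have := congrArg (fun z : KK => (z : ℂ)) ho
      simpa using this
    have h1 := nm_ev (C := ℂ) (d := emb D) (ρ := cD D) hw (cD_cube D) ((a : ℂ), (b : ℂ), (e : ℂ))
    have h2 : ev ((a : ℂ), (b : ℂ), (e : ℂ)) (cD D) = 0 := h
    rw [h2, zero_mul, zero_mul] at h1
    have h3 : ((nm (jK D) (a, b, e) : KK) : ℂ) = nm (emb D) ((a : ℂ), (b : ℂ), (e : ℂ)) := by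
      simp only [nm]
      push_cast
      rw [hd]
      rfl
    rw [h3, ← h1]
    rfl
  have h5 := nm_noncube ho (not_cube hD.ncube) hnm
  simp only [Prod.mk.injEq] at h5
  exact h5

/-- [T2a] -/
theorem finrank_KM {D : Eis} (hD : Cl2 D) : letI := algK (KM D) (w_memM D); Module.finrank KK (KM D) = 3 := by
  letI := algK (KM D) (w_memM D)
  have hli : LinearIndependent KK ![(1 : KM D), ⟨cD D, cD_mem D⟩, (⟨cD D, cD_mem D⟩ : KM D) ^ 2] := by
    rw [Fintype.linearIndependent_iff]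
    intro g hg
    rw [Fin.sum_univ_three] at hg
    have h2 : (g 0 : ℂ) + (g 1 : ℂ) * cD D + (g 2 : ℂ) * cD D ^ 2 = 0 := by
      have h1 := congrArg (fun z : KM D => (z : ℂ)) hg
      have h3 : (g 0 : ℂ) * 1 + (g 1 : ℂ) * cD D + (g 2 : ℂ) * cD D ^ 2 = 0 := h1
      rw [mul_one] at h3
      exact h3
    obtain ⟨h3, h4, h5⟩ := T2a_li hD h2
    intro i
    fin_cases i
    · exact h3
    · exact h4
    · exact h5
  have hsp : ⊤ ≤ Submodule.span KK (Set.range ![(1 : KM D), ⟨cD D, cD_mem D⟩, (⟨cD D, cD_mem D⟩ : KM D) ^ 2]) := by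
    rintro ⟨z, hzF⟩ -
    obtain ⟨u, v, t, hu, hv, ht, huv⟩ := T2a_mem hzF
    have h1 : (⟨z, hzF⟩ : KM D) = (⟨u, hu⟩ : KK) • (1 : KM D) + (⟨v, hv⟩ : KK) • (⟨cD D, cD_mem D⟩ : KM D) +
        (⟨t, ht⟩ : KK) • (⟨cD D, cD_mem D⟩ : KM D) ^ 2 := by
      apply Subtype.ext
      show z = u * 1 + v * cD D + t * cD D ^ 2
      rw [huv, mul_one]
    rw [h1]
    exact Submodule.add_mem _ (Submodule.add_mem _ (Submodule.smul_mem _ _ (Submodule.subset_span ⟨0, rfl⟩))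
      (Submodule.smul_mem _ _ (Submodule.subset_span ⟨1, rfl⟩))) (Submodule.smul_mem _ _ (Submodule.subset_span ⟨2, rfl⟩))
  have h := Module.finrank_eq_card_basis (Module.Basis.mk hli hsp)
  rw [h, Fintype.card_fin]

/-- [T2a] -/
theorem exists_cubM {D : Eis} (hD : Cl2 D) : letI := algK (KM D) (w_memM D);
    ∃ σ : KM D ≃ₐ[KK] KM D, Cub D (⟨cD D, cD_mem D⟩ : KM D) σ := by
  letI := algK (KM D) (w_memM D)
  exact exists_cub hD.ncube (KM D) (finrank_KM hD) _ (cubeM D)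

theorem T2b_int {D : Eis} (x : KM D) (y : ℂ) (h : (x : ℂ) = y) : IsIntegral ℤ y ↔ IsIntegral ℤ x := by
  subst h
  exact isIntegral_algebraMap_iff (A := KM D) (B := ℂ) (algebraMap (KM D) ℂ).injective

/-- [T2b] -/
theorem on2_iff {D : Eis} (u : KM D) : letI := algK (KM D) (w_memM D);
    On2 D (cD D) (u : ℂ) ↔ On2F D (⟨cD D, cD_mem D⟩ : KM D) u := by
  letI := algK (KM D) (w_memM D)
  unfold On2 On2F
  refine or_congr ?_ (or_congr ?_ ?_)
  · refine exists_congr fun m => exists_congr fun D' => exists_congr fun q₁ => exists_congr fun q₂ => ?_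
    refine and_congr_right fun _ => and_congr_right fun _ => and_congr_right fun _ => and_congr_right fun _ => ?_
    refine T2b_int _ _ ?_
    rw [← jF_coeM D q₁, ← jF_coeM D q₂]
    push_cast
    rfl
  · refine exists_congr fun k => exists_congr fun D' => ?_
    refine and_congr_right fun _ => and_congr_right fun _ => and_congr_right fun _ => ?_
    refine T2b_int _ _ ?_
    push_cast
    rfl
  · refine exists_congr fun D' => ?_
    refine and_congr_right fun _ => and_congr_right fun _ => exists_congr fun a => ?_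
    constructor
    · rintro ⟨c, ha, hc, hi, hi'⟩
      refine ⟨⟨c, hc⟩, ha, (T2b_int _ _ rfl).1 hi, (T2b_int _ _ ?_).1 hi'⟩
      rw [← jF_coeM D a, ← jF_coeM D (a ^ 3 * D)]
      push_cast
      rfl
    · rintro ⟨c, ha, hi, hi'⟩
      refine ⟨(c : ℂ), ha, c.2, (T2b_int _ _ rfl).2 hi, (T2b_int _ _ ?_).2 hi'⟩
      rw [← jF_coeM D a, ← jF_coeM D (a ^ 3 * D)]
      push_cast
      rfl

theorem T2b_ev {D : Eis} (u : KK × KK × KK) : letI := algK (KM D) (w_memM D);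
    ((ev (mp (algebraMap KK (KM D)) u) (⟨cD D, cD_mem D⟩ : KM D) : KM D) : ℂ) =
      (u.1 : ℂ) + (u.2.1 : ℂ) * cD D + (u.2.2 : ℂ) * cD D ^ 2 := rfl

theorem T2b_nm {D : Eis} (u : KK × KK × KK) :
    ((u.1 : ℂ) + (u.2.1 : ℂ) * cD D + (u.2.2 : ℂ) * cD D ^ 2) *
      ((u.1 : ℂ) + (u.2.1 : ℂ) * (w * cD D) + (u.2.2 : ℂ) * (w * cD D) ^ 2) *
      ((u.1 : ℂ) + (u.2.1 : ℂ) * (w ^ 2 * cD D) + (u.2.2 : ℂ) * (w ^ 2 * cD D) ^ 2) = ((nm (jK D) u : KK) : ℂ) := by
  have h1 := nm_ev (d := emb D) (ρ := cD D) (o := w) (by linear_combination CM27.w_sq) (cD_cube D) (mp (algebraMap KK ℂ) u)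
  have h2 := mp_nm (algebraMap KK ℂ) (jK D) u
  have h3 : algebraMap KK ℂ (jK D) = emb D := CU.eE_coe D
  rw [h3] at h2
  exact h1.trans h2

/-- [T2b] -/
theorem uc2_iff {D : Eis} (hD : Cl2 D) : letI := algK (KM D) (w_memM D);
    UC2 D ↔ (¬ 2 ∣ classNumber (KM D) ∧ ∃ (e : (𝓞 (KM D))ˣ) (u : KK × KK × KK),
      (e : KM D) = ev (mp (algebraMap KK (KM D)) u) (⟨cD D, cD_mem D⟩ : KM D) ∧ nm (jK D) u = 1 ∧ ¬ L2 D u) := by
  letI := algK (KM D) (w_memM D)
  obtain ⟨σ, hQ⟩ := exists_cubM hD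
  have hodd : Odd (classNumber (KM D)) ↔ ¬ 2 ∣ classNumber (KM D) := by
    rw [← Nat.not_even_iff_odd, even_iff_two_dvd]
  constructor
  · rintro ⟨h1, u₀, u₁, u₂, hu₀, hu₁, hu₂, hn, hi, ho⟩
    refine ⟨hodd.1 h1, ?_⟩
    have hev := T2b_ev (D := D) ((⟨u₀, hu₀⟩ : KK), (⟨u₁, hu₁⟩ : KK), (⟨u₂, hu₂⟩ : KK))
    have hnm := T2b_nm (D := D) ((⟨u₀, hu₀⟩ : KK), (⟨u₁, hu₁⟩ : KK), (⟨u₂, hu₂⟩ : KK))
    generalize hu : (((⟨u₀, hu₀⟩ : KK), (⟨u₁, hu₁⟩ : KK), (⟨u₂, hu₂⟩ : KK)) : KK × KK × KK) = u at hev hnm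
    have e0 : (u.1 : ℂ) = u₀ := by rw [← hu]
    have e1 : (u.2.1 : ℂ) = u₁ := by rw [← hu]
    have e2 : (u.2.2 : ℂ) = u₂ := by rw [← hu]
    rw [e0, e1, e2] at hev hnm
    rw [hn] at hnm
    have hn1 : nm (jK D) u = 1 := by
      apply Subtype.ext
      exact hnm.symm
    have hx : IsIntegral ℤ (ev (mp (algebraMap KK (KM D)) u) (⟨cD D, cD_mem D⟩ : KM D)) := (T2b_int _ _ hev).1 hi
    have h3 := norm3 (cl2_ne hD) hQ u
    rw [hn1, map_one, mul_assoc] at h3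
    have hx' : IsIntegral ℤ (σ (ev (mp (algebraMap KK (KM D)) u) (⟨cD D, cD_mem D⟩ : KM D)) *
        σ (σ (ev (mp (algebraMap KK (KM D)) u) (⟨cD D, cD_mem D⟩ : KM D)))) :=
      (map_isIntegral_int σ hx).mul (map_isIntegral_int σ (map_isIntegral_int σ hx))
    refine ⟨⟨⟨_, hx⟩, ⟨_, hx'⟩, RingOfIntegers.ext h3, RingOfIntegers.ext ((mul_comm _ _).trans h3)⟩, u, rfl, hn1, ?_⟩
    intro hL
    apply ho
    have h4 := (on2F_iff hD hQ hn1 hx).2 hL
    have h5 := (on2_iff (D := D) _).2 h4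
    rw [hev] at h5
    exact h5
  · rintro ⟨h1, e, u, he, hn1, hL⟩
    refine ⟨hodd.2 h1, (u.1 : ℂ), (u.2.1 : ℂ), (u.2.2 : ℂ), u.1.2, u.2.1.2, u.2.2.2, ?_, ?_, ?_⟩
    · rw [T2b_nm, hn1]
      rfl
    · have h2 : IsIntegral ℤ (e : KM D) := RingOfIntegers.isIntegral_coe (e : 𝓞 (KM D))
      rw [he] at h2
      exact (T2b_int _ _ (T2b_ev u)).2 h2
    · intro ho
      apply hL
      have h2 : IsIntegral ℤ (e : KM D) := RingOfIntegers.isIntegral_coe (e : 𝓞 (KM D))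
      rw [he] at h2
      refine (on2F_iff hD hQ hn1 h2).1 ((on2_iff (D := D) _).1 ?_)
      rw [T2b_ev]
      exact ho

theorem sel0_uc {D : Eis} (hD : Cl2 D) : Sel0 KK (jK D) ↔ UC2 D := by
  letI := algK (KM D) (w_memM D)
  obtain ⟨σ, hQ⟩ := exists_cubM hD
  rw [sel0_iff hD hQ, uc2_iff hD]
  have hL := lc2 hD hQ
  constructor
  · intro h
    exact uc_of_nobad (cl2_ne hD) hQ hL h
  · rintro ⟨h1, h2⟩
    exact nobad_of_uc (cl2_ne hD) hQ hL h1 h2

end JT
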