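import Pool.Agent.JD.P2

/-!
# [JT-Alg] the cubic algebra `C[T]/(T³ - d)`: triples `u = (u₀, u₁, u₂)` for `u₀ + u₁ T + u₂ T²`
-/

set_option autoImplicit false

open scoped Classical

namespace JT

section
variable {C : Type} [Field C]

/-- the value at a cube root `ρ` of `d` -/
def ev (u : C × C × C) (ρ : C) : C := u.1 + u.2.1 * ρ + u.2.2 * ρ ^ 2

/-- the norm -/
def nm (d : C) (u : C × C × C) : C := u.1 ^ 3 + d * u.2.1 ^ 3 + d ^ 2 * u.2.2 ^ 3 - 3 * d * u.1 * u.2.1 * u.2.2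

/-- the product -/
def mu (d : C) (u v : C × C × C) : C × C × C :=
  (u.1 * v.1 + d * (u.2.1 * v.2.2 + u.2.2 * v.2.1), u.1 * v.2.1 + u.2.1 * v.1 + d * u.2.2 * v.2.2,
    u.1 * v.2.2 + u.2.1 * v.2.1 + u.2.2 * v.1)

/-- a square -/
def SqA (d : C) (u : C × C × C) : Prop := ∃ g : C × C × C, u = mu d g g

/-- `u` is the class of a point of `y² = x³ + d` (given that the norm of `u` is a square): `u` is a square or `u (x + T)` is a square. -/
def LocA (d : C) (u : C × C × C) : Prop :=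
  SqA d u ∨ ∃ x y : C, y ^ 2 = x ^ 3 + d ∧ SqA d (mu d u (x, 1, 0))

/-- the image of a triple -/
def mp {L : Type} [Field L] (f : C →+* L) (u : C × C × C) : L × L × L := (f u.1, f u.2.1, f u.2.2)

theorem ev_mu {d ρ : C} (h : ρ ^ 3 = d) (u v : C × C × C) : ev (mu d u v) ρ = ev u ρ * ev v ρ := by
  subst h
  simp only [ev, mu]
  ring

theorem nm_mu (d : C) (u v : C × C × C) : nm d (mu d u v) = nm d u * nm d v := by
  simp only [nm, mu]
  ring

theorem nm_pt (d x : C) : nm d (x, 1, 0) = x ^ 3 + d := by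
  simp only [nm]
  ring

theorem ev_pt (x ρ : C) : ev (x, 1, 0) ρ = x + ρ := by
  simp only [ev]
  ring

theorem mu_comm (d : C) (u v : C × C × C) : mu d u v = mu d v u := by
  simp only [mu, Prod.mk.injEq]
  refine ⟨?_, ?_, ?_⟩ <;> ring

theorem mu_assoc (d : C) (u v w : C × C × C) : mu d (mu d u v) w = mu d u (mu d v w) := by
  simp only [mu, Prod.mk.injEq]
  refine ⟨?_, ?_, ?_⟩ <;> ring

theorem nm_ev {d ρ o : C} (ho : o ^ 2 + o + 1 = 0) (h : ρ ^ 3 = d) (u : C × C × C) :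
    ev u ρ * ev u (o * ρ) * ev u (o ^ 2 * ρ) = nm d u := by
  subst h
  obtain ⟨a, b, c⟩ := u
  have h3 : o ^ 3 = 1 := by linear_combination (o - 1) * ho
  simp only [ev, nm]
  have e2 : o ^ 2 = -o - 1 := by linear_combination ho
  have e4 : o ^ 4 = o := by linear_combination o * h3
  have e5 : (o ^ 2) ^ 2 = o := by linear_combination o * h3
  rw [mul_pow, mul_pow, e5, e2]
  ring_nf
  have e3 : o ^ 3 = 1 := h3
  have e2' : o ^ 2 = -o - 1 := e2
  have e4' : o ^ 4 = o := e4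
  simp only [e2', e3, e4']
  ring

theorem mp_mu {L : Type} [Field L] (f : C →+* L) (d : C) (u v : C × C × C) : mp f (mu d u v) = mu (f d) (mp f u) (mp f v) := by
  simp only [mp, mu, map_add, map_mul]

theorem mp_nm {L : Type} [Field L] (f : C →+* L) (d : C) (u : C × C × C) : nm (f d) (mp f u) = f (nm d u) := by
  simp only [mp, nm, map_add, map_sub, map_mul, map_pow, map_ofNat]

theorem mp_ev {L : Type} [Field L] (f : C →+* L) (u : C × C × C) (ρ : C) : ev (mp f u) (f ρ) = f (ev u ρ) := by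
  simp only [mp, ev, map_add, map_mul, map_pow]

theorem root_ne {d ρ : C} (hd : d ≠ 0) (h : ρ ^ 3 = d) : ρ ≠ 0 := by
  rintro rfl
  exact hd (by rw [← h]; ring)

theorem root_om {d ρ o : C} (ho : o ^ 2 + o + 1 = 0) (h : ρ ^ 3 = d) : (o * ρ) ^ 3 = d := by
  have h3 : o ^ 3 = 1 := by linear_combination (o - 1) * ho
  rw [mul_pow, h3, one_mul, h]

theorem root_cases {d ρ ρ' o : C} (ho : o ^ 2 + o + 1 = 0) (h : ρ ^ 3 = d) (h' : ρ' ^ 3 = d) :
    ρ' = ρ ∨ ρ' = o * ρ ∨ ρ' = o ^ 2 * ρ := by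
  have e : (ρ' - ρ) * ((ρ' - o * ρ) * (ρ' - o ^ 2 * ρ)) = 0 := by
    have h3 : o ^ 3 = 1 := by linear_combination (o - 1) * ho
    have e1 : (ρ' - ρ) * ((ρ' - o * ρ) * (ρ' - o ^ 2 * ρ)) = ρ' ^ 3 - ρ ^ 3 := by
      linear_combination (-ρ' ^ 2 * ρ + ρ' * ρ ^ 2) * ho + (ρ' * ρ ^ 2 - ρ ^ 3) * h3
    rw [e1, h, h', sub_self]
  rcases mul_eq_zero.1 e with h1 | h1
  · exact Or.inl (sub_eq_zero.1 h1)
  · rcases mul_eq_zero.1 h1 with h2 | h2
    · exact Or.inr (Or.inl (sub_eq_zero.1 h2))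
    · exact Or.inr (Or.inr (sub_eq_zero.1 h2))

/-- interpolation -/
theorem interp {ρ o : C} (ho : o ^ 2 + o + 1 = 0) (h3 : (3 : C) ≠ 0) (hρ : ρ ≠ 0) (a b c : C) :
    ∃ g : C × C × C, ev g ρ = a ∧ ev g (o * ρ) = b ∧ ev g (o ^ 2 * ρ) = c := by
  have ho3 : o ^ 3 = 1 := by linear_combination (o - 1) * ho
  refine ⟨((a + b + c) / 3, (a + o ^ 2 * b + o * c) / (3 * ρ), (a + o * b + o ^ 2 * c) / (3 * ρ ^ 2)), ?_, ?_, ?_⟩
  · simp only [ev]
    field_simp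
    linear_combination (b + c) * ho
  · simp only [ev]
    field_simp
    linear_combination (a + c) * ho + (2 * b + c * o) * ho3
  · simp only [ev]
    field_simp
    linear_combination (a + b) * ho + (a * o + b * (o + o ^ 2) + c * (1 + (o ^ 3 + 1))) * ho3

theorem coef_ev {ρ o : C} (ho : o ^ 2 + o + 1 = 0) (u : C × C × C) :
    ev u ρ + ev u (o * ρ) + ev u (o ^ 2 * ρ) = 3 * u.1 ∧
    ev u ρ + o ^ 2 * ev u (o * ρ) + o * ev u (o ^ 2 * ρ) = 3 * u.2.1 * ρ ∧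
    ev u ρ + o * ev u (o * ρ) + o ^ 2 * ev u (o ^ 2 * ρ) = 3 * u.2.2 * ρ ^ 2 := by
  have ho3 : o ^ 3 = 1 := by linear_combination (o - 1) * ho
  simp only [ev]
  refine ⟨?_, ?_, ?_⟩
  · linear_combination (u.2.1 * ρ + u.2.2 * ρ ^ 2) * ho + (u.2.2 * ρ ^ 2 * o) * ho3
  · linear_combination (u.1 + u.2.2 * ρ ^ 2) * ho + (2 * u.2.1 * ρ + u.2.2 * ρ ^ 2 * (o + o ^ 2)) * ho3
  · linear_combination (u.1 + u.2.1 * ρ) * ho + (u.2.1 * ρ * o + u.2.2 * ρ ^ 2 * (1 + (o ^ 3 + 1))) * ho3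

theorem ev_inj {ρ o : C} (ho : o ^ 2 + o + 1 = 0) (h3 : (3 : C) ≠ 0) (hρ : ρ ≠ 0) {u v : C × C × C}
    (h0 : ev u ρ = ev v ρ) (h1 : ev u (o * ρ) = ev v (o * ρ)) (h2 : ev u (o ^ 2 * ρ) = ev v (o ^ 2 * ρ)) : u = v := by
  obtain ⟨a0, a1, a2⟩ := coef_ev (ρ := ρ) ho u
  obtain ⟨b0, b1, b2⟩ := coef_ev (ρ := ρ) ho v
  rw [h0, h1, h2] at a0 a1 a2
  rw [a0] at b0
  rw [a1] at b1
  rw [a2] at b2
  have e0 : u.1 = v.1 := mul_left_cancel₀ h3 b0
  have e1 : u.2.1 = v.2.1 := by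
    apply mul_left_cancel₀ (mul_ne_zero h3 hρ)
    linear_combination b1
  have e2 : u.2.2 = v.2.2 := by
    apply mul_left_cancel₀ (mul_ne_zero h3 (pow_ne_zero 2 hρ))
    linear_combination b2
  exact Prod.ext e0 (Prod.ext e1 e2)

/-- the same over all roots -/
theorem ev_inj' {d : C} {ρ o : C} (ho : o ^ 2 + o + 1 = 0) (h3 : (3 : C) ≠ 0) (hd : d ≠ 0) (hρ : ρ ^ 3 = d) {u v : C × C × C}
    (h : ∀ ρ' : C, ρ' ^ 3 = d → ev u ρ' = ev v ρ') : u = v := by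
  refine ev_inj ho h3 (root_ne hd hρ) (h _ hρ) (h _ (root_om ho hρ)) (h _ ?_)
  have := root_om ho (root_om ho hρ)
  rwa [← mul_assoc, ← sq] at this

theorem root_om2 {d ρ o : C} (ho : o ^ 2 + o + 1 = 0) (h : ρ ^ 3 = d) : (o ^ 2 * ρ) ^ 3 = d := by
  have := root_om ho (root_om ho h)
  rwa [← mul_assoc, ← sq] at this

theorem interp' {d : C} {ρ o : C} (ho : o ^ 2 + o + 1 = 0) (h3 : (3 : C) ≠ 0) (hd : d ≠ 0) (hρ : ρ ^ 3 = d) (G : C → C) :
    ∃ g : C × C × C, ∀ ρ' : C, ρ' ^ 3 = d → ev g ρ' = G ρ' := by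
  obtain ⟨g, h0, h1, h2⟩ := interp ho h3 (root_ne hd hρ) (G ρ) (G (o * ρ)) (G (o ^ 2 * ρ))
  refine ⟨g, fun ρ' h' => ?_⟩
  rcases root_cases ho hρ h' with rfl | rfl | rfl
  · exact h0
  · exact h1
  · exact h2

end

/-- Equivariant interpolation: `L` algebraic over `K` with enough automorphisms, `G` a function on the cube roots of `d` in `L` with `σ (G ρ) = G (σ ρ)`: `G` is
the evaluation of a triple over `K`. -/
theorem interp_gal {K L : Type} [Field K] [CharZero K] [Field L] [Algebra K L] [IsGalois K L] {d : K} {o ρ : L}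
    (ho : o ^ 2 + o + 1 = 0) (hd : d ≠ 0) (hρ : ρ ^ 3 = algebraMap K L d) (G : L → L)
    (hG : ∀ (σ : L ≃ₐ[K] L) (ρ' : L), ρ' ^ 3 = algebraMap K L d → σ (G ρ') = G (σ ρ')) :
    ∃ g : K × K × K, ∀ ρ' : L, ρ' ^ 3 = algebraMap K L d → ev (mp (algebraMap K L) g) ρ' = G ρ' := by
  have : CharZero L := charZero_of_injective_algebraMap (algebraMap K L).injective
  have h3 : (3 : L) ≠ 0 := three_ne_zero
  have hdL : algebraMap K L d ≠ 0 := (map_ne_zero _).2 hd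
  obtain ⟨g, hg⟩ := interp' ho h3 hdL hρ G
  have hfix : ∀ σ : L ≃ₐ[K] L, (σ g.1, σ g.2.1, σ g.2.2) = g := by
    intro σ
    refine ev_inj' ho h3 hdL hρ fun ρ' h' => ?_
    have h4 : (σ.symm ρ') ^ 3 = algebraMap K L d := by
      rw [← map_pow, h', AlgEquiv.commutes]
    have h5 : ev (σ g.1, σ g.2.1, σ g.2.2) ρ' = σ (ev g (σ.symm ρ')) := by
      simp only [ev, map_add, map_mul, map_pow, AlgEquiv.apply_symm_apply]
    rw [h5, hg _ h4, hG σ _ h4, AlgEquiv.apply_symm_apply, hg _ h']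
  have hex : ∀ x : L, (∀ σ : L ≃ₐ[K] L, σ x = x) → ∃ y : K, algebraMap K L y = x := fun x hx =>
    (InfiniteGalois.mem_range_algebraMap_iff_fixed (k := K) x).2 hx
  obtain ⟨x, hx⟩ := hex g.1 fun σ => congrArg Prod.fst (hfix σ)
  obtain ⟨y, hy⟩ := hex g.2.1 fun σ => congrArg (fun p => p.2.1) (hfix σ)
  obtain ⟨z, hz⟩ := hex g.2.2 fun σ => congrArg (fun p => p.2.2) (hfix σ)
  refine ⟨(x, y, z), fun ρ' h' => ?_⟩
  rw [← hg ρ' h']
  simp only [mp, hx, hy, hz]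

theorem mp_inj {K L : Type} [Field K] [Field L] (f : K →+* L) {u v : K × K × K} (h : mp f u = mp f v) : u = v := by
  simp only [mp, Prod.mk.injEq] at h
  exact Prod.ext (f.injective h.1) (Prod.ext (f.injective h.2.1) (f.injective h.2.2))

theorem mp_mp {K L M : Type} [Field K] [Field L] [Field M] (f : K →+* L) (g : L →+* M) (u : K × K × K) :
    mp g (mp f u) = mp (g.comp f) u := rfl

end JT
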