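import Pool.Agent.JT.L1
import Pool.Agent.JD.G2
import Pool.Agent.JD.G3
import Pool.Agent.JD.C3

/-!
# [JT-G1] class group and units of `F = K(∛D)`

PROOF. `even_class`: port of `exists_beta` (JD/G3.lean) with `2` in place of `3`. `unit_of_ev`: port of the corresponding statement for cubes in JD/C1-C3 (if the class number is odd and all valuations of `β` are even then `(β) = I²` as fractional ideals, `I^h` principal, so `I` is principal: `β = u δ²`).
`unit_norm` [G1c]: the norm `x ∈ KK` of a unit and its inverse are integral, so `x = jK a`, `a` a unit of `Eis`, `a ^ 6 = 1`; (`JD.G2_norm`, `JD.G2_int` are the model). If moreover `x = n²` then `x³ = 1`: `x³ = ± 1`, and `-1` is not a square in `KK` (`x³ = (n³)² = -1` impossible: `n³` would be integral, `= jK z`, `z² = -1` in `Eis`: impossible by components,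
see `EQV/H3.lean`, `neg_one_not_sq`: `z = ⟨p, q⟩`: `p² - q² = -1`, `2 p q - q² = 0`).
`norm_pm` [G1d]: `x = β σ(β) σ²(β) ∈ KK`, all valuations `w x` of `F` are even (`w ∘ σ` is the valuation of a place: `JD.exists_conj`-like, see JD/G4 `val_prime`: `exists_conj F (τ : F ≃ₐ[KK] F).toRingEquiv w`). For a place `v` of `KK` choose `w` above `v`; `w (algebraMap x) = v x ^ e` (`HeightOneSpectrum.valuation_liesOver`), `e` the ramification index, and `e ∣ 3`
(`F / KK` is Galois of degree 3: `e f g = 3`: `Ideal.ncard_primesOver_mul_ramificationIdxIn_mul_inertiaDegIn` or `Ideal.sum_ramification_inertia`; Galois because of `σ`: `IsGalois.of_card_aut_eq_finrank` with `1, σ, σ²`), so `e = 1` or `3`, and `v x` is even (`g³ = γ²` implies `g = (γ/g)²`). The class number of `KK` is 1 (`eE : Eis ≃ 𝓞 KK`, `CM27.eis_pid`), so by `unit_of_ev` for `KK`: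
`x = u n²`, `u` a unit of `𝓞 KK`, `u = ± ω^k`, `ω = (ω²)²`.
`exists_nsq` [G1b]: the unit rank is positive (`JD.G2_rank`-like: `finrank ℚ F = 6`, all places complex or not: rank `≥ 6/2 - 1`); as `JD.exists_unit`: a unit `u` with `(u c²)^n ≠ 1` for all units `c` and `n > 0` (a member of `fundSystem`). So `u` and `-u` are not squares (of elements of `F`: such elements would be units). `unit_norm`: the norm `x` of `u` satisfies `x^6 = 1`, so `x³ = 1` or `x³ = -1`
(then `x = x⁴ = (x²)²` if `x³ = 1`); in the second case take `-u`.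
`unit_four` [G1e]: the rank of the units is `2` (`F` is totally complex of degree 6 since it contains `ω`: `CUD.isComplex_of_o`; `NumberField.Units.rank = card of infinite places - 1`, `InfinitePlace.card_add_two_mul_card_eq_finrank`-like: 3 complex places). Let `S` be the subgroup of squares in `(𝓞 F)ˣ`; every unit is `ζ ε₁^a ε₂^b` (`exist_unique_eq_mul_prod`), the torsion is cyclic, so the quotient by `S` has at most `8` elements
(`ζ` modulo squares: 2 classes). The 8 elements `± 1, ± u, ± σ u, ± u σ u` are distinct modulo squares: `-1` times an element of square norm has norm `- square`, not a square; `1, u, σ u, u σ u` are distinct because `u`, `u σ(u)` are not squares (if `u σ(u) = δ²` then `σ(u) σ²(u) = σ(δ)²`, so `u σ²(u) = ` a square, and the norm `u σ(u) σ²(u)`, a square, gives `σ²(u)` square, so `u` square).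
So `v` is one of the 8 modulo squares, and the sign is `+` by the norm.
-/

set_option autoImplicit false

open NumberField IsDedekindDomain
open scoped Classical

namespace JT

open CM27 CF JZ JD
open CU (la om eE)

theorem g1a_pow_inj {R : Type} [CommRing R] [IsDedekindDomain R] {I J : Ideal R} (h : I ^ 2 = J ^ 2) : I = J := by
  have key : ∀ {A B : Ideal R}, A ^ 2 ∣ B ^ 2 → A ∣ B := by
    intro A B hAB
    by_cases hB : B = 0
    · rw [hB]; exact dvd_zero _
    have hA : A ≠ 0 := by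
      rintro rfl
      rw [zero_pow (by norm_num), zero_dvd_iff] at hAB
      exact hB (pow_eq_zero_iff (by norm_num) |>.1 hAB)
    have hA3 : A ^ 2 ≠ 0 := pow_ne_zero _ hA
    have hB3 : B ^ 2 ≠ 0 := pow_ne_zero _ hB
    rw [UniqueFactorizationMonoid.dvd_iff_normalizedFactors_le_normalizedFactors hA3 hB3,
      UniqueFactorizationMonoid.normalizedFactors_pow, UniqueFactorizationMonoid.normalizedFactors_pow,
      Multiset.le_iff_count] at hAB
    rw [UniqueFactorizationMonoid.dvd_iff_normalizedFactors_le_normalizedFactors hA hB, Multiset.le_iff_count]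
    intro a
    have h1 := hAB a
    rw [Multiset.count_nsmul, Multiset.count_nsmul] at h1
    omega
  exact dvd_antisymm (key h.dvd) (key h.symm.dvd)

/-- [G1a] -/
theorem even_class (F : Type) [Field F] [NumberField F] (h : 2 ∣ classNumber F) :
    ∃ β : F, β ≠ 0 ∧ Ev β ∧ ∀ (u : (𝓞 F)ˣ) (δ : F), β ≠ (u : F) * δ ^ 2 := by
  have : Fact (Nat.Prime 2) := ⟨by norm_num⟩
  obtain ⟨x, hx⟩ := exists_prime_orderOf_dvd_card 2 (show 2 ∣ Fintype.card (ClassGroup (𝓞 F)) from h)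
  have hx1 : x ≠ 1 := by
    intro h1
    rw [h1, orderOf_one] at hx
    norm_num at hx
  have hx3 : x ^ 2 = 1 := by rw [← hx]; exact pow_orderOf_eq_one x
  obtain ⟨I, rfl⟩ := ClassGroup.mk0_surjective x
  rw [← map_pow] at hx3
  rw [ClassGroup.mk0_eq_one_iff (SetLike.coe_mem _)] at hx3
  have hI0 : (I : Ideal (𝓞 F)) ≠ 0 := nonZeroDivisors.ne_zero I.2
  have hI3 : ((I ^ 2 : nonZeroDivisors (Ideal (𝓞 F))) : Ideal (𝓞 F)) = (I : Ideal (𝓞 F)) ^ 2 := rfl
  rw [hI3] at hx3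
  obtain ⟨b, hb⟩ := hx3.principal
  change (I : Ideal (𝓞 F)) ^ 2 = Ideal.span {b} at hb
  have hb0 : b ≠ 0 := by
    intro h0
    rw [h0, Ideal.span_singleton_zero] at hb
    exact pow_ne_zero 2 hI0 hb
  refine ⟨algebraMap (𝓞 F) F b, ?_, ?_, ?_⟩
  · intro h0
    exact hb0 ((map_eq_zero_iff _ (IsFractionRing.injective (𝓞 F) F)).1 h0)
  · intro w
    rw [HeightOneSpectrum.valuation_of_algebraMap, HeightOneSpectrum.intValuation_if_neg w hb0, ← hb,
      Associates.mk_pow, Associates.count_pow (Associates.mk_ne_zero.2 hI0) w.associates_irreducible]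
    refine ⟨WithZero.exp (-(Associates.mk w.asIdeal).count (Associates.mk (I : Ideal (𝓞 F))).factors : ℤ), ?_⟩
    rw [← WithZero.exp_nsmul]
    congr 1
    push_cast
    ring
  · intro u δ hβ
    have hδint : IsIntegral (𝓞 F) (δ ^ 2) := by
      have h1 : δ ^ 2 = algebraMap (𝓞 F) F (((u⁻¹ : (𝓞 F)ˣ) : 𝓞 F) * b) := by
        have hu : algebraMap (𝓞 F) F (((u⁻¹ : (𝓞 F)ˣ) : 𝓞 F)) * algebraMap (𝓞 F) F ((u : 𝓞 F)) = 1 := by
          rw [← map_mul, Units.inv_mul, map_one]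
        rw [map_mul, hβ]
        linear_combination -(δ ^ 2) * hu
      rw [h1]
      exact isIntegral_algebraMap
    obtain ⟨d, hd⟩ := IsIntegrallyClosed.exists_algebraMap_eq_of_isIntegral_pow (by norm_num : 0 < 2) hδint
    have h2 : b = (u : 𝓞 F) * d ^ 2 := by
      apply IsFractionRing.injective (𝓞 F) F
      rw [hβ, map_mul, map_pow, hd]
    have h3 : (I : Ideal (𝓞 F)) ^ 2 = (Ideal.span {d}) ^ 2 := by
      rw [hb, h2, Ideal.span_singleton_mul_left_unit u.isUnit, Ideal.span_singleton_pow]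
    have h4 := g1a_pow_inj h3
    apply hx1
    rw [ClassGroup.mk0_eq_one_iff (SetLike.coe_mem _), h4]
    exact ⟨⟨d, rfl⟩⟩

/-- a nonzero ideal all of whose multiplicities are even is a square -/
theorem g1a_sq {R : Type} [CommRing R] [IsDedekindDomain R] {J : Ideal R} (hJ : J ≠ 0)
    (h : ∀ w : HeightOneSpectrum R, 2 ∣ (Associates.mk w.asIdeal).count (Associates.mk J).factors) :
    ∃ I : Ideal R, J = I ^ 2 := by
  have h1 := Ideal.finprod_heightOneSpectrum_factorization hJ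
  have h2 := Ideal.hasFiniteMulSupport hJ
  refine ⟨∏ᶠ v : HeightOneSpectrum R, v.asIdeal ^
    ((Associates.mk v.asIdeal).count (Associates.mk J).factors / 2), ?_⟩
  rw [finprod_pow]
  · conv_lhs => rw [← h1]
    apply finprod_congr
    intro v
    unfold HeightOneSpectrum.maxPowDividing
    rw [← pow_mul, Nat.div_mul_cancel (h v)]
  · refine Set.Finite.subset h2 ?_
    intro v hv
    rw [Function.mem_mulSupport] at hv ⊢
    intro h3
    apply hv
    unfold HeightOneSpectrum.maxPowDividing at h3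
    have h4 : (Associates.mk v.asIdeal).count (Associates.mk J).factors = 0 := by
      by_contra h5
      have h6 : v.asIdeal ∣ 1 := by
        rw [← h3]
        exact dvd_pow_self _ h5
      exact v.isPrime.ne_top (Ideal.isUnit_iff.1 (isUnit_of_dvd_one h6))
    rw [h4]
    simp

/-- [G1a] -/
theorem unit_of_ev (F : Type) [Field F] [NumberField F] (h : ¬ 2 ∣ classNumber F) {β : F} (hβ : β ≠ 0) (he : Ev β) :
    ∃ (u : (𝓞 F)ˣ) (δ : F), δ ≠ 0 ∧ β = (u : F) * δ ^ 2 := by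
  obtain ⟨a, d, hd, hαad⟩ := IsFractionRing.div_surjective (A := 𝓞 F) β
  have hd0 : (d : 𝓞 F) ≠ 0 := nonZeroDivisors.ne_zero hd
  have hdF : algebraMap (𝓞 F) F d ≠ 0 := by
    rw [Ne, map_eq_zero_iff _ (IsFractionRing.injective (𝓞 F) F)]
    exact hd0
  set b : 𝓞 F := a * d with hb
  have hbα : algebraMap (𝓞 F) F b = (algebraMap (𝓞 F) F d) ^ 2 * β := by
    rw [hb, map_mul, ← hαad]
    field_simp
  have hb0 : b ≠ 0 := by
    intro h0
    rw [h0, map_zero] at hbα
    exact mul_ne_zero (pow_ne_zero 2 hdF) hβ hbα.symm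
  have hspan0 : (Ideal.span {b} : Ideal (𝓞 F)) ≠ 0 := by
    rw [Ne, Ideal.zero_eq_bot, Ideal.span_singleton_eq_bot]
    exact hb0
  obtain ⟨I, hI⟩ := g1a_sq hspan0 (by
    intro w
    obtain ⟨g, hg⟩ := he w
    have h1 : w.valuation F (algebraMap (𝓞 F) F b) = (w.valuation F (algebraMap (𝓞 F) F d) * g) ^ 2 := by
      rw [hbα, map_mul, map_pow, hg, mul_pow]
    rw [HeightOneSpectrum.valuation_of_algebraMap, HeightOneSpectrum.intValuation_if_neg w hb0] at h1
    set c := (Associates.mk w.asIdeal).count (Associates.mk (Ideal.span {b} : Ideal (𝓞 F))).factors with hc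
    set y := w.valuation F (algebraMap (𝓞 F) F d) * g with hy
    have hy0 : y ≠ 0 := by
      intro h2
      rw [h2, zero_pow (by norm_num)] at h1
      exact WithZero.exp_ne_zero h1
    obtain ⟨k, hk⟩ : ∃ k : ℤ, y = WithZero.exp k := ⟨WithZero.log y, (WithZero.exp_log hy0).symm⟩
    rw [hk, ← WithZero.exp_nsmul, WithZero.exp_inj] at h1
    have h3 : (c : ℤ) = 2 * (-k) := by
      rw [nsmul_eq_mul] at h1
      push_cast at h1
      linarith
    exact_mod_cast (Dvd.intro _ h3.symm : (2 : ℤ) ∣ c))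
  have hI0 : I ≠ 0 := by
    rintro rfl
    rw [zero_pow (by norm_num)] at hI
    exact hspan0 hI
  have hI' : I ∈ nonZeroDivisors (Ideal (𝓞 F)) := mem_nonZeroDivisors_of_ne_zero hI0
  have hcl3 : (ClassGroup.mk0 (⟨I, hI'⟩ : nonZeroDivisors (Ideal (𝓞 F)))) ^ 2 = 1 := by
    rw [← map_pow, ClassGroup.mk0_eq_one_iff (SetLike.coe_mem _)]
    have h1 : ((⟨I, hI'⟩ ^ 2 : nonZeroDivisors (Ideal (𝓞 F))) : Ideal (𝓞 F)) = Ideal.span {b} := by
      rw [hI]; rfl
    rw [h1]
    exact ⟨⟨b, rfl⟩⟩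
  have hcl : ClassGroup.mk0 (⟨I, hI'⟩ : nonZeroDivisors (Ideal (𝓞 F))) = 1 := by
    rw [← orderOf_eq_one_iff]
    have h1 : orderOf (ClassGroup.mk0 (⟨I, hI'⟩ : nonZeroDivisors (Ideal (𝓞 F)))) ∣ 2 :=
      orderOf_dvd_of_pow_eq_one hcl3
    have h2 : orderOf (ClassGroup.mk0 (⟨I, hI'⟩ : nonZeroDivisors (Ideal (𝓞 F)))) ∣ classNumber F :=
      orderOf_dvd_card
    rcases (Nat.dvd_prime Nat.prime_two).1 h1 with h4 | h4
    · exact h4
    · rw [h4] at h2
      exact absurd h2 h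
  rw [ClassGroup.mk0_eq_one_iff hI'] at hcl
  obtain ⟨γ₁, hγ⟩ := hcl.principal
  change I = Ideal.span {γ₁} at hγ
  rw [hγ, Ideal.span_singleton_pow, Ideal.span_singleton_eq_span_singleton] at hI
  obtain ⟨u, hu⟩ := hI.symm
  have hγ0 : γ₁ ≠ 0 := by
    rintro rfl
    rw [Ideal.span_singleton_zero] at hγ
    exact hI0 hγ
  have hγF : algebraMap (𝓞 F) F γ₁ ≠ 0 := by
    rw [Ne, map_eq_zero_iff _ (IsFractionRing.injective (𝓞 F) F)]
    exact hγ0
  refine ⟨u, algebraMap (𝓞 F) F γ₁ / algebraMap (𝓞 F) F d, div_ne_zero hγF hdF, ?_⟩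
  have h5 : algebraMap (𝓞 F) F b = algebraMap (𝓞 F) F γ₁ ^ 2 * algebraMap (𝓞 F) F (u : 𝓞 F) := by
    rw [← hu, map_mul, map_pow]
  rw [hbα] at h5
  have h6 : β = algebraMap (𝓞 F) F γ₁ ^ 2 * algebraMap (𝓞 F) F (u : 𝓞 F) / (algebraMap (𝓞 F) F d) ^ 2 := by
    rw [← h5]
    field_simp
  rw [h6]
  change _ = algebraMap (𝓞 F) F (u : 𝓞 F) * _
  rw [div_pow]
  ring

section
variable {D : Eis} {F : Type} [Field F] [NumberField F] [Algebra KK F] {s : F} {σ : F ≃ₐ[KK] F}

theorem ev_unit (u : (𝓞 F)ˣ) : Ev (u : F) := by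
  intro w
  exact ⟨1, by rw [g5a_unit w u, one_pow]⟩

theorem g1_unit_ne (u : (𝓞 F)ˣ) : (u : F) ≠ 0 := by
  intro h0
  have h2 := congrArg (algebraMap (𝓞 F) F) u.mul_inv
  rw [map_mul, map_one] at h2
  change (u : F) * _ = 1 at h2
  rw [h0, zero_mul] at h2
  exact zero_ne_one h2

/-- [G1c] -/
theorem unit_norm (hD : D ≠ 0) (hQ : Cub D s σ) (u : (𝓞 F)ˣ) :
    ∃ x : KK, (u : F) * σ (u : F) * σ (σ (u : F)) = algebraMap KK F x ∧ x ^ 6 = 1 ∧ (IsSquare x → x ^ 3 = 1) := by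
  have hu : (u : F) * ((u⁻¹ : (𝓞 F)ˣ) : F) = 1 := by
    have h2 := congrArg (algebraMap (𝓞 F) F) u.mul_inv
    rwa [map_mul, map_one] at h2
  have hi : IsIntegral ℤ (u : F) := RingOfIntegers.isIntegral_coe _
  have hi' : IsIntegral ℤ ((u⁻¹ : (𝓞 F)ˣ) : F) := RingOfIntegers.isIntegral_coe _
  have hσ3 : ∀ y : F, σ (σ (σ y)) = y := fun y => sig_three hD hQ y
  have hfix : ∀ y : F, σ (y * σ y * σ (σ y)) = y * σ y * σ (σ y) := by
    intro y
    rw [map_mul, map_mul, hσ3]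
    ring
  obtain ⟨x, hx⟩ := exists_of_fix3 hD hQ (hfix (u : F))
  obtain ⟨y, hy⟩ := exists_of_fix3 hD hQ (hfix ((u⁻¹ : (𝓞 F)ˣ) : F))
  have hxi : IsIntegral ℤ x := by
    have h1 : IsIntegral ℤ (algebraMap KK F x) := by
      rw [← hx]; exact (hi.mul (G2_tau_int σ hi)).mul (G2_tau_int σ (G2_tau_int σ hi))
    exact (isIntegral_algebraMap_iff (algebraMap KK F).injective).1 h1
  have hyi : IsIntegral ℤ y := by
    have h1 : IsIntegral ℤ (algebraMap KK F y) := by
      rw [← hy]; exact (hi'.mul (G2_tau_int σ hi')).mul (G2_tau_int σ (G2_tau_int σ hi'))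
    exact (isIntegral_algebraMap_iff (algebraMap KK F).injective).1 h1
  obtain ⟨a, rfl⟩ := G2_int hxi
  obtain ⟨b, rfl⟩ := G2_int hyi
  have hab : a * b = 1 := by
    apply jF_inj F
    rw [map_mul, map_one, jF_apply, jF_apply, ← hx, ← hy]
    have h2 := congrArg σ hu
    rw [map_mul, map_one] at h2
    have h3 := congrArg σ h2
    rw [map_mul, map_one] at h3
    calc _ = ((u : F) * ((u⁻¹ : (𝓞 F)ˣ) : F)) * (σ (u : F) *
        σ ((u⁻¹ : (𝓞 F)ˣ) : F)) * (σ (σ (u : F)) * σ (σ ((u⁻¹ : (𝓞 F)ˣ) : F))) := by ring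
      _ = 1 := by rw [hu, h2, h3, one_mul, one_mul]
  have h6 : ∀ c : Eis, IsUnit c → c ^ 6 = 1 := by
    intro c hc
    rcases (CU.unit_iff c).1 hc with h | h | h | h | h | h <;> rw [h] <;> decide
  have ha : IsUnit a := IsUnit.of_mul_eq_one b hab
  refine ⟨jK a, hx, by rw [← map_pow, h6 a ha, map_one], ?_⟩
  rintro ⟨z, hz⟩
  have hzi : IsIntegral ℤ z := by
    refine IsIntegral.of_pow (n := 2) (by norm_num) ?_
    rw [sq, ← hz]
    exact hxi
  obtain ⟨c, rfl⟩ := G2_int hzi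
  have hac : a = c * c := jK_inj (by rw [hz, map_mul])
  have hc : IsUnit c := by
    rw [hac] at ha
    exact isUnit_of_mul_isUnit_left ha
  rw [← map_pow, hac, ← map_one jK]
  congr 1
  rw [← h6 c hc]
  ring

theorem g1b_rank (F : Type) [Field F] [NumberField F] [Algebra KK F] (h : Module.finrank KK F = 3) :
    NumberField.Units.rank F = 2 := by
  have h1 : Module.finrank ℚ F = 6 := by
    rw [← Module.finrank_mul_finrank ℚ KK F, h, CF.d2_finrank_KK]
  have h2 := NumberField.InfinitePlace.sum_mult_eq (K := F)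
  rw [h1] at h2
  have h3 : ∑ w : InfinitePlace F, w.mult = ∑ _w : InfinitePlace F, 2 := by
    refine Finset.sum_congr rfl fun w _ => ?_
    rw [InfinitePlace.mult, if_neg (c2_not_isReal F w)]
  rw [h3, Finset.sum_const, Finset.card_univ, smul_eq_mul] at h2
  rw [NumberField.Units.rank]
  omega

theorem g1b_unit (F : Type) [Field F] [NumberField F] [Algebra KK F] (h : Module.finrank KK F = 3) :
    ∃ u : (𝓞 F)ˣ, ∀ (c : (𝓞 F)ˣ) (n : ℕ), 0 < n → (u * c ^ 2) ^ n ≠ 1 := by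
  let i₀ : Fin (NumberField.Units.rank F) := ⟨0, by rw [g1b_rank F h]; norm_num⟩
  refine ⟨NumberField.Units.fundSystem F i₀, fun c n hn hc => ?_⟩
  obtain ⟨⟨ζ, e⟩, hζ, -⟩ := NumberField.Units.exist_unique_eq_mul_prod F c
  have htor : NumberField.Units.fundSystem F i₀ * c ^ 2 ∈ NumberField.Units.torsion F := by
    rw [NumberField.Units.torsion, CommGroup.mem_torsion, isOfFinOrder_iff_pow_eq_one]
    exact ⟨n, hn, hc⟩
  have h1 : ((⟨_, htor⟩ : NumberField.Units.torsion F) : (𝓞 F)ˣ) =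
      ((ζ ^ 2 : NumberField.Units.torsion F) : (𝓞 F)ˣ) *
        ∏ i, NumberField.Units.fundSystem F i ^ (2 * e i + if i = i₀ then 1 else 0) := by
    change NumberField.Units.fundSystem F i₀ * c ^ 2 = _
    have h2 : ∏ i, NumberField.Units.fundSystem F i ^ (2 * e i + if i = i₀ then (1 : ℤ) else 0) =
        (∏ i, NumberField.Units.fundSystem F i ^ (e i)) ^ 2 * NumberField.Units.fundSystem F i₀ := by
      simp only [zpow_add]
      rw [Finset.prod_mul_distrib, ← Finset.prod_pow]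
      congr 1
      · refine Finset.prod_congr rfl fun i _ => ?_
        rw [mul_comm, zpow_mul]
        rfl
      · rw [Finset.prod_eq_single i₀]
        · rw [if_pos rfl, zpow_one]
        · intro b _ hb
          rw [if_neg hb, zpow_zero]
        · intro hh
          exact absurd (Finset.mem_univ _) hh
    rw [h2]
    conv_lhs => rw [hζ]
    rw [mul_pow, Subgroup.coe_pow, mul_comm]
    rw [mul_assoc]
  have h3 : ((⟨_, htor⟩ : NumberField.Units.torsion F) : (𝓞 F)ˣ) =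
      ((⟨_, htor⟩ : NumberField.Units.torsion F) : (𝓞 F)ˣ) *
        ∏ i, NumberField.Units.fundSystem F i ^ ((0 : Fin (NumberField.Units.rank F) → ℤ) i) := by
    simp
  obtain ⟨x, -, hx⟩ := NumberField.Units.exist_unique_eq_mul_prod F
    ((⟨_, htor⟩ : NumberField.Units.torsion F) : (𝓞 F)ˣ)
  have h4 := hx (ζ ^ 2, fun i => 2 * e i + if i = i₀ then 1 else 0) h1
  have h5 := hx (⟨_, htor⟩, 0) h3
  have h6 := congrArg (fun z : NumberField.Units.torsion F × (Fin (NumberField.Units.rank F) → ℤ) => z.2 i₀)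
    (h4.trans h5.symm)
  simp only [if_true, Pi.zero_apply] at h6
  omega

/-- an element of `F` whose square is a unit is a unit -/
theorem g1b_sq_unit {u : (𝓞 F)ˣ} {c : F} (h : (u : F) = c * c) : ∃ C : (𝓞 F)ˣ, (C : F) = c := by
  have hu : (u : F) * ((u⁻¹ : (𝓞 F)ˣ) : F) = 1 := by
    have h2 := congrArg (algebraMap (𝓞 F) F) u.mul_inv
    rwa [map_mul, map_one] at h2
  have hi : IsIntegral ℤ (u : F) := RingOfIntegers.isIntegral_coe _
  have hi' : IsIntegral ℤ ((u⁻¹ : (𝓞 F)ˣ) : F) := RingOfIntegers.isIntegral_coe _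
  have huinv : ((u⁻¹ : (𝓞 F)ˣ) : F) = (u : F)⁻¹ := eq_inv_of_mul_eq_one_right hu
  rw [huinv] at hi'
  have hci : IsIntegral ℤ c := by
    refine IsIntegral.of_pow (n := 2) (by norm_num) ?_
    rw [sq, ← h]
    exact hi
  have hci' : IsIntegral ℤ c⁻¹ := by
    refine IsIntegral.of_pow (n := 2) (by norm_num) ?_
    rw [inv_pow, sq, ← h]
    exact hi'
  have hc0 : c ≠ 0 := by
    rintro rfl
    exact g1_unit_ne u (by rw [h, mul_zero])
  exact ⟨⟨⟨c, hci⟩, ⟨c⁻¹, hci'⟩, by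
    apply RingOfIntegers.ext
    exact mul_inv_cancel₀ hc0, by
    apply RingOfIntegers.ext
    exact inv_mul_cancel₀ hc0⟩, rfl⟩

/-- [G1b] -/
theorem exists_nsq (hD : D ≠ 0) (hQ : Cub D s σ) : ∃ u : (𝓞 F)ˣ, ¬ IsSquare ((u : F)) ∧
    ∃ n : KK, (u : F) * σ (u : F) * σ (σ (u : F)) = algebraMap KK F (n ^ 2) := by
  obtain ⟨u, hu⟩ := g1b_unit F hQ.fr
  have hneg : ((-u : (𝓞 F)ˣ) : F) = -(u : F) := by
    change algebraMap (𝓞 F) F ((-u : (𝓞 F)ˣ) : 𝓞 F) = - algebraMap (𝓞 F) F (u : 𝓞 F)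
    rw [Units.val_neg, map_neg]
  have hns1 : ¬ IsSquare ((u : F)) := by
    rintro ⟨c, hc⟩
    obtain ⟨C, hC⟩ := g1b_sq_unit hc
    have h1 : u = C ^ 2 := by
      apply Units.ext
      apply RingOfIntegers.ext
      change (u : F) = algebraMap (𝓞 F) F ((C ^ 2 : (𝓞 F)ˣ) : 𝓞 F)
      rw [Units.val_pow_eq_pow_val, map_pow]
      change (u : F) = (C : F) ^ 2
      rw [hC, hc, sq]
    apply hu C⁻¹ 1 one_pos
    rw [h1, pow_one, inv_pow, mul_inv_cancel]
  have hns2 : ¬ IsSquare (((-u : (𝓞 F)ˣ) : F)) := by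
    rintro ⟨c, hc⟩
    obtain ⟨C, hC⟩ := g1b_sq_unit hc
    have h1 : -u = C ^ 2 := by
      apply Units.ext
      apply RingOfIntegers.ext
      change ((-u : (𝓞 F)ˣ) : F) = algebraMap (𝓞 F) F ((C ^ 2 : (𝓞 F)ˣ) : 𝓞 F)
      rw [Units.val_pow_eq_pow_val, map_pow]
      change ((-u : (𝓞 F)ˣ) : F) = (C : F) ^ 2
      rw [hC, hc, sq]
    have h2 : u = -C ^ 2 := by rw [← h1, neg_neg]
    apply hu C⁻¹ 2 two_pos
    rw [h2, inv_pow, neg_mul, mul_inv_cancel, neg_sq, one_pow]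
  obtain ⟨x, hx, hx6, -⟩ := unit_norm hD hQ u
  have hx3 : x ^ 3 = 1 ∨ x ^ 3 = -1 := by
    have h1 : (x ^ 3) ^ 2 = 1 := by rw [← pow_mul]; exact hx6
    rcases sq_eq_sq_iff_eq_or_eq_neg.1 (h1.trans (one_pow 2).symm) with h | h
    · exact Or.inl h
    · exact Or.inr h
  rcases hx3 with h3 | h3
  · refine ⟨u, hns1, x ^ 2, ?_⟩
    rw [hx]
    congr 1
    calc x = x ^ 3 * x := by rw [h3, one_mul]
      _ = (x ^ 2) ^ 2 := by ring
  · refine ⟨-u, hns2, x ^ 2, ?_⟩
    rw [hneg, map_neg, map_neg]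
    have h4 : -(u : F) * -σ (u : F) * -σ (σ (u : F)) = -((u : F) * σ (u : F) * σ (σ (u : F))) := by ring
    rw [h4, hx, ← map_neg]
    congr 1
    calc -x = x ^ 3 * x := by rw [h3]; ring
      _ = (x ^ 2) ^ 2 := by ring

theorem g1d_place (F : Type) [Field F] [NumberField F] [Algebra KK F] (h : Module.finrank KK F = 3)
    (v : HeightOneSpectrum (𝓞 KK)) : ∃ (w : HeightOneSpectrum (𝓞 F)) (k : ℕ),
      ∀ x : KK, w.valuation F (algebraMap KK F x) = v.valuation KK x ^ (2 * k + 1) := by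
  have hmax : v.asIdeal.IsMaximal := v.isMaximal
  have hsum := Ideal.sum_ramification_inertia (R := 𝓞 KK) (S := 𝓞 F) KK F (p := v.asIdeal) v.ne_bot
  rw [h] at hsum
  by_contra hcon
  push Not at hcon
  have heven : ∀ P ∈ IsDedekindDomain.primesOverFinset v.asIdeal (𝓞 F),
      2 ∣ Ideal.ramificationIdx' v.asIdeal P * Ideal.inertiaDeg' v.asIdeal P := by
    intro P hP
    obtain ⟨hP1, hP2⟩ := (IsDedekindDomain.mem_primesOverFinset_iff v.ne_bot _).1 hP
    have hPbot : P ≠ ⊥ := Ideal.ne_bot_of_liesOver_of_ne_bot v.ne_bot P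
    let w : HeightOneSpectrum (𝓞 F) := ⟨P, hP1, hPbot⟩
    have hl : w.asIdeal.LiesOver v.asIdeal := hP2
    apply Dvd.dvd.mul_right
    by_contra hodd
    obtain ⟨k, hk⟩ : ∃ k, Ideal.ramificationIdx' v.asIdeal P = 2 * k + 1 :=
      ⟨Ideal.ramificationIdx' v.asIdeal P / 2, by omega⟩
    obtain ⟨x, hx⟩ := hcon w k
    apply hx
    rw [← HeightOneSpectrum.valuation_liesOver F v w x]
    rw [show Ideal.ramificationIdx' v.asIdeal w.asIdeal = 2 * k + 1 from hk]
  have h2 : 2 ∣ 3 := by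
    rw [← hsum]
    exact Finset.dvd_sum heven
  omega

theorem g1d_class : ¬ 2 ∣ classNumber KK := by
  have hpid : IsPrincipalIdealRing Eis := eis_pid
  have h1 : IsPrincipalIdealRing (𝓞 KK) := IsPrincipalIdealRing.of_surjective (eE : Eis →+* 𝓞 KK) eE.surjective
  rw [classNumber_eq_one_iff.2 h1]
  norm_num

/-- [G1d] -/
theorem norm_pm (hD : D ≠ 0) (hQ : Cub D s σ) {β : F} (hβ : β ≠ 0) (he : Ev β) :
    ∃ n : KK, n ≠ 0 ∧ (β * σ β * σ (σ β) = algebraMap KK F (n ^ 2) ∨ β * σ β * σ (σ β) = - algebraMap KK F (n ^ 2)) := by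
  have hσ3 : ∀ y : F, σ (σ (σ y)) = y := fun y => sig_three hD hQ y
  have hfix : σ (β * σ β * σ (σ β)) = β * σ β * σ (σ β) := by
    rw [map_mul, map_mul, hσ3]
    ring
  obtain ⟨x, hx⟩ := exists_of_fix3 hD hQ hfix
  have hσβ : σ β ≠ 0 := (map_ne_zero σ).2 hβ
  have hσσβ : σ (σ β) ≠ 0 := (map_ne_zero σ).2 hσβ
  have hx0 : x ≠ 0 := by
    rintro rfl
    rw [map_zero] at hx
    exact mul_ne_zero (mul_ne_zero hβ hσβ) hσσβ hx
  have hev : ∀ w : HeightOneSpectrum (𝓞 F), ∃ g : WithZero (Multiplicative ℤ), w.valuation F (σ β) = g ^ 2 := by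
    intro w
    obtain ⟨w', hw', -, -⟩ := exists_conj F (σ : F ≃ₐ[KK] F).toRingEquiv w
    obtain ⟨g, hg⟩ := he w'
    exact ⟨g, by rw [← hg, hw']; rfl⟩
  have hev2 : ∀ w : HeightOneSpectrum (𝓞 F), ∃ g : WithZero (Multiplicative ℤ), w.valuation F (σ (σ β)) = g ^ 2 := by
    intro w
    obtain ⟨w', hw', -, -⟩ := exists_conj F (σ : F ≃ₐ[KK] F).toRingEquiv w
    obtain ⟨g, hg⟩ := hev w'
    exact ⟨g, by rw [← hg, hw']; rfl⟩
  have hEx : Ev x := by
    intro v
    obtain ⟨w, k, hw⟩ := g1d_place F hQ.fr v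
    obtain ⟨g0, h0⟩ := he w
    obtain ⟨g1, h1⟩ := hev w
    obtain ⟨g2, h2⟩ := hev2 w
    have h3 := hw x
    rw [← hx, map_mul, map_mul, h0, h1, h2] at h3
    have hv0 : v.valuation KK x ≠ 0 := (Valuation.ne_zero_iff _).2 hx0
    refine ⟨g0 * g1 * g2 * ((v.valuation KK x) ^ k)⁻¹, ?_⟩
    have h4 : (v.valuation KK x) ^ k ≠ 0 := pow_ne_zero _ hv0
    rw [mul_pow, mul_pow, mul_pow, h3, inv_pow, ← pow_mul, mul_comm k 2, pow_succ, mul_comm (v.valuation KK x ^ (2 * k)),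
      mul_assoc, mul_inv_cancel₀ (pow_ne_zero _ hv0), mul_one]
  obtain ⟨u, δ, hδ, hu⟩ := unit_of_ev KK g1d_class hx0 hEx
  obtain ⟨a, ha⟩ := eE.surjective (u : 𝓞 KK)
  have hau : IsUnit a := by
    have h1 : IsUnit (eE a) := by rw [ha]; exact u.isUnit
    exact (MulEquiv.isUnit_map eE).1 h1
  have hua : (u : KK) = jK a := by
    rw [jK_apply, ha]
  have ha6 : a ^ 6 = 1 := by
    rcases (CU.unit_iff a).1 hau with h | h | h | h | h | h <;> rw [h] <;> decide
  have ha0 : jK a ≠ 0 := by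
    rw [← hua]
    exact g1_unit_ne u
  have hy3 : (jK a) ^ 3 = 1 ∨ (jK a) ^ 3 = -1 := by
    have h1 : ((jK a) ^ 3) ^ 2 = 1 := by rw [← pow_mul, ← map_pow, ha6, map_one]
    rcases sq_eq_sq_iff_eq_or_eq_neg.1 (h1.trans (one_pow 2).symm) with h | h
    · exact Or.inl h
    · exact Or.inr h
  refine ⟨(jK a) ^ 2 * δ, mul_ne_zero (pow_ne_zero 2 ha0) hδ, ?_⟩
  rw [hx, hu, hua]
  rcases hy3 with h3 | h3
  · left
    congr 1
    calc jK a * δ ^ 2 = jK a ^ 3 * jK a * δ ^ 2 := by rw [h3, one_mul]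
      _ = (jK a ^ 2 * δ) ^ 2 := by ring
  · right
    rw [← map_neg]
    congr 1
    calc jK a * δ ^ 2 = - (jK a ^ 3 * jK a * δ ^ 2) := by rw [h3]; ring
      _ = -(jK a ^ 2 * δ) ^ 2 := by ring

theorem g1e_tors (F : Type) [Field F] [NumberField F] : ∃ τ : NumberField.Units.torsion F → ZMod 2,
    ∀ ζ ζ' : NumberField.Units.torsion F, τ ζ = τ ζ' → ∃ c : NumberField.Units.torsion F, ζ = ζ' * c ^ 2 := by
  obtain ⟨g, hg⟩ := IsCyclic.exists_generator (α := NumberField.Units.torsion F)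
  have h1 : ∀ ζ : NumberField.Units.torsion F, ∃ n : ℤ, g ^ n = ζ := fun ζ => Subgroup.mem_zpowers_iff.1 (hg ζ)
  choose n hn using h1
  refine ⟨fun ζ => (n ζ : ZMod 2), fun ζ ζ' h => ?_⟩
  have h2 : (2 : ℤ) ∣ n ζ' - n ζ := (ZMod.intCast_eq_intCast_iff_dvd_sub _ _ 2).1 h
  obtain ⟨k, hk⟩ := h2
  refine ⟨g ^ (-k), ?_⟩
  conv_lhs => rw [← hn ζ]
  conv_rhs => rw [← hn ζ']
  rw [← zpow_natCast, ← zpow_mul, ← zpow_add]
  congr 1
  push_cast
  linarith

theorem g1e_cls (F : Type) [Field F] [NumberField F] :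
    ∃ Φ : (𝓞 F)ˣ → ZMod 2 × (Fin (NumberField.Units.rank F) → ZMod 2), ∀ x y, Φ x = Φ y → ∃ c : (𝓞 F)ˣ, x = y * c ^ 2 := by
  obtain ⟨τ, hτ⟩ := g1e_tors F
  have h1 : ∀ x : (𝓞 F)ˣ, ∃ ζe : NumberField.Units.torsion F × (Fin (NumberField.Units.rank F) → ℤ),
      x = ζe.1 * ∏ i, (NumberField.Units.fundSystem F i) ^ (ζe.2 i) := fun x =>
    (NumberField.Units.exist_unique_eq_mul_prod F x).exists
  choose r hr using h1
  refine ⟨fun x => (τ (r x).1, fun i => ((r x).2 i : ZMod 2)), fun x y h => ?_⟩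
  rw [Prod.mk.injEq] at h
  obtain ⟨c, hc⟩ := hτ _ _ h.1
  have h2 : ∀ i, ∃ k : ℤ, (r x).2 i = (r y).2 i + 2 * k := by
    intro i
    have h3 : (2 : ℤ) ∣ (r y).2 i - (r x).2 i := (ZMod.intCast_eq_intCast_iff_dvd_sub _ _ 2).1 (congrFun h.2 i)
    obtain ⟨k, hk⟩ := h3
    exact ⟨-k, by linarith⟩
  choose k hk using h2
  refine ⟨(c : (𝓞 F)ˣ) * ∏ i, (NumberField.Units.fundSystem F i) ^ (k i), ?_⟩
  conv_lhs => rw [hr x]
  conv_rhs => rw [hr y]
  rw [hc, Subgroup.coe_mul, Subgroup.coe_pow, mul_pow, ← Finset.prod_pow]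
  have h4 : ∏ i, NumberField.Units.fundSystem F i ^ (r x).2 i = (∏ i, NumberField.Units.fundSystem F i ^ (r y).2 i) *
      ∏ i, (NumberField.Units.fundSystem F i ^ k i) ^ 2 := by
    rw [← Finset.prod_mul_distrib]
    refine Finset.prod_congr rfl fun i _ => ?_
    rw [hk i, zpow_add, ← zpow_natCast, ← zpow_mul]
    congr 2
    push_cast
    ring
  rw [h4]
  simp only [mul_assoc, mul_left_comm]

theorem g1e_neg (z : KK) : z * z ≠ -1 := by
  intro h
  have hzi : IsIntegral ℤ z := by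
    refine IsIntegral.of_pow (n := 2) (by norm_num) ?_
    rw [sq, h]
    exact isIntegral_one.neg
  obtain ⟨c, rfl⟩ := G2_int hzi
  have hc2 : c * c = -1 := jK_inj (by rw [map_mul, h, map_neg, map_one])
  have hc : IsUnit c := by
    have h1 : c * (-c) = 1 := by linear_combination -hc2
    exact IsUnit.of_mul_eq_one _ h1
  rcases (CU.unit_iff c).1 hc with h | h | h | h | h | h <;> rw [h] at hc2 <;> exact absurd hc2 (by decide)

/-- `z` or `1` -/
def g1e_comp {F : Type} [Field F] (z : F) (i : Bool) : F := if i then z else 1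

omit [NumberField F] [Algebra KK F] in
theorem g1e_comp_mul (z : F) (i j : Bool) :
    g1e_comp z i * g1e_comp z j = g1e_comp z (xor i j) * g1e_comp z (i && j) ^ 2 := by
  cases i <;> cases j <;> simp [g1e_comp, sq]

theorem g1e_nsq (hD : D ≠ 0) (hQ : Cub D s σ) {u : (𝓞 F)ˣ} (hu : ¬ IsSquare ((u : F)))
    (hun : ∃ n : KK, (u : F) * σ (u : F) * σ (σ (u : F)) = algebraMap KK F (n ^ 2)) (i j k : Bool)
    (h : IsSquare (g1e_comp (-1 : F) i * g1e_comp (u : F) j * g1e_comp (σ (u : F)) k)) : i = false ∧ j = false ∧ k = false := by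
  have hσ3 : ∀ y : F, σ (σ (σ y)) = y := fun y => sig_three hD hQ y
  obtain ⟨n, hn⟩ := hun
  obtain ⟨c, hc⟩ := h
  have hu0 : (u : F) ≠ 0 := g1_unit_ne u
  have hn0 : n ≠ 0 := by
    rintro rfl
    rw [zero_pow two_ne_zero, map_zero] at hn
    exact mul_ne_zero (mul_ne_zero hu0 ((map_ne_zero σ).2 hu0)) ((map_ne_zero σ).2 ((map_ne_zero σ).2 hu0)) hn
  have hfix : σ (c * σ c * σ (σ c)) = c * σ c * σ (σ c) := by
    rw [map_mul, map_mul, hσ3]
    ring
  obtain ⟨m, hm⟩ := exists_of_fix3 hD hQ hfix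
  have hnF : algebraMap KK F n ≠ 0 := (map_ne_zero _).2 hn0
  rw [map_pow] at hn
  cases i
  · refine ⟨rfl, ?_⟩
    cases j <;> cases k <;> simp only [g1e_comp, if_true, if_false, one_mul, mul_one, Bool.false_eq_true] at hc
    · exact ⟨rfl, rfl⟩
    · exfalso
      apply hu
      refine ⟨σ (σ c), ?_⟩
      rw [← map_mul, ← map_mul, ← hc, hσ3]
    · exact absurd ⟨c, hc⟩ hu
    · exfalso
      apply hu
      have hc0 : c ≠ 0 := by
        rintro rfl
        rw [mul_zero] at hc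
        exact mul_ne_zero hu0 ((map_ne_zero σ).2 hu0) hc
      refine ⟨σ (algebraMap KK F n / c), ?_⟩
      rw [← map_mul, div_mul_div_comm, ← hc, ← sq, ← hn, mul_div_assoc, mul_comm, div_mul_cancel₀, hσ3]
      exact mul_ne_zero hu0 ((map_ne_zero σ).2 hu0)
  · exfalso
    have h1 := congrArg σ hc
    have h2 := congrArg σ h1
    rw [map_mul] at h1
    rw [map_mul, map_mul] at h2
    have key : ∃ e : F, e ≠ 0 ∧ (∃ e' : KK, e = algebraMap KK F e') ∧ -(e * e) = (c * σ c * σ (σ c)) * (c * σ c * σ (σ c)) := by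
      cases j <;> cases k <;>
        simp only [g1e_comp, if_true, if_false, one_mul, mul_one, Bool.false_eq_true, map_mul, map_neg, map_one] at hc h1 h2
      · refine ⟨1, one_ne_zero, ⟨1, (map_one _).symm⟩, ?_⟩
        calc -(1 * 1 : F) = (-1) * (-1) * (-1) := by ring
          _ = (c * c) * (σ c * σ c) * (σ (σ c) * σ (σ c)) := by rw [← hc, ← h1, ← h2]
          _ = _ := by ring
      · refine ⟨_, hnF, ⟨n, rfl⟩, ?_⟩
        calc -(algebraMap KK F n * algebraMap KK F n) = -((u : F) * σ (u : F) * σ (σ (u : F))) := by rw [hn]; ring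
          _ = (-1 * σ (u : F)) * (-1 * σ (σ (u : F))) * (-1 * σ (σ (σ (u : F)))) := by rw [hσ3]; ring
          _ = (c * c) * (σ c * σ c) * (σ (σ c) * σ (σ c)) := by rw [← hc, ← h1, ← h2]
          _ = _ := by ring
      · refine ⟨_, hnF, ⟨n, rfl⟩, ?_⟩
        calc -(algebraMap KK F n * algebraMap KK F n) = -((u : F) * σ (u : F) * σ (σ (u : F))) := by rw [hn]; ring
          _ = (-1 * (u : F)) * (-1 * σ ((u : F))) * (-1 * σ (σ ((u : F)))) := by ring
          _ = (c * c) * (σ c * σ c) * (σ (σ c) * σ (σ c)) := by rw [← hc, ← h1, ← h2]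
          _ = _ := by ring
      · refine ⟨algebraMap KK F n * algebraMap KK F n, mul_ne_zero hnF hnF, ⟨n * n, (map_mul _ _ _).symm⟩, ?_⟩
        calc -(algebraMap KK F n * algebraMap KK F n * (algebraMap KK F n * algebraMap KK F n)) =
              -(((u : F) * σ (u : F) * σ (σ (u : F))) * ((u : F) * σ (u : F) * σ (σ (u : F)))) := by rw [hn]; ring
          _ = (-1 * (u : F) * σ (u : F)) * (-1 * σ ((u : F)) * σ (σ (u : F))) * (-1 * σ (σ ((u : F))) * σ (σ (σ (u : F)))) := by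
            rw [hσ3]; ring
          _ = (c * c) * (σ c * σ c) * (σ (σ c) * σ (σ c)) := by rw [← hc, ← h1, ← h2]
          _ = _ := by ring
    obtain ⟨e, he0, ⟨e', rfl⟩, he⟩ := key
    rw [hm] at he
    have he0' : e' ≠ 0 := by
      rintro rfl
      exact he0 (map_zero _)
    have h3 : -(e' * e') = m * m := by
      apply (algebraMap KK F).injective
      rw [map_neg, map_mul, map_mul]
      exact he
    apply g1e_neg (m / e')
    rw [div_mul_div_comm, ← h3, neg_div, div_self (mul_ne_zero he0' he0')]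

/-- [G1e] -/
theorem unit_four (hD : D ≠ 0) (hQ : Cub D s σ) {u v : (𝓞 F)ˣ} (hu : ¬ IsSquare ((u : F)))
    (hun : ∃ n : KK, (u : F) * σ (u : F) * σ (σ (u : F)) = algebraMap KK F (n ^ 2))
    (hvn : ∃ n : KK, (v : F) * σ (v : F) * σ (σ (v : F)) = algebraMap KK F (n ^ 2)) :
    ∃ δ : F, δ ≠ 0 ∧ ((v : F) = δ ^ 2 ∨ (v : F) = (u : F) * δ ^ 2 ∨ (v : F) = σ (u : F) * δ ^ 2 ∨
      (v : F) = (u : F) * σ (u : F) * δ ^ 2) := by
  obtain ⟨Φ, hΦ⟩ := g1e_cls F
  obtain ⟨su, hsu⟩ : ∃ su : (𝓞 F)ˣ, (su : F) = σ (u : F) := by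
    have h1 : (u : F) * ((u⁻¹ : (𝓞 F)ˣ) : F) = 1 := by
      have h2 := congrArg (algebraMap (𝓞 F) F) u.mul_inv
      rwa [map_mul, map_one] at h2
    have h2 := congrArg σ h1
    rw [map_mul, map_one] at h2
    have hi : IsIntegral ℤ (u : F) := RingOfIntegers.isIntegral_coe _
    have hi' : IsIntegral ℤ ((u⁻¹ : (𝓞 F)ˣ) : F) := RingOfIntegers.isIntegral_coe _
    exact ⟨⟨⟨σ (u : F), G2_tau_int σ hi⟩, ⟨σ ((u⁻¹ : (𝓞 F)ˣ) : F), G2_tau_int σ hi'⟩, RingOfIntegers.ext h2,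
      RingOfIntegers.ext ((mul_comm _ _).trans h2)⟩, rfl⟩
  set X : Bool × Bool × Bool → (𝓞 F)ˣ := fun a =>
    (if a.1 then -1 else 1) * (if a.2.1 then u else 1) * (if a.2.2 then su else 1) with hX
  have hXF : ∀ a, ((X a : (𝓞 F)ˣ) : F) = g1e_comp (-1 : F) a.1 * g1e_comp (u : F) a.2.1 * g1e_comp (σ (u : F)) a.2.2 := by
    intro a
    rw [← hsu]
    obtain ⟨i, j, k⟩ := a
    simp only [hX, g1e_comp]
    cases i <;> cases j <;> cases k <;> simp
  have hcast : ∀ x y : (𝓞 F)ˣ, ((x * y ^ 2 : (𝓞 F)ˣ) : F) = (x : F) * (y : F) ^ 2 := by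
    intro x y
    change algebraMap (𝓞 F) F ((x * y ^ 2 : (𝓞 F)ˣ) : 𝓞 F) = _
    rw [Units.val_mul, Units.val_pow_eq_pow_val, map_mul, map_pow]
  have hinj : Function.Injective fun a => Φ (X a) := by
    intro a b hab
    obtain ⟨c, hc⟩ := hΦ _ _ hab
    have h1 : ((X a : (𝓞 F)ˣ) : F) = (X b : F) * (c : F) ^ 2 := by
      rw [hc, hcast]
    have h2 : IsSquare (g1e_comp (-1 : F) (xor a.1 b.1) * g1e_comp (u : F) (xor a.2.1 b.2.1) *
        g1e_comp (σ (u : F)) (xor a.2.2 b.2.2)) := by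
      have h3 : (X a : F) * (X b : F) = (g1e_comp (-1 : F) (xor a.1 b.1) * g1e_comp (u : F) (xor a.2.1 b.2.1) *
        g1e_comp (σ (u : F)) (xor a.2.2 b.2.2)) * (g1e_comp (-1 : F) (a.1 && b.1) * g1e_comp (u : F) (a.2.1 && b.2.1) *
        g1e_comp (σ (u : F)) (a.2.2 && b.2.2)) ^ 2 := by
        rw [hXF, hXF]
        have e1 := g1e_comp_mul (-1 : F) a.1 b.1
        have e2 := g1e_comp_mul (u : F) a.2.1 b.2.1
        have e3 := g1e_comp_mul (σ (u : F)) a.2.2 b.2.2
        calc _ = (g1e_comp (-1 : F) a.1 * g1e_comp (-1 : F) b.1) * (g1e_comp (u : F) a.2.1 * g1e_comp (u : F) b.2.1) *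
              (g1e_comp (σ (u : F)) a.2.2 * g1e_comp (σ (u : F)) b.2.2) := by ring
          _ = _ := by rw [e1, e2, e3]; ring
      have hg0 : ∀ (z : F) (i : Bool), z ≠ 0 → g1e_comp z i ≠ 0 := by
        intro z i hz
        cases i
        · exact one_ne_zero
        · exact hz
      have hu0 : (u : F) ≠ 0 := g1_unit_ne u
      set G := g1e_comp (-1 : F) (a.1 && b.1) * g1e_comp (u : F) (a.2.1 && b.2.1) * g1e_comp (σ (u : F)) (a.2.2 && b.2.2) with hG
      have hG0 : G ≠ 0 := mul_ne_zero (mul_ne_zero (hg0 _ _ (by norm_num)) (hg0 _ _ hu0)) (hg0 _ _ ((map_ne_zero σ).2 hu0))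
      refine ⟨(X b : F) * (c : F) / G, ?_⟩
      rw [div_mul_div_comm, eq_div_iff (mul_ne_zero hG0 hG0), ← sq G, ← h3, h1]
      ring
    obtain ⟨h4, h5, h6⟩ := g1e_nsq hD hQ hu hun _ _ _ h2
    have hx : ∀ i j : Bool, xor i j = false → i = j := by decide
    exact Prod.ext (hx _ _ h4) (Prod.ext (hx _ _ h5) (hx _ _ h6))
  have hcard : Fintype.card (Bool × Bool × Bool) = Fintype.card (ZMod 2 × (Fin (NumberField.Units.rank F) → ZMod 2)) := by
    rw [Fintype.card_prod, Fintype.card_prod, Fintype.card_prod, Fintype.card_fun, Fintype.card_fin, ZMod.card,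
      Fintype.card_bool, g1b_rank F hQ.fr]
    norm_num
  have hbij := (Fintype.bijective_iff_injective_and_card (fun a => Φ (X a))).2 ⟨hinj, hcard⟩
  obtain ⟨a, ha⟩ := hbij.2 (Φ v)
  obtain ⟨c, hc⟩ := hΦ v (X a) ha.symm
  have hvc : (v : F) = (X a : F) * (c : F) ^ 2 := by rw [hc, hcast]
  rw [hXF] at hvc
  have hc0 : (c : F) ≠ 0 := g1_unit_ne c
  have hu0 : (u : F) ≠ 0 := g1_unit_ne u
  obtain ⟨i, j, k⟩ := a
  simp only at hvc
  -- the sign
  have hi : i = false := by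
    by_contra hi
    have hi' : i = true := by simpa using hi
    subst hi'
    obtain ⟨n, hn⟩ := hvn
    obtain ⟨m, hm⟩ := hun
    have hσ3 : ∀ y : F, σ (σ (σ y)) = y := fun y => sig_three hD hQ y
    have hfix : σ ((c : F) * σ (c : F) * σ (σ (c : F))) = (c : F) * σ (c : F) * σ (σ (c : F)) := by
      rw [map_mul, map_mul, hσ3]
      ring
    obtain ⟨e, he⟩ := exists_of_fix3 hD hQ hfix
    have he0 : e ≠ 0 := by
      rintro rfl
      rw [map_zero] at he
      exact mul_ne_zero (mul_ne_zero hc0 ((map_ne_zero σ).2 hc0)) ((map_ne_zero σ).2 ((map_ne_zero σ).2 hc0)) he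
    have hm0 : m ≠ 0 := by
      rintro rfl
      rw [zero_pow two_ne_zero, map_zero] at hm
      exact mul_ne_zero (mul_ne_zero hu0 ((map_ne_zero σ).2 hu0)) ((map_ne_zero σ).2 ((map_ne_zero σ).2 hu0)) hm
    have key : ∃ l : KK, l ≠ 0 ∧ n ^ 2 = -(l * l) := by
      rw [map_pow] at hn hm
      cases j <;> cases k <;>
        simp only [g1e_comp, if_true, if_false, one_mul, mul_one, Bool.false_eq_true] at hvc
      · refine ⟨e, he0, ?_⟩
        apply (algebraMap KK F).injective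
        rw [map_neg, map_mul, map_pow, ← hn, ← he, hvc]
        simp only [map_mul, map_pow, map_neg, map_one, hσ3]
        ring
      · refine ⟨m * e, mul_ne_zero hm0 he0, ?_⟩
        apply (algebraMap KK F).injective
        rw [map_neg, map_mul, map_pow, map_mul, ← hn, ← he, hvc]
        simp only [map_mul, map_pow, map_neg, map_one, hσ3]
        linear_combination (-((c : F) * σ (c : F) * σ (σ (c : F))) ^ 2) * hm
      · refine ⟨m * e, mul_ne_zero hm0 he0, ?_⟩
        apply (algebraMap KK F).injective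
        rw [map_neg, map_mul, map_pow, map_mul, ← hn, ← he, hvc]
        simp only [map_mul, map_pow, map_neg, map_one, hσ3]
        linear_combination (-((c : F) * σ (c : F) * σ (σ (c : F))) ^ 2) * hm
      · refine ⟨m * m * e, mul_ne_zero (mul_ne_zero hm0 hm0) he0, ?_⟩
        apply (algebraMap KK F).injective
        rw [map_neg, map_mul, map_pow, map_mul, map_mul, ← hn, ← he, hvc]
        simp only [map_mul, map_pow, map_neg, map_one, hσ3]
        linear_combination (-((c : F) * σ (c : F) * σ (σ (c : F))) ^ 2) *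
          ((u : F) * σ (u : F) * σ (σ (u : F)) + algebraMap KK F m ^ 2) * hm
    obtain ⟨l, hl0, hl⟩ := key
    apply g1e_neg (n / l)
    rw [div_mul_div_comm, ← sq, hl, neg_div, div_self (mul_ne_zero hl0 hl0)]
  subst hi
  refine ⟨(c : F), hc0, ?_⟩
  cases j <;> cases k <;>
    simp only [g1e_comp, if_true, if_false, one_mul, mul_one, Bool.false_eq_true] at hvc
  · exact Or.inl hvc
  · exact Or.inr (Or.inr (Or.inl hvc))
  · exact Or.inr (Or.inl hvc)
  · exact Or.inr (Or.inr (Or.inr hvc))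

end

end JT
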