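import Pool.Agent.JT.Z0
import Pool.Agent.JT.G1

/-!
# [JT-G2] `NoBad2` and the class number and the units of `F`

PROOF. For `z ∈ F` let `u` be the triple with `z = ev (mp u) s` (`exists_trip`); products: `ev_mul`, `σ`: `ev_sig`; norm: `norm3`.
`nobad_of_uc` [G2a]: let `α` be a triple as in `NoBad2`, `a = ev (mp α) s ≠ 0`. `unit_of_ev`: `a = e δ²`, `e` a unit of `𝓞 F`; `N e = N a / N δ²` is a square in `KK` (`norm3`). Let `ε` be the triple of `e`, `g` the triple of `δ`: `α = mu ε (mu g g)` (`trip_inj`). `L2 α` gives `L2 ε` (`hL.of_sq`). If `e` is a square then `a` is, so `SqA` (`sqA_iff`).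
Otherwise `unit_four` for `u := e`, `v :=` the unit of `u₀` (norm `1 = 1²`): `u₀ = x δ'²` with `x ∈ {1, e, σ e, e σ e}`; `L2 u₀` follows from `hL.mul`, `hL.sig`, `hL.sq` and `L2 ε`: contradiction (case `x = 1`: `L2` of a square: `hL.one` and `hL.sq`).
`uc_of_nobad` [G2b]: `exists_nsq`: `u`. Its triple does not satisfy `L2` (otherwise `NoBad2` says it is a square). `u³ = u u²` has norm `1` (`unit_norm`, third part) and its triple does not satisfy `L2` (`hL.of_sq`). Let the class number be even: `even_class`: `β`. `norm_pm`: `β₁ = β` or `-β` has square norm; `Ev β₁`. `hL.adj` for the triples of `β₁` and `u`: `L2 (β₁ x)`, `x ∈ {1, u, σ u, σ² u}`.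
`NoBad2`: `β₁ x` is a square `δ²`, so `β = ± x⁻¹ δ²`, contradiction to `even_class` (`x` is the image of a unit: `σ` of a unit is a unit).
-/

set_option autoImplicit false

open NumberField IsDedekindDomain
open scoped Classical

namespace JT

open CM27 CF JZ JD
open CU (la om eE)

/-- the triple is the class of a local point at the place 2 -/
def L2 (D : Eis) (u : KK × KK × KK) : Prop :=
  ∀ v : HeightOneSpectrum (𝓞 KK), v.valuation KK 2 < 1 →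
    LocA (algebraMap KK (v.adicCompletion KK) (jK D)) (mp (algebraMap KK (v.adicCompletion KK)) u)

/-- the properties of the local condition at 2 -/
structure LC2 (D : Eis) {F : Type} [Field F] [NumberField F] [Algebra KK F] (s : F) : Prop where
  one : L2 D (1, 0, 0)
  mul : ∀ u v : KK × KK × KK, nm (jK D) u ≠ 0 → IsSquare (nm (jK D) u) → nm (jK D) v ≠ 0 → IsSquare (nm (jK D) v) →
    L2 D u → L2 D v → L2 D (mu (jK D) u v)
  sq : ∀ u g : KK × KK × KK, L2 D u → L2 D (mu (jK D) u (mu (jK D) g g))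
  of_sq : ∀ u g : KK × KK × KK, nm (jK D) g ≠ 0 → L2 D (mu (jK D) u (mu (jK D) g g)) → L2 D u
  sig : ∀ u : KK × KK × KK, L2 D u → L2 D (sgt u)
  adj : ∀ α β : KK × KK × KK, nm (jK D) α ≠ 0 → IsSquare (nm (jK D) α) → nm (jK D) β ≠ 0 → IsSquare (nm (jK D) β) →
    Ev (ev (mp (algebraMap KK F) α) s) → Ev (ev (mp (algebraMap KK F) β) s) → ¬ L2 D β →
    L2 D α ∨ L2 D (mu (jK D) α β) ∨ L2 D (mu (jK D) α (sgt β)) ∨ L2 D (mu (jK D) α (sgt (sgt β)))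

section
variable {D : Eis} {F : Type} [Field F] [NumberField F] [Algebra KK F] {s : F} {σ : F ≃ₐ[KK] F}

theorem g2_om3 : (jK om) ^ 3 = 1 := by
  rw [← map_pow, show om ^ 3 = 1 by decide, map_one]

theorem g2_nm_sgt (u : KK × KK × KK) : nm (jK D) (sgt u) = nm (jK D) u := by
  obtain ⟨a, b, c⟩ := u
  simp only [nm, sgt]
  linear_combination (jK D * b ^ 3 + jK D ^ 2 * c ^ 3 * ((jK om) ^ 3 + 1) - 3 * jK D * a * b * c) * g2_om3

/-- the norm of a triple of an element of norm `n²` -/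
theorem g2_nm (hD : D ≠ 0) (hQ : Cub D s σ) {u : KK × KK × KK} {z : F} (hz : z = ev (mp (algebraMap KK F) u) s) {x : KK}
    (h : z * σ z * σ (σ z) = algebraMap KK F x) : nm (jK D) u = x := by
  apply (algebraMap KK F).injective
  rw [← norm3 hD hQ u, ← hz, h]

/-- the image of a unit -/
theorem g2_sig (σ : F ≃ₐ[KK] F) (u : (𝓞 F)ˣ) : ∃ u' : (𝓞 F)ˣ, (u' : F) = σ (u : F) := by
  refine ⟨Units.map ((RingOfIntegers.mapRingEquiv (σ : F ≃+* F) : 𝓞 F ≃+* 𝓞 F) : 𝓞 F →* 𝓞 F) u, ?_⟩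
  rfl

theorem g2_neg (u : (𝓞 F)ˣ) : ∃ u' : (𝓞 F)ˣ, (u' : F) = -(u : F) := by
  refine ⟨-u, ?_⟩
  rw [Units.val_neg, map_neg]

/-- [G2a] -/
theorem nobad_of_uc (hD : D ≠ 0) (hQ : Cub D s σ) (hL : LC2 D s) (h : ¬ 2 ∣ classNumber F)
    (hu : ∃ (e : (𝓞 F)ˣ) (u : KK × KK × KK), (e : F) = ev (mp (algebraMap KK F) u) s ∧ nm (jK D) u = 1 ∧ ¬ L2 D u) :
    NoBad2 D s := by
  intro α hα0 hαs hEv hl2
  obtain ⟨e₀, u₀, he₀, hn₀, hL₀⟩ := hu
  have ha0 : ev (mp (algebraMap KK F) α) s ≠ 0 := (nm_ne_iff hD hQ α).1 hα0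
  obtain ⟨e, δ, hδ, ha⟩ := unit_of_ev F h ha0 hEv
  obtain ⟨ε, hε⟩ := exists_trip hD hQ (e : F)
  obtain ⟨g, hg⟩ := exists_trip hD hQ δ
  have hg0 : nm (jK D) g ≠ 0 := (nm_ne_iff hD hQ g).2 (by rw [← hg]; exact hδ)
  have hαε : α = mu (jK D) ε (mu (jK D) g g) := by
    apply trip_inj hD hQ
    rw [ev_mul hD hQ, ev_mul hD hQ, ← hε, ← hg, ha]
    ring
  have hLε : L2 D ε := hL.of_sq ε g hg0 (by rw [← hαε]; exact hl2)
  have hnm : nm (jK D) α = nm (jK D) ε * (nm (jK D) g * nm (jK D) g) := by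
    rw [hαε, nm_mu, nm_mu]
  have hε0 : nm (jK D) ε ≠ 0 := by
    intro h0
    rw [h0, zero_mul] at hnm
    exact hα0 hnm
  obtain ⟨m, hm⟩ := hαs
  have hεs : nm (jK D) ε = (m / nm (jK D) g) * (m / nm (jK D) g) := by
    have h1 : nm (jK D) ε * (nm (jK D) g * nm (jK D) g) = m * m := by rw [← hnm, hm]
    field_simp
    linear_combination h1
  by_contra hns
  have hen : ¬ IsSquare ((e : F)) := by
    rintro ⟨x, hx⟩
    apply hns
    rw [sqA_iff hD hQ]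
    exact ⟨x * δ, by rw [ha, hx]; ring⟩
  have hun : ∃ n : KK, (e : F) * σ (e : F) * σ (σ (e : F)) = algebraMap KK F (n ^ 2) := by
    refine ⟨m / nm (jK D) g, ?_⟩
    rw [hε, norm3 hD hQ, hεs, sq]
  have hvn : ∃ n : KK, (e₀ : F) * σ (e₀ : F) * σ (σ (e₀ : F)) = algebraMap KK F (n ^ 2) := by
    refine ⟨1, ?_⟩
    rw [he₀, norm3 hD hQ, hn₀, one_pow]
  obtain ⟨δ', hδ', hcases⟩ := unit_four hD hQ (u := e) (v := e₀) hen hun hvn
  obtain ⟨g', hg'⟩ := exists_trip hD hQ δ'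
  rcases hcases with h1 | h1 | h1 | h1
  · apply hL₀
    have h2 : u₀ = mu (jK D) (1, 0, 0) (mu (jK D) g' g') := by
      apply trip_inj hD hQ
      rw [ev_mul hD hQ, ev_mul hD hQ, ← he₀, ← hg', h1]
      simp only [ev, mp, map_one, map_zero]
      ring
    rw [h2]
    exact hL.sq _ _ hL.one
  · apply hL₀
    have h2 : u₀ = mu (jK D) ε (mu (jK D) g' g') := by
      apply trip_inj hD hQ
      rw [ev_mul hD hQ, ev_mul hD hQ, ← he₀, ← hg', ← hε, h1]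
      ring
    rw [h2]
    exact hL.sq _ _ hLε
  · apply hL₀
    have h2 : u₀ = mu (jK D) (sgt ε) (mu (jK D) g' g') := by
      apply trip_inj hD hQ
      rw [ev_mul hD hQ, ev_mul hD hQ, ← ev_sig hQ, ← he₀, ← hg', ← hε, h1]
      ring
    rw [h2]
    exact hL.sq _ _ (hL.sig _ hLε)
  · apply hL₀
    have h2 : u₀ = mu (jK D) (mu (jK D) ε (sgt ε)) (mu (jK D) g' g') := by
      apply trip_inj hD hQ
      rw [ev_mul hD hQ, ev_mul hD hQ, ev_mul hD hQ, ← ev_sig hQ, ← he₀, ← hg', ← hε, h1]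
      ring
    rw [h2]
    refine hL.sq _ _ (hL.mul _ _ hε0 ⟨_, hεs⟩ ?_ ?_ hLε (hL.sig _ hLε))
    · rw [g2_nm_sgt]
      exact hε0
    · rw [g2_nm_sgt]
      exact ⟨_, hεs⟩

/-- the contradiction in the proof of G2b -/
theorem g2b_core (hD : D ≠ 0) (hQ : Cub D s σ) (hL : LC2 D s) (h : NoBad2 D s) {u : (𝓞 F)ˣ} {ε : KK × KK × KK}
    (hε : (u : F) = ev (mp (algebraMap KK F) ε) s) {n : KK} (hn : nm (jK D) ε = n ^ 2) (hn0 : n ≠ 0) (hLε : ¬ L2 D ε)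
    {β : F} (hβ0 : β ≠ 0) (hE : Ev β) (hβ : ∀ (u : (𝓞 F)ˣ) (δ : F), β ≠ (u : F) * δ ^ 2) {m : KK} (hm : m ≠ 0)
    (hN : β * σ β * σ (σ β) = algebraMap KK F (m ^ 2)) : False := by
  obtain ⟨b, hb⟩ := exists_trip hD hQ β
  have hnb : nm (jK D) b = m ^ 2 := g2_nm hD hQ hb hN
  have hb0 : nm (jK D) b ≠ 0 := by rw [hnb]; exact pow_ne_zero 2 hm
  have hε0 : nm (jK D) ε ≠ 0 := by rw [hn]; exact pow_ne_zero 2 hn0
  have hbs : IsSquare (nm (jK D) b) := ⟨m, by rw [hnb, sq]⟩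
  have hεs : IsSquare (nm (jK D) ε) := ⟨n, by rw [hn, sq]⟩
  have hE1 : Ev (ev (mp (algebraMap KK F) b) s) := by rw [← hb]; exact hE
  have hE2 : Ev (ev (mp (algebraMap KK F) ε) s) := by rw [← hε]; exact ev_unit u
  -- the general step
  have key : ∀ (x : KK × KK × KK) (u' : (𝓞 F)ˣ), (u' : F) = ev (mp (algebraMap KK F) x) s → nm (jK D) x = n ^ 2 →
      ¬ L2 D (mu (jK D) b x) := by
    intro x u' hx hnx hLx
    have h1 := h (mu (jK D) b x) ?_ ?_ ?_ hLx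
    · rw [sqA_iff hD hQ, ev_mul hD hQ, ← hb, ← hx] at h1
      obtain ⟨δ, hδ⟩ := h1
      refine hβ u'⁻¹ δ ?_
      have h2 : (u' : F) * ((u'⁻¹ : (𝓞 F)ˣ) : F) = 1 := by simp
      calc β = β * ((u' : F) * ((u'⁻¹ : (𝓞 F)ˣ) : F)) := by rw [h2, mul_one]
        _ = ((u'⁻¹ : (𝓞 F)ˣ) : F) * (β * (u' : F)) := by ring
        _ = ((u'⁻¹ : (𝓞 F)ˣ) : F) * δ ^ 2 := by rw [hδ, sq]
    · rw [nm_mu, hnx]
      exact mul_ne_zero hb0 (pow_ne_zero 2 hn0)
    · rw [nm_mu, hnb, hnx]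
      exact ⟨m * n, by ring⟩
    · rw [ev_mul hD hQ, ← hb, ← hx]
      intro w
      obtain ⟨g1, hg1⟩ := hE w
      obtain ⟨g2, hg2⟩ := ev_unit u' w
      exact ⟨g1 * g2, by rw [map_mul, hg1, hg2, mul_pow]⟩
  obtain ⟨u1, hu1⟩ := g2_sig σ u
  obtain ⟨u2, hu2⟩ := g2_sig σ u1
  rcases hL.adj b ε hb0 hbs hε0 hεs hE1 hE2 hLε with h1 | h1 | h1 | h1
  · have h2 := h b hb0 hbs hE1 h1
    rw [sqA_iff hD hQ, ← hb] at h2
    obtain ⟨δ, hδ⟩ := h2
    refine hβ 1 δ ?_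
    rw [hδ, Units.val_one, map_one, one_mul, sq]
  · exact key ε u hε hn h1
  · refine key (sgt ε) u1 ?_ ?_ h1
    · rw [hu1, hε, ev_sig hQ]
    · rw [g2_nm_sgt, hn]
  · refine key (sgt (sgt ε)) u2 ?_ ?_ h1
    · rw [hu2, hu1, hε, ev_sig hQ, ev_sig hQ]
    · rw [g2_nm_sgt, g2_nm_sgt, hn]

/-- [G2b] -/
theorem uc_of_nobad (hD : D ≠ 0) (hQ : Cub D s σ) (hL : LC2 D s) (h : NoBad2 D s) :
    ¬ 2 ∣ classNumber F ∧
    ∃ (e : (𝓞 F)ˣ) (u : KK × KK × KK), (e : F) = ev (mp (algebraMap KK F) u) s ∧ nm (jK D) u = 1 ∧ ¬ L2 D u := by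
  obtain ⟨u, hns, n, hn⟩ := exists_nsq hD hQ
  obtain ⟨ε, hε⟩ := exists_trip hD hQ (u : F)
  have hnε : nm (jK D) ε = n ^ 2 := g2_nm hD hQ hε hn
  have hu0 : (u : F) ≠ 0 := by
    intro h0
    have h2 : (u : F) * ((u⁻¹ : (𝓞 F)ˣ) : F) = 1 := by simp
    rw [h0, zero_mul] at h2
    exact zero_ne_one h2
  have hε0 : nm (jK D) ε ≠ 0 := (nm_ne_iff hD hQ ε).2 (by rw [← hε]; exact hu0)
  have hn0 : n ≠ 0 := by
    rintro rfl
    exact hε0 (by rw [hnε]; ring)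
  have hLε : ¬ L2 D ε := by
    intro hl
    apply hns
    have h1 := h ε hε0 ⟨n, by rw [hnε, sq]⟩ (by rw [← hε]; exact ev_unit u) hl
    rw [sqA_iff hD hQ, ← hε] at h1
    exact h1
  have hn3 : (n ^ 2) ^ 3 = 1 := by
    obtain ⟨x, hx, -, hx3⟩ := unit_norm hD hQ u
    have h1 : x = n ^ 2 := by
      apply (algebraMap KK F).injective
      rw [← hx, hn]
    subst h1
    exact hx3 ⟨n, sq n⟩
  refine ⟨fun h2 => ?_, u ^ 3, mu (jK D) ε (mu (jK D) ε ε), ?_, ?_, ?_⟩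
  · obtain ⟨β, hβ0, hE, hβ⟩ := even_class F h2
    obtain ⟨m, hm, hN | hN⟩ := norm_pm hD hQ hβ0 hE
    · exact g2b_core hD hQ hL h hε hnε hn0 hLε hβ0 hE hβ hm hN
    · refine g2b_core hD hQ hL h hε hnε hn0 hLε (β := -β) (neg_ne_zero.2 hβ0) ?_ ?_ hm ?_
      · intro w
        obtain ⟨g, hg⟩ := hE w
        exact ⟨g, by rw [Valuation.map_neg, hg]⟩
      · intro u' δ hδ
        obtain ⟨u'', hu''⟩ := g2_neg u'
        refine hβ u'' δ ?_
        rw [hu'']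
        linear_combination -hδ
      · rw [map_neg, map_neg]
        linear_combination -hN
  · rw [ev_mul hD hQ, ev_mul hD hQ, ← hε, Units.val_pow_eq_pow_val, map_pow]
    ring
  · rw [nm_mu, nm_mu, hnε]
    linear_combination hn3
  · intro hl
    exact hLε (hL.of_sq ε ε hε0 hl)

end

end JT
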