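import Pool.Agent.JT.T1
import Pool.Agent.JD.N1

/-!
# [JT-N0] Kummer data: definitions

A class of `H¹(K, E[2])` is given by a triple `u` over `K` (an element of `K[T]/(T³ - d)`), whose norm is a square `n²`, and a choice of square roots `t ρ` of `u(ρ)` at all cube roots `ρ` of `d` in `L` (an algebraic closure) with product `n`. The cocycle `c` is determined by `σ (t ρ) = sg (σ ρ) (c σ) * t (σ ρ)`.
-/

set_option autoImplicit false

open NumberField IsDedekindDomain
open scoped Classical

namespace JT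

open JD (ED ptE Coc LocTriv)
open CUD (gal_comm alg_comm tau_comm am_ne am_o)

/-- square roots of the values of `u` with product `n` -/
structure TD {K L : Type} [Field K] [Field L] [Algebra K L] (d : K) (u : K × K × K) (n : K) (t : L → L) : Prop where
  sq : ∀ ρ : L, ρ ^ 3 = algebraMap K L d → t ρ ^ 2 = ev (mp (algebraMap K L) u) ρ
  n0 : n ≠ 0
  nm : nm d u = n ^ 2
  prod : ∀ o ρ : L, o ^ 2 + o + 1 = 0 → ρ ^ 3 = algebraMap K L d → t ρ * t (o * ρ) * t (o ^ 2 * ρ) = algebraMap K L n

/-- `c` is the cocycle of `t` -/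
def Ksg {K L : Type} [Field K] [Field L] [Algebra K L] {d : K} (t : L → L)
    (c : (L ≃ₐ[K] L) → (ED (algebraMap K L d)).toAffine.Point) : Prop :=
  ∀ (σ : L ≃ₐ[K] L) (ρ : L), ρ ^ 3 = algebraMap K L d → σ (t ρ) = (sg (σ ρ) (c σ) : L) * t (σ ρ)

/-- A class which is locally everywhere the class of a point is trivial. -/
def Sel0 (F : Type) [Field F] [NumberField F] (d : F) : Prop :=
  ∀ u : F × F × F, nm d u ≠ 0 → IsSquare (nm d u) →
    (∀ v : HeightOneSpectrum (𝓞 F), LocA (algebraMap F (v.adicCompletion F) d) (mp (algebraMap F (v.adicCompletion F)) u)) →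
    SqA d u

/-- A cocycle with values in the 2-torsion, which is trivial at all finite places, is principal. -/
def Step2 (F : Type) [Field F] [NumberField F] (d : F) : Prop :=
  ∀ c : (AlgebraicClosure F ≃ₐ[F] AlgebraicClosure F) →
      (ED (algebraMap F (AlgebraicClosure F) d)).toAffine.Point,
    Coc F (AlgebraicClosure F) d c → (∀ σ, TwoE (c σ)) →
    (∀ v : HeightOneSpectrum (𝓞 F),
      LocTriv c (v.adicCompletion F) (AlgebraicClosure (v.adicCompletion F))) →
    ∃ T : (ED (algebraMap F (AlgebraicClosure F) d)).toAffine.Point,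
      ∀ σ, c σ = ptE (σ : AlgebraicClosure F →+* AlgebraicClosure F) (gal_comm σ d) T - T

/-- the values of a triple of nonzero norm are not `0` -/
theorem TD.ev_ne {K L : Type} [Field K] [CharZero K] [Field L] [Algebra K L] {d : K} {u : K × K × K} {n : K} {t : L → L}
    (h : TD d u n t) {o : L} (ho : o ^ 2 + o + 1 = 0) {ρ : L} (hρ : ρ ^ 3 = algebraMap K L d) :
    ev (mp (algebraMap K L) u) ρ ≠ 0 ∧ t ρ ≠ 0 := by
  have h1 := nm_ev ho hρ (mp (algebraMap K L) u)
  rw [mp_nm, h.nm] at h1
  have h2 : ev (mp (algebraMap K L) u) ρ ≠ 0 := by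
    intro h0
    rw [h0, zero_mul, zero_mul] at h1
    exact pow_ne_zero 2 h.n0 ((map_eq_zero (algebraMap K L)).1 h1.symm)
  refine ⟨h2, fun h0 => h2 ?_⟩
  rw [← h.sq ρ hρ, h0]
  ring

end JT
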