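import Pool.Agent.JT.A1

/-!
# [JT-P0] a complete field with residue field `F₄` and uniformizer `2`

PROOF. `v o = 1` (`o³ = 1`), `v 3 = 1` (`3 = 1 + 2`), `v (1 - o) = 1` (`(1 - o)(1 - o²) = 3`). The values are `0` or `exp k`, so `v x < 1` iff `v x ≤ exp (-1) = v 2`.
`fourth`: by `res`: `x ≡ r` mod 2, `r ∈ {0, 1, o, o²}`, `r⁴ = r`.
`sq_of_8`: `x = 1 + 8 t`. `hens2`-type: the monic polynomial `W² + W - 2 t` has the simple root `0` modulo 2 (use `hens3` for `W (W² + W - 2 t)`? no: use `hens2`): `W`, `v W < 1`, `(1 + 2 W)² = 1 + 4 (W + W²) = 1 + 8 t`.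
`sq_iff4`: `x = 1 + 4 t`: if `t ≡ 0` or `1` mod 2: `W² + W - t` has the simple root `0` resp. `o` modulo 2 (`o² + o = -1 ≡ 1`; derivative `2 W + 1`), `(1 + 2 W)² = 1 + 4 t`. Conversely `1 + 4 t = y²`: `(y - 1)² = y² - 1 - 2 (y - 1)`, so `v (y - 1) < 1`, `y = 1 + 2 W`, `t = W + W²`, `W ≡ 0, 1, o, o²` gives `t ≡ 0, 0, 1, 1`.
`sq_one4`: `x = y²`, `v (x - 1) ≤ v 2`: `(y - 1)² = x - 1 - 2 (y - 1)`, so `y = 1 + 2 W` and `x = 1 + 4 (W + W²)`.
`cube_of`: `Y³ - x` has the simple root `1` modulo 2 (`hens3`, derivative `3`); if `x ≡ 1 + 2 z mod 4`, `y = 1 + 2 W`: `y³ = 1 + 6 W + 12 W² + 8 W³ ≡ 1 + 2 W mod 4`, so `W ≡ z mod 2`.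
`sq_unit4`: `x = y²`, `v x = 1`: `y ≡ ζ mod 2`, `ζ ∈ {1, o, o²}`, `(y - ζ)` etc.: `y = ζ (1 + 2 W)`, `y² = ζ² (1 + 4 (W + W²)) ≡ ζ² mod 4`.
`exists_unit4`: `x ≡ ζ mod 2`, `x = ζ + 2 t = ζ (1 + 2 t ζ²)`.
-/

set_option autoImplicit false

open scoped Classical

namespace JT

/-- a complete field with residue field `F₄` and uniformizer `2` -/
structure Lc2 {C : Type} [Field C] (v : Valuation C (WithZero (Multiplicative ℤ))) (o : C) : Prop where
  ho : o ^ 2 + o + 1 = 0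
  two : v 2 = WithZero.exp (-1 : ℤ)
  res : ∀ x : C, v x ≤ 1 → v x ≤ v 2 ∨ v (x - 1) ≤ v 2 ∨ v (x - o) ≤ v 2 ∨ v (x - o ^ 2) ≤ v 2
  hens2 : ∀ p q x₀ : C, v p ≤ 1 → v q ≤ 1 → v x₀ ≤ 1 → v (x₀ ^ 2 + p * x₀ + q) < 1 → v (2 * x₀ + p) = 1 →
    ∃ x : C, x ^ 2 + p * x + q = 0 ∧ v (x - x₀) < 1
  hens3 : ∀ p q t x₀ : C, v p ≤ 1 → v q ≤ 1 → v t ≤ 1 → v x₀ ≤ 1 → v (x₀ ^ 3 + p * x₀ ^ 2 + q * x₀ + t) < 1 →
    v (3 * x₀ ^ 2 + 2 * p * x₀ + q) = 1 → ∃ x : C, x ^ 3 + p * x ^ 2 + q * x + t = 0 ∧ v (x - x₀) < 1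
  hens4 : ∀ a b c t x₀ : C, v a ≤ 1 → v b ≤ 1 → v c ≤ 1 → v t ≤ 1 → v x₀ ≤ 1 →
    v (x₀ ^ 4 + a * x₀ ^ 3 + b * x₀ ^ 2 + c * x₀ + t) < 1 → v (4 * x₀ ^ 3 + 3 * a * x₀ ^ 2 + 2 * b * x₀ + c) = 1 →
    ∃ x : C, x ^ 4 + a * x ^ 3 + b * x ^ 2 + c * x + t = 0 ∧ v (x - x₀) < 1

section
variable {C : Type} [Field C] {v : Valuation C (WithZero (Multiplicative ℤ))}

theorem p0_add {a b : C} (ha : v a ≤ 1) (hb : v b ≤ 1) : v (a + b) ≤ 1 := v.map_add_le ha hb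

theorem p0_sub {a b : C} (ha : v a ≤ 1) (hb : v b ≤ 1) : v (a - b) ≤ 1 := v.map_sub_le ha hb

theorem p0_mul {a b : C} (ha : v a ≤ 1) (hb : v b ≤ 1) : v (a * b) ≤ 1 := by
  rw [map_mul]
  exact mul_le_one' ha hb

theorem p0_pow {a : C} (ha : v a ≤ 1) (n : ℕ) : v (a ^ n) ≤ 1 := by
  rw [map_pow]
  exact pow_le_one' ha n

theorem p0_ml {a b : C} {γ : WithZero (Multiplicative ℤ)} (ha : v a ≤ γ) (hb : v b ≤ 1) :
    v (a * b) ≤ γ := by
  rw [map_mul]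
  calc v a * v b ≤ γ * 1 := mul_le_mul' ha hb
    _ = γ := mul_one γ

theorem p0_mr {a b : C} {γ : WithZero (Multiplicative ℤ)} (ha : v a ≤ 1) (hb : v b ≤ γ) :
    v (a * b) ≤ γ := by
  rw [mul_comm]
  exact p0_ml hb ha

theorem p0_nat (n : ℕ) : v (n : C) ≤ 1 := by
  induction n with
  | zero => simp
  | succ n ih =>
    push_cast
    exact p0_add ih (by rw [map_one])

theorem p0_ofNat (n : ℕ) [n.AtLeastTwo] : v (OfNat.ofNat n : C) ≤ 1 := by
  have := p0_nat (v := v) n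
  exact_mod_cast this

end

section
variable {C : Type} [Field C] [CharZero C] {v : Valuation C (WithZero (Multiplicative ℤ))} {o : C} (h : Lc2 v o)
include h

theorem two_lt : v (2 : C) < 1 ∧ v (2 : C) ≠ 0 := by
  rw [h.two]
  refine ⟨?_, WithZero.exp_ne_zero⟩
  rw [← WithZero.exp_zero, WithZero.exp_lt_exp]
  norm_num

theorem lt_iff2 (x : C) : v x < 1 ↔ v x ≤ v 2 := by
  constructor
  · intro hx
    rcases eq_or_ne (v x) 0 with h0 | h0
    · rw [h0]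
      exact zero_le
    · rw [h.two]
      rw [← WithZero.exp_log h0] at hx ⊢
      rw [← WithZero.exp_zero, WithZero.exp_lt_exp] at hx
      rw [WithZero.exp_le_exp]
      omega
  · intro hx
    exact hx.trans_lt (two_lt h).1

theorem p0_o3 : o ^ 3 = 1 := by
  have := h.ho
  linear_combination (o - 1) * this

theorem v_o : v o = 1 ∧ v (3 : C) = 1 ∧ v (1 - o) = 1 := by
  have h1 : v o = 1 := by
    have h2 : v o ^ 3 = 1 := by rw [← map_pow, p0_o3 h, map_one]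
    exact (pow_eq_one_iff.1 h2).resolve_right (by norm_num)
  have h3 : v (3 : C) = 1 := by
    have : (3 : C) = 1 + 2 := by norm_num
    rw [this]
    exact v.map_one_add_of_lt (two_lt h).1
  refine ⟨h1, h3, ?_⟩
  have e : (1 - o) * (1 - o ^ 2) = 3 := by
    have := h.ho
    linear_combination (o - 2) * this
  have e' : v (1 - o) * v (1 - o ^ 2) = 1 := by rw [← map_mul, e, h3]
  have a1 : v (1 - o) ≤ 1 := p0_sub (by rw [map_one]) h1.le
  have a2 : v (1 - o ^ 2) ≤ 1 := p0_sub (by rw [map_one]) (p0_pow h1.le 2)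
  apply le_antisymm a1
  calc (1 : WithZero (Multiplicative ℤ)) = v (1 - o) * v (1 - o ^ 2) := e'.symm
    _ ≤ v (1 - o) * 1 := by gcongr
    _ = v (1 - o) := mul_one _

/-- `x⁴ ≡ x mod 2` -/
theorem fourth {x : C} (hx : v x ≤ 1) : v (x ^ 4 - x) ≤ v 2 := by
  have ho1 := (v_o h).1
  have ho3 := p0_o3 h
  have key : ∀ r : C, r ^ 4 = r → v r ≤ 1 → v (x - r) ≤ v 2 → v (x ^ 4 - x) ≤ v 2 := by
    intro r hr hr1 hxr
    have e : x ^ 4 - x = (x - r) * (x ^ 3 + x ^ 2 * r + x * r ^ 2 + r ^ 3 - 1) := by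
      linear_combination hr
    rw [e]
    apply p0_ml hxr
    apply p0_sub _ (by rw [map_one])
    exact p0_add (p0_add (p0_add (p0_pow hx 3) (p0_mul (p0_pow hx 2) hr1))
      (p0_mul hx (p0_pow hr1 2))) (p0_pow hr1 3)
  rcases h.res x hx with h1 | h1 | h1 | h1
  · exact key 0 (by norm_num) (by simp) (by rwa [sub_zero])
  · exact key 1 (by norm_num) (by rw [map_one]) h1
  · exact key o (by linear_combination o * ho3) ho1.le h1
  · exact key (o ^ 2) (by linear_combination (o ^ 5 + o ^ 2) * ho3) (p0_pow ho1.le 2) h1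

/-- `x³ ≡ 1 mod 2` for a unit -/
theorem third {x : C} (hx : v x = 1) : v (x ^ 3 - 1) ≤ v 2 := by
  have h1 := fourth h hx.le
  have e : x ^ 4 - x = x * (x ^ 3 - 1) := by ring
  rwa [e, map_mul, hx, one_mul] at h1

/-- a unit is congruent to `1`, `o` or `o²` modulo 2 -/
theorem exists_zeta {x : C} (hx : v x = 1) : ∃ ζ : C, ζ ^ 3 = 1 ∧ (ζ = 1 ∨ ζ = o ∨ ζ = o ^ 2) ∧ v (x - ζ) ≤ v 2 := by
  have ho3 := p0_o3 h
  rcases h.res x hx.le with h1 | h1 | h1 | h1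
  · exfalso
    have := h1.trans_lt (two_lt h).1
    rw [hx] at this
    exact lt_irrefl _ this
  · exact ⟨1, by norm_num, Or.inl rfl, h1⟩
  · exact ⟨o, ho3, Or.inr (Or.inl rfl), h1⟩
  · exact ⟨o ^ 2, by linear_combination (o ^ 3 + 1) * ho3, Or.inr (Or.inr rfl), h1⟩

theorem p0_half {x : C} {k : ℕ} (hx : v x ≤ v 2 ^ k) : v (x / 2 ^ k) ≤ 1 := by
  have h2 := (two_lt h).2
  rw [map_div₀, map_pow]
  exact div_le_one_of_le₀ hx zero_le

theorem p0_zeta {ζ : C} (hζ : ζ ^ 3 = 1) : v ζ = 1 := by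
  have h2 : v ζ ^ 3 = 1 := by rw [← map_pow, hζ, map_one]
  exact (pow_eq_one_iff.1 h2).resolve_right (by norm_num)

theorem exists_unit4 {x : C} (hx : v x = 1) : ∃ ζ t : C, ζ ^ 3 = 1 ∧ (ζ = 1 ∨ ζ = o ∨ ζ = o ^ 2) ∧ v t ≤ 1 ∧ x = ζ * (1 + 2 * t) := by
  obtain ⟨ζ, h1, h2, h3⟩ := exists_zeta h hx
  refine ⟨ζ, (x - ζ) / 2 ^ 1 * ζ ^ 2, h1, h2, ?_, ?_⟩
  · apply p0_mul (p0_half h (by rwa [pow_one])) (p0_pow (p0_zeta h h1).le 2)
  · have h2' : (2 : C) ≠ 0 := two_ne_zero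
    field_simp
    linear_combination (-(x - ζ)) * h1

theorem p0_root {t : C} (h1 : v t < 1) : ∃ W : C, W ^ 2 + W - t = 0 ∧ v W < 1 := by
  obtain ⟨W, e, hW⟩ := h.hens2 1 (-t) 0 (by rw [map_one]) (by rw [Valuation.map_neg]; exact h1.le) (by simp)
    (by simpa using h1) (by simp)
  refine ⟨W, by linear_combination e, by simpa using hW⟩

theorem sq_of_8 {x : C} (hx : v (x - 1) ≤ v 2 ^ 3) : IsSquare x := by
  have h2' : (2 : C) ≠ 0 := two_ne_zero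
  have ht := p0_half h hx
  obtain ⟨t, htd⟩ : ∃ t : C, t = (x - 1) / 2 ^ 3 := ⟨_, rfl⟩
  rw [← htd] at ht
  obtain ⟨W, e, -⟩ := p0_root h (t := 2 * t) (by
    rw [map_mul]
    exact (mul_le_of_le_one_right' ht).trans_lt (two_lt h).1)
  refine ⟨1 + 2 * W, ?_⟩
  have ex : x = 1 + 8 * t := by
    rw [htd]
    field_simp
    ring
  rw [ex]
  linear_combination (-4) * e

/-- a square congruent to `1` modulo `2` -/
theorem p0_sq1 {y : C} (hx : v (y * y - 1) ≤ v 2) : ∃ W : C, y = 1 + 2 * W ∧ v W ≤ 1 := by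
  have h2' : (2 : C) ≠ 0 := two_ne_zero
  have h2 := (two_lt h).1
  have hy : v y ≤ 1 := by
    have h3 : v (y * y) ≤ 1 := by
      have e : y * y = (y * y - 1) + 1 := by ring
      rw [e]
      exact p0_add (hx.trans h2.le) (by rw [map_one])
    rw [map_mul] at h3
    by_contra hcon
    rw [not_le] at hcon
    have := mul_lt_mul'' hcon hcon zero_le zero_le
    rw [one_mul] at this
    exact absurd h3 (not_le.2 this)
  have hy1 : v (y - 1) ≤ 1 := p0_sub hy (by rw [map_one])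
  have h4 : v ((y - 1) * (y - 1)) ≤ v 2 := by
    have e : (y - 1) * (y - 1) = (y * y - 1) - 2 * (y - 1) := by ring
    rw [e]
    exact v.map_sub_le hx (p0_ml le_rfl hy1)
  have h5 : v (y - 1) < 1 := by
    by_contra hcon
    have h6 : v (y - 1) = 1 := le_antisymm hy1 (not_lt.1 hcon)
    rw [map_mul, h6, one_mul] at h4
    exact absurd h2 (not_lt.2 h4)
  have h7 := (lt_iff2 h _).1 h5
  refine ⟨(y - 1) / 2 ^ 1, by field_simp; ring, p0_half h (by rwa [pow_one])⟩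

theorem sq_iff4 {t : C} (ht : v t ≤ 1) : IsSquare (1 + 4 * t) ↔ v t ≤ v 2 ∨ v (t - 1) ≤ v 2 := by
  have ho1 := (v_o h).1
  have h2 := (two_lt h).1
  have ho := h.ho
  have v2 : v (2 : C) ≤ 1 := h2.le
  constructor
  · rintro ⟨y, hy⟩
    obtain ⟨W, rfl, hW⟩ := p0_sq1 h (y := y) (by
      rw [← hy]
      have e : 1 + 4 * t - 1 = 2 * (2 * t) := by ring
      rw [e]
      exact p0_ml le_rfl (p0_mul v2 ht))
    have et : t = W ^ 2 + W := by
      have h4 : (4 : C) ≠ 0 := by norm_num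
      have : 4 * (t - (W ^ 2 + W)) = 0 := by linear_combination hy
      rcases mul_eq_zero.1 this with h5 | h5
      · exact absurd h5 h4
      · exact sub_eq_zero.1 h5
    have h1 : v (1 : C) ≤ 1 := by rw [map_one]
    rcases h.res W hW with h3 | h3 | h3 | h3
    · left
      have e : t = W * (W + 1) := by rw [et]; ring
      rw [e]
      exact p0_ml h3 (p0_add hW h1)
    · left
      have e : t = (W - 1) * (W + 2) + 2 := by rw [et]; ring
      rw [e]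
      exact v.map_add_le (p0_ml h3 (p0_add hW v2)) le_rfl
    · right
      have e : t - 1 = (W - o) * (W + o + 1) - 2 := by rw [et]; linear_combination ho
      rw [e]
      exact v.map_sub_le (p0_ml h3 (p0_add (p0_add hW ho1.le) h1)) le_rfl
    · right
      have e : t - 1 = (W - o ^ 2) * (W + o ^ 2 + 1) - 2 := by
        rw [et]; linear_combination (o ^ 2 - o + 1) * ho
      rw [e]
      exact v.map_sub_le (p0_ml h3 (p0_add (p0_add hW (p0_pow ho1.le 2)) h1)) le_rfl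
  · rintro (h1 | h1)
    · obtain ⟨W, e, -⟩ := p0_root h (h1.trans_lt h2)
      exact ⟨1 + 2 * W, by linear_combination (-4) * e⟩
    · obtain ⟨W, e, -⟩ := h.hens2 1 (-t) o (by rw [map_one]) (by rwa [Valuation.map_neg]) ho1.le
        (by
          have e : o ^ 2 + 1 * o + -t = -(t - 1) - 2 := by linear_combination ho
          rw [e]
          refine lt_of_le_of_lt (v.map_sub_le (g := v 2) ?_ le_rfl) h2
          rwa [Valuation.map_neg])
        (by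
          rw [add_comm]
          apply v.map_one_add_of_lt
          rw [map_mul, ho1, mul_one]
          exact h2)
      exact ⟨1 + 2 * W, by linear_combination (-4) * e⟩

theorem p0_four {x : C} (hx : v x ≤ 1) : v (4 * x) ≤ v 2 ^ 2 := by
  have e : (4 : C) * x = 2 ^ 2 * x := by norm_num
  rw [e]
  exact p0_ml (by rw [map_pow]) hx

theorem sq_one4 {x : C} (hs : IsSquare x) (hx : v (x - 1) ≤ v 2) : v (x - 1) ≤ v 2 ^ 2 := by
  obtain ⟨y, rfl⟩ := hs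
  obtain ⟨W, rfl, hW⟩ := p0_sq1 h hx
  have e : (1 + 2 * W) * (1 + 2 * W) - 1 = 4 * (W + W ^ 2) := by ring
  rw [e]
  exact p0_four h (p0_add hW (p0_pow hW 2))

theorem sq_unit4 {x : C} (hs : IsSquare x) (hx : v x = 1) : ∃ ζ : C, (ζ = 1 ∨ ζ = o ∨ ζ = o ^ 2) ∧ v (x - ζ ^ 2) ≤ v 2 ^ 2 := by
  obtain ⟨y, rfl⟩ := hs
  have hy : v y = 1 := by
    rw [map_mul, ← sq] at hx
    exact (pow_eq_one_iff.1 hx).resolve_right (by norm_num)
  obtain ⟨ζ, t, h1, h2, h3, rfl⟩ := exists_unit4 h hy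
  refine ⟨ζ, h2, ?_⟩
  have e : ζ * (1 + 2 * t) * (ζ * (1 + 2 * t)) - ζ ^ 2 = 4 * (ζ ^ 2 * (t + t ^ 2)) := by ring
  rw [e]
  exact p0_four h (p0_mul (p0_pow (p0_zeta h h1).le 2) (p0_add h3 (p0_pow h3 2)))

theorem cube_of {x z : C} (hz : v z ≤ 1) (hx : v (x - (1 + 2 * z)) ≤ v 2 ^ 2) : ∃ y : C, y ^ 3 = x ∧ v (y - (1 + 2 * z)) ≤ v 2 ^ 2 := by
  have h2' : (2 : C) ≠ 0 := two_ne_zero
  have h2 := (two_lt h).1
  have h3 := (v_o h).2.1
  have hx2 : v (x - (1 + 2 * z)) ≤ v 2 := by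
    refine hx.trans ?_
    rw [sq]
    exact mul_le_of_le_one_right' h2.le
  have hx1 : v (x - 1) ≤ v 2 := by
    have e : x - 1 = (x - (1 + 2 * z)) + 2 * z := by ring
    rw [e]
    exact v.map_add_le hx2 (p0_ml le_rfl hz)
  have hxi : v x ≤ 1 := by
    have e : x = (x - 1) + 1 := by ring
    rw [e]
    exact p0_add (hx1.trans h2.le) (by rw [map_one])
  obtain ⟨y, e, hy⟩ := h.hens3 0 0 (-x) 1 (by simp) (by simp) (by rwa [Valuation.map_neg]) (by rw [map_one])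
    (by
      have e : (1 : C) ^ 3 + 0 * 1 ^ 2 + 0 * 1 + -x = -(x - 1) := by ring
      rw [e, Valuation.map_neg]
      exact hx1.trans_lt h2)
    (by
      have e : (3 : C) * 1 ^ 2 + 2 * 0 * 1 + 0 = 3 := by ring
      rw [e, h3])
  have ey : y ^ 3 = x := by linear_combination e
  have hy2 := (lt_iff2 h _).1 hy
  have hW : v ((y - 1) / 2 ^ 1) ≤ 1 := p0_half h (by rwa [pow_one])
  obtain ⟨W, hWd⟩ : ∃ W : C, W = (y - 1) / 2 ^ 1 := ⟨_, rfl⟩
  rw [← hWd] at hW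
  have eW : y = 1 + 2 * W := by
    rw [hWd]
    field_simp
    ring
  refine ⟨y, ey, ?_⟩
  have e5 : y - (1 + 2 * z) = (x - (1 + 2 * z)) - 4 * (W + 3 * W ^ 2 + 2 * W ^ 3) := by
    rw [← ey, eW]
    ring
  rw [e5]
  refine v.map_sub_le hx (p0_four h ?_)
  exact p0_add (p0_add hW (p0_mul h3.le (p0_pow hW 2))) (p0_mul h2.le (p0_pow hW 3))

end

end JT
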