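import Pool.Agent.JT.P0

/-!
# [JT-P1] congruences for triples with integral coordinates

`d` is integral, `v d ≤ 1`. `Cg v n u w`: the coordinates are congruent modulo `2 ^ n`. `Un`: integral coordinates and the norm is a unit.

PROOF. Ultrametric inequality for the explicit formulas of `mu` and `nm`: e. g. `u₀ w₀ - u₀' w₀' = (u₀ - u₀') w₀ + u₀' (w₀ - w₀')`. `un_inv`: the inverse is `(g₀² - d g₁ g₂, d g₂² - g₀ g₁, g₁² - g₀ g₂) / nm d g`.
`cg_cancel`: multiply by the inverse of `g`.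
-/

set_option autoImplicit false

open scoped Classical

namespace JT

section
variable {C : Type} [Field C] (v : Valuation C (WithZero (Multiplicative ℤ)))

/-- the coordinates are congruent modulo `2 ^ n` -/
def Cg (n : ℕ) (u w : C × C × C) : Prop :=
  v (u.1 - w.1) ≤ v 2 ^ n ∧ v (u.2.1 - w.2.1) ≤ v 2 ^ n ∧ v (u.2.2 - w.2.2) ≤ v 2 ^ n

/-- integral coordinates -/
def In (u : C × C × C) : Prop := v u.1 ≤ 1 ∧ v u.2.1 ≤ 1 ∧ v u.2.2 ≤ 1

/-- integral coordinates and the norm is a unit -/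
def Un (d : C) (u : C × C × C) : Prop := In v u ∧ v (nm d u) = 1

end

section
variable {C : Type} [Field C] [CharZero C] {v : Valuation C (WithZero (Multiplicative ℤ))} {o : C} (h : Lc2 v o) {d : C} (hd : v d ≤ 1)

theorem cg_refl (n : ℕ) (u : C × C × C) : Cg v n u u := by
  refine ⟨?_, ?_, ?_⟩ <;> rw [sub_self, map_zero] <;> exact zero_le

theorem cg_symm {n : ℕ} {u w : C × C × C} (h1 : Cg v n u w) : Cg v n w u := by
  obtain ⟨a1, a2, a3⟩ := h1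
  exact ⟨by rwa [v.map_sub_swap], by rwa [v.map_sub_swap], by rwa [v.map_sub_swap]⟩

theorem cg_trans {n : ℕ} {u w z : C × C × C} (h1 : Cg v n u w) (h2 : Cg v n w z) : Cg v n u z := by
  obtain ⟨a1, a2, a3⟩ := h1
  obtain ⟨b1, b2, b3⟩ := h2
  refine ⟨?_, ?_, ?_⟩
  · rw [← sub_add_sub_cancel u.1 w.1 z.1]
    exact v.map_add_le a1 b1
  · rw [← sub_add_sub_cancel u.2.1 w.2.1 z.2.1]
    exact v.map_add_le a2 b2
  · rw [← sub_add_sub_cancel u.2.2 w.2.2 z.2.2]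
    exact v.map_add_le a3 b3

include h in
theorem cg_mono {m n : ℕ} (hmn : m ≤ n) {u w : C × C × C} (h1 : Cg v n u w) : Cg v m u w := by
  have h2 : v (2 : C) ^ n ≤ v 2 ^ m := pow_le_pow_right_of_le_one' (two_lt h).1.le hmn
  exact ⟨h1.1.trans h2, h1.2.1.trans h2, h1.2.2.trans h2⟩

include h in
theorem p1_pow (n : ℕ) : v (2 : C) ^ n ≤ 1 := pow_le_one' (two_lt h).1.le n

include h in
theorem cg_in {n : ℕ} {u w : C × C × C} (h1 : Cg v n u w) (hw : In v w) : In v u := by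
  have h2 := p1_pow h n
  refine ⟨?_, ?_, ?_⟩
  · rw [← sub_add_cancel u.1 w.1]
    exact p0_add (h1.1.trans h2) hw.1
  · rw [← sub_add_cancel u.2.1 w.2.1]
    exact p0_add (h1.2.1.trans h2) hw.2.1
  · rw [← sub_add_cancel u.2.2 w.2.2]
    exact p0_add (h1.2.2.trans h2) hw.2.2

include hd in
theorem in_mu {u w : C × C × C} (hu : In v u) (hw : In v w) : In v (mu d u w) := by
  obtain ⟨a1, a2, a3⟩ := hu
  obtain ⟨b1, b2, b3⟩ := hw
  exact ⟨p0_add (p0_mul a1 b1) (p0_mul hd (p0_add (p0_mul a2 b3) (p0_mul a3 b2))),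
    p0_add (p0_add (p0_mul a1 b2) (p0_mul a2 b1)) (p0_mul (p0_mul hd a3) b3),
    p0_add (p0_add (p0_mul a1 b3) (p0_mul a2 b2)) (p0_mul a3 b1)⟩

include hd in
theorem nm_le {u : C × C × C} (hu : In v u) : v (nm d u) ≤ 1 := by
  obtain ⟨a1, a2, a3⟩ := hu
  have h3 : v (3 : C) ≤ 1 := p0_ofNat 3
  exact p0_sub (p0_add (p0_add (p0_pow a1 3) (p0_mul hd (p0_pow a2 3)))
    (p0_mul (p0_pow hd 2) (p0_pow a3 3))) (p0_mul (p0_mul (p0_mul (p0_mul h3 hd) a1) a2) a3)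

include h hd in
theorem cg_mu {n : ℕ} {u u' w w' : C × C × C} (h1 : Cg v n u u') (h2 : Cg v n w w') (hu : In v u) (hw : In v w) :
    Cg v n (mu d u w) (mu d u' w') := by
  have hu' : In v u' := cg_in h (cg_symm h1) hu
  obtain ⟨a1, a2, a3⟩ := hu'
  obtain ⟨b1, b2, b3⟩ := hw
  obtain ⟨c1, c2, c3⟩ := h1
  obtain ⟨e1, e2, e3⟩ := h2
  have q : ∀ {x x' y y' : C}, v (x - x') ≤ v 2 ^ n → v y ≤ 1 → v x' ≤ 1 → v (y - y') ≤ v 2 ^ n →
      v (x * y - x' * y') ≤ v 2 ^ n := by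
    intro x x' y y' g1 g2 g3 g4
    have e : x * y - x' * y' = (x - x') * y + x' * (y - y') := by ring
    rw [e]
    exact v.map_add_le (p0_ml g1 g2) (p0_mr g3 g4)
  refine ⟨?_, ?_, ?_⟩
  · have e : (mu d u w).1 - (mu d u' w').1 = (u.1 * w.1 - u'.1 * w'.1)
        + d * ((u.2.1 * w.2.2 - u'.2.1 * w'.2.2) + (u.2.2 * w.2.1 - u'.2.2 * w'.2.1)) := by
      simp only [mu]
      ring
    rw [e]
    exact v.map_add_le (q c1 b1 a1 e1) (p0_mr hd (v.map_add_le (q c2 b3 a2 e3) (q c3 b2 a3 e2)))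
  · have e : (mu d u w).2.1 - (mu d u' w').2.1 = (u.1 * w.2.1 - u'.1 * w'.2.1)
        + (u.2.1 * w.1 - u'.2.1 * w'.1) + d * (u.2.2 * w.2.2 - u'.2.2 * w'.2.2) := by
      simp only [mu]
      ring
    rw [e]
    exact v.map_add_le (v.map_add_le (q c1 b2 a1 e2) (q c2 b1 a2 e1)) (p0_mr hd (q c3 b3 a3 e3))
  · have e : (mu d u w).2.2 - (mu d u' w').2.2 = (u.1 * w.2.2 - u'.1 * w'.2.2)
        + (u.2.1 * w.2.1 - u'.2.1 * w'.2.1) + (u.2.2 * w.1 - u'.2.2 * w'.1) := by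
      simp only [mu]
      ring
    rw [e]
    exact v.map_add_le (v.map_add_le (q c1 b3 a1 e3) (q c2 b2 a2 e2)) (q c3 b1 a3 e1)

include h hd in
theorem cg_nm {n : ℕ} {u u' : C × C × C} (h1 : Cg v n u u') (hu : In v u) : v (nm d u - nm d u') ≤ v 2 ^ n := by
  have hu' : In v u' := cg_in h (cg_symm h1) hu
  obtain ⟨a1, a2, a3⟩ := hu'
  obtain ⟨b1, b2, b3⟩ := hu
  obtain ⟨c1, c2, c3⟩ := h1
  have h3 : v (3 : C) ≤ 1 := p0_ofNat 3
  have q : ∀ {x x' y y' : C}, v (x - x') ≤ v 2 ^ n → v y ≤ 1 → v x' ≤ 1 → v (y - y') ≤ v 2 ^ n →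
      v (x * y - x' * y') ≤ v 2 ^ n := by
    intro x x' y y' g1 g2 g3 g4
    have e : x * y - x' * y' = (x - x') * y + x' * (y - y') := by ring
    rw [e]
    exact v.map_add_le (p0_ml g1 g2) (p0_mr g3 g4)
  have cu : ∀ {x x' : C}, v (x - x') ≤ v 2 ^ n → v x ≤ 1 → v x' ≤ 1 → v (x ^ 3 - x' ^ 3) ≤ v 2 ^ n := by
    intro x x' g1 g2 g3
    have e : x ^ 3 - x' ^ 3 = (x - x') * (x ^ 2 + x * x' + x' ^ 2) := by ring
    rw [e]
    exact p0_ml g1 (p0_add (p0_add (p0_pow g2 2) (p0_mul g2 g3)) (p0_pow g3 2))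
  have e : nm d u - nm d u' = (u.1 ^ 3 - u'.1 ^ 3) + d * (u.2.1 ^ 3 - u'.2.1 ^ 3)
      + d ^ 2 * (u.2.2 ^ 3 - u'.2.2 ^ 3)
      - (3 * d) * (u.1 * (u.2.1 * u.2.2) - u'.1 * (u'.2.1 * u'.2.2)) := by
    simp only [nm]
    ring
  rw [e]
  exact v.map_sub_le (v.map_add_le (v.map_add_le (cu c1 b1 a1) (p0_mr hd (cu c2 b2 a2)))
    (p0_mr (p0_pow hd 2) (cu c3 b3 a3))) (p0_mr (p0_mul h3 hd) (q c1 (p0_mul b2 b3) a1 (q c2 b3 a2 c3)))

include hd in
theorem un_mu {u w : C × C × C} (hu : Un v d u) (hw : Un v d w) : Un v d (mu d u w) := by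
  refine ⟨in_mu hd hu.1 hw.1, ?_⟩
  rw [nm_mu, map_mul, hu.2, hw.2, one_mul]

include h hd in
theorem un_cg {n : ℕ} (hn : 0 < n) {u w : C × C × C} (h1 : Cg v n u w) (hw : Un v d w) : Un v d u := by
  have hu : In v u := cg_in h h1 hw.1
  refine ⟨hu, ?_⟩
  have h2 := cg_nm h hd h1 hu
  have h3 : v (2 : C) ^ n < 1 := pow_lt_one' (two_lt h).1 (by omega)
  have e : nm d u = (nm d u - nm d w) + nm d w := by ring
  rw [e, v.map_add_eq_of_lt_right, hw.2]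
  rw [hw.2]
  exact h2.trans_lt h3

include hd in
theorem un_inv {u : C × C × C} (hu : Un v d u) : ∃ w : C × C × C, Un v d w ∧ mu d u w = (1, 0, 0) := by
  obtain ⟨⟨a1, a2, a3⟩, hN⟩ := hu
  have hN0 : nm d u ≠ 0 := by
    intro h0
    rw [h0, map_zero] at hN
    exact zero_ne_one hN
  have hm : mu d u ((u.1 ^ 2 - d * u.2.1 * u.2.2) / nm d u, (d * u.2.2 ^ 2 - u.1 * u.2.1) / nm d u,
      (u.2.1 ^ 2 - u.1 * u.2.2) / nm d u) = (1, 0, 0) := by
    simp only [mu, Prod.mk.injEq]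
    refine ⟨?_, ?_, ?_⟩
    · field_simp
      simp only [nm]
      ring
    · field_simp
      ring
    · field_simp
      ring
  have hq : ∀ {x : C}, v x ≤ 1 → v (x / nm d u) ≤ 1 := by
    intro x hx
    rwa [map_div₀, hN, div_one]
  refine ⟨_, ⟨⟨hq (p0_sub (p0_pow a1 2) (p0_mul (p0_mul hd a2) a3)),
    hq (p0_sub (p0_mul hd (p0_pow a3 2)) (p0_mul a1 a2)),
    hq (p0_sub (p0_pow a2 2) (p0_mul a1 a3))⟩, ?_⟩, hm⟩
  have h1 := congrArg (fun z => v (nm d z)) hm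
  rw [nm_mu, map_mul, hN, one_mul] at h1
  rw [h1]
  simp [nm]

include h hd in
theorem cg_cancel {n : ℕ} {g u w : C × C × C} (hg : Un v d g) (hu : In v u) (hw : In v w)
    (h1 : Cg v n (mu d u g) (mu d w g)) : Cg v n u w := by
  obtain ⟨g', hg', e⟩ := un_inv hd hg
  have h2 := cg_mu h hd h1 (cg_refl n g') (in_mu hd hu hg.1) hg'.1
  rw [mu_assoc, mu_assoc, e] at h2
  have m1 : ∀ z : C × C × C, mu d z (1, 0, 0) = z := by
    intro z
    simp [mu]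
  rwa [m1, m1] at h2

theorem un_one : Un v d (1, 0, 0) := by
  refine ⟨⟨?_, ?_, ?_⟩, ?_⟩ <;> simp [nm]

theorem un_ne {u : C × C × C} (hu : Un v d u) : nm d u ≠ 0 := by
  intro h0
  have := hu.2
  rw [h0, map_zero] at this
  exact zero_ne_one this

end

end JT
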