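import Pool.Agent.JT.P1
import Pool.Agent.JT.L2

/-!
# [JT-P2] triples congruent to `1` modulo `16`, `8`, `4`

`d` integral.

PROOF of `deep` [P2a]: `β = (1 + 16 γ₀, 16 γ₁, 16 γ₂)`, `nm d β = n²`, `n² ≡ 1 mod 16`, so `n ≡ ± 1 mod 8`; replacing `n` by `-n`: `n = 1 + 8 m`. `e₁ = 3 β₀ = 3 + 8 t₁`, `t₁ = 6 γ₀`; `e₂ = 3 (β₀² - d β₁ β₂) = 3 + 16 t₁ + 64 t₂`, `t₂ = 12 (γ₀² - d γ₁ γ₂)`. Put `X = -1 + 4 Z` in `q(X) = X⁴ - 2 e₁ X² - 8 n X + (e₁² - 4 e₂)`: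
`q(-1 + 4 Z) = 256 (Z⁴ - Z³ - t₁ Z² + b Z + c)`, `b = (t₁ - 2 m)/2`, `c = (2 m - t₁)/8 + t₁²/4 - t₂`. From `n² = nm d β`: `16 m + 64 m² = 48 γ₀ + 768 (γ₀² - d γ₁ γ₂) + 4096 (γ₀³ + d γ₁³ + d² γ₂³ - 3 d γ₀ γ₁ γ₂)`, so `2 m = 6 γ₀ + 8 (..)`, precisely `t₁ - 2 m = -96 (γ₀² - d γ₁ γ₂) - 512 (..) + 8 m²`:
`b ≡ 0 mod 4`, `m = 3 γ₀ + 4 κ`, and `c = 12 (γ₀² - d γ₁ γ₂) + 64 (..) - m² + 9 γ₀² - 12 (γ₀² - d γ₁ γ₂) = 9 γ₀² - m² + 64 (..) ≡ 0 mod 8`. `t₁ ≡ 0 mod 2`. So the monic polynomial in `Z` is `≡ Z⁴ - Z³ mod 2`, with the simple root `1`: `hens4`: `Z`, `v (Z - 1) < 1`. `r = -1 + 4 Z ≡ 3 mod 8`. `P = (r² - e₁)/2`: `r = 3 + 8 z`,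
`P = (6 + 48 z + 64 z² - 48 γ₀)/2 ≡ 3 mod 8`; `β₀ + P ≡ 4 mod 8`, `β₁, β₂ ≡ 0 mod 16`, so `nm d (β₀ + P, β₁, β₂)` has the valuation of `4³`, not `0`. `sqA_of_root` (L2).
`lift8` [P2b]: `h = (1 + 2 c₀, 2 c₁, 2 c₂)`, `h² = 1 + 4 (c + c²) ≡ 1 + 4 γ ≡ β mod 8` (`Cg 3`). `h` is a unit; `β = h² β'`, `β' ≡ 1 mod 8` (`cg_cancel`). `β' = 1 + 8 γ'`, `h' = 1 + 4 γ'`: `h'² = 1 + 8 γ' + 16 γ'² ≡ β' mod 16`, `β' = h'² β''`, `β'' ≡ 1 mod 16`, norm still a square: `deep`.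
`ker_c0` [P2b]: `β = 1 + 4 γ`: `nm d β ≡ 1 + 12 γ₀ mod 8` (`nm d (1 + 4 γ) = 1 + 4 · 3 γ₀ + 16 (..)`), a square: `sq_iff4`: `γ₀ ≡ 0` or `1 mod 2` (`3 γ₀ + 4 (..) ≡ γ₀`).
`ker4u`, `ker4r`, `ker4s` [P2c]: `β = 1 + 4 γ`. By `lift8` it suffices to find integral `c` with `c² + c ≡ γ mod 2`; modulo 2 the square is `c² ≡ (c₀², d c₂², c₁²)`. `c₀ = 0` if `γ₀ ≡ 0`, `c₀ = o` if `γ₀ ≡ 1` (`o² + o = -1`).
 `ker4u` (`d` a unit, `d ≢ 1`, so `d ≡ o` or `o² mod 2` and `1 + d²` is a unit): `c₂ = (γ₂ + γ₁²)/(1 + d²)`, `c₁ = γ₁ + d c₂²`: `c₁² + c₂ ≡ γ₁² + d² c₂⁴ + c₂ ≡ γ₁² + (1 + d²) c₂ ≡ γ₂` (`fourth`).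
 `ker4r` (`v d = v 2`): `c₁ = γ₁`, `c₂ = γ₂ - γ₁²`.
 `ker4s` (`v d = 1`, `d ≡ 1 mod 2`): let `a` be `0`, `1`, `o` or `o²`, `a ≡ (γ₂ - γ₁²)² mod 2`, so `a² ≡ γ₂ - γ₁² mod 2` (`fourth`). If `a = 0`: `c₁ = γ₁`, `c₂ = 0`: `SqA`. If `a³ = 1`: the point `x = a²/4 = 1/(4 a)`: `x³ + d = (1 + 64 d)/64` is a square (`sq_of_8`). `β (1 + 4 a T) ≡ 1 + 4 (γ₀, γ₁ + a, γ₂) mod 8`, `(γ₁ + a)² ≡ γ₁² + a² ≡ γ₂`: `c₁ = γ₁ + a`, `c₂ = 0`,
 `lift8` (its norm is `nm β (1 + 64 a³ d)`, a square): `β (1 + 4 a T) = g²`, and `(x, 1, 0) = (a/2)² (1, 4 a, 0)`, so `β (x + T) = ((a/2) g)²`: second alternative of `LocA`.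
-/

set_option autoImplicit false

open scoped Classical

namespace JT

section
variable {C : Type} [Field C] [CharZero C] {v : Valuation C (WithZero (Multiplicative ℤ))} {o : C}

theorem p2a_int {x : C} : v x ≤ 1 ↔ x ∈ v.integer := Iff.rfl

theorem p2a_nat (n : ℕ) : v (n : C) ≤ 1 := by
  have h : (n : C) ∈ v.integer := natCast_mem v.integer n
  exact h

theorem p2a_ofNat (n : ℕ) [n.AtLeastTwo] : (OfNat.ofNat n : C) ∈ v.integer := by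
  have h : ((OfNat.ofNat n : ℕ) : C) ∈ v.integer := natCast_mem v.integer _
  rwa [Nat.cast_ofNat] at h

variable (h : Lc2 v o)
include h

theorem p2a_dvd {n : ℕ} {x : C} (hx : v x ≤ v 2 ^ n) : ∃ t : C, v t ≤ 1 ∧ x = 2 ^ n * t := by
  have h2 : (2 : C) ^ n ≠ 0 := pow_ne_zero n two_ne_zero
  refine ⟨x / 2 ^ n, ?_, by field_simp⟩
  rw [map_div₀, map_pow]
  exact (div_le_one₀ (pow_pos (zero_lt_iff.2 (two_lt h).2) n)).2 hx

theorem p2a_dvd1 {x : C} (hx : v x < 1) : ∃ t : C, v t ≤ 1 ∧ x = 2 * t := by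
  obtain ⟨t, ht, e⟩ := p2a_dvd h (n := 1) (x := x) (by rw [pow_one]; exact (lt_iff2 h x).1 hx)
  exact ⟨t, ht, by rw [e, pow_one]⟩

theorem p2a_two {t : C} (ht : v t ≤ 1) : v (2 * t) ≤ v 2 := by
  rw [map_mul]
  exact mul_le_of_le_one_right' ht

theorem p2a_two' {t : C} (ht : v t ≤ 1) : v (2 * t) < 1 := (lt_iff2 h _).2 (p2a_two h ht)

theorem p2a_pow {n : ℕ} {t : C} (ht : v t ≤ 1) : v (2 ^ n * t) ≤ v 2 ^ n := by
  rw [map_mul, map_pow]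
  exact mul_le_of_le_one_right' ht

theorem p2a_unit {u t : C} (hu : v u = 1) (ht : v t ≤ 1) : v (u + 2 * t) = 1 := by
  rw [Valuation.map_add_eq_of_lt_left v (by rw [hu]; exact p2a_two' h ht), hu]

theorem p2a_sign {n K : C} (hK : v K ≤ 1) (hn : n ^ 2 = 1 + 16 * K) :
    ∃ m : C, v m ≤ 1 ∧ (n = 1 + 8 * m ∨ -n = 1 + 8 * m) := by
  have h16 : v (16 * K) ≤ 1 := by
    rw [p2a_int] at *
    exact mul_mem (p2a_ofNat 16) hK
  have hn1 : v n ≤ 1 := by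
    have h1 : v (n ^ 2) ≤ 1 := by
      rw [hn]
      exact (v.integer).add_mem (v.integer).one_mem h16
    rw [map_pow] at h1
    exact (pow_le_one_iff (two_ne_zero)).1 h1
  have hlt : v (n - 1) < 1 := by
    have e : (n - 1) ^ 2 = 2 * (8 * K - (n - 1)) := by linear_combination hn
    have h1 : v (8 * K - (n - 1)) ≤ 1 := by
      rw [p2a_int] at *
      exact sub_mem (mul_mem (p2a_ofNat 8) hK) (sub_mem hn1 (one_mem _))
    have h2 : v ((n - 1) ^ 2) < 1 := by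
      rw [e]; exact p2a_two' h h1
    rw [map_pow] at h2
    by_contra hc
    exact absurd h2 (not_lt.2 (one_le_pow₀ (not_lt.1 hc)))
  obtain ⟨w, hw, e⟩ := p2a_dvd1 h hlt
  have e1 : w * (w + 1) = 4 * K := by
    have h4 : (4 : C) * (w * (w + 1)) = 4 * (4 * K) := by
      have : n = 1 + 2 * w := by linear_combination e
      subst this
      linear_combination hn
    exact mul_left_cancel₀ (by norm_num) h4
  have hle : ∀ a b : C, v b = 1 → a * b = 4 * K → ∃ m : C, v m ≤ 1 ∧ a = 4 * m := by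
    intro a b hb hab
    have h1 : v a ≤ v 2 ^ 2 := by
      have h2 : v (a * b) = v a := by rw [map_mul, hb, mul_one]
      rw [← h2, hab, show (4 : C) = 2 ^ 2 by norm_num]
      exact p2a_pow h hK
    obtain ⟨m, hm, e⟩ := p2a_dvd h h1
    exact ⟨m, hm, by rw [e]; norm_num⟩
  rcases lt_or_eq_of_le hw with hw1 | hw1
  · have h1 : v (w + 1) = 1 := by
      rw [Valuation.map_add_eq_of_lt_right v (by rw [map_one]; exact hw1), map_one]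
    obtain ⟨m, hm, e2⟩ := hle w (w + 1) h1 e1
    exact ⟨m, hm, Or.inl (by linear_combination e + 2 * e2)⟩
  · obtain ⟨m, hm, e2⟩ := hle (w + 1) w hw1 (by rw [mul_comm]; exact e1)
    refine ⟨-m, by rwa [Valuation.map_neg], Or.inr ?_⟩
    linear_combination - e - 2 * e2

end

section
variable {C : Type} [Field C] [CharZero C] {v : Valuation C (WithZero (Multiplicative ℤ))} {o : C} (h : Lc2 v o) {d : C} (hd : v d ≤ 1)
include h hd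

/-- [P2a] -/
theorem deep {β : C × C × C} (hβ : Cg v 4 β (1, 0, 0)) (hs : IsSquare (nm d β)) : SqA d β := by
  obtain ⟨h0, h1, h2⟩ := hβ
  obtain ⟨b0, b1, b2⟩ := β
  obtain ⟨g0, hg0, e0⟩ := p2a_dvd h h0
  obtain ⟨g1, hg1, e1⟩ := p2a_dvd h h1
  obtain ⟨g2, hg2, e2⟩ := p2a_dvd h h2
  simp only at e0 e1 e2 hs ⊢
  have e0' : b0 = 1 + 16 * g0 := by linear_combination e0
  have e1' : b1 = 16 * g1 := by linear_combination e1
  have e2' : b2 = 16 * g2 := by linear_combination e2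
  clear e0 e1 e2 h0 h1 h2
  subst e0' e1' e2'
  set A : C := g0 ^ 2 - d * g1 * g2 with hA
  set B : C := g0 ^ 3 + d * g1 ^ 3 + d ^ 2 * g2 ^ 3 - 3 * d * g0 * g1 * g2 with hB
  rw [p2a_int] at hd hg0 hg1 hg2
  have hAi : A ∈ v.integer := sub_mem (pow_mem hg0 2) (mul_mem (mul_mem hd hg1) hg2)
  have hBi : B ∈ v.integer :=
    sub_mem (add_mem (add_mem (pow_mem hg0 3) (mul_mem hd (pow_mem hg1 3))) (mul_mem (pow_mem hd 2) (pow_mem hg2 3)))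
      (mul_mem (mul_mem (mul_mem (mul_mem (p2a_ofNat 3) hd) hg0) hg1) hg2)
  have hnm : nm d (1 + 16 * g0, 16 * g1, 16 * g2) = 1 + 16 * (3 * g0 + 48 * A + 256 * B) := by
    simp only [nm, hA, hB]
    ring
  obtain ⟨n₀, hn₀⟩ := hs
  obtain ⟨n, m, hm, hn, hnn⟩ : ∃ n m : C, v m ≤ 1 ∧ n = 1 + 8 * m ∧ nm d (1 + 16 * g0, 16 * g1, 16 * g2) = n ^ 2 := by
    obtain ⟨m, hm, hh⟩ := p2a_sign h (K := 3 * g0 + 48 * A + 256 * B) (n := n₀)
      (add_mem (add_mem (mul_mem (p2a_ofNat 3) hg0) (mul_mem (p2a_ofNat 48) hAi)) (mul_mem (p2a_ofNat 256) hBi))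
      (by rw [← hnm, hn₀]; ring)
    rcases hh with hh | hh
    · exact ⟨n₀, m, hm, hh, by rw [hn₀]; ring⟩
    · exact ⟨-n₀, m, hm, hh, by rw [hn₀]; ring⟩
  rw [p2a_int] at hm
  set κ : C := 12 * A + 64 * B - m ^ 2 with hκ
  have hκi : κ ∈ v.integer := sub_mem (add_mem (mul_mem (p2a_ofNat 12) hAi) (mul_mem (p2a_ofNat 64) hBi)) (pow_mem hm 2)
  have hmκ : m = 3 * g0 + 4 * κ := by
    have h1 : (16 : C) * m = 16 * (3 * g0 + 4 * κ) := by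
      have h2 := hnn.symm.trans hnm
      rw [hn] at h2
      linear_combination h2
    exact mul_left_cancel₀ (by norm_num) h1
  have hi8 : (8 * B - 3 * g0 * κ - 2 * κ ^ 2) ∈ v.integer :=
    sub_mem (sub_mem (mul_mem (p2a_ofNat 8) hBi) (mul_mem (mul_mem (p2a_ofNat 3) hg0) hκi)) (mul_mem (p2a_ofNat 2) (pow_mem hκi 2))
  obtain ⟨Z, hZ, hZ1⟩ := h.hens4 (-1) (-6 * g0) (-4 * κ) (8 * (8 * B - 3 * g0 * κ - 2 * κ ^ 2)) 1
    (by rw [Valuation.map_neg, map_one])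
    (mul_mem (neg_mem (p2a_ofNat 6)) hg0) (mul_mem (neg_mem (p2a_ofNat 4)) hκi) (mul_mem (p2a_ofNat 8) hi8)
    (by rw [map_one])
    (by
      rw [show (1 : C) ^ 4 + -1 * 1 ^ 3 + -6 * g0 * 1 ^ 2 + -4 * κ * 1 + 8 * (8 * B - 3 * g0 * κ - 2 * κ ^ 2) =
        2 * (4 * (8 * B - 3 * g0 * κ - 2 * κ ^ 2) - 3 * g0 - 2 * κ) by ring]
      exact p2a_two' h (sub_mem (sub_mem (mul_mem (p2a_ofNat 4) hi8) (mul_mem (p2a_ofNat 3) hg0)) (mul_mem (p2a_ofNat 2) hκi)))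
    (by
      rw [show (4 : C) * 1 ^ 3 + 3 * -1 * 1 ^ 2 + 2 * (-6 * g0) * 1 + -4 * κ = 1 + 2 * (-(6 * g0) - 2 * κ) by ring]
      exact p2a_unit h (map_one v) (sub_mem (neg_mem (mul_mem (p2a_ofNat 6) hg0)) (mul_mem (p2a_ofNat 2) hκi)))
  obtain ⟨z, hz, ez⟩ := p2a_dvd1 h hZ1
  rw [p2a_int] at hz
  have hZz : Z = 1 + 2 * z := by linear_combination ez
  refine sqA_of_root two_ne_zero (n := n) (r := -1 + 4 * Z) hnn ?_ ?_
  · simp only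
    have h3 : ((-1 + 4 * Z) ^ 4 - 2 * (3 * (1 + 16 * g0)) * (-1 + 4 * Z) ^ 2 - 8 * n * (-1 + 4 * Z) +
        ((3 * (1 + 16 * g0)) ^ 2 - 4 * (3 * ((1 + 16 * g0) ^ 2 - d * (16 * g1) * (16 * g2))))) =
        256 * (Z ^ 4 + -1 * Z ^ 3 + -6 * g0 * Z ^ 2 + -4 * κ * Z + 8 * (8 * B - 3 * g0 * κ - 2 * κ ^ 2)) := by
      have h5 : κ = 12 * A + 64 * B - (3 * g0 + 4 * κ) ^ 2 := by rw [← hmκ]
      rw [hn, hmκ]
      have h6 : g0 ^ 2 - d * g1 * g2 = A := rfl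
      linear_combination 3072 * (-h6) + 256 * h5
    rw [h3, hZ, mul_zero]
  · simp only
    set U : C := 1 + 2 * (3 * z + 4 * z ^ 2 - g0) with hU
    have hUv : v U = 1 :=
      p2a_unit h (map_one v) (sub_mem (add_mem (mul_mem (p2a_ofNat 3) hz) (mul_mem (p2a_ofNat 4) (pow_mem hz 2))) hg0)
    have hUi : U ∈ v.integer := le_of_eq hUv
    have h4 : nm d (1 + 16 * g0 + ((-1 + 4 * Z) ^ 2 - 3 * (1 + 16 * g0)) / 2, 16 * g1, 16 * g2) =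
        64 * (U ^ 3 + 2 * (32 * (d * g1 ^ 3) + 32 * (d ^ 2 * g2 ^ 3) - 24 * (d * U * g1 * g2))) := by
      have h5 : 1 + 16 * g0 + ((-1 + 4 * Z) ^ 2 - 3 * (1 + 16 * g0)) / 2 = 4 * U := by
        rw [hZz, hU]
        field_simp
        ring
      rw [h5]
      simp only [nm]
      ring
    rw [h4]
    have h5 : v (U ^ 3 + 2 * (32 * (d * g1 ^ 3) + 32 * (d ^ 2 * g2 ^ 3) - 24 * (d * U * g1 * g2))) = 1 :=
      p2a_unit h (by rw [map_pow, hUv, one_pow])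
        (sub_mem (add_mem (mul_mem (p2a_ofNat 32) (mul_mem hd (pow_mem hg1 3)))
          (mul_mem (p2a_ofNat 32) (mul_mem (pow_mem hd 2) (pow_mem hg2 3))))
          (mul_mem (p2a_ofNat 24) (mul_mem (mul_mem (mul_mem hd hUi) hg1) hg2)))
    intro h6
    rcases mul_eq_zero.1 h6 with h7 | h7
    · norm_num at h7
    · rw [h7, map_zero] at h5
      exact zero_ne_one h5

theorem p2b_step {β g : C × C × C} {n : ℕ} (hg : Un v d g) (hβi : In v β) (hβ : Cg v n β (mu d g g))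
    (hs : IsSquare (nm d β)) (H : ∀ β' : C × C × C, Cg v n β' (1, 0, 0) → IsSquare (nm d β') → SqA d β') : SqA d β := by
  obtain ⟨k, hk, ek⟩ := un_inv hd hg
  have hkk : In v (mu d k k) := in_mu hd hk.1 hk.1
  have h1 : Cg v n (mu d β (mu d k k)) (mu d (mu d g g) (mu d k k)) := cg_mu h hd hβ (cg_refl n _) hβi hkk
  have h2 : mu d (mu d g g) (mu d k k) = (1, 0, 0) := by
    rw [mu_assoc, ← mu_assoc d g k k, ek, (mu_one k).2, ek]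
  rw [h2] at h1
  refine sqA_of_sq_mul (un_ne hk) (H _ h1 ?_)
  rw [nm_mu, nm_mu]
  exact hs.mul ⟨_, rfl⟩

/-- [P2b] -/
theorem lift8 {β γ c : C × C × C} (hγ : In v γ) (hc : In v c)
    (hβ : Cg v 3 β (1 + 4 * γ.1, 4 * γ.2.1, 4 * γ.2.2))
    (hcc : v (c.1 ^ 2 + c.1 - γ.1) ≤ v 2 ∧ v (d * c.2.2 ^ 2 + c.2.1 - γ.2.1) ≤ v 2 ∧ v (c.2.1 ^ 2 + c.2.2 - γ.2.2) ≤ v 2)
    (hs : IsSquare (nm d β)) : SqA d β := by
  obtain ⟨g0, g1, g2⟩ := γ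
  obtain ⟨c0, c1, c2⟩ := c
  obtain ⟨hg0, hg1, hg2⟩ := hγ
  obtain ⟨hc0, hc1, hc2⟩ := hc
  obtain ⟨q0, q1, q2⟩ := hcc
  simp only at *
  rw [p2a_int] at hg0 hg1 hg2 hc0 hc1 hc2
  have hdi : d ∈ v.integer := hd
  have h1i : (1 : C) ∈ v.integer := one_mem _
  have h4i : (4 : C) ∈ v.integer := p2a_ofNat 4
  have h2i : (2 : C) ∈ v.integer := p2a_ofNat 2
  have hγi : In v (1 + 4 * g0, 4 * g1, 4 * g2) :=
    ⟨add_mem h1i (mul_mem h4i hg0), mul_mem h4i hg1, mul_mem h4i hg2⟩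
  have hβi : In v β := cg_in h hβ hγi
  obtain ⟨t0, ht0, f0⟩ := p2a_dvd h (n := 1) (x := c0 ^ 2 + c0 - g0) (by rw [pow_one]; exact q0)
  obtain ⟨t1, ht1, f1⟩ := p2a_dvd h (n := 1) (x := d * c2 ^ 2 + c1 - g1) (by rw [pow_one]; exact q1)
  obtain ⟨t2, ht2, f2⟩ := p2a_dvd h (n := 1) (x := c1 ^ 2 + c2 - g2) (by rw [pow_one]; exact q2)
  rw [p2a_int] at ht0 ht1 ht2
  have hun : Un v d (1 + 2 * c0, 2 * c1, 2 * c2) := by
    refine ⟨⟨add_mem h1i (mul_mem h2i hc0), mul_mem h2i hc1, mul_mem h2i hc2⟩, ?_⟩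
    have e : nm d (1 + 2 * c0, 2 * c1, 2 * c2) = 1 + 2 * (3 * c0 + 6 * c0 ^ 2 + 4 * c0 ^ 3 + 4 * (d * c1 ^ 3) + 4 * (d ^ 2 * c2 ^ 3)
        - 6 * (d * (1 + 2 * c0) * c1 * c2)) := by
      simp only [nm]
      ring
    rw [e]
    exact p2a_unit h (map_one v) (sub_mem (add_mem (add_mem (add_mem (add_mem (mul_mem (p2a_ofNat 3) hc0)
      (mul_mem (p2a_ofNat 6) (pow_mem hc0 2))) (mul_mem h4i (pow_mem hc0 3))) (mul_mem h4i (mul_mem hdi (pow_mem hc1 3))))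
      (mul_mem h4i (mul_mem (pow_mem hdi 2) (pow_mem hc2 3))))
      (mul_mem (p2a_ofNat 6) (mul_mem (mul_mem (mul_mem hdi (add_mem h1i (mul_mem h2i hc0))) hc1) hc2)))
  refine p2b_step h hd hun hβi (n := 3) (cg_trans hβ ?_) hs ?_
  · refine cg_symm ⟨?_, ?_, ?_⟩
    · have e : (mu d (1 + 2 * c0, 2 * c1, 2 * c2) (1 + 2 * c0, 2 * c1, 2 * c2)).1 - (1 + 4 * g0) = 2 ^ 3 * (t0 + d * c1 * c2) := by
        simp only [mu]
        linear_combination 4 * f0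
      simp only at e ⊢
      rw [e]
      exact p2a_pow h (add_mem ht0 (mul_mem (mul_mem hdi hc1) hc2))
    · have e : (mu d (1 + 2 * c0, 2 * c1, 2 * c2) (1 + 2 * c0, 2 * c1, 2 * c2)).2.1 - (4 * g1) = 2 ^ 3 * (t1 + c0 * c1) := by
        simp only [mu]
        linear_combination 4 * f1
      simp only at e ⊢
      rw [e]
      exact p2a_pow h (add_mem ht1 (mul_mem hc0 hc1))
    · have e : (mu d (1 + 2 * c0, 2 * c1, 2 * c2) (1 + 2 * c0, 2 * c1, 2 * c2)).2.2 - (4 * g2) = 2 ^ 3 * (t2 + c0 * c2) := by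
        simp only [mu]
        linear_combination 4 * f2
      simp only at e ⊢
      rw [e]
      exact p2a_pow h (add_mem ht2 (mul_mem hc0 hc2))
  · intro β' hβ' hs'
    obtain ⟨b0, b1, b2⟩ := β'
    obtain ⟨k0, k1, k2⟩ := hβ'
    obtain ⟨a0, ha0, m0⟩ := p2a_dvd h k0
    obtain ⟨a1, ha1, m1⟩ := p2a_dvd h k1
    obtain ⟨a2, ha2, m2⟩ := p2a_dvd h k2
    simp only at m0 m1 m2
    rw [p2a_int] at ha0 ha1 ha2
    have m0' : b0 = 1 + 8 * a0 := by linear_combination m0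
    have m1' : b1 = 8 * a1 := by linear_combination m1
    have m2' : b2 = 8 * a2 := by linear_combination m2
    clear m0 m1 m2 k0 k1 k2
    subst m0' m1' m2'
    have h8i : (8 : C) ∈ v.integer := p2a_ofNat 8
    have hun' : Un v d (1 + 4 * a0, 4 * a1, 4 * a2) := by
      refine ⟨⟨add_mem h1i (mul_mem h4i ha0), mul_mem h4i ha1, mul_mem h4i ha2⟩, ?_⟩
      have e : nm d (1 + 4 * a0, 4 * a1, 4 * a2) = 1 + 2 * (6 * a0 + 24 * a0 ^ 2 + 32 * a0 ^ 3 + 32 * (d * a1 ^ 3) + 32 * (d ^ 2 * a2 ^ 3)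
          - 24 * (d * (1 + 4 * a0) * a1 * a2)) := by
        simp only [nm]
        ring
      rw [e]
      exact p2a_unit h (map_one v) (sub_mem (add_mem (add_mem (add_mem (add_mem (mul_mem (p2a_ofNat 6) ha0)
        (mul_mem (p2a_ofNat 24) (pow_mem ha0 2))) (mul_mem (p2a_ofNat 32) (pow_mem ha0 3)))
        (mul_mem (p2a_ofNat 32) (mul_mem hdi (pow_mem ha1 3))))
        (mul_mem (p2a_ofNat 32) (mul_mem (pow_mem hdi 2) (pow_mem ha2 3))))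
        (mul_mem (p2a_ofNat 24) (mul_mem (mul_mem (mul_mem hdi (add_mem h1i (mul_mem h4i ha0))) ha1) ha2)))
    refine p2b_step h hd hun' (n := 4) ⟨add_mem h1i (mul_mem h8i ha0), mul_mem h8i ha1, mul_mem h8i ha2⟩ ?_ hs' ?_
    · refine ⟨?_, ?_, ?_⟩
      · have e : (1 + 8 * a0) - (mu d (1 + 4 * a0, 4 * a1, 4 * a2) (1 + 4 * a0, 4 * a1, 4 * a2)).1 =
            2 ^ 4 * (-(a0 ^ 2) - 2 * (d * a1 * a2)) := by
          simp only [mu]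
          ring
        simp only at e ⊢
        rw [e]
        exact p2a_pow h (sub_mem (neg_mem (pow_mem ha0 2)) (mul_mem h2i (mul_mem (mul_mem hdi ha1) ha2)))
      · have e : (8 * a1) - (mu d (1 + 4 * a0, 4 * a1, 4 * a2) (1 + 4 * a0, 4 * a1, 4 * a2)).2.1 =
            2 ^ 4 * (-(d * a2 ^ 2) - 2 * (a0 * a1)) := by
          simp only [mu]
          ring
        simp only at e ⊢
        rw [e]
        exact p2a_pow h (sub_mem (neg_mem (mul_mem hdi (pow_mem ha2 2))) (mul_mem h2i (mul_mem ha0 ha1)))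
      · have e : (8 * a2) - (mu d (1 + 4 * a0, 4 * a1, 4 * a2) (1 + 4 * a0, 4 * a1, 4 * a2)).2.2 =
            2 ^ 4 * (-(a1 ^ 2) - 2 * (a0 * a2)) := by
          simp only [mu]
          ring
        simp only at e ⊢
        rw [e]
        exact p2a_pow h (sub_mem (neg_mem (pow_mem ha1 2)) (mul_mem h2i (mul_mem ha0 ha2)))
    · exact fun β'' hβ'' hs'' => deep h hd hβ'' hs''

/-- [P2b] -/
theorem ker_c0 {γ : C × C × C} (hγ : In v γ) (hs : IsSquare (nm d (1 + 4 * γ.1, 4 * γ.2.1, 4 * γ.2.2))) :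
    ∃ c₀ : C, v c₀ ≤ 1 ∧ v (c₀ ^ 2 + c₀ - γ.1) ≤ v 2 := by
  obtain ⟨g0, g1, g2⟩ := γ
  obtain ⟨hg0, hg1, hg2⟩ := hγ
  simp only at *
  rw [p2a_int] at hg0 hg1 hg2
  have hdi : d ∈ v.integer := hd
  have h1i : (1 : C) ∈ v.integer := one_mem _
  have h4i : (4 : C) ∈ v.integer := p2a_ofNat 4
  set s : C := g0 + 6 * g0 ^ 2 + 8 * g0 ^ 3 + 8 * (d * g1 ^ 3) + 8 * (d ^ 2 * g2 ^ 3) - 6 * (d * (1 + 4 * g0) * g1 * g2) with hsd
  have hsi : s ∈ v.integer :=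
    sub_mem (add_mem (add_mem (add_mem (add_mem hg0 (mul_mem (p2a_ofNat 6) (pow_mem hg0 2)))
      (mul_mem (p2a_ofNat 8) (pow_mem hg0 3))) (mul_mem (p2a_ofNat 8) (mul_mem hdi (pow_mem hg1 3))))
      (mul_mem (p2a_ofNat 8) (mul_mem (pow_mem hdi 2) (pow_mem hg2 3))))
      (mul_mem (p2a_ofNat 6) (mul_mem (mul_mem (mul_mem hdi (add_mem h1i (mul_mem h4i hg0))) hg1) hg2))
  have e : nm d (1 + 4 * g0, 4 * g1, 4 * g2) = 1 + 4 * (g0 + 2 * s) := by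
    simp only [nm, hsd]
    ring
  rw [e, sq_iff4 h (add_mem hg0 (mul_mem (p2a_ofNat 2) hsi))] at hs
  have h2s : v (2 * s) ≤ v 2 := p2a_two h hsi
  rcases hs with hs | hs
  · refine ⟨0, by rw [map_zero]; exact zero_le_one, ?_⟩
    rw [show (0 : C) ^ 2 + 0 - g0 = 2 * s - (g0 + 2 * s) by ring]
    exact (Valuation.map_sub _ _ _).trans (max_le h2s hs)
  · refine ⟨o, (v_o h).1.le, ?_⟩
    rw [show o ^ 2 + o - g0 = 2 * (s - 1) - (g0 + 2 * s - 1) by linear_combination h.ho]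
    exact (Valuation.map_sub _ _ _).trans (max_le (p2a_two h (sub_mem hsi h1i)) hs)

omit hd in
/-- [P2c] -/
theorem P2c_dv (n : ℕ) {x : C} (hx : v x ≤ v 2 ^ n) : ∃ t : v.integer, x = 2 ^ n * (t : C) := by
  have h2 : (2 : C) ≠ 0 := two_ne_zero
  have h3 : v (2 : C) ≠ 0 := (Valuation.ne_zero_iff v).2 h2
  refine ⟨⟨x / 2 ^ n, ?_⟩, ?_⟩
  · rw [Valuation.mem_integer_iff, map_div₀, map_pow]
    rw [div_le_one₀ (by exact pow_pos (zero_lt_iff.2 h3) n)]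
    exact hx
  · show x = 2 ^ n * (x / 2 ^ n)
    field_simp

omit hd in
/-- [P2c] -/
theorem P2c_le (n : ℕ) (t : v.integer) : v (2 ^ n * (t : C)) ≤ v 2 ^ n := by
  rw [map_mul, map_pow]
  exact mul_le_of_le_one_right' t.2

omit hd in
/-- [P2c] -/
theorem P2c_dv1 {x : C} (hx : v x ≤ v 2) : ∃ t : v.integer, x = 2 * (t : C) := by
  obtain ⟨t, ht⟩ := P2c_dv h 1 (x := x) (by rw [pow_one]; exact hx)
  exact ⟨t, by rw [ht, pow_one]⟩

omit hd in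
/-- [P2c] -/
theorem P2c_le1 (t : v.integer) : v (2 * (t : C)) ≤ v 2 := by
  rw [map_mul]
  exact mul_le_of_le_one_right' t.2

omit hd in
/-- [P2c] -/
theorem P2c_gam {β : C × C × C} (hβ : Cg v 2 β (1, 0, 0)) :
    ∃ γ : C × C × C, In v γ ∧ β = (1 + 4 * γ.1, 4 * γ.2.1, 4 * γ.2.2) := by
  obtain ⟨h1, h2, h3⟩ := hβ
  obtain ⟨a, ha⟩ := P2c_dv h 2 h1
  obtain ⟨b, hb⟩ := P2c_dv h 2 h2
  obtain ⟨c, hc⟩ := P2c_dv h 2 h3
  refine ⟨((a : C), (b : C), (c : C)), ⟨a.2, b.2, c.2⟩, ?_⟩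
  refine Prod.ext ?_ (Prod.ext ?_ ?_)
  · show β.1 = 1 + 4 * (a : C)
    linear_combination ha
  · show β.2.1 = 4 * (b : C)
    linear_combination hb
  · show β.2.2 = 4 * (c : C)
    linear_combination hc

omit hd in
/-- [P2c] -/
theorem P2c_unit {a b : C} (ha : v a = 1) (hb : v b ≤ v 2) : v (a + b) = 1 := by
  have h1 : v b < v a := by
    rw [ha]
    exact lt_of_le_of_lt hb (two_lt h).1
  rw [Valuation.map_add_eq_of_lt_left v h1, ha]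

omit hd in
/-- [P2c] -/
theorem ker4u (hd1 : v d = 1) (hd2 : v (d - 1) = 1) {β : C × C × C} (hβ : Cg v 2 β (1, 0, 0)) (hs : IsSquare (nm d β)) : SqA d β := by
  obtain ⟨γ, hγ, rfl⟩ := P2c_gam h hβ
  obtain ⟨c₀, hc₀, hc₀'⟩ := ker_c0 h hd1.le hγ hs
  obtain ⟨g0, g1, g2⟩ := hγ
  have h21 : v (2 : C) < 1 := (two_lt h).1
  have hu : v (1 + d ^ 2) = 1 := by
    rcases h.res d hd1.le with h1 | h1 | h1 | h1
    · rw [hd1] at h1
      exact absurd h21 (not_lt.2 h1)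
    · rw [hd2] at h1
      exact absurd h21 (not_lt.2 h1)
    · obtain ⟨t, ht⟩ := P2c_dv1 h h1
      let O : v.integer := ⟨o, (v_o h).1.le⟩
      have e : 1 + d ^ 2 = -o + 2 * ((2 * O * t + 2 * t ^ 2 : v.integer) : C) := by
        push_cast
        show 1 + d ^ 2 = -o + 2 * (2 * o * (t : C) + 2 * (t : C) ^ 2)
        have e1 : d = o + 2 * (t : C) := by linear_combination ht
        rw [e1]
        linear_combination h.ho
      rw [e]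
      refine P2c_unit h (by rw [Valuation.map_neg]; exact (v_o h).1) ?_
      exact P2c_le1 h (2 * O * t + 2 * t ^ 2)
    · obtain ⟨t, ht⟩ := P2c_dv1 h h1
      let O : v.integer := ⟨o, (v_o h).1.le⟩
      have e : 1 + d ^ 2 = -o ^ 2 + 2 * ((2 * O ^ 2 * t + 2 * t ^ 2 : v.integer) : C) := by
        push_cast
        show 1 + d ^ 2 = -o ^ 2 + 2 * (2 * o ^ 2 * (t : C) + 2 * (t : C) ^ 2)
        have e1 : d = o ^ 2 + 2 * (t : C) := by linear_combination ht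
        rw [e1]
        linear_combination (o ^ 2 - o + 1) * h.ho
      rw [e]
      refine P2c_unit h (by rw [Valuation.map_neg, map_pow, (v_o h).1, one_pow]) ?_
      exact P2c_le1 h (2 * O ^ 2 * t + 2 * t ^ 2)
  have hune : 1 + d ^ 2 ≠ 0 := by
    intro h0
    rw [h0, map_zero] at hu
    exact zero_ne_one hu
  set c₂ : C := (γ.2.2 + γ.2.1 ^ 2) / (1 + d ^ 2) with hc₂
  have hc₂1 : v c₂ ≤ 1 := by
    rw [hc₂, map_div₀, hu, div_one]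
    refine Valuation.map_add_le v g2 ?_
    rw [map_pow]
    exact pow_le_one₀ zero_le g1
  have hc₂e : (1 + d ^ 2) * c₂ = γ.2.2 + γ.2.1 ^ 2 := by
    rw [hc₂]
    field_simp
  obtain ⟨s, hs'⟩ := P2c_dv1 h (fourth h hc₂1)
  let D : v.integer := ⟨d, hd1.le⟩
  let G1 : v.integer := ⟨γ.2.1, g1⟩
  let G2 : v.integer := ⟨γ.2.2, g2⟩
  let C2 : v.integer := ⟨c₂, hc₂1⟩
  refine lift8 h hd1.le (γ := γ) (c := (c₀, γ.2.1 + d * c₂ ^ 2, c₂)) ⟨g0, g1, g2⟩ ⟨hc₀, ?_, hc₂1⟩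
    (cg_refl (v := v) 3 _) ⟨hc₀', ?_, ?_⟩ hs
  · exact (G1 + D * C2 ^ 2).2
  · have e : d * c₂ ^ 2 + (γ.2.1 + d * c₂ ^ 2) - γ.2.1 = 2 * ((D * C2 ^ 2 : v.integer) : C) := by
      push_cast
      show _ = 2 * (d * c₂ ^ 2)
      ring
    show v (d * c₂ ^ 2 + (γ.2.1 + d * c₂ ^ 2) - γ.2.1) ≤ v 2
    rw [e]
    exact P2c_le1 h (D * C2 ^ 2)
  · have e : (γ.2.1 + d * c₂ ^ 2) ^ 2 + c₂ - γ.2.2 =
        2 * ((G1 * D * C2 ^ 2 + G1 ^ 2 + D ^ 2 * s : v.integer) : C) := by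
      push_cast
      show _ = 2 * (γ.2.1 * d * c₂ ^ 2 + γ.2.1 ^ 2 + d ^ 2 * (s : C))
      linear_combination d ^ 2 * hs' + hc₂e
    show v ((γ.2.1 + d * c₂ ^ 2) ^ 2 + c₂ - γ.2.2) ≤ v 2
    rw [e]
    exact P2c_le1 h (G1 * D * C2 ^ 2 + G1 ^ 2 + D ^ 2 * s)

omit hd in
/-- [P2c] -/
theorem ker4r (hd1 : v d = v 2) {β : C × C × C} (hβ : Cg v 2 β (1, 0, 0)) (hs : IsSquare (nm d β)) : SqA d β := by
  have h21 : v (2 : C) < 1 := (two_lt h).1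
  have hd : v d ≤ 1 := hd1.trans_le h21.le
  obtain ⟨γ, hγ, rfl⟩ := P2c_gam h hβ
  obtain ⟨c₀, hc₀, hc₀'⟩ := ker_c0 h hd hγ hs
  obtain ⟨g0, g1, g2⟩ := hγ
  let G1 : v.integer := ⟨γ.2.1, g1⟩
  let G2 : v.integer := ⟨γ.2.2, g2⟩
  have hc₂ : v (γ.2.2 - γ.2.1 ^ 2) ≤ 1 := 
    Valuation.map_sub_le v g2 (by rw [map_pow]; exact pow_le_one₀ zero_le g1)
  refine lift8 h hd (γ := γ) (c := (c₀, γ.2.1, γ.2.2 - γ.2.1 ^ 2)) ⟨g0, g1, g2⟩ ⟨hc₀, g1, hc₂⟩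
    (cg_refl (v := v) 3 _) ⟨hc₀', ?_, ?_⟩ hs
  · show v (d * (γ.2.2 - γ.2.1 ^ 2) ^ 2 + γ.2.1 - γ.2.1) ≤ v 2
    rw [add_sub_cancel_right, map_mul, hd1]
    refine mul_le_of_le_one_right' ?_
    rw [map_pow]
    exact pow_le_one₀ zero_le hc₂
  · show v (γ.2.1 ^ 2 + (γ.2.2 - γ.2.1 ^ 2) - γ.2.2) ≤ v 2
    have e : γ.2.1 ^ 2 + (γ.2.2 - γ.2.1 ^ 2) - γ.2.2 = 0 := by ring
    rw [e, map_zero]
    exact zero_le 

omit hd in
/-- [P2c] -/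
theorem ker4s (hd1 : v d = 1) (hd2 : v (d - 1) ≤ v 2) {β : C × C × C} (hβ : Cg v 2 β (1, 0, 0)) (hs : IsSquare (nm d β)) :
    LocA d β := by
  obtain ⟨γ, hγ, rfl⟩ := P2c_gam h hβ
  obtain ⟨c₀, hc₀, hc₀'⟩ := ker_c0 h hd1.le hγ hs
  obtain ⟨g0, g1, g2⟩ := hγ
  have h21 : v (2 : C) < 1 := (two_lt h).1
  let D : v.integer := ⟨d, hd1.le⟩
  let G0 : v.integer := ⟨γ.1, g0⟩
  let G1 : v.integer := ⟨γ.2.1, g1⟩
  let G2 : v.integer := ⟨γ.2.2, g2⟩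
  have hx1 : v (γ.2.2 - γ.2.1 ^ 2) ≤ 1 := 
    Valuation.map_sub_le v g2 (by rw [map_pow]; exact pow_le_one₀ zero_le g1)
  set x : C := γ.2.2 - γ.2.1 ^ 2 with hx
  have hw1 : v (x ^ 2) ≤ 1 := by
    rw [map_pow]
    exact pow_le_one₀ zero_le hx1
  obtain ⟨s, hs'⟩ := P2c_dv1 h (fourth h hx1)
  let X : v.integer := ⟨x, hx1⟩
  -- the common argument
  have key : ∀ a : C, v a ≤ 1 → v (x ^ 2 - a) ≤ v 2 → v ((γ.2.1 + a) ^ 2 + 0 - γ.2.2) ≤ v 2 := by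
    intro a ha hax
    obtain ⟨t, ht⟩ := P2c_dv1 h hax
    let A : v.integer := ⟨a, ha⟩
    have e : (γ.2.1 + a) ^ 2 + 0 - γ.2.2 =
        2 * ((G1 * A - 2 * X ^ 2 * t + 2 * t ^ 2 + s : v.integer) : C) := by
      push_cast
      show _ = 2 * (γ.2.1 * a - 2 * x ^ 2 * (t : C) + 2 * (t : C) ^ 2 + (s : C))
      have e1 : a = x ^ 2 - 2 * (t : C) := by linear_combination -ht
      have e2 : γ.2.2 = x + γ.2.1 ^ 2 := by rw [hx]; ring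
      rw [e2]
      have e3 : a ^ 2 = x ^ 4 - 4 * x ^ 2 * (t : C) + 4 * (t : C) ^ 2 := by rw [e1]; ring
      linear_combination e3 + hs'
    rw [e]
    exact P2c_le1 h (G1 * A - 2 * X ^ 2 * t + 2 * t ^ 2 + s)
  -- the case of a cube root of unity
  have main : ∀ a : C, v a ≤ 1 → a ^ 3 = 1 → v (x ^ 2 - a) ≤ v 2 →
      LocA d (1 + 4 * γ.1, 4 * γ.2.1, 4 * γ.2.2) := by
    intro a ha ha3 hax
    let A : v.integer := ⟨a, ha⟩
    obtain ⟨r, hr⟩ : IsSquare (1 + 64 * d) := by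
      refine sq_of_8 h ?_
      have e : 1 + 64 * d - 1 = 2 ^ 3 * ((8 * D : v.integer) : C) := by
        push_cast
        show _ = 2 ^ 3 * (8 * d)
        ring
      rw [e]
      exact P2c_le h 3 _
    have h8 : (8 : C) ≠ 0 := by norm_num
    have h4 : (4 : C) ≠ 0 := by norm_num
    have hsq : SqA d (mu d (1 + 4 * γ.1, 4 * γ.2.1, 4 * γ.2.2) (1, 4 * a, 0)) := by
      refine lift8 h hd1.le (γ := (γ.1, γ.2.1 + a, γ.2.2)) (c := (c₀, γ.2.1 + a, 0)) ⟨g0, (G1 + A).2, g2⟩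
        ⟨hc₀, (G1 + A).2, by simp⟩ ⟨?_, ?_, ?_⟩ ⟨hc₀', ?_, key a ha hax⟩ ?_
      · have e : (mu d (1 + 4 * γ.1, 4 * γ.2.1, 4 * γ.2.2) (1, 4 * a, 0)).1 - (1 + 4 * γ.1) =
            2 ^ 3 * ((2 * D * G2 * A : v.integer) : C) := by
          push_cast
          show _ = 2 ^ 3 * (2 * d * γ.2.2 * a)
          simp only [mu]
          ring
        show v ((mu d (1 + 4 * γ.1, 4 * γ.2.1, 4 * γ.2.2) (1, 4 * a, 0)).1 - (1 + 4 * γ.1)) ≤ v 2 ^ 3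
        rw [e]
        exact P2c_le h 3 _
      · have e : (mu d (1 + 4 * γ.1, 4 * γ.2.1, 4 * γ.2.2) (1, 4 * a, 0)).2.1 - 4 * (γ.2.1 + a) =
            2 ^ 3 * ((2 * G0 * A : v.integer) : C) := by
          push_cast
          show _ = 2 ^ 3 * (2 * γ.1 * a)
          simp only [mu]
          ring
        show v ((mu d (1 + 4 * γ.1, 4 * γ.2.1, 4 * γ.2.2) (1, 4 * a, 0)).2.1 - 4 * (γ.2.1 + a)) ≤ v 2 ^ 3
        rw [e]
        exact P2c_le h 3 _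
      · have e : (mu d (1 + 4 * γ.1, 4 * γ.2.1, 4 * γ.2.2) (1, 4 * a, 0)).2.2 - 4 * γ.2.2 =
            2 ^ 3 * ((2 * G1 * A : v.integer) : C) := by
          push_cast
          show _ = 2 ^ 3 * (2 * γ.2.1 * a)
          simp only [mu]
          ring
        show v ((mu d (1 + 4 * γ.1, 4 * γ.2.1, 4 * γ.2.2) (1, 4 * a, 0)).2.2 - 4 * γ.2.2) ≤ v 2 ^ 3
        rw [e]
        exact P2c_le h 3 _
      · show v (d * 0 ^ 2 + (γ.2.1 + a) - (γ.2.1 + a)) ≤ v 2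
        have e : d * 0 ^ 2 + (γ.2.1 + a) - (γ.2.1 + a) = 0 := by ring
        rw [e, map_zero]
        exact zero_le
      · rw [nm_mu]
        refine hs.mul ⟨r, ?_⟩
        rw [← hr]
        simp only [nm]
        linear_combination 64 * d * ha3
    obtain ⟨g, hg⟩ := hsq
    refine Or.inr ⟨a ^ 2 / 4, r / 8, ?_, (a / 2 * g.1, a / 2 * g.2.1, a / 2 * g.2.2), ?_⟩
    · have e : r * r = 1 + 64 * d := hr.symm
      have e6 : a ^ 6 = 1 := by linear_combination (a ^ 3 + 1) * ha3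
      have e1 : (r / 8) ^ 2 = (1 + 64 * d) / 64 := by
        rw [div_pow, sq, e]
        norm_num
      rw [e1]
      have e2 : (a ^ 2 / 4) ^ 3 = 1 / 64 := by
        rw [div_pow, ← pow_mul, e6]
        norm_num
      rw [e2]
      ring
    · have c1 := congrArg (fun z : C × C × C => z.1) hg
      have c2 := congrArg (fun z : C × C × C => z.2.1) hg
      have c3 := congrArg (fun z : C × C × C => z.2.2) hg
      simp only [mu] at c1 c2 c3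
      refine Prod.ext ?_ (Prod.ext ?_ ?_)
      · simp only [mu]
        linear_combination (a ^ 2 / 4) * c1 - (4 * d * γ.2.2) * ha3
      · simp only [mu]
        linear_combination (a ^ 2 / 4) * c2 - (1 + 4 * γ.1) * ha3
      · simp only [mu]
        linear_combination (a ^ 2 / 4) * c3 - (4 * γ.2.1) * ha3
  have ho3 : o ^ 3 = 1 := by linear_combination (o - 1) * h.ho
  rcases h.res (x ^ 2) hw1 with h1 | h1 | h1 | h1
  · have h2 := key 0 (by simp) (by rw [sub_zero]; exact h1)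
    rw [add_zero γ.2.1] at h2
    refine Or.inl (lift8 h hd1.le (γ := γ) (c := (c₀, γ.2.1, 0)) ⟨g0, g1, g2⟩ ⟨hc₀, g1, by simp⟩
      (cg_refl (v := v) 3 _) ⟨hc₀', ?_, h2⟩ hs)
    show v (d * 0 ^ 2 + γ.2.1 - γ.2.1) ≤ v 2
    have e : d * 0 ^ 2 + γ.2.1 - γ.2.1 = 0 := by ring
    rw [e, map_zero]
    exact zero_le
  · exact main 1 (by simp) (by norm_num) h1
  · exact main o (v_o h).1.le ho3 h1
  · exact main (o ^ 2) (by rw [map_pow, (v_o h).1, one_pow]) (by rw [← pow_mul, mul_comm, pow_mul, ho3, one_pow]) h1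

end

end JT
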