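import Pool.Agent.JT.P2

/-!
# [JT-P3] the classes modulo squares of the units of `C[T]/(T³ - d)`, `d` a unit

`CL d u q₁ q₂`: there is a unit `g` with `u g² ≡ 1 + 2 (q₁ T + q₂ T²) mod 4`.

PROOF. `cl_exists` [P3a]: `g = u^31`, `u g² = u^63`. Modulo 2: `u² ≡ (u₀², d u₂², u₁²)`, `u⁴ ≡ (u₀⁴, d u₁⁴, d² u₂⁴) ≡ (u₀, d u₁, d² u₂)` (`fourth`), so `u^16 ≡ (u₀, d² u₁, d⁴ u₂)`, `u^64 ≡ (u₀, d³ u₁, d⁶ u₂) ≡ u` (`third`), so `u^63 ≡ 1 mod 2` (`cg_cancel`). (Write `u^64` with six squarings; no powers needed: `g = u · u² · u⁴ · u⁸ · u^16`.)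
`u g² = 1 + 2 β'`; its norm is a square and `≡ 1 + 6 β'₀ mod 4`; `sq_one4`: `β'₀ ≡ 0 mod 2`. `q₁ = β'₁`, `q₂ = β'₂`.
`cl_unique` [P3a]: `u g² ≡ 1 + 2 q`, `u g'² ≡ 1 + 2 q' mod 4`. `k = g/g'` is a unit, `k² (1 + 2 q') ≡ 1 + 2 q mod 4`, so `k² ≡ 1 mod 2`: `(k₀², d k₂², k₁²) ≡ (1, 0, 0)`, so `k₀ ≡ 1`, `k₁, k₂ ≡ 0 mod 2`, `k = 1 + 2 c`, `k² = 1 + 4 (..) ≡ 1 mod 4`, `2 q ≡ 2 q' mod 4`.
`cl_mul`: `(1 + 2 q)(1 + 2 q') ≡ 1 + 2 (q + q') mod 4`. `cl_sq`, `cl_sig` (`(a, b, c) ↦ (a, o b, o² c)` is multiplicative). `cl_congr`: `2 q ≡ 2 q' mod 4`.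
`cl_inv_sq` [P3b]: `u w = g²` with `u, w, g` as stated: `cl_mul` and `cl_unique`: `q + q' ≡ 0`, so `q ≡ q'` modulo 2.
`in_of_sq` [P3b]: `h² = u`, `u` integral. Let `2^(-m)`, `m > 0`, be the largest of the sizes of the coordinates of `h` (if one is not integral), `h = 2^(-m) h'`, `h'` integral with one coordinate a unit, `h'² = 4^m u ≡ 0 mod 2`, but `h'² ≡ (h'₀², d h'₂², h'₁²) mod 2`: contradiction.
`cl_zero` [P3b]: `u g² ≡ 1 mod 4` (`cl_congr`), `ker4u` or `ker4s` for `u g²`, `locA_of_sq_mul`.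
`unit_norm` [P3c] (`exists_un`): not a cube: `j = max v(u_i)` (as exponents); `v (nm d u) = j³` : write `u = 2^k u'` with `u'` integral, one coordinate a unit; then `nm d u'` is a unit: otherwise modulo 2: `nm ≡ 0` in `F₄`: `u'₀³ + d u'₁³ + d² u'₂³ + d u'₀ u'₁ u'₂ ≡ 0` (`-3 ≡ 1`) with the cubes `0` or `1`, `d ≡ o` or `o²`: only the zero solution: case check
(if one of the `u'_i` is `≡ 0` the other terms `0/1 · {1, d, d²}` are independent over `F₂`... `1 + d + d² ≡ 0` needs all three cubes `1` and then the last term `d u'₀ u'₁ u'₂ ≠ 0`). So `v (nm d u) = (2^k)³`, a square (`nm d u` is a square), so `k` is even, `g = 2^(-k/2)`.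
 a cube `d = ρ³`: `v (ev u ρ_i) = γ_i²`, `g` with values `2^(-..)` at `ρ_i` (`interp'`): `u g²` has unit values at the three roots, so integral coordinates (`coef_ev`: `3 u₀ = Σ`, ...; `v 3 = v ρ = 1`) and the norm (product of the values) is a unit.
-/

set_option autoImplicit false

open scoped Classical

namespace JT

section
variable {C : Type} [Field C] {v : Valuation C (WithZero (Multiplicative ℤ))}

theorem P3a_add {x y : C} {g : WithZero (Multiplicative ℤ)} (hx : v x ≤ g) (hy : v y ≤ g) : v (x + y) ≤ g :=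
  (v.map_add x y).trans (max_le hx hy)

theorem P3a_sub {x y : C} {g : WithZero (Multiplicative ℤ)} (hx : v x ≤ g) (hy : v y ≤ g) : v (x - y) ≤ g :=
  (v.map_sub x y).trans (max_le hx hy)

theorem P3a_mul {x y : C} {g : WithZero (Multiplicative ℤ)} (hx : v x ≤ 1) (hy : v y ≤ g) : v (x * y) ≤ g := by
  rw [map_mul]
  calc v x * v y ≤ 1 * g := mul_le_mul' hx hy
    _ = g := one_mul g

theorem P3a_sq {d : C} (a b : C × C × C) : mu d (mu d a b) (mu d a b) = mu d (mu d a a) (mu d b b) := by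
  rw [mu_assoc, mu_assoc, ← mu_assoc d b a b, mu_comm d b a, mu_assoc d a b b]

theorem P3a_one {d : C} (a : C × C × C) : mu d (1, 0, 0) a = a := by
  obtain ⟨x, y, z⟩ := a
  simp [mu]

end

/-- the class of a unit modulo squares and modulo `1 + 4 (..)` -/
def CL {C : Type} [Field C] (v : Valuation C (WithZero (Multiplicative ℤ))) (d : C) (u : C × C × C) (q₁ q₂ : C) : Prop :=
  ∃ g : C × C × C, Un v d g ∧ Cg v 2 (mu d u (mu d g g)) (1, 2 * q₁, 2 * q₂)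

section
variable {C : Type} [Field C] [CharZero C] {v : Valuation C (WithZero (Multiplicative ℤ))} {o : C} (h : Lc2 v o) {d : C}
include h

theorem P3c_zpow (k : ℤ) : v ((2 : C) ^ k) = WithZero.exp (-k) := by
  rw [map_zpow₀, h.two, ← WithZero.exp_zsmul]
  congr 1
  simp

/-- residues -/
theorem P3c_res {x : C} (hx : v x ≤ 1) : ∃ r : C, v (x - r) ≤ v 2 ∧ ((r = 0 ∧ v x ≠ 1) ∨ (r ^ 3 = 1 ∧ v r = 1)) := by
  have h2 := (two_lt h).1
  have ho := (v_o h).1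
  have ho3 : o ^ 3 = 1 := by linear_combination (o - 1) * h.ho
  rcases h.res x hx with h1 | h1 | h1 | h1
  · refine ⟨0, by simpa using h1, Or.inl ⟨rfl, ?_⟩⟩
    intro h3
    rw [h3] at h1
    exact absurd h2 (not_lt.2 h1)
  · exact ⟨1, h1, Or.inr ⟨by ring, by simp⟩⟩
  · exact ⟨o, h1, Or.inr ⟨ho3, ho⟩⟩
  · refine ⟨o ^ 2, h1, Or.inr ⟨?_, by rw [map_pow, ho, one_pow]⟩⟩
    rw [← pow_mul, mul_comm, pow_mul, ho3, one_pow]

theorem P3c_unit {δ : C} (hδ : δ ^ 2 + δ + 1 = 0) (hδ1 : v δ = 1) (hdδ : v (d - δ) ≤ v 2) (hd : v d ≤ 1) {u : C × C × C} (hu : In v u)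
    (h1 : v u.1 = 1 ∨ v u.2.1 = 1 ∨ v u.2.2 = 1) : v (nm d u) = 1 := by
  obtain ⟨u0, u1, u2⟩ := u
  obtain ⟨g0, g1, g2⟩ := hu
  simp only at g0 g1 g2 h1
  obtain ⟨r0, c0, e0⟩ := P3c_res h g0
  obtain ⟨r1, c1, e1⟩ := P3c_res h g1
  obtain ⟨r2, c2, e2⟩ := P3c_res h g2
  have h2 := (two_lt h).1
  have hv3 := (v_o h).2.1
  have hcg : Cg v 1 (u0, u1, u2) (r0, r1, r2) := ⟨by simpa using c0, by simpa using c1, by simpa using c2⟩
  have hle := cg_nm h hd hcg ⟨g0, g1, g2⟩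
  rw [pow_one] at hle
  have hr : ∀ r x : C, ((r = 0 ∧ v x ≠ 1) ∨ (r ^ 3 = 1 ∧ v r = 1)) → v r ≤ 1 := by
    intro r x hh
    rcases hh with ⟨hh, _⟩ | ⟨_, hh⟩
    · rw [hh]; simp
    · rw [hh]
  have f0 := hr r0 u0 e0
  have f1 := hr r1 u1 e1
  have f2 := hr r2 u2 e2
  -- replace `d` by `δ`
  have hle2 : v (nm d (r0, r1, r2) - nm δ (r0, r1, r2)) ≤ v 2 := by
    have e : nm d (r0, r1, r2) - nm δ (r0, r1, r2) = (d - δ) * (r1 ^ 3 + (d + δ) * r2 ^ 3 - 3 * r0 * r1 * r2) := by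
      simp only [nm]; ring
    rw [e, map_mul]
    have k1 : v (r1 ^ 3 + (d + δ) * r2 ^ 3 - 3 * r0 * r1 * r2) ≤ 1 := by
      refine v.map_sub_le (v.map_add_le ?_ ?_) ?_
      · rw [map_pow]; exact pow_le_one' f1 3
      · rw [map_mul, map_pow]
        exact mul_le_one' (v.map_add_le hd hδ1.le) (pow_le_one' f2 3)
      · rw [map_mul, map_mul, map_mul, hv3, one_mul]
        exact mul_le_one' (mul_le_one' f0 f1) f2
    calc v (d - δ) * v (r1 ^ 3 + (d + δ) * r2 ^ 3 - 3 * r0 * r1 * r2) ≤ v 2 * 1 := mul_le_mul' hdδ k1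
      _ = v 2 := mul_one _
  have hN : v (nm δ (r0, r1, r2)) = 1 := by
    have hsq : v (δ ^ 2) = 1 := by rw [map_pow, hδ1, one_pow]
    have hδ3 : δ ^ 3 = 1 := by linear_combination (δ - 1) * hδ
    have a1 : v (1 + δ) = 1 := by
      rw [show 1 + δ = -δ ^ 2 by linear_combination hδ, Valuation.map_neg]; exact hsq
    have a2 : v (1 + δ ^ 2) = 1 := by
      rw [show 1 + δ ^ 2 = -δ by linear_combination hδ, Valuation.map_neg]; exact hδ1
    have a3 : v (δ + δ ^ 2) = 1 := by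
      rw [show δ + δ ^ 2 = -1 by linear_combination hδ, Valuation.map_neg]; simp
    simp only [nm]
    rcases e0 with ⟨rfl, n0⟩ | ⟨n0, m0⟩ <;> rcases e1 with ⟨rfl, n1⟩ | ⟨n1, m1⟩ <;> rcases e2 with ⟨rfl, n2⟩ | ⟨n2, m2⟩
    · exfalso
      rcases h1 with h1 | h1 | h1
      · exact n0 h1
      · exact n1 h1
      · exact n2 h1
    · rw [n2]; simpa using hsq
    · rw [n1]; simpa using hδ1
    · rw [n1, n2]; simpa using a3
    · rw [n0]; simp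
    · rw [n0, n2]; simpa using a2
    · rw [n0, n1]; simpa using a1
    · have e : r0 ^ 3 + δ * r1 ^ 3 + δ ^ 2 * r2 ^ 3 - 3 * δ * r0 * r1 * r2 = -(3 * δ * r0 * r1 * r2) := by
        rw [n0, n1, n2]; linear_combination hδ
      rw [e, Valuation.map_neg]
      simp only [map_mul, hv3, hδ1, m0, m1, m2, one_mul]
  have e : nm d (u0, u1, u2) = nm δ (r0, r1, r2) + ((nm d (u0, u1, u2) - nm d (r0, r1, r2)) +
      (nm d (r0, r1, r2) - nm δ (r0, r1, r2))) := by ring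
  rw [e, Valuation.map_add_eq_of_lt_left, hN]
  rw [hN]
  exact lt_of_le_of_lt (v.map_add_le hle hle2) h2

theorem P3c_noncube (hd : v d = 1) (hnc : ∀ x : C, x ^ 3 ≠ d) {u : C × C × C} (hu : nm d u ≠ 0) (hs : IsSquare (nm d u)) :
    ∃ g : C × C × C, nm d g ≠ 0 ∧ Un v d (mu d u (mu d g g)) := by
  obtain ⟨u0, u1, u2⟩ := u
  have h2 := (two_lt h).1
  have h20 : v (2 : C) ≠ 0 := (two_lt h).2
  have h2C : (2 : C) ≠ 0 := two_ne_zero
  have ho := (v_o h).1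
  have ho3 : o ^ 3 = 1 := by linear_combination (o - 1) * h.ho
  -- the residue of `d`
  obtain ⟨δ, hδ, hδ1, hdδ⟩ : ∃ δ : C, δ ^ 2 + δ + 1 = 0 ∧ v δ = 1 ∧ v (d - δ) ≤ v 2 := by
    rcases h.res d hd.le with h1 | h1 | h1 | h1
    · rw [hd] at h1
      exact absurd h2 (not_lt.2 h1)
    · exfalso
      have hz : v ((d - 1) / 2) ≤ 1 := by
        rw [map_div₀]
        calc v (d - 1) / v 2 ≤ v 2 / v 2 := by
              rw [div_eq_mul_inv, div_eq_mul_inv]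
              exact mul_le_mul' h1 le_rfl
          _ = 1 := div_self h20
      obtain ⟨y, hy, _⟩ := cube_of h (x := d) (z := (d - 1) / 2) hz (by
        rw [show d - (1 + 2 * ((d - 1) / 2)) = 0 by field_simp; ring]
        simp)
      exact hnc y hy
    · exact ⟨o, h.ho, ho, h1⟩
    · refine ⟨o ^ 2, ?_, by rw [map_pow, ho, one_pow], h1⟩
      linear_combination o * ho3 + h.ho
  -- the largest coordinate
  obtain ⟨k, hk0, hk1, hk2, hk⟩ : ∃ k : ℤ, v u0 ≤ WithZero.exp k ∧ v u1 ≤ WithZero.exp k ∧ v u2 ≤ WithZero.exp k ∧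
      (v u0 = WithZero.exp k ∨ v u1 = WithZero.exp k ∨ v u2 = WithZero.exp k) := by
    obtain ⟨M, hM⟩ : ∃ M, M = max (v u0) (max (v u1) (v u2)) := ⟨_, rfl⟩
    have m0 : v u0 ≤ M := hM ▸ le_max_left _ _
    have m1 : v u1 ≤ M := hM ▸ le_trans (le_max_left _ _) (le_max_right _ _)
    have m2 : v u2 ≤ M := hM ▸ le_trans (le_max_right _ _) (le_max_right _ _)
    have m3 : v u0 = M ∨ v u1 = M ∨ v u2 = M := by
      rw [hM]
      rcases max_choice (v u0) (max (v u1) (v u2)) with h3 | h3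
      · left; exact h3.symm
      · rcases max_choice (v u1) (v u2) with h4 | h4
        · right; left; rw [h3, h4]
        · right; right; rw [h3, h4]
    have hM0 : M ≠ 0 := by
      intro h3
      rw [h3] at m0 m1 m2
      have z0 : u0 = 0 := (map_eq_zero v).1 (le_zero_iff.1 m0)
      have z1 : u1 = 0 := (map_eq_zero v).1 (le_zero_iff.1 m1)
      have z2 : u2 = 0 := (map_eq_zero v).1 (le_zero_iff.1 m2)
      apply hu
      simp [nm, z0, z1, z2]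
    refine ⟨WithZero.log M, ?_, ?_, ?_, ?_⟩
    · rw [WithZero.exp_log hM0]; exact m0
    · rw [WithZero.exp_log hM0]; exact m1
    · rw [WithZero.exp_log hM0]; exact m2
    · rw [WithZero.exp_log hM0]; exact m3
  have hsc : ∀ x : C, v x ≤ WithZero.exp k → v ((2 : C) ^ k * x) ≤ 1 := by
    intro x hx
    rw [map_mul, P3c_zpow h]
    calc WithZero.exp (-k) * v x ≤ WithZero.exp (-k) * WithZero.exp k := mul_le_mul' le_rfl hx
      _ = 1 := by rw [← WithZero.exp_add]; simp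
  have hsc' : ∀ x : C, v x = WithZero.exp k → v ((2 : C) ^ k * x) = 1 := by
    intro x hx
    rw [map_mul, P3c_zpow h, hx, ← WithZero.exp_add]; simp
  have hun : v (nm d ((2 : C) ^ k * u0, (2 : C) ^ k * u1, (2 : C) ^ k * u2)) = 1 := by
    refine P3c_unit h hδ hδ1 hdδ hd.le ⟨hsc _ hk0, hsc _ hk1, hsc _ hk2⟩ ?_
    rcases hk with hk | hk | hk
    · exact Or.inl (hsc' _ hk)
    · exact Or.inr (Or.inl (hsc' _ hk))
    · exact Or.inr (Or.inr (hsc' _ hk))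
  have hnm : nm d ((2 : C) ^ k * u0, (2 : C) ^ k * u1, (2 : C) ^ k * u2) = ((2 : C) ^ k) ^ 3 * nm d (u0, u1, u2) := by
    simp only [nm]; ring
  obtain ⟨n, hn⟩ := hs
  have hn0 : n ≠ 0 := by
    rintro rfl
    apply hu; rw [hn]; ring
  have hvn : v n ≠ 0 := (map_ne_zero v).2 hn0
  obtain ⟨j, hj⟩ : ∃ j : ℤ, v n = WithZero.exp j := ⟨WithZero.log (v n), (WithZero.exp_log hvn).symm⟩
  have heq : 2 * j = 3 * k := by
    rw [hnm, hn, map_mul, map_mul, map_pow, P3c_zpow h, hj, ← WithZero.exp_nsmul, ← WithZero.exp_add,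
      ← WithZero.exp_add, WithZero.exp_eq_one] at hun
    simp only [nsmul_eq_mul] at hun
    push_cast at hun
    linarith
  obtain ⟨l, hl⟩ : ∃ l : ℤ, k = 2 * l := ⟨j - k, by linarith⟩
  have hpow : (2 : C) ^ k = (2 : C) ^ l * (2 : C) ^ l := by
    rw [hl, two_mul, zpow_add₀ h2C]
  have hgg : mu d (u0, u1, u2) (mu d ((2 : C) ^ l, 0, 0) ((2 : C) ^ l, 0, 0)) =
      ((2 : C) ^ k * u0, (2 : C) ^ k * u1, (2 : C) ^ k * u2) := by
    simp only [mu, hpow, Prod.mk.injEq]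
    refine ⟨?_, ?_, ?_⟩ <;> ring
  refine ⟨((2 : C) ^ l, 0, 0), ?_, ?_⟩
  · have : nm d ((2 : C) ^ l, 0, 0) = ((2 : C) ^ l) ^ 3 := by simp only [nm]; ring
    rw [this]
    exact pow_ne_zero _ (zpow_ne_zero _ h2C)
  · rw [hgg]
    exact ⟨⟨hsc _ hk0, hsc _ hk1, hsc _ hk2⟩, hun⟩

end

section
variable {C : Type} [Field C] [CharZero C] {v : Valuation C (WithZero (Multiplicative ℤ))} {o : C} (h : Lc2 v o) {d : C} (hd : v d = 1)
include h hd

theorem P3a_four {w : C × C × C} (hw : In v w) :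
    Cg v 1 (mu d (mu d w w) (mu d w w)) (w.1, d * w.2.1, d ^ 2 * w.2.2) := by
  obtain ⟨a, b, c⟩ := w
  obtain ⟨ha, hb, hc⟩ := hw
  simp only at ha hb hc
  have fa := fourth h ha
  have fb := fourth h hb
  have fc := fourth h hc
  have key : ∀ z : v.integer, v (2 * (z : C)) ≤ v 2 := fun z => by
    rw [map_mul]
    calc v 2 * v (z : C) ≤ v 2 * 1 := mul_le_mul' le_rfl z.2
      _ = v 2 := mul_one _
  have hd' : v d ≤ 1 := hd.le
  let A : v.integer := ⟨a, ha⟩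
  let B : v.integer := ⟨b, hb⟩
  let E : v.integer := ⟨c, hc⟩
  let D : v.integer := ⟨d, hd'⟩
  have t2 : ((2 : v.integer) : C) = 2 := rfl
  have hd2 : v (d ^ 2) ≤ 1 := by rw [map_pow, hd, one_pow]
  refine ⟨?_, ?_, ?_⟩
  · have e : (mu d (mu d (a, b, c) (a, b, c)) (mu d (a, b, c) (a, b, c))).1 - a =
        (a ^ 4 - a) + 2 * ((2 * D * A ^ 2 * B * E + 2 * D ^ 2 * B ^ 2 * E ^ 2
          + D * (2 * A * B + D * E ^ 2) * (2 * A * E + B ^ 2) : v.integer) : C) := by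
      push_cast
      simp only [mu, A, B, E, D, t2]
      ring
    rw [pow_one]
    simp only
    rw [e]
    exact P3a_add fa (key _)
  · have e : (mu d (mu d (a, b, c) (a, b, c)) (mu d (a, b, c) (a, b, c))).2.1 - d * b =
        d * (b ^ 4 - b) + 2 * (((A ^ 2 + 2 * D * B * E) * (2 * A * B + D * E ^ 2)
          + D * (2 * A ^ 2 * E ^ 2 + 2 * A * E * B ^ 2) : v.integer) : C) := by
      push_cast
      simp only [mu, A, B, E, D, t2]
      ring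
    rw [pow_one]
    simp only
    rw [e]
    exact P3a_add (P3a_mul hd' fb) (key _)
  · have e : (mu d (mu d (a, b, c) (a, b, c)) (mu d (a, b, c) (a, b, c))).2.2 - d ^ 2 * c =
        d ^ 2 * (c ^ 4 - c) + 2 * (((A ^ 2 + 2 * D * B * E) * (2 * A * E + B ^ 2)
          + (2 * A ^ 2 * B ^ 2 + 2 * A * B * D * E ^ 2) : v.integer) : C) := by
      push_cast
      simp only [mu, A, B, E, D, t2]
      ring
    rw [pow_one]
    simp only
    rw [e]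
    exact P3a_add (P3a_mul hd2 fc) (key _)

theorem P3a_un {u w : C × C × C} (hu : In v u) (h1 : Cg v 1 u w) :
    Cg v 1 (mu d (mu d u u) (mu d u u)) (mu d (mu d w w) (mu d w w)) := by
  have a := cg_mu h hd.le h1 h1 hu hu
  exact cg_mu h hd.le a a (in_mu hd.le hu hu) (in_mu hd.le hu hu)

/-- [P3a] -/
theorem cl_exists {u : C × C × C} (hu : Un v d u) (hs : IsSquare (nm d u)) : ∃ q₁ q₂ : C, v q₁ ≤ 1 ∧ v q₂ ≤ 1 ∧ CL v d u q₁ q₂ := by
  have hi := hu.1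
  have hA : ∀ w : C × C × C, In v w → In v (w.1, d * w.2.1, d ^ 2 * w.2.2) := fun w hw =>
    ⟨hw.1, P3a_mul hd.le hw.2.1, P3a_mul (by rw [map_pow, hd, one_pow]) hw.2.2⟩
  obtain ⟨u2, e2⟩ : ∃ z, z = mu d u u := ⟨_, rfl⟩
  obtain ⟨u4, e4⟩ : ∃ z, z = mu d u2 u2 := ⟨_, rfl⟩
  obtain ⟨u8, e8⟩ : ∃ z, z = mu d u4 u4 := ⟨_, rfl⟩
  obtain ⟨u16, e16⟩ : ∃ z, z = mu d u8 u8 := ⟨_, rfl⟩
  obtain ⟨u32, e32⟩ : ∃ z, z = mu d u16 u16 := ⟨_, rfl⟩
  obtain ⟨u64, e64⟩ : ∃ z, z = mu d u32 u32 := ⟨_, rfl⟩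
  have n2 : Un v d u2 := e2 ▸ un_mu hd.le hu hu
  have n4 : Un v d u4 := e4 ▸ un_mu hd.le n2 n2
  have n8 : Un v d u8 := e8 ▸ un_mu hd.le n4 n4
  have n16 : Un v d u16 := e16 ▸ un_mu hd.le n8 n8
  have n32 : Un v d u32 := e32 ▸ un_mu hd.le n16 n16
  have c4 : Cg v 1 u4 (u.1, d * u.2.1, d ^ 2 * u.2.2) := by
    rw [e4, e2]
    exact P3a_four h hd hi
  have c16 : Cg v 1 u16 (u.1, d * (d * u.2.1), d ^ 2 * (d ^ 2 * u.2.2)) := by
    rw [e16, e8]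
    exact cg_trans (P3a_un h hd n4.1 c4) (P3a_four h hd (hA _ hi))
  have c64 : Cg v 1 u64 (u.1, d * (d * (d * u.2.1)), d ^ 2 * (d ^ 2 * (d ^ 2 * u.2.2))) := by
    rw [e64, e32]
    exact cg_trans (P3a_un h hd n16.1 c16) (P3a_four h hd (hA _ (hA _ hi)))
  have t3 := third h hd
  have c64' : Cg v 1 u64 u := by
    refine cg_trans c64 ⟨?_, ?_, ?_⟩
    · simp
    · have e : d * (d * (d * u.2.1)) - u.2.1 = u.2.1 * (d ^ 3 - 1) := by ring
      simp only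
      rw [e, pow_one]
      exact P3a_mul hi.2.1 t3
    · have e : d ^ 2 * (d ^ 2 * (d ^ 2 * u.2.2)) - u.2.2 = (u.2.2 * (d ^ 3 + 1)) * (d ^ 3 - 1) := by ring
      simp only
      rw [e, pow_one]
      refine P3a_mul ?_ t3
      refine P3a_mul hi.2.2 (P3a_add ?_ (by rw [map_one]))
      rw [map_pow, hd, one_pow]
  obtain ⟨g, hg⟩ : ∃ z, z = mu d u (mu d u2 (mu d u4 (mu d u8 u16))) := ⟨_, rfl⟩
  have hUg : Un v d g := by
    rw [hg]
    exact un_mu hd.le hu (un_mu hd.le n2 (un_mu hd.le n4 (un_mu hd.le n8 n16)))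
  have hgg : mu d (mu d u (mu d g g)) u = u64 := by
    have s1 : mu d g g = mu d u2 (mu d u4 (mu d u8 (mu d u16 u32))) := by
      rw [hg, P3a_sq, P3a_sq, P3a_sq, P3a_sq, ← e2, ← e4, ← e8, ← e16, ← e32]
    rw [s1, mu_comm, ← mu_assoc d u u, ← e2, ← mu_assoc d u2 u2, ← e4, ← mu_assoc d u4 u4, ← e8,
      ← mu_assoc d u8 u8, ← e16, ← mu_assoc d u16 u16, ← e32, ← e64]
  obtain ⟨β, hβ⟩ : ∃ z, z = mu d u (mu d g g) := ⟨_, rfl⟩
  have hUβ : Un v d β := by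
    rw [hβ]
    exact un_mu hd.le hu (un_mu hd.le hUg hUg)
  have c1 : Cg v 1 β (1, 0, 0) := by
    refine cg_cancel h hd.le hu hUβ.1 (un_one (d := d)).1 ?_
    rw [hβ, hgg, P3a_one]
    exact c64'
  obtain ⟨b0, b1, b2⟩ := β
  have hv2 := (two_lt h).2
  have h20 : (2 : C) ≠ 0 := two_ne_zero
  have hc1 : v b1 ≤ v 2 := by simpa using c1.2.1
  have hc2 : v b2 ≤ v 2 := by simpa using c1.2.2
  have hc0 : v (b0 - 1) ≤ v 2 := by simpa using c1.1
  have hq : ∀ b : C, v b ≤ v 2 → v (b / 2) ≤ 1 := fun b hb => by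
    rw [map_div₀]
    exact div_le_one_of_le₀ hb zero_le
  have hn : IsSquare (nm d (b0, b1, b2)) := by
    rw [hβ, nm_mu, nm_mu]
    exact hs.mul ⟨_, rfl⟩
  have h2le : v (2 : C) ≤ 1 := (two_lt h).1.le
  let B : v.integer := ⟨(b0 - 1) / 2, hq _ hc0⟩
  let B1 : v.integer := ⟨b1 / 2, hq _ hc1⟩
  let B2 : v.integer := ⟨b2 / 2, hq _ hc2⟩
  let D : v.integer := ⟨d, hd.le⟩
  have t2 : ((2 : v.integer) : C) = 2 := rfl
  have t3' : ((3 : v.integer) : C) = 3 := rfl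
  have key4 : ∀ z : v.integer, v (4 * (z : C)) ≤ v 2 ^ 2 := fun z => by
    rw [map_mul, show (4 : C) = 2 ^ 2 by norm_num, map_pow]
    calc v 2 ^ 2 * v (z : C) ≤ v 2 ^ 2 * 1 := mul_le_mul' le_rfl z.2
      _ = v 2 ^ 2 := mul_one _
  have key : ∀ z : v.integer, v (2 * (z : C)) ≤ v 2 := fun z => by
    rw [map_mul]
    calc v 2 * v (z : C) ≤ v 2 * 1 := mul_le_mul' le_rfl z.2
      _ = v 2 := mul_one _
  have en : nm d (b0, b1, b2) - 1 = 3 * (b0 - 1) + 4 * ((3 * B ^ 2 + 2 * B ^ 3 + 2 * D * B1 ^ 3 + 2 * D ^ 2 * B2 ^ 3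
      - 3 * D * (1 + 2 * B) * B1 * B2 : v.integer) : C) := by
    push_cast
    simp only [nm, B, B1, B2, D, t2, t3']
    field_simp
    ring
  have e1 : v (nm d (b0, b1, b2) - 1) ≤ v 2 := by
    rw [en]
    refine P3a_add ?_ ((key4 _).trans ?_)
    · rw [map_mul, (v_o h).2.1, one_mul]
      exact hc0
    · rw [sq]
      calc v 2 * v 2 ≤ 1 * v 2 := mul_le_mul' h2le le_rfl
        _ = v 2 := one_mul _
  have e2' := sq_one4 h hn e1
  have e3 : v (b0 - 1) ≤ v 2 ^ 2 := by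
    have e4' : v (3 * (b0 - 1)) ≤ v 2 ^ 2 := by
      have : 3 * (b0 - 1) = (nm d (b0, b1, b2) - 1) - 4 * ((3 * B ^ 2 + 2 * B ^ 3 + 2 * D * B1 ^ 3 + 2 * D ^ 2 * B2 ^ 3
      - 3 * D * (1 + 2 * B) * B1 * B2 : v.integer) : C) := by rw [en]; ring
      rw [this]
      exact P3a_sub e2' (key4 _)
    rwa [map_mul, (v_o h).2.1, one_mul] at e4'
  refine ⟨b1 / 2, b2 / 2, hq _ hc1, hq _ hc2, g, hUg, ?_⟩
  rw [← hβ]
  refine ⟨e3, ?_, ?_⟩
  · have : b1 - 2 * (b1 / 2) = 0 := by field_simp; ring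
    simp only
    rw [this, map_zero]
    exact zero_le
  · have : b2 - 2 * (b2 / 2) = 0 := by field_simp; ring
    simp only
    rw [this, map_zero]
    exact zero_le

/-- [P3a] -/
theorem cl_unique {u : C × C × C} (hu : Un v d u) {q₁ q₂ r₁ r₂ : C} (h1 : v q₁ ≤ 1) (h2 : v q₂ ≤ 1) (h3 : v r₁ ≤ 1) (h4 : v r₂ ≤ 1)
    (hq : CL v d u q₁ q₂) (hr : CL v d u r₁ r₂) : v (q₁ - r₁) ≤ v 2 ∧ v (q₂ - r₂) ≤ v 2 := by
  obtain ⟨g, hg, cg⟩ := hq
  obtain ⟨g', hg', cg'⟩ := hr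
  obtain ⟨w, hw, hw1⟩ := un_inv hd.le hg'
  have hm : ∀ a b : C × C × C, In v a → In v b → In v (mu d a b) := fun a b => in_mu hd.le
  obtain ⟨k, hk⟩ : ∃ z, z = mu d g w := ⟨_, rfl⟩
  have hUk : Un v d k := by rw [hk]; exact un_mu hd.le hg hw
  have hkg : mu d k g' = g := by
    rw [hk, mu_assoc, mu_comm d w g', hw1, mu_comm, P3a_one]
  have e1 : mu d (mu d u (mu d g' g')) (mu d k k) = mu d u (mu d g g) := by
    rw [mu_assoc, ← P3a_sq, mu_comm d g' k, hkg]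
  have hv2 := (two_lt h).2
  have h2le : v (2 : C) ≤ 1 := (two_lt h).1.le
  have hint : ∀ x y : C, v x ≤ 1 → v y ≤ 1 → In v (1, 2 * x, 2 * y) := fun x y hx hy =>
    ⟨(map_one v).le, P3a_mul h2le hx, P3a_mul h2le hy⟩
  have hik : In v (mu d k k) := hm _ _ hUk.1 hUk.1
  have hiu : In v (mu d u (mu d g' g')) := hm _ _ hu.1 (hm _ _ hg'.1 hg'.1)
  have c1 : Cg v 2 (mu d (1, 2 * r₁, 2 * r₂) (mu d k k)) (1, 2 * q₁, 2 * q₂) := by
    refine cg_trans (cg_symm (cg_mu h hd.le cg' (cg_refl 2 (mu d k k)) hiu hik)) ?_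
    rw [e1]
    exact cg
  have one2 : ∀ x y : C, v x ≤ 1 → v y ≤ 1 → Cg v 1 (1, 2 * x, 2 * y) (1, 0, 0) := by
    intro x y hx hy
    refine ⟨?_, ?_, ?_⟩
    · simp
    · simp only [sub_zero, map_mul, pow_one]
      calc v 2 * v x ≤ v 2 * 1 := mul_le_mul' le_rfl hx
        _ = v 2 := mul_one _
    · simp only [sub_zero, map_mul, pow_one]
      calc v 2 * v y ≤ v 2 * 1 := mul_le_mul' le_rfl hy
        _ = v 2 := mul_one _
  have c2 : Cg v 1 (mu d k k) (1, 0, 0) := by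
    have a1 := cg_mu h hd.le (cg_symm (one2 _ _ h3 h4)) (cg_refl 1 (mu d k k)) (un_one (d := d)).1 hik
    rw [P3a_one] at a1
    exact cg_trans a1 (cg_trans (cg_mono h (by norm_num) c1) (one2 _ _ h1 h2))
  have hki := hUk.1
  obtain ⟨k0, k1, k2⟩ := k
  simp only [In] at hki
  obtain ⟨i0, i1, i2⟩ := hki
  obtain ⟨d0, d1, d2⟩ := c2
  simp only [mu, pow_one, sub_zero] at d0 d1 d2
  have m2 : ∀ x y : C, v x ≤ 1 → v y ≤ 1 → v (2 * (x * y)) ≤ v 2 := by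
    intro x y hx hy
    rw [map_mul]
    calc v 2 * v (x * y) ≤ v 2 * 1 := mul_le_mul' le_rfl (P3a_mul hx hy)
      _ = v 2 := mul_one _
  have j2 : v k2 ≤ v 2 := by
    have a1 : v (d * (k2 * k2)) ≤ v 2 := by
      have : d * (k2 * k2) = (k0 * k1 + k1 * k0 + d * k2 * k2) - 2 * (k0 * k1) := by ring
      rw [this]
      exact P3a_sub d1 (m2 _ _ i0 i1)
    rw [map_mul, hd, one_mul, map_mul] at a1
    rw [← lt_iff2 h]
    by_contra hc
    have a2 : (1 : WithZero (Multiplicative ℤ)) ≤ v k2 * v k2 := one_le_mul (not_lt.1 hc) (not_lt.1 hc)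
    exact absurd (a2.trans a1) (not_le.2 (two_lt h).1)
  have j1 : v k1 ≤ v 2 := by
    have a1 : v (k1 * k1) ≤ v 2 := by
      have : k1 * k1 = (k0 * k2 + k1 * k1 + k2 * k0) - 2 * (k0 * k2) := by ring
      rw [this]
      exact P3a_sub d2 (m2 _ _ i0 i2)
    rw [map_mul] at a1
    rw [← lt_iff2 h]
    by_contra hc
    have a2 : (1 : WithZero (Multiplicative ℤ)) ≤ v k1 * v k1 := one_le_mul (not_lt.1 hc) (not_lt.1 hc)
    exact absurd (a2.trans a1) (not_le.2 (two_lt h).1)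
  have i01 : v (k0 - 1) ≤ 1 := P3a_sub i0 (map_one v).le
  have j0 : v (k0 - 1) ≤ v 2 := by
    have a1 : v ((k0 - 1) * (k0 - 1)) ≤ v 2 := by
      have : (k0 - 1) * (k0 - 1) = (k0 * k0 + d * (k1 * k2 + k2 * k1) - 1) - 2 * (1 * (k0 - 1)) - 2 * ((d * k1) * k2) := by ring
      rw [this]
      exact P3a_sub (P3a_sub d0 (m2 _ _ (map_one v).le i01)) (m2 _ _ (P3a_mul hd.le i1) i2)
    rw [map_mul] at a1
    rw [← lt_iff2 h]
    by_contra hc
    have a2 : (1 : WithZero (Multiplicative ℤ)) ≤ v (k0 - 1) * v (k0 - 1) := one_le_mul (not_lt.1 hc) (not_lt.1 hc)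
    exact absurd (a2.trans a1) (not_le.2 (two_lt h).1)
  have mm : ∀ x y : C, v x ≤ v 2 → v y ≤ v 2 → v (x * y) ≤ v 2 ^ 2 := by
    intro x y hx hy
    rw [map_mul, sq]
    exact mul_le_mul' hx hy
  have c3 : Cg v 2 (mu d (k0, k1, k2) (k0, k1, k2)) (1, 0, 0) := by
    refine ⟨?_, ?_, ?_⟩
    · have : (mu d (k0, k1, k2) (k0, k1, k2)).1 - (1 : C) = (k0 - 1) * (k0 - 1) + 2 * (k0 - 1) + 2 * d * (k1 * k2) := by
        simp only [mu]; ring
      simp only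
      rw [this]
      exact P3a_add (P3a_add (mm _ _ j0 j0) (mm _ _ le_rfl j0)) (P3a_mul (P3a_mul h2le hd.le) (mm _ _ j1 j2))
    · have : (mu d (k0, k1, k2) (k0, k1, k2)).2.1 - 0 = k0 * (2 * k1) + d * (k2 * k2) := by
        simp only [mu]; ring
      simp only
      rw [this]
      exact P3a_add (P3a_mul i0 (mm _ _ le_rfl j1)) (P3a_mul hd.le (mm _ _ j2 j2))
    · have : (mu d (k0, k1, k2) (k0, k1, k2)).2.2 - 0 = k0 * (2 * k2) + k1 * k1 := by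
        simp only [mu]; ring
      simp only
      rw [this]
      exact P3a_add (P3a_mul i0 (mm _ _ le_rfl j2)) (mm _ _ j1 j1)
  have c4 : Cg v 2 (1, 2 * r₁, 2 * r₂) (1, 2 * q₁, 2 * q₂) := by
    have a1 := cg_mu h hd.le (cg_refl 2 (1, 2 * r₁, 2 * r₂)) (cg_symm c3) (hint _ _ h3 h4) (un_one (d := d)).1
    rw [mu_comm d _ (1, 0, 0), P3a_one] at a1
    exact cg_trans a1 c1
  have fin : ∀ x y : C, v (2 * x - 2 * y) ≤ v 2 ^ 2 → v (y - x) ≤ v 2 := by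
    intro x y hxy
    rw [← mul_sub, map_mul, sq] at hxy
    rw [v.map_sub_swap]
    exact le_of_mul_le_mul_left hxy (zero_lt_iff.2 hv2)
  exact ⟨fin _ _ c4.2.1, fin _ _ c4.2.2⟩

/-- [P3a] -/
theorem cl_mul {u w : C × C × C} (hu : Un v d u) (hw : Un v d w) {q₁ q₂ r₁ r₂ : C} (h1 : v q₁ ≤ 1) (h2 : v q₂ ≤ 1)
    (h3 : v r₁ ≤ 1) (h4 : v r₂ ≤ 1) (hq : CL v d u q₁ q₂) (hr : CL v d w r₁ r₂) : CL v d (mu d u w) (q₁ + r₁) (q₂ + r₂) := by
  obtain ⟨g, hg, cg⟩ := hq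
  obtain ⟨g', hg', cg'⟩ := hr
  have h2le : v (2 : C) ≤ 1 := (two_lt h).1.le
  have hm : ∀ a b : C × C × C, In v a → In v b → In v (mu d a b) := fun a b => in_mu hd.le
  refine ⟨mu d g g', un_mu hd.le hg hg', ?_⟩
  have e1 : mu d (mu d u w) (mu d (mu d g g') (mu d g g')) = mu d (mu d u (mu d g g)) (mu d w (mu d g' g')) := by
    rw [P3a_sq]
    rw [mu_assoc d u w, ← mu_assoc d w (mu d g g), mu_comm d w (mu d g g), mu_assoc d (mu d g g) w, ← mu_assoc d u (mu d g g)]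
  rw [e1]
  refine cg_trans (cg_mu h hd.le cg cg' (hm _ _ hu.1 (hm _ _ hg.1 hg.1)) (hm _ _ hw.1 (hm _ _ hg'.1 hg'.1))) ?_
  have m4 : ∀ x : C, v x ≤ 1 → v (2 ^ 2 * x) ≤ v 2 ^ 2 := by
    intro x hx
    rw [map_mul, map_pow]
    calc v 2 ^ 2 * v x ≤ v 2 ^ 2 * 1 := mul_le_mul' le_rfl hx
      _ = v 2 ^ 2 := mul_one _
  refine ⟨?_, ?_, ?_⟩
  · have : (mu d (1, 2 * q₁, 2 * q₂) (1, 2 * r₁, 2 * r₂)).1 - (1 : C) = 2 ^ 2 * (d * (q₁ * r₂ + q₂ * r₁)) := by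
      simp only [mu]; ring
    simp only
    rw [this]
    exact m4 _ (P3a_mul hd.le (P3a_add (P3a_mul h1 h4) (P3a_mul h2 h3)))
  · have : (mu d (1, 2 * q₁, 2 * q₂) (1, 2 * r₁, 2 * r₂)).2.1 - 2 * (q₁ + r₁) = 2 ^ 2 * (d * (q₂ * r₂)) := by
      simp only [mu]; ring
    simp only
    rw [this]
    exact m4 _ (P3a_mul hd.le (P3a_mul h2 h4))
  · have : (mu d (1, 2 * q₁, 2 * q₂) (1, 2 * r₁, 2 * r₂)).2.2 - 2 * (q₂ + r₂) = 2 ^ 2 * (q₁ * r₁) := by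
      simp only [mu]; ring
    simp only
    rw [this]
    exact m4 _ (P3a_mul h1 h3)

/-- [P3a] -/
theorem cl_sq {u g : C × C × C} (hg : Un v d g) {q₁ q₂ : C} : CL v d (mu d u (mu d g g)) q₁ q₂ ↔ CL v d u q₁ q₂ := by
  have hA : ∀ k : C × C × C, mu d (mu d u (mu d g g)) (mu d k k) = mu d u (mu d (mu d g k) (mu d g k)) := fun k => by
    rw [mu_assoc, P3a_sq]
  constructor
  · rintro ⟨k, hk, ck⟩
    refine ⟨mu d g k, un_mu hd.le hg hk, ?_⟩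
    rw [← hA]
    exact ck
  · rintro ⟨k, hk, ck⟩
    obtain ⟨w, hw, hw1⟩ := un_inv hd.le hg
    refine ⟨mu d w k, un_mu hd.le hw hk, ?_⟩
    rw [hA, ← mu_assoc d g w k, hw1, P3a_one]
    exact ck

/-- [P3a] -/
theorem cl_sig {u : C × C × C} {q₁ q₂ : C} (hq : CL v d u q₁ q₂) : CL v d (u.1, o * u.2.1, o ^ 2 * u.2.2) (o * q₁) (o ^ 2 * q₂) := by
  obtain ⟨g, hg, cg⟩ := hq
  have ho := h.ho
  have ho3 : o ^ 3 = 1 := by linear_combination (o - 1) * ho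
  have vo := (v_o h).1
  have hs : ∀ a b : C × C × C, mu d (a.1, o * a.2.1, o ^ 2 * a.2.2) (b.1, o * b.2.1, o ^ 2 * b.2.2) =
      ((mu d a b).1, o * (mu d a b).2.1, o ^ 2 * (mu d a b).2.2) := by
    intro a b
    simp only [mu, Prod.mk.injEq]
    refine ⟨?_, ?_, ?_⟩
    · linear_combination (d * (a.2.1 * b.2.2 + a.2.2 * b.2.1)) * ho3
    · linear_combination (d * a.2.2 * b.2.2 * o) * ho3
    · ring
  have hn : ∀ a : C × C × C, nm d (a.1, o * a.2.1, o ^ 2 * a.2.2) = nm d a := by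
    intro a
    simp only [nm]
    linear_combination (d * a.2.1 ^ 3 + d ^ 2 * a.2.2 ^ 3 * (o ^ 3 + 1) - 3 * d * a.1 * a.2.1 * a.2.2) * ho3
  refine ⟨(g.1, o * g.2.1, o ^ 2 * g.2.2), ⟨⟨hg.1.1, P3a_mul vo.le hg.1.2.1, ?_⟩, ?_⟩, ?_⟩
  · exact P3a_mul (by rw [map_pow, vo, one_pow]) hg.1.2.2
  · rw [hn]
    exact hg.2
  · rw [hs, hs]
    obtain ⟨c0, c1, c2⟩ := cg
    refine ⟨c0, ?_, ?_⟩
    · simp only at c1 ⊢
      have e : o * (mu d u (mu d g g)).2.1 - 2 * (o * q₁) = o * ((mu d u (mu d g g)).2.1 - 2 * q₁) := by ring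
      rw [e]
      exact P3a_mul vo.le c1
    · simp only at c2 ⊢
      have e : o ^ 2 * (mu d u (mu d g g)).2.2 - 2 * (o ^ 2 * q₂) = o ^ 2 * ((mu d u (mu d g g)).2.2 - 2 * q₂) := by ring
      rw [e]
      exact P3a_mul (by rw [map_pow, vo, one_pow]) c2

omit hd in
/-- [P3a] -/
theorem cl_congr {u : C × C × C} {q₁ q₂ r₁ r₂ : C} (hq : CL v d u q₁ q₂) (h1 : v (q₁ - r₁) ≤ v 2) (h2 : v (q₂ - r₂) ≤ v 2) :
    CL v d u r₁ r₂ := by
  obtain ⟨g, hg, cg⟩ := hq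
  have key : ∀ x y : C, v (x - y) ≤ v 2 → v (2 * x - 2 * y) ≤ v 2 ^ 2 := by
    intro x y hxy
    rw [← mul_sub, map_mul, sq]
    exact mul_le_mul' le_rfl hxy
  refine ⟨g, hg, cg_trans cg ⟨?_, key _ _ h1, key _ _ h2⟩⟩
  simp

/-- [P3b] -/
theorem P3b_core {g u : C × C × C} (hu : In v u) (hg : u = mu d g g) {t : C} (ht : 1 < v t) (h0 : v g.1 ≤ v t)
    (h1 : v g.2.1 ≤ v t) (h2 : v g.2.2 ≤ v t) : v g.1 < v t ∧ v g.2.1 < v t ∧ v g.2.2 < v t := by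
  have h21 : v (2 : C) < 1 := (two_lt h).1
  have htt : 1 < v t ^ 2 := one_lt_pow₀ ht two_ne_zero
  have e0 : u.1 = g.1 * g.1 + d * (g.2.1 * g.2.2 + g.2.2 * g.2.1) := congrArg (fun z : C × C × C => z.1) hg
  have e1 : u.2.1 = g.1 * g.2.1 + g.2.1 * g.1 + d * g.2.2 * g.2.2 := congrArg (fun z : C × C × C => z.2.1) hg
  have e2 : u.2.2 = g.1 * g.2.2 + g.2.1 * g.2.1 + g.2.2 * g.1 := congrArg (fun z : C × C × C => z.2.2) hg
  have hprod : ∀ a b : C, v a ≤ v t → v b ≤ v t → v (2 * (a * b)) < v t ^ 2 := by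
    intro a b ha hb
    rw [map_mul, map_mul, sq]
    have hle : v a * v b ≤ v t * v t := mul_le_mul' ha hb
    calc v 2 * (v a * v b) ≤ v 2 * (v t * v t) := mul_le_mul_right hle _
      _ < 1 * (v t * v t) := by
          refine mul_lt_mul_of_pos_right h21 ?_
          rw [← sq]
          exact lt_trans zero_lt_one htt
      _ = v t * v t := one_mul _
  have hroot : ∀ a : C, v (a ^ 2) < v t ^ 2 → v a < v t := by
    intro a ha
    rw [map_pow] at ha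
    exact lt_of_pow_lt_pow_left₀ 2 zero_le ha
  refine ⟨hroot _ ?_, hroot _ ?_, hroot _ ?_⟩
  · have e : g.1 ^ 2 = u.1 - d * (2 * (g.2.1 * g.2.2)) := by rw [e0]; ring
    rw [e]
    refine Valuation.map_sub_lt v (hu.1.trans_lt htt) ?_
    rw [map_mul, hd, one_mul]
    exact hprod _ _ h1 h2
  · have e : g.2.1 ^ 2 = u.2.2 - 2 * (g.1 * g.2.2) := by rw [e2]; ring
    rw [e]
    exact Valuation.map_sub_lt v (hu.2.2.trans_lt htt) (hprod _ _ h0 h2)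
  · have e : v (g.2.2 ^ 2) = v (u.2.1 - 2 * (g.1 * g.2.1)) := by
      have e3 : u.2.1 - 2 * (g.1 * g.2.1) = d * g.2.2 ^ 2 := by rw [e1]; ring
      rw [e3, map_mul, hd, one_mul]
    rw [e]
    exact Valuation.map_sub_lt v (hu.2.1.trans_lt htt) (hprod _ _ h0 h1)

/-- [P3b] -/
theorem in_of_sq {g u : C × C × C} (hu : Un v d u) (hg : u = mu d g g) : Un v d g := by
  constructor
  · by_contra hcon
    obtain ⟨t, ht, htt⟩ : ∃ t : C, (v g.1 ≤ v t ∧ v g.2.1 ≤ v t ∧ v g.2.2 ≤ v t) ∧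
        (t = g.1 ∨ t = g.2.1 ∨ t = g.2.2) := by
      rcases le_total (v g.1) (v g.2.1) with h1 | h1
      · rcases le_total (v g.2.1) (v g.2.2) with h2 | h2
        · exact ⟨g.2.2, ⟨h1.trans h2, h2, le_rfl⟩, Or.inr (Or.inr rfl)⟩
        · exact ⟨g.2.1, ⟨h1, le_rfl, h2⟩, Or.inr (Or.inl rfl)⟩
      · rcases le_total (v g.1) (v g.2.2) with h2 | h2
        · exact ⟨g.2.2, ⟨h2, h1.trans h2, le_rfl⟩, Or.inr (Or.inr rfl)⟩
        · exact ⟨g.1, ⟨le_rfl, h1, h2⟩, Or.inl rfl⟩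
    have h1t : 1 < v t := by
      by_contra h1
      rw [not_lt] at h1
      exact hcon ⟨ht.1.trans h1, ht.2.1.trans h1, ht.2.2.trans h1⟩
    have hk := P3b_core h hd hu.1 hg h1t ht.1 ht.2.1 ht.2.2
    rcases htt with rfl | rfl | rfl
    · exact lt_irrefl _ hk.1
    · exact lt_irrefl _ hk.2.1
    · exact lt_irrefl _ hk.2.2
  · have h1 : v (nm d g) ^ 2 = 1 := by
      rw [← hu.2, hg, nm_mu, map_mul, sq]
    exact (pow_eq_one_iff_of_nonneg zero_le two_ne_zero).1 h1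

/-- [P3b] if `u w` is a square then `u` and `w` have the same class -/
theorem cl_of_sq {u w g : C × C × C} (hu : Un v d u) (hw : Un v d w) (hg : mu d u w = mu d g g) {q₁ q₂ : C}
    (hq1 : v q₁ ≤ 1) (hq2 : v q₂ ≤ 1) (hq : CL v d w q₁ q₂) : CL v d u q₁ q₂ := by
  have hgu : Un v d g := in_of_sq h hd (un_mu hd.le hu hw) hg
  obtain ⟨i, hi, hgi⟩ := un_inv hd.le hgu
  have hwi : Un v d (mu d w i) := un_mu hd.le hw hi
  have e : mu d u (mu d (mu d w i) (mu d w i)) = w := by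
    have e1 : mu d u (mu d (mu d w i) (mu d w i)) = mu d (mu d (mu d u w) (mu d i i)) w := by
      simp only [mu, Prod.mk.injEq]
      refine ⟨?_, ?_, ?_⟩ <;> ring
    have e2 : mu d (mu d g g) (mu d i i) = mu d (mu d g i) (mu d g i) := by
      simp only [mu, Prod.mk.injEq]
      refine ⟨?_, ?_, ?_⟩ <;> ring
    rw [e1, hg, e2, hgi]
    refine Prod.ext ?_ (Prod.ext ?_ ?_) <;> simp [mu]
  refine (cl_sq h hd hwi).1 ?_
  rw [e]
  exact hq

/-- [P3b] -/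
theorem cl_zero {u : C × C × C} (hu : Un v d u) (hs : IsSquare (nm d u)) {q₁ q₂ : C} (h1 : v q₁ ≤ v 2) (h2 : v q₂ ≤ v 2)
    (hq : CL v d u q₁ q₂) : LocA d u ∧ (v (d - 1) = 1 → SqA d u) := by
  obtain ⟨g, hg, hc⟩ := cl_congr (r₁ := 0) (r₂ := 0) h hq (by rwa [sub_zero]) (by rwa [sub_zero])
  rw [mul_zero] at hc
  have hng : nm d g ≠ 0 := un_ne hg
  have hsn : IsSquare (nm d (mu d u (mu d g g))) := by
    rw [nm_mu, nm_mu]
    exact hs.mul ⟨nm d g, rfl⟩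
  have hsq : v (d - 1) = 1 → SqA d u := fun h1 => sqA_of_sq_mul hng (ker4u h hd h1 hc hsn)
  refine ⟨?_, hsq⟩
  have hle : v (d - 1) ≤ 1 := Valuation.map_sub_le v hd.le (by rw [map_one])
  rcases lt_or_eq_of_le hle with h1 | h1
  · exact locA_of_sq_mul hng (ker4s h hd ((lt_iff2 h _).1 h1) hc hsn)
  · exact Or.inl (hsq h1)

/-- [P3c] -/
theorem exists_un {u : C × C × C} (hu : nm d u ≠ 0) (hs : IsSquare (nm d u))
    (he : ∀ ρ : C, ρ ^ 3 = d → ∃ γ : WithZero (Multiplicative ℤ), v (ev u ρ) = γ ^ 2) :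
    ∃ g : C × C × C, nm d g ≠ 0 ∧ Un v d (mu d u (mu d g g)) := by
  by_cases hc : ∃ ρ : C, ρ ^ 3 = d
  swap
  · push Not at hc
    exact P3c_noncube h hd hc hu hs
  obtain ⟨ρ, hρ⟩ := hc
  have h3C : (3 : C) ≠ 0 := three_ne_zero
  have ho := (v_o h).1
  have hv3 := (v_o h).2.1
  have hd0 : d ≠ 0 := by
    rintro rfl
    simp at hd
  have hρ0 : ρ ≠ 0 := root_ne hd0 hρ
  have hvρ : v ρ = 1 := by
    have h1 : v ρ ^ 3 = 1 := by rw [← map_pow, hρ, hd]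
    exact (pow_eq_one_iff.1 h1).resolve_right (by norm_num)
  have hnm := nm_ev h.ho hρ u
  -- the three scalars
  have hsc : ∀ σ : C, σ ^ 3 = d → ev u σ ≠ 0 → ∃ c : C, c ≠ 0 ∧ v (ev u σ * (c * c)) = 1 := by
    intro σ hσ hne
    obtain ⟨γ, hγ⟩ := he σ hσ
    have hγ0 : γ ≠ 0 := by
      rintro rfl
      apply hne
      rw [← map_eq_zero v, hγ]; simp
    refine ⟨(2 : C) ^ (WithZero.log γ), zpow_ne_zero _ two_ne_zero, ?_⟩
    rw [map_mul, map_mul, P3c_zpow h, hγ, WithZero.exp_neg, WithZero.exp_log hγ0]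
    field_simp
  have hprod : ev u ρ * ev u (o * ρ) * ev u (o ^ 2 * ρ) ≠ 0 := by rw [hnm]; exact hu
  have n0 : ev u ρ ≠ 0 := left_ne_zero_of_mul (left_ne_zero_of_mul hprod)
  have n1 : ev u (o * ρ) ≠ 0 := right_ne_zero_of_mul (left_ne_zero_of_mul hprod)
  have n2 : ev u (o ^ 2 * ρ) ≠ 0 := right_ne_zero_of_mul hprod
  have ho3 : o ^ 3 = 1 := by linear_combination (o - 1) * h.ho
  have r1 : (o * ρ) ^ 3 = d := root_om h.ho hρ
  have r2 : (o ^ 2 * ρ) ^ 3 = d := by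
    rw [mul_pow, ← pow_mul, mul_comm 2 3, pow_mul, ho3, one_pow, one_mul, hρ]
  obtain ⟨c0, z0, w0⟩ := hsc ρ hρ n0
  obtain ⟨c1, z1, w1⟩ := hsc (o * ρ) r1 n1
  obtain ⟨c2, z2, w2⟩ := hsc (o ^ 2 * ρ) r2 n2
  obtain ⟨g, e0, e1, e2⟩ := interp h.ho h3C hρ0 c0 c1 c2
  have hng := nm_ev h.ho hρ g
  rw [e0, e1, e2] at hng
  refine ⟨g, ?_, ?_⟩
  · rw [← hng]
    exact mul_ne_zero (mul_ne_zero z0 z1) z2
  obtain ⟨w, hw⟩ : ∃ w, w = mu d u (mu d g g) := ⟨_, rfl⟩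
  have f0 : v (ev w ρ) = 1 := by rw [hw, ev_mu hρ, ev_mu hρ, e0]; exact w0
  have f1 : v (ev w (o * ρ)) = 1 := by rw [hw, ev_mu r1, ev_mu r1, e1]; exact w1
  have f2 : v (ev w (o ^ 2 * ρ)) = 1 := by rw [hw, ev_mu r2, ev_mu r2, e2]; exact w2
  rw [← hw]
  have hvo2 : v (o ^ 2) = 1 := by rw [map_pow, ho, one_pow]
  obtain ⟨k0, k1, k2⟩ := coef_ev (ρ := ρ) h.ho w
  have l0 : v w.1 ≤ 1 := by
    have : v (3 * w.1) ≤ 1 := by
      rw [← k0]
      exact v.map_add_le (v.map_add_le f0.le f1.le) f2.le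
    rwa [map_mul, hv3, one_mul] at this
  have l1 : v w.2.1 ≤ 1 := by
    have : v (3 * w.2.1 * ρ) ≤ 1 := by
      rw [← k1]
      refine v.map_add_le (v.map_add_le f0.le ?_) ?_
      · rw [map_mul, hvo2, f1, one_mul]
      · rw [map_mul, ho, f2, one_mul]
    rwa [map_mul, map_mul, hv3, one_mul, hvρ, mul_one] at this
  have l2 : v w.2.2 ≤ 1 := by
    have : v (3 * w.2.2 * ρ ^ 2) ≤ 1 := by
      rw [← k2]
      refine v.map_add_le (v.map_add_le f0.le ?_) ?_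
      · rw [map_mul, ho, f1, one_mul]
      · rw [map_mul, hvo2, f2, one_mul]
    rwa [map_mul, map_mul, hv3, one_mul, map_pow, hvρ, one_pow, mul_one] at this
  refine ⟨⟨l0, l1, l2⟩, ?_⟩
  rw [← nm_ev h.ho hρ w, map_mul, map_mul, f0, f1, f2]
  simp

end

end JT
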