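import Pool.Agent.JT.P3

/-!
# [JT-P4] the local condition at 2 for `d` a unit

`d ≡ e (1 + 2 f) mod 4`, `e ∈ {1, o, o²}`. The classes `(q₁, q₂)` of points are those with `q₁ (f + e)² + q₂² f ≡ 0 mod 2`, equivalently `(a f, a² (f + e))`, `a ∈ {0, 1, o, o²}`.

PROOF. Everything about `q₁, q₂, f, a` is modulo 2 in the field `F₄ = {0, 1, o, o²}` (`res`, `fourth`: `x⁴ ≡ x`; `-1 ≡ 1`, `1 + o ≡ o²`).
`lam_iff` [P4a]: `(a f)(f + e)² + a⁴ (f + e)² f ≡ 2 a f (f + e)² ≡ 0`. Conversely if `f ≢ 0`: `a ≡ q₁/f`, `q₂² ≡ a (f + e)²`, `q₂ ≡ q₂⁴ ≡ a² (f + e)⁴ ≡ a² (f + e)`. If `f ≡ 0`: `q₁ e² ≡ 0`, `a ≡ (q₂/e)²`, `a² e ≡ q₂⁴/e³.. ≡ q₂`. (Or by cases `f, q₁, q₂ ∈ {0, 1, o, o²}`.)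
`beta_ns` [P4b] (`e ≠ 1`): `z = e² + e f`, `e² - d ≡ 1 + 2 z mod 4` (`1 + e + e² = 0`), `cube_of`: `X³ = e² - d`, `X ≡ 1 + 2 z mod 4`. `β = (X, a, 0)`, `a³ = 1`: the point `(X/a, e)`: `e² = X³ + d`; `(X, a, 0)(X/a, 1, 0) = a⁻¹ β²`, `a⁻¹ = (a)²`: `LocA d β`. `nm d β = X³ + a³ d = e²`. Class: `k = (1, 0, a² e)`, `k² = 1 + 2 a² e T² + a⁴ e² T⁴ ≡ (1, a (1 + 2 f), 2 a² e) mod 4`
(`T⁴ = d T`, `e² d ≡ 1 + 2 f`), `k² (1 + 2 a f T + 2 a² (f + e) T²) ≡ (1 + 2 (e² + e f), a, 0) ≡ β mod 4`; `k` is a unit (`nm d k = 1 + d² a⁶ ≡ 1 + e² = -e mod 2`). So `CL d β (a f) (a² (f + e))` with `g = k⁻¹`.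
`conv_ns` [P4b]: `lam_iff` gives `a`; `a = 0`: `cl_zero`. Otherwise `u β` has the class `(2 a f, 2 a² (f + e)) ≡ 0`: `cl_zero`: `LocA (u β)`, `locA_of_mul`.
`conv_sp` [P4c] (`e = 1`; `d ≡ 1 mod 2`): `ρ³ = d`, `ρ ≡ 1 + 2 f mod 4` (`cube_of`); roots `ρ_i = o^i ρ`. `a = 0`: `cl_zero`. Let `a³ = 1` and `j` with `a o^j = 1`. The values `u_i = ev u ρ_i` are units and `u_i g_i² ≡ 1 + 2 (q₁ ρ_i + q₂ ρ_i²) ≡ 1 + 2 (a o^i f + a² o^(2i) (f + 1)) mod 4`. For `i ≠ j`: `ρ_i - ρ_j ≡ ζ (1 + 2 t_i) mod 4` with `ζ³ = 1` and the same `t_i ≡ a o^i f + a² o^(2i) (f + 1)`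
(e. g. `a = 1`, `j = 0`: `(o - 1) ρ ≡ o² (1 + 2 (o² + f))`, `(o² - 1) ρ ≡ o (1 + 2 (o + f)) mod 4`, since `o - 1 = -o² - 2 = -o² (1 + 2 o)`, `-1 ≡ 1 + 2`; the others by multiplication with `o^j`). So `u_i (ρ_i - ρ_j) = (square)(1 + 4 γ_i)` for `i ≠ j`, `γ_i` integral. Choose `b ∈ {0, 1, o, o²}` with `γ_i + b ρ_i ≡ 0` or `1 mod 2` for both `i ≠ j`
(`b ↦ (trace of b ρ_i)_{i ≠ j}` is a bijection `F₄ → F₂²`; check the cases): `u_i (1 + 4 b ρ_i)(ρ_i - ρ_j)` is a square for `i ≠ j` (`sq_iff4`), and for `i = j` it is `0`. So with `x = -ρ_j`, `y = 0`: `u (1, 4 b, 0)(x, 1, 0)` is a square (`sqA_of_val`, L3): `LocA (u (1, 4 b, 0))`. `LocA (1, 4 b, 0)`: `b = 0`: a square; `b³ = 1`: the point `b²/4` (as in `ker4s`). `locA_of_mul` (`nm d (1, 4 b, 0) = 1 + 64 b³ d` is a square: `sq_of_8`).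
`dir_big` [P4d]: `1 < v x`: `v(x)³ = v(y)²`, so `v x = v(2^(-2k))`, `x = x'/4^k`, `x'` a unit, `y' = 8^k y`: `y'² = x'³ + 64^k d`, `x' = (y'/x')² (1 - 64^k d/y'²)` is a square `f²` (`sq_of_8`), `4^k (x + T) = f² + 4^k T ≡ f² mod 4`: class `(0, 0)` (`g = 1/f`). `u (f² + 4^k T) = (2^k g)²`: `cl_of_sq`.
`dir_zero` [P4d]: `v x ≤ v 2`: `x = 2 x₁`, `y² = 8 x₁³ + d`, `d = y² (1 - 8 x₁³/y²)` is a square `y'²` (`y` is a unit). `sq_unit4` for `d`: `d ≡ ζ² mod 4`, so `f ≡ 0 mod 2`. `x + T` is a unit (norm `y²`); `(x + T)(T/y')² T... `: `T (T/y')² = T³/d = 1`, so `(x + T)(T/y')² = 1 + 2 x₁ T²/d`: class `(0, x₁/d)`; `cl_of_sq`: `q₁ ≡ 0`, and `q₂² f ≡ 0`.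
`dir_unit` [P4e]: `v x = 1`: `a x ≡ 1 mod 2` with `a³ = 1`, `X = a x = 1 + 2 z`, `X³ + d = y²` (`a³ = 1`), `u (X + a T) = (a² g)²` (`x + T = a⁻¹ (X + a T)`, `a⁻¹ = a²`, `u (x + T) = g²`, so `u (X + a T) = a g² = (a² g)²`). If `e ≠ 1`: `y² ≡ 1 + 2 z + d mod 4`, `y` is a unit (`1 + e ≢ 0`), `sq_unit4`: `y² ≡ ζ² mod 4`, `ζ² ≡ 1 + e ≡ e²`, `ζ² = e⁴ = e`.. precisely `y² ≡ e² mod 4`;
so `2 z ≡ e² - 1 - e - 2 e f ≡ 2 e² + 2 e f mod 4` and `X + a T ≡ β mod 4` of `beta_ns`: class `(a f, a² (f + e))`; `cl_of_sq`, `lam_iff`.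
 If `e = 1`: `y² ≡ 2 (1 + z + f) mod 4` so `y ≡ 0`, `z ≡ 1 + f mod 2`; `ρ`, `ρ_j` as in `conv_sp` with `a ρ_j ≡ 1 + 2 f mod 4`, `X + a ρ_j ≡ 2 + 2 z + 2 f ≡ 0 mod 4`, and for `i ≠ j`: `X + a ρ_i ≡ a (ρ_i - ρ_j) mod 4`. So `u_i a (ρ_i - ρ_j)(1 + 4 (..))` is a square for `i ≠ j`; with `u_i g_i² ≡ 1 + 2 (q₁ ρ_i + q₂ ρ_i²)` and `ρ_i - ρ_j ≡ ζ (1 + 2 t_i)`:
 `q₁ o^i + q₂ o^(2i) ≡ t_i mod 2` for the two `i ≠ j` (`sq_one4`), which determines `q₁, q₂`: `q₁ ≡ a f`, `q₂ ≡ a² (f + 1)`. (`X + a T` is not a unit here, so `cl_of_sq` cannot be used; work with the values; `g` has integral values.)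
`locU` [P4f]: `SqA`: `in_of_sq`, class `(0, 0)`, `cl_unique`. `adjU` [P4f]: `exists_un` for `α`, `β`: units `u`, `w` with classes `p`, `q` (`cl_exists`). `Λ(p) = p₁ (f + e)² + p₂² f`; `Λ` is additive modulo 2 and `Λ(o q₁, o² q₂) ≡ o Λ(q)`. `¬ LocA β` means `Λ(q) ≢ 0`. If `Λ(p) ≡ 0`: `LocA α`. Otherwise `Λ(p) ≡ o^i Λ(q)` for an `i`, so the class of
`u σ^i(w)` has `Λ ≡ 2 Λ(p) ≡ 0`: `LocA`; go back to `α σ^i(β)` (`locA_of_sq_mul`; `σ(g)²`).
-/

set_option autoImplicit false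

open scoped Classical

namespace JT

/-- the statement on the local condition: the classes of points have index four -/
def AdjP {C : Type} [Field C] (v : Valuation C (WithZero (Multiplicative ℤ))) (o d : C) : Prop :=
  ∀ α β : C × C × C, nm d α ≠ 0 → IsSquare (nm d α) → nm d β ≠ 0 → IsSquare (nm d β) →
    (∀ ρ : C, ρ ^ 3 = d → ∃ γ : WithZero (Multiplicative ℤ), v (ev α ρ) = γ ^ 2) →
    (∀ ρ : C, ρ ^ 3 = d → ∃ γ : WithZero (Multiplicative ℤ), v (ev β ρ) = γ ^ 2) → ¬ LocA d β →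
    LocA d α ∨ LocA d (mu d α β) ∨ LocA d (mu d α (β.1, o * β.2.1, o ^ 2 * β.2.2)) ∨
      LocA d (mu d α (β.1, o * (o * β.2.1), o ^ 2 * (o ^ 2 * β.2.2)))

section
variable {C : Type} [Field C] [CharZero C] {v : Valuation C (WithZero (Multiplicative ℤ))} {o : C} (h : Lc2 v o)

omit [CharZero C] in
theorem P4e2_mul {n : ℕ} {A A' B B' : C} (hA : v (A - A') ≤ v 2 ^ n) (hB : v (B - B') ≤ v 2 ^ n) (h1 : v A ≤ 1) (h2 : v B' ≤ 1) :
    v (A * B - A' * B') ≤ v 2 ^ n := by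
  have e : A * B - A' * B' = A * (B - B') + B' * (A - A') := by ring
  rw [e]
  exact P3a_add (P3a_mul h1 hB) (P3a_mul h2 hA)

include h in
theorem P4e2_4 {x : C} (hx : v x ≤ 1) : v (4 * x) ≤ v 2 ^ 2 := by
  rw [map_mul, show (4 : C) = 2 ^ 2 by norm_num, map_pow]
  calc v 2 ^ 2 * v x ≤ v 2 ^ 2 * 1 := mul_le_mul' le_rfl hx
    _ = v 2 ^ 2 := mul_one _

include h in
theorem P4e2_2 {x : C} (hx : v x ≤ v 2) : v (2 * x) ≤ v 2 ^ 2 := by
  rw [map_mul, sq]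
  exact mul_le_mul' le_rfl hx

include h in
theorem P4e2_2' {x : C} (hx : v (2 * x) ≤ v 2 ^ 2) : v x ≤ v 2 := by
  rw [map_mul, sq] at hx
  exact le_of_mul_le_mul_left hx (zero_lt_iff.2 (two_lt h).2)

include h in
theorem P4e2_1 {x : C} (hx : v x ≤ 1) : v (2 * x) ≤ v 2 := by
  rw [map_mul]
  calc v 2 * v x ≤ v 2 * 1 := mul_le_mul' le_rfl hx
    _ = v 2 := mul_one _

include h in
theorem P4e2_quarter {x : C} (hx : v x ≤ v 2 ^ 2) : ∃ r : C, v r ≤ 1 ∧ x = 4 * r := by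
  refine ⟨x / 2 ^ 2, ?_, ?_⟩
  · rw [map_div₀, map_pow]
    exact div_le_one_of_le₀ hx zero_le
  · ring

/-- the congruence at one root -/
theorem P4e2_key (h : Lc2 v o) {d f ρ t ζ w : C} (hf : v f ≤ 1) (hρ : ρ ^ 3 = d) (hρ4 : v (ρ - (1 + 2 * f)) ≤ v 2 ^ 2)
    (ht : v t ≤ 1) (htf : v (1 + f + t) ≤ v 2) (hζ : ζ ^ 3 = 1) (hζ1 : v ζ = 1) (hw : w ^ 2 + w + 1 = 0) (hw1 : v w = 1)
    {u g k : C × C × C} {q₁ q₂ : C} (h1 : v q₁ ≤ 1) (h2 : v q₂ ≤ 1) (hc : Cg v 2 (mu d u (mu d k k)) (1, 2 * q₁, 2 * q₂))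
    (hg : mu d u (ζ * (1 + 2 * t), 1, 0) = mu d g g) :
    v (q₁ * ζ * w + q₂ * ζ ^ 2 * w ^ 2 + w ^ 2 + f) ≤ v 2 := by
  have hw3 : w ^ 3 = 1 := by linear_combination (w - 1) * hw
  obtain ⟨r, hr, er⟩ := P4e2_quarter h hρ4
  have h2l := (two_lt h).1.le
  have hroot : (ζ * w * ρ) ^ 3 = d := by rw [mul_pow, mul_pow, hζ, hw3, hρ]; ring
  have e1 : ev u (ζ * w * ρ) * (ζ * (1 + 2 * t) + ζ * w * ρ) = ev g (ζ * w * ρ) * ev g (ζ * w * ρ) := by
    rw [← ev_pt, ← ev_mu hroot, hg, ev_mu hroot]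
  obtain ⟨c, hcc⟩ : ∃ c, c = mu d u (mu d k k) := ⟨_, rfl⟩
  rw [← hcc] at hc
  have e2 : ev c (ζ * w * ρ) = ev u (ζ * w * ρ) * (ev k (ζ * w * ρ) * ev k (ζ * w * ρ)) := by
    rw [hcc, ev_mu hroot, ev_mu hroot]
  have hρe : ρ = 1 + 2 * (f + 2 * r) := by linear_combination er
  have hfr : v (f + 2 * r) ≤ 1 := P3a_add hf (P3a_mul h2l hr)
  have hρ1 : v ρ ≤ 1 := by
    rw [hρe]
    exact P3a_add (map_one v).le (P3a_mul h2l hfr)
  have hzw : v (ζ * w) ≤ 1 := by rw [map_mul, hζ1, hw1, one_mul]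
  have hzwr : v (ζ * w * ρ) ≤ 1 := P3a_mul hzw hρ1
  -- A
  have hA : v (ev c (ζ * w * ρ) - (1 + 2 * (q₁ * ζ * w + q₂ * ζ ^ 2 * w ^ 2))) ≤ v 2 ^ 2 := by
    have e3 : ev c (ζ * w * ρ) - (1 + 2 * (q₁ * ζ * w + q₂ * ζ ^ 2 * w ^ 2)) =
        (c.1 - 1) + (ζ * w * ρ) * (c.2.1 - 2 * q₁) + ((ζ * w * ρ) * (ζ * w * ρ)) * (c.2.2 - 2 * q₂)
        + 4 * (q₁ * (ζ * w) * (f + 2 * r)) + 4 * (2 * (q₂ * (ζ * w) * (ζ * w) * ((f + 2 * r) + (f + 2 * r) * (f + 2 * r)))) := by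
      simp only [ev]
      rw [hρe]
      ring
    rw [e3]
    refine P3a_add (P3a_add (P3a_add (P3a_add hc.1 (P3a_mul hzwr hc.2.1)) (P3a_mul (P3a_mul hzwr hzwr) hc.2.2)) ?_) ?_
    · exact P4e2_4 h (P3a_mul (P3a_mul h1 hzw) hfr)
    · exact P4e2_4 h (P3a_mul h2l (P3a_mul (P3a_mul (P3a_mul h2 hzw) hzw) (P3a_add hfr (P3a_mul hfr hfr))))
  -- B
  have hB : v (w * (1 + 2 * t + w * ρ) - (1 + 2 * (w ^ 2 + f))) ≤ v 2 ^ 2 := by
    have e3 : w * (1 + 2 * t + w * ρ) - (1 + 2 * (w ^ 2 + f)) = 2 * (w * (1 + f + t)) + 4 * (w ^ 2 * (r + f)) := by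
      rw [hρe]
      linear_combination (-1 - 2 * f) * hw
    rw [e3]
    refine P3a_add (P4e2_2 h (P3a_mul hw1.le htf)) (P4e2_4 h (P3a_mul ?_ (P3a_add hr hf)))
    rw [map_pow, hw1, one_pow]
  have hα : v (q₁ * ζ * w + q₂ * ζ ^ 2 * w ^ 2) ≤ 1 := by
    have : q₁ * ζ * w + q₂ * ζ ^ 2 * w ^ 2 = q₁ * (ζ * w) + q₂ * ((ζ * w) * (ζ * w)) := by ring
    rw [this]
    exact P3a_add (P3a_mul h1 hzw) (P3a_mul h2 (P3a_mul hzw hzw))
  have hβ : v (w ^ 2 + f) ≤ 1 := P3a_add (by rw [map_pow, hw1, one_pow]) hf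
  set α := q₁ * ζ * w + q₂ * ζ ^ 2 * w ^ 2 with hαd
  set β := w ^ 2 + f with hβd
  have hA1 : v (ev c (ζ * w * ρ)) ≤ 1 := by
    have : ev c (ζ * w * ρ) = (ev c (ζ * w * ρ) - (1 + 2 * α)) + (1 + 2 * α) := by ring
    rw [this]
    refine P3a_add (hA.trans (pow_le_one' h2l 2)) (P3a_add (map_one v).le (P3a_mul h2l hα))
  have hAB := P4e2_mul hA hB hA1 (P3a_add (map_one v).le (P3a_mul h2l hβ))
  have hsq : IsSquare (ev c (ζ * w * ρ) * (w * (1 + 2 * t + w * ρ))) := by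
    refine ⟨ev g (ζ * w * ρ) * ev k (ζ * w * ρ) * (ζ * w ^ 2), ?_⟩
    rw [e2]
    linear_combination (ev k (ζ * w * ρ) ^ 2 * ζ ^ 2 * w ^ 4) * e1
      - (ev u (ζ * w * ρ) * ev k (ζ * w * ρ) ^ 2 * (1 + 2 * t + w * ρ) * w ^ 4) * hζ
      - (ev u (ζ * w * ρ) * ev k (ζ * w * ρ) ^ 2 * (1 + 2 * t + w * ρ) * w) * hw3
  have hAB2 : v (ev c (ζ * w * ρ) * (w * (1 + 2 * t + w * ρ)) - 1 - 2 * (α + β)) ≤ v 2 ^ 2 := by
    have : ev c (ζ * w * ρ) * (w * (1 + 2 * t + w * ρ)) - 1 - 2 * (α + β) =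
        (ev c (ζ * w * ρ) * (w * (1 + 2 * t + w * ρ)) - (1 + 2 * α) * (1 + 2 * β)) + 4 * (α * β) := by ring
    rw [this]
    exact P3a_add hAB (P4e2_4 h (P3a_mul hα hβ))
  have h22 : v 2 ^ 2 ≤ v 2 := by
    rw [sq]
    calc v 2 * v 2 ≤ 1 * v 2 := mul_le_mul' h2l le_rfl
      _ = v 2 := one_mul _
  have hαβ : v (α + β) ≤ 1 := P3a_add hα hβ
  have hm2 : v (ev c (ζ * w * ρ) * (w * (1 + 2 * t + w * ρ)) - 1) ≤ v 2 := by
    have : ev c (ζ * w * ρ) * (w * (1 + 2 * t + w * ρ)) - 1 =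
        (ev c (ζ * w * ρ) * (w * (1 + 2 * t + w * ρ)) - 1 - 2 * (α + β)) + 2 * (α + β) := by ring
    rw [this]
    exact P3a_add (hAB2.trans h22) (P4e2_1 h hαβ)
  have hm4 := sq_one4 h hsq hm2
  have hfin : v (α + β) ≤ v 2 := by
    refine P4e2_2' h ?_
    have : 2 * (α + β) = (ev c (ζ * w * ρ) * (w * (1 + 2 * t + w * ρ)) - 1)
        - (ev c (ζ * w * ρ) * (w * (1 + 2 * t + w * ρ)) - 1 - 2 * (α + β)) := by ring
    rw [this]
    exact P3a_sub hm4 hAB2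
  have : α + w ^ 2 + f = α + β := by rw [hβd]; ring
  rw [this]
  exact hfin

end

/-! ### [P4c] -/

section
variable {C : Type} [Field C] [CharZero C] {v : Valuation C (WithZero (Multiplicative ℤ))} {o : C}

theorem p4c_div (h : Lc2 v o) {x : C} (n : ℕ) (hx : v x ≤ v 2 ^ n) : ∃ t : C, v t ≤ 1 ∧ x = 2 ^ n * t := by
  have h2 := (two_lt h).2
  have h2' : (2 : C) ^ n ≠ 0 := pow_ne_zero n two_ne_zero
  have h3 : v 2 ^ n ≠ 0 := pow_ne_zero n h2
  refine ⟨x / 2 ^ n, ?_, by field_simp⟩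
  rw [map_div₀, map_pow]
  exact div_le_one_of_le₀ hx zero_le

omit [CharZero C] in
theorem p4c_two (_h : Lc2 v o) {t : C} (ht : v t ≤ 1) : v (2 * t) ≤ v 2 := by
  rw [map_mul]
  exact mul_le_of_le_one_right' ht

omit [CharZero C] in
theorem p4c_ev {n : ℕ} {u w : C × C × C} (h1 : Cg v n u w) {ρ : C} (hρ : v ρ ≤ 1) : v (ev u ρ - ev w ρ) ≤ v 2 ^ n := by
  obtain ⟨a, b, c⟩ := h1
  have e1 : ev u ρ - ev w ρ = (u.1 - w.1) + (u.2.1 - w.2.1) * ρ + (u.2.2 - w.2.2) * ρ ^ 2 := by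
    simp only [ev]
    ring
  have hρ2 : v (ρ ^ 2) ≤ 1 := by
    rw [map_pow]
    exact pow_le_one₀ zero_le hρ
  rw [e1]
  refine Valuation.map_add_le v (Valuation.map_add_le v a ?_) ?_
  · rw [map_mul]
    exact (mul_le_of_le_one_right' hρ).trans b
  · rw [map_mul]
    exact (mul_le_of_le_one_right' hρ2).trans c

omit [CharZero C] in
theorem p4c_val {d ρ : C} (h3 : (3 : C) ≠ 0) (hd : d ≠ 0) (ho : o ^ 2 + o + 1 = 0) (hρ : ρ ^ 3 = d)
    {u : C × C × C} (h : ∀ ρ' : C, ρ' ^ 3 = d → IsSquare (ev u ρ')) : SqA d u := by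
  choose! G hG using h
  obtain ⟨g, hg⟩ := interp' ho h3 hd hρ G
  refine ⟨g, ev_inj' ho h3 hd hρ fun ρ' h' => ?_⟩
  rw [ev_mu h', hg ρ' h']
  exact hG ρ' h'

/-- the value at `ω ρ` -/
theorem p4c_one (h : Lc2 v o) {ω f r ρ U G s : C} (hω : ω ^ 2 + ω + 1 = 0) (hω1 : v ω ≤ 1) (hf : v f ≤ 1) (hr : v r ≤ 1) (hs : v s ≤ 1)
    (hρ : ρ = 1 + 2 * f + 4 * r) (hU : U * G ^ 2 = 1 + 2 * (f * (ω * ρ) + (f + 1) * (ω * ρ) ^ 2) + 4 * s) :
    ∃ γ : C, v γ ≤ 1 ∧ ∀ b : C, v b ≤ 1 → (v (γ + b * ω) ≤ v 2 ∨ v (γ + b * ω - 1) ≤ v 2) →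
      IsSquare (U * (1 + 4 * b * (ω * ρ)) * (ω * ρ - ρ)) := by
  have h2 := (two_lt h).1
  have i2 : (2 : C) ∈ v.integer := h2.le
  have i4 : (4 : C) ∈ v.integer := by
    have : (4 : C) = 2 * 2 := by norm_num
    rw [this]
    exact mul_mem i2 i2
  have i1 : (1 : C) ∈ v.integer := one_mem _
  have iω : ω ∈ v.integer := hω1
  have iω2 : ω ^ 2 ∈ v.integer := pow_mem iω 2
  have if' : f ∈ v.integer := hf
  have ir : r ∈ v.integer := hr
  have is' : s ∈ v.integer := hs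
  have ω3 : ω ^ 3 = 1 := by linear_combination (ω - 1) * hω
  set t : C := f + ω ^ 2 with ht
  have it : t ∈ v.integer := add_mem if' iω2
  -- the unit `1 + 2 t`
  have hu1 : v (1 + 2 * t) = 1 := by
    have h3 : v (2 * t) < v (1 : C) := by
      rw [map_one]
      exact (p4c_two h it).trans_lt h2
    rw [Valuation.map_add_eq_of_lt_left v h3, map_one]
  have hu0 : 1 + 2 * t ≠ 0 := by
    intro h0
    rw [h0, map_zero] at hu1
    exact zero_ne_one hu1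
  set α : C := s - f + (f * ω * (f + 2 * r) + 2 * (f + 1) * ω ^ 2 * (f + 2 * r) * (1 + f + 2 * r)) with hα
  have iα : α ∈ v.integer := by
    have i3 : f + 2 * r ∈ v.integer := add_mem if' (mul_mem i2 ir)
    exact add_mem (sub_mem is' if') (add_mem (mul_mem (mul_mem if' iω) i3)
      (mul_mem (mul_mem (mul_mem (mul_mem i2 (add_mem if' i1)) iω2) i3) (add_mem (add_mem i1 if') (mul_mem i2 ir))))
  have e1 : U * G ^ 2 = 1 + 2 * t + 4 * α := by
    rw [hU, hρ, hα, ht]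
    linear_combination (2 * f) * hω
  set β : C := -(f + r + ω * f + 2 * ω * r) with hβ
  have iβ : β ∈ v.integer := neg_mem (add_mem (add_mem (add_mem if' ir) (mul_mem iω if')) (mul_mem (mul_mem i2 iω) ir))
  have e2 : ω * ρ - ρ = ω ^ 2 * (1 + 2 * t + 4 * β) := by
    rw [hρ, hβ, ht]
    linear_combination (1 + 2 * f + 4 * r - 2 * ω ^ 2) * hω + (2 + 4 * f + 8 * r) * ω3
  have iu : (1 + 2 * t)⁻¹ ∈ v.integer := by
    show v (1 + 2 * t)⁻¹ ≤ 1
    rw [map_inv₀, hu1, inv_one]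
  set γ : C := α * (1 + 2 * t)⁻¹ + β * (1 + 2 * t)⁻¹ + 4 * (α * (1 + 2 * t)⁻¹) * (β * (1 + 2 * t)⁻¹) with hγ
  have iγ : γ ∈ v.integer := add_mem (add_mem (mul_mem iα iu) (mul_mem iβ iu)) (mul_mem (mul_mem i4 (mul_mem iα iu)) (mul_mem iβ iu))
  have e3 : (1 + 2 * t + 4 * α) * (1 + 2 * t + 4 * β) = (1 + 2 * t) ^ 2 * (1 + 4 * γ) := by
    rw [hγ]
    field_simp
    ring
  refine ⟨γ, iγ, fun b hb hc => ?_⟩
  have ib : b ∈ v.integer := hb
  have iρ : ρ ∈ v.integer := by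
    rw [hρ]
    exact add_mem (add_mem i1 (mul_mem i2 if')) (mul_mem i4 ir)
  have iτ : γ + b * (ω * ρ) + 4 * γ * b * (ω * ρ) ∈ v.integer :=
    add_mem (add_mem iγ (mul_mem ib (mul_mem iω iρ))) (mul_mem (mul_mem (mul_mem i4 iγ) ib) (mul_mem iω iρ))
  have idiff : v (2 * (b * ω * (f + 2 * r) + 2 * γ * b * (ω * ρ))) ≤ v 2 := p4c_two h
    (add_mem (mul_mem (mul_mem ib iω) (add_mem if' (mul_mem i2 ir))) (mul_mem (mul_mem (mul_mem i2 iγ) ib) (mul_mem iω iρ)))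
  have hτ : v (γ + b * (ω * ρ) + 4 * γ * b * (ω * ρ)) ≤ v 2 ∨ v (γ + b * (ω * ρ) + 4 * γ * b * (ω * ρ) - 1) ≤ v 2 := by
    have e4 : γ + b * (ω * ρ) + 4 * γ * b * (ω * ρ) = (γ + b * ω) + 2 * (b * ω * (f + 2 * r) + 2 * γ * b * (ω * ρ)) := by
      rw [hρ]
      ring
    rcases hc with hc | hc
    · left
      rw [e4]
      exact Valuation.map_add_le v hc idiff
    · right
      rw [e4]
      have e5 : (γ + b * ω) + 2 * (b * ω * (f + 2 * r) + 2 * γ * b * (ω * ρ)) - 1 =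
          (γ + b * ω - 1) + 2 * (b * ω * (f + 2 * r) + 2 * γ * b * (ω * ρ)) := by ring
      rw [e5]
      exact Valuation.map_add_le v hc idiff
  obtain ⟨y, hy⟩ := (sq_iff4 h iτ).2 hτ
  -- `G ≠ 0`
  have hG : G ≠ 0 := by
    intro h0
    rw [h0] at e1
    have h3 : v (1 + 2 * t + 4 * α) = 1 := by
      have e6 : 1 + 2 * t + 4 * α = 1 + 2 * (t + 2 * α) := by ring
      have h3 : v (2 * (t + 2 * α)) < v (1 : C) := by
        rw [map_one]
        exact (p4c_two h (add_mem it (mul_mem i2 iα))).trans_lt h2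
      rw [e6, Valuation.map_add_eq_of_lt_left v h3, map_one]
    rw [← e1] at h3
    simp at h3
  refine ⟨ω * (1 + 2 * t) * y / G, ?_⟩
  field_simp
  have e7 : U * (1 + 4 * b * (ω * ρ)) * (ω * ρ - ρ) * G ^ 2 = ω ^ 2 * ((1 + 2 * t) ^ 2 * (1 + 4 * γ)) * (1 + 4 * b * (ω * ρ)) := by
    rw [← e3, ← e1, e2]
    ring
  have e8 : (1 + 4 * γ) * (1 + 4 * b * (ω * ρ)) = y ^ 2 := by
    rw [pow_two, ← hy]
    ring
  linear_combination e7 + ω ^ 2 * (1 + 2 * t) ^ 2 * e8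

end

theorem p4_sq1 {γ : WithZero (Multiplicative ℤ)} (hγ : γ ^ 2 = 1) : γ = 1 := by
  have h0 : γ ≠ 0 := by
    rintro rfl
    rw [zero_pow two_ne_zero] at hγ
    exact zero_ne_one hγ
  obtain ⟨a, ha⟩ : ∃ a : ℤ, γ = WithZero.exp a := ⟨WithZero.log γ, (WithZero.exp_log h0).symm⟩
  rw [ha, ← WithZero.exp_nsmul, ← WithZero.exp_zero, WithZero.exp_inj] at hγ
  rw [ha, ← WithZero.exp_zero, WithZero.exp_inj]
  have : (2 : ℕ) • a = 2 * a := by rw [nsmul_eq_mul]; norm_num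
  omega

/-- the automorphism `T ↦ o T` -/
def p4_sig {C : Type} [Field C] (o : C) (u : C × C × C) : C × C × C := (u.1, o * u.2.1, o ^ 2 * u.2.2)

theorem p4_sig_mu {C : Type} [Field C] {o : C} (h3 : o ^ 3 = 1) (d : C) (u w : C × C × C) :
    p4_sig o (mu d u w) = mu d (p4_sig o u) (p4_sig o w) := by
  simp only [p4_sig, mu, Prod.mk.injEq]
  refine ⟨?_, ?_, ?_⟩
  · linear_combination (-d * (u.2.1 * w.2.2 + u.2.2 * w.2.1)) * h3
  · linear_combination (-d * (u.2.2 * w.2.2) * o) * h3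
  · ring

theorem p4_sig_nm {C : Type} [Field C] {o : C} (h3 : o ^ 3 = 1) (d : C) (u : C × C × C) : nm d (p4_sig o u) = nm d u := by
  simp only [p4_sig, nm]
  linear_combination (d * u.2.1 ^ 3 + d ^ 2 * u.2.2 ^ 3 * (o ^ 3 + 1) - 3 * d * u.1 * u.2.1 * u.2.2) * h3

theorem p4_sig_un {C : Type} [Field C] {v : Valuation C (WithZero (Multiplicative ℤ))} {o : C} (h3 : o ^ 3 = 1) (ho : v o = 1) {d : C}
    {u : C × C × C} (hu : Un v d u) : Un v d (p4_sig o u) := by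
  refine ⟨⟨hu.1.1, ?_, ?_⟩, ?_⟩
  · simp only [p4_sig]
    rw [map_mul, ho, one_mul]
    exact hu.1.2.1
  · simp only [p4_sig]
    rw [map_mul, map_pow, ho, one_pow, one_mul]
    exact hu.1.2.2
  · rw [p4_sig_nm h3]
    exact hu.2

section
variable {C : Type} [Field C] {v : Valuation C (WithZero (Multiplicative ℤ))}

theorem p4_add {x y : C} {b : WithZero (Multiplicative ℤ)} (hx : v x ≤ b) (hy : v y ≤ b) : v (x + y) ≤ b :=
  (v.map_add x y).trans (max_le hx hy)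

theorem p4_sub {x y : C} {b : WithZero (Multiplicative ℤ)} (hx : v x ≤ b) (hy : v y ≤ b) : v (x - y) ≤ b :=
  (v.map_sub x y).trans (max_le hx hy)

theorem p4_mul {a x : C} {b : WithZero (Multiplicative ℤ)} (ha : v a ≤ 1) (hx : v x ≤ b) : v (a * x) ≤ b := by
  rw [map_mul]
  exact (mul_le_of_le_one_left' ha).trans hx

theorem p4_mul1 {a x : C} (ha : v a ≤ 1) (hx : v x ≤ 1) : v (a * x) ≤ 1 := p4_mul ha hx

theorem p4_pow1 {a : C} (ha : v a ≤ 1) (n : ℕ) : v (a ^ n) ≤ 1 := by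
  rw [map_pow]
  exact pow_le_one' ha n

end

section
variable {C : Type} [Field C] [CharZero C] {v : Valuation C (WithZero (Multiplicative ℤ))} {o : C} (h : Lc2 v o)
include h

theorem p4_o3 : o ^ 3 = 1 := by linear_combination (o - 1) * h.ho

theorem p4_two_le : v (2 : C) ≤ 1 := (two_lt h).1.le

theorem p4_sqle : v (2 : C) ^ 2 ≤ v 2 := by
  rw [sq]
  exact mul_le_of_le_one_right' (p4_two_le h)

theorem p4_four : v (4 : C) = v 2 ^ 2 := by
  have : (4 : C) = 2 ^ 2 := by norm_num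
  rw [this, map_pow]

theorem p4_twomul {x : C} (hx : v x ≤ 1) : v (2 * x) ≤ v 2 := by
  rw [map_mul]
  exact mul_le_of_le_one_right' hx

theorem p4_fourmul {x : C} (hx : v x ≤ 1) : v (4 * x) ≤ v 2 ^ 2 := by
  rw [map_mul, p4_four h]
  exact mul_le_of_le_one_right' hx

theorem p4_22 {x : C} (hx : v x ≤ v 2) : v (2 * x) ≤ v 2 ^ 2 := by
  rw [map_mul, sq]
  exact mul_le_mul_right hx _

/-- `v (2 x) ≤ v 4` gives `v x ≤ v 2` -/
theorem p4_half {x : C} (hx : v (2 * x) ≤ v 2 ^ 2) : v x ≤ v 2 := by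
  rw [map_mul, sq] at hx
  have h0 := (two_lt h).2
  exact le_of_mul_le_mul_left hx (zero_lt_iff.2 h0)

theorem p4_zeta {ζ : C} (hζ : ζ = 1 ∨ ζ = o ∨ ζ = o ^ 2) : ζ ^ 3 = 1 ∧ v ζ = 1 ∧ ζ ≠ 0 := by
  have h3 := p4_o3 h
  have hvo := (v_o h).1
  have h1 : v ζ = 1 := by
    rcases hζ with rfl | rfl | rfl
    · exact map_one v
    · exact hvo
    · rw [map_pow, hvo, one_pow]
  refine ⟨?_, h1, ?_⟩
  · rcases hζ with rfl | rfl | rfl
    · norm_num
    · exact h3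
    · rw [← pow_mul, mul_comm, pow_mul, h3, one_pow]
  · rintro rfl
    rw [map_zero] at h1
    exact zero_ne_one h1

/-- the cube roots of `1` are incongruent modulo 2 -/
theorem p4_zeta_eq {ζ ξ : C} (hζ : ζ = 1 ∨ ζ = o ∨ ζ = o ^ 2) (hξ : ξ = 1 ∨ ξ = o ∨ ξ = o ^ 2) (hd : v (ζ - ξ) ≤ v 2) : ζ = ξ := by
  have hlt := (two_lt h).1
  obtain ⟨ho1, -, ho2⟩ := v_o h
  have a1 : v (1 - o) = 1 := ho2
  have a2 : v (o - 1) = 1 := by rw [Valuation.map_sub_swap]; exact ho2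
  have a3 : v (o - o ^ 2) = 1 := by
    have : o - o ^ 2 = o * (1 - o) := by ring
    rw [this, map_mul, ho1, ho2, one_mul]
  have a4 : v (o ^ 2 - o) = 1 := by rw [Valuation.map_sub_swap]; exact a3
  have a5 : v (1 - o ^ 2) = 1 := by
    have : 1 - o ^ 2 = -(1 - o) * o ^ 2 := by linear_combination -(o - 1) * h.ho
    rw [this, map_mul, Valuation.map_neg, ho2, map_pow, ho1]
    norm_num
  have a6 : v (o ^ 2 - 1) = 1 := by rw [Valuation.map_sub_swap]; exact a5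
  rcases hζ with rfl | rfl | rfl <;> rcases hξ with rfl | rfl | rfl
  · rfl
  · rw [a1] at hd; exact absurd hd (not_le.2 hlt)
  · rw [a5] at hd; exact absurd hd (not_le.2 hlt)
  · rw [a2] at hd; exact absurd hd (not_le.2 hlt)
  · rfl
  · rw [a3] at hd; exact absurd hd (not_le.2 hlt)
  · rw [a6] at hd; exact absurd hd (not_le.2 hlt)
  · rw [a4] at hd; exact absurd hd (not_le.2 hlt)
  · rfl

end

section
variable {C : Type} [Field C] [CharZero C] {v : Valuation C (WithZero (Multiplicative ℤ))} {o : C} (h : Lc2 v o) {d e f : C}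
  (hd : v d = 1) (he : e = 1 ∨ e = o ∨ e = o ^ 2) (hf : v f ≤ 1) (hde : v (d - e * (1 + 2 * f)) ≤ v 2 ^ 2)
include h he hf

/-- [P4a] -/
theorem lam_iff {q₁ q₂ : C} (h1 : v q₁ ≤ 1) (h2 : v q₂ ≤ 1) : v (q₁ * (f + e) ^ 2 + q₂ ^ 2 * f) ≤ v 2 ↔
    ∃ a : C, (a = 0 ∨ a = 1 ∨ a = o ∨ a = o ^ 2) ∧ v (q₁ - a * f) ≤ v 2 ∧ v (q₂ - a ^ 2 * (f + e)) ≤ v 2 := by
  have ho3 := p0_o3 h
  have ho1 := (v_o h).1
  have hlt := (two_lt h).1
  have hone : v (1 : C) ≤ 1 := by rw [map_one]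
  have ve : v e = 1 := by
    rcases he with rfl | rfl | rfl
    · rw [map_one]
    · exact ho1
    · rw [map_pow, ho1, one_pow]
  have e3 : e ^ 3 = 1 := by
    rcases he with rfl | rfl | rfl
    · norm_num
    · exact ho3
    · linear_combination (o ^ 3 + 1) * ho3
  have va : ∀ {a : C}, (a = 0 ∨ a = 1 ∨ a = o ∨ a = o ^ 2) → v a ≤ 1 ∧ a ^ 4 = a := by
    intro a ha
    rcases ha with rfl | rfl | rfl | rfl
    · exact ⟨by simp, by norm_num⟩
    · exact ⟨hone, by norm_num⟩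
    · exact ⟨ho1.le, by linear_combination a * ho3⟩
    · exact ⟨p0_pow ho1.le 2, by linear_combination (o ^ 5 + o ^ 2) * ho3⟩
  have res' : ∀ {x : C}, v x ≤ 1 → ∃ a : C, (a = 0 ∨ a = 1 ∨ a = o ∨ a = o ^ 2) ∧ v (x - a) ≤ v 2 := by
    intro x hx
    rcases h.res x hx with h3 | h3 | h3 | h3
    · exact ⟨0, Or.inl rfl, by rwa [sub_zero]⟩
    · exact ⟨1, Or.inr (Or.inl rfl), h3⟩
    · exact ⟨o, Or.inr (Or.inr (Or.inl rfl)), h3⟩
    · exact ⟨o ^ 2, Or.inr (Or.inr (Or.inr rfl)), h3⟩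
  have hfe : v (f + e) ≤ 1 := p0_add hf ve.le
  constructor
  · intro hl
    rcases lt_or_eq_of_le hf with h0 | h0
    · -- f ≡ 0
      have hf2 := (lt_iff2 h f).1 h0
      have hq : v (q₁ * e ^ 2) ≤ v 2 := by
        have e1 : q₁ * e ^ 2 = (q₁ * (f + e) ^ 2 + q₂ ^ 2 * f) - f * (q₁ * (f + 2 * e) + q₂ ^ 2) := by ring
        rw [e1]
        exact v.map_sub_le hl (p0_ml hf2 (p0_add (p0_mul h1 (p0_add hf (p0_mul hlt.le ve.le))) (p0_pow h2 2)))
      have hq1 : v q₁ ≤ v 2 := by rwa [map_mul, map_pow, ve, one_pow, mul_one] at hq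
      have hy : v (q₂ * e ^ 2) ≤ 1 := p0_mul h2 (p0_pow ve.le 2)
      obtain ⟨a, ha, ha2⟩ := res' (p0_pow hy 2)
      obtain ⟨va1, -⟩ := va ha
      refine ⟨a, ha, v.map_sub_le hq1 (p0_mr va1 hf2), ?_⟩
      have e1 : q₂ - a ^ 2 * (f + e) = e * (-((q₂ * e ^ 2) ^ 4 - q₂ * e ^ 2)
          + ((q₂ * e ^ 2) ^ 2 - a) * ((q₂ * e ^ 2) ^ 2 + a)) - a ^ 2 * f := by
        linear_combination (-q₂) * e3
      rw [e1]
      refine v.map_sub_le (p0_mr ve.le (v.map_add_le ?_ (p0_ml ha2 (p0_add (p0_pow hy 2) va1))))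
        (p0_mr (p0_pow va1 2) hf2)
      rw [Valuation.map_neg]
      exact fourth h hy
    · -- f a unit
      have hq : v (q₁ / f) ≤ 1 := by rwa [map_div₀, h0, div_one]
      have hf0 : f ≠ 0 := by
        rintro rfl
        rw [map_zero] at h0
        exact zero_ne_one h0
      obtain ⟨a, ha, ha2⟩ := res' hq
      obtain ⟨va1, -⟩ := va ha
      have k1 : v (q₁ - a * f) ≤ v 2 := by
        have e1 : q₁ - a * f = (q₁ / f - a) * f := by field_simp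
        rw [e1]
        exact p0_ml ha2 hf
      have k2 : v (q₂ ^ 2 + a * (f + e) ^ 2) ≤ v 2 := by
        have e1 : f * (q₂ ^ 2 + a * (f + e) ^ 2) = (q₁ * (f + e) ^ 2 + q₂ ^ 2 * f)
            - (q₁ - a * f) * (f + e) ^ 2 := by ring
        have e2 : v (f * (q₂ ^ 2 + a * (f + e) ^ 2)) ≤ v 2 := by
          rw [e1]
          exact v.map_sub_le hl (p0_ml k1 (p0_pow hfe 2))
        rwa [map_mul, h0, one_mul] at e2
      refine ⟨a, ha, k1, ?_⟩
      have e1 : q₂ - a ^ 2 * (f + e) = (q₂ ^ 2 + a * (f + e) ^ 2) * (q₂ ^ 2 - a * (f + e) ^ 2)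
          + a ^ 2 * ((f + e) ^ 4 - (f + e)) - (q₂ ^ 4 - q₂) := by ring
      rw [e1]
      exact v.map_sub_le (v.map_add_le (p0_ml k2 (p0_sub (p0_pow h2 2) (p0_mul va1 (p0_pow hfe 2))))
        (p0_mr (p0_pow va1 2) (fourth h hfe))) (fourth h h2)
  · rintro ⟨a, ha, k1, k2⟩
    obtain ⟨va1, va4⟩ := va ha
    have e1 : q₁ * (f + e) ^ 2 + q₂ ^ 2 * f = (q₁ - a * f) * (f + e) ^ 2
        + (q₂ - a ^ 2 * (f + e)) * ((q₂ + a ^ 2 * (f + e)) * f) + 2 * (a * f * (f + e) ^ 2) := by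
      linear_combination (f * (f + e) ^ 2) * va4
    rw [e1]
    exact v.map_add_le (v.map_add_le (p0_ml k1 (p0_pow hfe 2))
      (p0_ml k2 (p0_mul (p0_add h2 (p0_mul (p0_pow va1 2) hfe)) hf)))
      (p0_ml le_rfl (p0_mul (p0_mul va1 hf) (p0_pow hfe 2)))

omit h he hf in
/-- [P4c] the class of `(f, f + 1)` -/
theorem p4c_main (h : Lc2 v o) (hd : v d = 1) (hf : v f ≤ 1) (hde : v (d - (1 + 2 * f)) ≤ v 2 ^ 2)
    {u : C × C × C} (hu : Un v d u) (hs : IsSquare (nm d u)) (hq : CL v d u f (f + 1)) : LocA d u := by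
  have h2 := (two_lt h).1
  have ho := h.ho
  have ho3 : o ^ 3 = 1 := by linear_combination (o - 1) * ho
  have hd0 : d ≠ 0 := by
    rintro rfl
    rw [map_zero] at hd
    exact zero_ne_one hd
  obtain ⟨ρ, hρ, hρ2⟩ := cube_of h hf hde
  obtain ⟨r, hr, hr2⟩ := p4c_div h 2 hρ2
  have hρe : ρ = 1 + 2 * f + 4 * r := by linear_combination hr2
  obtain ⟨g, hg, hc⟩ := hq
  have i2 : (2 : C) ∈ v.integer := h2.le
  have i4 : (4 : C) ∈ v.integer := by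
    have : (4 : C) = 2 * 2 := by norm_num
    rw [this]
    exact mul_mem i2 i2
  have i1 : (1 : C) ∈ v.integer := one_mem _
  have if' : f ∈ v.integer := hf
  have ir : r ∈ v.integer := hr
  have io : o ∈ v.integer := (v_o h).1.le
  have iρ : ρ ∈ v.integer := by
    rw [hρe]
    exact add_mem (add_mem i1 (mul_mem i2 if')) (mul_mem i4 ir)
  have key : ∀ ω : C, ω ^ 2 + ω + 1 = 0 → ω ∈ v.integer → ∃ γ : C, v γ ≤ 1 ∧ ∀ b : C, v b ≤ 1 →
      (v (γ + b * ω) ≤ v 2 ∨ v (γ + b * ω - 1) ≤ v 2) →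
      IsSquare (ev u (ω * ρ) * (1 + 4 * b * (ω * ρ)) * (ω * ρ - ρ)) := by
    intro ω hω iω
    have hωρ : (ω * ρ) ^ 3 = d := root_om hω hρ
    have h3 := p4c_ev hc (show v (ω * ρ) ≤ 1 from mul_mem iω iρ)
    rw [ev_mu hωρ, ev_mu hωρ] at h3
    obtain ⟨s, hs1, hs2⟩ := p4c_div h 2 h3
    refine p4c_one h hω iω hf hr hs1 hρe (G := ev g (ω * ρ)) ?_
    have e1 : ev (1, 2 * f, 2 * (f + 1)) (ω * ρ) = 1 + 2 * f * (ω * ρ) + 2 * (f + 1) * (ω * ρ) ^ 2 := rfl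
    rw [e1] at hs2
    linear_combination hs2
  have ho2 : (o ^ 2) ^ 2 + o ^ 2 + 1 = 0 := by linear_combination o * ho3 + ho
  obtain ⟨γ₁, hγ₁, k₁⟩ := key o ho io
  obtain ⟨γ₂, hγ₂, k₂⟩ := key (o ^ 2) ho2 (pow_mem io 2)
  -- the choice of `b`
  have two_mul_le : ∀ {x y : C}, v x ≤ v 2 → v y ≤ v 2 → v (x + y) ≤ v 2 := fun hx hy => Valuation.map_add_le v hx hy
  have hneg2 : ∀ t : C, t ∈ v.integer → v (2 * t) ≤ v 2 := fun t ht => p4c_two h ht
  have hb : ∃ b : C, (b = 0 ∨ b ^ 3 = 1) ∧ (v (γ₁ + b * o) ≤ v 2 ∨ v (γ₁ + b * o - 1) ≤ v 2) ∧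
      (v (γ₂ + b * o ^ 2) ≤ v 2 ∨ v (γ₂ + b * o ^ 2 - 1) ≤ v 2) := by
    -- auxiliary: `B(γ)` implies `B(γ + 1)`
    have hB1 : ∀ γ : C, (v γ ≤ v 2 ∨ v (γ - 1) ≤ v 2) → (v (γ + 1) ≤ v 2 ∨ v (γ + 1 - 1) ≤ v 2) := by
      rintro γ (h3 | h3)
      · right
        rwa [add_sub_cancel_right]
      · left
        have e1 : γ + 1 = (γ - 1) + 2 * 1 := by ring
        rw [e1]
        exact two_mul_le h3 (hneg2 1 i1)
    -- auxiliary: `γ ≡ o, o²` implies `B(γ + o)` and `B(γ + o²)`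
    have hN1 : ∀ γ : C, (v (γ - o) ≤ v 2 ∨ v (γ - o ^ 2) ≤ v 2) → (v (γ + o) ≤ v 2 ∨ v (γ + o - 1) ≤ v 2) := by
      rintro γ (h3 | h3)
      · left
        have e1 : γ + o = (γ - o) + 2 * o := by ring
        rw [e1]
        exact two_mul_le h3 (hneg2 o io)
      · right
        have e1 : γ + o - 1 = (γ - o ^ 2) + 2 * (-1) := by linear_combination ho
        rw [e1]
        exact two_mul_le h3 (hneg2 _ (neg_mem i1))
    have hN2 : ∀ γ : C, (v (γ - o) ≤ v 2 ∨ v (γ - o ^ 2) ≤ v 2) → (v (γ + o ^ 2) ≤ v 2 ∨ v (γ + o ^ 2 - 1) ≤ v 2) := by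
      rintro γ (h3 | h3)
      · right
        have e1 : γ + o ^ 2 - 1 = (γ - o) + 2 * (-1) := by linear_combination ho
        rw [e1]
        exact two_mul_le h3 (hneg2 _ (neg_mem i1))
      · left
        have e1 : γ + o ^ 2 = (γ - o ^ 2) + 2 * o ^ 2 := by ring
        rw [e1]
        exact two_mul_le h3 (hneg2 _ (pow_mem io 2))
    have hr1 : (v γ₁ ≤ v 2 ∨ v (γ₁ - 1) ≤ v 2) ∨ (v (γ₁ - o) ≤ v 2 ∨ v (γ₁ - o ^ 2) ≤ v 2) := by
      rcases h.res γ₁ hγ₁ with h3 | h3 | h3 | h3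
      · exact Or.inl (Or.inl h3)
      · exact Or.inl (Or.inr h3)
      · exact Or.inr (Or.inl h3)
      · exact Or.inr (Or.inr h3)
    have hr2 : (v γ₂ ≤ v 2 ∨ v (γ₂ - 1) ≤ v 2) ∨ (v (γ₂ - o) ≤ v 2 ∨ v (γ₂ - o ^ 2) ≤ v 2) := by
      rcases h.res γ₂ hγ₂ with h3 | h3 | h3 | h3
      · exact Or.inl (Or.inl h3)
      · exact Or.inl (Or.inr h3)
      · exact Or.inr (Or.inl h3)
      · exact Or.inr (Or.inr h3)
    have ho4 : o ^ 2 * o ^ 2 = o := by linear_combination o * ho3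
    have ho3' : o * o ^ 2 = 1 := by linear_combination ho3
    have ho3'' : o ^ 2 * o = 1 := by linear_combination ho3
    rcases hr1 with a | a <;> rcases hr2 with b | b
    · exact ⟨0, Or.inl rfl, by rwa [zero_mul, add_zero], by rwa [zero_mul, add_zero]⟩
    · refine ⟨o ^ 2, Or.inr ?_, ?_, ?_⟩
      · rw [← pow_mul, mul_comm, pow_mul, ho3, one_pow]
      · rw [ho3'']
        exact hB1 _ a
      · rw [ho4]
        exact hN1 _ b
    · refine ⟨o, Or.inr ho3, ?_, ?_⟩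
      · rw [← pow_two]
        exact hN2 _ a
      · rw [ho3']
        exact hB1 _ b
    · refine ⟨1, Or.inr (one_pow 3), ?_, ?_⟩
      · rw [one_mul]
        exact hN1 _ a
      · rw [one_mul]
        exact hN2 _ b
  obtain ⟨b, hb0, hb1, hb2⟩ := hb
  have ib : v b ≤ 1 := by
    rcases hb0 with rfl | hb0
    · rw [map_zero]
      exact zero_le
    · have h3 : v b ^ 3 = 1 := by rw [← map_pow, hb0, map_one]
      by_contra h4
      push Not at h4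
      have h5 : 1 < v b ^ 3 := one_lt_pow₀ h4 (by norm_num)
      rw [h3] at h5
      exact lt_irrefl _ h5
  have s1 := k₁ b ib hb1
  have s2 := k₂ b ib hb2
  have hu0 : nm d u ≠ 0 := un_ne hu
  -- the norm of `(1, 4 b, 0)`
  have hn1 : nm d (1, 4 * b, 0) = 1 + 64 * b ^ 3 * d := by
    simp only [nm]
    ring
  have i64 : ∀ t : C, t ∈ v.integer → v ((1 + 64 * t) - 1) ≤ v 2 ^ 3 := by
    intro t ht
    have e1 : (1 + 64 * t) - 1 = 2 ^ 3 * (2 ^ 3 * t) := by ring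
    rw [e1, map_mul, map_pow]
    exact mul_le_of_le_one_right' (show v (2 ^ 3 * t) ≤ 1 from mul_mem (pow_mem i2 3) ht)
  have ib3 : b ^ 3 * d ∈ v.integer := mul_mem (pow_mem (show b ∈ v.integer from ib) 3) (show d ∈ v.integer from hd.le)
  have hsq1 : IsSquare (nm d (1, 4 * b, 0)) := by
    rw [hn1, mul_assoc]
    exact sq_of_8 h (i64 _ ib3)
  have hne1 : nm d (1, 4 * b, 0) ≠ 0 := by
    rw [hn1]
    intro h0
    have h3 : v (1 + 64 * b ^ 3 * d) = 1 := by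
      have h4 : v (2 * (32 * (b ^ 3 * d))) < v (1 : C) := by
        rw [map_one]
        have i32 : (32 : C) ∈ v.integer := by
          have : (32 : C) = 2 ^ 5 := by norm_num
          rw [this]
          exact pow_mem i2 5
        exact (p4c_two h (mul_mem i32 ib3)).trans_lt h2
      have e1 : 1 + 64 * b ^ 3 * d = 1 + 2 * (32 * (b ^ 3 * d)) := by ring
      rw [e1, Valuation.map_add_eq_of_lt_left v h4, map_one]
    rw [h0, map_zero] at h3
    exact zero_ne_one h3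
  -- `(1, 4 b, 0)` is a class of a point
  have hl1 : LocA d (1, 4 * b, 0) := by
    rcases hb0 with rfl | hb0
    · left
      refine ⟨(1, 0, 0), ?_⟩
      simp only [mu]
      refine Prod.ext ?_ (Prod.ext ?_ ?_) <;> simp
    · have h4 : IsSquare (1 + 64 * d) := sq_of_8 h (i64 d (show d ∈ v.integer from hd.le))
      obtain ⟨y, hy⟩ := h4
      have hb0' : b ≠ 0 := by
        rintro rfl
        norm_num at hb0
      have h5 : (y / 8) ^ 2 = (b ^ 2 / 4) ^ 3 + d := by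
        have e1 : (b ^ 2 / 4) ^ 3 = 1 / 64 := by
          have : (b ^ 2) ^ 3 = 1 := by rw [← pow_mul, mul_comm, pow_mul, hb0, one_pow]
          rw [div_pow, this]
          norm_num
        rw [e1]
        linear_combination -(1 / 64) * hy
      have h6 := locA_pt h5
      rw [← locA_scalar (show (2 * b ^ 2 : C) ≠ 0 from mul_ne_zero two_ne_zero (pow_ne_zero 2 hb0'))] at h6
      have e2 : ((2 * b ^ 2) ^ 2 * (b ^ 2 / 4, (1 : C), (0 : C)).1, (2 * b ^ 2) ^ 2 * (b ^ 2 / 4, (1 : C), (0 : C)).2.1,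
          (2 * b ^ 2) ^ 2 * (b ^ 2 / 4, (1 : C), (0 : C)).2.2) = ((1 : C), 4 * b, (0 : C)) := by
        refine Prod.ext ?_ (Prod.ext ?_ ?_)
        · show (2 * b ^ 2) ^ 2 * (b ^ 2 / 4) = 1
          linear_combination (b ^ 3 + 1) * hb0
        · show (2 * b ^ 2) ^ 2 * 1 = 4 * b
          linear_combination 4 * b * hb0
        · show (2 * b ^ 2) ^ 2 * 0 = (0 : C)
          ring
      rw [e2] at h6
      exact h6
  -- the product
  refine locA_of_mul (v := (1, 4 * b, 0)) hd0 ho hu0 hs hne1 hsq1 ?_ hl1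
  right
  refine ⟨-ρ, 0, by rw [← hρ]; ring, ?_⟩
  have h3 : (3 : C) ≠ 0 := three_ne_zero
  refine p4c_val h3 hd0 ho hρ fun ρ' hρ' => ?_
  rw [ev_mu hρ', ev_mu hρ', ev_pt]
  have e1 : ev (1, 4 * b, 0) ρ' = 1 + 4 * b * ρ' := by
    simp only [ev]
    ring
  rw [e1]
  rcases root_cases ho hρ hρ' with rfl | rfl | rfl
  · rw [neg_add_cancel, mul_zero]
    exact ⟨0, by ring⟩
  · rw [neg_add_eq_sub]
    exact s1
  · rw [neg_add_eq_sub]
    exact s2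

include hd hde

/-- [P4b] -/
theorem beta_ns (hns : e ≠ 1) {a : C} (ha : a = 1 ∨ a = o ∨ a = o ^ 2) : ∃ X : C, v (X - (1 + 2 * (e ^ 2 + e * f))) ≤ v 2 ^ 2 ∧
    X ^ 3 + d = e ^ 2 ∧ Un v d (X, a, 0) ∧ LocA d (X, a, 0) ∧ nm d (X, a, 0) = e ^ 2 ∧ CL v d (X, a, 0) (a * f) (a ^ 2 * (f + e)) := by
  obtain ⟨he3, hve, he0⟩ := p4_zeta h he
  obtain ⟨ha3, hva, ha0⟩ := p4_zeta h ha
  have hd1 : v d ≤ 1 := hd.le
  have hlt := (two_lt h).1
  have hee : e ^ 2 + e + 1 = 0 := by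
    rcases he with rfl | rfl | rfl
    · exact absurd rfl hns
    · exact h.ho
    · linear_combination (o ^ 2 - o + 1) * h.ho
  have hz : v (e ^ 2 + e * f) ≤ 1 := p4_add (p4_pow1 hve.le 2) (p4_mul1 hve.le hf)
  have hx : v ((e ^ 2 - d) - (1 + 2 * (e ^ 2 + e * f))) ≤ v 2 ^ 2 := by
    have e1 : (e ^ 2 - d) - (1 + 2 * (e ^ 2 + e * f)) = -(d - e * (1 + 2 * f)) - 4 * (e * f) := by linear_combination -hee
    rw [e1]
    exact p4_sub (by rw [Valuation.map_neg]; exact hde) (p4_fourmul h (p4_mul1 hve.le hf))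
  obtain ⟨X, hX3, hX⟩ := cube_of h hz hx
  have hXd : X ^ 3 + d = e ^ 2 := by rw [hX3]; ring
  have hnm : nm d (X, a, 0) = e ^ 2 := by
    simp only [nm]
    linear_combination hXd + d * ha3
  have hvX : v X ≤ 1 := by
    have e1 : X = (X - (1 + 2 * (e ^ 2 + e * f))) + (1 + 2 * (e ^ 2 + e * f)) := by ring
    rw [e1]
    refine p4_add (hX.trans (pow_le_one' hlt.le 2)) (p4_add (map_one v).le ((p4_twomul h hz).trans hlt.le))
  have hUn : Un v d (X, a, 0) := by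
    refine ⟨⟨hvX, hva.le, by rw [map_zero]; exact zero_le_one⟩, ?_⟩
    rw [hnm, map_pow, hve, one_pow]
  have hLoc : LocA d (X, a, 0) := by
    have h1 : LocA d (X / a, 1, 0) := by
      refine locA_pt (x := X / a) (y := e) ?_
      rw [div_pow, ha3, div_one, hXd]
    have h2 := (locA_scalar (d := d) (u := (X / a, 1, 0)) (k := a ^ 2) (pow_ne_zero 2 ha0)).2 h1
    have e1 : ((a ^ 2) ^ 2 * (X / a, (1 : C), (0 : C)).1, (a ^ 2) ^ 2 * (X / a, (1 : C), (0 : C)).2.1,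
        (a ^ 2) ^ 2 * (X / a, (1 : C), (0 : C)).2.2) = (X, a, 0) := by
      simp only [Prod.mk.injEq]
      refine ⟨?_, ?_, ?_⟩
      · have : (a ^ 2) ^ 2 * (X / a) = a ^ 3 * X := by field_simp
        rw [this, ha3, one_mul]
      · linear_combination a * ha3
      · ring
    rw [e1] at h2
    exact h2
  refine ⟨X, hX, hXd, hUn, hLoc, hnm, ?_⟩
  -- the class
  have hde1 : v (d - e) ≤ v 2 := by
    have e1 : d - e = (d - e * (1 + 2 * f)) + 2 * (e * f) := by ring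
    rw [e1]
    exact p4_add (hde.trans (p4_sqle h)) (p4_twomul h (p4_mul1 hve.le hf))
  set k : C × C × C := (1, 0, a ^ 2 * e) with hk
  have hkIn : In v k := ⟨(map_one v).le, by simp only [hk]; rw [map_zero]; exact zero_le_one, p4_mul1 (p4_pow1 hva.le 2) hve.le⟩
  have hknm : nm d k = 1 + d ^ 2 := by
    simp only [hk, nm]
    have e1 : (a ^ 2 * e) ^ 3 = 1 := by
      calc (a ^ 2 * e) ^ 3 = (a ^ 3) ^ 2 * e ^ 3 := by ring
        _ = 1 := by rw [ha3, he3]; ring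
    rw [e1]
    ring
  have hkUn : Un v d k := by
    refine ⟨hkIn, ?_⟩
    rw [hknm]
    have e1 : 1 + d ^ 2 = (d - e) * (d + e) + -e := by linear_combination hee
    rw [e1]
    have e2 : v ((d - e) * (d + e)) < v (-e) := by
      rw [Valuation.map_neg, hve]
      refine lt_of_le_of_lt ?_ hlt
      rw [mul_comm]
      exact p4_mul (p4_add hd1 hve.le) hde1
    rw [Valuation.map_add_eq_of_lt_right _ e2, Valuation.map_neg, hve]
  obtain ⟨g, hgUn, hkg⟩ := un_inv hd1 hkUn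
  refine ⟨g, hgUn, ?_⟩
  set q : C × C × C := (1, 2 * (a * f), 2 * (a ^ 2 * (f + e))) with hq
  have hfe : v (f + e) ≤ 1 := p4_add hf hve.le
  have hβ : Cg v 2 (X, a, 0) (mu d (mu d k k) q) := by
    have hde2 : v (d * e ^ 2 - (1 + 2 * f)) ≤ v 2 ^ 2 := by
      have e1 : d * e ^ 2 - (1 + 2 * f) = e ^ 2 * (d - e * (1 + 2 * f)) := by linear_combination (1 + 2 * f) * he3
      rw [e1]
      exact p4_mul (p4_pow1 hve.le 2) hde
    refine ⟨?_, ?_, ?_⟩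
    · -- first coordinate
      have e1 : (X, a, (0 : C)).1 - (mu d (mu d k k) q).1 = (X - (1 + 2 * (e ^ 2 + e * f))) +
          (((d + e) * (e ^ 2 * (f + e))) * (-(2 * (d - e))) - 4 * (d * (a ^ 3 * (e * f)))) := by
        simp only [hk, hq, mu]
        linear_combination (-2 * d ^ 2 * e ^ 2 * (f + e) * (a ^ 3 + 1)) * ha3 - 2 * e * (f + e) * he3
      rw [e1]
      refine p4_add hX (p4_sub ?_ ?_)
      · exact p4_mul (p4_mul1 (p4_add hd1 hve.le) (p4_mul1 (p4_pow1 hve.le 2) hfe)) (by rw [Valuation.map_neg]; exact p4_22 h hde1)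
      · exact p4_fourmul h (p4_mul1 hd1 (p4_mul1 (p4_pow1 hva.le 3) (p4_mul1 hve.le hf)))
    · have e1 : (X, a, (0 : C)).2.1 - (mu d (mu d k k) q).2.1 = -(a * (d * e ^ 2 - (1 + 2 * f))) - 4 * (a * f) -
          4 * (d * (a ^ 2 * e * (a ^ 2 * (f + e)))) - (d * e ^ 2) * (a * (a ^ 3 - 1)) := by
        simp only [hk, hq, mu]
        ring
      rw [e1, ha3, sub_self, mul_zero, mul_zero, sub_zero]
      refine p4_sub (p4_sub ?_ ?_) ?_
      · rw [Valuation.map_neg]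
        exact p4_mul hva.le hde2
      · exact p4_fourmul h (p4_mul1 hva.le hf)
      · exact p4_fourmul h (p4_mul1 hd1 (p4_mul1 (p4_mul1 (p4_pow1 hva.le 2) hve.le) (p4_mul1 (p4_pow1 hva.le 2) hfe)))
    · have e1 : (X, a, (0 : C)).2.2 - (mu d (mu d k k) q).2.2 = -(4 * (a ^ 2 * (f + e))) -
          2 * (a ^ 2 * f * (d * e ^ 2 - 1)) - 2 * (d * e ^ 2 * (a ^ 2 * f * (a ^ 3 - 1))) := by
        simp only [hk, hq, mu]
        ring
      rw [e1, ha3, sub_self, mul_zero, mul_zero, mul_zero, sub_zero]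
      refine p4_sub ?_ ?_
      · rw [Valuation.map_neg]
        exact p4_fourmul h (p4_mul1 (p4_pow1 hva.le 2) hfe)
      · refine p4_22 h (p4_mul (p4_mul1 (p4_pow1 hva.le 2) hf) ?_)
        have e3 : d * e ^ 2 - 1 = (d * e ^ 2 - (1 + 2 * f)) + 2 * f := by ring
        rw [e3]
        exact p4_add (hde2.trans (p4_sqle h)) (p4_twomul h hf)
  have hfin := cg_mu h hd1 hβ (cg_refl 2 (mu d g g)) hUn.1 (in_mu hd1 hgUn.1 hgUn.1)
  have e1 : mu d (mu d (mu d k k) q) (mu d g g) = q := by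
    have e2 : mu d (mu d k k) (mu d g g) = (1, 0, 0) := by
      calc mu d (mu d k k) (mu d g g) = mu d k (mu d k (mu d g g)) := mu_assoc _ _ _ _
        _ = mu d k (mu d (mu d k g) g) := by rw [← mu_assoc d k g g]
        _ = (1, 0, 0) := by rw [hkg, (mu_one (d := d) g).2, hkg]
    calc mu d (mu d (mu d k k) q) (mu d g g) = mu d (mu d q (mu d k k)) (mu d g g) := by rw [mu_comm d (mu d k k) q]
      _ = mu d q (mu d (mu d k k) (mu d g g)) := mu_assoc _ _ _ _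
      _ = q := by rw [e2, (mu_one (d := d) q).1]
  rw [e1] at hfin
  exact hfin

/-- [P4b] -/
theorem conv_ns (hns : e ≠ 1) {u : C × C × C} (hu : Un v d u) (hs : IsSquare (nm d u)) {q₁ q₂ : C} (h1 : v q₁ ≤ 1) (h2 : v q₂ ≤ 1)
    (hq : CL v d u q₁ q₂) (hl : v (q₁ * (f + e) ^ 2 + q₂ ^ 2 * f) ≤ v 2) : LocA d u := by
  obtain ⟨he3, hve, he0⟩ := p4_zeta h he
  have hd0 : d ≠ 0 := by
    rintro rfl
    rw [map_zero] at hd
    exact zero_ne_one hd
  obtain ⟨a, ha, ha1, ha2⟩ := (lam_iff h he hf h1 h2).1 hl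
  rcases ha with ha | ha
  · rw [ha, zero_mul, sub_zero] at ha1
    rw [ha, zero_pow two_ne_zero, zero_mul, sub_zero] at ha2
    exact (cl_zero h hd hu hs ha1 ha2 hq).1
  · obtain ⟨ha3, hva, ha0⟩ := p4_zeta h ha
    obtain ⟨X, -, -, hUn, hLoc, hnm, hCL⟩ := beta_ns h hd he hf hde hns ha
    have hfe : v (f + e) ≤ 1 := p4_add hf hve.le
    have haf : v (a * f) ≤ 1 := p4_mul1 hva.le hf
    have haf2 : v (a ^ 2 * (f + e)) ≤ 1 := p4_mul1 (p4_pow1 hva.le 2) hfe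
    have hmul := cl_mul h hd hu hUn h1 h2 haf haf2 hq hCL
    have hs' : IsSquare (nm d (X, a, 0)) := ⟨e, by rw [hnm, sq]⟩
    have b1 : v (q₁ + a * f) ≤ v 2 := by
      have e1 : q₁ + a * f = (q₁ - a * f) + 2 * (a * f) := by ring
      rw [e1]
      exact p4_add ha1 (p4_twomul h haf)
    have b2 : v (q₂ + a ^ 2 * (f + e)) ≤ v 2 := by
      have e1 : q₂ + a ^ 2 * (f + e) = (q₂ - a ^ 2 * (f + e)) + 2 * (a ^ 2 * (f + e)) := by ring
      rw [e1]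
      exact p4_add ha2 (p4_twomul h haf2)
    have hL := (cl_zero h hd (un_mu hd.le hu hUn) (by rw [nm_mu]; exact hs.mul hs') b1 b2 hmul).1
    exact locA_of_mul hd0 h.ho (un_ne hu) hs (un_ne hUn) hs' hL hLoc

/-- [P4c] -/
theorem conv_sp (hsp : e = 1) {u : C × C × C} (hu : Un v d u) (hs : IsSquare (nm d u)) {q₁ q₂ : C} (h1 : v q₁ ≤ 1) (h2 : v q₂ ≤ 1)
    (hq : CL v d u q₁ q₂) (hl : v (q₁ * (f + e) ^ 2 + q₂ ^ 2 * f) ≤ v 2) : LocA d u := by
  obtain ⟨a, ha, ha1, ha2⟩ := (lam_iff h he hf h1 h2).1 hl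
  subst hsp
  rw [one_mul] at hde
  have ho := h.ho
  have ho3 : o ^ 3 = 1 := by linear_combination (o - 1) * ho
  have hq' : CL v d u (a * f) (a ^ 2 * (f + 1)) := cl_congr h hq ha1 ha2
  have i1 : (1 : C) ∈ v.integer := one_mem _
  have if' : f ∈ v.integer := hf
  have io : o ∈ v.integer := (v_o h).1.le
  -- the automorphism
  have hnm : ∀ u : C × C × C, nm d (u.1, o * u.2.1, o ^ 2 * u.2.2) = nm d u := by
    intro u
    simp only [nm]
    linear_combination (d * u.2.1 ^ 3 + d ^ 2 * u.2.2 ^ 3 * (o ^ 3 + 1) - 3 * d * u.1 * u.2.1 * u.2.2) * ho3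
  have hun : ∀ u : C × C × C, Un v d u → Un v d (u.1, o * u.2.1, o ^ 2 * u.2.2) := by
    rintro u ⟨⟨b1, b2, b3⟩, b4⟩
    refine ⟨⟨b1, ?_, ?_⟩, ?_⟩
    · show o * u.2.1 ∈ v.integer
      exact mul_mem io b2
    · show o ^ 2 * u.2.2 ∈ v.integer
      exact mul_mem (pow_mem io 2) b3
    · rw [hnm]
      exact b4
  rcases ha with ha | ha | ha | ha <;> rw [ha] at hq'
  · refine (cl_zero h hd hu hs (q₁ := 0) (q₂ := 0) ?_ ?_ ?_).1
    · rw [map_zero]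
      exact zero_le
    · rw [map_zero]
      exact zero_le
    · have e1 : (0 : C) * f = 0 := zero_mul f
      have e2 : (0 : C) ^ 2 * (f + 1) = 0 := by ring
      rwa [e1, e2] at hq'
  · rw [one_mul, one_pow, one_mul] at hq'
    exact p4c_main h hd hf hde hu hs hq'
  · -- `a = o`: apply the automorphism twice
    have c1 := cl_sig h hd (cl_sig h hd hq')
    have e1 : o * (o * (o * f)) = f := by linear_combination f * ho3
    have e2 : o ^ 2 * (o ^ 2 * (o ^ 2 * (f + 1))) = f + 1 := by linear_combination (f + 1) * (o ^ 3 + 1) * ho3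
    rw [e1, e2] at c1
    have c2 := p4c_main h hd hf hde (hun _ (hun _ hu)) (by rw [hnm, hnm]; exact hs) c1
    have c3 := locA_sig ho c2
    have e3 : (u.1, o * (o * (o * u.2.1)), o ^ 2 * (o ^ 2 * (o ^ 2 * u.2.2))) = u := by
      refine Prod.ext rfl (Prod.ext ?_ ?_)
      · show o * (o * (o * u.2.1)) = u.2.1
        linear_combination u.2.1 * ho3
      · show o ^ 2 * (o ^ 2 * (o ^ 2 * u.2.2)) = u.2.2
        linear_combination u.2.2 * (o ^ 3 + 1) * ho3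
    exact e3 ▸ c3
  · have c1 := cl_sig h hd hq'
    have e1 : o * (o ^ 2 * f) = f := by linear_combination f * ho3
    have e2 : o ^ 2 * ((o ^ 2) ^ 2 * (f + 1)) = f + 1 := by linear_combination (f + 1) * (o ^ 3 + 1) * ho3
    rw [e1, e2] at c1
    have c2 := p4c_main h hd hf hde (hun _ hu) (by rw [hnm]; exact hs) c1
    have c3 := locA_sig ho (locA_sig ho c2)
    have e3 : (u.1, o * (o * (o * u.2.1)), o ^ 2 * (o ^ 2 * (o ^ 2 * u.2.2))) = u := by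
      refine Prod.ext rfl (Prod.ext ?_ ?_)
      · show o * (o * (o * u.2.1)) = u.2.1
        linear_combination u.2.1 * ho3
      · show o ^ 2 * (o ^ 2 * (o ^ 2 * u.2.2)) = u.2.2
        linear_combination u.2.2 * (o ^ 3 + 1) * ho3
    exact e3 ▸ c3

/-- [P4d] -/
theorem dir_big {u g : C × C × C} (hu : Un v d u) (hs : IsSquare (nm d u)) {q₁ q₂ : C} (h1 : v q₁ ≤ 1) (h2 : v q₂ ≤ 1)
    (hq : CL v d u q₁ q₂) {x y : C} (hy : y ^ 2 = x ^ 3 + d) (hx : 1 < v x) (hg : mu d u (x, 1, 0) = mu d g g) :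
    v (q₁ * (f + e) ^ 2 + q₂ ^ 2 * f) ≤ v 2 := by
  obtain ⟨he3, hve, he0⟩ := p4_zeta h he
  have hx0 : v x ≠ 0 := by
    intro h0
    rw [h0] at hx
    exact absurd hx (not_lt.2 zero_le_one)
  have hx3 : 1 < v (x ^ 3) := by
    rw [map_pow]
    exact one_lt_pow₀ hx (by norm_num)
  have hvy : v y ^ 2 = v x ^ 3 := by
    rw [← map_pow, ← map_pow, hy]
    refine Valuation.map_add_eq_of_lt_left _ ?_
    rw [hd]
    exact hx3
  have hy0 : v y ≠ 0 := by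
    intro h0
    rw [h0, zero_pow two_ne_zero] at hvy
    exact pow_ne_zero 3 hx0 hvy.symm
  obtain ⟨n, hn⟩ : ∃ n : ℤ, v x = WithZero.exp n := ⟨WithZero.log (v x), (WithZero.exp_log hx0).symm⟩
  obtain ⟨m, hm⟩ : ∃ m : ℤ, v y = WithZero.exp m := ⟨WithZero.log (v y), (WithZero.exp_log hy0).symm⟩
  have hnm : 2 * m = 3 * n := by
    rw [hn, hm, ← WithZero.exp_nsmul, ← WithZero.exp_nsmul, WithZero.exp_inj, nsmul_eq_mul, nsmul_eq_mul] at hvy
    exact_mod_cast hvy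
  have hn0 : 0 < n := by
    rw [hn, ← WithZero.exp_zero, WithZero.exp_lt_exp] at hx
    exact hx
  obtain ⟨K, hK⟩ : ∃ K : ℕ, n = 2 * (K : ℤ) := ⟨(n / 2).toNat, by omega⟩
  have hmK : m = 3 * (K : ℤ) := by omega
  have hK0 : 0 < K := by omega
  set c : C := 2 ^ K with hc
  have hvc : v c = WithZero.exp (-(K : ℤ)) := by
    rw [hc, map_pow, h.two, ← WithZero.exp_nsmul, nsmul_eq_mul]
    congr 1
    ring
  have hc0 : c ≠ 0 := by
    rw [hc]
    exact pow_ne_zero _ two_ne_zero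
  have hvx' : v (c ^ 2 * x) = 1 := by
    rw [map_mul, map_pow, hvc, hn, ← WithZero.exp_nsmul, ← WithZero.exp_add, ← WithZero.exp_zero, WithZero.exp_inj, nsmul_eq_mul, hK]
    push_cast
    ring
  have hvy' : v (c ^ 3 * y) = 1 := by
    rw [map_mul, map_pow, hvc, hm, ← WithZero.exp_nsmul, ← WithZero.exp_add, ← WithZero.exp_zero, WithZero.exp_inj, nsmul_eq_mul, hmK]
    push_cast
    ring
  have hx'0 : c ^ 2 * x ≠ 0 := by
    intro h0
    rw [h0, map_zero] at hvx'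
    exact zero_ne_one hvx'
  have hy'0 : c ^ 3 * y ≠ 0 := by
    intro h0
    rw [h0, map_zero] at hvy'
    exact zero_ne_one hvy'
  have hxne : x ≠ 0 := right_ne_zero_of_mul hx'0
  have hyne : y ≠ 0 := right_ne_zero_of_mul hy'0
  have hsq : IsSquare (1 - c ^ 6 * d / (c ^ 3 * y) ^ 2) := by
    refine sq_of_8 h ?_
    have e1 : 1 - c ^ 6 * d / (c ^ 3 * y) ^ 2 - 1 = -(c ^ 6 * d / (c ^ 3 * y) ^ 2) := by ring
    rw [e1, Valuation.map_neg, map_div₀, map_mul, hd, map_pow v (c ^ 3 * y), hvy', one_pow, div_one, mul_one, map_pow, hvc, h.two,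
      ← WithZero.exp_nsmul, ← WithZero.exp_nsmul, WithZero.exp_le_exp, nsmul_eq_mul, nsmul_eq_mul]
    push_cast
    omega
  obtain ⟨t, ht⟩ := hsq
  set F : C := c ^ 3 * y / (c ^ 2 * x) * t with hF
  have hF2 : F ^ 2 = c ^ 2 * x := by
    have e1 : F ^ 2 = (c ^ 3 * y / (c ^ 2 * x)) ^ 2 * (t * t) := by rw [hF]; ring
    rw [e1, ← ht]
    field_simp
    linear_combination hy
  have hvF : v F = 1 := by
    apply p4_sq1
    rw [← map_pow, hF2, hvx']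
  have hF0 : F ≠ 0 := by
    intro h0
    rw [h0, map_zero] at hvF
    exact zero_ne_one hvF
  have hvc1 : v c ≤ 1 := by
    rw [hvc, ← WithZero.exp_zero, WithZero.exp_le_exp]
    omega
  have hUw : Un v d (F ^ 2, c ^ 2, 0) := by
    refine ⟨⟨p4_pow1 hvF.le 2, p4_pow1 hvc1 2, by rw [map_zero]; exact zero_le_one⟩, ?_⟩
    have e1 : nm d (F ^ 2, c ^ 2, 0) = (c ^ 3 * y) ^ 2 := by
      simp only [nm]
      rw [hF2]
      linear_combination -(c ^ 6) * hy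
    rw [e1, map_pow, hvy', one_pow]
  have hCw : CL v d (F ^ 2, c ^ 2, 0) 0 0 := by
    refine ⟨(1 / F, 0, 0), ⟨⟨by simp only [map_div₀, map_one, hvF]; norm_num, by simp only [map_zero]; exact zero_le_one,
      by simp only [map_zero]; exact zero_le_one⟩, ?_⟩, ?_⟩
    · simp only [nm]
      have e1 : (1 / F) ^ 3 + d * 0 ^ 3 + d ^ 2 * 0 ^ 3 - 3 * d * (1 / F) * 0 * 0 = (1 / F) ^ 3 := by ring
      rw [e1, map_pow, map_div₀, map_one, hvF]
      norm_num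
    · have e1 : mu d (F ^ 2, c ^ 2, 0) (mu d (1 / F, 0, 0) (1 / F, 0, 0)) = (1, c ^ 2 / F ^ 2, 0) := by
        simp only [mu, Prod.mk.injEq]
        refine ⟨?_, ?_, ?_⟩
        · field_simp
          ring
        · field_simp
          ring
        · ring
      rw [e1]
      refine ⟨?_, ?_, ?_⟩
      · simp only [sub_self, map_zero]
        exact zero_le
      · simp only [mul_zero, sub_zero]
        rw [map_div₀, map_pow v c, map_pow v F, hvF, one_pow, div_one, hvc, h.two, ← WithZero.exp_nsmul, ← WithZero.exp_nsmul,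
          WithZero.exp_le_exp, nsmul_eq_mul, nsmul_eq_mul]
        push_cast
        omega
      · simp only [mul_zero, sub_zero, map_zero]
        exact zero_le
  have hsqw : mu d u (F ^ 2, c ^ 2, 0) = mu d (c * g.1, c * g.2.1, c * g.2.2) (c * g.1, c * g.2.1, c * g.2.2) := by
    rw [hF2]
    simp only [mu, Prod.mk.injEq] at hg ⊢
    obtain ⟨g1, g2, g3⟩ := hg
    refine ⟨?_, ?_, ?_⟩
    · linear_combination c ^ 2 * g1
    · linear_combination c ^ 2 * g2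
    · linear_combination c ^ 2 * g3
  have hz : v (0 : C) ≤ 1 := by rw [map_zero]; exact zero_le_one
  have hCu := cl_of_sq h hd hu hUw hsqw hz hz hCw
  obtain ⟨k1, k2⟩ := cl_unique h hd hu h1 h2 hz hz hq hCu
  rw [sub_zero] at k1 k2
  have hfe : v (f + e) ≤ 1 := p4_add hf hve.le
  refine p4_add ?_ ?_
  · rw [mul_comm]
    exact p4_mul (p4_pow1 hfe 2) k1
  · have e1 : q₂ ^ 2 * f = (q₂ * f) * q₂ := by ring
    rw [e1]
    exact p4_mul (p4_mul1 h2 hf) k2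

/-- [P4d] -/
theorem dir_zero {u g : C × C × C} (hu : Un v d u) (hs : IsSquare (nm d u)) {q₁ q₂ : C} (h1 : v q₁ ≤ 1) (h2 : v q₂ ≤ 1)
    (hq : CL v d u q₁ q₂) {x y : C} (hy : y ^ 2 = x ^ 3 + d) (hx : v x ≤ v 2) (hg : mu d u (x, 1, 0) = mu d g g) :
    v (q₁ * (f + e) ^ 2 + q₂ ^ 2 * f) ≤ v 2 := by
  obtain ⟨he3, hve, he0⟩ := p4_zeta h he
  have hlt := (two_lt h).1
  have h20 := (two_lt h).2
  have hx1 : v (x / 2) ≤ 1 := by
    rw [map_div₀]
    exact div_le_one_of_le₀ hx zero_le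
  have hxle : v x ≤ 1 := hx.trans hlt.le
  have hvy : v y = 1 := by
    apply p4_sq1
    rw [← map_pow, hy]
    have e1 : v (x ^ 3) < v d := by
      rw [hd, map_pow]
      exact lt_of_le_of_lt (pow_le_pow_left' hx 3) (pow_lt_one₀ zero_le hlt (by norm_num))
    rw [Valuation.map_add_eq_of_lt_right _ e1, hd]
  have hy0 : y ≠ 0 := by
    rintro rfl
    rw [map_zero] at hvy
    exact zero_ne_one hvy
  have hd0 : d ≠ 0 := by
    intro h0
    rw [h0, map_zero] at hd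
    exact zero_ne_one hd
  have hdsq : IsSquare d := by
    have e1 : IsSquare (1 - 8 * (x / 2) ^ 3 / y ^ 2) := by
      refine sq_of_8 h ?_
      have e2 : 1 - 8 * (x / 2) ^ 3 / y ^ 2 - 1 = -((x / 2) ^ 3 / y ^ 2 * 8) := by ring
      rw [e2, Valuation.map_neg]
      have e3 : v (8 : C) = v 2 ^ 3 := by
        have : (8 : C) = 2 ^ 3 := by norm_num
        rw [this, map_pow]
      rw [← e3]
      refine p4_mul ?_ le_rfl
      rw [map_div₀, map_pow, map_pow, hvy, one_pow, div_one]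
      exact pow_le_one' hx1 3
    obtain ⟨t, ht⟩ := e1
    refine ⟨y * t, ?_⟩
    have e4 : y * t * (y * t) = y ^ 2 * (t * t) := by ring
    rw [e4, ← ht]
    field_simp
    linear_combination -8 * hy
  obtain ⟨ζ, hζ, hdζ⟩ := sq_unit4 h hdsq hd
  have hζ' : ζ ^ 2 = 1 ∨ ζ ^ 2 = o ∨ ζ ^ 2 = o ^ 2 := by
    rcases hζ with rfl | rfl | rfl
    · left; norm_num
    · right; right; rfl
    · right; left
      linear_combination o * p4_o3 h
  have hfz : v f ≤ v 2 := by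
    have e1 : ζ ^ 2 = e := by
      refine p4_zeta_eq h hζ' he ?_
      have e2 : ζ ^ 2 - e = -(d - ζ ^ 2) + (d - e * (1 + 2 * f)) + 2 * (e * f) := by ring
      rw [e2]
      refine p4_add (p4_add ?_ (hde.trans (p4_sqle h))) (p4_twomul h (p4_mul1 hve.le hf))
      rw [Valuation.map_neg]
      exact hdζ.trans (p4_sqle h)
    rw [e1] at hdζ
    have e3 : 2 * (e * f) = (d - e) - (d - e * (1 + 2 * f)) := by ring
    have e4 : v (2 * (e * f)) ≤ v 2 ^ 2 := by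
      rw [e3]
      exact p4_sub hdζ hde
    have e5 := p4_half h e4
    rwa [map_mul, hve, one_mul] at e5
  obtain ⟨y', hy'⟩ := hdsq
  have hvy' : v y' = 1 := by
    apply p4_sq1
    rw [sq, ← map_mul, ← hy', hd]
  have hy'0 : y' ≠ 0 := by
    rintro rfl
    rw [map_zero] at hvy'
    exact zero_ne_one hvy'
  have hUw : Un v d (x, 1, 0) := by
    refine ⟨⟨hxle, (map_one v).le, by rw [map_zero]; exact zero_le_one⟩, ?_⟩
    rw [nm_pt, ← hy, map_pow, hvy, one_pow]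
  have hCw : CL v d (x, 1, 0) 0 (x / 2 / d) := by
    refine ⟨(0, 1 / y', 0), ⟨⟨by simp only [map_zero]; exact zero_le_one, by simp only [map_div₀, map_one, hvy']; norm_num,
      by simp only [map_zero]; exact zero_le_one⟩, ?_⟩, ?_⟩
    · simp only [nm]
      have e1 : (0 : C) ^ 3 + d * (1 / y') ^ 3 + d ^ 2 * 0 ^ 3 - 3 * d * 0 * (1 / y') * 0 = d * (1 / y') ^ 3 := by ring
      rw [e1, map_mul, hd, map_pow, map_div₀, map_one, hvy']
      norm_num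
    · have e1 : mu d (x, 1, 0) (mu d (0, 1 / y', 0) (0, 1 / y', 0)) = (1, 0, x / d) := by
        simp only [mu, Prod.mk.injEq]
        refine ⟨?_, ?_, ?_⟩
        · rw [hy']
          field_simp
          ring
        · ring
        · rw [hy']
          field_simp
          ring
      rw [e1]
      refine ⟨?_, ?_, ?_⟩
      · simp only [sub_self, map_zero]
        exact zero_le
      · simp only [mul_zero, sub_zero, map_zero]
        exact zero_le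
      · have e2 : x / d - 2 * (x / 2 / d) = 0 := by
          field_simp
          ring
        simp only [e2, map_zero]
        exact zero_le
  have hz : v (0 : C) ≤ 1 := by rw [map_zero]; exact zero_le_one
  have hxd : v (x / 2 / d) ≤ 1 := by
    rw [map_div₀, hd, div_one]
    exact hx1
  have hCu := cl_of_sq h hd hu hUw hg hz hxd hCw
  obtain ⟨k1, -⟩ := cl_unique h hd hu h1 h2 hz hxd hq hCu
  rw [sub_zero] at k1
  have hfe : v (f + e) ≤ 1 := p4_add hf hve.le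
  refine p4_add ?_ ?_
  · rw [mul_comm]
    exact p4_mul (p4_pow1 hfe 2) k1
  · exact p4_mul (p4_pow1 h2 2) hfz

/-- [P4e] -/
theorem dir_unit_ns (hns : e ≠ 1) {u g : C × C × C} (hu : Un v d u) (hs : IsSquare (nm d u)) {q₁ q₂ : C} (h1 : v q₁ ≤ 1) (h2 : v q₂ ≤ 1)
    (hq : CL v d u q₁ q₂) {x y : C} (hy : y ^ 2 = x ^ 3 + d) (hx : v x = 1) (hg : mu d u (x, 1, 0) = mu d g g) :
    v (q₁ * (f + e) ^ 2 + q₂ ^ 2 * f) ≤ v 2 := by
  have h21 : v (2 : C) < 1 := (two_lt h).1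
  have ho3 : o ^ 3 = 1 := by linear_combination (o - 1) * h.ho
  have hvo : v o = 1 := (v_o h).1
  have heu : v e = 1 ∧ e ^ 3 = 1 ∧ 1 + e + e ^ 2 = 0 := by
    rcases he with he | he | he
    · exact absurd he hns
    · rw [he]
      exact ⟨hvo, ho3, by linear_combination h.ho⟩
    · rw [he]
      refine ⟨by rw [map_pow, hvo, one_pow], by rw [← pow_mul, mul_comm, pow_mul, ho3, one_pow], ?_⟩
      linear_combination (o ^ 2 - o + 1) * h.ho
  obtain ⟨hve, he3, he0⟩ := heu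
  -- the cube root of unity
  obtain ⟨ζ, hζ3, hζ, hxζ⟩ := exists_zeta h hx
  set a : C := ζ ^ 2 with ha
  have ha3 : a ^ 3 = 1 := by rw [ha, ← pow_mul, mul_comm, pow_mul, hζ3, one_pow]
  have hacase : a = 1 ∨ a = o ∨ a = o ^ 2 := by
    rcases hζ with hζ | hζ | hζ
    · exact Or.inl (by rw [ha, hζ, one_pow])
    · exact Or.inr (Or.inr (by rw [ha, hζ]))
    · refine Or.inr (Or.inl ?_)
      rw [ha, hζ]
      linear_combination o * ho3
  have hva : v a = 1 := by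
    rcases hacase with h3 | h3 | h3
    · rw [h3, map_one]
    · rw [h3, hvo]
    · rw [h3, map_pow, hvo, one_pow]
  obtain ⟨t, ht⟩ := P2c_dv1 h hxζ
  let A : v.integer := ⟨a, hva.le⟩
  let E : v.integer := ⟨e, hve.le⟩
  let F : v.integer := ⟨f, hf⟩
  let D : v.integer := ⟨d, hd.le⟩
  obtain ⟨δ, hδ⟩ := P2c_dv h 2 hde
  -- X = a x = 1 + 2 z
  set z : C := a * (t : C) with hz
  let Z : v.integer := A * t
  have hZ : (Z : C) = z := rfl
  have hX : a * x = 1 + 2 * z := by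
    have e1 : x = ζ + 2 * (t : C) := by linear_combination ht
    rw [hz, e1]
    have e2 : a * ζ = 1 := by rw [ha]; linear_combination hζ3
    linear_combination e2
  have hy2 : y ^ 2 = (1 + 2 * z) ^ 3 + d := by
    rw [hy, ← hX, mul_pow, ha3, one_mul]
  -- y² mod 4
  have hy3 : y ^ 2 = 1 + e + 2 * ((E * F + 2 * δ + 3 * Z + 6 * Z ^ 2 + 4 * Z ^ 3 : v.integer) : C) := by
    push_cast
    show y ^ 2 = 1 + e + 2 * (e * f + 2 * (δ : C) + 3 * z + 6 * z ^ 2 + 4 * z ^ 3)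
    rw [hy2]
    linear_combination hδ
  have hve1 : v (1 + e) = 1 := by
    have e1 : 1 + e = -e ^ 2 := by linear_combination he0
    rw [e1, Valuation.map_neg, map_pow, hve, one_pow]
  have hvy : v (y ^ 2) = 1 := by
    rw [hy3]
    exact P2c_unit h hve1 (P2c_le1 h _)
  obtain ⟨η, hη, hyη⟩ := sq_unit4 h ⟨y, sq y⟩ hvy
  obtain ⟨s, hs'⟩ := P2c_dv h 2 hyη
  have hη2 : η ^ 2 = e ^ 2 := by
    have hcases : ∀ b : C, (b = 1 ∨ b = o ∨ b = o ^ 2) → v (b ^ 2 - e ^ 2) ≤ v 2 → b ^ 2 = e ^ 2 := by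
      intro b hb hbe
      by_contra hne
      have hb3 : b ^ 3 = 1 := by
        rcases hb with hb | hb | hb
        · rw [hb, one_pow]
        · rw [hb, ho3]
        · rw [hb, ← pow_mul, mul_comm, pow_mul, ho3, one_pow]
      have hvb : v b = 1 := by
        rcases hb with h3 | h3 | h3
        · rw [h3, map_one]
        · rw [h3, hvo]
        · rw [h3, map_pow, hvo, one_pow]
      -- (b² - e²) is a unit: its cube-root structure: x² + x y + y² = 0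
      have e1 : (b ^ 2) ^ 3 = 1 := by rw [← pow_mul, mul_comm, pow_mul, hb3, one_pow]
      have e2 : (e ^ 2) ^ 3 = 1 := by rw [← pow_mul, mul_comm, pow_mul, he3, one_pow]
      have e3 : (b ^ 2 - e ^ 2) * ((b ^ 2) ^ 2 + b ^ 2 * e ^ 2 + (e ^ 2) ^ 2) = 0 := by
        linear_combination e1 - e2
      have e4 : (b ^ 2) ^ 2 + b ^ 2 * e ^ 2 + (e ^ 2) ^ 2 = 0 :=
        (mul_eq_zero.1 e3).resolve_left (sub_ne_zero.2 hne)
      have e5 : (b ^ 2 - e ^ 2) ^ 2 = -3 * (b ^ 2 * e ^ 2) := by linear_combination e4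
      have e6 : v (b ^ 2 - e ^ 2) ^ 2 = 1 := by
        rw [← map_pow, e5, map_mul, Valuation.map_neg, (v_o h).2.1, map_mul, map_pow, map_pow, hvb, hve]
        norm_num
      have e7 : v (b ^ 2 - e ^ 2) = 1 := (pow_eq_one_iff_of_nonneg zero_le two_ne_zero).1 e6
      rw [e7] at hbe
      exact absurd h21 (not_lt.2 hbe)
    refine hcases η hη ?_
    have e1 : η ^ 2 - e ^ 2 =
        2 * ((-2 * s - E ^ 2 + (E * F + 2 * δ + 3 * Z + 6 * Z ^ 2 + 4 * Z ^ 3) : v.integer) : C) := by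
      push_cast
      show η ^ 2 - e ^ 2 = 2 * (-2 * (s : C) - e ^ 2 + (e * f + 2 * (δ : C) + 3 * z + 6 * z ^ 2 + 4 * z ^ 3))
      push_cast at hy3
      have hy4 : y ^ 2 = 1 + e + 2 * (e * f + 2 * (δ : C) + 3 * z + 6 * z ^ 2 + 4 * z ^ 3) := hy3
      linear_combination hy4 - hs' + he0
    rw [e1]
    exact P2c_le1 h _
  -- X mod 4
  have hXm : v (a * x - (1 + 2 * (e ^ 2 + e * f))) ≤ v 2 ^ 2 := by
    have e1 : a * x - (1 + 2 * (e ^ 2 + e * f)) =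
        2 ^ 2 * ((s - E * F - δ - Z - 3 * Z ^ 2 - 2 * Z ^ 3 : v.integer) : C) := by
      push_cast
      show a * x - (1 + 2 * (e ^ 2 + e * f)) =
        2 ^ 2 * ((s : C) - e * f - (δ : C) - z - 3 * z ^ 2 - 2 * z ^ 3)
      rw [hX]
      rw [hη2] at hs'
      linear_combination hs' - hy2 - hδ - he0
    rw [e1]
    exact P2c_le h 2 _
  obtain ⟨X₀, hX₀, -, hun, -, -, hcl⟩ := beta_ns h hd he hf hde hns hacase
  have hcg : Cg v 2 (a * x, a, 0) (X₀, a, 0) := by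
    refine ⟨?_, ?_, ?_⟩
    · have e1 : a * x - X₀ = (a * x - (1 + 2 * (e ^ 2 + e * f))) - (X₀ - (1 + 2 * (e ^ 2 + e * f))) := by ring
      show v (a * x - X₀) ≤ v 2 ^ 2
      rw [e1]
      exact Valuation.map_sub_le v hXm hX₀
    · show v (a - a) ≤ v 2 ^ 2
      rw [sub_self, map_zero]
      exact zero_le
    · show v ((0 : C) - 0) ≤ v 2 ^ 2
      rw [sub_self, map_zero]
      exact zero_le
  have hunX : Un v d (a * x, a, 0) := un_cg h hd.le (by norm_num : 0 < 2) hcg hun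
  have hclX : CL v d (a * x, a, 0) (a * f) (a ^ 2 * (f + e)) := by
    obtain ⟨k, hk, hkc⟩ := hcl
    refine ⟨k, hk, cg_trans (cg_mu h hd.le hcg (cg_refl (v := v) 2 _) hunX.1 (un_mu hd.le hk hk).1) hkc⟩
  have hgX : mu d u (a * x, a, 0) = mu d (a ^ 2 * g.1, a ^ 2 * g.2.1, a ^ 2 * g.2.2)
      (a ^ 2 * g.1, a ^ 2 * g.2.1, a ^ 2 * g.2.2) := by
    have c1 := congrArg (fun z : C × C × C => z.1) hg
    have c2 := congrArg (fun z : C × C × C => z.2.1) hg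
    have c3 := congrArg (fun z : C × C × C => z.2.2) hg
    simp only [mu] at c1 c2 c3
    have e4 : a ^ 4 = a := by linear_combination a * ha3
    refine Prod.ext ?_ (Prod.ext ?_ ?_)
    · simp only [mu]
      linear_combination a * c1 - (g.1 * g.1 + d * (g.2.1 * g.2.2 + g.2.2 * g.2.1)) * e4
    · simp only [mu]
      linear_combination a * c2 - (g.1 * g.2.1 + g.2.1 * g.1 + d * g.2.2 * g.2.2) * e4
    · simp only [mu]
      linear_combination a * c3 - (g.1 * g.2.2 + g.2.1 * g.2.1 + g.2.2 * g.1) * e4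
  have hia : v (a * f) ≤ 1 := (A * F).2
  have hib : v (a ^ 2 * (f + e)) ≤ 1 := by
    rw [map_mul, map_pow, hva, one_pow, one_mul]
    exact Valuation.map_add_le v hf hve.le
  have hclu := cl_of_sq h hd hu hunX hgX hia hib hclX
  obtain ⟨r1, r2⟩ := cl_unique h hd hu h1 h2 hia hib hq hclu
  refine (lam_iff h he hf h1 h2).2 ⟨a, Or.inr hacase, r1, r2⟩

/-- [P4e'] -/
theorem dir_unit_sp (hsp : e = 1) {u g : C × C × C} (hu : Un v d u) (hs : IsSquare (nm d u)) {q₁ q₂ : C} (h1 : v q₁ ≤ 1) (h2 : v q₂ ≤ 1)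
    (hq : CL v d u q₁ q₂) {x y : C} (hy : y ^ 2 = x ^ 3 + d) (hx : v x = 1) (hg : mu d u (x, 1, 0) = mu d g g) :
    v (q₁ * (f + e) ^ 2 + q₂ ^ 2 * f) ≤ v 2 := by
  subst hsp
  have ho := h.ho
  have ho3 : o ^ 3 = 1 := by linear_combination (o - 1) * ho
  have vo := (v_o h).1
  have h2l := (two_lt h).1.le
  have hde' : v (d - (1 + 2 * f)) ≤ v 2 ^ 2 := by simpa using hde
  obtain ⟨ρ, hρ, hρ4⟩ := cube_of h hf hde'
  obtain ⟨ζ, t, hζ3, hζ, ht, hxζ⟩ := exists_unit4 h hx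
  have hζ1 : v ζ = 1 := by
    rcases hζ with rfl | rfl | rfl
    · rw [map_one]
    · exact vo
    · rw [map_pow, vo, one_pow]
  obtain ⟨δ, hδ, eδ⟩ := P4e2_quarter h hde'
  have ey : y ^ 2 = 2 * (1 + f + 3 * t) + 4 * (3 * (t * t) + 2 * (t * (t * t)) + δ) := by
    rw [hy, hxζ]
    linear_combination (1 + 2 * t) ^ 3 * hζ3 + eδ
  have h3 : v (3 : C) = 1 := (v_o h).2.1
  have hft : v (1 + f + 3 * t) ≤ 1 := P3a_add (P3a_add (map_one v).le hf) (P3a_mul h3.le ht)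
  have hrest : v (4 * (3 * (t * t) + 2 * (t * (t * t)) + δ)) ≤ v 2 ^ 2 :=
    P4e2_4 h (P3a_add (P3a_add (P3a_mul h3.le (P3a_mul ht ht)) (P3a_mul h2l (P3a_mul ht (P3a_mul ht ht)))) hδ)
  have h22 : v 2 ^ 2 ≤ v 2 := by
    rw [sq]
    calc v 2 * v 2 ≤ 1 * v 2 := mul_le_mul' h2l le_rfl
      _ = v 2 := one_mul _
  have hy2 : v (y ^ 2) ≤ v 2 := by
    rw [ey]
    exact P3a_add (P4e2_1 h hft) (hrest.trans h22)
  have hyl : v y ≤ v 2 := by
    rw [← lt_iff2 h]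
    by_contra hc
    rw [map_pow] at hy2
    exact absurd ((one_le_pow₀ (not_lt.1 hc)).trans hy2) (not_le.2 (two_lt h).1)
  have hy4 : v (y ^ 2) ≤ v 2 ^ 2 := by
    rw [map_pow]
    exact pow_le_pow_left' hyl 2
  have htf3 : v (1 + f + 3 * t) ≤ v 2 := by
    refine P4e2_2' h ?_
    have : 2 * (1 + f + 3 * t) = y ^ 2 - 4 * (3 * (t * t) + 2 * (t * (t * t)) + δ) := by rw [ey]; ring
    rw [this]
    exact P3a_sub hy4 hrest
  have htf : v (1 + f + t) ≤ v 2 := by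
    have : 1 + f + t = (1 + f + 3 * t) - 2 * t := by ring
    rw [this]
    exact P3a_sub htf3 (P4e2_1 h ht)
  obtain ⟨k, hk, hc⟩ := hq
  rw [hxζ] at hg
  have E1 := P4e2_key h hf hρ hρ4 ht htf hζ3 hζ1 ho vo h1 h2 hc hg
  have ho' : (o ^ 2) ^ 2 + o ^ 2 + 1 = 0 := by linear_combination ho + o * ho3
  have E2 := P4e2_key h hf hρ hρ4 ht htf hζ3 hζ1 ho' (by rw [map_pow, vo, one_pow]) h1 h2 hc hg
  have vo2 : v (o ^ 2) ≤ 1 := by rw [map_pow, vo, one_pow]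
  have hz2 : v (ζ ^ 2) ≤ 1 := by rw [map_pow, hζ1, one_pow]
  have F1 : v (q₁ * ζ - f) ≤ v 2 := by
    have : q₁ * ζ - f = 2 * (q₂ * ζ ^ 2 + 1 - f) - (o * (q₁ * ζ * o + q₂ * ζ ^ 2 * o ^ 2 + o ^ 2 + f)
        + o ^ 2 * (q₁ * ζ * o ^ 2 + q₂ * ζ ^ 2 * (o ^ 2) ^ 2 + (o ^ 2) ^ 2 + f)) := by
      linear_combination (q₁ * ζ + f) * ho + (q₁ * ζ * o + q₂ * ζ ^ 2 * (o ^ 3 + 2) + (o ^ 3 + 2)) * ho3
    rw [this]
    refine P3a_sub (P4e2_1 h (P3a_sub (P3a_add (P3a_mul h2 hz2) (map_one v).le) hf)) (P3a_add (P3a_mul vo.le E1) (P3a_mul vo2 E2))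
  have F2 : v (q₂ * ζ ^ 2 - (f + 1)) ≤ v 2 := by
    have : q₂ * ζ ^ 2 - (f + 1) = 2 * (q₁ * ζ - f - 1) - (o ^ 2 * (q₁ * ζ * o + q₂ * ζ ^ 2 * o ^ 2 + o ^ 2 + f)
        + o * (q₁ * ζ * o ^ 2 + q₂ * ζ ^ 2 * (o ^ 2) ^ 2 + (o ^ 2) ^ 2 + f)) := by
      linear_combination (q₂ * ζ ^ 2 + 1 + f) * ho + (2 * q₁ * ζ + q₂ * ζ ^ 2 * (o + o ^ 2) + (o + o ^ 2)) * ho3
    rw [this]
    refine P3a_sub (P4e2_1 h (P3a_sub (P3a_sub (P3a_mul h1 hζ1.le) hf) (map_one v).le)) (P3a_add (P3a_mul vo2 E1) (P3a_mul vo.le E2))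
  refine (lam_iff h he hf h1 h2).2 ⟨ζ ^ 2, ?_, ?_, ?_⟩
  · rcases hζ with rfl | rfl | rfl
    · right; left; ring
    · right; right; right; rfl
    · right; right; left
      linear_combination o * ho3
  · have : q₁ - ζ ^ 2 * f = ζ ^ 2 * (q₁ * ζ - f) := by linear_combination -q₁ * hζ3
    rw [this]
    exact P3a_mul hz2 F1
  · have : q₂ - (ζ ^ 2) ^ 2 * (f + 1) = ζ * (q₂ * ζ ^ 2 - (f + 1)) := by linear_combination (-q₂ - ζ * (f + 1)) * hζ3
    rw [this]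
    exact P3a_mul hζ1.le F2

/-- [P4f] -/
theorem locU {u : C × C × C} (hu : Un v d u) (hs : IsSquare (nm d u)) {q₁ q₂ : C} (h1 : v q₁ ≤ 1) (h2 : v q₂ ≤ 1)
    (hq : CL v d u q₁ q₂) : LocA d u ↔ v (q₁ * (f + e) ^ 2 + q₂ ^ 2 * f) ≤ v 2 := by
  obtain ⟨he3, hve, he0⟩ := p4_zeta h he
  constructor
  · rintro (⟨g, hg⟩ | ⟨x, y, hxy, g, hg⟩)
    · have hgU := in_of_sq h hd hu hg
      obtain ⟨w, hwU, hgw⟩ := un_inv hd.le hgU
      have hz : v (0 : C) ≤ 1 := by rw [map_zero]; exact zero_le_one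
      have hCu : CL v d u 0 0 := by
        refine ⟨w, hwU, ?_⟩
        have e1 : mu d u (mu d w w) = (1, 0, 0) := by
          rw [hg]
          calc mu d (mu d g g) (mu d w w) = mu d g (mu d g (mu d w w)) := mu_assoc _ _ _ _
            _ = mu d g (mu d (mu d g w) w) := by rw [← mu_assoc d g w w]
            _ = (1, 0, 0) := by rw [hgw, (mu_one (d := d) w).2, hgw]
        rw [e1, mul_zero]
        exact cg_refl 2 _
      obtain ⟨k1, k2⟩ := cl_unique h hd hu h1 h2 hz hz hq hCu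
      rw [sub_zero] at k1 k2
      have hfe : v (f + e) ≤ 1 := p4_add hf hve.le
      refine p4_add ?_ ?_
      · rw [mul_comm]
        exact p4_mul (p4_pow1 hfe 2) k1
      · have e1 : q₂ ^ 2 * f = (q₂ * f) * q₂ := by ring
        rw [e1]
        exact p4_mul (p4_mul1 h2 hf) k2
    · rcases lt_trichotomy (v x) 1 with hx | hx | hx
      · exact dir_zero h hd he hf hde hu hs h1 h2 hq hxy ((lt_iff2 h x).1 hx) hg
      · by_cases hns : e = 1
        · exact dir_unit_sp h hd he hf hde hns hu hs h1 h2 hq hxy hx hg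
        · exact dir_unit_ns h hd he hf hde hns hu hs h1 h2 hq hxy hx hg
      · exact dir_big h hd he hf hde hu hs h1 h2 hq hxy hx hg
  · intro hl
    by_cases hns : e = 1
    · exact conv_sp h hd he hf hde hns hu hs h1 h2 hq hl
    · exact conv_ns h hd he hf hde hns hu hs h1 h2 hq hl

/-- [P4f] -/
theorem adjU : AdjP v o d := by
  intro α β hα hα2 hβ hβ2 hvα hvβ hnβ
  obtain ⟨he3, hve, he0⟩ := p4_zeta h he
  have h3 := p4_o3 h
  have hvo := (v_o h).1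
  obtain ⟨g, hg0, hu⟩ := exists_un h hd hα hα2 hvα
  obtain ⟨g', hg'0, hw⟩ := exists_un h hd hβ hβ2 hvβ
  have hus : IsSquare (nm d (mu d α (mu d g g))) := by
    rw [nm_mu, nm_mu]
    exact hα2.mul ⟨_, rfl⟩
  have hws : IsSquare (nm d (mu d β (mu d g' g'))) := by
    rw [nm_mu, nm_mu]
    exact hβ2.mul ⟨_, rfl⟩
  obtain ⟨p₁, p₂, hp1, hp2, hp⟩ := cl_exists h hd hu hus
  obtain ⟨q₁, q₂, hq1, hq2, hq⟩ := cl_exists h hd hw hws
  by_cases hlp : v (p₁ * (f + e) ^ 2 + p₂ ^ 2 * f) ≤ v 2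
  · left
    exact locA_of_sq_mul hg0 ((locU h hd he hf hde hu hus hp1 hp2 hp).2 hlp)
  right
  have hlq : ¬ v (q₁ * (f + e) ^ 2 + q₂ ^ 2 * f) ≤ v 2 := fun hl =>
    hnβ (locA_of_sq_mul hg'0 ((locU h hd he hf hde hw hws hq1 hq2 hq).2 hl))
  have hfe : v (f + e) ≤ 1 := p4_add hf hve.le
  have hle : ∀ r₁ r₂ : C, v r₁ ≤ 1 → v r₂ ≤ 1 → v (r₁ * (f + e) ^ 2 + r₂ ^ 2 * f) ≤ 1 := fun r₁ r₂ k1 k2 =>
    p4_add (p4_mul1 k1 (p4_pow1 hfe 2)) (p4_mul1 (p4_pow1 k2 2) hf)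
  have hone : ∀ r : C, v r ≤ 1 → ¬ v r ≤ v 2 → v r = 1 := by
    intro r k1 k2
    rw [← lt_iff2 h] at k2
    exact le_antisymm k1 (not_lt.1 k2)
  have hvp := hone _ (hle p₁ p₂ hp1 hp2) hlp
  have hvq := hone _ (hle q₁ q₂ hq1 hq2) hlq
  set P := p₁ * (f + e) ^ 2 + p₂ ^ 2 * f with hP
  set Q := q₁ * (f + e) ^ 2 + q₂ ^ 2 * f with hQ
  have hQ0 : Q ≠ 0 := by
    intro h0
    rw [h0, map_zero] at hvq
    exact zero_ne_one hvq
  obtain ⟨ζ, hζ3, hζ, hPQ⟩ := exists_zeta h (x := P / Q) (by rw [map_div₀, hvp, hvq, div_one])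
  have hPQ' : v (P - ζ * Q) ≤ v 2 := by
    have e1 : P - ζ * Q = Q * (P / Q - ζ) := by field_simp
    rw [e1]
    exact p4_mul hvq.le hPQ
  have hvζ := (p4_zeta h hζ).2.1
  have key : ∀ (β' g'' : C × C × C) (r₁ r₂ : C), nm d g'' ≠ 0 → Un v d (mu d β' (mu d g'' g'')) →
      IsSquare (nm d (mu d β' (mu d g'' g''))) → v r₁ ≤ 1 → v r₂ ≤ 1 → CL v d (mu d β' (mu d g'' g'')) r₁ r₂ →
      r₁ * (f + e) ^ 2 + r₂ ^ 2 * f = ζ * Q → LocA d (mu d α β') := by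
    intro β' g'' r₁ r₂ hg'' hw' hws' hr1 hr2 hr hrQ
    have hm := cl_mul h hd hu hw' hp1 hp2 hr1 hr2 hp hr
    have hms : IsSquare (nm d (mu d (mu d α (mu d g g)) (mu d β' (mu d g'' g'')))) := by
      rw [nm_mu d (mu d α (mu d g g))]
      exact hus.mul hws'
    have hl : v ((p₁ + r₁) * (f + e) ^ 2 + (p₂ + r₂) ^ 2 * f) ≤ v 2 := by
      have e1 : (p₁ + r₁) * (f + e) ^ 2 + (p₂ + r₂) ^ 2 * f = (P - ζ * Q) + 2 * (ζ * Q) + 2 * (p₂ * r₂ * f) := by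
        rw [← hrQ, hP]
        ring
      rw [e1]
      exact p4_add (p4_add hPQ' (p4_twomul h (p4_mul1 hvζ.le hvq.le))) (p4_twomul h (p4_mul1 (p4_mul1 hp2 hr2) hf))
    have hL := (locU h hd he hf hde (un_mu hd.le hu hw') hms (p4_add hp1 hr1) (p4_add hp2 hr2) hm).2 hl
    have e2 : mu d (mu d α (mu d g g)) (mu d β' (mu d g'' g'')) = mu d (mu d α β') (mu d (mu d g g'') (mu d g g'')) := by
      calc _ = mu d α (mu d (mu d g g) (mu d β' (mu d g'' g''))) := mu_assoc _ _ _ _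
        _ = mu d α (mu d (mu d β' (mu d g'' g'')) (mu d g g)) := by rw [mu_comm d (mu d g g)]
        _ = mu d α (mu d β' (mu d (mu d g'' g'') (mu d g g))) := by rw [mu_assoc d β']
        _ = mu d (mu d α β') (mu d (mu d g'' g'') (mu d g g)) := (mu_assoc _ _ _ _).symm
        _ = _ := by
          congr 1
          calc mu d (mu d g'' g'') (mu d g g) = mu d g'' (mu d g'' (mu d g g)) := mu_assoc _ _ _ _
            _ = mu d g'' (mu d (mu d g'' g) g) := by rw [← mu_assoc d g'' g g]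
            _ = mu d g'' (mu d (mu d g g'') g) := by rw [mu_comm d g'' g]
            _ = mu d (mu d (mu d g g'') g) g'' := mu_comm _ _ _
            _ = mu d (mu d g g'') (mu d g g'') := mu_assoc _ _ _ _
    rw [e2] at hL
    exact locA_of_sq_mul (by rw [nm_mu]; exact mul_ne_zero hg0 hg'') hL
  rcases hζ with h5 | h5 | h5
  · left
    refine key β g' q₁ q₂ hg'0 hw hws hq1 hq2 hq ?_
    rw [h5, one_mul]
  · right; left
    have e1 := p4_sig_mu h3 d β (mu d g' g')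
    rw [p4_sig_mu h3 d g' g'] at e1
    refine key (p4_sig o β) (p4_sig o g') (o * q₁) (o ^ 2 * q₂) (by rw [p4_sig_nm h3]; exact hg'0) ?_ ?_
      (p4_mul1 hvo.le hq1) (p4_mul1 (p4_pow1 hvo.le 2) hq2) ?_ ?_
    · rw [← e1]
      exact p4_sig_un h3 hvo hw
    · rw [← e1, p4_sig_nm h3]
      exact hws
    · rw [← e1]
      exact cl_sig h hd hq
    · rw [h5, hQ]
      linear_combination (o * q₂ ^ 2 * f) * h3
  · right; right
    have e1 := p4_sig_mu h3 d β (mu d g' g')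
    rw [p4_sig_mu h3 d g' g'] at e1
    have e2 := p4_sig_mu h3 d (p4_sig o β) (mu d (p4_sig o g') (p4_sig o g'))
    rw [p4_sig_mu h3 d (p4_sig o g') (p4_sig o g'), ← e1] at e2
    refine key (p4_sig o (p4_sig o β)) (p4_sig o (p4_sig o g')) (o * (o * q₁)) (o ^ 2 * (o ^ 2 * q₂))
      (by rw [p4_sig_nm h3, p4_sig_nm h3]; exact hg'0) ?_ ?_
      (p4_mul1 hvo.le (p4_mul1 hvo.le hq1)) (p4_mul1 (p4_pow1 hvo.le 2) (p4_mul1 (p4_pow1 hvo.le 2) hq2)) ?_ ?_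
    · rw [← e2]
      exact p4_sig_un h3 hvo (p4_sig_un h3 hvo hw)
    · rw [← e2, p4_sig_nm h3, p4_sig_nm h3]
      exact hws
    · rw [← e2]
      exact cl_sig h hd (cl_sig h hd hq)
    · rw [h5, hQ]
      linear_combination (o ^ 2 * q₂ ^ 2 * f * (o ^ 3 + 1)) * h3

end

end JT
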