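import Pool.Agent.JT.P4

/-!
# [JT-P5] the local condition at 2 for `8 d`, `d` a unit, `d ≢ 1 mod 2`

`T = 2 T'`, `T'³ = d`; `t8 u = (u₀, 2 u₁, 4 u₂)` is the triple with respect to `T'`. The classes of points are those with `q₂ ≡ 0 mod 2`.

PROOF. `t8_mu`, `t8_nm`, `sqA_t8` [P5a]: compute; `t8` is bijective.
`beta8` [P5a]: `a³ = 1`: the point `x = a²`: `x³ + 8 d = 1 + 8 d` is a square (`sq_of_8`), `(1, a, 0)(a², 1, 0) = (a (1, a, 0))²`... (`(1 + a T)(a² + T) = a² (1 + a T)²` since `a³ = 1`). `t8 (1, a, 0) = (1, 2 a, 0)`: class `(a, 0)` with `g = 1`. `nm (8 d) (1, a, 0) = 1 + 8 d`.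
`conv8` [P5b]: `q₁ ≡ a`, `a ∈ {0, 1, o, o²}`. `a = 0`: `cl_zero` for `t8 u` (`d ≢ 1`: `SqA d (t8 u)`), `sqA_t8`. Otherwise `t8 (u (1, a, 0))` has the class `(2 a, 0) ≡ 0`: `SqA`, so `LocA (u (1, a, 0))`, `locA_of_mul`.
`dir8` [P5c]: `SqA`: `sqA_t8`, `in_of_sq`, `cl_unique`. `u (x + T) = g²`, `y² = x³ + 8 d`. `1 < v x`: as `dir_big` (P4): `4^k (x + T) = f² + 4^k T`, `t8`: `f² + 2 · 4^k T'`: class `(0, 0)`. `v x = 1`: `a x ≡ 1 mod 2`, `X = a x`, `X³ = y² - 8 d`, so `X = (y/X)² (1 - 8 d/y²)` is a square, `≡ 1 mod 2`, so `X ≡ 1 mod 4` (`sq_one4`); `X + a T`, `t8 = (X, 2 a, 0)`: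
class `(a, 0)`; `cl_of_sq`. `v x < 1`: `x = 2 x₁`, `y² = 8 (x₁³ + d)`: the valuation of `x₁³ + d` is odd, so `x₁³ ≡ d mod 2`, `x₁³ ≡ 0` or `1`: contradiction to `d ≡ e`, `e = o` or `o²`.
`adj8` [P5d]: `exists_un` for `t8 α`, `t8 β` with respect to `d` (`d` is not a cube: a cube root would be a unit `ρ`, `ρ³ ≡ 1 mod 2`; so the hypothesis on values is empty) gives `g` over `d`; `g = t8 g'`. As `adjU` (P4) with `Λ = q₂`: if the class of `t8 α` has `p₂ ≢ 0` then `p₂ ≡ o^(2i) q₂` for an `i`, so `α σ^i(β)` has `q₂ ≡ 0`. (`t8 (σ u) = σ (t8 u)` with `(a, o b, o² c)`.)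
-/

set_option autoImplicit false

open scoped Classical

namespace JT

/-- the triple with respect to `T' = T/2` -/
def t8 {C : Type} [Field C] (u : C × C × C) : C × C × C := (u.1, 2 * u.2.1, 4 * u.2.2)

/-! auxiliary lemmas of row P5d: the formal part of the proof of `AdjP` -/

/-- the automorphism `T ↦ o T` -/
def P5d_sg {C : Type} [Field C] (o : C) (u : C × C × C) : C × C × C := (u.1, o * u.2.1, o ^ 2 * u.2.2)

theorem P5d_sg_mu {C : Type} [Field C] {o : C} (ho : o ^ 3 = 1) (D : C) (u w : C × C × C) :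
    P5d_sg o (mu D u w) = mu D (P5d_sg o u) (P5d_sg o w) := by
  obtain ⟨a, b, c⟩ := u
  obtain ⟨a', b', c'⟩ := w
  simp only [P5d_sg, mu, Prod.mk.injEq]
  refine ⟨?_, ?_, ?_⟩
  · linear_combination (-D * (b * c' + c * b')) * ho
  · linear_combination (-D * c * c' * o) * ho
  · ring

theorem P5d_sg_nm {C : Type} [Field C] {o : C} (ho : o ^ 3 = 1) (D : C) (u : C × C × C) :
    nm D (P5d_sg o u) = nm D u := by
  obtain ⟨a, b, c⟩ := u
  simp only [P5d_sg, nm]
  linear_combination (D * b ^ 3 + D ^ 2 * c ^ 3 * (o ^ 3 + 1) - 3 * D * a * b * c) * ho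

theorem P5d_sq {C : Type} [Field C] (D : C) (a b g k : C × C × C) :
    mu D (mu D a (mu D g g)) (mu D b (mu D k k)) = mu D (mu D a b) (mu D (mu D g k) (mu D g k)) := by
  simp only [mu, Prod.mk.injEq]
  refine ⟨?_, ?_, ?_⟩ <;> ring

theorem P5d_adj {C : Type} [Field C] {o D ζ : C} (ho : o ^ 3 = 1) (hζ : ζ = o ∨ ζ = o ^ 2)
    {v : Valuation C (WithZero (Multiplicative ℤ))} (Q : C × C × C → C → Prop)
    (hE : ∀ α : C × C × C, nm D α ≠ 0 → IsSquare (nm D α) →
      (∀ ρ : C, ρ ^ 3 = D → ∃ γ : WithZero (Multiplicative ℤ), v (ev α ρ) = γ ^ 2) →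
      ∃ (g : C × C × C) (a : C), nm D g ≠ 0 ∧ (a = 0 ∨ a = 1 ∨ a = o ∨ a = o ^ 2) ∧ Q (mu D α (mu D g g)) a)
    (hM : ∀ (u w : C × C × C) (a b : C), Q u a → Q w b → Q (mu D u w) (a + b))
    (hS : ∀ (w : C × C × C) (b : C), Q w b → Q (P5d_sg o w) (ζ * b))
    (hZ : ∀ u : C × C × C, nm D u ≠ 0 → IsSquare (nm D u) → Q u 0 → LocA D u)
    (h2 : ∀ (u : C × C × C) (a : C), (a = 1 ∨ a = o ∨ a = o ^ 2) → Q u (a + a) → Q u 0) : AdjP v o D := by
  intro α β hα hα2 hβ hβ2 heα heβ hn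
  obtain ⟨g, a, hg, ha, hQa⟩ := hE α hα hα2 heα
  obtain ⟨k, b, hk, hb, hQb⟩ := hE β hβ hβ2 heβ
  have hsq : ∀ x : C × C × C, IsSquare (nm D (mu D x x)) := fun x => ⟨nm D x, nm_mu D x x⟩
  have hne : ∀ x y : C × C × C, nm D x ≠ 0 → nm D y ≠ 0 → nm D (mu D x (mu D y y)) ≠ 0 := fun x y hx hy => by
    rw [nm_mu, nm_mu]
    exact mul_ne_zero hx (mul_ne_zero hy hy)
  have hsq2 : ∀ x y : C × C × C, IsSquare (nm D x) → IsSquare (nm D (mu D x (mu D y y))) := fun x y hx => by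
    rw [nm_mu]
    exact hx.mul (hsq y)
  have hb' : b = 1 ∨ b = o ∨ b = o ^ 2 := by
    rcases hb with rfl | hb
    · exact absurd (locA_of_sq_mul hk (hZ _ (hne β k hβ hk) (hsq2 β k hβ2) hQb)) hn
    · exact hb
  rcases ha with rfl | ha
  · exact Or.inl (locA_of_sq_mul hg (hZ _ (hne α g hα hg) (hsq2 α g hα2) hQa))
  right
  -- the final step for `σ ^ i β`
  have key : ∀ (β' k' : C × C × C) (b' : C), nm D β' = nm D β → nm D k' = nm D k →
      Q (mu D β' (mu D k' k')) b' → b' = a → LocA D (mu D α β') := by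
    intro β' k' b' e1 e2 hQ hba
    subst hba
    have h3 := hM _ _ _ _ hQa hQ
    have h4 := h2 _ _ ha h3
    rw [P5d_sq] at h4
    have hβ' : nm D β' ≠ 0 := by rw [e1]; exact hβ
    have hk' : nm D k' ≠ 0 := by rw [e2]; exact hk
    have hgk : nm D (mu D g k') ≠ 0 := by rw [nm_mu]; exact mul_ne_zero hg hk'
    refine locA_of_sq_mul hgk (hZ _ (hne _ _ ?_ hgk) (hsq2 _ _ ?_) h4)
    · rw [nm_mu]
      exact mul_ne_zero hα hβ'
    · rw [nm_mu, e1]
      exact hα2.mul hβ2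
  have hQ1 := hS _ _ hQb
  rw [P5d_sg_mu ho, P5d_sg_mu ho] at hQ1
  have hQ2 := hS _ _ hQ1
  rw [P5d_sg_mu ho, P5d_sg_mu ho] at hQ2
  have n1 : ∀ x : C × C × C, nm D (P5d_sg o x) = nm D x := fun x => P5d_sg_nm ho D x
  have n2 : ∀ x : C × C × C, nm D (P5d_sg o (P5d_sg o x)) = nm D x := fun x => by rw [n1, n1]
  have c0 := key β k b rfl rfl hQb
  have c1 := key (P5d_sg o β) (P5d_sg o k) (ζ * b) (n1 _) (n1 _) hQ1
  have c2 := key (P5d_sg o (P5d_sg o β)) (P5d_sg o (P5d_sg o k)) (ζ * (ζ * b)) (n2 _) (n2 _) hQ2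
  have o4 : o ^ 4 = o := by linear_combination o * ho
  have hfin : b = a ∨ ζ * b = a ∨ ζ * (ζ * b) = a := by
    rcases hζ with k0 | k0 <;> rw [k0]
    · rcases ha with k1 | k1 | k1 <;> rcases hb' with k2 | k2 | k2 <;> rw [k1, k2]
      · left; rfl
      · right; right; linear_combination ho
      · right; left; linear_combination ho
      · right; left; ring
      · left; rfl
      · right; right; linear_combination o * ho
      · right; right; ring
      · right; left; ring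
      · left; rfl
    · rcases ha with k1 | k1 | k1 <;> rcases hb' with k2 | k2 | k2 <;> rw [k1, k2]
      · left; rfl
      · right; left; linear_combination ho
      · right; right; linear_combination (o ^ 3 + 1) * ho
      · right; right; linear_combination o * ho
      · left; rfl
      · right; left; linear_combination o * ho
      · right; left; ring
      · right; right; linear_combination (o ^ 2) * ho
      · left; rfl
  rcases hfin with h5 | h5 | h5
  · exact Or.inl (c0 h5)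
  · exact Or.inr (Or.inl (c1 h5))
  · exact Or.inr (Or.inr (c2 h5))

section
variable {C : Type} [Field C] [CharZero C]

/-- [P5a] -/
theorem t8_mu (d : C) (u w : C × C × C) : t8 (mu (8 * d) u w) = mu d (t8 u) (t8 w) := by
  simp only [mu, t8, Prod.mk.injEq]
  refine ⟨?_, ?_, ?_⟩ <;> ring

/-- [P5a] -/
theorem t8_nm (d : C) (u : C × C × C) : nm d (t8 u) = nm (8 * d) u := by
  simp only [nm, t8]
  ring

omit [CharZero C] in
/-- [P5a] -/
theorem p5a_inv [NeZero (2 : C)] (g : C × C × C) : t8 ((g.1, g.2.1 / 2, g.2.2 / 4) : C × C × C) = g := by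
  have h2 : (2 : C) ≠ 0 := NeZero.ne _
  have h4 : (4 : C) ≠ 0 := by
    have : (4 : C) = 2 * 2 := by norm_num
    rw [this]
    exact mul_ne_zero h2 h2
  simp only [t8]
  refine Prod.ext rfl (Prod.ext ?_ ?_)
  · exact mul_div_cancel₀ _ h2
  · exact mul_div_cancel₀ _ h4

/-- [P5a] -/
theorem sqA_t8 (d : C) (u : C × C × C) : SqA (8 * d) u ↔ SqA d (t8 u) := by
  constructor
  · rintro ⟨g, rfl⟩
    exact ⟨t8 g, t8_mu d g g⟩
  · rintro ⟨g, hg⟩
    refine ⟨(g.1, g.2.1 / 2, g.2.2 / 4), ?_⟩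
    rw [← p5a_inv g, ← t8_mu] at hg
    simp only [t8, Prod.mk.injEq] at hg
    obtain ⟨h1, h2, h3⟩ := hg
    have e2 : (2 : C) ≠ 0 := two_ne_zero
    have e4 : (4 : C) ≠ 0 := by
      have : (4 : C) = 2 * 2 := by norm_num
      rw [this]
      exact mul_ne_zero e2 e2
    exact Prod.ext h1 (Prod.ext (mul_left_cancel₀ e2 h2) (mul_left_cancel₀ e4 h3))

variable {v : Valuation C (WithZero (Multiplicative ℤ))} {o : C} (h : Lc2 v o) {d e : C} (hd : v d = 1)
  (he : e = o ∨ e = o ^ 2) (hde : v (d - e) ≤ v 2)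
include h hd

/-- [P5a] -/
theorem beta8 {a : C} (ha : a = 1 ∨ a = o ∨ a = o ^ 2) : LocA (8 * d) (1, a, 0) ∧ IsSquare (nm (8 * d) (1, a, 0)) ∧
    nm (8 * d) (1, a, 0) ≠ 0 ∧ Un v d (t8 (1, a, 0)) ∧ CL v d (t8 (1, a, 0)) a 0 := by
  have ho := h.ho
  have o3 : o ^ 3 = 1 := by linear_combination (o - 1) * ho
  have a3 : a ^ 3 = 1 := by
    rcases ha with rfl | rfl | rfl
    · ring
    · exact o3
    · linear_combination (o ^ 3 + 1) * o3
  have va : v a = 1 := by
    rcases ha with rfl | rfl | rfl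
    · exact map_one v
    · exact (v_o h).1
    · rw [map_pow, (v_o h).1, one_pow]
  have v2 := (two_lt h).1
  have v8 : v (8 * d) = v 2 ^ 3 := by
    have : (8 : C) * d = 2 ^ 3 * d := by ring
    rw [this, map_mul, map_pow, hd, mul_one]
  have hsq : IsSquare (1 + 8 * d) := by
    apply sq_of_8 h
    rw [add_sub_cancel_left, v8]
  have hnm : nm (8 * d) ((1, a, 0) : C × C × C) = 1 + 8 * d := by
    simp only [nm]
    linear_combination (8 * d) * a3
  have v8lt : v (8 * d) < 1 := by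
    rw [v8]
    exact pow_lt_one₀ zero_le v2 (by norm_num)
  have vn : v (1 + 8 * d) = 1 := by
    have := v.map_add_eq_of_lt_right (x := 8 * d) (y := 1) (by rw [map_one]; exact v8lt)
    rw [map_one] at this
    rwa [add_comm]
  have hun : Un v d (t8 ((1, a, 0) : C × C × C)) := by
    refine ⟨⟨?_, ?_, ?_⟩, ?_⟩
    · simp only [t8, map_one, le_refl]
    · simp only [t8, map_mul, va, mul_one]
      exact v2.le
    · simp only [t8, mul_zero, map_zero]
      exact zero_le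
    · rw [t8_nm, hnm, vn]
  refine ⟨Or.inr ?_, ?_, ?_, hun, (1, 0, 0), un_one, ?_⟩
  · obtain ⟨y, hy⟩ := hsq
    refine ⟨a ^ 2, y, ?_, (a, a ^ 2, 0), ?_⟩
    · linear_combination -hy - (a ^ 3 + 1) * a3
    · simp only [mu, Prod.mk.injEq]
      refine ⟨?_, ?_, ?_⟩
      · ring
      · linear_combination -a3
      · linear_combination -a * a3
  · rw [hnm]
    exact hsq
  · rw [hnm]
    intro h0
    rw [h0, map_zero] at vn
    exact zero_ne_one vn
  · have e : mu d (t8 ((1, a, 0) : C × C × C)) (mu d (1, 0, 0) (1, 0, 0)) = (1, 2 * a, 2 * 0) := by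
      simp only [mu, t8, Prod.mk.injEq]
      refine ⟨?_, ?_, ?_⟩ <;> ring
    rw [e]
    exact cg_refl 2 _

omit [CharZero C] hd in
include he in
/-- [P5b] -/
theorem p5b_ve (h1o : v (1 - o) = 1) (ho1 : v o = 1) : v (e - 1) = 1 := by
  have h1 : v (o - 1) = 1 := by rw [← neg_sub, Valuation.map_neg]; exact h1o
  rcases he with rfl | rfl
  · exact h1
  · have e1 : o ^ 2 - 1 = (o - 1) * (-(o ^ 2)) := by
      have ho := h.ho
      linear_combination (o - 1) * ho
    rw [e1, map_mul, h1, Valuation.map_neg, map_pow, ho1, one_pow, one_mul]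

omit hd in
include he hde in
/-- [P5b] -/
theorem p5b_dne : v (d - 1) = 1 := by
  have h1 := p5b_ve h he (v_o h).2.2 (v_o h).1
  have h2 : v (d - e) < v (e - 1) := by
    rw [h1]
    exact hde.trans_lt (two_lt h).1
  have e1 : d - 1 = (d - e) + (e - 1) := by ring
  rw [e1, Valuation.map_add_eq_of_lt_right _ h2, h1]

include he hde

/-- [P5b] -/
theorem conv8 {u : C × C × C} (hu : Un v d (t8 u)) (hs : IsSquare (nm (8 * d) u)) {q₁ q₂ : C} (h1 : v q₁ ≤ 1) (h2 : v q₂ ≤ v 2)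
    (hq : CL v d (t8 u) q₁ q₂) : LocA (8 * d) u := by
  have hd0 : d ≠ 0 := by
    rintro rfl
    rw [map_zero] at hd
    exact zero_ne_one hd
  have h8 : (8 : C) * d ≠ 0 := mul_ne_zero (by norm_num) hd0
  have hd1 := p5b_dne h he hde
  have hu0 : nm (8 * d) u ≠ 0 := by
    rw [← t8_nm]
    exact un_ne hu
  have main : ∀ a : C, (a = 1 ∨ a = o ∨ a = o ^ 2) → v (q₁ - a) ≤ v 2 → LocA (8 * d) u := by
    intro a ha hqa
    obtain ⟨b1, b2, b3, b4, b5⟩ := beta8 h hd ha
    have va : v a ≤ 1 := by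
      rcases ha with rfl | rfl | rfl
      · rw [map_one]
      · exact (v_o h).1.le
      · rw [map_pow, (v_o h).1, one_pow]
    have c1 := cl_mul h hd hu b4 h1 (h2.trans (two_lt h).1.le) va (by rw [map_zero]; exact zero_le)
      hq b5
    rw [← t8_mu] at c1
    have c2 : Un v d (t8 (mu (8 * d) u (1, a, 0))) := by
      rw [t8_mu]
      exact un_mu hd.le hu b4
    have c3 : IsSquare (nm (8 * d) (mu (8 * d) u (1, a, 0))) := by
      rw [nm_mu]
      exact hs.mul b2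
    have c4 : v (q₁ + a) ≤ v 2 := by
      have e : q₁ + a = (q₁ - a) + 2 * a := by ring
      rw [e]
      refine (v.map_add _ _).trans (max_le hqa ?_)
      rw [map_mul]
      exact mul_le_of_le_one_right' va
    have c5 := (cl_zero h hd c2 (by rw [t8_nm]; exact c3) c4 (by rw [add_zero]; exact h2) c1).2 hd1
    exact locA_of_mul h8 h.ho hu0 hs b3 b2 (Or.inl ((sqA_t8 d _).mpr c5)) b1
  rcases h.res q₁ h1 with hr | hr | hr | hr
  · have c5 := (cl_zero h hd hu (by rw [t8_nm]; exact hs) hr h2 hq).2 hd1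
    exact Or.inl ((sqA_t8 d _).mpr c5)
  · exact main 1 (Or.inl rfl) hr
  · exact main o (Or.inr (Or.inl rfl)) hr
  · exact main (o ^ 2) (Or.inr (Or.inr rfl)) hr

/-- [P5c] -/
theorem dir8 {u : C × C × C} (hu : Un v d (t8 u)) (hs : IsSquare (nm (8 * d) u)) {q₁ q₂ : C} (h1 : v q₁ ≤ 1) (h2 : v q₂ ≤ 1)
    (hq : CL v d (t8 u) q₁ q₂) (hl : LocA (8 * d) u) : v q₂ ≤ v 2 := by
  have hd1 : v d ≤ 1 := hd.le
  obtain ⟨h2lt, h20⟩ := two_lt h
  have h2le : v (2 : C) ≤ 1 := h2lt.le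
  have h2C : (2 : C) ≠ 0 := two_ne_zero
  -- it is enough to find the class of a triple `w` with `u w` a square
  have fin : ∀ (w g : C × C × C) (a : C), Un v d w → v a ≤ 1 → mu d (t8 u) w = mu d g g → CL v d w a 0 → v q₂ ≤ v 2 := by
    intro w g a hw ha hg hc
    have h3 := cl_of_sq h hd hu hw hg ha (by rw [map_zero]; exact zero_le_one) hc
    have h4 := (cl_unique h hd hu h1 h2 ha (by rw [map_zero]; exact zero_le_one) hq h3).2
    rwa [sub_zero] at h4
  have one_cl : CL v d (1, 0, 0) 0 0 := by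
    refine ⟨(1, 0, 0), un_one, ?_⟩
    have e : mu d (1, 0, 0) (mu d (1, 0, 0) (1, 0, 0)) = ((1, 2 * 0, 2 * 0) : C × C × C) := by
      simp only [mu, Prod.mk.injEq]
      refine ⟨?_, ?_, ?_⟩ <;> ring
    rw [e]
    exact cg_refl _ _
  rcases hl with hsq | ⟨x, y, hy, g, hg⟩
  · obtain ⟨g, hg⟩ := (sqA_t8 d u).1 hsq
    refine fin (1, 0, 0) g 0 un_one (by rw [map_zero]; exact zero_le_one) ?_ one_cl
    rw [(mu_one _).1, hg]
  have hg' : mu d (t8 u) (x, 2, 0) = mu d (t8 g) (t8 g) := by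
    have h3 := congrArg t8 hg
    rw [t8_mu, t8_mu] at h3
    rw [← h3]
    congr 1
    simp only [t8, Prod.mk.injEq]
    refine ⟨trivial, ?_, ?_⟩ <;> ring
  have h8 : v (8 * d) = v 2 ^ 3 := by
    have e : (8 : C) = 2 ^ 3 := by norm_num
    rw [map_mul, hd, mul_one, e, map_pow]
  have h8lt : v (8 * d) < 1 := by
    rw [h8]
    exact pow_lt_one₀ zero_le h2lt (by norm_num)
  rcases lt_trichotomy (v x) 1 with hx | hx | hx
  · -- `x = 2 x₁`
    exfalso
    have hx2 : v x ≤ v 2 := (lt_iff2 h x).1 hx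
    obtain ⟨x₁, rfl⟩ : ∃ x₁, x = 2 * x₁ := ⟨x / 2, by field_simp⟩
    have hx1 : v x₁ ≤ 1 := by
      rw [map_mul] at hx2
      by_contra hcon
      push Not at hcon
      have : v 2 * 1 < v 2 * v x₁ := mul_lt_mul_of_pos_left hcon (zero_lt_iff.2 h20)
      rw [mul_one] at this
      exact absurd hx2 (not_le.2 this)
    obtain ⟨vo, -, vo1⟩ := v_o h
    have ho := h.ho
    have ho3 : o ^ 3 = 1 := by linear_combination (o - 1) * ho
    -- `x₁³ + d` is a unit
    have hun : v (x₁ ^ 3 + d) = 1 := by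
      have hun' : ∀ r : C, v (x₁ ^ 3 - r) ≤ v 2 → v (r + e) = 1 → v (x₁ ^ 3 + d) = 1 := by
        intro r hr1 hr2
        have e1 : x₁ ^ 3 + d = (r + e) + ((x₁ ^ 3 - r) + (d - e)) := by ring
        rw [e1, Valuation.map_add_eq_of_lt_left, hr2]
        rw [hr2]
        exact lt_of_le_of_lt ((v.map_add _ _).trans (max_le hr1 hde)) h2lt
      have ve : v e = 1 := by
        rcases he with rfl | rfl
        · exact vo
        · rw [map_pow, vo, one_pow]
      have v1e : v (1 + e) = 1 := by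
        rcases he with rfl | rfl
        · have e2 : (1 : C) + e = -e ^ 2 := by linear_combination ho
          rw [e2, Valuation.map_neg, map_pow, vo, one_pow]
        · have e2 : (1 : C) + o ^ 2 = -o := by linear_combination ho
          rw [e2, Valuation.map_neg, vo]
      rcases hx1.lt_or_eq with hlt | heq
      · apply hun' 0
        · rw [sub_zero, map_pow]
          have h5 := (lt_iff2 h x₁).1 hlt
          calc v x₁ ^ 3 ≤ v 2 ^ 3 := pow_le_pow_left' h5 3
            _ ≤ v 2 := pow_le_of_le_one zero_le h2le (by norm_num)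
        · rw [zero_add]
          exact ve
      · exact hun' 1 (third h heq) v1e
    have h6 : v y ^ 2 = v 2 ^ 3 := by
      have e1 : y ^ 2 = 2 ^ 3 * (x₁ ^ 3 + d) := by rw [hy]; ring
      rw [← map_pow, e1, map_mul, hun, mul_one, map_pow]
    have hy0 : v y ≠ 0 := by
      intro h0
      rw [h0] at h6
      exact (pow_ne_zero 3 h20) (by rw [← h6]; norm_num)
    obtain ⟨n, hn⟩ : ∃ n : ℤ, v y = WithZero.exp n := by
      exact ⟨WithZero.log (v y), (WithZero.exp_log hy0).symm⟩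
    rw [hn, h.two, ← WithZero.exp_nsmul, ← WithZero.exp_nsmul] at h6
    have h7 := WithZero.exp_injective h6
    simp only [smul_eq_mul, nsmul_eq_mul] at h7
    omega
  · -- `v x = 1`
    obtain ⟨ζ, hζ3, hζ, hxζ⟩ := exists_zeta h hx
    have ho := h.ho
    have ho3 : o ^ 3 = 1 := by linear_combination (o - 1) * ho
    have vζ : v ζ = 1 := by
      have h3 : v ζ ^ 3 = 1 := by rw [← map_pow, hζ3, map_one]
      exact (pow_eq_one_iff.1 h3).resolve_right (by norm_num)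
    have vy : v y = 1 := by
      have h3 : v y ^ 2 = 1 := by
        rw [← map_pow, hy, Valuation.map_add_eq_of_lt_left, map_pow, hx, one_pow]
        rw [map_pow, hx, one_pow]
        exact h8lt
      exact (pow_eq_one_iff.1 h3).resolve_right (by norm_num)
    have hy0 : y ≠ 0 := by
      rintro rfl
      rw [map_zero] at vy
      exact zero_ne_one vy
    have vX : v (ζ ^ 2 * x) = 1 := by rw [map_mul, map_pow, vζ, hx, one_pow, mul_one]
    have hX0 : ζ ^ 2 * x ≠ 0 := by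
      intro h0
      rw [h0, map_zero] at vX
      exact zero_ne_one vX
    have hXsq : IsSquare (ζ ^ 2 * x) := by
      have h3 : IsSquare (1 - 8 * d / y ^ 2) := by
        apply sq_of_8 h
        have e1 : (1 : C) - 8 * d / y ^ 2 - 1 = -(8 * d / y ^ 2) := by ring
        rw [e1, Valuation.map_neg, map_div₀, map_pow, vy, one_pow, div_one, h8]
      have e2 : ζ ^ 2 * x = (y / (ζ ^ 2 * x)) * (y / (ζ ^ 2 * x)) * (1 - 8 * d / y ^ 2) := by
        have e3 : (ζ ^ 2 * x) ^ 3 = y ^ 2 - 8 * d := by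
          have : (ζ ^ 2 * x) ^ 3 = (ζ ^ 3) ^ 2 * x ^ 3 := by ring
          rw [this, hζ3, hy]
          ring
        have hζ0 : ζ ≠ 0 := by
          rintro rfl
          norm_num at hζ3
        have hx0 : x ≠ 0 := by
          rintro rfl
          rw [mul_zero] at hX0
          exact hX0 rfl
        field_simp
        linear_combination e3
      rw [e2]
      exact (IsSquare.mul_self _).mul h3
    have hX2 : v (ζ ^ 2 * x - 1) ≤ v 2 := by
      have e1 : ζ ^ 2 * x - 1 = ζ ^ 2 * (x - ζ) := by linear_combination hζ3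
      rw [e1, map_mul, map_pow, vζ, one_pow, one_mul]
      exact hxζ
    have hX4 := sq_one4 h hXsq hX2
    refine fin (ζ ^ 2 * x, 2 * ζ ^ 2, 0) (ζ * (t8 g).1, ζ * (t8 g).2.1, ζ * (t8 g).2.2) (ζ ^ 2) ?_ ?_ ?_ ?_
    · refine ⟨⟨vX.le, ?_, by simp⟩, ?_⟩
      · change v (2 * ζ ^ 2) ≤ 1
        rw [map_mul, map_pow, vζ, one_pow, mul_one]
        exact h2le
      · have e1 : nm d (ζ ^ 2 * x, 2 * ζ ^ 2, 0) = (ζ ^ 3) ^ 2 * y ^ 2 := by
          simp only [nm]
          rw [hy]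
          ring
        rw [e1, hζ3, map_mul, map_pow, map_pow, map_one, vy, one_pow, mul_one]
    · rw [map_pow, vζ, one_pow]
    · have e1 : mu d (t8 u) (ζ ^ 2 * x, 2 * ζ ^ 2, 0) = (ζ ^ 2 * (mu d (t8 u) (x, 2, 0)).1,
          ζ ^ 2 * (mu d (t8 u) (x, 2, 0)).2.1, ζ ^ 2 * (mu d (t8 u) (x, 2, 0)).2.2) := by
        simp only [mu, Prod.mk.injEq]
        refine ⟨?_, ?_, ?_⟩ <;> ring
      rw [e1, hg']
      simp only [mu, Prod.mk.injEq]
      refine ⟨?_, ?_, ?_⟩ <;> ring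
    · refine ⟨(1, 0, 0), un_one, ?_⟩
      have e1 : mu d (ζ ^ 2 * x, 2 * ζ ^ 2, 0) (mu d (1, 0, 0) (1, 0, 0)) = ((ζ ^ 2 * x, 2 * ζ ^ 2, 0) : C × C × C) := by
        simp only [mu, Prod.mk.injEq]
        refine ⟨?_, ?_, ?_⟩ <;> ring
      rw [e1]
      refine ⟨hX4, ?_, ?_⟩
      · simp
      · simp
  · -- `1 < v x`
    have vy2 : v y ^ 2 = v x ^ 3 := by
      rw [← map_pow, hy, Valuation.map_add_eq_of_lt_left, map_pow]
      rw [map_pow]
      exact lt_trans h8lt (one_lt_pow₀ hx (by norm_num))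
    have hx0 : v x ≠ 0 := (lt_trans zero_lt_one hx).ne'
    have hy0 : v y ≠ 0 := by
      intro h0
      rw [h0] at vy2
      exact (pow_ne_zero 3 hx0) (by rw [← vy2]; norm_num)
    obtain ⟨n, hn⟩ : ∃ n : ℤ, v x = WithZero.exp n := ⟨WithZero.log (v x), (WithZero.exp_log hx0).symm⟩
    obtain ⟨m, hm⟩ : ∃ m : ℤ, v y = WithZero.exp m := ⟨WithZero.log (v y), (WithZero.exp_log hy0).symm⟩
    have hn0 : 0 < n := by
      rw [hn, ← WithZero.exp_zero, WithZero.exp_lt_exp] at hx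
      exact hx
    have hmn : 2 * m = 3 * n := by
      rw [hn, hm, ← WithZero.exp_nsmul, ← WithZero.exp_nsmul] at vy2
      have h7 := WithZero.exp_injective vy2
      simp only [smul_eq_mul, nsmul_eq_mul] at h7
      exact_mod_cast h7
    obtain ⟨k, hk⟩ : ∃ k : ℕ, n = 2 * k := ⟨(n / 2).toNat, by omega⟩
    have hk0 : k ≠ 0 := by omega
    have hmk : m = 3 * k := by omega
    have v2k : ∀ j : ℕ, v ((2 : C) ^ j) = WithZero.exp (-(j : ℤ)) := by
      intro j
      rw [map_pow, h.two, ← WithZero.exp_nsmul]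
      congr 1
      simp
    have vx' : v (2 ^ (2 * k) * x) = 1 := by
      rw [map_mul, v2k, hn, ← WithZero.exp_add, ← WithZero.exp_zero]
      congr 1
      push_cast
      omega
    have vy' : v (2 ^ (3 * k) * y) = 1 := by
      rw [map_mul, v2k, hm, ← WithZero.exp_add, ← WithZero.exp_zero]
      congr 1
      push_cast
      omega
    have hx'0 : 2 ^ (2 * k) * x ≠ 0 := by
      intro h0; rw [h0, map_zero] at vx'; exact zero_ne_one vx'
    have hy'0 : 2 ^ (3 * k) * y ≠ 0 := by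
      intro h0; rw [h0, map_zero] at vy'; exact zero_ne_one vy'
    have hsqx : IsSquare (2 ^ (2 * k) * x) := by
      have h3 : IsSquare (1 - 2 ^ (6 * k) * (8 * d) / (2 ^ (3 * k) * y) ^ 2) := by
        apply sq_of_8 h
        have e1 : (1 : C) - 2 ^ (6 * k) * (8 * d) / (2 ^ (3 * k) * y) ^ 2 - 1 = -(2 ^ (6 * k) * (8 * d) / (2 ^ (3 * k) * y) ^ 2) := by
          ring
        rw [e1, Valuation.map_neg, map_div₀, map_pow v (2 ^ (3 * k) * y) 2, vy', one_pow, div_one, map_mul, h8, map_pow]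
        exact (mul_le_mul' (pow_le_one' h2le _) le_rfl).trans (one_mul _).le
      have e2 : 2 ^ (2 * k) * x = (2 ^ (3 * k) * y / (2 ^ (2 * k) * x)) * (2 ^ (3 * k) * y / (2 ^ (2 * k) * x)) *
          (1 - 2 ^ (6 * k) * (8 * d) / (2 ^ (3 * k) * y) ^ 2) := by
        have e3 : (2 ^ (2 * k) * x) ^ 3 = (2 ^ (3 * k) * y) ^ 2 - 2 ^ (6 * k) * (8 * d) := by
          rw [mul_pow, mul_pow, hy, ← pow_mul, ← pow_mul]
          ring
        generalize 2 ^ (2 * k) * x = X at e3 hx'0 ⊢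
        generalize 2 ^ (3 * k) * y = Y at e3 hy'0 ⊢
        field_simp
        linear_combination e3
      rw [e2]
      exact (IsSquare.mul_self _).mul h3
    obtain ⟨f, hf⟩ := hsqx
    have vf : v f = 1 := by
      have h3 : v f ^ 2 = 1 := by rw [← map_pow, pow_two, ← hf, vx']
      exact (pow_eq_one_iff.1 h3).resolve_right (by norm_num)
    have hf0 : f ≠ 0 := by
      rintro rfl; rw [map_zero] at vf; exact zero_ne_one vf
    have v2k1 : v ((2 : C) ^ (2 * k) * 2) ≤ v 2 ^ 2 := by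
      rw [map_mul, map_pow, ← pow_succ]
      exact pow_le_pow_right_of_le_one' h2le (by omega)
    have v2k1' : v ((2 : C) ^ (2 * k) * 2) < 1 :=
      lt_of_le_of_lt v2k1 (pow_lt_one₀ zero_le h2lt (by norm_num))
    refine fin (f * f, 2 ^ (2 * k) * 2, 0) (2 ^ k * (t8 g).1, 2 ^ k * (t8 g).2.1, 2 ^ k * (t8 g).2.2) 0 ?_ ?_ ?_ ?_
    · refine ⟨⟨?_, v2k1'.le, by simp⟩, ?_⟩
      · change v (f * f) ≤ 1
        rw [map_mul, vf, mul_one]
      · have e1 : nm d (f * f, 2 ^ (2 * k) * 2, 0) = (f * f) ^ 3 + d * (2 ^ (2 * k) * 2) ^ 3 := by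
          simp only [nm]
          ring
        rw [e1, Valuation.map_add_eq_of_lt_left, map_pow, map_mul, vf, mul_one, one_pow]
        rw [map_mul, map_pow, map_pow, map_mul v f f, vf, mul_one, one_pow, hd, one_mul]
        exact pow_lt_one₀ zero_le v2k1' (by norm_num)
    · rw [map_zero]; exact zero_le_one
    · have e1 : mu d (t8 u) (f * f, 2 ^ (2 * k) * 2, 0) = (2 ^ (2 * k) * (mu d (t8 u) (x, 2, 0)).1,
          2 ^ (2 * k) * (mu d (t8 u) (x, 2, 0)).2.1, 2 ^ (2 * k) * (mu d (t8 u) (x, 2, 0)).2.2) := by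
        rw [← hf]
        simp only [mu, Prod.mk.injEq]
        refine ⟨?_, ?_, ?_⟩ <;> ring
      rw [e1, hg']
      simp only [mu, Prod.mk.injEq]
      refine ⟨?_, ?_, ?_⟩ <;> ring
    · refine ⟨(f⁻¹, 0, 0), ?_, ?_⟩
      · refine ⟨⟨?_, by simp, by simp⟩, ?_⟩
        · change v f⁻¹ ≤ 1
          rw [map_inv₀, vf, inv_one]
        · have e1 : nm d (f⁻¹, 0, 0) = f⁻¹ ^ 3 := by
            simp only [nm]
            ring
          rw [e1, map_pow, map_inv₀, vf, inv_one, one_pow]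
      · have e1 : mu d (f * f, 2 ^ (2 * k) * 2, 0) (mu d (f⁻¹, 0, 0) (f⁻¹, 0, 0)) =
            ((1, 2 ^ (2 * k) * 2 * (f⁻¹ * f⁻¹), 0) : C × C × C) := by
          simp only [mu, Prod.mk.injEq]
          refine ⟨?_, ?_, ?_⟩
          · field_simp
            ring
          · ring
          · ring
        rw [e1]
        refine ⟨by simp, ?_, by simp⟩
        change v (2 ^ (2 * k) * 2 * (f⁻¹ * f⁻¹) - 2 * 0) ≤ v 2 ^ 2
        rw [mul_zero, sub_zero, map_mul, map_mul v f⁻¹ f⁻¹, map_inv₀, vf, inv_one, mul_one, mul_one]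
        exact v2k1

/-- [P5d] -/
theorem adj8 : AdjP v o (8 * d) := by
  have ho := h.ho
  have ho3 : o ^ 3 = 1 := by linear_combination (o - 1) * ho
  obtain ⟨vo, -, vo1⟩ := v_o h
  obtain ⟨h2lt, h20⟩ := two_lt h
  have hd1 : v d ≤ 1 := hd.le
  have v0 : v (0 : C) ≤ 1 := by rw [map_zero]; exact zero_le_one
  have hsg : ∀ u : C × C × C, t8 (P5d_sg o u) = P5d_sg o (t8 u) := by
    intro u
    simp only [t8, P5d_sg, Prod.mk.injEq]
    refine ⟨trivial, ?_, ?_⟩ <;> ring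
  have hunsg : ∀ u : C × C × C, Un v d u → Un v d (P5d_sg o u) := by
    rintro u ⟨⟨k1, k2, k3⟩, k4⟩
    refine ⟨⟨k1, ?_, ?_⟩, ?_⟩
    · change v (o * u.2.1) ≤ 1
      rw [map_mul, vo, one_mul]
      exact k2
    · change v (o ^ 2 * u.2.2) ≤ 1
      rw [map_mul, map_pow, vo, one_pow, one_mul]
      exact k3
    · rw [P5d_sg_nm ho3, k4]
  have hrep : ∀ a : C, (a = 0 ∨ a = 1 ∨ a = o ∨ a = o ^ 2) → v a ≤ 1 := by
    rintro a (rfl | rfl | rfl | rfl)
    · exact v0
    · rw [map_one]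
    · exact vo.le
    · rw [map_pow, vo, one_pow]
  refine P5d_adj (ζ := o ^ 2) ho3 (Or.inr rfl)
    (fun u a => ∃ q₁ : C, v q₁ ≤ 1 ∧ v a ≤ 1 ∧ Un v d (t8 u) ∧ CL v d (t8 u) q₁ a) ?_ ?_ ?_ ?_ ?_
  · intro α hα hα2 _
    have hnc : ∀ ρ : C, ρ ^ 3 = d → ∃ γ : WithZero (Multiplicative ℤ), v (ev (t8 α) ρ) = γ ^ 2 := by
      intro ρ hρ
      exfalso
      have vρ : v ρ = 1 := by
        have h3 : v ρ ^ 3 = 1 := by rw [← map_pow, hρ, hd]
        exact (pow_eq_one_iff.1 h3).resolve_right (by norm_num)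
      have h4 := third h vρ
      rw [hρ] at h4
      have h5 : v (e - 1) ≤ v 2 := by
        have e1 : e - 1 = (d - 1) - (d - e) := by ring
        rw [e1]
        exact (v.map_sub _ _).trans (max_le h4 hde)
      have h6 : v (e - 1) = 1 := by
        rcases he with rfl | rfl
        · rw [← Valuation.map_neg, neg_sub]
          exact vo1
        · have e1 : o ^ 2 - 1 = (1 - o) * o ^ 2 := by linear_combination ho3
          rw [e1, map_mul, map_pow, vo, one_pow, mul_one]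
          exact vo1
      rw [h6] at h5
      exact absurd h2lt (not_lt.2 h5)
    obtain ⟨g', hg', hun⟩ := exists_un h hd (u := t8 α) (by rw [t8_nm]; exact hα) (by rw [t8_nm]; exact hα2) hnc
    obtain ⟨g, rfl⟩ : ∃ g : C × C × C, g' = t8 g := by
      refine ⟨(g'.1, g'.2.1 / 2, g'.2.2 / 4), ?_⟩
      obtain ⟨a, b, c⟩ := g'
      simp only [t8, Prod.mk.injEq]
      refine ⟨trivial, ?_, ?_⟩
      · field_simp
      · field_simp
    rw [← t8_mu, ← t8_mu] at hun
    obtain ⟨q₁, q₂, k1, k2, hc⟩ := cl_exists h hd hun (by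
      rw [t8_nm, nm_mu, nm_mu]
      exact hα2.mul (IsSquare.mul_self _))
    have hfin : ∀ r : C, (r = 0 ∨ r = 1 ∨ r = o ∨ r = o ^ 2) → v (q₂ - r) ≤ v 2 →
        ∃ (g : C × C × C) (a : C), nm (8 * d) g ≠ 0 ∧ (a = 0 ∨ a = 1 ∨ a = o ∨ a = o ^ 2) ∧
          (∃ q₁ : C, v q₁ ≤ 1 ∧ v a ≤ 1 ∧ Un v d (t8 (mu (8 * d) α (mu (8 * d) g g))) ∧
            CL v d (t8 (mu (8 * d) α (mu (8 * d) g g))) q₁ a) := by
      intro r hr hqr
      refine ⟨g, r, ?_, hr, q₁, k1, hrep r hr, hun, ?_⟩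
      · rw [← t8_nm]
        exact hg'
      · refine cl_congr h hc ?_ hqr
        rw [sub_self, map_zero]
        exact zero_le
    rcases h.res q₂ k2 with h7 | h7 | h7 | h7
    · exact hfin 0 (Or.inl rfl) (by rwa [sub_zero])
    · exact hfin 1 (Or.inr (Or.inl rfl)) h7
    · exact hfin o (Or.inr (Or.inr (Or.inl rfl))) h7
    · exact hfin (o ^ 2) (Or.inr (Or.inr (Or.inr rfl))) h7
  · rintro u w a b ⟨q, k1, k2, k3, k4⟩ ⟨r, l1, l2, l3, l4⟩
    refine ⟨q + r, (v.map_add _ _).trans (max_le k1 l1), (v.map_add _ _).trans (max_le k2 l2), ?_, ?_⟩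
    · rw [t8_mu]
      exact un_mu hd1 k3 l3
    · rw [t8_mu]
      exact cl_mul h hd k3 l3 k1 k2 l1 l2 k4 l4
  · rintro w b ⟨r, l1, l2, l3, l4⟩
    refine ⟨o * r, ?_, ?_, ?_, ?_⟩
    · rw [map_mul, vo, one_mul]
      exact l1
    · rw [map_mul, map_pow, vo, one_pow, one_mul]
      exact l2
    · rw [hsg]
      exact hunsg _ l3
    · rw [hsg]
      exact cl_sig h hd l4
  · rintro u _ hs ⟨q, k1, -, k3, k4⟩
    exact conv8 h hd he hde k3 hs k1 (by rw [map_zero]; exact zero_le) k4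
  · rintro u a ha ⟨q, k1, k2, k3, k4⟩
    refine ⟨q, k1, v0, k3, cl_congr h k4 (by rw [sub_self, map_zero]; exact zero_le) ?_⟩
    have e1 : a + a - 0 = 2 * a := by ring
    rw [e1, map_mul]
    exact (mul_le_mul' le_rfl (hrep a (Or.inr ha))).trans (mul_one _).le

end

end JT
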