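import Pool.Agent.JT.P4

/-!
# [JT-P6] the units of `C[T]/(T³ - d)`, `v d = v 2`, modulo squares

`T` is a uniformizer. `Rc v u a`: `u₁ ≡ a u₀ mod 2`. `Kc v d u k`: `u g² ≡ 1 + 2 k T² mod 4` for a unit `g`.

PROOF. The norm is `u₀³ + d u₁³ + d² u₂³ - 3 d u₀ u₁ u₂`. `unR_iff` [P6a]: for integral coordinates the norm is a unit iff `u₀` is (all the other terms are `≡ 0 mod 2`). `in_of_nmR` [P6a]: the three terms `u₀³`, `d u₁³`, `d² u₂³` have valuations (exponents) `≡ 0, 1, 2 mod 3`, so they are different (or `0`), and the valuation of the norm is the largest of them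
(the term `3 d u₀ u₁ u₂` has valuation `≤ (product of the three)^(1/3)`, smaller than the largest): so `v (nm d u) ≤ 1` implies `v(u₀)³, v(d) v(u₁)³, v(d)² v(u₂)³ ≤ 1`, so all `v(u_i) ≤ 1` (integers).
`rc_exists`: `u₁/u₀` integral, `res`. `rc_mul`: modulo 2: `(u w)₀ ≡ u₀ w₀`, `(u w)₁ ≡ u₀ w₁ + u₁ w₀`. `rc_sq`, `rc_sig` (`(u₀, o u₁, o² u₂)`), `rc_unique` clear (`u₀` is a unit).
`kc_exists` [P6b]: `u₀ ≡ ζ`, replace `u` by `ζ^2 u`... (multiply by the square of the scalar `ζ`: `ζ² u₀ ≡ ζ³ = 1`): `u ≡ (1, 0, u₂) mod 2` (`Rc u 0`). `g₁ = (1, c, 0)`, `c² ≡ u₂ mod 2` (`c = u₂²`, `fourth`): `g₁² ≡ (1, 0, c²)`, `u g₁² ≡ (1, 0, u₂ + c²) ≡ (1, 0, 0) mod 2` (`T³ = d ≡ 0`). So `u g₁² = 1 + 2 γ`; norm `≡ 1 + 6 γ₀ mod 4` is a square: `sq_one4`: `γ₀ ≡ 0 mod 2`.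
`g₂ = (1, 0, c')`, `c'² ≡ γ₁ (2/d) mod 2`, `c'` integral (`c' = (γ₁ (2/d))²`): `g₂² = 1 + 2 c' T² + c'² T⁴ = (1, c'² d, 2 c')`, `(1 + 2 γ) g₂² ≡ (1, 2 γ₁ + c'² d, 2 γ₂ + 2 c') mod 4`, and `c'² d ≡ 2 γ₁ mod 4`, so `≡ (1, 0, 2 k)`, `k = γ₂ + c'`; by `res` and `kc_congr` `k ∈ {0, 1, o, o²}`.
`kc_mul`: `(1 + 2 k T²)(1 + 2 l T²) ≡ 1 + 2 (k + l) T² mod 4`. `kc_zero`: `ker4r` (P2) for `u g²`, `sqA_of_sq_mul`. `kc_sig`: apply `(a, o b, o² c)` (multiplicative).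
`exists_unR` [P6a]: `nm d u` is a square; its valuation is that of the largest of the three terms `u₀³`, `d u₁³`, `d² u₂³`: `exp (-m)`, `m` even, `m = 2 j`; `g = T^(-j)` (`T^(-1) = T²/d`): the norm of `u g²` is `nm d u / d^(2j)`, a unit: `in_of_nmR`.
-/

set_option autoImplicit false

open scoped Classical

namespace JT

/-- `u₁ ≡ a u₀ mod 2` -/
def Rc {C : Type} [Field C] (v : Valuation C (WithZero (Multiplicative ℤ))) (u : C × C × C) (a : C) : Prop :=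
  v (u.2.1 - a * u.1) ≤ v 2

/-- `u g² ≡ 1 + 2 k T² mod 4` -/
def Kc {C : Type} [Field C] (v : Valuation C (WithZero (Multiplicative ℤ))) (d : C) (u : C × C × C) (k : C) : Prop :=
  ∃ g : C × C × C, Un v d g ∧ Cg v 2 (mu d u (mu d g g)) (1, 0, 2 * k)

/-! ### [P6a] auxiliary lemmas -/

theorem p6_exp {x : WithZero (Multiplicative ℤ)} (hx : x ≠ 0) : ∃ n : ℤ, x = WithZero.exp n :=
  ⟨WithZero.log x, (WithZero.exp_log hx).symm⟩

theorem p6_three {C : Type} [Field C] {v : Valuation C (WithZero (Multiplicative ℤ))} {a b c m : C} (hb : v b < v a)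
    (hc : v c < v a) (hm : v m ^ 3 = v a * v b * v c) : v (a + b + c + m) = v a := by
  have ha : 0 < v a := lt_of_le_of_lt zero_le hb
  have h1 : v a * v b * v c < v a ^ 3 := by
    have h2 : v b * v c < v a * v a := by
      rcases eq_or_ne (v c) 0 with h0 | h0
      · rw [h0, mul_zero]
        exact mul_pos ha ha
      · exact mul_lt_mul'' hb hc zero_le zero_le
    have h3 : v a ^ 3 = v a * (v a * v a) := by rw [pow_succ, pow_two, mul_assoc]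
    rw [h3, mul_assoc]
    exact mul_lt_mul_of_pos_left h2 ha
  have h2 : v m < v a := by
    rw [← hm] at h1
    exact lt_of_pow_lt_pow_left₀ 3 zero_le h1
  rw [Valuation.map_add_eq_of_lt_left, Valuation.map_add_eq_of_lt_left, Valuation.map_add_eq_of_lt_left]
  · exact hb
  · rw [Valuation.map_add_eq_of_lt_left v hb]
    exact hc
  · rw [Valuation.map_add_eq_of_lt_left, Valuation.map_add_eq_of_lt_left v hb]
    · exact h2
    · rw [Valuation.map_add_eq_of_lt_left v hb]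
      exact hc

section
variable {C : Type} [Field C] [CharZero C] {v : Valuation C (WithZero (Multiplicative ℤ))} {o : C} (h : Lc2 v o) {d : C} (hd : v d = v 2)
include h hd

theorem p6_d0 : d ≠ 0 := by
  rintro rfl
  rw [map_zero] at hd
  exact (two_lt h).2 hd.symm

/-- the valuation of the norm is the largest one of the three terms -/
theorem p6_nm {u : C × C × C} (hu : u ≠ 0) :
    (v (nm d u) = v u.1 ^ 3 ∧ v u.2.1 ^ 3 * v d < v u.1 ^ 3 ∧ v u.2.2 ^ 3 * v d ^ 2 < v u.1 ^ 3) ∨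
    (v (nm d u) = v u.2.1 ^ 3 * v d ∧ v u.1 ^ 3 < v u.2.1 ^ 3 * v d ∧ v u.2.2 ^ 3 * v d ^ 2 < v u.2.1 ^ 3 * v d) ∨
    (v (nm d u) = v u.2.2 ^ 3 * v d ^ 2 ∧ v u.1 ^ 3 < v u.2.2 ^ 3 * v d ^ 2 ∧ v u.2.1 ^ 3 * v d < v u.2.2 ^ 3 * v d ^ 2) := by
  obtain ⟨a, b, c⟩ := u
  have hd1 : v d = WithZero.exp (-1 : ℤ) := hd.trans h.two
  have hd0 : v d ≠ 0 := by rw [hd]; exact (two_lt h).2
  have hva : v (a ^ 3) = v a ^ 3 := map_pow v a 3
  have hvb : v (d * b ^ 3) = v b ^ 3 * v d := by rw [map_mul, map_pow, mul_comm]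
  have hvc : v (d ^ 2 * c ^ 3) = v c ^ 3 * v d ^ 2 := by rw [map_mul, map_pow, map_pow, mul_comm]
  have h3 := (v_o h).2.1
  have hm : v (-(3 * d * a * b * c)) ^ 3 = v (a ^ 3) * v (d * b ^ 3) * v (d ^ 2 * c ^ 3) := by
    rw [Valuation.map_neg, ← map_pow, ← map_mul, ← map_mul]
    have e1 : (3 * d * a * b * c) ^ 3 = 3 ^ 3 * (a ^ 3 * (d * b ^ 3) * (d ^ 2 * c ^ 3)) := by ring
    rw [e1, map_mul, map_pow, h3, one_pow, one_mul]
  have e0 : nm d (a, b, c) = a ^ 3 + d * b ^ 3 + d ^ 2 * c ^ 3 + -(3 * d * a * b * c) := by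
    simp only [nm]
    ring
  have e1 : nm d (a, b, c) = d * b ^ 3 + a ^ 3 + d ^ 2 * c ^ 3 + -(3 * d * a * b * c) := by
    simp only [nm]
    ring
  have e2 : nm d (a, b, c) = d ^ 2 * c ^ 3 + a ^ 3 + d * b ^ 3 + -(3 * d * a * b * c) := by
    simp only [nm]
    ring
  -- the three valuations are different
  have hne : ∀ {x : WithZero (Multiplicative ℤ)} {n : ℤ}, x ≠ 0 → x = WithZero.exp n → x ^ 3 = WithZero.exp (3 * n) := by
    intro x n _ hx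
    rw [hx, ← WithZero.exp_nsmul]
    congr 1
  have nab : v a ^ 3 = v b ^ 3 * v d → v a = 0 ∧ v b = 0 := by
    intro h4
    by_cases hb : v b = 0
    · rw [hb] at h4
      simp at h4
      exact ⟨by simpa using h4, hb⟩
    · exfalso
      have ha : v a ≠ 0 := by
        intro ha
        rw [ha] at h4
        exact mul_ne_zero (pow_ne_zero 3 hb) hd0 (by rw [← h4]; simp)
      obtain ⟨i, hi⟩ := p6_exp ha
      obtain ⟨j, hj⟩ := p6_exp hb
      rw [hne ha hi, hne hb hj, hd1, ← WithZero.exp_add, WithZero.exp_inj] at h4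
      omega
  have nac : v a ^ 3 = v c ^ 3 * v d ^ 2 → v a = 0 ∧ v c = 0 := by
    intro h4
    by_cases hb : v c = 0
    · rw [hb] at h4
      simp at h4
      exact ⟨by simpa using h4, hb⟩
    · exfalso
      have ha : v a ≠ 0 := by
        intro ha
        rw [ha] at h4
        exact mul_ne_zero (pow_ne_zero 3 hb) (pow_ne_zero 2 hd0) (by rw [← h4]; simp)
      obtain ⟨i, hi⟩ := p6_exp ha
      obtain ⟨j, hj⟩ := p6_exp hb
      rw [hne ha hi, hne hb hj, hd1, sq, ← WithZero.exp_add, ← WithZero.exp_add, WithZero.exp_inj] at h4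
      omega
  have nbc : v b ^ 3 * v d = v c ^ 3 * v d ^ 2 → v b = 0 ∧ v c = 0 := by
    intro h4
    by_cases hb : v c = 0
    · rw [hb] at h4
      simp at h4
      rcases h4 with h4 | h4
      · exact ⟨by simpa using h4, hb⟩
      · exact absurd h4 (by
          rintro rfl
          exact hd0 (map_zero v))
    · exfalso
      have ha : v b ≠ 0 := by
        intro ha
        rw [ha] at h4
        exact mul_ne_zero (pow_ne_zero 3 hb) (pow_ne_zero 2 hd0) (by rw [← h4]; simp)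
      obtain ⟨i, hi⟩ := p6_exp ha
      obtain ⟨j, hj⟩ := p6_exp hb
      rw [hne ha hi, hne hb hj, hd1, sq, ← WithZero.exp_add, ← WithZero.exp_add, ← WithZero.exp_add, WithZero.exp_inj] at h4
      omega
  have hne0 : ¬ (v a = 0 ∧ v b = 0 ∧ v c = 0) := by
    rintro ⟨h4, h5, h6⟩
    rw [map_eq_zero] at h4 h5 h6
    subst h4 h5 h6
    exact hu rfl
  -- the three cases
  have A : v b ^ 3 * v d < v a ^ 3 → v c ^ 3 * v d ^ 2 < v a ^ 3 → v (nm d (a, b, c)) = v a ^ 3 := by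
    intro h4 h5
    rw [e0, p6_three (by rw [hva, hvb]; exact h4) (by rw [hva, hvc]; exact h5) hm, hva]
  have B : v a ^ 3 < v b ^ 3 * v d → v c ^ 3 * v d ^ 2 < v b ^ 3 * v d → v (nm d (a, b, c)) = v b ^ 3 * v d := by
    intro h4 h5
    rw [e1, p6_three (by rw [hva, hvb]; exact h4) (by rw [hvb, hvc]; exact h5) (by
      rw [hm, mul_comm (v (a ^ 3)) (v (d * b ^ 3))]), hvb]
  have E : v a ^ 3 < v c ^ 3 * v d ^ 2 → v b ^ 3 * v d < v c ^ 3 * v d ^ 2 → v (nm d (a, b, c)) = v c ^ 3 * v d ^ 2 := by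
    intro h4 h5
    rw [e2, p6_three (by rw [hva, hvc]; exact h4) (by rw [hvb, hvc]; exact h5) (by
      rw [hm, mul_comm, ← mul_assoc]), hvc]
  have hz : ∀ x : C, v x = 0 → v x ^ 3 = 0 := fun x hx => by rw [hx]; simp
  rcases lt_trichotomy (v a ^ 3) (v b ^ 3 * v d) with h4 | h4 | h4
  · rcases lt_trichotomy (v b ^ 3 * v d) (v c ^ 3 * v d ^ 2) with h5 | h5 | h5
    · exact Or.inr (Or.inr ⟨E (h4.trans h5) h5, h4.trans h5, h5⟩)
    · have h6 := nbc h5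
      rw [hz _ h6.1, zero_mul] at h4
      exact absurd h4 (not_lt.2 zero_le)
    · exact Or.inr (Or.inl ⟨B h4 h5, h4, h5⟩)
  · have h6 := nab h4
    have h7 : v c ≠ 0 := fun h7 => hne0 ⟨h6.1, h6.2, h7⟩
    have h8 : 0 < v c ^ 3 * v d ^ 2 := by
      have : v c ^ 3 * v d ^ 2 ≠ 0 := mul_ne_zero (pow_ne_zero 3 h7) (pow_ne_zero 2 hd0)
      exact zero_lt_iff.2 this
    have h9 : v a ^ 3 < v c ^ 3 * v d ^ 2 := by rw [hz _ h6.1]; exact h8
    have h10 : v b ^ 3 * v d < v c ^ 3 * v d ^ 2 := by rw [hz _ h6.2, zero_mul]; exact h8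
    exact Or.inr (Or.inr ⟨E h9 h10, h9, h10⟩)
  · rcases lt_trichotomy (v a ^ 3) (v c ^ 3 * v d ^ 2) with h5 | h5 | h5
    · exact Or.inr (Or.inr ⟨E h5 (h4.trans h5), h5, h4.trans h5⟩)
    · have h6 := nac h5
      rw [hz _ h6.1] at h4
      exact absurd h4 (not_lt.2 zero_le)
    · exact Or.inl ⟨A h4 h5, h4, h5⟩

/-- an element of given norm -/
theorem p6_pow (k : ℤ) : ∃ g : C × C × C, nm d g = d ^ k := by
  have hd0 := p6_d0 h hd
  have hk := Int.emod_add_mul_ediv k 3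
  have h1 : k % 3 = 0 ∨ k % 3 = 1 ∨ k % 3 = 2 := by omega
  rcases h1 with h1 | h1 | h1 <;> rw [h1] at hk
  · refine ⟨(d ^ (k / 3), 0, 0), ?_⟩
    have e1 : nm d (d ^ (k / 3), 0, 0) = (d ^ (k / 3)) ^ 3 := by
      simp only [nm]
      ring
    rw [e1, ← hk, ← zpow_natCast, ← zpow_mul]
    congr 1
    push_cast
    omega
  · refine ⟨(0, d ^ (k / 3), 0), ?_⟩
    have e1 : nm d (0, d ^ (k / 3), 0) = d ^ (1 : ℤ) * (d ^ (k / 3)) ^ 3 := by
      simp only [nm]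
      rw [zpow_one]
      ring
    rw [e1, ← hk, ← zpow_natCast, ← zpow_mul, ← zpow_add₀ hd0]
    congr 1
    push_cast
    omega
  · refine ⟨(0, 0, d ^ (k / 3)), ?_⟩
    have e1 : nm d (0, 0, d ^ (k / 3)) = d ^ (2 : ℤ) * (d ^ (k / 3)) ^ 3 := by
      simp only [nm]
      have : d ^ (2 : ℤ) = d ^ 2 := by norm_cast
      rw [this]
      ring
    rw [e1, ← hk, ← zpow_natCast, ← zpow_mul, ← zpow_add₀ hd0]
    congr 1
    push_cast
    omega

/-- [P6a] -/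
theorem unR_iff {u : C × C × C} (hu : In v u) : v (nm d u) = 1 ↔ v u.1 = 1 := by
  obtain ⟨a, b, c⟩ := u
  obtain ⟨ha, hb, hc⟩ := hu
  have h2 := (two_lt h).1
  have ia : a ∈ v.integer := ha
  have ib : b ∈ v.integer := hb
  have ic : c ∈ v.integer := hc
  have i3 : (3 : C) ∈ v.integer := (v_o h).2.1.le
  have id' : d ∈ v.integer := (hd.trans_lt h2).le
  have h3 : v (d * (b ^ 3 + d * c ^ 3 - 3 * a * b * c)) < 1 := by
    rw [map_mul, hd]
    refine lt_of_le_of_lt (mul_le_of_le_one_right' ?_) h2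
    exact sub_mem (add_mem (pow_mem ib 3) (mul_mem id' (pow_mem ic 3))) (mul_mem (mul_mem (mul_mem i3 ia) ib) ic)
  have e1 : nm d (a, b, c) = a ^ 3 + d * (b ^ 3 + d * c ^ 3 - 3 * a * b * c) := by
    simp only [nm]
    ring
  rw [e1]
  show _ ↔ v a = 1
  constructor
  · intro h4
    by_contra h5
    have h6 : v a < 1 := lt_of_le_of_ne ha h5
    have h7 : v (a ^ 3) < 1 := by
      rw [map_pow]
      exact pow_lt_one₀ zero_le h6 (by norm_num)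
    have h8 := Valuation.map_add_lt v h7 h3
    rw [h4] at h8
    exact lt_irrefl _ h8
  · intro h4
    have h5 : v (a ^ 3) = 1 := by rw [map_pow, h4, one_pow]
    rw [Valuation.map_add_eq_of_lt_left v (by rw [h5]; exact h3), h5]

/-- [P6a] -/
theorem in_of_nmR {u : C × C × C} (hu : v (nm d u) ≤ 1) : In v u := by
  by_cases h0 : u = 0
  · rw [h0]
    refine ⟨?_, ?_, ?_⟩ <;> · show v 0 ≤ 1; rw [map_zero]; exact zero_le
  have hd1 : v d = WithZero.exp (-1 : ℤ) := hd.trans h.two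
  have key : ∀ {x : WithZero (Multiplicative ℤ)} {n : ℕ}, n < 3 → x ^ 3 * v d ^ n ≤ 1 → x ≤ 1 := by
    intro x n hn h4
    by_cases hx : x = 0
    · rw [hx]
      exact zero_le
    · obtain ⟨i, hi⟩ := p6_exp hx
      have e1 : x ^ 3 * v d ^ n = WithZero.exp (3 * i - n) := by
        rw [hi, hd1, ← WithZero.exp_nsmul, ← WithZero.exp_nsmul, ← WithZero.exp_add]
        congr 1
        simp
        ring
      rw [e1, ← WithZero.exp_zero, WithZero.exp_le_exp] at h4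
      rw [hi, ← WithZero.exp_zero, WithZero.exp_le_exp]
      omega
  have k0 : v u.1 ^ 3 ≤ 1 → v u.1 ≤ 1 := fun h4 => key (n := 0) (by norm_num) (by rw [pow_zero, mul_one]; exact h4)
  have k1 : v u.2.1 ^ 3 * v d ≤ 1 → v u.2.1 ≤ 1 := fun h4 => key (n := 1) (by norm_num) (by rw [pow_one]; exact h4)
  have k2 : v u.2.2 ^ 3 * v d ^ 2 ≤ 1 → v u.2.2 ≤ 1 := fun h4 => key (n := 2) (by norm_num) h4
  rcases p6_nm h hd h0 with ⟨h1, h2, h3⟩ | ⟨h1, h2, h3⟩ | ⟨h1, h2, h3⟩ <;> rw [h1] at hu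
  · exact ⟨k0 hu, k1 (h2.le.trans hu), k2 (h3.le.trans hu)⟩
  · exact ⟨k0 (h2.le.trans hu), k1 hu, k2 (h3.le.trans hu)⟩
  · exact ⟨k0 (h2.le.trans hu), k1 (h3.le.trans hu), k2 hu⟩

/-- [P6a] -/
theorem exists_unR {u : C × C × C} (hu : nm d u ≠ 0) (hs : IsSquare (nm d u)) :
    ∃ g : C × C × C, nm d g ≠ 0 ∧ Un v d (mu d u (mu d g g)) := by
  obtain ⟨n, hn⟩ := hs
  have hn0 : n ≠ 0 := by
    rintro rfl
    rw [mul_zero] at hn
    exact hu hn
  have hd0 := p6_d0 h hd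
  have hd1 : v d = WithZero.exp (-1 : ℤ) := hd.trans h.two
  obtain ⟨k, hk⟩ := p6_exp ((Valuation.ne_zero_iff v).2 hn0)
  obtain ⟨g, hg⟩ := p6_pow h hd k
  refine ⟨g, by rw [hg]; exact zpow_ne_zero k hd0, ?_⟩
  have h1 : v (nm d (mu d u (mu d g g))) = 1 := by
    rw [nm_mu, nm_mu, hn, hg, map_mul, map_mul, map_mul, hk, map_zpow₀, hd1, ← WithZero.exp_zsmul,
      ← WithZero.exp_add, ← WithZero.exp_add, ← WithZero.exp_add, ← WithZero.exp_zero]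
    congr 1
    simp
  exact ⟨in_of_nmR h hd h1.le, h1⟩

/-- [P6a] -/
theorem rc_exists {u : C × C × C} (hu : Un v d u) : ∃ a : C, (a = 0 ∨ a = 1 ∨ a = o ∨ a = o ^ 2) ∧ Rc v u a := by
  have h1 := (unR_iff h hd hu.1).1 hu.2
  have h0 : u.1 ≠ 0 := by
    intro h0
    rw [h0, map_zero] at h1
    exact zero_ne_one h1
  have h2 : v (u.2.1 / u.1) ≤ 1 := by
    rw [map_div₀, h1, div_one]
    exact hu.1.2.1
  have key : ∀ a : C, v (u.2.1 / u.1 - a) ≤ v 2 → Rc v u a := by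
    intro a ha
    have e1 : u.2.1 - a * u.1 = (u.2.1 / u.1 - a) * u.1 := by
      field_simp
    unfold Rc
    rw [e1, map_mul, h1, mul_one]
    exact ha
  rcases h.res _ h2 with h3 | h3 | h3 | h3
  · exact ⟨0, Or.inl rfl, key 0 (by rwa [sub_zero])⟩
  · exact ⟨1, Or.inr (Or.inl rfl), key 1 h3⟩
  · exact ⟨o, Or.inr (Or.inr (Or.inl rfl)), key o h3⟩
  · exact ⟨o ^ 2, Or.inr (Or.inr (Or.inr rfl)), key _ h3⟩

/-- [P6a] -/
theorem rc_mul {u w : C × C × C} (hu : Un v d u) (hw : Un v d w) {a b : C} (ha : v a ≤ 1) (hb : v b ≤ 1) (h1 : Rc v u a)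
    (h2 : Rc v w b) : Rc v (mu d u w) (a + b) := by
  obtain ⟨u0, u1, u2⟩ := u
  obtain ⟨w0, w1, w2⟩ := w
  obtain ⟨⟨i0, i1, i2⟩, -⟩ := hu
  obtain ⟨⟨j0, j1, j2⟩, -⟩ := hw
  have i0' : u0 ∈ v.integer := i0
  have i1' : u1 ∈ v.integer := i1
  have i2' : u2 ∈ v.integer := i2
  have j0' : w0 ∈ v.integer := j0
  have j1' : w1 ∈ v.integer := j1
  have j2' : w2 ∈ v.integer := j2
  have ia : a ∈ v.integer := ha
  have ib : b ∈ v.integer := hb
  have h1' : v (u1 - a * u0) ≤ v 2 := h1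
  have h2' : v (w1 - b * w0) ≤ v 2 := h2
  have key : ∀ {x y : C}, v x ≤ v 2 → y ∈ v.integer → v (x * y) ≤ v 2 := by
    intro x y hx hy
    rw [map_mul]
    exact (mul_le_of_le_one_right' hy).trans hx
  show v ((u0 * w1 + u1 * w0 + d * u2 * w2) - (a + b) * (u0 * w0 + d * (u1 * w2 + u2 * w1))) ≤ v 2
  have e1 : (u0 * w1 + u1 * w0 + d * u2 * w2) - (a + b) * (u0 * w0 + d * (u1 * w2 + u2 * w1)) =
      (w1 - b * w0) * u0 + (u1 - a * u0) * w0 + d * (u2 * w2 - (a + b) * (u1 * w2 + u2 * w1)) := by ring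
  rw [e1]
  exact Valuation.map_add_le v (Valuation.map_add_le v (key h2' i0') (key h1' j0')) (key hd.le
    (sub_mem (mul_mem i2' j2') (mul_mem (add_mem ia ib) (add_mem (mul_mem i1' j2') (mul_mem i2' j1')))))

/-- [P6a] -/
theorem rc_sq {g : C × C × C} (hg : Un v d g) : Rc v (mu d g g) 0 := by
  obtain ⟨u0, u1, u2⟩ := g
  obtain ⟨⟨i0, i1, i2⟩, -⟩ := hg
  have i0' : u0 ∈ v.integer := i0
  have i1' : u1 ∈ v.integer := i1
  have i2' : u2 ∈ v.integer := i2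
  have key : ∀ {x y : C}, v x ≤ v 2 → y ∈ v.integer → v (x * y) ≤ v 2 := by
    intro x y hx hy
    rw [map_mul]
    exact (mul_le_of_le_one_right' hy).trans hx
  show v ((u0 * u1 + u1 * u0 + d * u2 * u2) - 0 * (u0 * u0 + d * (u1 * u2 + u2 * u1))) ≤ v 2
  have e1 : (u0 * u1 + u1 * u0 + d * u2 * u2) - 0 * (u0 * u0 + d * (u1 * u2 + u2 * u1)) =
      2 * (u0 * u1) + d * (u2 * u2) := by ring
  rw [e1]
  exact Valuation.map_add_le v (key le_rfl (mul_mem i0' i1')) (key hd.le (mul_mem i2' i2'))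

omit hd in
/-- [P6a] -/
theorem rc_sig {u : C × C × C} {a : C} (h1 : Rc v u a) : Rc v (u.1, o * u.2.1, o ^ 2 * u.2.2) (o * a) := by
  show v (o * u.2.1 - o * a * u.1) ≤ v 2
  have e1 : o * u.2.1 - o * a * u.1 = o * (u.2.1 - a * u.1) := by ring
  rw [e1, map_mul, (v_o h).1, one_mul]
  exact h1

/-- [P6a] -/
theorem rc_unique {u : C × C × C} (hu : Un v d u) {a b : C} (h1 : Rc v u a) (h2 : Rc v u b) : v (a - b) ≤ v 2 := by
  have h3 := (unR_iff h hd hu.1).1 hu.2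
  have e1 : (a - b) * u.1 = (u.2.1 - b * u.1) - (u.2.1 - a * u.1) := by ring
  have h4 : v ((a - b) * u.1) ≤ v 2 := by
    rw [e1]
    exact Valuation.map_sub_le v h2 h1
  rwa [map_mul, h3, mul_one] at h4

omit hd in
theorem P6b_two_mul {x y : C} (hxy : v (x - y) ≤ v 2) : v (2 * x - 2 * y) ≤ v 2 ^ 2 := by
  rw [← mul_sub, map_mul, pow_two]
  exact mul_le_mul' le_rfl hxy

omit [CharZero C] h hd in
theorem P6b_sqsq (g k : C × C × C) : mu d (mu d g g) (mu d k k) = mu d (mu d g k) (mu d g k) := by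
  simp only [mu, Prod.mk.injEq]
  refine ⟨?_, ?_, ?_⟩ <;> ring

omit [CharZero C] h hd in
theorem P6b_sq_mul (u g k : C × C × C) :
    mu d (mu d u (mu d g g)) (mu d k k) = mu d u (mu d (mu d g k) (mu d g k)) := by
  rw [mu_assoc, P6b_sqsq]

theorem P6b_hd1 : v d ≤ 1 := by
  rw [hd]; exact (two_lt h).1.le

/-- [P6b] -/
theorem kc_congr {u : C × C × C} {k l : C} (h1 : Kc v d u k) (h2 : v (k - l) ≤ v 2) : Kc v d u l := by
  obtain ⟨g, hg, hc⟩ := h1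
  refine ⟨g, hg, cg_trans hc ⟨by simp, by simp, ?_⟩⟩
  exact P6b_two_mul h h2

theorem P6b_core {A B E : C} (hU : Un v d (A, B, E)) (hs : IsSquare (nm d (A, B, E))) (hA : v (A - 1) ≤ v 2) (hB : v B ≤ v 2)
    (hE : v E ≤ v 2) : ∃ k : C, v k ≤ 1 ∧ Kc v d (A, B, E) k := by
  have h2 := (two_lt h).1
  have h20 := (two_lt h).2
  have h2C : (2 : C) ≠ 0 := two_ne_zero
  have hv3 := (v_o h).2.1
  have hd1 := P6b_hd1 h hd
  have hd0 : d ≠ 0 := by
    rintro rfl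
    rw [map_zero] at hd
    exact h20 hd.symm
  have hdiv : ∀ x : C, v x ≤ v 2 → v (x / 2) ≤ 1 := by
    intro x hx
    rw [map_div₀]
    calc v x / v 2 ≤ v 2 / v 2 := by
          rw [div_eq_mul_inv, div_eq_mul_inv]
          exact mul_le_mul' hx le_rfl
      _ = 1 := div_self h20
  obtain ⟨γ0, e0⟩ : ∃ γ0, γ0 = (A - 1) / 2 := ⟨_, rfl⟩
  obtain ⟨γ1, e1⟩ : ∃ γ1, γ1 = B / 2 := ⟨_, rfl⟩
  obtain ⟨γ2, e2⟩ : ∃ γ2, γ2 = E / 2 := ⟨_, rfl⟩
  have g0 : v γ0 ≤ 1 := e0 ▸ hdiv _ hA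
  have g1 : v γ1 ≤ 1 := e1 ▸ hdiv _ hB
  have g2 : v γ2 ≤ 1 := e2 ▸ hdiv _ hE
  have eA : A = 1 + 2 * γ0 := by rw [e0]; field_simp; ring
  have eB : B = 2 * γ1 := by rw [e1]; field_simp
  have eE : E = 2 * γ2 := by rw [e2]; field_simp
  have hpw : v (2 : C) ^ 2 ≤ v 2 := by
    rw [pow_two]
    calc v (2 : C) * v 2 ≤ v 2 * 1 := mul_le_mul' le_rfl h2.le
      _ = v 2 := mul_one _
  -- `γ0 ≡ 0`
  have hg0 : v γ0 ≤ v 2 := by
    have k1 : v (nm d (A, B, E) - (1 + 6 * γ0)) ≤ v 2 ^ 2 := by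
      have e : nm d (A, B, E) - (1 + 6 * γ0) = 2 ^ 2 * (3 * γ0 ^ 2 + 2 * γ0 ^ 3 + 2 * d * γ1 ^ 3 + 2 * d ^ 2 * γ2 ^ 3 -
          3 * d * (1 + 2 * γ0) * γ1 * γ2) := by
        rw [eA, eB, eE]; simp only [nm]; ring
      rw [e, map_mul, map_pow]
      have k2 : v (3 * γ0 ^ 2 + 2 * γ0 ^ 3 + 2 * d * γ1 ^ 3 + 2 * d ^ 2 * γ2 ^ 3 -
          3 * d * (1 + 2 * γ0) * γ1 * γ2) ≤ 1 := by
        refine v.map_sub_le (v.map_add_le (v.map_add_le (v.map_add_le ?_ ?_) ?_) ?_) ?_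
        · rw [map_mul, map_pow, hv3, one_mul]; exact pow_le_one' g0 2
        · rw [map_mul, map_pow]; exact mul_le_one' h2.le (pow_le_one' g0 3)
        · rw [map_mul, map_mul, map_pow]; exact mul_le_one' (mul_le_one' h2.le hd1) (pow_le_one' g1 3)
        · rw [map_mul, map_mul, map_pow, map_pow]
          exact mul_le_one' (mul_le_one' h2.le (pow_le_one' hd1 2)) (pow_le_one' g2 3)
        · rw [map_mul, map_mul, map_mul, map_mul, hv3, one_mul]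
          refine mul_le_one' (mul_le_one' (mul_le_one' hd1 (v.map_add_le (by simp) ?_)) g1) g2
          rw [map_mul]; exact mul_le_one' h2.le g0
      calc v 2 ^ 2 * v (3 * γ0 ^ 2 + 2 * γ0 ^ 3 + 2 * d * γ1 ^ 3 + 2 * d ^ 2 * γ2 ^ 3 -
          3 * d * (1 + 2 * γ0) * γ1 * γ2) ≤ v 2 ^ 2 * 1 := mul_le_mul' le_rfl k2
        _ = v 2 ^ 2 := mul_one _
    have k3 : v (6 * γ0) ≤ v 2 := by
      rw [show (6 : C) * γ0 = 2 * (3 * γ0) by ring, map_mul, map_mul, hv3, one_mul]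
      calc v 2 * v γ0 ≤ v 2 * 1 := mul_le_mul' le_rfl g0
        _ = v 2 := mul_one _
    have k4 : v (nm d (A, B, E) - 1) ≤ v 2 := by
      rw [show nm d (A, B, E) - 1 = (nm d (A, B, E) - (1 + 6 * γ0)) + 6 * γ0 by ring]
      exact v.map_add_le (le_trans k1 hpw) k3
    have k5 := sq_one4 h hs k4
    have k6 : v (6 * γ0) ≤ v 2 ^ 2 := by
      rw [show (6 : C) * γ0 = (nm d (A, B, E) - 1) - (nm d (A, B, E) - (1 + 6 * γ0)) by ring]
      exact v.map_sub_le k5 k1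
    rw [show (6 : C) * γ0 = 2 * (3 * γ0) by ring, map_mul, map_mul, hv3, one_mul, pow_two] at k6
    exact (mul_le_mul_iff_right₀ (zero_lt_iff.2 h20)).1 k6
  -- the second square
  obtain ⟨t, et⟩ : ∃ t, t = γ1 * (2 / d) := ⟨_, rfl⟩
  have ht : v t ≤ 1 := by
    rw [et, map_mul, map_div₀, hd, div_self h20, mul_one]; exact g1
  have htd : d * t = 2 * γ1 := by rw [et]; field_simp
  obtain ⟨c, ec⟩ : ∃ c, c = t ^ 2 := ⟨_, rfl⟩
  have hc : v c ≤ 1 := by rw [ec, map_pow]; exact pow_le_one' ht 2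
  have h4 : v (c ^ 2 - t) ≤ v 2 := by
    rw [ec, ← pow_mul]; exact fourth h ht
  have hdc : v (d * c ^ 2 - 2 * γ1) ≤ v 2 ^ 2 := by
    rw [← htd, ← mul_sub, map_mul, hd, pow_two (v 2)]
    exact mul_le_mul' le_rfl h4
  have hk : v (γ2 + c) ≤ 1 := v.map_add_le g2 hc
  refine ⟨γ2 + c, hk, (1, 0, c), ⟨⟨by simp, by simp, hc⟩, ?_⟩, ?_⟩
  · exact (unR_iff h hd (u := (1, 0, c)) ⟨by simp, by simp, hc⟩).2 (by simp)
  · have hsm : ∀ x : C, v x ≤ 1 → v (2 ^ 2 * x) ≤ v 2 ^ 2 := by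
      intro x hx
      rw [map_mul, map_pow]
      calc v 2 ^ 2 * v x ≤ v 2 ^ 2 * 1 := mul_le_mul' le_rfl hx
        _ = v 2 ^ 2 := mul_one _
    have hdx : ∀ x : C, v x ≤ 1 → v (2 * d * x) ≤ v 2 ^ 2 := by
      intro x hx
      rw [map_mul, map_mul, hd, pow_two]
      calc v 2 * v 2 * v x ≤ v 2 * v 2 * 1 := mul_le_mul' le_rfl hx
        _ = v 2 * v 2 := mul_one _
    have hA1 : v A ≤ 1 := hU.1.1
    refine ⟨?_, ?_, ?_⟩
    · simp only [mu]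
      have e : A * (1 * 1 + d * (0 * c + c * 0)) + d * (B * (1 * c + 0 * 0 + c * 1) + E * (1 * 0 + 0 * 1 + d * c * c)) - 1 =
          2 * γ0 + 2 * d * (2 * γ1 * c + γ2 * d * c ^ 2) := by
        rw [eA, eB, eE]; ring
      rw [e]
      refine v.map_add_le ?_ (hdx _ ?_)
      · rw [map_mul, pow_two]; exact mul_le_mul' le_rfl hg0
      · refine v.map_add_le ?_ ?_
        · rw [map_mul, map_mul]; exact mul_le_one' (mul_le_one' h2.le g1) hc
        · rw [map_mul, map_mul, map_pow]; exact mul_le_one' (mul_le_one' g2 hd1) (pow_le_one' hc 2)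
    · simp only [mu]
      have e : A * (1 * 0 + 0 * 1 + d * c * c) + B * (1 * 1 + d * (0 * c + c * 0)) + d * E * (1 * c + 0 * 0 + c * 1) - 0 =
          (d * c ^ 2 - 2 * γ1) + 2 ^ 2 * γ1 + 2 * d * (γ0 * c ^ 2 + 2 * γ2 * c) := by
        rw [eA, eB, eE]; ring
      rw [e]
      refine v.map_add_le (v.map_add_le hdc (hsm _ g1)) (hdx _ ?_)
      refine v.map_add_le ?_ ?_
      · rw [map_mul, map_pow]; exact mul_le_one' g0 (pow_le_one' hc 2)
      · rw [map_mul, map_mul]; exact mul_le_one' (mul_le_one' h2.le g2) hc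
    · simp only [mu]
      have e : A * (1 * c + 0 * 0 + c * 1) + B * (1 * 0 + 0 * 1 + d * c * c) + E * (1 * 1 + d * (0 * c + c * 0)) -
          2 * (γ2 + c) = 2 ^ 2 * (γ0 * c) + 2 * d * (γ1 * c ^ 2) := by
        rw [eA, eB, eE]; ring
      rw [e]
      refine v.map_add_le (hsm _ ?_) (hdx _ ?_)
      · rw [map_mul]; exact mul_le_one' g0 hc
      · rw [map_mul, map_pow]; exact mul_le_one' g1 (pow_le_one' hc 2)

/-- [P6b] -/
theorem kc_exists {u : C × C × C} (hu : Un v d u) (hs : IsSquare (nm d u)) (hr : Rc v u 0) :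
    ∃ k : C, (k = 0 ∨ k = 1 ∨ k = o ∨ k = o ^ 2) ∧ Kc v d u k := by
  have h2 := (two_lt h).1
  have hd1 := P6b_hd1 h hd
  obtain ⟨u0, u1, u2⟩ := u
  obtain ⟨g0, g1, g2⟩ := hu.1
  simp only at g0 g1 g2
  have hu0 : v u0 = 1 := (unR_iff h hd hu.1).1 hu.2
  have hu1 : v u1 ≤ v 2 := by simpa [Rc] using hr
  obtain ⟨ζ, hζ3, _, hζ⟩ := exists_zeta h hu0
  have hvζ : v ζ = 1 := by
    have h1 : v ζ ^ 3 = 1 := by rw [← map_pow, hζ3, map_one]
    exact (pow_eq_one_iff.1 h1).resolve_right (by norm_num)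
  obtain ⟨c, ec⟩ : ∃ c, c = (ζ ^ 2 * u2) ^ 2 := ⟨_, rfl⟩
  have hz2 : v (ζ ^ 2 * u2) ≤ 1 := by rw [map_mul, map_pow, hvζ, one_pow, one_mul]; exact g2
  have hc : v c ≤ 1 := by rw [ec, map_pow]; exact pow_le_one' hz2 2
  have h4 : v (c ^ 2 - ζ ^ 2 * u2) ≤ v 2 := by rw [ec, ← pow_mul]; exact fourth h hz2
  have hζun : Un v d (ζ, 0, 0) := by
    refine ⟨⟨hvζ.le, by simp, by simp⟩, ?_⟩
    exact (unR_iff h hd (u := (ζ, 0, 0)) ⟨hvζ.le, by simp, by simp⟩).2 hvζ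
  have hcun : Un v d (1, c, 0) := by
    refine ⟨⟨by simp, hc, by simp⟩, ?_⟩
    exact (unR_iff h hd (u := (1, c, 0)) ⟨by simp, hc, by simp⟩).2 (by simp)
  obtain ⟨G, hG⟩ : ∃ G, G = mu d (ζ, 0, 0) (1, c, 0) := ⟨_, rfl⟩
  have hGun : Un v d G := hG ▸ un_mu hd1 hζun hcun
  obtain ⟨U, hU⟩ : ∃ U, U = mu d (u0, u1, u2) (mu d G G) := ⟨_, rfl⟩
  have hUun : Un v d U := hU ▸ un_mu hd1 hu (un_mu hd1 hGun hGun)
  have hUs : IsSquare (nm d U) := by
    rw [hU, nm_mu, nm_mu]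
    exact hs.mul ⟨nm d G, rfl⟩
  have hUe : U = (ζ ^ 2 * u0 + d * (2 * c * (ζ ^ 2 * u2) + c ^ 2 * (ζ ^ 2 * u1)), ζ ^ 2 * u1 + 2 * c * (ζ ^ 2 * u0) + d * c ^ 2 * (ζ ^ 2 * u2),
      ζ ^ 2 * u2 + c ^ 2 * (ζ ^ 2 * u0) + 2 * c * (ζ ^ 2 * u1)) := by
    rw [hU, hG]
    simp only [mu, Prod.mk.injEq]
    refine ⟨?_, ?_, ?_⟩ <;> ring
  have hmul2 : ∀ x : C, v x ≤ 1 → v (2 * x) ≤ v 2 := by
    intro x hx
    rw [map_mul]
    calc v 2 * v x ≤ v 2 * 1 := mul_le_mul' le_rfl hx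
      _ = v 2 := mul_one _
  have hmuld : ∀ x : C, v x ≤ 1 → v (d * x) ≤ v 2 := by
    intro x hx
    rw [map_mul, hd]
    calc v 2 * v x ≤ v 2 * 1 := mul_le_mul' le_rfl hx
      _ = v 2 := mul_one _
  have hmulx : ∀ x y : C, v x ≤ 1 → v y ≤ v 2 → v (x * y) ≤ v 2 := by
    intro x y hx hy
    rw [map_mul]
    calc v x * v y ≤ 1 * v 2 := mul_le_mul' hx hy
      _ = v 2 := one_mul _
  have hz0 : v (ζ ^ 2 * u0 - 1) ≤ v 2 := by
    rw [show ζ ^ 2 * u0 - 1 = ζ ^ 2 * (u0 - ζ) by linear_combination hζ3]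
    exact hmulx _ _ (by rw [map_pow, hvζ, one_pow]) hζ
  have hz0' : v (ζ ^ 2 * u0) ≤ 1 := by rw [map_mul, map_pow, hvζ, one_pow, one_mul]; exact g0
  have hz1 : v (ζ ^ 2 * u1) ≤ v 2 := hmulx _ _ (by rw [map_pow, hvζ, one_pow]) hu1
  have hz1' : v (ζ ^ 2 * u1) ≤ 1 := le_trans hz1 h2.le
  have hc2 : v (c ^ 2) ≤ 1 := by rw [map_pow]; exact pow_le_one' hc 2
  have mle : ∀ x y : C, v x ≤ 1 → v y ≤ 1 → v (x * y) ≤ 1 := by
    intro x y hx hy
    rw [map_mul]; exact mul_le_one' hx hy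
  have hA : v (U.1 - 1) ≤ v 2 := by
    rw [hUe]
    simp only
    rw [show ζ ^ 2 * u0 + d * (2 * c * (ζ ^ 2 * u2) + c ^ 2 * (ζ ^ 2 * u1)) - 1 =
      (ζ ^ 2 * u0 - 1) + d * (2 * c * (ζ ^ 2 * u2) + c ^ 2 * (ζ ^ 2 * u1)) by ring]
    exact v.map_add_le hz0 (hmuld _ (v.map_add_le (mle _ _ (mle _ _ h2.le hc) hz2) (mle _ _ hc2 hz1')))
  have hB : v U.2.1 ≤ v 2 := by
    rw [hUe]
    simp only
    refine v.map_add_le (v.map_add_le hz1 ?_) ?_
    · rw [mul_assoc]; exact hmul2 _ (mle _ _ hc hz0')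
    · rw [mul_assoc]; exact hmuld _ (mle _ _ hc2 hz2)
  have hE : v U.2.2 ≤ v 2 := by
    rw [hUe]
    simp only
    rw [show ζ ^ 2 * u2 + c ^ 2 * (ζ ^ 2 * u0) + 2 * c * (ζ ^ 2 * u1) =
      2 * (ζ ^ 2 * u2 + c * (ζ ^ 2 * u1)) + (c ^ 2 - ζ ^ 2 * u2) + c ^ 2 * (ζ ^ 2 * u0 - 1) by ring]
    exact v.map_add_le (v.map_add_le (hmul2 _ (v.map_add_le hz2 (mle _ _ hc hz1'))) h4) (hmulx _ _ hc2 hz0)
  obtain ⟨k, hk1, g, hg, hcg⟩ := P6b_core h hd (A := U.1) (B := U.2.1) (E := U.2.2) hUun hUs hA hB hE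
  have hK : Kc v d (u0, u1, u2) k := by
    refine ⟨mu d G g, un_mu hd1 hGun hg, ?_⟩
    rw [← P6b_sq_mul, ← hU]
    exact hcg
  rcases h.res k hk1 with h1 | h1 | h1 | h1
  · exact ⟨0, Or.inl rfl, kc_congr h hd hK (by simpa using h1)⟩
  · exact ⟨1, Or.inr (Or.inl rfl), kc_congr h hd hK h1⟩
  · exact ⟨o, Or.inr (Or.inr (Or.inl rfl)), kc_congr h hd hK h1⟩
  · exact ⟨o ^ 2, Or.inr (Or.inr (Or.inr rfl)), kc_congr h hd hK h1⟩

/-- [P6b] -/
theorem kc_mul {u w : C × C × C} (hu : Un v d u) (hw : Un v d w) {k l : C} (hk : v k ≤ 1) (hl : v l ≤ 1) (h1 : Kc v d u k)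
    (h2 : Kc v d w l) : Kc v d (mu d u w) (k + l) := by
  have hd1 := P6b_hd1 h hd
  obtain ⟨g, hg, hcg⟩ := h1
  obtain ⟨g', hg', hcg'⟩ := h2
  refine ⟨mu d g g', un_mu hd1 hg hg', ?_⟩
  have e : mu d (mu d u w) (mu d (mu d g g') (mu d g g')) = mu d (mu d u (mu d g g)) (mu d w (mu d g' g')) := by
    rw [← P6b_sqsq, mu_assoc d u w, ← mu_assoc d w, mu_comm d w (mu d g g), mu_assoc d (mu d g g) w, ← mu_assoc d u]
  rw [e]
  refine cg_trans (cg_mu h hd1 hcg hcg' (in_mu hd1 hu.1 (in_mu hd1 hg.1 hg.1)) (in_mu hd1 hw.1 (in_mu hd1 hg'.1 hg'.1))) ?_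
  have e2 : mu d (1, 0, 2 * k) (1, 0, 2 * l) = (1, d * (2 * k) * (2 * l), 2 * l + 2 * k) := by
    simp only [mu, Prod.mk.injEq]
    refine ⟨?_, ?_, ?_⟩ <;> ring
  rw [e2]
  refine ⟨by simp, ?_, ?_⟩
  · simp only [sub_zero]
    rw [show d * (2 * k) * (2 * l) = 2 ^ 2 * (d * k * l) by ring, map_mul, map_pow]
    calc v 2 ^ 2 * v (d * k * l) ≤ v 2 ^ 2 * 1 := by
          refine mul_le_mul' le_rfl ?_
          rw [map_mul, map_mul]
          exact mul_le_one' (mul_le_one' hd1 hk) hl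
      _ = v 2 ^ 2 := mul_one _
  · simp only
    rw [show 2 * l + 2 * k - 2 * (k + l) = 0 by ring]
    simp

/-- [P6b] -/
theorem kc_zero {u : C × C × C} (hu : Un v d u) (hs : IsSquare (nm d u)) {k : C} (hk : v k ≤ v 2) (h1 : Kc v d u k) : SqA d u := by
  obtain ⟨g, hg, hcg⟩ := h1
  refine sqA_of_sq_mul (un_ne hg) (ker4r h hd (β := mu d u (mu d g g)) (cg_trans hcg ⟨by simp, by simp, ?_⟩) ?_)
  · have := P6b_two_mul h (x := k) (y := 0) (by simpa using hk)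
    simpa using this
  · rw [nm_mu, nm_mu]
    exact hs.mul ⟨nm d g, rfl⟩

/-- [P6b] -/
theorem kc_sig {u : C × C × C} {k : C} (h1 : Kc v d u k) : Kc v d (u.1, o * u.2.1, o ^ 2 * u.2.2) (o ^ 2 * k) := by
  have ho := (v_o h).1
  have ho3 : o ^ 3 = 1 := by linear_combination (o - 1) * h.ho
  obtain ⟨g, hg, hcg⟩ := h1
  obtain ⟨u0, u1, u2⟩ := u
  obtain ⟨a, b, c⟩ := g
  have hmuf : ∀ x y : C × C × C, mu d (x.1, o * x.2.1, o ^ 2 * x.2.2) (y.1, o * y.2.1, o ^ 2 * y.2.2) =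
      ((mu d x y).1, o * (mu d x y).2.1, o ^ 2 * (mu d x y).2.2) := by
    intro x y
    simp only [mu, Prod.mk.injEq]
    refine ⟨?_, ?_, ?_⟩
    · linear_combination (d * (x.2.1 * y.2.2 + x.2.2 * y.2.1)) * ho3
    · linear_combination (d * x.2.2 * y.2.2 * o) * ho3
    · ring
  refine ⟨(a, o * b, o ^ 2 * c), ⟨⟨hg.1.1, ?_, ?_⟩, ?_⟩, ?_⟩
  · simp only [map_mul, ho, one_mul]; exact hg.1.2.1
  · simp only [map_mul, map_pow, ho, one_pow, one_mul]; exact hg.1.2.2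
  · have e : nm d (a, o * b, o ^ 2 * c) = nm d (a, b, c) := by
      simp only [nm]
      linear_combination (d * b ^ 3 + d ^ 2 * c ^ 3 * (o ^ 3 + 1) - 3 * d * a * b * c) * ho3
    rw [e]; exact hg.2
  · have e1 := hmuf (a, b, c) (a, b, c)
    simp only at e1
    have e2 := hmuf (u0, u1, u2) (mu d (a, b, c) (a, b, c))
    simp only at e2
    simp only
    rw [e1, e2]
    obtain ⟨c0, c1, c2⟩ := hcg
    refine ⟨c0, ?_, ?_⟩
    · simp only [sub_zero] at c1 ⊢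
      rw [map_mul, ho, one_mul]; exact c1
    · simp only at c2 ⊢
      rw [show o ^ 2 * (mu d (u0, u1, u2) (mu d (a, b, c) (a, b, c))).2.2 - 2 * (o ^ 2 * k) =
        o ^ 2 * ((mu d (u0, u1, u2) (mu d (a, b, c) (a, b, c))).2.2 - 2 * k) by ring, map_mul, map_pow, ho, one_pow, one_mul]
      exact c2

/-- [P6b] two classes with the same `Rc` whose product has `Kc ≡ 0` -/
theorem kc_sq {u g : C × C × C} (hg : Un v d g) {k : C} : Kc v d (mu d u (mu d g g)) k ↔ Kc v d u k := by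
  have hd1 := P6b_hd1 h hd
  constructor
  · rintro ⟨g', hg', hcg⟩
    refine ⟨mu d g g', un_mu hd1 hg hg', ?_⟩
    rw [← P6b_sq_mul]; exact hcg
  · rintro ⟨g', hg', hcg⟩
    obtain ⟨w, hw, hgw⟩ := un_inv hd1 hg
    refine ⟨mu d w g', un_mu hd1 hw hg', ?_⟩
    have e : mu d g (mu d w g') = g' := by rw [← mu_assoc, hgw, (mu_one g').2]
    rw [P6b_sq_mul, e]
    exact hcg

end

end JT
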