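import Pool.Agent.JT.P5
import Pool.Agent.JT.P6

/-!
# [JT-P7] the local condition at 2 for `4 f`, `16 f`, `32 f`, `f` a unit

`D = 4 f`: `Π = T²/2`, `Π³ = 2 f²`, `T = Π²/f`, `T² = 2 Π`: `n4 u = (u₀, 2 u₂, u₁/f)` is the triple with respect to `Π`. `D = 16 f`: `T = 2 Π`, `Π³ = 2 f`: `t8 u`. `D = 32 f`: `n4 (t8 u)`, `Π³ = 2 f²`. In all three cases the classes of points are the units with `Rc v (N u) 0`.

PROOF. `n4_mu`, `n4_nm`, `sqA_n4` [P7a]: compute (`f ≠ 0`), `n4` is bijective.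
`beta4` [P7b]: `1/f = η (1 + 2 g)`, `η ∈ {1, o, o²}` (`exists_unit4`). `two2` with `y = η`: `f ≢ η² + 2 mod 4` means `g ≢ η mod 2` (`f ≡ η² (1 - 2 g)`, and `η² (1 - 2 η) = η² - 2`). `cube_of`: `X³ = 1 - 4 f`, `X ≡ 1 mod 4`. For `a³ = 1`, `β = (X, a, 0)`: the point `(X/a, 1)`; `LocA` (`(X, a, 0)(X/a, 1, 0) = a⁻¹ β²`, `a⁻¹ = a²`), norm `X³ + 4 f = 1`.
`n4 β = (X, 0, a/f) ≡ (1, 0, a η (1 + 2 g)) mod 4`. With `c = (a η)²` (so `c² = a η`): `(1 + a η (1 + 2 g) Π²)(1 + c Π)² ≡ 1 + 2 c (1 + η) Π + 2 a η (1 + g) Π² mod 4` (`Π³ = 2 f²`, `f² ≡ η mod 2`, `(a η)² = c`). With `c'² η ≡ c (1 + η) mod 2`, i. e. `c' = a η² + a η`: times `(1 + c' Π²)² ≡ 1 + 2 c' Π² + 2 f² c'² Π`: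
`≡ 1 + 2 (a η (1 + g) + c') Π² = 1 + 2 a η (g + η) Π² mod 4`. So `Kc` with `a η (g + η)`; `g + η` is a unit, so for given `k ∈ {1, o, o²}` there is `a` with `a η (g + η) ≡ k` (`kc_congr`).
`beta16` [P7c]: `X³ = 1 - 16 f`, `t8 (X, a, 0) = (X, 2 a, 0) ≡ 1 + 2 a Π`, times `(1 + c' Π²)² = 1 + 2 c' Π² + 2 f c'² Π`, `c'² f ≡ a`, `c' = a² f`: `≡ 1 + 2 a² f Π²`: `k ≡ a² f`; `a` with `a² f ≡ k`: `a ≡ (k/f)²`.
`beta32` [P7c]: `X³ = 1 - 32 f`, `n4 (t8 (X, a, 0)) = (X, 0, 2 a/f)`: `k ≡ a/f`.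
`convB4`, `convB16`, `convB32` [P7d]: `kc_exists` for `N u`; `k = 0`: `kc_zero`, so `SqA`, `LocA`. Otherwise `β` with `Kc (N β) k`: `Kc (N (u β)) (2 k)`: `kc_zero`: `SqA (u β)`, so `LocA (u β)`, `locA_of_mul`.
`dirB4` [P7e]: `SqA u`: `N u = g²`, `g` integral (`in_of_nmR`), `rc_sq`. `u (x + T) = g²`, `y² = x³ + 4 f`. `1 < v x`: `x = x'/4^k`, `x' = f'²` a square of a unit (as in `dir_big`, P4): `4^k (x + T) = f'² + 4^k T`, `N` of it is `(f'², 0, 4^k/f)`: `Rc 0`; `N u · N(..) = ` a square, `rc_mul`, `rc_sq`, `rc_unique`. `v x = 1`: `N (x + T) = (x, 0, 1/f)`: `Rc 0`, a unit.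
`v x < 1`: `x = 2 x₁`, `y = 2 y₁`, `y₁² = 2 x₁³ + f`; `x₁` a unit: `x₁³ ≡ 1 mod 2`, `f ≡ y₁² + 2 mod 4`, excluded by `two2`. So `x = 4 x₂`: `N (x + T) = 4 x₂ + Π²/f = Π² (1/f + (4 x₂/(2 f²)) Π)` (`Π⁻² = Π/(2 f²)`), so `N u (1/f, 2 x₂/f², 0)` is a square (of `g Π⁻¹`), and `(1/f, 2 x₂/f², 0)` is a unit with `Rc 0`.
`dirB16` [P7e]: `1 < v x`, `v x = 1` in the same way (`N (x + T) = (x, 2, 0)`: `Rc 0`). `v x < 1`: `x = 2 x₁`: `y² = 8 x₁³ + 16 f`, `x₁` a unit is impossible (odd valuation), `x = 4 x₂`: `N (x + T) = 4 x₂ + 2 Π = 2 Π (1 + (2 x₂/(2 f)) Π²)` (`Π⁻¹ = Π²/(2 f)`), `2 = Π³/f`: `= Π⁴ (1/f)(1 + (x₂/f) Π²)`: `N u (1/f, 0, x₂/f²)` is a square: `Rc 0`.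
`dirB32` [P7e]: `1 < v x`, `v x = 1` in the same way (`N (x + T) = (x, 0, 2/f)`). `v x < 1`: `x = 2 x₁`, `y² = 8 x₁³ + 32 f`: `x₁` a unit: odd valuation 3; `x = 4 x₂`: `64 x₂³ + 32 f`: odd valuation 5: impossible.
`adjB4`, `adjB16`, `adjB32` [P7f]: `exists_unR` for `N α`, `N β` (`N` bijective): units with `Rc a`, `Rc b` (`rc_exists`); `¬ LocA β` gives `b ≢ 0`. If `a ≡ 0`: `LocA α`. Otherwise `a ≡ o^i b` for some `i`, `N (σ w)` is `(a, o^j b, ..)` of `N w` with `j = 1` (`16 f`) or `2` (`4 f`, `32 f`), `rc_sig`: the class of `α σ^(i')(β)` has `Rc (a + o^i b) ≡ Rc 0`: `conv`.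
-/

set_option autoImplicit false

open scoped Classical

namespace JT

/-- the triple with respect to `T²/2` (for `D = 4 f`) -/
noncomputable def n4 {C : Type} [Field C] (f : C) (u : C × C × C) : C × C × C := (u.1, 2 * u.2.2, u.2.1 / f)

/-! auxiliary lemmas of row P7f: the formal part of the proof of `AdjP` -/

/-- the automorphism `T ↦ o T` -/
def P7f_sg {C : Type} [Field C] (o : C) (u : C × C × C) : C × C × C := (u.1, o * u.2.1, o ^ 2 * u.2.2)

theorem P7f_sg_mu {C : Type} [Field C] {o : C} (ho : o ^ 3 = 1) (D : C) (u w : C × C × C) :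
    P7f_sg o (mu D u w) = mu D (P7f_sg o u) (P7f_sg o w) := by
  obtain ⟨a, b, c⟩ := u
  obtain ⟨a', b', c'⟩ := w
  simp only [P7f_sg, mu, Prod.mk.injEq]
  refine ⟨?_, ?_, ?_⟩
  · linear_combination (-D * (b * c' + c * b')) * ho
  · linear_combination (-D * c * c' * o) * ho
  · ring

theorem P7f_sg_nm {C : Type} [Field C] {o : C} (ho : o ^ 3 = 1) (D : C) (u : C × C × C) :
    nm D (P7f_sg o u) = nm D u := by
  obtain ⟨a, b, c⟩ := u
  simp only [P7f_sg, nm]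
  linear_combination (D * b ^ 3 + D ^ 2 * c ^ 3 * (o ^ 3 + 1) - 3 * D * a * b * c) * ho

theorem P7f_sq {C : Type} [Field C] (D : C) (a b g k : C × C × C) :
    mu D (mu D a (mu D g g)) (mu D b (mu D k k)) = mu D (mu D a b) (mu D (mu D g k) (mu D g k)) := by
  simp only [mu, Prod.mk.injEq]
  refine ⟨?_, ?_, ?_⟩ <;> ring

theorem P7f_adj {C : Type} [Field C] {o D ζ : C} (ho : o ^ 3 = 1) (hζ : ζ = o ∨ ζ = o ^ 2)
    {v : Valuation C (WithZero (Multiplicative ℤ))} (Q : C × C × C → C → Prop)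
    (hE : ∀ α : C × C × C, nm D α ≠ 0 → IsSquare (nm D α) →
      (∀ ρ : C, ρ ^ 3 = D → ∃ γ : WithZero (Multiplicative ℤ), v (ev α ρ) = γ ^ 2) →
      ∃ (g : C × C × C) (a : C), nm D g ≠ 0 ∧ (a = 0 ∨ a = 1 ∨ a = o ∨ a = o ^ 2) ∧ Q (mu D α (mu D g g)) a)
    (hM : ∀ (u w : C × C × C) (a b : C), Q u a → Q w b → Q (mu D u w) (a + b))
    (hS : ∀ (w : C × C × C) (b : C), Q w b → Q (P7f_sg o w) (ζ * b))
    (hZ : ∀ u : C × C × C, nm D u ≠ 0 → IsSquare (nm D u) → Q u 0 → LocA D u)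
    (h2 : ∀ (u : C × C × C) (a : C), (a = 1 ∨ a = o ∨ a = o ^ 2) → Q u (a + a) → Q u 0) : AdjP v o D := by
  intro α β hα hα2 hβ hβ2 heα heβ hn
  obtain ⟨g, a, hg, ha, hQa⟩ := hE α hα hα2 heα
  obtain ⟨k, b, hk, hb, hQb⟩ := hE β hβ hβ2 heβ
  have hsq : ∀ x : C × C × C, IsSquare (nm D (mu D x x)) := fun x => ⟨nm D x, nm_mu D x x⟩
  have hne : ∀ x y : C × C × C, nm D x ≠ 0 → nm D y ≠ 0 → nm D (mu D x (mu D y y)) ≠ 0 := fun x y hx hy => by
    rw [nm_mu, nm_mu]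
    exact mul_ne_zero hx (mul_ne_zero hy hy)
  have hsq2 : ∀ x y : C × C × C, IsSquare (nm D x) → IsSquare (nm D (mu D x (mu D y y))) := fun x y hx => by
    rw [nm_mu]
    exact hx.mul (hsq y)
  have hb' : b = 1 ∨ b = o ∨ b = o ^ 2 := by
    rcases hb with rfl | hb
    · exact absurd (locA_of_sq_mul hk (hZ _ (hne β k hβ hk) (hsq2 β k hβ2) hQb)) hn
    · exact hb
  rcases ha with rfl | ha
  · exact Or.inl (locA_of_sq_mul hg (hZ _ (hne α g hα hg) (hsq2 α g hα2) hQa))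
  right
  -- the final step for `σ ^ i β`
  have key : ∀ (β' k' : C × C × C) (b' : C), nm D β' = nm D β → nm D k' = nm D k →
      Q (mu D β' (mu D k' k')) b' → b' = a → LocA D (mu D α β') := by
    intro β' k' b' e1 e2 hQ hba
    subst hba
    have h3 := hM _ _ _ _ hQa hQ
    have h4 := h2 _ _ ha h3
    rw [P7f_sq] at h4
    have hβ' : nm D β' ≠ 0 := by rw [e1]; exact hβ
    have hk' : nm D k' ≠ 0 := by rw [e2]; exact hk
    have hgk : nm D (mu D g k') ≠ 0 := by rw [nm_mu]; exact mul_ne_zero hg hk'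
    refine locA_of_sq_mul hgk (hZ _ (hne _ _ ?_ hgk) (hsq2 _ _ ?_) h4)
    · rw [nm_mu]
      exact mul_ne_zero hα hβ'
    · rw [nm_mu, e1]
      exact hα2.mul hβ2
  have hQ1 := hS _ _ hQb
  rw [P7f_sg_mu ho, P7f_sg_mu ho] at hQ1
  have hQ2 := hS _ _ hQ1
  rw [P7f_sg_mu ho, P7f_sg_mu ho] at hQ2
  have n1 : ∀ x : C × C × C, nm D (P7f_sg o x) = nm D x := fun x => P7f_sg_nm ho D x
  have n2 : ∀ x : C × C × C, nm D (P7f_sg o (P7f_sg o x)) = nm D x := fun x => by rw [n1, n1]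
  have c0 := key β k b rfl rfl hQb
  have c1 := key (P7f_sg o β) (P7f_sg o k) (ζ * b) (n1 _) (n1 _) hQ1
  have c2 := key (P7f_sg o (P7f_sg o β)) (P7f_sg o (P7f_sg o k)) (ζ * (ζ * b)) (n2 _) (n2 _) hQ2
  have o4 : o ^ 4 = o := by linear_combination o * ho
  have hfin : b = a ∨ ζ * b = a ∨ ζ * (ζ * b) = a := by
    rcases hζ with k0 | k0 <;> rw [k0]
    · rcases ha with k1 | k1 | k1 <;> rcases hb' with k2 | k2 | k2 <;> rw [k1, k2]
      · left; rfl
      · right; right; linear_combination ho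
      · right; left; linear_combination ho
      · right; left; ring
      · left; rfl
      · right; right; linear_combination o * ho
      · right; right; ring
      · right; left; ring
      · left; rfl
    · rcases ha with k1 | k1 | k1 <;> rcases hb' with k2 | k2 | k2 <;> rw [k1, k2]
      · left; rfl
      · right; left; linear_combination ho
      · right; right; linear_combination (o ^ 3 + 1) * ho
      · right; right; linear_combination o * ho
      · left; rfl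
      · right; left; linear_combination o * ho
      · right; left; ring
      · right; right; linear_combination (o ^ 2) * ho
      · left; rfl
  rcases hfin with h5 | h5 | h5
  · exact Or.inl (c0 h5)
  · exact Or.inr (Or.inl (c1 h5))
  · exact Or.inr (Or.inr (c2 h5))

section
variable {C : Type} [Field C] [CharZero C] {v : Valuation C (WithZero (Multiplicative ℤ))} {o : C} (h : Lc2 v o)

include h in
theorem P7e_sq {d : C} (hd : v d = v 2) {U : C × C × C} (hU : Un v d U) (hs : SqA d U) : Rc v U 0 := by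
  obtain ⟨g, hg⟩ := hs
  have e : v (nm d g) * v (nm d g) = 1 := by
    rw [← map_mul, ← nm_mu, ← hg]
    exact hU.2
  have e1 : v (nm d g) = 1 := by
    have hle : v (nm d g) ≤ 1 := by
      by_contra hc
      rw [not_le] at hc
      exact absurd e (ne_of_gt (one_lt_mul'' hc hc))
    have hge : 1 ≤ v (nm d g) := by
      by_contra hc
      rw [not_le] at hc
      have := mul_le_mul' hle (le_refl (v (nm d g)))
      rw [e, one_mul] at this
      exact absurd this (not_le.2 hc)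
    exact le_antisymm hle hge
  have hI : In v g := in_of_nmR h hd e1.le
  have := rc_sq h hd ⟨hI, e1⟩
  rwa [← hg] at this

include h in
theorem P7e_core {d : C} (hd : v d = v 2) {U W : C × C × C} (hU : Un v d U) (hW : Un v d W) (hr : Rc v W 0)
    (hs : SqA d (mu d U W)) : Rc v U 0 := by
  have hdl : v d ≤ 1 := hd.le.trans (two_lt h).1.le
  have hUW : Un v d (mu d U W) := un_mu hdl hU hW
  have e1 := P7e_sq h hd hUW hs
  obtain ⟨a, ha, hra⟩ := rc_exists h hd hU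
  have vo := (v_o h).1
  have hva : v a ≤ 1 := by
    rcases ha with rfl | rfl | rfl | rfl
    · rw [map_zero]; exact zero_le
    · rw [map_one]
    · exact vo.le
    · rw [map_pow, vo, one_pow]
  have e2 := rc_mul h hd hU hW hva (by rw [map_zero]; exact zero_le) hra hr
  have e3 := rc_unique h hd hUW e2 e1
  rw [add_zero, sub_zero] at e3
  have hlt : v a < 1 := (lt_iff2 h a).2 e3
  rcases ha with rfl | rfl | rfl | rfl
  · exact hra
  · rw [map_one] at hlt; exact absurd hlt (lt_irrefl _)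
  · rw [vo] at hlt; exact absurd hlt (lt_irrefl _)
  · rw [map_pow, vo, one_pow] at hlt; exact absurd hlt (lt_irrefl _)

omit [CharZero C] in
theorem P7e_fin {d : C} {U V W : C × C × C} (k : C × C × C) (hk : mu d V (mu d k k) = W) (hs : SqA d (mu d U V)) :
    SqA d (mu d U W) := by
  obtain ⟨g, hg⟩ := hs
  refine ⟨mu d g k, ?_⟩
  rw [← hk, ← mu_assoc, hg, P3a_sq]

include h in
theorem P7e_two {x : C} (hx : v x < 1) : ∃ x₁ : C, v x₁ ≤ 1 ∧ x = 2 * x₁ := by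
  refine ⟨x / 2, ?_, by field_simp⟩
  rw [map_div₀]
  exact div_le_one_of_le₀ ((lt_iff2 h x).1 hx) zero_le

omit [CharZero C] in
theorem P7e_odd {y z : C} {n : ℤ} (hy : y ^ 2 = z) (hz : v z = WithZero.exp n) (hn : n % 2 = 1) : False := by
  have h0 : v y ≠ 0 := by
    intro h0
    rw [← hy, map_pow, h0, zero_pow (by norm_num)] at hz
    exact WithZero.exp_ne_zero hz.symm
  have e : v y = WithZero.exp (WithZero.log (v y)) := (WithZero.exp_log h0).symm
  rw [← hy, map_pow, e, ← WithZero.exp_nsmul] at hz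
  have := WithZero.exp_injective hz
  simp only [nsmul_eq_mul, Nat.cast_ofNat] at this
  omega

include h in
omit [CharZero C] in
theorem P7e_val {x y D : C} (hD : v D ≤ 1) (hx : 1 < v x) (hy : y ^ 2 = x ^ 3 + D) :
    ∃ c : C, v c ≤ v 2 ∧ v (c ^ 2 * x) = 1 := by
  have h0 : v x ≠ 0 := (zero_lt_one.trans hx).ne'
  have hx3 : 1 < v (x ^ 3) := by
    rw [map_pow]
    exact one_lt_pow₀ hx (by norm_num)
  have e1 : v (y ^ 2) = v (x ^ 3) := by
    rw [hy]
    exact Valuation.map_add_eq_of_lt_left v (hD.trans_lt hx3)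
  have hy0 : v y ≠ 0 := by
    intro hc
    rw [map_pow, hc] at e1
    rw [← e1] at hx3
    simp at hx3
  have ex : v x = WithZero.exp (WithZero.log (v x)) := (WithZero.exp_log h0).symm
  have ey : v y = WithZero.exp (WithZero.log (v y)) := (WithZero.exp_log hy0).symm
  set n := WithZero.log (v x) with hn
  set m := WithZero.log (v y) with hm
  rw [map_pow, map_pow, ex, ey, ← WithZero.exp_nsmul, ← WithZero.exp_nsmul] at e1
  have e2 := WithZero.exp_injective e1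
  simp only [nsmul_eq_mul, Nat.cast_ofNat] at e2
  have hnpos : 0 < n := by
    rw [ex, ← WithZero.exp_zero] at hx
    exact WithZero.exp_lt_exp.1 hx
  obtain ⟨k, hk⟩ : ∃ k : ℕ, n = 2 * (k : ℤ) := ⟨(n / 2).toNat, by omega⟩
  have hk1 : 1 ≤ k := by omega
  refine ⟨2 ^ k, ?_, ?_⟩
  · rw [map_pow, h.two, ← WithZero.exp_nsmul]
    rw [WithZero.exp_le_exp]
    simp only [nsmul_eq_mul]
    omega
  · rw [map_mul, map_pow, map_pow, h.two, ex, ← WithZero.exp_nsmul, ← WithZero.exp_nsmul, ← WithZero.exp_add, ← WithZero.exp_zero]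
    congr 1
    simp only [nsmul_eq_mul, Nat.cast_ofNat]
    omega

include h in
theorem P7e_W {d a b c : C} (hd : v d = v 2) (ha : v a = 1) (hb : v b ≤ v 2) (hc : v c ≤ 1) :
    Un v d (a, b, c) ∧ Rc v (a, b, c) 0 := by
  have hI : In v (a, b, c) := ⟨ha.le, hb.trans (two_lt h).1.le, hc⟩
  refine ⟨⟨hI, (unR_iff h hd hI).2 ha⟩, ?_⟩
  simp only [Rc, zero_mul, sub_zero]
  exact hb

end

section
variable {C : Type} [Field C] [CharZero C] {f : C}

/-- [P7a] -/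
theorem n4_mu (hf : f ≠ 0) (u w : C × C × C) : n4 f (mu (4 * f) u w) = mu (2 * f ^ 2) (n4 f u) (n4 f w) := by
  simp only [n4, mu, Prod.mk.injEq]
  refine ⟨?_, ?_, ?_⟩
  · field_simp
    ring
  · field_simp
    ring
  · field_simp
    ring

/-- [P7a] -/
theorem n4_nm (hf : f ≠ 0) (u : C × C × C) : nm (2 * f ^ 2) (n4 f u) = nm (4 * f) u := by
  simp only [n4, nm]
  field_simp
  ring

/-- [P7a] -/
theorem sqA_n4 (hf : f ≠ 0) (u : C × C × C) : SqA (4 * f) u ↔ SqA (2 * f ^ 2) (n4 f u) := by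
  have h2 : (2 : C) ≠ 0 := two_ne_zero
  constructor
  · rintro ⟨g, rfl⟩
    exact ⟨n4 f g, n4_mu hf g g⟩
  · rintro ⟨g, hg⟩
    have hinj : ∀ u w : C × C × C, n4 f u = n4 f w → u = w := by
      intro u w e
      simp only [n4, Prod.mk.injEq] at e
      obtain ⟨e0, e1, e2⟩ := e
      refine Prod.ext e0 (Prod.ext ?_ ?_)
      · field_simp at e2
        exact e2
      · exact mul_left_cancel₀ h2 e1
    refine ⟨(g.1, f * g.2.2, g.2.1 / 2), hinj _ _ ?_⟩
    have e : n4 f ((g.1, f * g.2.2, g.2.1 / 2) : C × C × C) = g := by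
      simp only [n4]
      refine Prod.ext rfl (Prod.ext ?_ ?_)
      · show 2 * (g.2.1 / 2) = g.2.1
        field_simp
      · show f * g.2.2 / f = g.2.2
        field_simp
    rw [n4_mu hf, e, hg]

variable {v : Valuation C (WithZero (Multiplicative ℤ))} {o : C} (h : Lc2 v o) (hf : v f = 1)
include h hf

omit h hf [CharZero C] in
theorem P7a_mul {x y : C} (hx : v x ≤ 1) (hy : v y ≤ 1) : v (x * y) ≤ 1 := by
  rw [map_mul]
  exact mul_le_one' hx hy

omit h hf [CharZero C] in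
theorem P7a_add {x y : C} (hx : v x ≤ 1) (hy : v y ≤ 1) : v (x + y) ≤ 1 :=
  (Valuation.map_add _ _ _).trans (max_le hx hy)

omit h hf [CharZero C] in
theorem P7a_mulr {x y : C} {γ : WithZero (Multiplicative ℤ)} (hx : v x ≤ γ) (hy : v y ≤ 1) : v (x * y) ≤ γ := by
  rw [map_mul]
  calc v x * v y ≤ γ * 1 := mul_le_mul' hx hy
    _ = γ := mul_one γ

omit h hf [CharZero C] in
theorem P7a_two {x : C} (hx : v x ≤ v 2) : v (2 * x) ≤ v 2 ^ 2 := by
  rw [map_mul, sq]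
  exact mul_le_mul' le_rfl hx

omit h hf [CharZero C] in
theorem P7a_addr {x y : C} {γ : WithZero (Multiplicative ℤ)} (hx : v x ≤ γ) (hy : v y ≤ γ) : v (x + y) ≤ γ :=
  (Valuation.map_add _ _ _).trans (max_le hx hy)

/-- [P7b] -/
theorem beta4 (h2 : ∀ y : C, v y ≤ 1 → ¬ v (f - y ^ 2 - 2) ≤ v 2 ^ 2) {k : C} (hk : k = 1 ∨ k = o ∨ k = o ^ 2) :
    ∃ β : C × C × C, LocA (4 * f) β ∧ nm (4 * f) β = 1 ∧ Un v (2 * f ^ 2) (n4 f β) ∧ Kc v (2 * f ^ 2) (n4 f β) k := by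
  obtain ⟨h21, h20⟩ := two_lt h
  obtain ⟨ho1, -, -⟩ := v_o h
  have hho := h.ho
  have ho3 : o ^ 3 = 1 := by linear_combination (o - 1) * hho
  have hf0 : f ≠ 0 := by
    rintro rfl
    simp at hf
  have hc2 : v (2 : C) ≤ 1 := h21.le
  have hd : v (2 * f ^ 2) = v 2 := by rw [map_mul, map_pow, hf, one_pow, mul_one]
  have hd1 : v (2 * f ^ 2) ≤ 1 := hd.le.trans hc2
  have hvone : v (1 : C) ≤ 1 := (map_one v).le
  have hm1 : v (1 / f) = 1 := by rw [map_div₀, hf, map_one, div_one]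
  obtain ⟨η, g, hη3, -, hg1, hηg⟩ := exists_unit4 h hm1
  have hcub : ∀ z : C, z ^ 3 = 1 → v z = 1 := by
    intro z hz
    have e := congrArg v hz
    rw [map_pow, map_one] at e
    exact (pow_eq_one_iff.1 e).resolve_right (by norm_num)
  have hηv := hcub η hη3
  have hηi : v η ≤ 1 := hηv.le
  have hfe : f * (η * (1 + 2 * g)) = 1 := by
    rw [← hηg]
    field_simp
  -- `f ≡ η² mod 2`
  have hfη : v (f - η ^ 2) ≤ v 2 := by
    have e : f - η ^ 2 = 2 * (-(f * g)) := by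
      linear_combination (-1 : C) * f * hη3 + η ^ 2 * hfe - 2 * f * g * hη3
    rw [e]
    exact P7a_mulr le_rfl (by rw [Valuation.map_neg]; exact P7a_mul hf.le hg1)
  -- `g + η` is a unit
  have hgη : v (g + η) = 1 := by
    by_contra hne
    have hlt : v (g + η) < 1 := lt_of_le_of_ne (P7a_add hg1 hηi) hne
    have hle : v (g + η) ≤ v 2 := (lt_iff2 h _).1 hlt
    refine h2 η hηi ?_
    -- `f - η² - 2 = ...`
    have e : f - η ^ 2 - 2 = 2 * ((g + η) * (-(f * 1)) + (f - η ^ 2) * η) := by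
      linear_combination (-1 : C) * f * hη3 + η ^ 2 * hfe - 2 * f * g * hη3 + 2 * hη3
    rw [e]
    refine P7a_two (P7a_addr (P7a_mulr hle ?_) (P7a_mulr hfη hηi))
    rw [Valuation.map_neg]
    exact P7a_mul hf.le hvone
  obtain ⟨ζ, hζ3, -, hζ⟩ := exists_zeta h hgη
  have hζv := hcub ζ hζ3
  have hk3 : k ^ 3 = 1 := by
    rcases hk with rfl | rfl | rfl
    · ring
    · exact ho3
    · linear_combination (o ^ 3 + 1) * ho3
  have hkv := hcub k hk3
  obtain ⟨X, hX3, hX⟩ := cube_of h (x := 1 - 4 * f) (z := 0) (by rw [map_zero]; exact bot_le) (by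
    have e : (1 - 4 * f - (1 + 2 * 0) : C) = 2 * (2 * -f) := by ring
    rw [e]
    exact P7a_two (P7a_mulr le_rfl (by rw [Valuation.map_neg, hf])))
  have hX1 : v (X - 1) ≤ v 2 ^ 2 := by
    have e : X - 1 = X - (1 + 2 * 0) := by ring
    rw [e]
    exact hX
  have hXi : v X ≤ 1 := by
    have e : X = (X - 1) + 1 := by ring
    rw [e]
    exact P7a_add (hX1.trans (pow_le_one' hc2 2)) hvone
  -- the cube root of unity
  obtain ⟨a, ha3, hak⟩ : ∃ a : C, a ^ 3 = 1 ∧ v (a * η * (g + η) - k) ≤ v 2 := by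
    refine ⟨k * η ^ 2 * ζ ^ 2, ?_, ?_⟩
    · linear_combination η ^ 6 * ζ ^ 6 * hk3 + ζ ^ 6 * (η ^ 3 + 1) * hη3 + (ζ ^ 3 + 1) * hζ3
    · have e : k * η ^ 2 * ζ ^ 2 * η * (g + η) - k = (g + η - ζ) * (k * ζ ^ 2) := by
        linear_combination k * ζ ^ 2 * (g + η) * hη3 + k * hζ3
      rw [e]
      refine P7a_mulr hζ ?_
      rw [map_mul, map_pow, hkv, hζv, one_pow, one_mul]
  have hav := hcub a ha3
  have hai : v a ≤ 1 := hav.le
  have hnm : nm (4 * f) (X, a, 0) = 1 := by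
    simp only [nm]
    linear_combination hX3 + 4 * f * ha3
  have hn4 : n4 f ((X, a, 0) : C × C × C) = (X, 0, a * (1 / f)) := by
    simp only [n4, Prod.mk.injEq]
    refine ⟨trivial, ?_, ?_⟩
    · ring
    · ring
  have hz : v (0 : C) ≤ 1 := by
    rw [map_zero]
    exact bot_le
  have hz2 : v (0 : C) ≤ v 2 ^ 2 := by
    rw [map_zero]
    exact bot_le
  have hinP : In v ((X, 0, a * (1 / f)) : C × C × C) := ⟨hXi, hz, P7a_mul hai hm1.le⟩
  have hUn : Un v (2 * f ^ 2) (n4 f (X, a, 0)) := by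
    refine ⟨?_, ?_⟩
    · rw [hn4]
      exact hinP
    · rw [n4_nm hf0, hnm, map_one]
  refine ⟨(X, a, 0), Or.inr ⟨a ^ 2 * X, 1, ?_, (a * X, a ^ 2, 0), ?_⟩, hnm, hUn, ?_⟩
  · linear_combination -hX3 - (a ^ 3 + 1) * X ^ 3 * ha3
  · simp only [mu, Prod.mk.injEq]
    refine ⟨?_, ?_, ?_⟩
    · ring
    · linear_combination -X * ha3
    · linear_combination -a * ha3
  · refine kc_congr h hd (k := a * η * (g + η)) ?_ hak
    rw [hn4]
    -- the two factors
    obtain ⟨c, hc⟩ : ∃ c : C, c = a ^ 2 * η ^ 2 := ⟨_, rfl⟩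
    obtain ⟨b, hb⟩ : ∃ b : C, b = a * η ^ 2 + a * η := ⟨_, rfl⟩
    have hcv : v c ≤ 1 := by
      rw [hc, map_mul, map_pow, map_pow, hav, hηv, one_pow, one_mul]
    have hbv : v b ≤ 1 := by
      rw [hb]
      refine P7a_add (P7a_mul hai ?_) (P7a_mul hai hηi)
      rw [map_pow, hηv, one_pow]
    have hF : v (f ^ 2 - η) ≤ v 2 := by
      have e : f ^ 2 - η = (f - η ^ 2) * (f + η * η) := by
        linear_combination η * hη3
      rw [e]
      exact P7a_mulr hfη (P7a_add hf.le (P7a_mul hηi hηi))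
    have hin1 : In v ((1, c, 0) : C × C × C) := ⟨hvone, hcv, hz⟩
    have hin2 : In v ((1, 0, b) : C × C × C) := ⟨hvone, hz, hbv⟩
    have hU1 : Un v (2 * f ^ 2) ((1, c, 0) : C × C × C) := ⟨hin1, (unR_iff h hd hin1).2 (map_one v)⟩
    have hU2 : Un v (2 * f ^ 2) ((1, 0, b) : C × C × C) := ⟨hin2, (unR_iff h hd hin2).2 (map_one v)⟩
    refine ⟨mu (2 * f ^ 2) (1, c, 0) (1, 0, b), un_mu hd1 hU1 hU2, ?_⟩
    have e0 : mu (2 * f ^ 2) (X, 0, a * (1 / f)) (mu (2 * f ^ 2) (mu (2 * f ^ 2) (1, c, 0) (1, 0, b)) (mu (2 * f ^ 2) (1, c, 0) (1, 0, b)))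
        = mu (2 * f ^ 2) (mu (2 * f ^ 2) (X, 0, a * (1 / f)) (mu (2 * f ^ 2) (1, c, 0) (1, c, 0)))
          (mu (2 * f ^ 2) (1, 0, b) (1, 0, b)) := by
      generalize 2 * f ^ 2 = D
      generalize a * (1 / f) = M
      simp only [mu, Prod.mk.injEq]
      refine ⟨?_, ?_, ?_⟩ <;> ring
    rw [e0]
    have s0 : Cg v 2 ((X, 0, a * (1 / f)) : C × C × C) (1, 0, a * (1 / f)) := by
      refine ⟨hX1, ?_, ?_⟩
      · show v (0 - 0) ≤ v 2 ^ 2
        rw [sub_zero]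
        exact hz2
      · show v (a * (1 / f) - a * (1 / f)) ≤ v 2 ^ 2
        rw [sub_self]
        exact hz2
    have hi11 := in_mu hd1 hin1 hin1
    have hi22 := in_mu hd1 hin2 hin2
    have s1 := cg_mu h hd1 s0 (cg_refl (v := v) 2 (mu (2 * f ^ 2) ((1, c, 0) : C × C × C) (1, c, 0))) hinP hi11
    have s2 : Cg v 2 (mu (2 * f ^ 2) ((1, 0, a * (1 / f)) : C × C × C) (mu (2 * f ^ 2) (1, c, 0) (1, c, 0)))
        (1, 2 * (c * (1 + η)), 2 * (a * η * (1 + g))) := by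
      refine ⟨?_, ?_, ?_⟩
      · have e : (mu (2 * f ^ 2) ((1, 0, a * (1 / f)) : C × C × C) (mu (2 * f ^ 2) (1, c, 0) (1, c, 0))).1 - 1
            = 2 * (2 * (f * (f * (1 / f)) * (a * c))) := by
          simp only [mu]
          ring
        show v ((mu (2 * f ^ 2) ((1, 0, a * (1 / f)) : C × C × C) (mu (2 * f ^ 2) (1, c, 0) (1, c, 0))).1 - 1) ≤ v 2 ^ 2
        rw [e]
        exact P7a_two (P7a_mulr le_rfl (P7a_mul (P7a_mul hf.le (P7a_mul hf.le hm1.le)) (P7a_mul hai hcv)))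
      · have e : (mu (2 * f ^ 2) ((1, 0, a * (1 / f)) : C × C × C) (mu (2 * f ^ 2) (1, c, 0) (1, c, 0))).2.1 - 2 * (c * (1 + η))
            = 2 * ((f - η ^ 2) * (a ^ 2 * η)) := by
          simp only [mu]
          rw [hc]
          field_simp
          linear_combination (2 * f * a ^ 2 * η * η ^ 3) * ha3 + 2 * f * a ^ 2 * η * hη3
        show v ((mu (2 * f ^ 2) ((1, 0, a * (1 / f)) : C × C × C) (mu (2 * f ^ 2) (1, c, 0) (1, c, 0))).2.1 - 2 * (c * (1 + η))) ≤ v 2 ^ 2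
        rw [e]
        refine P7a_two (P7a_mulr hfη (P7a_mul ?_ hηi))
        rw [map_pow, hav, one_pow]
      · have e : (mu (2 * f ^ 2) ((1, 0, a * (1 / f)) : C × C × C) (mu (2 * f ^ 2) (1, c, 0) (1, c, 0))).2.2 - 2 * (a * η * (1 + g))
            = 0 := by
          simp only [mu]
          rw [hc, hηg]
          linear_combination (a * η ^ 4) * ha3 + a * η * hη3
        show v ((mu (2 * f ^ 2) ((1, 0, a * (1 / f)) : C × C × C) (mu (2 * f ^ 2) (1, c, 0) (1, c, 0))).2.2 - 2 * (a * η * (1 + g))) ≤ v 2 ^ 2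
        rw [e]
        exact hz2
    have s3 := cg_trans s1 s2
    have s4 := cg_mu h hd1 s3 (cg_refl (v := v) 2 (mu (2 * f ^ 2) ((1, 0, b) : C × C × C) (1, 0, b))) (in_mu hd1 hinP hi11) hi22
    refine cg_trans s4 ?_
    have hA : v (c * (1 + η)) ≤ 1 := P7a_mul hcv (P7a_add hvone hηi)
    have hB : v (a * η * (1 + g)) ≤ 1 := P7a_mul (P7a_mul hai hηi) (P7a_add hvone hg1)
    refine ⟨?_, ?_, ?_⟩
    · have e : (mu (2 * f ^ 2) ((1, 2 * (c * (1 + η)), 2 * (a * η * (1 + g))) : C × C × C) (mu (2 * f ^ 2) (1, 0, b) (1, 0, b))).1 - 1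
          = 2 * (2 * (f * f * (c * (1 + η) * (b * 2) + a * η * (1 + g) * (f * f * (b * b)) * 2))) := by
        simp only [mu]
        ring
      show v ((mu (2 * f ^ 2) ((1, 2 * (c * (1 + η)), 2 * (a * η * (1 + g))) : C × C × C) (mu (2 * f ^ 2) (1, 0, b) (1, 0, b))).1 - 1) ≤ v 2 ^ 2
      rw [e]
      refine P7a_two (P7a_mulr le_rfl (P7a_mul (P7a_mul hf.le hf.le) (P7a_add ?_ ?_)))
      · exact P7a_mul hA (P7a_mul hbv hc2)
      · exact P7a_mul (P7a_mul hB (P7a_mul (P7a_mul hf.le hf.le) (P7a_mul hbv hbv))) hc2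
    · have e : (mu (2 * f ^ 2) ((1, 2 * (c * (1 + η)), 2 * (a * η * (1 + g))) : C × C × C) (mu (2 * f ^ 2) (1, 0, b) (1, 0, b))).2.1 - 0
          = 2 * ((f ^ 2 - η) * (b * b) + 2 * (a ^ 2 * (η * η + 1 + η)) + 2 * (f * f * (a * η * (1 + g)) * (b * 2))) := by
        simp only [mu]
        rw [hb, hc]
        linear_combination (2 * a ^ 2 * η ^ 2 + 4 * a ^ 2 * η + 4 * a ^ 2) * hη3
      show v ((mu (2 * f ^ 2) ((1, 2 * (c * (1 + η)), 2 * (a * η * (1 + g))) : C × C × C) (mu (2 * f ^ 2) (1, 0, b) (1, 0, b))).2.1 - 0) ≤ v 2 ^ 2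
      rw [e]
      refine P7a_two (P7a_addr (P7a_addr (P7a_mulr hF (P7a_mul hbv hbv)) (P7a_mulr le_rfl (P7a_mul ?_ ?_))) (P7a_mulr le_rfl ?_))
      · rw [map_pow, hav, one_pow]
      · exact P7a_add (P7a_add (P7a_mul hηi hηi) hvone) hηi
      · exact P7a_mul (P7a_mul (P7a_mul hf.le hf.le) hB) (P7a_mul hbv hc2)
    · have e : (mu (2 * f ^ 2) ((1, 2 * (c * (1 + η)), 2 * (a * η * (1 + g))) : C × C × C) (mu (2 * f ^ 2) (1, 0, b) (1, 0, b))).2.2 - 2 * (a * η * (g + η))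
          = 2 * (2 * (a * η + c * (1 + η) * (f * f * (b * b)))) := by
        simp only [mu]
        rw [hb]
        ring
      show v ((mu (2 * f ^ 2) ((1, 2 * (c * (1 + η)), 2 * (a * η * (1 + g))) : C × C × C) (mu (2 * f ^ 2) (1, 0, b) (1, 0, b))).2.2 - 2 * (a * η * (g + η))) ≤ v 2 ^ 2
      rw [e]
      refine P7a_two (P7a_mulr le_rfl (P7a_add (P7a_mul hai hηi) ?_))
      exact P7a_mul hA (P7a_mul (P7a_mul hf.le hf.le) (P7a_mul hbv hbv))

omit h hf [CharZero C] in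
theorem P7c_zeta (h : Lc2 v o) {k : C} (hk : k = 1 ∨ k = o ∨ k = o ^ 2) : k ^ 3 = 1 ∧ v k = 1 := by
  have ho3 : o ^ 3 = 1 := by linear_combination (o - 1) * h.ho
  have h3 : k ^ 3 = 1 := by
    rcases hk with rfl | rfl | rfl
    · ring
    · exact ho3
    · calc (o ^ 2) ^ 3 = (o ^ 3) ^ 2 := by ring
        _ = 1 := by rw [ho3]; ring
  refine ⟨h3, ?_⟩
  have h4 : v k ^ 3 = 1 := by rw [← map_pow, h3, map_one]
  exact (pow_eq_one_iff.1 h4).resolve_right (by norm_num)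

omit h hf in
theorem P7c_X (h : Lc2 v o) {x : C} (hx : v x ≤ v 2 ^ 2) : ∃ X : C, X ^ 3 = 1 - x ∧ v (X - 1) ≤ v 2 ^ 2 ∧ v X = 1 := by
  obtain ⟨X, hX, hX1⟩ := cube_of h (x := 1 - x) (z := 0) (by rw [map_zero]; exact zero_le_one) (by
    have e : 1 - x - (1 + 2 * 0) = -x := by ring
    rw [e, Valuation.map_neg]; exact hx)
  have e : X - (1 + 2 * 0) = X - 1 := by ring
  rw [e] at hX1
  refine ⟨X, hX, hX1, ?_⟩
  have h2 := (two_lt h).1
  have h3 : v (X - 1) < v 1 := by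
    rw [map_one]
    refine lt_of_le_of_lt hX1 ?_
    calc v 2 ^ 2 = v 2 * v 2 := by rw [sq]
      _ ≤ 1 * v 2 := by gcongr
      _ = v 2 := one_mul _
      _ < 1 := h2
  have h4 : v (1 + (X - 1)) = v 1 := Valuation.map_add_eq_of_lt_left v h3
  rwa [add_sub_cancel, map_one] at h4

omit h hf [CharZero C] in
theorem P7c_loc {D X a : C} (hX : X ^ 3 = 1 - D) (ha : a ^ 3 = 1) : LocA D (X, a, 0) ∧ nm D (X, a, 0) = 1 := by
  refine ⟨Or.inr ⟨X * a ^ 2, 1, ?_, (a * X, a ^ 2, 0), ?_⟩, ?_⟩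
  · calc (1 : C) ^ 2 = X ^ 3 + D := by rw [hX]; ring
      _ = X ^ 3 * (a ^ 3) ^ 2 + D := by rw [ha]; ring
      _ = (X * a ^ 2) ^ 3 + D := by ring
  · simp only [mu, Prod.mk.injEq]
    refine ⟨?_, ?_, ?_⟩
    · ring
    · linear_combination (-X) * ha
    · linear_combination (-a) * ha
  · simp only [nm]
    linear_combination hX + D * ha

omit h hf in
theorem P7c_conv (h : Lc2 v o) {D d : C} (hD : D ≠ 0) (hd : v d = v 2) (N : C × C × C → C × C × C)
    (h1 : ∀ u w, N (mu D u w) = mu d (N u) (N w)) (h2 : ∀ u, nm d (N u) = nm D u) (h3 : ∀ u, SqA D u ↔ SqA d (N u))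
    (hb : ∀ k : C, k = 1 ∨ k = o ∨ k = o ^ 2 → ∃ β : C × C × C, LocA D β ∧ nm D β = 1 ∧ Un v d (N β) ∧ Kc v d (N β) k)
    {u : C × C × C} (hu : Un v d (N u)) (hs : IsSquare (nm D u)) (hr : Rc v (N u) 0) : LocA D u := by
  obtain ⟨k, hk, hK⟩ := kc_exists h hd hu (by rw [h2]; exact hs) hr
  have hne : nm D u ≠ 0 := by
    rw [← h2]
    exact un_ne hu
  rcases hk with rfl | hk
  · refine Or.inl ((h3 u).2 ?_)
    exact kc_zero h hd hu (by rw [h2]; exact hs) (by rw [map_zero]; exact zero_le) hK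
  · obtain ⟨hk3, hkv⟩ := P7c_zeta h hk
    obtain ⟨β, hβ1, hβ2, hβ3, hβ4⟩ := hb k hk
    have hk2 := kc_mul h hd hu hβ3 hkv.le hkv.le hK hβ4
    rw [← h1] at hk2
    have hd1 : v d ≤ 1 := by rw [hd]; exact (two_lt h).1.le
    have hU : Un v d (N (mu D u β)) := by
      rw [h1]
      exact un_mu hd1 hu hβ3
    have hsq : IsSquare (nm D (mu D u β)) := by
      rw [nm_mu, hβ2, mul_one]
      exact hs
    have hS : SqA D (mu D u β) := by
      refine (h3 _).2 (kc_zero h hd hU (by rw [h2]; exact hsq) ?_ hk2)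
      rw [← two_mul, map_mul, hkv, mul_one]
    refine locA_of_mul hD h.ho hne hs ?_ ?_ (Or.inl hS) hβ1
    · rw [hβ2]; exact one_ne_zero
    · rw [hβ2]; exact ⟨1, by ring⟩

/-- [P7c] -/
theorem beta16 {k : C} (hk : k = 1 ∨ k = o ∨ k = o ^ 2) :
    ∃ β : C × C × C, LocA (16 * f) β ∧ nm (16 * f) β = 1 ∧ Un v (2 * f) (t8 β) ∧ Kc v (2 * f) (t8 β) k := by
  obtain ⟨hk3, hkv⟩ := P7c_zeta h hk
  have hf0 : f ≠ 0 := by
    rintro rfl
    rw [map_zero] at hf
    exact zero_ne_one hf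
  have h2 := (two_lt h).1
  have hd : v (2 * f) = v 2 := by rw [map_mul, hf, mul_one]
  have hkf : v ((k / f) ^ 2) = 1 := by rw [map_pow, map_div₀, hkv, hf, div_one, one_pow]
  obtain ⟨a, ha3, ha, hav⟩ := exists_zeta h hkf
  have ha1 := (P7c_zeta h ha).2
  have h24 : v (16 * f) ≤ v 2 ^ 2 := by
    have e : 16 * f = 2 ^ 2 * (2 * (2 * f)) := by ring
    rw [e, map_mul, map_pow, map_mul, hd]
    calc v 2 ^ 2 * (v 2 * v 2) ≤ v 2 ^ 2 * (1 * 1) := by gcongr
      _ = v 2 ^ 2 := by rw [mul_one, mul_one]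
  obtain ⟨X, hX, hX1, hXv⟩ := P7c_X h h24
  obtain ⟨hL, hN⟩ := P7c_loc hX ha3
  have hIn : In v (t8 (X, a, 0)) := by
    refine ⟨hXv.le, ?_, ?_⟩
    · show v (2 * a) ≤ 1
      rw [map_mul, ha1, mul_one]
      exact h2.le
    · show v (4 * 0) ≤ 1
      rw [mul_zero, map_zero]
      exact zero_le_one
  refine ⟨(X, a, 0), hL, hN, ⟨hIn, ?_⟩, ?_⟩
  · exact (unR_iff h hd hIn).2 hXv
  · have hInc : In v ((1 : C), (0 : C), a ^ 2 * f) := by
      refine ⟨?_, ?_, ?_⟩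
      · show v 1 ≤ 1
        rw [map_one]
      · show v 0 ≤ 1
        rw [map_zero]
        exact zero_le_one
      · show v (a ^ 2 * f) ≤ 1
        rw [map_mul, map_pow, ha1, hf, one_pow, one_mul]
    refine ⟨(1, 0, a ^ 2 * f), ⟨hInc, (unR_iff h hd hInc).2 (map_one v)⟩, ?_⟩
    have hl2 : v 2 * v 2 = v 2 ^ 2 := (sq _).symm
    -- `a² f ≡ k`
    have hak : v (a ^ 2 * f - k) ≤ v 2 := by
      have e : a ^ 2 * f - k = (a - (k / f) ^ 2) * (a + (k / f) ^ 2) * f + ((k / f) ^ 4 - k / f) * f := by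
        field_simp
        ring
      rw [e]
      refine v.map_add_le ?_ ?_
      · rw [map_mul, map_mul, hf, mul_one]
        have h5 : v (a - (k / f) ^ 2) ≤ v 2 := by rw [← Valuation.map_neg, neg_sub]; exact hav
        have h6 : v (a + (k / f) ^ 2) ≤ 1 := v.map_add_le ha1.le hkf.le
        calc v (a - (k / f) ^ 2) * v (a + (k / f) ^ 2) ≤ v 2 * 1 := by gcongr
          _ = v 2 := mul_one _
      · rw [map_mul, hf, mul_one]
        exact fourth h (by rw [map_div₀, hkv, hf, div_one])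
    have hf3 := third h hf
    refine ⟨?_, ?_, ?_⟩
    · show v (_ - 1) ≤ _
      have e : (mu (2 * f) (t8 (X, a, 0)) (mu (2 * f) (1, 0, a ^ 2 * f) (1, 0, a ^ 2 * f))).1 - 1
          = (X - 1) + 2 ^ 2 * (2 * f * a * (a ^ 2 * f)) := by
        simp only [mu, t8]
        ring
      rw [e]
      refine v.map_add_le hX1 ?_
      rw [map_mul, map_pow]
      have : v (2 * f * a * (a ^ 2 * f)) ≤ 1 := by
        rw [map_mul, map_mul, hd, ha1, map_mul, map_pow, ha1, hf, mul_one, one_pow, one_mul, mul_one]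
        exact h2.le
      calc v 2 ^ 2 * v (2 * f * a * (a ^ 2 * f)) ≤ v 2 ^ 2 * 1 := by gcongr
        _ = v 2 ^ 2 := mul_one _
    · show v (_ - 0) ≤ _
      have e : (mu (2 * f) (t8 (X, a, 0)) (mu (2 * f) (1, 0, a ^ 2 * f) (1, 0, a ^ 2 * f))).2.1 - 0
          = (X - 1) * (2 * f * (a ^ 2 * f) ^ 2) + 2 * ((f ^ 3 - 1) * a) + 2 ^ 2 * a := by
        simp only [mu, t8]
        linear_combination (2 * f ^ 3 * a) * ha3
      rw [e]
      refine v.map_add_le (v.map_add_le ?_ ?_) ?_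
      · rw [map_mul]
        have : v (2 * f * (a ^ 2 * f) ^ 2) ≤ 1 := by
          rw [map_mul, hd, map_pow, map_mul, map_pow, ha1, hf, one_pow, one_mul, one_pow, mul_one]
          exact h2.le
        calc v (X - 1) * v (2 * f * (a ^ 2 * f) ^ 2) ≤ v 2 ^ 2 * 1 := by gcongr
          _ = v 2 ^ 2 := mul_one _
      · rw [map_mul, map_mul, ha1, mul_one]
        calc v 2 * v (f ^ 3 - 1) ≤ v 2 * v 2 := by gcongr
          _ = v 2 ^ 2 := hl2
      · rw [map_mul, map_pow, ha1, mul_one]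
    · show v (_ - 2 * k) ≤ _
      have e : (mu (2 * f) (t8 (X, a, 0)) (mu (2 * f) (1, 0, a ^ 2 * f) (1, 0, a ^ 2 * f))).2.2 - 2 * k
          = (X - 1) * (2 * (a ^ 2 * f)) + 2 ^ 2 * (a * f * (a ^ 2 * f) ^ 2) + 2 * (a ^ 2 * f - k) := by
        simp only [mu, t8]
        ring
      rw [e]
      refine v.map_add_le (v.map_add_le ?_ ?_) ?_
      · rw [map_mul]
        have : v (2 * (a ^ 2 * f)) ≤ 1 := by
          rw [map_mul, map_mul, map_pow, ha1, hf, one_pow, one_mul, mul_one]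
          exact h2.le
        calc v (X - 1) * v (2 * (a ^ 2 * f)) ≤ v 2 ^ 2 * 1 := by gcongr
          _ = v 2 ^ 2 := mul_one _
      · rw [map_mul, map_pow]
        have : v (a * f * (a ^ 2 * f) ^ 2) ≤ 1 := by
          rw [map_mul, map_mul, map_pow, map_mul, map_pow, ha1, hf, one_pow, one_mul, one_pow, mul_one]
        calc v 2 ^ 2 * v (a * f * (a ^ 2 * f) ^ 2) ≤ v 2 ^ 2 * 1 := by gcongr
          _ = v 2 ^ 2 := mul_one _
      · rw [map_mul]
        calc v 2 * v (a ^ 2 * f - k) ≤ v 2 * v 2 := by gcongr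
          _ = v 2 ^ 2 := hl2

/-- [P7c] -/
theorem beta32 {k : C} (hk : k = 1 ∨ k = o ∨ k = o ^ 2) :
    ∃ β : C × C × C, LocA (32 * f) β ∧ nm (32 * f) β = 1 ∧ Un v (2 * f ^ 2) (n4 f (t8 β)) ∧ Kc v (2 * f ^ 2) (n4 f (t8 β)) k := by
  obtain ⟨hk3, hkv⟩ := P7c_zeta h hk
  have hf0 : f ≠ 0 := by
    rintro rfl
    rw [map_zero] at hf
    exact zero_ne_one hf
  have h2 := (two_lt h).1
  have hd : v (2 * f ^ 2) = v 2 := by rw [map_mul, map_pow, hf, one_pow, mul_one]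
  have hd1 : v (2 * f ^ 2) ≤ 1 := by rw [hd]; exact h2.le
  have hkf : v (k * f) = 1 := by rw [map_mul, hkv, hf, mul_one]
  obtain ⟨a, ha3, ha, hav⟩ := exists_zeta h hkf
  have ha1 := (P7c_zeta h ha).2
  have h24 : v (32 * f) ≤ v 2 ^ 2 := by
    have e : 32 * f = 2 ^ 2 * (2 * (2 * (2 * f))) := by ring
    rw [e, map_mul, map_pow, map_mul, map_mul, map_mul, hf, mul_one]
    calc v 2 ^ 2 * (v 2 * (v 2 * v 2)) ≤ v 2 ^ 2 * (1 * (1 * 1)) := by gcongr
      _ = v 2 ^ 2 := by rw [mul_one, mul_one, mul_one]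
  obtain ⟨X, hX, hX1, hXv⟩ := P7c_X h h24
  obtain ⟨hL, hN⟩ := P7c_loc hX ha3
  have hIn : In v (n4 f (t8 (X, a, 0))) := by
    refine ⟨hXv.le, ?_, ?_⟩
    · show v (2 * (4 * 0)) ≤ 1
      rw [mul_zero, mul_zero, map_zero]
      exact zero_le_one
    · show v (2 * a / f) ≤ 1
      rw [map_div₀, hf, div_one, map_mul, ha1, mul_one]
      exact h2.le
  refine ⟨(X, a, 0), hL, hN, ⟨hIn, ?_⟩, ?_⟩
  · exact (unR_iff h hd hIn).2 hXv
  · refine ⟨(1, 0, 0), un_one, ?_⟩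
    rw [(mu_one (d := 2 * f ^ 2) (1, 0, 0)).1, (mu_one (d := 2 * f ^ 2) (n4 f (t8 (X, a, 0)))).1]
    refine ⟨hX1, ?_, ?_⟩
    · show v (2 * (4 * 0) - 0) ≤ _
      rw [mul_zero, mul_zero, sub_zero, map_zero]
      exact zero_le
    · show v (2 * a / f - 2 * k) ≤ _
      have e : 2 * a / f - 2 * k = 2 * (a - k * f) / f := by
        field_simp
      rw [e, map_div₀, hf, div_one, map_mul]
      have h5 : v (a - k * f) ≤ v 2 := by rw [← Valuation.map_neg, neg_sub]; exact hav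
      calc v 2 * v (a - k * f) ≤ v 2 * v 2 := by gcongr
        _ = v 2 ^ 2 := (sq _).symm

/-- [P7d] -/
theorem convB4 (h2 : ∀ y : C, v y ≤ 1 → ¬ v (f - y ^ 2 - 2) ≤ v 2 ^ 2) {u : C × C × C} (hu : Un v (2 * f ^ 2) (n4 f u))
    (hs : IsSquare (nm (4 * f) u)) (hr : Rc v (n4 f u) 0) : LocA (4 * f) u := by
  have hf0 : f ≠ 0 := by
    rintro rfl
    rw [map_zero] at hf
    exact zero_ne_one hf
  have hd : v (2 * f ^ 2) = v 2 := by rw [map_mul, map_pow, hf, one_pow, mul_one]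
  exact P7c_conv h (D := 4 * f) (d := 2 * f ^ 2) (mul_ne_zero (by norm_num) hf0) hd (n4 f) (n4_mu hf0) (n4_nm hf0) (sqA_n4 hf0)
    (fun k hk => beta4 h hf h2 hk) hu hs hr

/-- [P7d] -/
theorem convB16 {u : C × C × C} (hu : Un v (2 * f) (t8 u))
    (hs : IsSquare (nm (16 * f) u)) (hr : Rc v (t8 u) 0) : LocA (16 * f) u := by
  have hf0 : f ≠ 0 := by
    rintro rfl
    rw [map_zero] at hf
    exact zero_ne_one hf
  have hd : v (2 * f) = v 2 := by rw [map_mul, hf, mul_one]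
  have e16 : 16 * f = 8 * (2 * f) := by ring
  refine P7c_conv h (D := 16 * f) (d := 2 * f) (mul_ne_zero (by norm_num) hf0) hd t8 ?_ ?_ ?_
    (fun k hk => beta16 h hf hk) hu hs hr
  · intro u w
    rw [e16]
    exact t8_mu (2 * f) u w
  · intro u
    rw [e16]
    exact t8_nm (2 * f) u
  · intro u
    rw [e16]
    exact sqA_t8 (2 * f) u

/-- [P7d] -/
theorem convB32 {u : C × C × C} (hu : Un v (2 * f ^ 2) (n4 f (t8 u)))
    (hs : IsSquare (nm (32 * f) u)) (hr : Rc v (n4 f (t8 u)) 0) : LocA (32 * f) u := by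
  have hf0 : f ≠ 0 := by
    rintro rfl
    rw [map_zero] at hf
    exact zero_ne_one hf
  have hd : v (2 * f ^ 2) = v 2 := by rw [map_mul, map_pow, hf, one_pow, mul_one]
  have e32 : 32 * f = 8 * (4 * f) := by ring
  refine P7c_conv h (D := 32 * f) (d := 2 * f ^ 2) (mul_ne_zero (by norm_num) hf0) hd (fun u => n4 f (t8 u)) ?_ ?_ ?_
    (fun k hk => beta32 h hf hk) hu hs hr
  · intro u w
    rw [e32]
    show n4 f (t8 (mu (8 * (4 * f)) u w)) = mu (2 * f ^ 2) (n4 f (t8 u)) (n4 f (t8 w))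
    rw [t8_mu, n4_mu hf0]
  · intro u
    rw [e32]
    show nm (2 * f ^ 2) (n4 f (t8 u)) = _
    rw [n4_nm hf0, t8_nm]
  · intro u
    rw [e32]
    show _ ↔ SqA (2 * f ^ 2) (n4 f (t8 u))
    rw [sqA_t8, sqA_n4 hf0]

/-- [P7e] -/
theorem dirB4 (h2 : ∀ y : C, v y ≤ 1 → ¬ v (f - y ^ 2 - 2) ≤ v 2 ^ 2) {u : C × C × C} (hu : Un v (2 * f ^ 2) (n4 f u))
    (hl : LocA (4 * f) u) : Rc v (n4 f u) 0 := by
  have hf0 : f ≠ 0 := by
    rintro rfl
    rw [map_zero] at hf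
    exact zero_ne_one hf
  have hd : v (2 * f ^ 2) = v 2 := by rw [map_mul, map_pow, hf, one_pow, mul_one]
  have h2l := (two_lt h).1
  have h20 : (2 : C) ≠ 0 := two_ne_zero
  rcases hl with hs | ⟨x, y, hy, hs⟩
  · exact P7e_sq h hd hu ((sqA_n4 hf0 u).1 hs)
  have hs' : SqA (2 * f ^ 2) (mu (2 * f ^ 2) (n4 f u) (x, 0, 1 / f)) := by
    have := (sqA_n4 hf0 _).1 hs
    rw [n4_mu hf0] at this
    simpa [n4] using this
  have hfi : v (1 / f) = 1 := by rw [map_div₀, hf, map_one, div_one]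
  have h4 : v (4 * f) ≤ 1 := by
    rw [show (4 : C) = 2 * 2 by norm_num, map_mul, map_mul, hf, mul_one]
    exact mul_le_one' h2l.le h2l.le
  rcases lt_trichotomy (v x) 1 with hx | hx | hx
  · obtain ⟨x₁, hx1, rfl⟩ := P7e_two h hx
    have hy2 : v y < 1 := by
      by_contra hc
      rw [not_lt] at hc
      have e1 : v (y ^ 2) < 1 := by
        rw [hy]
        have e2 : (2 * x₁) ^ 3 + 4 * f = 2 * (4 * x₁ ^ 3 + 2 * f) := by ring
        rw [e2, map_mul]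
        have e3 : v (4 * x₁ ^ 3 + 2 * f) ≤ 1 := by
          refine P3a_add ?_ ?_
          · rw [show (4 : C) = 2 * 2 by norm_num, map_mul, map_mul, map_pow]
            exact mul_le_one' (mul_le_one' h2l.le h2l.le) (pow_le_one' hx1 3)
          · rw [map_mul, hf, mul_one]; exact h2l.le
        calc v 2 * v (4 * x₁ ^ 3 + 2 * f) ≤ v 2 * 1 := mul_le_mul' le_rfl e3
          _ < 1 := by rw [mul_one]; exact h2l
      rw [map_pow] at e1
      exact absurd (one_le_pow₀ hc) (not_le.2 e1)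
    obtain ⟨y₁, hy1, rfl⟩ := P7e_two h hy2
    have hyy : y₁ ^ 2 = 2 * x₁ ^ 3 + f := by
      have : (4 : C) * y₁ ^ 2 = 4 * (2 * x₁ ^ 3 + f) := by linear_combination hy
      exact mul_left_cancel₀ (by norm_num) this
    rcases eq_or_lt_of_le hx1 with hx1' | hx1'
    · exfalso
      apply h2 y₁ hy1
      have e1 : f - y₁ ^ 2 - 2 = -(2 * ((x₁ ^ 3 - 1) + 2)) := by rw [hyy]; ring
      rw [e1, Valuation.map_neg, map_mul, sq]
      exact mul_le_mul' le_rfl (P3a_add (third h hx1') le_rfl)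
    · obtain ⟨x₂, hx2, rfl⟩ := P7e_two h hx1'
      obtain ⟨w1, w2⟩ := P7e_W h (d := 2 * f ^ 2) (a := 1 / f) (b := 2 * (x₂ / f ^ 2)) (c := 0) hd hfi (by
        rw [map_mul, map_div₀, map_pow, hf, one_pow, div_one]
        calc v 2 * v x₂ ≤ v 2 * 1 := mul_le_mul' le_rfl hx2
          _ = v 2 := mul_one _) (by rw [map_zero]; exact zero_le)
      refine P7e_core h hd hu w1 w2 (P7e_fin (0, 0, 1 / (2 * f ^ 2)) ?_ hs')
      simp only [mu, Prod.mk.injEq]
      refine ⟨?_, ?_, ?_⟩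
      · field_simp
        ring
      · field_simp
        ring
      · field_simp
        ring
  · obtain ⟨w1, w2⟩ := P7e_W h (d := 2 * f ^ 2) (a := x) (b := 0) (c := 1 / f) hd hx (by rw [map_zero]; exact zero_le) hfi.le
    exact P7e_core h hd hu w1 w2 hs'
  · obtain ⟨c, hc, hcx⟩ := P7e_val h h4 hx hy
    have hc1 : v c ≤ 1 := hc.trans h2l.le
    obtain ⟨w1, w2⟩ := P7e_W h (d := 2 * f ^ 2) (a := c ^ 2 * x) (b := 0) (c := c ^ 2 * (1 / f)) hd hcx (by rw [map_zero]; exact zero_le)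
      (P3a_mul (by rw [map_pow]; exact pow_le_one' hc1 2) hfi.le)
    refine P7e_core h hd hu w1 w2 (P7e_fin (c, 0, 0) ?_ hs')
    simp only [mu, Prod.mk.injEq]
    refine ⟨?_, ?_, ?_⟩ <;> ring

/-- [P7e] -/
theorem dirB16 {u : C × C × C} (hu : Un v (2 * f) (t8 u)) (hl : LocA (16 * f) u) : Rc v (t8 u) 0 := by
  have hf0 : f ≠ 0 := by
    rintro rfl
    rw [map_zero] at hf
    exact zero_ne_one hf
  have hd : v (2 * f) = v 2 := by rw [map_mul, hf, mul_one]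
  have h2l := (two_lt h).1
  have h20 : (2 : C) ≠ 0 := two_ne_zero
  have h16 : (16 : C) * f = 8 * (2 * f) := by ring
  rcases hl with hs | ⟨x, y, hy, hs⟩
  · refine P7e_sq h hd hu ((sqA_t8 _ u).1 ?_)
    rwa [← h16]
  have hs' : SqA (2 * f) (mu (2 * f) (t8 u) (x, 2, 0)) := by
    rw [h16] at hs
    have := (sqA_t8 _ _).1 hs
    rw [t8_mu] at this
    simpa [t8] using this
  have h16' : v (16 * f) ≤ 1 := by
    rw [show (16 : C) = 2 ^ 4 by norm_num, map_mul, map_pow, hf, mul_one]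
    exact pow_le_one' h2l.le 4
  rcases lt_trichotomy (v x) 1 with hx | hx | hx
  · obtain ⟨x₁, hx1, rfl⟩ := P7e_two h hx
    rcases eq_or_lt_of_le hx1 with hx1' | hx1'
    · exfalso
      refine P7e_odd (v := v) hy (n := -3) ?_ (by norm_num)
      have e8 : v ((2 * x₁) ^ 3) = WithZero.exp (-3 : ℤ) := by
        rw [mul_pow, map_mul, map_pow, map_pow, hx1', one_pow, mul_one, h.two, ← WithZero.exp_nsmul]
        rfl
      have e16 : v (16 * f) = WithZero.exp (-4 : ℤ) := by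
        rw [show (16 : C) = 2 ^ 4 by norm_num, map_mul, map_pow, hf, mul_one, h.two, ← WithZero.exp_nsmul]
        rfl
      rw [← e8]
      refine Valuation.map_add_eq_of_lt_left v ?_
      rw [e8, e16]
      exact WithZero.exp_lt_exp.2 (by norm_num)
    · obtain ⟨x₂, hx2, rfl⟩ := P7e_two h hx1'
      obtain ⟨w1, w2⟩ := P7e_W h (d := 2 * f) (a := 1 / f) (b := 0) (c := x₂ / f ^ 2) hd
        (by rw [map_div₀, hf, map_one, div_one]) (by rw [map_zero]; exact zero_le) (by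
        rw [map_div₀, map_pow, hf, one_pow, div_one]
        exact hx2)
      refine P7e_core h hd hu w1 w2 (P7e_fin (0, 1 / (2 * f), 0) ?_ hs')
      simp only [mu, Prod.mk.injEq]
      refine ⟨?_, ?_, ?_⟩
      · field_simp
        ring
      · field_simp
        ring
      · field_simp
        ring
  · obtain ⟨w1, w2⟩ := P7e_W h (d := 2 * f) (a := x) (b := 2) (c := 0) hd hx le_rfl (by rw [map_zero]; exact zero_le)
    exact P7e_core h hd hu w1 w2 hs'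
  · obtain ⟨c, hc, hcx⟩ := P7e_val h h16' hx hy
    have hc1 : v c ≤ 1 := hc.trans h2l.le
    obtain ⟨w1, w2⟩ := P7e_W h (d := 2 * f) (a := c ^ 2 * x) (b := c ^ 2 * 2) (c := 0) hd hcx
      (P3a_mul (by rw [map_pow]; exact pow_le_one' hc1 2) le_rfl) (by rw [map_zero]; exact zero_le)
    refine P7e_core h hd hu w1 w2 (P7e_fin (c, 0, 0) ?_ hs')
    simp only [mu, Prod.mk.injEq]
    refine ⟨?_, ?_, ?_⟩ <;> ring

/-- [P7e] -/
theorem dirB32 {u : C × C × C} (hu : Un v (2 * f ^ 2) (n4 f (t8 u))) (hl : LocA (32 * f) u) : Rc v (n4 f (t8 u)) 0 := by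
  have hf0 : f ≠ 0 := by
    rintro rfl
    rw [map_zero] at hf
    exact zero_ne_one hf
  have hd : v (2 * f ^ 2) = v 2 := by rw [map_mul, map_pow, hf, one_pow, mul_one]
  have h2l := (two_lt h).1
  have h20 : (2 : C) ≠ 0 := two_ne_zero
  have h32 : (32 : C) * f = 8 * (4 * f) := by ring
  rcases hl with hs | ⟨x, y, hy, hs⟩
  · refine P7e_sq h hd hu ((sqA_n4 hf0 _).1 ((sqA_t8 _ u).1 ?_))
    rwa [← h32]
  have hs' : SqA (2 * f ^ 2) (mu (2 * f ^ 2) (n4 f (t8 u)) (x, 0, 2 / f)) := by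
    rw [h32] at hs
    have := (sqA_n4 hf0 _).1 ((sqA_t8 _ _).1 hs)
    rw [t8_mu, n4_mu hf0] at this
    simpa [t8, n4] using this
  have h32' : v (32 * f) ≤ 1 := by
    rw [show (32 : C) = 2 ^ 5 by norm_num, map_mul, map_pow, hf, mul_one]
    exact pow_le_one' h2l.le 5
  have hfi : v (2 / f) ≤ 1 := by rw [map_div₀, hf, div_one]; exact h2l.le
  rcases lt_trichotomy (v x) 1 with hx | hx | hx
  · exfalso
    have e32 : v (32 * f) = WithZero.exp (-5 : ℤ) := by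
      rw [show (32 : C) = 2 ^ 5 by norm_num, map_mul, map_pow, hf, mul_one, h.two, ← WithZero.exp_nsmul]
      rfl
    obtain ⟨x₁, hx1, rfl⟩ := P7e_two h hx
    rcases eq_or_lt_of_le hx1 with hx1' | hx1'
    · refine P7e_odd (v := v) hy (n := -3) ?_ (by norm_num)
      have e8 : v ((2 * x₁) ^ 3) = WithZero.exp (-3 : ℤ) := by
        rw [mul_pow, map_mul, map_pow, map_pow, hx1', one_pow, mul_one, h.two, ← WithZero.exp_nsmul]
        rfl
      rw [← e8]
      refine Valuation.map_add_eq_of_lt_left v ?_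
      rw [e8, e32]
      exact WithZero.exp_lt_exp.2 (by norm_num)
    · obtain ⟨x₂, hx2, rfl⟩ := P7e_two h hx1'
      refine P7e_odd (v := v) hy (n := -5) ?_ (by norm_num)
      rw [← e32]
      refine Valuation.map_add_eq_of_lt_right v ?_
      rw [e32]
      have e64 : v ((2 * (2 * x₂)) ^ 3) ≤ WithZero.exp (-6 : ℤ) := by
        have : (2 * (2 * x₂)) ^ 3 = 2 ^ 6 * x₂ ^ 3 := by ring
        rw [this, map_mul, map_pow, map_pow, h.two, ← WithZero.exp_nsmul]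
        calc WithZero.exp (6 • (-1 : ℤ)) * v x₂ ^ 3 ≤ WithZero.exp (6 • (-1 : ℤ)) * 1 := mul_le_mul' le_rfl (pow_le_one' hx2 3)
          _ = WithZero.exp (-6 : ℤ) := by rw [mul_one]; rfl
      exact e64.trans_lt (WithZero.exp_lt_exp.2 (by norm_num))
  · obtain ⟨w1, w2⟩ := P7e_W h (d := 2 * f ^ 2) (a := x) (b := 0) (c := 2 / f) hd hx (by rw [map_zero]; exact zero_le) hfi
    exact P7e_core h hd hu w1 w2 hs'
  · obtain ⟨c, hc, hcx⟩ := P7e_val h h32' hx hy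
    have hc1 : v c ≤ 1 := hc.trans h2l.le
    obtain ⟨w1, w2⟩ := P7e_W h (d := 2 * f ^ 2) (a := c ^ 2 * x) (b := 0) (c := c ^ 2 * (2 / f)) hd hcx (by rw [map_zero]; exact zero_le)
      (P3a_mul (by rw [map_pow]; exact pow_le_one' hc1 2) hfi)
    refine P7e_core h hd hu w1 w2 (P7e_fin (c, 0, 0) ?_ hs')
    simp only [mu, Prod.mk.injEq]
    refine ⟨?_, ?_, ?_⟩ <;> ring

omit hf in
/-- auxiliary lemma of row P7f -/
theorem P7f_gen {D D' ζ : C} (hD' : v D' = v 2) (hζ : ζ = o ∨ ζ = o ^ 2) (N : C × C × C → C × C × C)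
    (hmu : ∀ u w, N (mu D u w) = mu D' (N u) (N w)) (hnm : ∀ u, nm D' (N u) = nm D u)
    (hsur : ∀ g', ∃ g, g' = N g) (hsg1 : ∀ (u : C × C × C) (b : C), Rc v (N u) b → Rc v (N (P7f_sg o u)) (ζ * b))
    (hsg2 : ∀ u : C × C × C, In v (N u) → In v (N (P7f_sg o u)))
    (hZ : ∀ u : C × C × C, Un v D' (N u) → IsSquare (nm D u) → Rc v (N u) 0 → LocA D u) : AdjP v o D := by
  have ho := h.ho
  have ho3 : o ^ 3 = 1 := by linear_combination (o - 1) * ho
  obtain ⟨vo, -, -⟩ := v_o h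
  obtain ⟨h2lt, h20⟩ := two_lt h
  have hD1 : v D' ≤ 1 := by rw [hD']; exact h2lt.le
  have v0 : v (0 : C) ≤ 1 := by rw [map_zero]; exact zero_le_one
  have hrep : ∀ a : C, (a = 0 ∨ a = 1 ∨ a = o ∨ a = o ^ 2) → v a ≤ 1 := by
    rintro a (rfl | rfl | rfl | rfl)
    · exact v0
    · rw [map_one]
    · exact vo.le
    · rw [map_pow, vo, one_pow]
  have vζ : v ζ = 1 := by
    rcases hζ with k | k
    · rw [k]; exact vo
    · rw [k, map_pow, vo, one_pow]
  refine P7f_adj (ζ := ζ) ho3 hζ (fun u a => v a ≤ 1 ∧ Un v D' (N u) ∧ Rc v (N u) a) ?_ ?_ ?_ ?_ ?_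
  · intro α hα hα2 _
    obtain ⟨g', hg', hun⟩ := exists_unR h hD' (u := N α) (by rw [hnm]; exact hα) (by rw [hnm]; exact hα2)
    obtain ⟨g, rfl⟩ := hsur g'
    rw [← hmu, ← hmu] at hun
    obtain ⟨a, ha, hra⟩ := rc_exists h hD' hun
    exact ⟨g, a, by rw [← hnm]; exact hg', ha, hrep a ha, hun, hra⟩
  · rintro u w a b ⟨k1, k2, k3⟩ ⟨l1, l2, l3⟩
    refine ⟨(v.map_add _ _).trans (max_le k1 l1), ?_, ?_⟩
    · rw [hmu]
      exact un_mu hD1 k2 l2
    · rw [hmu]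
      exact rc_mul h hD' k2 l2 k1 l1 k3 l3
  · rintro w b ⟨l1, l2, l3⟩
    refine ⟨?_, ⟨hsg2 w l2.1, ?_⟩, hsg1 w b l3⟩
    · rw [map_mul, vζ, one_mul]
      exact l1
    · rw [hnm, P7f_sg_nm ho3, ← hnm]
      exact l2.2
  · rintro u _ hs ⟨-, k2, k3⟩
    exact hZ u k2 hs k3
  · rintro u a ha ⟨-, k2, k3⟩
    refine ⟨v0, k2, ?_⟩
    have e1 : (N u).2.1 - 0 * (N u).1 = ((N u).2.1 - (a + a) * (N u).1) + 2 * (a * (N u).1) := by ring
    change v ((N u).2.1 - 0 * (N u).1) ≤ v 2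
    rw [e1]
    refine (v.map_add _ _).trans (max_le k3 ?_)
    rw [map_mul, map_mul]
    exact (mul_le_mul' le_rfl (mul_le_one' (hrep a (Or.inr ha)) k2.1.1)).trans (mul_one _).le

omit hf in
/-- auxiliary lemma of row P7f -/
theorem P7f_vo : o ^ 4 = o ∧ v o = 1 := by
  have ho := h.ho
  have ho3 : o ^ 3 = 1 := by linear_combination (o - 1) * ho
  exact ⟨by linear_combination o * ho3, (v_o h).1⟩

/-- [P7f] -/
theorem adjB4 (h2 : ∀ y : C, v y ≤ 1 → ¬ v (f - y ^ 2 - 2) ≤ v 2 ^ 2) : AdjP v o (4 * f) := by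
  have hf0 : f ≠ 0 := by
    rintro rfl; rw [map_zero] at hf; exact zero_ne_one hf
  obtain ⟨o4, vo⟩ := P7f_vo h
  have hD' : v (2 * f ^ 2) = v 2 := by rw [map_mul, map_pow, hf, one_pow, mul_one]
  refine P7f_gen h (D := 4 * f) (ζ := o ^ 2) hD' (Or.inr rfl) (n4 f) (n4_mu hf0) (n4_nm hf0) ?_ ?_ ?_ ?_
  · rintro ⟨a, b, c⟩
    refine ⟨(a, c * f, b / 2), ?_⟩
    simp only [n4, Prod.mk.injEq]
    refine ⟨trivial, ?_, ?_⟩
    · field_simp
    · field_simp
  · intro u b hb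
    have h3 := rc_sig h (rc_sig h hb)
    have e1 : n4 f (P7f_sg o u) = ((n4 f u).1, o * (o * (n4 f u).2.1), o ^ 2 * (o ^ 2 * (n4 f u).2.2)) := by
      simp only [n4, P7f_sg, Prod.mk.injEq]
      refine ⟨trivial, by ring, ?_⟩
      field_simp
      linear_combination (-u.2.1) * o4
    have e2 : o ^ 2 * b = o * (o * b) := by ring
    rw [e1, e2]
    exact h3
  · rintro u ⟨k1, k2, k3⟩
    refine ⟨k1, ?_, ?_⟩
    · change v (2 * (o ^ 2 * u.2.2)) ≤ 1
      have e1 : 2 * (o ^ 2 * u.2.2) = o ^ 2 * (2 * u.2.2) := by ring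
      rw [e1, map_mul, map_pow, vo, one_pow, one_mul]
      exact k2
    · change v (o * u.2.1 / f) ≤ 1
      have e1 : o * u.2.1 / f = o * (u.2.1 / f) := by ring
      rw [e1, map_mul, vo, one_mul]
      exact k3
  · intro u hu hs hr
    exact convB4 h hf h2 hu hs hr

/-- [P7f] -/
theorem adjB16 : AdjP v o (16 * f) := by
  have hf0 : f ≠ 0 := by
    rintro rfl; rw [map_zero] at hf; exact zero_ne_one hf
  obtain ⟨o4, vo⟩ := P7f_vo h
  have hD' : v (2 * f) = v 2 := by rw [map_mul, hf, mul_one]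
  have e16 : (16 : C) * f = 8 * (2 * f) := by ring
  refine P7f_gen h (D := 16 * f) (ζ := o) hD' (Or.inl rfl) t8 ?_ ?_ ?_ ?_ ?_ ?_
  · intro u w
    rw [e16]
    exact t8_mu _ u w
  · intro u
    rw [e16]
    exact t8_nm _ u
  · rintro ⟨a, b, c⟩
    refine ⟨(a, b / 2, c / 4), ?_⟩
    simp only [t8, Prod.mk.injEq]
    refine ⟨trivial, ?_, ?_⟩
    · field_simp
    · field_simp
  · intro u b hb
    have h3 := rc_sig h hb
    have e1 : t8 (P7f_sg o u) = ((t8 u).1, o * (t8 u).2.1, o ^ 2 * (t8 u).2.2) := by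
      simp only [t8, P7f_sg, Prod.mk.injEq]
      refine ⟨trivial, by ring, by ring⟩
    rw [e1]
    exact h3
  · rintro u ⟨k1, k2, k3⟩
    refine ⟨k1, ?_, ?_⟩
    · change v (2 * (o * u.2.1)) ≤ 1
      have e1 : 2 * (o * u.2.1) = o * (2 * u.2.1) := by ring
      rw [e1, map_mul, vo, one_mul]
      exact k2
    · change v (4 * (o ^ 2 * u.2.2)) ≤ 1
      have e1 : 4 * (o ^ 2 * u.2.2) = o ^ 2 * (4 * u.2.2) := by ring
      rw [e1, map_mul, map_pow, vo, one_pow, one_mul]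
      exact k3
  · intro u hu hs hr
    exact convB16 h hf hu hs hr

/-- [P7f] -/
theorem adjB32 : AdjP v o (32 * f) := by
  have hf0 : f ≠ 0 := by
    rintro rfl; rw [map_zero] at hf; exact zero_ne_one hf
  obtain ⟨o4, vo⟩ := P7f_vo h
  have hD' : v (2 * f ^ 2) = v 2 := by rw [map_mul, map_pow, hf, one_pow, mul_one]
  have e32 : (32 : C) * f = 8 * (4 * f) := by ring
  refine P7f_gen h (D := 32 * f) (ζ := o ^ 2) hD' (Or.inr rfl) (fun u => n4 f (t8 u)) ?_ ?_ ?_ ?_ ?_ ?_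
  · intro u w
    change n4 f (t8 (mu (32 * f) u w)) = _
    rw [e32, t8_mu, n4_mu hf0]
  · intro u
    change nm (2 * f ^ 2) (n4 f (t8 u)) = _
    rw [n4_nm hf0, t8_nm, e32]
  · rintro ⟨a, b, c⟩
    refine ⟨(a, c * f / 2, b / 8), ?_⟩
    simp only [n4, t8, Prod.mk.injEq]
    refine ⟨trivial, ?_, ?_⟩
    · field_simp
      ring
    · field_simp
  · intro u b hb
    have h3 := rc_sig h (rc_sig h hb)
    have e1 : n4 f (t8 (P7f_sg o u)) =
        ((n4 f (t8 u)).1, o * (o * (n4 f (t8 u)).2.1), o ^ 2 * (o ^ 2 * (n4 f (t8 u)).2.2)) := by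
      simp only [n4, t8, P7f_sg, Prod.mk.injEq]
      refine ⟨trivial, by ring, ?_⟩
      field_simp
      linear_combination (-u.2.1) * o4
    have e2 : o ^ 2 * b = o * (o * b) := by ring
    change Rc v (n4 f (t8 (P7f_sg o u))) (o ^ 2 * b)
    rw [e1, e2]
    exact h3
  · rintro u ⟨k1, k2, k3⟩
    refine ⟨k1, ?_, ?_⟩
    · change v (2 * (4 * (o ^ 2 * u.2.2))) ≤ 1
      have e1 : 2 * (4 * (o ^ 2 * u.2.2)) = o ^ 2 * (2 * (4 * u.2.2)) := by ring
      rw [e1, map_mul, map_pow, vo, one_pow, one_mul]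
      exact k2
    · change v (2 * (o * u.2.1) / f) ≤ 1
      have e1 : 2 * (o * u.2.1) / f = o * (2 * u.2.1 / f) := by ring
      rw [e1, map_mul, vo, one_mul]
      exact k3
  · intro u hu hs hr
    exact convB32 h hf hu hs hr

end

end JT
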