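import Pool.Agent.JT.P6

/-!
# [JT-P8] the local condition at 2 for `d = 2 f`, `f` a unit

The classes of points are those with `u g² ≡ (1 + a³ d, a, 0) mod 4`, `a ∈ {0, 1, o, o²}`, `g` a unit.

PROOF. `betaC` [P8a]: `a³ = 1`, `cube_of`: `X³ = 1 - d`, `X ≡ 1 + d mod 4` (`1 - d = 1 + 2 z`, `z = -f`; `X ≡ 1 - 2 f ≡ 1 + 2 f mod 4`). `β = (X, a, 0)`: the point `(X/a, 1)`, `LocA` (`(X, a, 0)(X/a, 1, 0) = a⁻¹ β²`, `a⁻¹ = a²`), norm `X³ + d = 1`; `β ≡ (1 + d, a, 0) mod 4`, `Rc β a` (`X ≡ 1 mod 2`).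
`convC` [P8b]: `a = 0`: `u g² ≡ 1 mod 4`: `ker4r`, so `SqA u`. `a³ = 1`: `a³ d = d`, `u g² ≡ β mod 4`, `u g² β ≡ β² mod 4`, with the inverse `β'` of `β`: `u (g β')² β ≡ 1 mod 4`: `ker4r`: `SqA (u β)`, `LocA (u β)`, `locA_of_mul`.
`dirC` [P8c]: `u = k²`: `k` integral (`in_of_nmR`), a unit, `g = k⁻¹`, `a = 0`. `u (x + T) = k²`, `y² = x³ + d`: `1 < v x`: `x = x'/4^m`, `x' = f'²` (as `dir_big`, P4), `u (f'² + 4^m T) = (2^m k)²`, `k' = 2^m k` is integral (`in_of_nmR`) and a unit; `g = f' k'⁻¹`: `u g² = f'² (f'² + 4^m T)⁻¹ ≡ 1 mod 4`, `a = 0`.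
`v x = 1`: `a x ≡ 1 mod 2`, `a³ = 1`, `X = a x = 1 + 2 z`, `X³ + d = y²`, `≡ 1 + 2 z + 2 f mod 4` and `≡ 1 mod 2`, so (`sq_one4`) `z ≡ f mod 2`: `X + a T ≡ (1 + d, a, 0) mod 4`. `u (X + a T) = (a² k)²` =: `k'²` (`x + T = a² (X + a T)`), `g = (X + a T) k'⁻¹`: `u g² = X + a T`. `v x < 1`: `x = 2 x₁`: `y² = 8 x₁³ + 2 f` has odd valuation 1: impossible.
`adjC` [P8d]: `exists_unR` for `α`, `β`: units `u`, `w`. `Rc u a`, `Rc w b`, `a, b ∈ {0, 1, o, o²}`. `β_a` (`betaC`, or `1` if `a = 0`): `u β_a` has `Rc (2 a) ≡ Rc 0`: `kc_exists`: `Kc (u β_a) k`; `w β_b`: `Kc l`. If `k = 0`: `SqA (u β_a)`, `LocA u`. `l ≠ 0` (otherwise `LocA w`). Choose `i` with `k = o^(2 i) l` (both in `{1, o, o²}`): `u β_a σ^i(w β_b)` has `Kc (k + o^(2 i) l) ≡ 0` (`kc_sig`, `kc_mul`):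
`SqA`; `LocA (β_a σ^i(β_b))` by `locA_mul`, `locA_sig`; so `LocA (u σ^i(w))` by `locA_of_mul`.
-/

set_option autoImplicit false

open scoped Classical

namespace JT

/-! auxiliary lemmas of row P8d: the formal part of the proof of `AdjP` -/

/-- the automorphism `T ↦ o T` -/
def P8d_sg {C : Type} [Field C] (o : C) (u : C × C × C) : C × C × C := (u.1, o * u.2.1, o ^ 2 * u.2.2)

theorem P8d_sg_mu {C : Type} [Field C] {o : C} (ho : o ^ 3 = 1) (D : C) (u w : C × C × C) :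
    P8d_sg o (mu D u w) = mu D (P8d_sg o u) (P8d_sg o w) := by
  obtain ⟨a, b, c⟩ := u
  obtain ⟨a', b', c'⟩ := w
  simp only [P8d_sg, mu, Prod.mk.injEq]
  refine ⟨?_, ?_, ?_⟩
  · linear_combination (-D * (b * c' + c * b')) * ho
  · linear_combination (-D * c * c' * o) * ho
  · ring

theorem P8d_sg_nm {C : Type} [Field C] {o : C} (ho : o ^ 3 = 1) (D : C) (u : C × C × C) :
    nm D (P8d_sg o u) = nm D u := by
  obtain ⟨a, b, c⟩ := u
  simp only [P8d_sg, nm]
  linear_combination (D * b ^ 3 + D ^ 2 * c ^ 3 * (o ^ 3 + 1) - 3 * D * a * b * c) * ho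

theorem P8d_sq {C : Type} [Field C] (D : C) (a b g k : C × C × C) :
    mu D (mu D a (mu D g g)) (mu D b (mu D k k)) = mu D (mu D a b) (mu D (mu D g k) (mu D g k)) := by
  simp only [mu, Prod.mk.injEq]
  refine ⟨?_, ?_, ?_⟩ <;> ring

theorem P8d_adj {C : Type} [Field C] {o D ζ : C} (ho : o ^ 3 = 1) (hζ : ζ = o ∨ ζ = o ^ 2)
    {v : Valuation C (WithZero (Multiplicative ℤ))} (Q : C × C × C → C → Prop)
    (hE : ∀ α : C × C × C, nm D α ≠ 0 → IsSquare (nm D α) →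
      (∀ ρ : C, ρ ^ 3 = D → ∃ γ : WithZero (Multiplicative ℤ), v (ev α ρ) = γ ^ 2) →
      ∃ (g : C × C × C) (a : C), nm D g ≠ 0 ∧ (a = 0 ∨ a = 1 ∨ a = o ∨ a = o ^ 2) ∧ Q (mu D α (mu D g g)) a)
    (hM : ∀ (u w : C × C × C) (a b : C), Q u a → Q w b → Q (mu D u w) (a + b))
    (hS : ∀ (w : C × C × C) (b : C), Q w b → Q (P8d_sg o w) (ζ * b))
    (hZ : ∀ u : C × C × C, nm D u ≠ 0 → IsSquare (nm D u) → Q u 0 → LocA D u)
    (h2 : ∀ (u : C × C × C) (a : C), (a = 1 ∨ a = o ∨ a = o ^ 2) → Q u (a + a) → Q u 0) : AdjP v o D := by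
  intro α β hα hα2 hβ hβ2 heα heβ hn
  obtain ⟨g, a, hg, ha, hQa⟩ := hE α hα hα2 heα
  obtain ⟨k, b, hk, hb, hQb⟩ := hE β hβ hβ2 heβ
  have hsq : ∀ x : C × C × C, IsSquare (nm D (mu D x x)) := fun x => ⟨nm D x, nm_mu D x x⟩
  have hne : ∀ x y : C × C × C, nm D x ≠ 0 → nm D y ≠ 0 → nm D (mu D x (mu D y y)) ≠ 0 := fun x y hx hy => by
    rw [nm_mu, nm_mu]
    exact mul_ne_zero hx (mul_ne_zero hy hy)
  have hsq2 : ∀ x y : C × C × C, IsSquare (nm D x) → IsSquare (nm D (mu D x (mu D y y))) := fun x y hx => by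
    rw [nm_mu]
    exact hx.mul (hsq y)
  have hb' : b = 1 ∨ b = o ∨ b = o ^ 2 := by
    rcases hb with rfl | hb
    · exact absurd (locA_of_sq_mul hk (hZ _ (hne β k hβ hk) (hsq2 β k hβ2) hQb)) hn
    · exact hb
  rcases ha with rfl | ha
  · exact Or.inl (locA_of_sq_mul hg (hZ _ (hne α g hα hg) (hsq2 α g hα2) hQa))
  right
  -- the final step for `σ ^ i β`
  have key : ∀ (β' k' : C × C × C) (b' : C), nm D β' = nm D β → nm D k' = nm D k →
      Q (mu D β' (mu D k' k')) b' → b' = a → LocA D (mu D α β') := by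
    intro β' k' b' e1 e2 hQ hba
    subst hba
    have h3 := hM _ _ _ _ hQa hQ
    have h4 := h2 _ _ ha h3
    rw [P8d_sq] at h4
    have hβ' : nm D β' ≠ 0 := by rw [e1]; exact hβ
    have hk' : nm D k' ≠ 0 := by rw [e2]; exact hk
    have hgk : nm D (mu D g k') ≠ 0 := by rw [nm_mu]; exact mul_ne_zero hg hk'
    refine locA_of_sq_mul hgk (hZ _ (hne _ _ ?_ hgk) (hsq2 _ _ ?_) h4)
    · rw [nm_mu]
      exact mul_ne_zero hα hβ'
    · rw [nm_mu, e1]
      exact hα2.mul hβ2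
  have hQ1 := hS _ _ hQb
  rw [P8d_sg_mu ho, P8d_sg_mu ho] at hQ1
  have hQ2 := hS _ _ hQ1
  rw [P8d_sg_mu ho, P8d_sg_mu ho] at hQ2
  have n1 : ∀ x : C × C × C, nm D (P8d_sg o x) = nm D x := fun x => P8d_sg_nm ho D x
  have n2 : ∀ x : C × C × C, nm D (P8d_sg o (P8d_sg o x)) = nm D x := fun x => by rw [n1, n1]
  have c0 := key β k b rfl rfl hQb
  have c1 := key (P8d_sg o β) (P8d_sg o k) (ζ * b) (n1 _) (n1 _) hQ1
  have c2 := key (P8d_sg o (P8d_sg o β)) (P8d_sg o (P8d_sg o k)) (ζ * (ζ * b)) (n2 _) (n2 _) hQ2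
  have o4 : o ^ 4 = o := by linear_combination o * ho
  have hfin : b = a ∨ ζ * b = a ∨ ζ * (ζ * b) = a := by
    rcases hζ with k0 | k0 <;> rw [k0]
    · rcases ha with k1 | k1 | k1 <;> rcases hb' with k2 | k2 | k2 <;> rw [k1, k2]
      · left; rfl
      · right; right; linear_combination ho
      · right; left; linear_combination ho
      · right; left; ring
      · left; rfl
      · right; right; linear_combination o * ho
      · right; right; ring
      · right; left; ring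
      · left; rfl
    · rcases ha with k1 | k1 | k1 <;> rcases hb' with k2 | k2 | k2 <;> rw [k1, k2]
      · left; rfl
      · right; left; linear_combination ho
      · right; right; linear_combination (o ^ 3 + 1) * ho
      · right; right; linear_combination o * ho
      · left; rfl
      · right; left; linear_combination o * ho
      · right; left; ring
      · right; right; linear_combination (o ^ 2) * ho
      · left; rfl
  rcases hfin with h5 | h5 | h5
  · exact Or.inl (c0 h5)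
  · exact Or.inr (Or.inl (c1 h5))
  · exact Or.inr (Or.inr (c2 h5))

section
variable {C : Type} [Field C] [CharZero C] {v : Valuation C (WithZero (Multiplicative ℤ))} {o : C} (h : Lc2 v o) {d : C} (hd : v d = v 2)
include h hd

/-- [P8a] -/
theorem betaC {a : C} (ha : a = 1 ∨ a = o ∨ a = o ^ 2) : ∃ X : C, v (X - (1 + d)) ≤ v 2 ^ 2 ∧ LocA d (X, a, 0) ∧
    nm d (X, a, 0) = 1 ∧ Un v d (X, a, 0) ∧ Rc v (X, a, 0) a := by
  obtain ⟨h21, h20⟩ := two_lt h
  obtain ⟨ho1, -, -⟩ := v_o h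
  have hho := h.ho
  have ho3 : o ^ 3 = 1 := by linear_combination (o - 1) * hho
  have ha3 : a ^ 3 = 1 := by
    rcases ha with rfl | rfl | rfl
    · ring
    · exact ho3
    · linear_combination (o ^ 3 + 1) * ho3
  have hva : v a = 1 := by
    rcases ha with rfl | rfl | rfl
    · exact map_one v
    · exact ho1
    · rw [map_pow, ho1, one_pow]
  have h2n : (2 : C) ≠ 0 := two_ne_zero
  obtain ⟨X, hX3, hX⟩ := cube_of h (x := 1 - d) (z := -d / 2) (by
    rw [map_div₀, Valuation.map_neg, hd, div_self h20]) (by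
    have e : (1 - d - (1 + 2 * (-d / 2)) : C) = 0 := by
      field_simp
      ring
    rw [e, map_zero]
    exact bot_le)
  have hX' : v (X - (1 + d)) ≤ v 2 ^ 2 := by
    have e : X - (1 + d) = (X - (1 + 2 * (-d / 2))) - 2 * d := by
      field_simp
      ring
    rw [e]
    refine (Valuation.map_sub _ _ _).trans (max_le hX ?_)
    rw [map_mul, hd, sq]
  have hX1 : v (X - 1) ≤ v 2 := by
    have e : X - 1 = (X - (1 + d)) + d := by ring
    rw [e]
    refine (Valuation.map_add _ _ _).trans (max_le (hX'.trans ?_) hd.le)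
    rw [sq]
    exact mul_le_of_le_one_left' h21.le
  have hXi : v X ≤ 1 := by
    have e : X = (X - 1) + 1 := by ring
    rw [e]
    exact (Valuation.map_add _ _ _).trans (max_le (hX1.trans h21.le) (map_one v).le)
  have ha0 : a ≠ 0 := by
    rintro rfl
    simp at ha3
  have hnm : nm d (X, a, 0) = 1 := by
    simp only [nm]
    linear_combination hX3 + d * ha3
  refine ⟨X, hX', Or.inr ⟨a ^ 2 * X, 1, ?_, (a * X, a ^ 2, 0), ?_⟩, hnm, ⟨⟨hXi, hva.le, ?_⟩, ?_⟩, ?_⟩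
  · linear_combination -hX3 - (a ^ 3 + 1) * X ^ 3 * ha3
  · simp only [mu, Prod.mk.injEq]
    refine ⟨?_, ?_, ?_⟩
    · ring
    · linear_combination -X * ha3
    · linear_combination -a * ha3
  · simp
  · rw [hnm, map_one]
  · show v (a - a * X) ≤ v 2
    have e : a - a * X = -(a * (X - 1)) := by ring
    rw [e, Valuation.map_neg, map_mul, hva, one_mul]
    exact hX1

/-- [P8b] -/
theorem convC {u g : C × C × C} {a : C} (hu : Un v d u) (hs : IsSquare (nm d u)) (hg : Un v d g)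
    (ha : a = 0 ∨ a = 1 ∨ a = o ∨ a = o ^ 2) (hc : Cg v 2 (mu d u (mu d g g)) (1 + a ^ 3 * d, a, 0)) : LocA d u := by
  obtain ⟨h21, h20⟩ := two_lt h
  have hd1 : v d ≤ 1 := hd.le.trans h21.le
  have hd0 : d ≠ 0 := by
    rintro rfl
    rw [map_zero] at hd
    exact h20 hd.symm
  have hn := un_ne hu
  have hgn := un_ne hg
  rcases ha with rfl | ha
  · have e : ((1 + 0 ^ 3 * d, 0, 0) : C × C × C) = (1, 0, 0) := by
      simp
    rw [e] at hc
    refine Or.inl (sqA_of_sq_mul hgn (ker4r h hd hc ?_))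
    rw [nm_mu, nm_mu]
    exact hs.mul (IsSquare.mul_self _)
  · obtain ⟨X, hX, hL, hnm, hU, -⟩ := betaC h hd ha
    have hho := h.ho
    have ho3 : o ^ 3 = 1 := by linear_combination (o - 1) * hho
    have ha3 : a ^ 3 = 1 := by
      rcases ha with rfl | rfl | rfl
      · ring
      · exact ho3
      · linear_combination (o ^ 3 + 1) * ho3
    have hcb : Cg v 2 (mu d u (mu d g g)) (X, a, 0) := by
      refine cg_trans hc ⟨?_, ?_, ?_⟩
      · show v (1 + a ^ 3 * d - X) ≤ v 2 ^ 2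
        rw [ha3, one_mul, Valuation.map_sub_swap]
        exact hX
      · simp
      · simp
    obtain ⟨w, hw, hbw⟩ := un_inv hd1 hU
    have hug : Un v d (mu d u (mu d g g)) := un_mu hd1 hu (un_mu hd1 hg hg)
    have h3 := cg_mu h hd1 hcb (cg_refl (v := v) 2 ((X, a, 0) : C × C × C)) hug.1 hU.1
    have h4 := cg_mu h hd1 h3 (cg_refl (v := v) 2 (mu d w w)) (un_mu hd1 hug hU).1 (un_mu hd1 hw hw).1
    have e1 : mu d (mu d (X, a, 0) (X, a, 0)) (mu d w w) = (1, 0, 0) := by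
      have : mu d (mu d (X, a, 0) (X, a, 0)) (mu d w w) = mu d (mu d (X, a, 0) w) (mu d (X, a, 0) w) := by
        rw [mu_assoc, mu_assoc, ← mu_assoc d (X, a, 0) w w, mu_comm d (mu d (X, a, 0) w) w]
      rw [this, hbw]
      simp [mu]
    have e2 : mu d (mu d (mu d u (mu d g g)) (X, a, 0)) (mu d w w) = mu d (mu d u (X, a, 0)) (mu d (mu d g w) (mu d g w)) := by
      simp only [mu, Prod.mk.injEq]
      refine ⟨?_, ?_, ?_⟩ <;> ring
    rw [e1, e2] at h4
    have hgw : nm d (mu d g w) ≠ 0 := by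
      rw [nm_mu]
      exact mul_ne_zero hgn (un_ne hw)
    have hsu : IsSquare (nm d (X, a, 0)) := by
      rw [hnm]
      exact ⟨1, by ring⟩
    have h5 : SqA d (mu d u (X, a, 0)) := by
      refine sqA_of_sq_mul hgw (ker4r h hd h4 ?_)
      rw [nm_mu, nm_mu, nm_mu d (mu d g w)]
      exact (hs.mul hsu).mul (IsSquare.mul_self _)
    exact locA_of_mul hd0 hho hn hs (un_ne hU) hsu (Or.inl h5) hL

/-- [P8c] -/
theorem dirC {u : C × C × C} (hu : Un v d u) (hs : IsSquare (nm d u)) (hl : LocA d u) :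
    ∃ (g : C × C × C) (a : C), Un v d g ∧ (a = 0 ∨ a = 1 ∨ a = o ∨ a = o ^ 2) ∧
      Cg v 2 (mu d u (mu d g g)) (1 + a ^ 3 * d, a, 0) := by
  obtain ⟨h2lt, h20⟩ := two_lt h
  have h2le : v (2 : C) ≤ 1 := h2lt.le
  have hd1 : v d ≤ 1 := by rw [hd]; exact h2le
  have h2C : (2 : C) ≠ 0 := two_ne_zero
  -- a triple `k` with `u w = k²`, `w` a unit, is a unit
  have hk : ∀ w k : C × C × C, Un v d w → mu d u w = mu d k k → Un v d k := by
    intro w k hw hk
    have h3 := congrArg (fun z => v (nm d z)) hk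
    simp only [nm_mu, map_mul, hu.2, hw.2, one_mul] at h3
    have h4 : v (nm d k) ^ 2 = 1 := by rw [pow_two]; exact h3.symm
    have h5 : v (nm d k) = 1 := (pow_eq_one_iff.1 h4).resolve_right (by norm_num)
    exact ⟨in_of_nmR h hd h5.le, h5⟩
  rcases hl with ⟨k, hsq⟩ | ⟨x, y, hy, k, hg⟩
  · have hkU : Un v d k := hk (1, 0, 0) k un_one (by rw [(mu_one _).1]; exact hsq)
    obtain ⟨g, hg, hkg⟩ := un_inv hd1 hkU
    refine ⟨g, 0, hg, Or.inl rfl, ?_⟩
    have e1 : mu d u (mu d g g) = (1, 0, 0) := by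
      have e2 : mu d (mu d k k) (mu d g g) = mu d (mu d k g) (mu d k g) := by
        simp only [mu, Prod.mk.injEq]
        refine ⟨?_, ?_, ?_⟩ <;> ring
      rw [hsq, e2, hkg, (mu_one _).1]
    have e3 : ((1 + 0 ^ 3 * d, 0, 0) : C × C × C) = (1, 0, 0) := by
      simp
    rw [e1, e3]
    exact cg_refl _ _
  rcases lt_trichotomy (v x) 1 with hx | hx | hx
  · -- `v x < 1`: impossible
    exfalso
    have hx2 : v x ≤ v 2 := (lt_iff2 h x).1 hx
    have h6 : v y ^ 2 = v 2 := by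
      rw [← map_pow, hy, Valuation.map_add_eq_of_lt_right, hd]
      rw [map_pow, hd]
      calc v x ^ 3 ≤ v 2 ^ 3 := pow_le_pow_left' hx2 3
        _ < v 2 := by
          have h7 : v (2 : C) ^ 3 = v 2 * v 2 ^ 2 := by rw [← pow_succ']
          rw [h7]
          exact mul_lt_of_lt_one_right (zero_lt_iff.2 h20) (pow_lt_one₀ zero_le h2lt (by norm_num))
    have hy0 : v y ≠ 0 := by
      intro h0
      rw [h0] at h6
      exact h20 (by rw [← h6]; norm_num)
    obtain ⟨n, hn⟩ : ∃ n : ℤ, v y = WithZero.exp n := ⟨WithZero.log (v y), (WithZero.exp_log hy0).symm⟩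
    rw [hn, h.two, ← WithZero.exp_nsmul] at h6
    have h7 := WithZero.exp_injective h6
    simp only [nsmul_eq_mul] at h7
    omega
  · -- `v x = 1`
    obtain ⟨ζ, hζ3, hζ, hxζ⟩ := exists_zeta h hx
    have ho := h.ho
    have ho3 : o ^ 3 = 1 := by linear_combination (o - 1) * ho
    have vζ : v ζ = 1 := by
      have h3 : v ζ ^ 3 = 1 := by rw [← map_pow, hζ3, map_one]
      exact (pow_eq_one_iff.1 h3).resolve_right (by norm_num)
    have haa : ζ ^ 2 = 1 ∨ ζ ^ 2 = o ∨ ζ ^ 2 = o ^ 2 := by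
      rcases hζ with k0 | k0 | k0
      · left; rw [k0]; ring
      · right; right; rw [k0]
      · right; left; rw [k0]; linear_combination o * ho3
    have hX2 : v (ζ ^ 2 * x - 1) ≤ v 2 := by
      have e1 : ζ ^ 2 * x - 1 = ζ ^ 2 * (x - ζ) := by linear_combination hζ3
      rw [e1, map_mul, map_pow, vζ, one_pow, one_mul]
      exact hxζ
    obtain ⟨z, hz⟩ : ∃ z, ζ ^ 2 * x = 1 + 2 * z := ⟨(ζ ^ 2 * x - 1) / 2, by field_simp; ring⟩
    have vz : v z ≤ 1 := by
      have e1 : ζ ^ 2 * x - 1 = 2 * z := by rw [hz]; ring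
      rw [e1, map_mul] at hX2
      by_contra hcon
      push Not at hcon
      have : v 2 * 1 < v 2 * v z := mul_lt_mul_of_pos_left hcon (zero_lt_iff.2 h20)
      rw [mul_one] at this
      exact absurd hX2 (not_le.2 this)
    have hX3 : (ζ ^ 2 * x) ^ 3 + d = y ^ 2 := by
      have : (ζ ^ 2 * x) ^ 3 = (ζ ^ 3) ^ 2 * x ^ 3 := by ring
      rw [this, hζ3, hy]
      ring
    have hyz : y ^ 2 - 1 = (2 * z + d) + 4 * (z + 3 * z ^ 2 + 2 * z ^ 3) := by
      rw [← hX3, hz]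
      ring
    have v4 : v (4 : C) = v 2 ^ 2 := by
      rw [← map_pow]; norm_num
    have hv4 : ∀ t : C, v t ≤ 1 → v (4 * t) ≤ v 2 ^ 2 := by
      intro t ht
      rw [map_mul, v4]
      exact (mul_le_mul' le_rfl ht).trans (mul_one _).le
    have vint : ∀ n : ℕ, v (n : C) ≤ 1 := by
      intro n
      induction n with
      | zero => rw [Nat.cast_zero, map_zero]; exact zero_le_one
      | succ n ih => rw [Nat.cast_succ]; exact (v.map_add _ _).trans (max_le ih (by rw [map_one]))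
    have hzz : v (z + 3 * z ^ 2 + 2 * z ^ 3) ≤ 1 := by
      have v3 : v (3 : C) ≤ 1 := by exact_mod_cast vint 3
      refine (v.map_add _ _).trans (max_le ((v.map_add _ _).trans (max_le vz ?_)) ?_)
      · rw [map_mul, map_pow]
        exact mul_le_one' v3 (pow_le_one' vz 2)
      · rw [map_mul, map_pow]
        exact mul_le_one' h2le (pow_le_one' vz 3)
    have h22 : v (2 : C) ^ 2 ≤ v 2 := pow_le_of_le_one zero_le h2le (by norm_num)
    have hy2 : v (y ^ 2 - 1) ≤ v 2 := by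
      rw [hyz]
      refine (v.map_add _ _).trans (max_le ((v.map_add _ _).trans (max_le ?_ hd.le)) ((hv4 _ hzz).trans h22))
      rw [map_mul]
      exact (mul_le_mul' le_rfl vz).trans (mul_one _).le
    have hy4 := sq_one4 h ⟨y, by ring⟩ hy2
    have h2zd : v (2 * z + d) ≤ v 2 ^ 2 := by
      have e1 : 2 * z + d = (y ^ 2 - 1) - 4 * (z + 3 * z ^ 2 + 2 * z ^ 3) := by rw [hyz]; ring
      rw [e1]
      exact (v.map_sub _ _).trans (max_le hy4 (hv4 _ hzz))
    have vy2 : v (y ^ 2) = 1 := by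
      have e1 : y ^ 2 = 1 + (y ^ 2 - 1) := by ring
      rw [e1, Valuation.map_add_eq_of_lt_left, map_one]
      rw [map_one]
      exact lt_of_le_of_lt hy2 h2lt
    have hw : Un v d (1 + 2 * z, ζ ^ 2, 0) := by
      refine ⟨⟨?_, ?_, by simp⟩, ?_⟩
      · change v (1 + 2 * z) ≤ 1
        refine (v.map_add _ _).trans (max_le (by rw [map_one]) ?_)
        rw [map_mul]
        exact mul_le_one' h2le vz
      · change v (ζ ^ 2) ≤ 1
        rw [map_pow, vζ, one_pow]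
      · have e1 : nm d (1 + 2 * z, ζ ^ 2, 0) = y ^ 2 := by
          rw [← hX3, hz]
          simp only [nm]
          linear_combination d * (ζ ^ 3 + 1) * hζ3
        rw [e1, vy2]
    have hmu : mu d u (1 + 2 * z, ζ ^ 2, 0) = mu d (ζ * k.1, ζ * k.2.1, ζ * k.2.2) (ζ * k.1, ζ * k.2.1, ζ * k.2.2) := by
      have e1 : mu d u (1 + 2 * z, ζ ^ 2, 0) = (ζ ^ 2 * (mu d u (x, 1, 0)).1,
          ζ ^ 2 * (mu d u (x, 1, 0)).2.1, ζ ^ 2 * (mu d u (x, 1, 0)).2.2) := by
        rw [← hz]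
        simp only [mu, Prod.mk.injEq]
        refine ⟨?_, ?_, ?_⟩ <;> ring
      rw [e1, hg]
      simp only [mu, Prod.mk.injEq]
      refine ⟨?_, ?_, ?_⟩ <;> ring
    have hkU := hk _ _ hw hmu
    generalize (ζ * k.1, ζ * k.2.1, ζ * k.2.2) = k' at hmu hkU
    obtain ⟨l, hl, hkl⟩ := un_inv hd1 hkU
    refine ⟨mu d (1 + 2 * z, ζ ^ 2, 0) l, ζ ^ 2, un_mu hd1 hw hl, Or.inr haa, ?_⟩
    have e1 : mu d u (mu d (mu d (1 + 2 * z, ζ ^ 2, 0) l) (mu d (1 + 2 * z, ζ ^ 2, 0) l)) = (1 + 2 * z, ζ ^ 2, 0) := by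
      have e2 : ∀ a b c : C × C × C, mu d a (mu d (mu d b c) (mu d b c)) = mu d (mu d (mu d a b) (mu d c c)) b := by
        intro a b c
        simp only [mu, Prod.mk.injEq]
        refine ⟨?_, ?_, ?_⟩ <;> ring
      have e3 : mu d (mu d k' k') (mu d l l) = mu d (mu d k' l) (mu d k' l) := by
        simp only [mu, Prod.mk.injEq]
        refine ⟨?_, ?_, ?_⟩ <;> ring
      rw [e2, hmu, e3, hkl, (mu_one _).1, (mu_one _).2]
    rw [e1]
    refine ⟨?_, by simp, by simp⟩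
    change v (1 + 2 * z - (1 + (ζ ^ 2) ^ 3 * d)) ≤ v 2 ^ 2
    have e4 : 1 + 2 * z - (1 + (ζ ^ 2) ^ 3 * d) = (2 * z + d) - 2 * d := by
      have e5 : (ζ ^ 2) ^ 3 = 1 := by rw [← pow_mul, mul_comm 2 3, pow_mul, hζ3, one_pow]
      rw [e5]
      ring
    rw [e4]
    refine (v.map_sub _ _).trans (max_le h2zd ?_)
    rw [map_mul, hd, ← pow_two]
  · -- `1 < v x`
    have hdlt : v d < 1 := by rw [hd]; exact h2lt
    have vy2 : v y ^ 2 = v x ^ 3 := by
      rw [← map_pow, hy, Valuation.map_add_eq_of_lt_left, map_pow]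
      rw [map_pow]
      exact lt_trans hdlt (one_lt_pow₀ hx (by norm_num))
    have hx0 : v x ≠ 0 := (lt_trans zero_lt_one hx).ne'
    have hy0 : v y ≠ 0 := by
      intro h0
      rw [h0] at vy2
      exact (pow_ne_zero 3 hx0) (by rw [← vy2]; norm_num)
    obtain ⟨n, hn⟩ : ∃ n : ℤ, v x = WithZero.exp n := ⟨WithZero.log (v x), (WithZero.exp_log hx0).symm⟩
    obtain ⟨m, hm⟩ : ∃ m : ℤ, v y = WithZero.exp m := ⟨WithZero.log (v y), (WithZero.exp_log hy0).symm⟩
    have hn0 : 0 < n := by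
      rw [hn, ← WithZero.exp_zero, WithZero.exp_lt_exp] at hx
      exact hx
    have hmn : 2 * m = 3 * n := by
      rw [hn, hm, ← WithZero.exp_nsmul, ← WithZero.exp_nsmul] at vy2
      have h7 := WithZero.exp_injective vy2
      simp only [nsmul_eq_mul] at h7
      exact_mod_cast h7
    obtain ⟨j, hj⟩ : ∃ j : ℕ, n = 2 * j := ⟨(n / 2).toNat, by omega⟩
    have hj0 : j ≠ 0 := by omega
    have hmj : m = 3 * j := by omega
    have v2k : ∀ i : ℕ, v ((2 : C) ^ i) = WithZero.exp (-(i : ℤ)) := by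
      intro i
      rw [map_pow, h.two, ← WithZero.exp_nsmul]
      congr 1
      simp
    have vx' : v (2 ^ (2 * j) * x) = 1 := by
      rw [map_mul, v2k, hn, ← WithZero.exp_add, ← WithZero.exp_zero]
      congr 1
      push_cast
      omega
    have vy' : v (2 ^ (3 * j) * y) = 1 := by
      rw [map_mul, v2k, hm, ← WithZero.exp_add, ← WithZero.exp_zero]
      congr 1
      push_cast
      omega
    have hx'0 : 2 ^ (2 * j) * x ≠ 0 := by
      intro h0; rw [h0, map_zero] at vx'; exact zero_ne_one vx'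
    have hy'0 : 2 ^ (3 * j) * y ≠ 0 := by
      intro h0; rw [h0, map_zero] at vy'; exact zero_ne_one vy'
    have hsqx : IsSquare (2 ^ (2 * j) * x) := by
      have h3 : IsSquare (1 - 2 ^ (6 * j) * d / (2 ^ (3 * j) * y) ^ 2) := by
        apply sq_of_8 h
        have e1 : (1 : C) - 2 ^ (6 * j) * d / (2 ^ (3 * j) * y) ^ 2 - 1 = -(2 ^ (6 * j) * d / (2 ^ (3 * j) * y) ^ 2) := by
          ring
        rw [e1, Valuation.map_neg, map_div₀, map_pow v (2 ^ (3 * j) * y) 2, vy', one_pow, div_one, map_mul, map_pow]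
        exact (mul_le_mul' (pow_le_pow_right_of_le_one' h2le (by omega)) hd1).trans (mul_one _).le
      have e2 : 2 ^ (2 * j) * x = (2 ^ (3 * j) * y / (2 ^ (2 * j) * x)) * (2 ^ (3 * j) * y / (2 ^ (2 * j) * x)) *
          (1 - 2 ^ (6 * j) * d / (2 ^ (3 * j) * y) ^ 2) := by
        have e3 : (2 ^ (2 * j) * x) ^ 3 = (2 ^ (3 * j) * y) ^ 2 - 2 ^ (6 * j) * d := by
          rw [mul_pow, mul_pow, hy, ← pow_mul, ← pow_mul]
          ring
        generalize 2 ^ (2 * j) * x = X at e3 hx'0 ⊢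
        generalize 2 ^ (3 * j) * y = Y at e3 hy'0 ⊢
        field_simp
        linear_combination e3
      rw [e2]
      exact (IsSquare.mul_self _).mul h3
    obtain ⟨f, hf⟩ := hsqx
    have vf : v f = 1 := by
      have h3 : v f ^ 2 = 1 := by rw [← map_pow, pow_two, ← hf, vx']
      exact (pow_eq_one_iff.1 h3).resolve_right (by norm_num)
    have hf0 : f ≠ 0 := by
      rintro rfl; rw [map_zero] at vf; exact zero_ne_one vf
    have v2k1 : v ((2 : C) ^ (2 * j)) ≤ v 2 ^ 2 := by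
      rw [map_pow]
      exact pow_le_pow_right_of_le_one' h2le (by omega)
    have v2k1' : v ((2 : C) ^ (2 * j)) < 1 :=
      lt_of_le_of_lt v2k1 (pow_lt_one₀ zero_le h2lt (by norm_num))
    have hw : Un v d (f * f, 2 ^ (2 * j), 0) := by
      refine ⟨⟨?_, v2k1'.le, by simp⟩, ?_⟩
      · change v (f * f) ≤ 1
        rw [map_mul, vf, mul_one]
      · have e1 : nm d (f * f, 2 ^ (2 * j), 0) = (f * f) ^ 3 + d * (2 ^ (2 * j)) ^ 3 := by
          simp only [nm]
          ring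
        rw [e1, Valuation.map_add_eq_of_lt_left, map_pow, map_mul, vf, mul_one, one_pow]
        have hff : v ((f * f) ^ 3) = 1 := by rw [map_pow, map_mul, vf, mul_one, one_pow]
        rw [hff, map_mul, map_pow v (2 ^ (2 * j)) 3]
        exact lt_of_le_of_lt (mul_le_mul' hd1 le_rfl) (by rw [one_mul]; exact pow_lt_one₀ zero_le v2k1' (by norm_num))
    have hmu : mu d u (f * f, 2 ^ (2 * j), 0) = mu d (2 ^ j * k.1, 2 ^ j * k.2.1, 2 ^ j * k.2.2) (2 ^ j * k.1, 2 ^ j * k.2.1, 2 ^ j * k.2.2) := by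
      have e1 : mu d u (f * f, 2 ^ (2 * j), 0) = (2 ^ (2 * j) * (mu d u (x, 1, 0)).1,
          2 ^ (2 * j) * (mu d u (x, 1, 0)).2.1, 2 ^ (2 * j) * (mu d u (x, 1, 0)).2.2) := by
        rw [← hf]
        simp only [mu, Prod.mk.injEq]
        refine ⟨?_, ?_, ?_⟩ <;> ring
      rw [e1, hg]
      simp only [mu, Prod.mk.injEq]
      refine ⟨?_, ?_, ?_⟩ <;> ring
    have hkU := hk _ _ hw hmu
    generalize (2 ^ j * k.1, 2 ^ j * k.2.1, 2 ^ j * k.2.2) = k' at hmu hkU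
    obtain ⟨l, hl, hkl⟩ := un_inv hd1 hkU
    have hfU : Un v d (f, 0, 0) := by
      refine ⟨⟨vf.le, by simp, by simp⟩, ?_⟩
      have e1 : nm d (f, 0, 0) = f ^ 3 := by
        simp only [nm]
        ring
      rw [e1, map_pow, vf, one_pow]
    refine ⟨mu d (f, 0, 0) l, 0, un_mu hd1 hfU hl, Or.inl rfl, ?_⟩
    have e0 : ((1 + 0 ^ 3 * d, 0, 0) : C × C × C) = (1, 0, 0) := by simp
    rw [e0]
    refine cg_cancel h hd1 hw (in_mu hd1 hu.1 (un_mu hd1 (un_mu hd1 hfU hl) (un_mu hd1 hfU hl)).1) (un_one (v := v) (d := d)).1 ?_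
    have e1 : mu d (mu d u (mu d (mu d (f, 0, 0) l) (mu d (f, 0, 0) l))) (f * f, 2 ^ (2 * j), 0) = (f * f, 0, 0) := by
      have e2 : ∀ a b c w : C × C × C, mu d (mu d a (mu d (mu d b c) (mu d b c))) w =
          mu d (mu d (mu d a w) (mu d c c)) (mu d b b) := by
        intro a b c w
        simp only [mu, Prod.mk.injEq]
        refine ⟨?_, ?_, ?_⟩ <;> ring
      have e3 : mu d (mu d k' k') (mu d l l) = mu d (mu d k' l) (mu d k' l) := by
        simp only [mu, Prod.mk.injEq]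
        refine ⟨?_, ?_, ?_⟩ <;> ring
      rw [e2, hmu, e3, hkl, (mu_one _).1, (mu_one _).2]
      simp only [mu, Prod.mk.injEq]
      refine ⟨?_, ?_, ?_⟩ <;> ring
    rw [e1, (mu_one _).2]
    refine ⟨by simp, ?_, by simp⟩
    change v (0 - 2 ^ (2 * j)) ≤ v 2 ^ 2
    rw [zero_sub, Valuation.map_neg]
    exact v2k1

/-- [P8d] -/
theorem adjC : AdjP v o d := by
  have ho := h.ho
  have ho3 : o ^ 3 = 1 := by linear_combination (o - 1) * ho
  obtain ⟨vo, -, -⟩ := v_o h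
  obtain ⟨h2lt, h20⟩ := two_lt h
  have hd1 : v d ≤ 1 := by rw [hd]; exact h2lt.le
  have hd0 : d ≠ 0 := by
    rintro rfl
    rw [map_zero] at hd
    exact h20 hd.symm
  have v0 : v (0 : C) ≤ 1 := by rw [map_zero]; exact zero_le_one
  have hrep : ∀ a : C, (a = 0 ∨ a = 1 ∨ a = o ∨ a = o ^ 2) → v a ≤ 1 := by
    rintro a (rfl | rfl | rfl | rfl)
    · exact v0
    · rw [map_one]
    · exact vo.le
    · rw [map_pow, vo, one_pow]
  have hunsg : ∀ u : C × C × C, Un v d u → Un v d (P8d_sg o u) := by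
    rintro u ⟨⟨k1, k2, k3⟩, k4⟩
    refine ⟨⟨k1, ?_, ?_⟩, ?_⟩
    · change v (o * u.2.1) ≤ 1
      rw [map_mul, vo, one_mul]
      exact k2
    · change v (o ^ 2 * u.2.2) ≤ 1
      rw [map_mul, map_pow, vo, one_pow, one_mul]
      exact k3
    · rw [P8d_sg_nm ho3, k4]
  -- the triple `β_a`
  have hβ : ∀ a : C, (a = 0 ∨ a = 1 ∨ a = o ∨ a = o ^ 2) → ∃ c : C × C × C, LocA d c ∧ nm d c = 1 ∧ Un v d c ∧ Rc v c a := by
    rintro a (rfl | ha)
    · refine ⟨(1, 0, 0), Or.inl ⟨(1, 0, 0), by rw [(mu_one _).1]⟩, ?_, un_one, ?_⟩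
      · simp only [nm]
        ring
      · change v (0 - 0 * 1) ≤ v 2
        simp
    · obtain ⟨X, -, k2, k3, k4, k5⟩ := betaC h hd ha
      exact ⟨_, k2, k3, k4, k5⟩
  refine P8d_adj (ζ := o ^ 2) ho3 (Or.inr rfl) (fun u k => ∃ c : C × C × C, LocA d c ∧ nm d c ≠ 0 ∧
    IsSquare (nm d c) ∧ Un v d (mu d u c) ∧ v k ≤ 1 ∧ Kc v d (mu d u c) k) ?_ ?_ ?_ ?_ ?_
  · intro α hα hα2 _
    obtain ⟨g, hg, hun⟩ := exists_unR h hd hα hα2
    obtain ⟨a, ha, hra⟩ := rc_exists h hd hun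
    obtain ⟨c, k1, k2, k3, k4⟩ := hβ a ha
    have hun2 := un_mu hd1 hun k3
    have hr0 : Rc v (mu d (mu d α (mu d g g)) c) 0 := by
      have h3 := rc_mul h hd hun k3 (hrep a ha) (hrep a ha) hra k4
      generalize mu d (mu d α (mu d g g)) c = w at h3 hun2
      have e1 : w.2.1 - 0 * w.1 = (w.2.1 - (a + a) * w.1) + 2 * (a * w.1) := by ring
      change v (w.2.1 - 0 * w.1) ≤ v 2
      rw [e1]
      refine (v.map_add _ _).trans (max_le h3 ?_)
      rw [map_mul, map_mul]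
      exact (mul_le_mul' le_rfl (mul_le_one' (hrep a ha) hun2.1.1)).trans (mul_one _).le
    obtain ⟨k, hk, hkc⟩ := kc_exists h hd hun2 (by
      rw [nm_mu, nm_mu, nm_mu, k2, mul_one]
      exact hα2.mul (IsSquare.mul_self _)) hr0
    exact ⟨g, k, hg, hk, c, k1, by rw [k2]; exact one_ne_zero, by rw [k2]; exact IsSquare.one, hun2, hrep k hk, hkc⟩
  · rintro u w a b ⟨c, k1, k2, k3, k4, k5, k6⟩ ⟨c', l1, l2, l3, l4, l5, l6⟩
    have e1 : mu d (mu d u w) (mu d c c') = mu d (mu d u c) (mu d w c') := by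
      simp only [mu, Prod.mk.injEq]
      refine ⟨?_, ?_, ?_⟩ <;> ring
    refine ⟨mu d c c', locA_mul hd0 ho k2 k3 l2 l3 k1 l1, ?_, ?_, ?_, (v.map_add _ _).trans (max_le k5 l5), ?_⟩
    · rw [nm_mu]
      exact mul_ne_zero k2 l2
    · rw [nm_mu]
      exact k3.mul l3
    · rw [e1]
      exact un_mu hd1 k4 l4
    · rw [e1]
      exact kc_mul h hd k4 l4 k5 l5 k6 l6
  · rintro w b ⟨c, k1, k2, k3, k4, k5, k6⟩
    refine ⟨P8d_sg o c, locA_sig ho k1, ?_, ?_, ?_, ?_, ?_⟩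
    · rw [P8d_sg_nm ho3]
      exact k2
    · rw [P8d_sg_nm ho3]
      exact k3
    · rw [← P8d_sg_mu ho3]
      exact hunsg _ k4
    · rw [map_mul, map_pow, vo, one_pow, one_mul]
      exact k5
    · rw [← P8d_sg_mu ho3]
      exact kc_sig h hd k6
  · rintro u hu hs ⟨c, k1, k2, k3, k4, k5, k6⟩
    have h3 : SqA d (mu d u c) := kc_zero h hd k4 (by rw [nm_mu]; exact hs.mul k3)
      (k := 0) (by rw [map_zero]; exact zero_le) k6
    exact locA_of_mul hd0 ho hu hs k2 k3 (Or.inl h3) k1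
  · rintro u a ha ⟨c, k1, k2, k3, k4, k5, k6⟩
    refine ⟨c, k1, k2, k3, k4, v0, kc_congr h hd k6 ?_⟩
    have e1 : a + a - 0 = 2 * a := by ring
    rw [e1, map_mul]
    exact (mul_le_mul' le_rfl (hrep a (Or.inr ha))).trans (mul_one _).le

end

end JT
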