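import Pool.Agent.JT.P7
import Pool.Agent.JT.P8
import Pool.Agent.JT.G2

/-!
# [JT-P9] the place of `ℚ(ω)` over 2

PROOF. `lc2_of_place` [P9a]: `v.asIdeal = Ideal.span {eE 2}`: it is a prime ideal which contains `2`, and `2` is prime in `Eis` (search the JD / JG / CU files for the description of the places by primes of `Eis`: e. g. `JD.place_cases`, `JD.val_prime`, `she_two` (JG/SH.lean)). So `Valued.v 2 = exp (-1)`. `res`: an element `x` of the completion with `v x ≤ 1` is congruent modulo the maximal ideal to an element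
of `𝓞 KK`, i. e. to `a ∈ Eis` (density: see the proofs in EQV/H8a.lean, JG/SH.lean for residue), and `a ≡ 0, 1, ω, ω²` modulo `2` (`a = m + n ω`, parities of `m, n`; `1 + ω = -ω²`). `v x < 1` iff `v x ≤ exp (-1)`. `hens3`: `JD.hensel3`, `hens4`: `hensel4` (L2); `hens2`: `hensel3` for `(W - c)(W² + p W + q)`.. or copy the proof of `JD.hensel3`
for the monic quadratic polynomial (`HenselianLocalRing`).
`val2_le` [P9a]: `Valued.v` of the image of an integral element; `a = 2^m b` with `2 ∤ b`: `Valued.v = exp (-m)`.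
`approx2` [P9a]: density of `KK` (`𝓞 KK`) in the completion (integers): for `v x ≤ 1` there is `a ∈ Eis` with `v (x - a) ≤ v 2 ^ n`: induction from `res` (`x = r + 2 x'`).
`place2_unique` [P9a]: the two prime ideals are both `span {eE 2}`; `HeightOneSpectrum.ext`.
`adj_all` [P9b]: `D = 2 ^ k * D'` with `2 ∤ D'` and `k ≤ 5` (`hD.free 2`); `v (D') = 1`. `k = 0`: `exists_unit4` and `adjU`; `1`: `adjC`; `2`: `adjB4` (if `v (D' - y² - 2) ≤ v 2 ^ 2` with `y` integral, `y ≡ a mod 2`, `a ∈ Eis`, then `y² ≡ a² mod 4`, `4 ∣ D' - a² - 2`: contradiction to `hD.two2`); `3`: `adj8` (`exists_zeta` for `D'`; `ζ ≠ 1` by `hD.two3`); `4`: `adjB16`; `5`: `adjB32`.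
`lc2` [P9c]: `one`: `SqA` (`(1, 0, 0) = (1, 0, 0)²`); `mul`: `locA_mul`; `sq`: `locA_sq_mul`; `of_sq`: `locA_of_sq_mul`; `sig`: `locA_sig`; `mp_mu`, `mp_nm`. `adj`: `¬ L2 D β` gives a place `v`, by `place2_unique` the conditions are those at `v`; `adj_all`, `val_of_ev` (L1).
-/

set_option autoImplicit false

open NumberField IsDedekindDomain
open scoped Classical

namespace JT

open CM27 CF JZ JD
open CU (la om eE)

theorem p9_exists_k {D : Eis} (hD : Cl2 D) : ∃ (k : ℕ) (D' : Eis), k ≤ 5 ∧ D = 2 ^ k * D' ∧ ¬ (2 : Eis) ∣ D' := by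
  have hf : ¬ (2 : Eis) ^ 6 ∣ D := hD.free 2 TH.b4_two_prime
  have hfin : FiniteMultiplicity (2 : Eis) D := ⟨5, hf⟩
  obtain ⟨c, h1, h2⟩ := hfin.exists_eq_pow_mul_and_not_dvd
  refine ⟨multiplicity (2 : Eis) D, c, ?_, h1, h2⟩
  by_contra hcon
  apply hf
  have h3 : 6 ≤ multiplicity (2 : Eis) D := by omega
  exact (pow_dvd_pow 2 h3).trans ⟨c, h1⟩

theorem p9_dvd (x y : ℤ) : (2 : Eis) ∣ ⟨2 * x, 2 * y⟩ := by
  have e2 : (2 : Eis) = ⟨2, 0⟩ := rfl
  refine ⟨⟨x, y⟩, ?_⟩
  rw [e2]
  apply QuadraticAlgebra.ext <;> simp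

/-- the residues modulo 2 -/
theorem p9_mod2 (m : Eis) : (2 : Eis) ∣ m ∨ (2 : Eis) ∣ m - 1 ∨ (2 : Eis) ∣ m - om ∨ (2 : Eis) ∣ m - om ^ 2 := by
  obtain ⟨a, b⟩ := m
  have key : ∀ (r : Eis) (x y : ℤ), (⟨a, b⟩ : Eis) - r = ⟨2 * x, 2 * y⟩ → (2 : Eis) ∣ (⟨a, b⟩ : Eis) - r := by
    intro r x y h
    rw [h]
    exact p9_dvd x y
  rcases Int.even_or_odd' a with ⟨x, hx | hx⟩ <;> rcases Int.even_or_odd' b with ⟨y, hy | hy⟩
  · left
    rw [hx, hy]
    exact p9_dvd x y
  · right; right; left
    apply key om x y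
    rw [hx, hy]
    apply QuadraticAlgebra.ext <;> simp [om]
  · right; left
    apply key 1 x y
    have e1 : (1 : Eis) = ⟨1, 0⟩ := rfl
    rw [hx, hy, e1]
    apply QuadraticAlgebra.ext <;> simp
  · right; right; right
    apply key (om ^ 2) (x + 1) (y + 1)
    rw [hx, hy]
    apply QuadraticAlgebra.ext
    · simp [om, sq]
      ring
    · simp [om, sq]
      ring

theorem p9_cz (v : HeightOneSpectrum (𝓞 KK)) : CharZero (v.adicCompletion KK) :=
  charZero_of_injective_algebraMap (algebraMap KK (v.adicCompletion KK)).injective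

/-- reduction modulo `2` is surjective on the Eisenstein integers -/
theorem p9_s5a (v : HeightOneSpectrum (𝓞 KK)) (hv : v.asIdeal = Ideal.span {eE (2 : Eis)}) (x : v.adicCompletionIntegers KK) :
    ∃ (m : Eis) (y : v.adicCompletionIntegers KK), x = CU.t5b_lo v m + 2 * y := by
  have hirr : Irreducible (CU.t5b_lo v 2) := CU.t5b_irr' TH.b4_two_prime hv
  obtain ⟨m, hm⟩ := (CMT.residue_completion KK v).1 (IsLocalRing.residue (v.adicCompletionIntegers KK) x)
  have h1 : IsLocalRing.residue (v.adicCompletionIntegers KK) (x - CU.t5b_lo v (eE.symm m)) = 0 := by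
    have h2 : CU.t5b_lo v (eE.symm m) = algebraMap (𝓞 KK) (v.adicCompletionIntegers KK) m := by
      show algebraMap (𝓞 KK) (v.adicCompletionIntegers KK) (eE (eE.symm m)) = _
      rw [eE.apply_symm_apply]
    rw [map_sub, h2, ← hm, RingHom.comp_apply, sub_self]
  rw [IsLocalRing.residue_eq_zero_iff,
    (IsDiscreteValuationRing.irreducible_iff_uniformizer _).1 hirr, Ideal.mem_span_singleton] at h1
  obtain ⟨y, hy⟩ := h1
  refine ⟨eE.symm m, y, ?_⟩
  rw [map_ofNat] at hy
  linear_combination hy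

section
variable {v : HeightOneSpectrum (𝓞 KK)}

theorem p9_val (a : Eis) : Valued.v (algebraMap KK (v.adicCompletion KK) (jK a)) = v.intValuation (eE a) := by
  have e1 : Valued.v (algebraMap KK (v.adicCompletion KK) (jK a)) = v.valuation KK (jK a) :=
    HeightOneSpectrum.valuedAdicCompletion_eq_valuation' v (jK a)
  have e2 : v.valuation KK (jK a) = v.intValuation (eE a) := by
    rw [← HeightOneSpectrum.valuation_of_algebraMap (K := KK)]
    rfl
  rw [e1, e2]

theorem p9_ideal (h2 : v.valuation KK 2 < 1) : v.asIdeal = Ideal.span {eE (2 : Eis)} := by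
  have hdom := eis_isDomain
  have hmem : eE (2 : Eis) ∈ v.asIdeal := by
    rw [← v.intValuation_lt_one_iff_mem, ← p9_val, map_ofNat, map_ofNat]
    have e := HeightOneSpectrum.valuedAdicCompletion_eq_valuation' v (2 : KK)
    have e' : Valued.v (algebraMap KK (v.adicCompletion KK) 2) = v.valuation KK 2 := e
    rw [map_ofNat] at e'
    rw [e']
    exact h2
  obtain ⟨b, hb, hv⟩ := CU.gen v
  have h1 := (CU.mem_iff hv 2).1 hmem
  rw [hv]
  exact CU.s1_span (hb.irreducible.associated_of_dvd TH.b4_two_prime.irreducible h1)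

theorem p9_two (h2 : v.valuation KK 2 < 1) :
    Valued.v (2 : v.adicCompletion KK) = WithZero.exp (-1 : ℤ) := by
  have hdom := eis_isDomain
  have e : Valued.v (algebraMap KK (v.adicCompletion KK) (jK 2)) = v.intValuation (eE 2) := p9_val 2
  rw [map_ofNat, map_ofNat] at e
  rw [e]
  apply v.intValuation_singleton
  · rw [Ne, EmbeddingLike.map_eq_zero_iff]
    exact TH.b4_two_prime.ne_zero
  · exact p9_ideal h2

theorem p9_le (a : Eis) : Valued.v (algebraMap KK (v.adicCompletion KK) (jK a)) ≤ (1 : WithZero (Multiplicative ℤ)) := by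
  rw [p9_val]
  exact v.intValuation_le_one _

theorem hensel2 {p q x₀ : v.adicCompletion KK} (hp : Valued.v p ≤ (1 : WithZero (Multiplicative ℤ)))
    (hq : Valued.v q ≤ (1 : WithZero (Multiplicative ℤ)))
    (hx : Valued.v x₀ ≤ (1 : WithZero (Multiplicative ℤ)))
    (h0 : Valued.v (x₀ ^ 2 + p * x₀ + q) < (1 : WithZero (Multiplicative ℤ)))
    (h1 : Valued.v (2 * x₀ + p) = (1 : WithZero (Multiplicative ℤ))) :
    ∃ x : v.adicCompletion KK, x ^ 2 + p * x + q = 0 ∧ Valued.v (x - x₀) < (1 : WithZero (Multiplicative ℤ)) := by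
  have hhens := CUD.c12a_hens KK v
  have hint : (Valued.v : Valuation (v.adicCompletion KK) _).Integers (v.adicCompletionIntegers KK) :=
    Valuation.valuationSubring.integers _
  set P : v.adicCompletionIntegers KK := ⟨p, hp⟩ with hP
  set Q : v.adicCompletionIntegers KK := ⟨q, hq⟩ with hQ
  set X₀ : v.adicCompletionIntegers KK := ⟨x₀, hx⟩ with hX₀
  obtain ⟨s, hs, hs'⟩ := hhens.is_henselian
    (Polynomial.X ^ 2 + Polynomial.C P * Polynomial.X + Polynomial.C Q)
    (by monicity!) X₀ (by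
      have h4 : Polynomial.eval X₀ (Polynomial.X ^ 2 + Polynomial.C P * Polynomial.X + Polynomial.C Q)
          = X₀ ^ 2 + P * X₀ + Q := by simp
      rw [h4]
      refine (Valuation.mem_maximalIdeal_iff _ _).2 ?_
      exact h0) (by
      have h4 : Polynomial.eval X₀ (Polynomial.derivative (Polynomial.X ^ 2 + Polynomial.C P * Polynomial.X +
          Polynomial.C Q)) = 2 * X₀ + P := by
        simp
        norm_num
      rw [h4, hint.isUnit_iff_valuation_eq_one]
      exact h1)
  refine ⟨(s : v.adicCompletion KK), ?_, ?_⟩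
  · have h4 : s ^ 2 + P * s + Q = 0 := by
      have h5 := hs
      rw [Polynomial.IsRoot.def] at h5
      simpa only [Polynomial.eval_add, Polynomial.eval_mul, Polynomial.eval_pow, Polynomial.eval_X, Polynomial.eval_C] using h5
    exact congrArg (fun x : v.adicCompletionIntegers KK => (x : v.adicCompletion KK)) h4
  · exact (Valuation.mem_maximalIdeal_iff _ _).1 hs'

/-- approximation modulo 2 -/
theorem p9_approx (h2 : v.valuation KK 2 < 1) {x : v.adicCompletion KK}
    (hx : Valued.v x ≤ (1 : WithZero (Multiplicative ℤ))) :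
    ∃ (m : Eis) (y : v.adicCompletion KK), Valued.v y ≤ (1 : WithZero (Multiplicative ℤ)) ∧
      x = algebraMap KK (v.adicCompletion KK) (jK m) + 2 * y := by
  obtain ⟨m, y, h⟩ := p9_s5a v (p9_ideal h2) ⟨x, hx⟩
  refine ⟨m, y, y.2, ?_⟩
  have h3 := congrArg (fun z : v.adicCompletionIntegers KK => (z : v.adicCompletion KK)) h
  exact h3

end

section
variable {v : HeightOneSpectrum (𝓞 KK)} (h2 : v.valuation KK 2 < 1)
include h2

/-- [P9a] -/
theorem lc2_of_place : Lc2 (Valued.v : Valuation (v.adicCompletion KK) (WithZero (Multiplicative ℤ)))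
    (algebraMap KK (v.adicCompletion KK) (jK om)) := by
  refine ⟨?_, p9_two h2, ?_, fun p q x₀ hp hq hx h0 h1 => hensel2 hp hq hx h0 h1,
    fun p q t x₀ hp hq ht hx h0 h1 => hensel3 v hp hq ht hx h0 h1,
    fun a b c t x₀ ha hb hc ht hx h0 h1 => hensel4 ha hb hc ht hx h0 h1⟩
  · have h : om ^ 2 + om + 1 = 0 := a2_norm_zero rfl
    have h3 := congrArg (fun z => algebraMap KK (v.adicCompletion KK) (jK z)) h
    simp only [map_add, map_pow, map_one, map_zero] at h3
    exact h3
  · intro x hx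
    obtain ⟨m, y, hy, e⟩ := p9_approx h2 hx
    have key : ∀ r : Eis, (2 : Eis) ∣ m - r → Valued.v (x - algebraMap KK (v.adicCompletion KK) (jK r)) ≤
        (Valued.v (2 : v.adicCompletion KK) : WithZero (Multiplicative ℤ)) := by
      rintro r ⟨c, hc⟩
      have hm : m = r + 2 * c := by linear_combination hc
      have e1 : x - algebraMap KK (v.adicCompletion KK) (jK r)
          = 2 * (algebraMap KK (v.adicCompletion KK) (jK c) + y) := by
        rw [e, hm, map_add, map_mul, map_ofNat, map_add, map_mul, map_ofNat]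
        ring
      rw [e1]
      exact p0_ml le_rfl (p0_add (p9_le c) hy)
    rcases p9_mod2 m with h | h | h | h
    · left
      have := key 0 (by rwa [sub_zero])
      rwa [map_zero, map_zero, sub_zero] at this
    · right; left
      have := key 1 h
      rwa [map_one, map_one] at this
    · right; right; left
      exact key om h
    · right; right; right
      have := key (om ^ 2) h
      rwa [map_pow, map_pow] at this

/-- [P9a] -/
theorem val2_le (a : Eis) (n : ℕ) : Valued.v (algebraMap KK (v.adicCompletion KK) (jK a)) ≤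
    (Valued.v (2 : v.adicCompletion KK) : WithZero (Multiplicative ℤ)) ^ n ↔ (2 : Eis) ^ n ∣ a := by
  rw [p9_val, p9_two h2, ← WithZero.exp_nsmul]
  have e : n • (-1 : ℤ) = -(n : ℤ) := by simp
  rw [e, v.intValuation_le_pow_iff_mem, p9_ideal h2, Ideal.span_singleton_pow, Ideal.mem_span_singleton,
    ← map_pow]
  constructor
  · rintro ⟨c, hc⟩
    refine ⟨eE.symm c, ?_⟩
    apply eE.injective
    rw [map_mul, eE.apply_symm_apply]
    exact hc
  · rintro ⟨c, rfl⟩
    exact ⟨eE c, map_mul _ _ _⟩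

/-- [P9a] -/
theorem val2_one {a : Eis} (ha : ¬ (2 : Eis) ∣ a) : Valued.v (algebraMap KK (v.adicCompletion KK) (jK a)) = (1 : WithZero (Multiplicative ℤ)) := by
  have := p9_cz v
  apply le_antisymm (p9_le a)
  rw [← not_lt, lt_iff2 (lc2_of_place h2)]
  intro h
  apply ha
  have := (val2_le h2 a 1).1 (by rwa [pow_one])
  rwa [pow_one] at this

/-- [P9a] -/
theorem approx2 (n : ℕ) {x : v.adicCompletion KK} (hx : Valued.v x ≤ (1 : WithZero (Multiplicative ℤ))) :
    ∃ a : Eis, Valued.v (x - algebraMap KK (v.adicCompletion KK) (jK a)) ≤ (Valued.v (2 : v.adicCompletion KK) : WithZero (Multiplicative ℤ)) ^ n := by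
  have := p9_cz v
  induction n with
  | zero => exact ⟨0, by simpa using hx⟩
  | succ n ih =>
    obtain ⟨a, ha⟩ := ih
    have hy := p0_half (lc2_of_place h2) ha
    obtain ⟨m, z, hz, e⟩ := p9_approx h2 hy
    have h20 : (2 : v.adicCompletion KK) ^ n ≠ 0 := pow_ne_zero n two_ne_zero
    refine ⟨a + 2 ^ n * m, ?_⟩
    have e1 : x - algebraMap KK (v.adicCompletion KK) (jK (a + 2 ^ n * m)) = 2 ^ (n + 1) * z := by
      rw [div_eq_iff h20] at e
      rw [map_add, map_mul, map_pow, map_ofNat, map_add, map_mul, map_pow, map_ofNat]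
      linear_combination e
    rw [e1]
    exact p0_ml (by rw [map_pow]) hz

/-- [P9a] -/
theorem place2_unique {v' : HeightOneSpectrum (𝓞 KK)} (h2' : v'.valuation KK 2 < 1) : v' = v := by
  apply HeightOneSpectrum.ext
  rw [p9_ideal h2, p9_ideal h2']

/-- [P9b] -/
theorem adj_all {D : Eis} (hD : Cl2 D) : AdjP (Valued.v : Valuation (v.adicCompletion KK) (WithZero (Multiplicative ℤ)))
    (algebraMap KK (v.adicCompletion KK) (jK om)) (algebraMap KK (v.adicCompletion KK) (jK D)) := by
  have := p9_cz v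
  have h := lc2_of_place h2
  obtain ⟨k, D', hk, hDD, hD'⟩ := p9_exists_k hD
  have hu := val2_one h2 hD'
  have hD2 : ∀ k : ℕ, D = 2 ^ k * D' → algebraMap KK (v.adicCompletion KK) (jK D)
      = 2 ^ k * algebraMap KK (v.adicCompletion KK) (jK D') := by
    intro k hk
    rw [hk, map_mul, map_pow, map_ofNat, map_mul, map_pow, map_ofNat]
  rw [hD2 k hDD]
  interval_cases k
  · rw [pow_zero, one_mul]
    obtain ⟨ζ, t, -, h3, h4, h5⟩ := exists_unit4 h hu
    exact adjU h hu h3 h4 (by rw [h5, sub_self, map_zero]; exact zero_le)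
  · rw [pow_one]
    exact adjC h (by rw [map_mul, hu, mul_one])
  · have e : (2 : v.adicCompletion KK) ^ 2 = 4 := by norm_num
    rw [e]
    refine adjB4 h hu ?_
    intro y hy hcon
    obtain ⟨a, ha⟩ := approx2 h2 1 hy
    rw [pow_one] at ha
    have h3 : (2 : Eis) ^ 2 ∣ D' - a ^ 2 - 2 := by
      rw [← val2_le h2]
      have e2 : algebraMap KK (v.adicCompletion KK) (jK (D' - a ^ 2 - 2))
          = (algebraMap KK (v.adicCompletion KK) (jK D') - y ^ 2 - 2)
            + (y - algebraMap KK (v.adicCompletion KK) (jK a)) *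
              ((y - algebraMap KK (v.adicCompletion KK) (jK a))
                + 2 * algebraMap KK (v.adicCompletion KK) (jK a)) := by
        simp only [map_sub, map_pow, map_ofNat]
        ring
      rw [e2]
      refine Valuation.map_add_le _ hcon ?_
      rw [map_mul, sq]
      exact mul_le_mul' ha (Valuation.map_add_le _ ha (p0_ml le_rfl (p9_le a)))
    have e3 : (2 : Eis) ^ 2 = 4 := by norm_num
    rw [e3] at h3 hDD
    exact hD.two2 D' hD' hDD a h3
  · have e : (2 : v.adicCompletion KK) ^ 3 = 8 := by norm_num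
    rw [e]
    obtain ⟨ζ, -, h3, h4⟩ := exists_zeta h hu
    refine adj8 h hu (e := ζ) ?_ h4
    rcases h3 with rfl | h3
    · exfalso
      have e3 : (2 : Eis) ^ 3 = 8 := by norm_num
      rw [e3] at hDD
      apply hD.two3 D' hDD
      have h5 := (val2_le h2 (D' - 1) 1).1 (by
        rw [pow_one, map_sub, map_sub, map_one, map_one]
        exact h4)
      rwa [pow_one] at h5
    · exact h3
  · have e : (2 : v.adicCompletion KK) ^ 4 = 16 := by norm_num
    rw [e]
    exact adjB16 h hu
  · have e : (2 : v.adicCompletion KK) ^ 5 = 32 := by norm_num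
    rw [e]
    exact adjB32 h hu

end

/-- [P9a] -/
theorem exists_place2 : ∃ v : HeightOneSpectrum (𝓞 KK), v.valuation KK 2 < 1 := by
  refine ⟨CU.pl 2 TH.b4_two_prime, ?_⟩
  have h1 : (CU.pl 2 TH.b4_two_prime).valuation KK (algebraMap (𝓞 KK) KK (eE (2 : Eis))) < 1 := by
    rw [HeightOneSpectrum.valuation_of_algebraMap, HeightOneSpectrum.intValuation_lt_one_iff_mem]
    exact Ideal.mem_span_singleton_self _
  rwa [map_ofNat, map_ofNat] at h1

/-- [P9b] `D = 2 ^ k D'` -/
theorem exists_k {D : Eis} (hD : Cl2 D) : ∃ (k : ℕ) (D' : Eis), k ≤ 5 ∧ D = 2 ^ k * D' ∧ ¬ (2 : Eis) ∣ D' :=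
  p9_exists_k hD

section
variable {D : Eis} {F : Type} [Field F] [NumberField F] [Algebra KK F] {s : F} {σ : F ≃ₐ[KK] F}

theorem P9c_om {C : Type} [Field C] [Algebra KK C] :
    (algebraMap KK C (jK om)) ^ 2 + algebraMap KK C (jK om) + 1 = 0 := by
  have h : (om : Eis) ^ 2 + om + 1 = 0 := by decide
  rw [← map_pow, ← map_pow, ← map_add, ← map_add, ← map_one (algebraMap KK C), ← map_one jK, ← map_add, ← map_add, h,
    map_zero, map_zero]

theorem P9c_sgt {C : Type} [Field C] (f : KK →+* C) (u : KK × KK × KK) :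
    mp f (sgt u) = ((mp f u).1, f (jK om) * (mp f u).2.1, f (jK om) ^ 2 * (mp f u).2.2) := by
  simp only [mp, sgt, map_mul, map_pow]

/-- [P9c] -/
theorem lc2 (hD : Cl2 D) (hQ : Cub D s σ) : LC2 D s := by
  have hD0 : D ≠ 0 := by
    intro h0
    exact hD.ncube ⟨0, by rw [h0]; ring⟩
  have hK0 : jK D ≠ 0 := by
    intro h0
    exact hD0 (jK_inj (by rw [h0, map_zero]))
  have hcz : ∀ v : HeightOneSpectrum (𝓞 KK), CharZero (v.adicCompletion KK) := fun v =>
    charZero_of_injective_algebraMap (algebraMap KK (v.adicCompletion KK)).injective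
  have hd0 : ∀ v : HeightOneSpectrum (𝓞 KK), algebraMap KK (v.adicCompletion KK) (jK D) ≠ 0 := fun v =>
    (map_ne_zero _).2 hK0
  have hn0 : ∀ (v : HeightOneSpectrum (𝓞 KK)) (u : KK × KK × KK), nm (jK D) u ≠ 0 →
      nm (algebraMap KK (v.adicCompletion KK) (jK D)) (mp (algebraMap KK (v.adicCompletion KK)) u) ≠ 0 := by
    intro v u hu
    rw [mp_nm]
    exact (map_ne_zero _).2 hu
  have hns : ∀ (v : HeightOneSpectrum (𝓞 KK)) (u : KK × KK × KK), IsSquare (nm (jK D) u) →
      IsSquare (nm (algebraMap KK (v.adicCompletion KK) (jK D)) (mp (algebraMap KK (v.adicCompletion KK)) u)) := by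
    intro v u hu
    rw [mp_nm]
    exact hu.map _
  refine ⟨?_, ?_, ?_, ?_, ?_, ?_⟩
  · intro v _
    left
    refine ⟨(1, 0, 0), ?_⟩
    simp only [mp, mu, map_one, map_zero, Prod.mk.injEq]
    refine ⟨?_, ?_, ?_⟩ <;> ring
  · intro u w hu hu' hw hw' h1 h2 v hv
    have := hcz v
    rw [mp_mu]
    exact locA_mul (hd0 v) P9c_om (hn0 v u hu) (hns v u hu') (hn0 v w hw) (hns v w hw') (h1 v hv) (h2 v hv)
  · intro u g h1 v hv
    rw [mp_mu, mp_mu]
    exact locA_sq_mul (h1 v hv)
  · intro u g hg h1 v hv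
    have h2 := h1 v hv
    rw [mp_mu, mp_mu] at h2
    exact locA_of_sq_mul (hn0 v g hg) h2
  · intro u h1 v hv
    rw [P9c_sgt]
    exact locA_sig P9c_om (h1 v hv)
  · intro α β hα hα' hβ hβ' heα heβ hnL
    have h1 : ∃ v : HeightOneSpectrum (𝓞 KK), v.valuation KK 2 < 1 ∧
        ¬ LocA (algebraMap KK (v.adicCompletion KK) (jK D)) (mp (algebraMap KK (v.adicCompletion KK)) β) := by
      by_contra hc
      apply hnL
      intro v hv
      by_contra hc'
      exact hc ⟨v, hv, hc'⟩
    obtain ⟨v, hv, hvn⟩ := h1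
    have hloc : ∀ u : KK × KK × KK,
        LocA (algebraMap KK (v.adicCompletion KK) (jK D)) (mp (algebraMap KK (v.adicCompletion KK)) u) → L2 D u := by
      intro u hu v' hv'
      have e : v' = v := place2_unique hv hv'
      subst e
      exact hu
    have h2 := adj_all hv hD (mp (algebraMap KK (v.adicCompletion KK)) α) (mp (algebraMap KK (v.adicCompletion KK)) β)
      (hn0 v α hα) (hns v α hα') (hn0 v β hβ) (hns v β hβ') (fun ρ hρ => val_of_ev hD0 hQ hα heα v hρ)
      (fun ρ hρ => val_of_ev hD0 hQ hβ heβ v hρ) hvn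
    rcases h2 with h2 | h2 | h2 | h2
    · left
      exact hloc _ h2
    · right; left
      apply hloc
      rw [mp_mu]
      exact h2
    · right; right; left
      apply hloc
      rw [mp_mu, P9c_sgt]
      exact h2
    · right; right; right
      apply hloc
      rw [mp_mu, P9c_sgt, P9c_sgt]
      exact h2

end

end JT
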