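import Pool.Agent.JT.Alg
import Pool.Agent.JD.Q3

/-!
# [JT-Q1] the cubic extension `F = K(∛D)`, `K = ℚ(ω)`

`s³ = D`, `σ s = ω s`. An element of `F` is `ev (mp u) s` for a triple `u` over `KK`.

PROOF. `not_cube`: as `JD.not_sq` (JD/Q1.lean): a cube root in `KK` of an integral element is integral, so in the image of `Eis` (`jK_inj`).
`exists_cub`: `F / KK` has degree 3, `X³ - jK D` is irreducible (no root: `not_cube`) and splits in `F` (`s`, `ω s`, `ω² s` with `ω = jF F om`, `exists_o`), so `F = KK(s)` is Galois (normal: splitting field / all roots of the minimal polynomial of `s` are in `F`; characteristic 0), and there is an automorphism with `σ s = ω s`: e. g. the group has order 3,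
so a nontrivial `σ`; `σ s ≠ s` (otherwise `s` is in the fixed field of the group generated by `σ`, which is everything) and `(σ s)³ = D`, so `σ s = ω s` or `ω² s`; in the second case take `σ²` (`σ² s = σ (ω² s) = ω² ω² s = ω s`). (For the Galois property see `JD.exists_tau`, which uses `IsQuadraticExtension`; here use `IsGalois.of_separable_splitting_field`
or the Kummer theory of Mathlib: `IsSplittingField ... (X ^ n - C a)`, `autAdjoinRootXPowSubC`, `isGalois_of_isSplittingField_X_pow_sub_C`.)
`ev_sig`: compute. `sig_three`: `σ³ = 1` on `s`, and `s` generates (or by `exists_trip` and `ev_sig`).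
`exists_trip`: `1, s, s²` are linearly independent over `KK` (if `a + b s + c s² = 0` apply `σ`, `σ²`: the values of the triple at the three roots `s`, `ω s`, `ω² s` are `0`, so the triple is `0` by `ev_inj`), hence a basis (degree 3).
`trip_inj`: the same. `norm3`: `nm_ev` with `o = jF F om`. `sqA_iff`: a square in `F` of an element `ev (mp g) s`: `ev_mu` and `trip_inj`.
`nm_ne`: `nm (jK D) u = 0` implies one of the values at `s, ω s, ω² s` is `0`, all are conjugates of `ev (mp u) s`.
-/

set_option autoImplicit false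

open NumberField IsDedekindDomain
open scoped Classical

namespace JT

open CM27 CF JZ JD
open CU (la om eE)

/-- `F = ℚ(ω)(∛D)`, `s³ = D`, `σ s = ω s`. -/
structure Cub (D : Eis) {F : Type} [Field F] [NumberField F] [Algebra KK F] (s : F)
    (σ : F ≃ₐ[KK] F) : Prop where
  fr : Module.finrank KK F = 3
  cu : s ^ 3 = jF F D
  sig : σ s = jF F om * s

/-- the automorphism on triples -/
noncomputable def sgt (u : KK × KK × KK) : KK × KK × KK := (u.1, jK om * u.2.1, jK om ^ 2 * u.2.2)

theorem not_cube {D : Eis} (h : ¬ ∃ x : Eis, x ^ 3 = D) (x : KK) : x ^ 3 ≠ jK D := by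
  intro hx
  have hint : IsIntegral (𝓞 KK) (x ^ 3) := by
    rw [hx, jK_apply]
    exact isIntegral_algebraMap
  obtain ⟨y, hy⟩ := IsIntegrallyClosed.exists_algebraMap_eq_of_isIntegral_pow (by norm_num : 0 < 3) hint
  obtain ⟨m, rfl⟩ := eE.surjective y
  have h3 : jK m ^ 3 = jK D := by
    rw [← hx, ← hy]
    rfl
  rw [← map_pow] at h3
  exact h ⟨m, jK_inj h3⟩

theorem exists_cub {D : Eis} (h : ¬ ∃ x : Eis, x ^ 3 = D) (F : Type) [Field F] [NumberField F] [Algebra KK F]
    (hfr : Module.finrank KK F = 3) (s : F) (hs : s ^ 3 = jF F D) : ∃ σ : F ≃ₐ[KK] F, Cub D s σ := by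
  have hom : (jF F om) ^ 2 + jF F om + 1 = 0 := by
    rw [← map_pow, ← map_one (jF F), ← map_add, ← map_add, show om ^ 2 + om + 1 = 0 by decide,
      map_zero]
  have ho3 : (jF F om) ^ 3 = 1 := by linear_combination (jF F om - 1) * hom
  have hirr : Irreducible (Polynomial.X ^ 3 - Polynomial.C (jK D) : Polynomial KK) :=
    X_pow_sub_C_irreducible_of_prime Nat.prime_three (not_cube h)
  have hm : (Polynomial.X ^ 3 - Polynomial.C (jK D) : Polynomial KK).Monic :=
    Polynomial.monic_X_pow_sub_C _ (by norm_num)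
  have hroot : ∀ z : F, z ^ 3 = jF F D →
      Polynomial.X ^ 3 - Polynomial.C (jK D) = minpoly KK z := fun z hz => by
    refine minpoly.eq_of_irreducible_of_monic hirr ?_ hm
    rw [map_sub, map_pow, Polynomial.aeval_X, Polynomial.aeval_C, hz, jF_apply, sub_self]
  have hs' : (jF F om * s) ^ 3 = jF F D := by rw [mul_pow, ho3, one_mul, hs]
  have hfd : FiniteDimensional KK F := by
    refine FiniteDimensional.of_finrank_pos ?_
    rw [hfr]
    norm_num
  have halg : Algebra.IsAlgebraic KK F := Algebra.IsAlgebraic.of_finite KK F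
  -- `F = KK(s)`
  have hpow : Module.finrank KK (IntermediateField.adjoin KK {s}) = 3 := by
    rw [IntermediateField.adjoin.finrank (Algebra.IsIntegral.isIntegral s), ← hroot s hs,
      Polynomial.natDegree_X_pow_sub_C]
  have htop : IntermediateField.adjoin KK {s} = ⊤ := by
    apply IntermediateField.eq_of_le_of_finrank_eq le_top
    rw [hpow, IntermediateField.finrank_top', hfr]
  -- the endomorphism with `s ↦ ω s`
  let pb := IntermediateField.adjoin.powerBasis (K := KK) (x := s) (Algebra.IsIntegral.isIntegral s)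
  let f1 : IntermediateField.adjoin KK {s} →ₐ[KK] F := pb.lift (jF F om * s) (by
    have e : minpoly KK pb.gen = minpoly KK s := by
      have : pb.gen = IntermediateField.AdjoinSimple.gen KK s :=
        IntermediateField.adjoin.powerBasis_gen _
      rw [this, IntermediateField.minpoly_gen]
    rw [e, ← hroot s hs, map_sub, map_pow, Polynomial.aeval_X, Polynomial.aeval_C, hs', jF_apply, sub_self])
  let f2 : F →ₐ[KK] F := (f1.comp ((IntermediateField.equivOfEq htop).symm.toAlgHom)).comp
    (IntermediateField.topEquiv (F := KK) (E := F)).symm.toAlgHom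
  have hf2 : f2 s = jF F om * s := by
    have e : (IntermediateField.equivOfEq htop).symm ((IntermediateField.topEquiv (F := KK) (E := F)).symm s) = pb.gen := by
      have : pb.gen = IntermediateField.AdjoinSimple.gen KK s :=
        IntermediateField.adjoin.powerBasis_gen _
      rw [this]
      apply Subtype.ext
      rfl
    show f1 ((IntermediateField.equivOfEq htop).symm ((IntermediateField.topEquiv (F := KK) (E := F)).symm s)) = _
    rw [e]
    exact pb.lift_gen _ _
  refine ⟨AlgEquiv.ofBijective f2 (Algebra.IsAlgebraic.algHom_bijective f2), ⟨hfr, hs, ?_⟩⟩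
  exact hf2

section
variable {D : Eis} {F : Type} [Field F] [NumberField F] [Algebra KK F] {s : F} {σ : F ≃ₐ[KK] F}

theorem omF : (jF F om) ^ 2 + jF F om + 1 = 0 := by
  rw [← map_pow, ← map_one (jF F), ← map_add, ← map_add, show om ^ 2 + om + 1 = 0 by decide,
    map_zero]

theorem Q1b_omK : (jK om) ^ 2 + jK om + 1 = 0 := by
  have h : om ^ 2 + om + 1 = (0 : Eis) := by decide
  have h1 := congrArg jK h
  simpa only [map_add, map_pow, map_one, map_zero] using h1

theorem sig_jF (σ : F ≃ₐ[KK] F) (a : Eis) : σ (jF F a) = jF F a := σ.commutes _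

theorem ev_sig (hQ : Cub D s σ) (u : KK × KK × KK) :
    σ (ev (mp (algebraMap KK F) u) s) = ev (mp (algebraMap KK F) (sgt u)) s := by
  simp only [ev, mp, sgt, map_add, map_mul, map_pow, hQ.sig, AlgEquiv.commutes, jF_apply]
  ring

theorem ev_sig' (hQ : Cub D s σ) (u : KK × KK × KK) :
    σ (ev (mp (algebraMap KK F) u) s) = ev (mp (algebraMap KK F) u) (jF F om * s) ∧
    σ (σ (ev (mp (algebraMap KK F) u) s)) = ev (mp (algebraMap KK F) u) (jF F om ^ 2 * s) := by
  constructor
  · simp only [ev, mp, map_add, map_mul, map_pow, hQ.sig, AlgEquiv.commutes]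
  · simp only [ev, mp, map_add, map_mul, map_pow, hQ.sig, AlgEquiv.commutes, sig_jF]
    ring

variable (hD : D ≠ 0) (hQ : Cub D s σ)
include hD hQ

theorem s_ne : s ≠ 0 := by
  intro h
  have h1 := hQ.cu
  rw [h, zero_pow (by norm_num : (3 : ℕ) ≠ 0)] at h1
  exact hD (jF_inj F (by rw [← h1, map_zero]))

theorem Q1b_trip_inj {u v : KK × KK × KK}
    (h : ev (mp (algebraMap KK F) u) s = ev (mp (algebraMap KK F) v) s) : u = v := by
  have h1 := congrArg σ h
  rw [(ev_sig' hQ u).1, (ev_sig' hQ v).1] at h1
  have h2 := congrArg (fun z => σ (σ z)) h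
  beta_reduce at h2
  rw [(ev_sig' hQ u).2, (ev_sig' hQ v).2] at h2
  have h3 := ev_inj (omF (F := F)) (by norm_num : (3 : F) ≠ 0) (s_ne hD hQ) h h1 h2
  have hinj := (algebraMap KK F).injective
  have e0 : algebraMap KK F u.1 = algebraMap KK F v.1 := congrArg (fun x => x.1) h3
  have e1 : algebraMap KK F u.2.1 = algebraMap KK F v.2.1 := congrArg (fun x => x.2.1) h3
  have e2 : algebraMap KK F u.2.2 = algebraMap KK F v.2.2 := congrArg (fun x => x.2.2) h3
  exact Prod.ext (hinj e0) (Prod.ext (hinj e1) (hinj e2))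

theorem exists_trip (z : F) : ∃ u : KK × KK × KK, z = ev (mp (algebraMap KK F) u) s := by
  let Φ : KK × KK × KK →ₗ[KK] F :=
    { toFun := fun u => ev (mp (algebraMap KK F) u) s
      map_add' := by
        intro u v
        simp only [ev, mp, Prod.fst_add, Prod.snd_add, map_add]
        ring
      map_smul' := by
        intro c u
        show algebraMap KK F (c * u.1) + algebraMap KK F (c * u.2.1) * s +
          algebraMap KK F (c * u.2.2) * s ^ 2 = c • (algebraMap KK F u.1 + algebraMap KK F u.2.1 * s +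
          algebraMap KK F u.2.2 * s ^ 2)
        rw [Algebra.smul_def, map_mul, map_mul, map_mul]
        ring }
  have hinj : Function.Injective Φ := fun u v h => Q1b_trip_inj hD hQ h
  have : Module.Finite KK F := Module.finite_of_finrank_eq_succ hQ.fr
  have hfr : Module.finrank KK (KK × KK × KK) = Module.finrank KK F := by
    rw [hQ.fr, Module.finrank_prod, Module.finrank_prod, Module.finrank_self]
  have hsurj := (LinearMap.injective_iff_surjective_of_finrank_eq_finrank hfr).1 hinj
  obtain ⟨u, hu⟩ := hsurj z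
  exact ⟨u, hu.symm⟩

theorem trip_inj {u v : KK × KK × KK} (h : ev (mp (algebraMap KK F) u) s = ev (mp (algebraMap KK F) v) s) : u = v :=
  Q1b_trip_inj hD hQ h

theorem sig_three (z : F) : σ (σ (σ z)) = z := by
  obtain ⟨u, rfl⟩ := exists_trip hD hQ z
  have h3 : (jK om) ^ 3 = 1 := by linear_combination (jK om - 1) * Q1b_omK
  rw [ev_sig hQ, ev_sig hQ, ev_sig hQ]
  have h4 : sgt (sgt (sgt u)) = u := by
    simp only [sgt]
    refine Prod.ext rfl (Prod.ext ?_ ?_)
    · show jK om * (jK om * (jK om * u.2.1)) = u.2.1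
      linear_combination u.2.1 * h3
    · show jK om ^ 2 * (jK om ^ 2 * (jK om ^ 2 * u.2.2)) = u.2.2
      linear_combination (jK om ^ 3 + 1) * u.2.2 * h3
  rw [h4]

/-- an element fixed by `σ` is in `KK` -/
theorem exists_of_fix3 {z : F} (h : σ z = z) : ∃ x : KK, z = algebraMap KK F x := by
  obtain ⟨u, rfl⟩ := exists_trip hD hQ z
  rw [ev_sig hQ] at h
  have h1 := Q1b_trip_inj hD hQ h
  have e1 : jK om * u.2.1 = u.2.1 := congrArg (fun x => x.2.1) h1
  have e2 : jK om ^ 2 * u.2.2 = u.2.2 := congrArg (fun x => x.2.2) h1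
  have ho := Q1b_omK
  have e3 : u.2.1 = 0 := by
    have : (3 : KK) * u.2.1 = 0 := by
      linear_combination (-(jK om) - 2) * e1 + u.2.1 * ho
    exact (mul_eq_zero.1 this).resolve_left (by norm_num)
  have e4 : u.2.2 = 0 := by
    have : (3 : KK) * u.2.2 = 0 := by
      linear_combination (jK om - 1) * e2 + (2 - jK om) * u.2.2 * ho
    exact (mul_eq_zero.1 this).resolve_left (by norm_num)
  refine ⟨u.1, ?_⟩
  simp only [ev, mp, e3, e4, map_zero, zero_mul, add_zero]

theorem norm3 (u : KK × KK × KK) :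
    ev (mp (algebraMap KK F) u) s * σ (ev (mp (algebraMap KK F) u) s) * σ (σ (ev (mp (algebraMap KK F) u) s)) =
      algebraMap KK F (nm (jK D) u) := by
  rw [(ev_sig' hQ u).2, (ev_sig' hQ u).1, nm_ev (omF (F := F)) hQ.cu, jF_apply, mp_nm]

theorem ev_mul (u v : KK × KK × KK) : ev (mp (algebraMap KK F) (mu (jK D) u v)) s =
    ev (mp (algebraMap KK F) u) s * ev (mp (algebraMap KK F) v) s := by
  rw [mp_mu]
  exact ev_mu hQ.cu _ _

theorem sqA_iff (u : KK × KK × KK) : SqA (jK D) u ↔ IsSquare (ev (mp (algebraMap KK F) u) s) := by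
  constructor
  · rintro ⟨g, rfl⟩
    exact ⟨_, ev_mul hD hQ g g⟩
  · rintro ⟨r, hr⟩
    obtain ⟨g, rfl⟩ := exists_trip hD hQ r
    refine ⟨g, Q1b_trip_inj hD hQ ?_⟩
    rw [hr, ev_mul hD hQ]

theorem nm_ne_iff (u : KK × KK × KK) : nm (jK D) u ≠ 0 ↔ ev (mp (algebraMap KK F) u) s ≠ 0 := by
  have h := norm3 hD hQ u
  constructor
  · intro h1 h2
    rw [h2, zero_mul, zero_mul] at h
    exact h1 ((map_eq_zero (algebraMap KK F)).1 h.symm)
  · intro h1 h2
    rw [h2, map_zero] at h
    have h3 : σ (ev (mp (algebraMap KK F) u) s) ≠ 0 := fun h' => h1 ((map_eq_zero σ).1 h')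
    have h4 : σ (σ (ev (mp (algebraMap KK F) u) s)) ≠ 0 := fun h' => h3 ((map_eq_zero σ).1 h')
    exact mul_ne_zero (mul_ne_zero h1 h3) h4 h

end

end JT
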