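import Pool.Agent.JT.P9

/-!
# [JT-R0] the class map through the power `u^63`; integrality at the place 2

`pw d n u`: the `n`-th power.
PROOF. `ev_pw`, `nm_pw`, `un_pw`, `mp_pw`, `t8_pw` (`t8_mu`) [R0a]: induction.
`cl_pow` [R0b]: `u^63 = u (u^31)²` (`mu_assoc`, `mu_comm`; or: `pw (m + n) = mu (pw m) (pw n)`), `u^31` is a unit. If `Cg v 2 (pw d 63 u) (1, 2 q₁, 2 q₂)` take `g = pw d 31 u`. Conversely: modulo 2, `u² ≡ (u₀², d u₂², u₁²)`, `u⁴ ≡ (u₀⁴, d u₁⁴, d² u₂⁴) ≡ (u₀, d u₁, d² u₂)` (`fourth`), `u^16 ≡ (u₀, d² u₁, d⁴ u₂)`, `u^64 ≡ (u₀, d³ u₁, d⁶ u₂) ≡ u` (`third`), so `u^63 ≡ 1 mod 2`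
(`cg_cancel`); `u^63 = 1 + 2 β'`, its norm is a square and `≡ 1 + 6 β'₀ mod 4`, `sq_one4`: `β'₀ ≡ 0 mod 2`: so `Cg v 2 (pw d 63 u) (1, 2 β'₁, 2 β'₂)`, `CL v d u β'₁ β'₂`, and `cl_unique`: `β'₁ ≡ q₁`, `β'₂ ≡ q₂ mod 2`.
`int_coef` [R0c] (⇒): `z` integral over `ℤ`, so are `σ z`, `σ² z` and `z + σ z + σ² z = 3 u₀`, `z + o² σ z + o σ² z = 3 u₁ s`, `z + o σ z + o² σ² z = 3 u₂ s²` (`coef_ev`, `ev_sig'`, `o = jF F om`), so `3 u₀`, `(3 u₁ s)³ = 27 u₁³ D`, `(3 u₂ s²)³ = 27 u₂³ D²` are integral elements of `KK`: all their valuations are `≤ 1`; `v 27 = 1`.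
 (⇐): the characteristic polynomial of `z`: `z³ - 3 u₀ z² + 3 (u₀² - D u₁ u₂) z - nm u = 0` (compute with `s³ = D`). Its coefficients are integral elements of `KK`: at a place `v'` with `v' 2 = 1` (`z0_two`) since `2^N z` is integral: the values at `v'` of `3 u₀`, of `27 u₁³ D`, `27 u₂³ D²` are `≤ 1` (the argument of (⇒) for `2^N z`)... more directly: the elementary symmetric functions of
 `2^N z`, `2^N σ z`, `2^N σ² z` are integral elements of `KK`: `2^N e₁`, `4^N e₂`, `8^N e₃`, so `v' e_i ≤ 1`. At the place over 2: `v u₀ ≤ 1`, `v (D u₁ u₂)³ = (v u₁ ^ 3 v D)(v u₂ ^ 3 v D ^ 2) ≤ 1`, `v (nm u) ≤ max (v u₀³, v (D u₁³), v (D² u₂³), v (u₀ D u₁ u₂)) ≤ 1`. An element of `KK` with all valuations `≤ 1` is in `𝓞 KK` (`HeightOneSpectrum.mem_integers_of_valuation_le_one`), and `z` is integral over `𝓞 KK`, so over `ℤ` (`isIntegral_trans`).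
-/

set_option autoImplicit false

open NumberField IsDedekindDomain
open scoped Classical

namespace JT

open CM27 CF JZ JD
open CU (la om eE)

/-- the power -/
def pw {C : Type} [Field C] (d : C) : ℕ → C × C × C → C × C × C
  | 0, _ => (1, 0, 0)
  | n + 1, u => mu d u (pw d n u)

section
variable {C : Type} [Field C]

/-- [R0a] -/
theorem ev_pw {d ρ : C} (h : ρ ^ 3 = d) (n : ℕ) (u : C × C × C) : ev (pw d n u) ρ = ev u ρ ^ n := by
  induction n with
  | zero => simp [pw, ev]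
  | succ n ih => rw [pw, ev_mu h, ih, pow_succ']

/-- [R0a] -/
theorem nm_pw (d : C) (n : ℕ) (u : C × C × C) : nm d (pw d n u) = nm d u ^ n := by
  induction n with
  | zero => simp [pw, nm]
  | succ n ih => rw [pw, nm_mu, ih, pow_succ']

/-- [R0a] -/
theorem pw_add (d : C) (m n : ℕ) (u : C × C × C) : pw d (m + n) u = mu d (pw d m u) (pw d n u) := by
  induction m with
  | zero =>
    rw [Nat.zero_add]
    simp [pw, mu]
  | succ m ih => rw [Nat.succ_add, pw, ih, pw, mu_assoc]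

/-- [R0a] -/
theorem mp_pw {L : Type} [Field L] (f : C →+* L) (d : C) (n : ℕ) (u : C × C × C) : mp f (pw d n u) = pw (f d) n (mp f u) := by
  induction n with
  | zero => simp [pw, mp]
  | succ n ih => rw [pw, mp_mu, ih, pw]

/-- [R0a] -/
theorem t8_pw [CharZero C] (d : C) (n : ℕ) (u : C × C × C) : t8 (pw (8 * d) n u) = pw d n (t8 u) := by
  induction n with
  | zero => simp [pw, t8]
  | succ n ih => rw [pw, t8_mu, ih, pw]

variable [CharZero C] {v : Valuation C (WithZero (Multiplicative ℤ))} {o : C} (h : Lc2 v o) {d : C}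

/-- [R0a] -/
theorem un_pw (hd : v d ≤ 1) {u : C × C × C} (hu : Un v d u) (n : ℕ) : Un v d (pw d n u) := by
  induction n with
  | zero => exact un_one
  | succ n ih => exact un_mu hd hu ih

theorem R0b_one (d : C) (w : C × C × C) : mu d w (1, 0, 0) = w := by
  obtain ⟨a, b, c⟩ := w
  simp only [mu, Prod.mk.injEq]
  refine ⟨?_, ?_, ?_⟩ <;> ring

omit [CharZero C] in
theorem R0b_quad (d : C) (n : ℕ) (u : C × C × C) :
    pw d (4 * n) u = mu d (mu d (pw d n u) (pw d n u)) (mu d (pw d n u) (pw d n u)) := by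
  have h1 : 4 * n = (n + n) + (n + n) := by ring
  rw [h1, pw_add, pw_add]

/-- the twist -/
def R0b_T (d : C) (w : C × C × C) : C × C × C := (w.1, d * w.2.1, d ^ 2 * w.2.2)

omit [CharZero C] in
theorem R0b_v2 {x y : C} (hx : v x ≤ 1) (hxy : y = 2 * x) : v y ≤ v 2 ^ 1 := by
  rw [hxy, map_mul, pow_one]
  exact mul_le_of_le_one_right' hx

omit [CharZero C] in
theorem R0b_Tcg (hd : v d ≤ 1) {a b : C × C × C} (hab : Cg v 1 a b) : Cg v 1 (R0b_T d a) (R0b_T d b) := by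
  obtain ⟨h1, h2, h3⟩ := hab
  refine ⟨h1, ?_, ?_⟩
  · change v (d * a.2.1 - d * b.2.1) ≤ _
    rw [← mul_sub, map_mul]
    exact (mul_le_of_le_one_left' hd).trans h2
  · change v (d ^ 2 * a.2.2 - d ^ 2 * b.2.2) ≤ _
    rw [← mul_sub, map_mul]
    refine (mul_le_of_le_one_left' ?_).trans h3
    rw [map_pow]
    exact pow_le_one' hd 2

omit [CharZero C] in
theorem R0b_sq (hd : v d ≤ 1) {w : C × C × C} (hw : In v w) :
    Cg v 1 (mu d w w) (w.1 ^ 2, d * w.2.2 ^ 2, w.2.1 ^ 2) := by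
  obtain ⟨h1, h2, h3⟩ := hw
  refine ⟨?_, ?_, ?_⟩
  · refine R0b_v2 (x := d * (w.2.1 * w.2.2)) ?_ ?_
    · rw [map_mul, map_mul]
      exact mul_le_one' hd (mul_le_one' h2 h3)
    · simp only [mu]
      ring
  · refine R0b_v2 (x := w.1 * w.2.1) ?_ ?_
    · rw [map_mul]
      exact mul_le_one' h1 h2
    · simp only [mu]
      ring
  · refine R0b_v2 (x := w.1 * w.2.2) ?_ ?_
    · rw [map_mul]
      exact mul_le_one' h1 h3
    · simp only [mu]
      ring

include h in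
theorem R0b_four (hd : v d ≤ 1) {w : C × C × C} (hw : In v w) :
    Cg v 1 (mu d (mu d w w) (mu d w w)) (R0b_T d w) := by
  have h1 := R0b_sq hd hw
  have hw' : In v (w.1 ^ 2, d * w.2.2 ^ 2, w.2.1 ^ 2) := by
    obtain ⟨a1, a2, a3⟩ := hw
    refine ⟨?_, ?_, ?_⟩
    · change v (w.1 ^ 2) ≤ 1
      rw [map_pow]; exact pow_le_one' a1 2
    · change v (d * w.2.2 ^ 2) ≤ 1
      rw [map_mul, map_pow]; exact mul_le_one' hd (pow_le_one' a3 2)
    · change v (w.2.1 ^ 2) ≤ 1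
      rw [map_pow]; exact pow_le_one' a2 2
  have hi := in_mu hd hw hw
  have h2 := cg_mu h hd h1 h1 hi hi
  have h3 := R0b_sq hd hw'
  refine cg_trans h2 (cg_trans h3 ?_)
  obtain ⟨a1, a2, a3⟩ := hw
  refine ⟨?_, ?_, ?_⟩
  · change v ((w.1 ^ 2) ^ 2 - w.1) ≤ _
    rw [pow_one, ← pow_mul]
    exact fourth h a1
  · change v (d * (w.2.1 ^ 2) ^ 2 - d * w.2.1) ≤ _
    rw [pow_one, ← pow_mul, ← mul_sub, map_mul]
    exact (mul_le_of_le_one_left' hd).trans (fourth h a2)
  · change v ((d * w.2.2 ^ 2) ^ 2 - d ^ 2 * w.2.2) ≤ _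
    have e : (d * w.2.2 ^ 2) ^ 2 - d ^ 2 * w.2.2 = d ^ 2 * (w.2.2 ^ 4 - w.2.2) := by ring
    rw [pow_one, e, map_mul]
    refine (mul_le_of_le_one_left' ?_).trans (fourth h a3)
    rw [map_pow]
    exact pow_le_one' hd 2

include h in
/-- `u ^ 64 ≡ u mod 2` -/
theorem R0b_64 (hd : v d = 1) {u : C × C × C} (hu : Un v d u) : Cg v 1 (pw d 64 u) u := by
  have hd' : v d ≤ 1 := hd.le
  have hin : ∀ n, In v (pw d n u) := fun n => (un_pw hd' hu n).1
  have e1 : pw d 1 u = u := R0b_one d u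
  have a1 : Cg v 1 (pw d 4 u) (R0b_T d u) := by
    have h1 := R0b_four h hd' (hin 1)
    rw [← R0b_quad, e1] at h1
    exact h1
  have a2 : Cg v 1 (pw d 16 u) (R0b_T d (pw d 4 u)) := by
    have h1 := R0b_four h hd' (hin 4)
    rw [← R0b_quad] at h1
    exact h1
  have a3 : Cg v 1 (pw d 64 u) (R0b_T d (pw d 16 u)) := by
    have h1 := R0b_four h hd' (hin 16)
    rw [← R0b_quad] at h1
    exact h1
  have h2 : Cg v 1 (pw d 64 u) (R0b_T d (R0b_T d (R0b_T d u))) :=
    cg_trans a3 (cg_trans (R0b_Tcg hd' a2) (R0b_Tcg hd' (R0b_Tcg hd' a1)))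
  refine cg_trans h2 ?_
  have h3 := third h hd
  obtain ⟨b1, b2, b3⟩ := hu.1
  refine ⟨?_, ?_, ?_⟩
  · change v (u.1 - u.1) ≤ _
    rw [sub_self, map_zero]
    exact zero_le
  · change v (d * (d * (d * u.2.1)) - u.2.1) ≤ _
    have e : d * (d * (d * u.2.1)) - u.2.1 = (d ^ 3 - 1) * u.2.1 := by ring
    rw [pow_one, e, map_mul]
    exact (mul_le_of_le_one_right' b2).trans h3
  · change v (d ^ 2 * (d ^ 2 * (d ^ 2 * u.2.2)) - u.2.2) ≤ _
    have e : d ^ 2 * (d ^ 2 * (d ^ 2 * u.2.2)) - u.2.2 = (d ^ 3 - 1) * ((d ^ 3 + 1) * u.2.2) := by ring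
    rw [pow_one, e, map_mul]
    refine (mul_le_of_le_one_right' ?_).trans h3
    rw [map_mul]
    refine mul_le_one' ?_ b3
    refine (Valuation.map_add v _ _).trans ?_
    rw [map_pow, map_one, max_le_iff]
    exact ⟨pow_le_one' hd' 3, le_rfl⟩

include h in
theorem R0b_rev (hd : v d ≤ 1) {u : C × C × C} (hu : Un v d u) {q₁ q₂ : C}
    (hc : Cg v 2 (pw d 63 u) (1, 2 * q₁, 2 * q₂)) : CL v d u q₁ q₂ := by
  refine ⟨pw d 31 u, un_pw hd hu 31, ?_⟩
  have e : mu d u (mu d (pw d 31 u) (pw d 31 u)) = pw d 63 u := by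
    rw [← pw_add]
    rfl
  rw [e]
  exact hc

include h in
/-- [R0b] -/
theorem cl_pow (hd : v d = 1) {u : C × C × C} (hu : Un v d u) (hs : IsSquare (nm d u)) {q₁ q₂ : C} (h1 : v q₁ ≤ 1) (h2 : v q₂ ≤ 1) :
    CL v d u q₁ q₂ ↔ Cg v 2 (pw d 63 u) (1, 2 * q₁, 2 * q₂) := by
  have hd' : v d ≤ 1 := hd.le
  refine ⟨fun hq => ?_, R0b_rev h hd' hu⟩
  obtain ⟨t1, t2⟩ := two_lt h
  have h20 : (2 : C) ≠ 0 := two_ne_zero
  have hP := un_pw hd' hu 63
  -- modulo `2`
  have hP1 : Cg v 1 (pw d 63 u) (1, 0, 0) := by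
    refine cg_cancel h hd' hu hP.1 (un_one (d := d)).1 ?_
    have e1 : mu d (pw d 63 u) u = pw d 64 u := by rw [mu_comm]; rfl
    have e2 : mu d (1, 0, 0) u = u := by rw [mu_comm, R0b_one]
    rw [e1, e2]
    exact R0b_64 h hd hu
  obtain ⟨c0, c1, c2⟩ := hP1
  rw [pow_one] at c0 c1 c2
  set P := pw d 63 u with hPdef
  change v (P.1 - 1) ≤ v 2 at c0
  change v (P.2.1 - 0) ≤ v 2 at c1
  change v (P.2.2 - 0) ≤ v 2 at c2
  rw [sub_zero] at c1 c2
  -- halves
  have half : ∀ x : C, v x ≤ v 2 → ∃ y : C, v y ≤ 1 ∧ x = 2 * y := by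
    intro x hx
    refine ⟨x / 2, ?_, by field_simp⟩
    rw [map_div₀]
    exact div_le_one_of_le₀ hx zero_le
  obtain ⟨b0, hb0, e0⟩ := half _ c0
  obtain ⟨b1, hb1, e1⟩ := half _ c1
  obtain ⟨b2, hb2, e2⟩ := half _ c2
  have hP0 : P.1 = 1 + 2 * b0 := by linear_combination e0
  -- the norm is a square
  have hsq : IsSquare (nm d P) := by
    rw [hPdef, nm_pw]
    exact hs.pow 63
  have hn1 : nm d P - 1 = 2 * (3 * b0 + 2 * (3 * b0 ^ 2 + 2 * b0 ^ 3 + 2 * d * b1 ^ 3 + 2 * d ^ 2 * b2 ^ 3 -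
      3 * d * (1 + 2 * b0) * b1 * b2)) := by
    simp only [nm]
    rw [hP0, e1, e2]
    ring
  have v2n : ∀ n : ℕ, v ((n : ℕ) : C) ≤ 1 := by
    intro n
    induction n with
    | zero => rw [Nat.cast_zero, map_zero]; exact zero_le
    | succ n ih =>
      rw [Nat.cast_succ]
      refine (Valuation.map_add v _ _).trans ?_
      rw [map_one, max_le_iff]
      exact ⟨ih, le_rfl⟩
  have v3 : v (3 : C) ≤ 1 := by exact_mod_cast v2n 3
  have v2' : v (2 : C) ≤ 1 := t1.le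
  have hE : v (3 * b0 ^ 2 + 2 * b0 ^ 3 + 2 * d * b1 ^ 3 + 2 * d ^ 2 * b2 ^ 3 - 3 * d * (1 + 2 * b0) * b1 * b2) ≤ 1 := by
    have ha : ∀ x y : C, v x ≤ 1 → v y ≤ 1 → v (x + y) ≤ 1 := fun x y hx hy =>
      (Valuation.map_add v _ _).trans (max_le hx hy)
    have hm : ∀ x y : C, v x ≤ 1 → v y ≤ 1 → v (x * y) ≤ 1 := fun x y hx hy => by
      rw [map_mul]; exact mul_le_one' hx hy
    have hp : ∀ (x : C) (n : ℕ), v x ≤ 1 → v (x ^ n) ≤ 1 := fun x n hx => by
      rw [map_pow]; exact pow_le_one' hx n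
    have hsb : ∀ x y : C, v x ≤ 1 → v y ≤ 1 → v (x - y) ≤ 1 := fun x y hx hy =>
      (Valuation.map_sub v _ _).trans (max_le hx hy)
    refine hsb _ _ (ha _ _ (ha _ _ (ha _ _ (hm _ _ v3 (hp _ _ hb0)) (hm _ _ v2' (hp _ _ hb0)))
      (hm _ _ (hm _ _ v2' hd') (hp _ _ hb1))) (hm _ _ (hm _ _ v2' (hp _ _ hd')) (hp _ _ hb2))) ?_
    exact hm _ _ (hm _ _ (hm _ _ (hm _ _ v3 hd') (ha _ _ (by rw [map_one]) (hm _ _ v2' hb0))) hb1) hb2
  set E := 3 * b0 ^ 2 + 2 * b0 ^ 3 + 2 * d * b1 ^ 3 + 2 * d ^ 2 * b2 ^ 3 - 3 * d * (1 + 2 * b0) * b1 * b2 with hEdef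
  have hn2 : v (nm d P - 1) ≤ v 2 := by
    rw [hn1, map_mul]
    refine mul_le_of_le_one_right' ?_
    refine (Valuation.map_add v _ _).trans (max_le ?_ ?_)
    · rw [map_mul]; exact mul_le_one' v3 hb0
    · rw [map_mul]; exact mul_le_one' v2' hE
  have hn3 := sq_one4 h hsq hn2
  -- `b0` is even
  have hb02 : v b0 ≤ v 2 := by
    have h4 : v (3 * b0 + 2 * E) ≤ v 2 := by
      rw [hn1, map_mul, pow_two] at hn3
      exact (mul_le_mul_iff_right₀ (zero_lt_iff.2 t2)).1 hn3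
    have h5 : v (3 * b0) ≤ v 2 := by
      have e : 3 * b0 = (3 * b0 + 2 * E) - 2 * E := by ring
      rw [e]
      refine (Valuation.map_sub v _ _).trans (max_le h4 ?_)
      rw [map_mul]
      exact mul_le_of_le_one_right' hE
    rw [map_mul, (v_o h).2.1, one_mul] at h5
    exact h5
  have hc2 : Cg v 2 P (1, 2 * b1, 2 * b2) := by
    refine ⟨?_, ?_, ?_⟩
    · change v (P.1 - 1) ≤ _
      rw [e0, map_mul, pow_two]
      exact mul_le_mul_right hb02 _
    · change v (P.2.1 - 2 * b1) ≤ _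
      rw [e1, sub_self, map_zero]
      exact zero_le
    · change v (P.2.2 - 2 * b2) ≤ _
      rw [e2, sub_self, map_zero]
      exact zero_le
  have hq' := R0b_rev h hd' hu hc2
  obtain ⟨d1, d2⟩ := cl_unique h hd hu hb1 hb2 h1 h2 hq' hq
  refine cg_trans hc2 ⟨?_, ?_, ?_⟩
  · change v (1 - 1) ≤ _
    rw [sub_self, map_zero]
    exact zero_le
  · change v (2 * b1 - 2 * q₁) ≤ _
    rw [← mul_sub, map_mul, pow_two]
    exact mul_le_mul_right d1 _
  · change v (2 * b2 - 2 * q₂) ≤ _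
    rw [← mul_sub, map_mul, pow_two]
    exact mul_le_mul_right d2 _

end

section
variable {D : Eis} {F : Type} [Field F] [NumberField F] [Algebra KK F] {s : F} {σ : F ≃ₐ[KK] F}

theorem R0c_cm {M : Type*} [CommMonoid M] (A B C : M) : (A * B * C) ^ 3 = (B ^ 3 * A) * (C ^ 3 * A ^ 2) := by
  rw [mul_pow, mul_pow, pow_succ' A 2]
  simp only [mul_assoc, mul_comm, mul_left_comm]

theorem R0c_val {x : KK} (hx : IsIntegral ℤ x) (w : HeightOneSpectrum (𝓞 KK)) : w.valuation KK x ≤ 1 := by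
  have h := HeightOneSpectrum.valuation_le_one (K := KK) w (IsIntegralClosure.mk' (𝓞 KK) x hx)
  have e : algebraMap (𝓞 KK) KK (IsIntegralClosure.mk' (𝓞 KK) x hx) = x := IsIntegralClosure.algebraMap_mk' (𝓞 KK) x hx
  rw [← e]
  exact h

theorem R0c_val' {x : KK} (hx : IsIntegral ℤ (algebraMap KK F x)) (w : HeightOneSpectrum (𝓞 KK)) : w.valuation KK x ≤ 1 :=
  R0c_val ((isIntegral_algebraMap_iff (algebraMap KK F).injective).1 hx) w

theorem R0c_int {x : KK} (hx : ∀ w : HeightOneSpectrum (𝓞 KK), w.valuation KK x ≤ 1) : IsIntegral ℤ (algebraMap KK F x) := by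
  obtain ⟨y, hy⟩ := HeightOneSpectrum.mem_integers_of_valuation_le_one KK x hx
  rw [← hy]
  exact ((NumberField.RingOfIntegers.isIntegral_coe y).map (algebraMap KK F).toIntAlgHom)

theorem R0c_cubic {z a b c : F} (ha : IsIntegral ℤ a) (hb : IsIntegral ℤ b) (hc : IsIntegral ℤ c)
    (h : z ^ 3 - a * z ^ 2 + b * z - c = 0) : IsIntegral ℤ z := by
  have hz : IsIntegral (integralClosure ℤ F) z := by
    refine ⟨Polynomial.X ^ 3 - Polynomial.C (⟨a, ha⟩ : integralClosure ℤ F) * Polynomial.X ^ 2 +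
      Polynomial.C (⟨b, hb⟩ : integralClosure ℤ F) * Polynomial.X - Polynomial.C (⟨c, hc⟩ : integralClosure ℤ F), ?_, ?_⟩
    · monicity!
    · simp only [Polynomial.eval₂_add, Polynomial.eval₂_sub, Polynomial.eval₂_mul, Polynomial.eval₂_pow, Polynomial.eval₂_X,
        Polynomial.eval₂_C]
      exact h
  exact isIntegral_trans z hz

theorem R0c_e2 {C : Type} [Field C] {d o ρ : C} (ho : o ^ 2 + o + 1 = 0) (hρ : ρ ^ 3 = d) (u : C × C × C) :
    ev u ρ * ev u (o * ρ) + ev u ρ * ev u (o ^ 2 * ρ) + ev u (o * ρ) * ev u (o ^ 2 * ρ) = 3 * (u.1 ^ 2 - d * u.2.1 * u.2.2) := by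
  have ho3 : o ^ 3 = 1 := by linear_combination (o - 1) * ho
  have e2 : ev u (o ^ 2 * ρ) = u.1 + u.2.1 * (o ^ 2 * ρ) + u.2.2 * (o * ρ ^ 2) := by
    simp only [ev]
    linear_combination u.2.2 * ρ ^ 2 * o * ho3
  rw [e2]
  simp only [ev]
  linear_combination (2 * u.1 * u.2.1 * ρ + 2 * u.1 * u.2.2 * ρ ^ 2 + u.2.1 ^ 2 * ρ ^ 2 * o + u.2.2 ^ 2 * ρ ^ 4 * o) * ho
    + u.2.1 * u.2.2 * ρ ^ 3 * 3 * ho + u.2.1 * u.2.2 * ρ ^ 3 * o * (o - 1) * ho - 3 * u.2.1 * u.2.2 * hρ

/-- [R0c] -/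
theorem int_coef (hD : D ≠ 0) (hQ : Cub D s σ) {v : HeightOneSpectrum (𝓞 KK)} (h2 : v.valuation KK 2 < 1) {u : KK × KK × KK} {N : ℕ}
    (hN : IsIntegral ℤ (2 ^ N * ev (mp (algebraMap KK F) u) s)) :
    IsIntegral ℤ (ev (mp (algebraMap KK F) u) s) ↔ v.valuation KK u.1 ≤ 1 ∧ v.valuation KK u.2.1 ^ 3 * v.valuation KK (jK D) ≤ 1 ∧
      v.valuation KK u.2.2 ^ 3 * v.valuation KK (jK D) ^ 2 ≤ 1 := by
  have hunit : ∀ k : ℕ, v.valuation KK (1 + 2 * (k : KK)) = 1 := by
    intro k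
    have hk : v.valuation KK (2 * (k : KK)) < 1 := by
      rw [map_mul]
      have h1 : v.valuation KK (k : KK) ≤ 1 := by
        have h3 := HeightOneSpectrum.valuation_le_one (K := KK) v ((k : 𝓞 KK))
        have e : algebraMap (𝓞 KK) KK (k : 𝓞 KK) = (k : KK) := map_natCast (algebraMap (𝓞 KK) KK) k
        rw [← e]
        exact h3
      exact mul_lt_one_of_lt_of_le h2 h1
    exact Valuation.map_one_add_of_lt _ hk
  have v3 : v.valuation KK 3 = 1 := by
    have := hunit 1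
    norm_num at this
    exact this
  have v27 : v.valuation KK 27 = 1 := by
    have := hunit 13
    norm_num at this
    exact this
  obtain ⟨es1, es2⟩ := ev_sig' hQ u
  have ho := omF (F := F)
  have hoi : IsIntegral ℤ (jF F om) := R0c_int fun w => HeightOneSpectrum.valuation_le_one w (eE om)
  have hcu : s ^ 3 = algebraMap KK F (jK D) := hQ.cu
  obtain ⟨c1, c2, c3⟩ := coef_ev (ρ := s) ho (mp (algebraMap KK F) u)
  have ce2 := R0c_e2 ho hcu (mp (algebraMap KK F) u)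
  have ce3 := norm3 hD hQ u
  rw [es2, es1] at ce3
  constructor
  · intro hz
    have hz1 : IsIntegral ℤ (ev (mp (algebraMap KK F) u) (jF F om * s)) := by
      rw [← es1]
      exact hz.map (σ.toAlgHom.restrictScalars ℤ)
    have hz2 : IsIntegral ℤ (ev (mp (algebraMap KK F) u) (jF F om ^ 2 * s)) := by
      rw [← es2]
      exact (hz.map (σ.toAlgHom.restrictScalars ℤ)).map (σ.toAlgHom.restrictScalars ℤ)
    refine ⟨?_, ?_, ?_⟩
    · have h1 : IsIntegral ℤ (algebraMap KK F (3 * u.1)) := by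
        have e : algebraMap KK F (3 * u.1) = 3 * (mp (algebraMap KK F) u).1 := by
          simp only [mp, map_mul, map_ofNat]
        rw [e, ← c1]
        exact (hz.add hz1).add hz2
      have h3 := R0c_val' h1 v
      rwa [map_mul, v3, one_mul] at h3
    · have h1 : IsIntegral ℤ (algebraMap KK F (27 * (u.2.1 ^ 3 * jK D))) := by
        have e : algebraMap KK F (27 * (u.2.1 ^ 3 * jK D)) = (3 * (mp (algebraMap KK F) u).2.1 * s) ^ 3 := by
          simp only [mp, map_mul, map_ofNat, map_pow]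
          rw [← hcu]
          ring
        rw [e, ← c2]
        exact ((hz.add ((hoi.pow 2).mul hz1)).add (hoi.mul hz2)).pow 3
      have h3 := R0c_val' h1 v
      rwa [map_mul, v27, one_mul, map_mul, map_pow] at h3
    · have h1 : IsIntegral ℤ (algebraMap KK F (27 * (u.2.2 ^ 3 * jK D ^ 2))) := by
        have e : algebraMap KK F (27 * (u.2.2 ^ 3 * jK D ^ 2)) = (3 * (mp (algebraMap KK F) u).2.2 * s ^ 2) ^ 3 := by
          simp only [mp, map_mul, map_ofNat, map_pow]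
          rw [← hcu]
          ring
        rw [e, ← c3]
        exact ((hz.add (hoi.mul hz1)).add ((hoi.pow 2).mul hz2)).pow 3
      have h3 := R0c_val' h1 v
      rwa [map_mul, v27, one_mul, map_mul, map_pow, map_pow] at h3
  · rintro ⟨k0, k1, k2⟩
    have hN1 : IsIntegral ℤ (2 ^ N * ev (mp (algebraMap KK F) u) (jF F om * s)) := by
      have := hN.map (σ.toAlgHom.restrictScalars ℤ)
      have e : (σ.toAlgHom.restrictScalars ℤ) (2 ^ N * ev (mp (algebraMap KK F) u) s) = 2 ^ N * ev (mp (algebraMap KK F) u) (jF F om * s) := by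
        show σ (2 ^ N * ev (mp (algebraMap KK F) u) s) = _
        rw [map_mul, map_pow, map_ofNat, es1]
      rwa [e] at this
    have hN2 : IsIntegral ℤ (2 ^ N * ev (mp (algebraMap KK F) u) (jF F om ^ 2 * s)) := by
      have := (hN.map (σ.toAlgHom.restrictScalars ℤ)).map (σ.toAlgHom.restrictScalars ℤ)
      have e : (σ.toAlgHom.restrictScalars ℤ) ((σ.toAlgHom.restrictScalars ℤ) (2 ^ N * ev (mp (algebraMap KK F) u) s)) =
          2 ^ N * ev (mp (algebraMap KK F) u) (jF F om ^ 2 * s) := by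
        show σ (σ (2 ^ N * ev (mp (algebraMap KK F) u) s)) = _
        rw [map_mul, map_pow, map_ofNat, map_mul, map_pow, map_ofNat, es2]
      rwa [e] at this
    have hDu : v.valuation KK (jK D * u.2.1 * u.2.2) ≤ 1 := by
      have e : v.valuation KK (jK D * u.2.1 * u.2.2) ^ 3 =
          (v.valuation KK u.2.1 ^ 3 * v.valuation KK (jK D)) * (v.valuation KK u.2.2 ^ 3 * v.valuation KK (jK D) ^ 2) := by
        rw [map_mul, map_mul]
        exact R0c_cm _ _ _
      have h3 : v.valuation KK (jK D * u.2.1 * u.2.2) ^ 3 ≤ 1 := by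
        rw [e]
        exact mul_le_one' k1 k2
      exact (pow_le_one_iff (by norm_num)).1 h3
    have key : ∀ (x : KK) (k : ℕ), v.valuation KK x ≤ 1 → IsIntegral ℤ (algebraMap KK F (2 ^ k * x)) → IsIntegral ℤ (algebraMap KK F x) := by
      intro x k hx hk
      refine R0c_int fun w => ?_
      rcases z0_two w with hw | hw
      · rw [place2_unique h2 hw]
        exact hx
      · have h3 := R0c_val' hk w
        rwa [map_mul, map_pow, hw, one_pow, one_mul] at h3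
    have i1 : IsIntegral ℤ (algebraMap KK F (3 * u.1)) := by
      refine key _ N ?_ ?_
      · rw [map_mul, v3, one_mul]
        exact k0
      · have e : algebraMap KK F (2 ^ N * (3 * u.1)) = 2 ^ N * ev (mp (algebraMap KK F) u) s + 2 ^ N * ev (mp (algebraMap KK F) u) (jF F om * s) +
            2 ^ N * ev (mp (algebraMap KK F) u) (jF F om ^ 2 * s) := by
          have e' : algebraMap KK F (2 ^ N * (3 * u.1)) = 2 ^ N * (3 * (mp (algebraMap KK F) u).1) := by
            simp only [mp, map_mul, map_ofNat, map_pow]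
          rw [e', ← c1]
          ring
        rw [e]
        exact (hN.add hN1).add hN2
    have i2 : IsIntegral ℤ (algebraMap KK F (3 * (u.1 ^ 2 - jK D * u.2.1 * u.2.2))) := by
      refine key _ (2 * N) ?_ ?_
      · rw [map_mul, v3, one_mul]
        refine (Valuation.map_sub _ _ _).trans (max_le ?_ hDu)
        rw [map_pow]
        exact pow_le_one' k0 2
      · have e : algebraMap KK F (2 ^ (2 * N) * (3 * (u.1 ^ 2 - jK D * u.2.1 * u.2.2))) =
            (2 ^ N * ev (mp (algebraMap KK F) u) s) * (2 ^ N * ev (mp (algebraMap KK F) u) (jF F om * s)) +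
            (2 ^ N * ev (mp (algebraMap KK F) u) s) * (2 ^ N * ev (mp (algebraMap KK F) u) (jF F om ^ 2 * s)) +
            (2 ^ N * ev (mp (algebraMap KK F) u) (jF F om * s)) * (2 ^ N * ev (mp (algebraMap KK F) u) (jF F om ^ 2 * s)) := by
          have e' : algebraMap KK F (2 ^ (2 * N) * (3 * (u.1 ^ 2 - jK D * u.2.1 * u.2.2))) =
              2 ^ (2 * N) * (3 * ((mp (algebraMap KK F) u).1 ^ 2 - algebraMap KK F (jK D) * (mp (algebraMap KK F) u).2.1 * (mp (algebraMap KK F) u).2.2)) := by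
            simp only [mp, map_mul, map_ofNat, map_pow, map_sub]
          rw [e', ← ce2, two_mul, pow_add]
          ring
        rw [e]
        exact ((hN.mul hN1).add (hN.mul hN2)).add (hN1.mul hN2)
    have i3 : IsIntegral ℤ (algebraMap KK F (nm (jK D) u)) := by
      refine key _ (3 * N) ?_ ?_
      · have e : nm (jK D) u = u.1 ^ 3 + jK D * u.2.1 ^ 3 + jK D ^ 2 * u.2.2 ^ 3 - 3 * u.1 * (jK D * u.2.1 * u.2.2) := by
          simp only [nm]
          ring
        rw [e]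
        refine (Valuation.map_sub _ _ _).trans (max_le ((Valuation.map_add _ _ _).trans (max_le ((Valuation.map_add _ _ _).trans (max_le ?_ ?_)) ?_)) ?_)
        · rw [map_pow]
          exact pow_le_one' k0 3
        · rw [map_mul, map_pow, mul_comm]
          exact k1
        · rw [map_mul, map_pow, map_pow, mul_comm]
          exact k2
        · rw [map_mul, map_mul, v3, one_mul]
          exact mul_le_one' k0 hDu
      · have e : algebraMap KK F (2 ^ (3 * N) * nm (jK D) u) =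
            (2 ^ N * ev (mp (algebraMap KK F) u) s) * (2 ^ N * ev (mp (algebraMap KK F) u) (jF F om * s)) *
            (2 ^ N * ev (mp (algebraMap KK F) u) (jF F om ^ 2 * s)) := by
          rw [map_mul, map_pow, map_ofNat, ← ce3, show 3 * N = N + N + N by ring, pow_add, pow_add]
          ring
        rw [e]
        exact (hN.mul hN1).mul hN2
    refine R0c_cubic i1 i2 i3 ?_
    have e1 : algebraMap KK F (3 * u.1) = ev (mp (algebraMap KK F) u) s + ev (mp (algebraMap KK F) u) (jF F om * s) +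
        ev (mp (algebraMap KK F) u) (jF F om ^ 2 * s) := by
      rw [c1]
      simp only [mp, map_mul, map_ofNat]
    have e2 : algebraMap KK F (3 * (u.1 ^ 2 - jK D * u.2.1 * u.2.2)) =
        ev (mp (algebraMap KK F) u) s * ev (mp (algebraMap KK F) u) (jF F om * s) +
        ev (mp (algebraMap KK F) u) s * ev (mp (algebraMap KK F) u) (jF F om ^ 2 * s) +
        ev (mp (algebraMap KK F) u) (jF F om * s) * ev (mp (algebraMap KK F) u) (jF F om ^ 2 * s) := by
      rw [ce2]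
      simp only [mp, map_mul, map_ofNat, map_pow, map_sub]
    rw [e1, e2, ← ce3]
    ring

end

end JT
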