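import Pool.Agent.JT.R0

/-!
# [JT-R1] the condition `On2` and the local condition at the place 2

`On2F` is `On2` (JT/UC.lean) with `F` in place of `ℂ`. `v` is the place of `KK` over 2, `C` the completion, `d` the image of `D`, `U = mp u` the image of the triple `u` (norm 1, `z = ev u s` integral).

PROOF. `two_unique`: compare the exponents of the prime `2` of `Eis`. So only the alternative of `On2F` with the right `k = v₂(D)` can hold (first alternative: `8 ^ m = 2 ^ (3 m)`).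
All integrality statements are translated by `int_coef`: the triple of `z^63` is `pw (jK D) 63 u` (`ev_pw`, `mp_pw`), `4 (..)` is integral (`N = 2`), and `v (w₁)³ v(D) ≤ 1` for `v D = exp (-k)` means: `k = 0, 1, 2`: `v w₁ ≤ 1` (integer exponents: `3 a ≤ k` iff `a ≤ 0`); `k = 3, 4, 5`: `v (2 w₁) ≤ 1`; `v (w₂)³ v(D)² ≤ 1`: `k = 0, 1`: `v w₂ ≤ 1`; `k = 2`: `v (2 w₂) ≤ 1`; `k = 3, 4`: `v (4 w₂) ≤ 1`;
`k = 5`: `3 a ≤ 10`, `a ≤ 3`: `v (8 w₂) ≤ 1`. So `z` is integral iff `4 z` (any `2^N z`) is and the coordinates `U`, `t8 U` (`k = 3, 4`), `n4 D' U` (`k = 2`), `n4 D' (t8 U)` (`k = 5`) are integral. (`valuedAdicCompletion_eq_valuation'`.)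
`on2_0` [R1a]: `k = 0`: `exists_unit4`: `D ≡ e (1 + 2 f) mod 4`. `U` is a unit. (⇒) `z^63 ≡ 1 + 2 (q₁ s + q₂ s²) mod 4`: `Cg v 2 (pw d 63 U) (1, 2 q₁, 2 q₂)`, `cl_pow`: `CL v d U q₁ q₂`; `W2` gives `e', d', a'` with `4 ∣ D - e' (1 + 2 d')`, `e' ≠ 0` as `2 ∤ D`, so (for the local elements `e', d'` in place of `e, f`) `lam_iff` and `locU`: `LocA`.
 (⇐) `cl_exists`: `CL v d U q₁ q₂`, `cl_pow`, `locU`, `lam_iff`: `a`; let `d', a ∈ Eis` be in `R4` with `f ≡ d' mod 2` (`res`), so `4 ∣ D - e (1 + 2 d')` (`val2_le`), and take `q₁' = a d'`, `q₂' = a² (d' + e)` in `Eis` (`cl_congr`).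
`on2_3` [R1b]: `k = 3`: `D = 8 D'`, `s/2`; `t8 (pw (8 d') 63 U) = pw d' 63 (t8 U)` (`t8_pw`), `W2 1`: `2 ∣ q₂`; `e = o` or `o²` by `Cl2.two3` (`exists_zeta`). (⇒) `conv8`, (⇐) `cl_exists` for `t8 U`, `approx2` for `q₁, q₂`, `dir8`.
`on2_R` [R1c]: `k = 2, 4, 5`, `N U` (= `n4 d' U`, `t8 U`, `n4 d' (t8 U)`) is a unit with respect to `δ = 2 d'²`, `2 d'`, `2 d'²` (`n4_mu`, `n4_nm`, `t8_mu`, `t8_nm`), `v δ = v 2`. `(z³ - 1)³/4` integral iff `N` of it is integral, i. e. `x³/4` for `x = (N U)³ - 1`. `x₀ ≡ (N U)₀³ - 1 ≡ 0 mod 2` (`third`), `x₁ ≡ (N U)₀² (N U)₁ mod 2` (`3 ≡ 1`, all the other terms contain `δ`).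
 If `(N U)₁ ≡ 0 mod 2`: `x = Π² y`, `y = (x₂, x₀/δ, x₁/δ)` integral, `x³ = δ² y³`, `x³/4` integral. Otherwise `v (nm δ x) = v δ` (the term `δ x₁³` dominates), the norm of `x³/4` is `nm(x)³/64`, of valuation `exp (-3 + 6) > 1`: not integral. So integrality is `Rc v (N U) 0`; `convB4`, `dirB4`, `convB16`, .. (`h2` for `k = 2` from `Cl2.two2` and `approx2`).
`on2_1` [R1d]: `k = 1`. (⇒) `c = ev γ s`, the triple `γ` is integral at `v` (`int_coef`), `Cg v 2 (mu d U (mu d γ γ)) (1 + a³ D, a, 0)`; the norm of the right side is `≡ 1 mod 2`, so `nm γ ^ 2` is a unit (`cg_nm`), `γ` is a unit: `convC`. (⇐) `dirC`: `g`, `a`; `approx2`: `γ ∈ Eis³` with `γ ≡ g mod 4`; `c = ev (jK γ) s` is integral, `Cg v 2` by `cg_mu`.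
`on2F_iff` [R1e]: `exists_k`, `exists_place2`, `place2_unique`.
-/

set_option autoImplicit false

open NumberField IsDedekindDomain
open scoped Classical

namespace JT

open CM27 CF JZ JD
open CU (la om eE)

/-- `On2` with `F` in place of `ℂ` -/
def On2F (D : Eis) {F : Type} [Field F] [Algebra KK F] (s u : F) : Prop :=
  (∃ (m : ℕ) (D' q₁ q₂ : Eis), m ≤ 1 ∧ D = 8 ^ m * D' ∧ ¬ (2 : Eis) ∣ D' ∧ W2 m D' q₁ q₂ ∧
    IsIntegral ℤ ((u ^ 63 - 1 - 2 * (jF F q₁ * (s / 2 ^ m) + jF F q₂ * (s / 2 ^ m) ^ 2)) / 4)) ∨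
  (∃ (k : ℕ) (D' : Eis), (k = 2 ∨ k = 4 ∨ k = 5) ∧ D = 2 ^ k * D' ∧ ¬ (2 : Eis) ∣ D' ∧ IsIntegral ℤ ((u ^ 3 - 1) ^ 3 / 4)) ∨
  (∃ D' : Eis, D = 2 * D' ∧ ¬ (2 : Eis) ∣ D' ∧ ∃ (a : Eis) (c : F), R4 a ∧ IsIntegral ℤ c ∧
    IsIntegral ℤ ((u * c ^ 2 - 1 - jF F a * s - jF F (a ^ 3 * D)) / 4))

section
variable {C : Type} [Field C] {v : Valuation C (WithZero (Multiplicative ℤ))}

theorem R1a_mul {x y : C} (hx : v x ≤ 1) (hy : v y ≤ 1) : v (x * y) ≤ 1 := by
  rw [map_mul]
  exact mul_le_one' hx hy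

theorem R1a_mulr {x y : C} {γ : WithZero (Multiplicative ℤ)} (hx : v x ≤ γ) (hy : v y ≤ 1) : v (x * y) ≤ γ := by
  rw [map_mul]
  calc v x * v y ≤ γ * 1 := mul_le_mul' hx hy
    _ = γ := mul_one γ

theorem R1a_two {x : C} (hx : v x ≤ v 2) : v (2 * x) ≤ v 2 ^ 2 := by
  rw [map_mul, sq]
  exact mul_le_mul' le_rfl hx

theorem R1a_addr {x y : C} {γ : WithZero (Multiplicative ℤ)} (hx : v x ≤ γ) (hy : v y ≤ γ) : v (x + y) ≤ γ :=
  (Valuation.map_add _ _ _).trans (max_le hx hy)

end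

theorem R1a_cz (v : HeightOneSpectrum (𝓞 KK)) : CharZero (v.adicCompletion KK) :=
  charZero_of_injective_algebraMap (algebraMap KK (v.adicCompletion KK)).injective

theorem R1a_v2 (v : HeightOneSpectrum (𝓞 KK)) :
    (Valued.v (2 : v.adicCompletion KK) : WithZero (Multiplicative ℤ)) = v.valuation KK 2 := by
  have e : algebraMap KK (v.adicCompletion KK) 2 = 2 := map_ofNat _ 2
  have h := HeightOneSpectrum.valuedAdicCompletion_eq_valuation' v (2 : KK)
  rw [← e]
  exact h
theorem R1a_val (v : HeightOneSpectrum (𝓞 KK)) (x : KK) :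
    Valued.v (algebraMap KK (v.adicCompletion KK) x) = v.valuation KK x :=
  HeightOneSpectrum.valuedAdicCompletion_eq_valuation' v x

/-- [R1e] -/
theorem two_unique {k l : ℕ} {a b : Eis} (ha : ¬ (2 : Eis) ∣ a) (hb : ¬ (2 : Eis) ∣ b) (h : 2 ^ k * a = 2 ^ l * b) : k = l ∧ a = b := by
  have : IsDomain Eis := eis_isDomain
  have h20 : (2 : Eis) ≠ 0 := by
    intro h0
    have h1 : emb (2 : Eis) = emb 0 := by rw [h0]
    rw [map_ofNat, map_zero] at h1
    exact two_ne_zero h1
  rcases lt_trichotomy k l with hkl | hkl | hkl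
  · exfalso
    obtain ⟨m, rfl⟩ := Nat.exists_eq_add_of_lt hkl
    apply ha
    have h1 : 2 ^ k * a = 2 ^ k * (2 * (2 ^ m * b)) := by rw [h]; ring
    exact ⟨_, mul_left_cancel₀ (pow_ne_zero k h20) h1⟩
  · subst hkl
    exact ⟨rfl, mul_left_cancel₀ (pow_ne_zero k h20) h⟩
  · exfalso
    obtain ⟨m, rfl⟩ := Nat.exists_eq_add_of_lt hkl
    apply hb
    have h1 : 2 ^ l * b = 2 ^ l * (2 * (2 ^ m * a)) := by rw [← h]; ring
    exact ⟨_, mul_left_cancel₀ (pow_ne_zero l h20) h1⟩

/-- auxiliary for [R1d] -/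
theorem r1d_one (x : WithZero (Multiplicative ℤ)) : x ^ 3 * WithZero.exp (-1 : ℤ) ≤ 1 ↔ x ≤ 1 := by
  rcases eq_or_ne x 0 with rfl | hx
  · simp
  · obtain ⟨k, rfl⟩ : ∃ k : ℤ, x = WithZero.exp k := ⟨WithZero.log x, (WithZero.exp_log hx).symm⟩
    rw [← WithZero.exp_nsmul, ← WithZero.exp_add, ← WithZero.exp_zero, WithZero.exp_le_exp, WithZero.exp_le_exp]
    simp only [nsmul_eq_mul, Nat.cast_ofNat]
    omega

/-- auxiliary for [R1d] -/
theorem r1d_two (x : WithZero (Multiplicative ℤ)) : x ^ 3 * WithZero.exp (-1 : ℤ) ^ 2 ≤ 1 ↔ x ≤ 1 := by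
  rcases eq_or_ne x 0 with rfl | hx
  · simp
  · obtain ⟨k, rfl⟩ : ∃ k : ℤ, x = WithZero.exp k := ⟨WithZero.log x, (WithZero.exp_log hx).symm⟩
    rw [← WithZero.exp_nsmul, ← WithZero.exp_nsmul, ← WithZero.exp_add, ← WithZero.exp_zero, WithZero.exp_le_exp,
      WithZero.exp_le_exp]
    simp only [nsmul_eq_mul, Nat.cast_ofNat]
    omega

/-- auxiliary for [R1d] -/
theorem r1d_sq {x : WithZero (Multiplicative ℤ)} (h : x ^ 2 = 1) : x = 1 := by
  have hx : x ≠ 0 := by rintro rfl; simp at h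
  obtain ⟨k, rfl⟩ : ∃ k : ℤ, x = WithZero.exp k := ⟨WithZero.log x, (WithZero.exp_log hx).symm⟩
  rw [← WithZero.exp_nsmul, ← WithZero.exp_zero, WithZero.exp_inj] at h
  simp only [nsmul_eq_mul, Nat.cast_ofNat] at h
  rw [show k = 0 by omega, WithZero.exp_zero]

/-! ### [R1c] auxiliary lemmas -/

section
variable {C : Type} [Field C] [CharZero C] {v : Valuation C (WithZero (Multiplicative ℤ))} {o : C}

/-- the triple minus `1` -/
def r1c_m (a : C × C × C) : C × C × C := (a.1 - 1, a.2.1, a.2.2)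

/-- a quarter of the triple -/
noncomputable def r1c_q (a : C × C × C) : C × C × C := (a.1 / 4, a.2.1 / 4, a.2.2 / 4)

/-- `(u³ - 1)³/4` -/
noncomputable def r1c_w (d : C) (u : C × C × C) : C × C × C :=
  r1c_q (mu d (r1c_m (mu d u (mu d u u))) (mu d (r1c_m (mu d u (mu d u u))) (r1c_m (mu d u (mu d u u)))))

theorem r1c_ev {d ρ : C} (h : ρ ^ 3 = d) (u : C × C × C) : ev (r1c_w d u) ρ = (ev u ρ ^ 3 - 1) ^ 3 / 4 := by
  have hm : ∀ a : C × C × C, ev (r1c_m a) ρ = ev a ρ - 1 := fun a => by simp only [ev, r1c_m]; ring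
  have hq : ∀ a : C × C × C, ev (r1c_q a) ρ = ev a ρ / 4 := fun a => by simp only [ev, r1c_q]; ring
  unfold r1c_w
  rw [hq, ev_mu h, ev_mu h, hm, ev_mu h, ev_mu h]
  ring

theorem r1c_local (h : Lc2 v o) {δ : C} (hδ : v δ = v 2) {P : C × C × C} (hP : Un v δ P) :
    In v (r1c_w δ P) ↔ Rc v P 0 := by
  have h2 := (two_lt h).1
  have h20 := (two_lt h).2
  have hδ0 : δ ≠ 0 := by
    rintro rfl
    rw [map_zero] at hδ
    exact h20 hδ.symm
  obtain ⟨p0, p1, p2⟩ := P
  have hp0 : v p0 = 1 := (unR_iff h hδ hP.1).1 hP.2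
  have i0 : p0 ∈ v.integer := hP.1.1
  have i1 : p1 ∈ v.integer := hP.1.2.1
  have i2 : p2 ∈ v.integer := hP.1.2.2
  have iδ : δ ∈ v.integer := (hδ.trans_lt h2).le
  have i3 : (3 : C) ∈ v.integer := (v_o h).2.1.le
  have ii2 : (2 : C) ∈ v.integer := h2.le
  have key : ∀ {x y : C}, v x ≤ v 2 → y ∈ v.integer → v (x * y) ≤ v 2 := by
    intro x y hx hy
    rw [map_mul]
    exact (mul_le_of_le_one_right' hy).trans hx
  have hX : ∃ X0 X1 X2 : C, r1c_m (mu δ (p0, p1, p2) (mu δ (p0, p1, p2) (p0, p1, p2))) = (X0, X1, X2) ∧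
      v X0 ≤ v 2 ∧ v (X1 - 3 * p0 ^ 2 * p1) ≤ v 2 ∧ X2 ∈ v.integer := by
    refine ⟨(p0 ^ 3 - 1) + δ * (p1 ^ 3 + δ * p2 ^ 3 + 3 * (2 * p0 * p1 * p2)),
      3 * p0 ^ 2 * p1 + δ * (3 * p0 * p2 ^ 2 + 3 * p1 ^ 2 * p2),
      3 * (p0 ^ 2 * p2 + p0 * p1 ^ 2 + δ * p1 * p2 ^ 2), ?_, ?_, ?_, ?_⟩
    · simp only [r1c_m, mu]
      refine Prod.ext ?_ (Prod.ext ?_ ?_)
      · simp only
        ring
      · simp only
        ring
      · simp only
        ring
    · refine Valuation.map_add_le v (third h hp0) (key hδ.le ?_)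
      exact add_mem (add_mem (pow_mem i1 3) (mul_mem iδ (pow_mem i2 3)))
        (mul_mem i3 (mul_mem (mul_mem (mul_mem ii2 i0) i1) i2))
    · rw [add_sub_cancel_left]
      exact key hδ.le (add_mem (mul_mem (mul_mem i3 i0) (pow_mem i2 2)) (mul_mem (mul_mem i3 (pow_mem i1 2)) i2))
    · exact mul_mem i3 (add_mem (add_mem (mul_mem (pow_mem i0 2) i2) (mul_mem i0 (pow_mem i1 2)))
        (mul_mem (mul_mem iδ i1) (pow_mem i2 2)))
  obtain ⟨X0, X1, X2, hX, hX0, hX1, hX2⟩ := hX
  have iX0 : X0 ∈ v.integer := hX0.trans h2.le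
  have iX1 : X1 ∈ v.integer := by
    have e1 : X1 = (X1 - 3 * p0 ^ 2 * p1) + 3 * p0 ^ 2 * p1 := by ring
    rw [e1]
    exact add_mem (show _ ∈ v.integer from hX1.trans h2.le) (mul_mem (mul_mem i3 (pow_mem i0 2)) i1)
  have e0 : r1c_w δ (p0, p1, p2) = r1c_q (mu δ (X0, X1, X2) (mu δ (X0, X1, X2) (X0, X1, X2))) := by
    unfold r1c_w
    rw [hX]
  have hv3 : v (3 * p0 ^ 2 * p1) = v p1 := by
    rw [map_mul, map_mul, map_pow, (v_o h).2.1, hp0, one_pow, one_mul, one_mul]
  have hRc : Rc v (p0, p1, p2) 0 ↔ v p1 ≤ v 2 := by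
    show v (p1 - 0 * p0) ≤ v 2 ↔ _
    rw [zero_mul, sub_zero]
  rw [hRc, e0]
  constructor
  · -- integrality implies `v p1 ≤ v 2`
    intro hi
    by_contra hcon
    have hp1 : v p1 = 1 := by
      rcases lt_or_eq_of_le (show v p1 ≤ 1 from i1) with h5 | h5
      · exact absurd ((lt_iff2 h p1).1 h5) hcon
      · exact h5
    have hX1' : v X1 = 1 := by
      have e1 : X1 = (3 * p0 ^ 2 * p1) + (X1 - 3 * p0 ^ 2 * p1) := by ring
      rw [e1, Valuation.map_add_eq_of_lt_left v, hv3, hp1]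
      rw [hv3, hp1]
      exact hX1.trans_lt h2
    -- the norm
    have hnX : v (nm δ (X0, X1, X2)) = v 2 := by
      have e1 : nm δ (X0, X1, X2) = δ * X1 ^ 3 + (X0 ^ 3 + δ ^ 2 * X2 ^ 3 - 3 * δ * X0 * X1 * X2) := by
        simp only [nm]
        ring
      have h5 : v (δ * X1 ^ 3) = v 2 := by rw [map_mul, map_pow, hX1', one_pow, mul_one, hδ]
      have key2 : ∀ {x y z : C}, v x ≤ v 2 → v y ≤ v 2 → z ∈ v.integer → v (x * y * z) ≤ v 2 * v 2 := by
        intro x y z hx hy hz
        rw [map_mul, map_mul]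
        exact (mul_le_of_le_one_right' hz).trans (mul_le_mul' hx hy)
      have h6 : v (X0 ^ 3 + δ ^ 2 * X2 ^ 3 - 3 * δ * X0 * X1 * X2) ≤ v 2 * v 2 := by
        have e2 : X0 ^ 3 + δ ^ 2 * X2 ^ 3 - 3 * δ * X0 * X1 * X2 =
            X0 * X0 * X0 + δ * δ * X2 ^ 3 - δ * X0 * (3 * X1 * X2) := by ring
        rw [e2]
        refine Valuation.map_sub_le v (Valuation.map_add_le v (key2 hX0 hX0 iX0) (key2 hδ.le hδ.le (pow_mem hX2 3)))
          (key2 hδ.le hX0 (mul_mem (mul_mem i3 iX1) hX2))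
      have h7 : v (2 : C) * v 2 < v 2 := mul_lt_of_lt_one_right (zero_lt_iff.2 h20) h2
      rw [e1, Valuation.map_add_eq_of_lt_left v (by rw [h5]; exact h6.trans_lt h7), h5]
    have h5 : nm δ (r1c_q (mu δ (X0, X1, X2) (mu δ (X0, X1, X2) (X0, X1, X2)))) = nm δ (X0, X1, X2) ^ 3 / 4 ^ 3 := by
      have hq : ∀ a : C × C × C, nm δ (r1c_q a) = nm δ a / 4 ^ 3 := fun a => by
        simp only [nm, r1c_q]
        ring
      rw [hq, nm_mu, nm_mu]
      ring
    have h6 := nm_le (show v δ ≤ 1 from iδ) hi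
    rw [h5, map_div₀, map_pow, hnX, map_pow] at h6
    have h7 : v (4 : C) = v 2 * v 2 := by
      rw [← map_mul]
      norm_num
    have h8 : v (4 : C) < v 2 := by
      rw [h7]
      exact mul_lt_of_lt_one_right (zero_lt_iff.2 h20) h2
    have h9 : v (4 : C) ^ 3 < v 2 ^ 3 := pow_lt_pow_left₀ h8 zero_le (by norm_num)
    have h10 : v (4 : C) ^ 3 ≠ 0 := by
      rw [h7]
      exact pow_ne_zero 3 (mul_ne_zero h20 h20)
    rw [div_le_one₀ (zero_lt_iff.2 h10)] at h6
    exact absurd h6 (not_le.2 h9)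
  · -- `v p1 ≤ v 2` implies integrality
    intro hp1
    have hX1' : v X1 ≤ v 2 := by
      have e1 : X1 = (3 * p0 ^ 2 * p1) + (X1 - 3 * p0 ^ 2 * p1) := by ring
      rw [e1]
      exact Valuation.map_add_le v (by rw [hv3]; exact hp1) hX1
    have hdiv : ∀ {x : C}, v x ≤ v 2 → x / δ ∈ v.integer := by
      intro x hx
      show v (x / δ) ≤ 1
      rw [map_div₀, hδ]
      exact div_le_one_of_le₀ hx zero_le
    have iY : In v (X2, X0 / δ, X1 / δ) := ⟨hX2, hdiv hX0, hdiv hX1'⟩
    have iδ4 : δ ^ 2 / 4 ∈ v.integer := by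
      show v (δ ^ 2 / 4) ≤ 1
      have h7 : v (4 : C) = v 2 * v 2 := by
        rw [← map_mul]
        norm_num
      rw [map_div₀, map_pow, h7, hδ, pow_two]
      exact div_le_one_of_le₀ le_rfl zero_le
    have iY3 := in_mu (show v δ ≤ 1 from iδ) iY (in_mu (show v δ ≤ 1 from iδ) iY iY)
    have e1 : r1c_q (mu δ (X0, X1, X2) (mu δ (X0, X1, X2) (X0, X1, X2))) =
        (δ ^ 2 / 4 * (mu δ (X2, X0 / δ, X1 / δ) (mu δ (X2, X0 / δ, X1 / δ) (X2, X0 / δ, X1 / δ))).1,
          δ ^ 2 / 4 * (mu δ (X2, X0 / δ, X1 / δ) (mu δ (X2, X0 / δ, X1 / δ) (X2, X0 / δ, X1 / δ))).2.1,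
          δ ^ 2 / 4 * (mu δ (X2, X0 / δ, X1 / δ) (mu δ (X2, X0 / δ, X1 / δ) (X2, X0 / δ, X1 / δ))).2.2) := by
      simp only [r1c_q, mu]
      refine Prod.ext ?_ (Prod.ext ?_ ?_)
      · simp only
        field_simp
        ring
      · simp only
        field_simp
        ring
      · simp only
        field_simp
        ring
    rw [e1]
    exact ⟨mul_mem iδ4 iY3.1, mul_mem iδ4 iY3.2.1, mul_mem iδ4 iY3.2.2⟩

end

theorem r1c_exp0 {x : WithZero (Multiplicative ℤ)} (hx : x ≠ 0) : ∃ n : ℤ, x = WithZero.exp n :=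
  ⟨WithZero.log x, (WithZero.exp_log hx).symm⟩

theorem r1c_exp {x : WithZero (Multiplicative ℤ)} {m n : ℕ} (h1 : 3 * n ≤ m) (h2 : m < 3 * n + 3) :
    x ^ 3 * WithZero.exp (-(m : ℤ)) ≤ 1 ↔ WithZero.exp (-(n : ℤ)) * x ≤ 1 := by
  by_cases hx : x = 0
  · rw [hx]
    simp
  · obtain ⟨i, hi⟩ := r1c_exp0 hx
    have e1 : x ^ 3 = WithZero.exp (3 * i) := by
      rw [hi, ← WithZero.exp_nsmul]
      congr 1
    rw [e1, hi, ← WithZero.exp_add, ← WithZero.exp_add, ← WithZero.exp_zero, WithZero.exp_le_exp, WithZero.exp_le_exp]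
    omega

section
variable {D : Eis} {F : Type} [Field F] [NumberField F] [Algebra KK F] {s : F} {σ : F ≃ₐ[KK] F}

/-- integrality of `ev w / 4` -/
theorem R1a_int (hD0 : D ≠ 0) (hQ : Cub D s σ) {v : HeightOneSpectrum (𝓞 KK)} (h2 : v.valuation KK 2 < 1) {w : KK × KK × KK} {x : F} {N : ℕ}
    (hx : ev (mp (algebraMap KK F) w) s = x) (hN : IsIntegral ℤ (2 ^ N * (x / 4))) :
    IsIntegral ℤ (x / 4) ↔ v.valuation KK w.1 ≤ v.valuation KK 2 ^ 2 ∧
      v.valuation KK w.2.1 ^ 3 * v.valuation KK (jK D) ≤ (v.valuation KK 2 ^ 2) ^ 3 ∧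
      v.valuation KK w.2.2 ^ 3 * v.valuation KK (jK D) ^ 2 ≤ (v.valuation KK 2 ^ 2) ^ 3 := by
  have e : ev (mp (algebraMap KK F) ((w.1 / 4, w.2.1 / 4, w.2.2 / 4) : KK × KK × KK)) s = x / 4 := by
    rw [← hx]
    simp only [ev, mp, map_div₀, map_ofNat]
    ring
  have h20 : v.valuation KK 2 ≠ 0 := (Valuation.ne_zero_iff _).2 two_ne_zero
  have h40 : v.valuation KK 2 ^ 2 ≠ 0 := pow_ne_zero 2 h20
  have h4 : v.valuation KK 4 = v.valuation KK 2 ^ 2 := by
    rw [← map_pow]
    norm_num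
  have hdiv : ∀ (a : WithZero (Multiplicative ℤ)) (y : KK), (v.valuation KK (y / 4) ^ 3 * a ≤ 1 ↔
      v.valuation KK y ^ 3 * a ≤ (v.valuation KK 2 ^ 2) ^ 3) := by
    intro a y
    have h3 : (v.valuation KK 2 ^ 2) ^ 3 ≠ 0 := pow_ne_zero 3 h40
    rw [map_div₀, h4, div_pow, div_mul_eq_mul_div, div_le_one₀ (zero_lt_iff.2 h3)]
  rw [← e] at hN ⊢
  rw [int_coef hD0 hQ h2 hN]
  refine and_congr ?_ (and_congr (hdiv _ _) (hdiv _ _))
  show v.valuation KK (w.1 / 4) ≤ 1 ↔ _
  rw [map_div₀, h4, div_le_one₀ (zero_lt_iff.2 h40)]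

theorem R1a_s (hQ : Cub D s σ) : IsIntegral ℤ s := by
  refine IsIntegral.of_pow (n := 3) (by norm_num) ?_
  rw [hQ.cu]
  exact R0c_int fun w => HeightOneSpectrum.valuation_le_one w (eE D)

theorem R1a_jF (a : Eis) : IsIntegral ℤ (jF F a) :=
  R0c_int fun w => HeightOneSpectrum.valuation_le_one w (eE a)

/-- the triple of `z ^ 63 - 1 - ..` -/
theorem R1a_ev (hQ : Cub D s σ) (u : KK × KK × KK) (a b : KK) :
    ev (mp (algebraMap KK F) (((pw (jK D) 63 u).1 - 1, (pw (jK D) 63 u).2.1 - a, (pw (jK D) 63 u).2.2 - b) : KK × KK × KK)) s =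
      ev (mp (algebraMap KK F) u) s ^ 63 - 1 - (algebraMap KK F a * s + algebraMap KK F b * s ^ 2) := by
  have hcu : s ^ 3 = algebraMap KK F (jK D) := hQ.cu
  have e1 := ev_pw hcu 63 (mp (algebraMap KK F) u)
  rw [← mp_pw] at e1
  rw [← e1]
  simp only [ev, mp, map_sub, map_one]
  ring

/-- the translation to the uniformizer of the local algebra -/
theorem r1c_gen (hD : Cl2 D) (hQ : Cub D s σ) {v : HeightOneSpectrum (𝓞 KK)} (h2 : v.valuation KK 2 < 1) {u : KK × KK × KK}
    (hn : nm (jK D) u = 1) (hi : IsIntegral ℤ (ev (mp (algebraMap KK F) u) s))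
    {N : v.adicCompletion KK × v.adicCompletion KK × v.adicCompletion KK →
      v.adicCompletion KK × v.adicCompletion KK × v.adicCompletion KK} {δ : v.adicCompletion KK}
    (hδ : Valued.v δ = (Valued.v (2 : v.adicCompletion KK) : WithZero (Multiplicative ℤ)))
    (hmu : ∀ a b, N (mu (algebraMap KK (v.adicCompletion KK) (jK D)) a b) = mu δ (N a) (N b))
    (hnm : ∀ a, nm δ (N a) = nm (algebraMap KK (v.adicCompletion KK) (jK D)) a)
    (hm : ∀ a, N (r1c_m a) = r1c_m (N a)) (hq : ∀ a, N (r1c_q a) = r1c_q (N a))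
    (hint : ∀ a : v.adicCompletion KK × v.adicCompletion KK × v.adicCompletion KK,
      (Valued.v a.1 ≤ (1 : WithZero (Multiplicative ℤ)) ∧
        Valued.v a.2.1 ^ 3 * Valued.v (algebraMap KK (v.adicCompletion KK) (jK D)) ≤ (1 : WithZero (Multiplicative ℤ)) ∧
        Valued.v a.2.2 ^ 3 * Valued.v (algebraMap KK (v.adicCompletion KK) (jK D)) ^ 2 ≤ (1 : WithZero (Multiplicative ℤ))) ↔
      In (Valued.v : Valuation (v.adicCompletion KK) (WithZero (Multiplicative ℤ))) (N a)) :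
    Un (Valued.v : Valuation (v.adicCompletion KK) (WithZero (Multiplicative ℤ))) δ (N (mp (algebraMap KK (v.adicCompletion KK)) u)) ∧
    (IsIntegral ℤ ((ev (mp (algebraMap KK F) u) s ^ 3 - 1) ^ 3 / 4) ↔
      Rc (Valued.v : Valuation (v.adicCompletion KK) (WithZero (Multiplicative ℤ))) (N (mp (algebraMap KK (v.adicCompletion KK)) u)) 0) := by
  have hD0 : D ≠ 0 := by
    rintro rfl
    exact hD.ncube ⟨0, by ring⟩
  have hs : s ^ 3 = algebraMap KK F (jK D) := hQ.cu
  have hval : ∀ x : KK, (Valued.v (algebraMap KK (v.adicCompletion KK) x) : WithZero (Multiplicative ℤ)) = v.valuation KK x :=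
    fun x => HeightOneSpectrum.valuedAdicCompletion_eq_valuation' v x
  have key : ∀ (w : KK × KK × KK), (v.valuation KK w.1 ≤ 1 ∧ v.valuation KK w.2.1 ^ 3 * v.valuation KK (jK D) ≤ 1 ∧
      v.valuation KK w.2.2 ^ 3 * v.valuation KK (jK D) ^ 2 ≤ 1) ↔
      In (Valued.v : Valuation (v.adicCompletion KK) (WithZero (Multiplicative ℤ))) (N (mp (algebraMap KK (v.adicCompletion KK)) w)) := by
    intro w
    rw [← hint]
    simp only [mp, hval]
  have hU : Un (Valued.v : Valuation (v.adicCompletion KK) (WithZero (Multiplicative ℤ))) δ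
      (N (mp (algebraMap KK (v.adicCompletion KK)) u)) := by
    refine ⟨?_, ?_⟩
    · rw [← key u]
      exact (int_coef hD0 hQ h2 (N := 0) (by rw [pow_zero, one_mul]; exact hi)).1 hi
    · rw [hnm, mp_nm, hn, map_one, map_one]
  refine ⟨hU, ?_⟩
  -- the triple of the quotient
  have hmp : ∀ {L : Type} [Field L] (f : KK →+* L) (a : KK × KK × KK), mp f (r1c_m a) = r1c_m (mp f a) := by
    intro L _ f a
    simp only [mp, r1c_m, map_sub, map_one]
  have hqp : ∀ {L : Type} [Field L] (f : KK →+* L) (a : KK × KK × KK), mp f (r1c_q a) = r1c_q (mp f a) := by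
    intro L _ f a
    simp only [mp, r1c_q, map_div₀, map_ofNat]
  have hw : ∀ {L : Type} [Field L] (f : KK →+* L), mp f (r1c_w (jK D) u) = r1c_w (f (jK D)) (mp f u) := by
    intro L _ f
    unfold r1c_w
    simp only [hqp, mp_mu, hmp]
  have e1 : (ev (mp (algebraMap KK F) u) s ^ 3 - 1) ^ 3 / 4 = ev (mp (algebraMap KK F) (r1c_w (jK D) u)) s := by
    rw [hw, r1c_ev hs]
  have e2 : N (mp (algebraMap KK (v.adicCompletion KK)) (r1c_w (jK D) u)) =
      r1c_w δ (N (mp (algebraMap KK (v.adicCompletion KK)) u)) := by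
    rw [hw]
    unfold r1c_w
    simp only [hq, hmu, hm]
  have hint2 : IsIntegral ℤ (2 ^ 2 * ev (mp (algebraMap KK F) (r1c_w (jK D) u)) s) := by
    rw [← e1]
    have e3 : (2 : F) ^ 2 * ((ev (mp (algebraMap KK F) u) s ^ 3 - 1) ^ 3 / 4) = (ev (mp (algebraMap KK F) u) s ^ 3 - 1) ^ 3 := by
      ring
    rw [e3]
    exact ((hi.pow 3).sub isIntegral_one).pow 3
  have hC : CharZero (v.adicCompletion KK) :=
    charZero_of_injective_algebraMap (algebraMap KK (v.adicCompletion KK)).injective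
  rw [e1, int_coef hD0 hQ h2 hint2, key, e2]
  exact r1c_local (lc2_of_place h2) hδ hU

end

section
variable {D : Eis} {F : Type} [Field F] [NumberField F] [Algebra KK F] {s : F} {σ : F ≃ₐ[KK] F}
  (hD : Cl2 D) (hQ : Cub D s σ) {v : HeightOneSpectrum (𝓞 KK)} (h2 : v.valuation KK 2 < 1) {u : KK × KK × KK}
  (hn : nm (jK D) u = 1) (hi : IsIntegral ℤ (ev (mp (algebraMap KK F) u) s))
include hD hQ h2 hn hi

/-- [R1a] -/
theorem on2_0 (hk : ¬ (2 : Eis) ∣ D) : (∃ q₁ q₂ : Eis, W2 0 D q₁ q₂ ∧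
    IsIntegral ℤ ((ev (mp (algebraMap KK F) u) s ^ 63 - 1 - 2 * (jF F q₁ * s + jF F q₂ * s ^ 2)) / 4)) ↔
    LocA (algebraMap KK (v.adicCompletion KK) (jK D)) (mp (algebraMap KK (v.adicCompletion KK)) u) := by
  have hcz := R1a_cz v
  have hD0 : D ≠ 0 := cl2_ne hD
  have h := lc2_of_place h2
  have hd : Valued.v (algebraMap KK (v.adicCompletion KK) (jK D)) = (1 : WithZero (Multiplicative ℤ)) := val2_one h2 hk
  have hdv : v.valuation KK (jK D) = 1 := by rw [← R1a_val, hd]
  have h20 : v.valuation KK 2 ≠ 0 := (Valuation.ne_zero_iff _).2 two_ne_zero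
  have hv2 := R1a_v2 v
  have hV2 : (Valued.v (2 : v.adicCompletion KK) : WithZero (Multiplicative ℤ)) < 1 := by
    rw [hv2]
    exact h2
  have hnm : nm (algebraMap KK (v.adicCompletion KK) (jK D)) (mp (algebraMap KK (v.adicCompletion KK)) u) = 1 := by
    rw [mp_nm, hn, map_one]
  have hU : Un (Valued.v : Valuation (v.adicCompletion KK) (WithZero (Multiplicative ℤ))) (algebraMap KK (v.adicCompletion KK) (jK D))
      (mp (algebraMap KK (v.adicCompletion KK)) u) := by
    have h3 := (int_coef hD0 hQ h2 (N := 0) (u := u) (by rw [pow_zero, one_mul]; exact hi)).1 hi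
    rw [hdv, one_pow, mul_one, mul_one] at h3
    refine ⟨⟨?_, ?_, ?_⟩, ?_⟩
    · show Valued.v (algebraMap KK (v.adicCompletion KK) u.1) ≤ (1 : WithZero (Multiplicative ℤ))
      rw [R1a_val]
      exact h3.1
    · show Valued.v (algebraMap KK (v.adicCompletion KK) u.2.1) ≤ (1 : WithZero (Multiplicative ℤ))
      rw [R1a_val]
      exact (pow_le_one_iff (by norm_num)).1 h3.2.1
    · show Valued.v (algebraMap KK (v.adicCompletion KK) u.2.2) ≤ (1 : WithZero (Multiplicative ℤ))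
      rw [R1a_val]
      exact (pow_le_one_iff (by norm_num)).1 h3.2.2
    · rw [hnm, map_one]
  have hs : IsSquare (nm (algebraMap KK (v.adicCompletion KK) (jK D)) (mp (algebraMap KK (v.adicCompletion KK)) u)) := by
    rw [hnm]
    exact ⟨1, by ring⟩
  have hint : ∀ a : Eis, Valued.v (algebraMap KK (v.adicCompletion KK) (jK a)) ≤ (1 : WithZero (Multiplicative ℤ)) := by
    intro a
    rw [R1a_val]
    exact HeightOneSpectrum.valuation_le_one v (eE a)
  -- translation
  have key : ∀ q₁ q₂ : Eis,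
      (IsIntegral ℤ ((ev (mp (algebraMap KK F) u) s ^ 63 - 1 - 2 * (jF F q₁ * s + jF F q₂ * s ^ 2)) / 4) ↔
      CL (Valued.v : Valuation (v.adicCompletion KK) (WithZero (Multiplicative ℤ))) (algebraMap KK (v.adicCompletion KK) (jK D))
        (mp (algebraMap KK (v.adicCompletion KK)) u) (algebraMap KK (v.adicCompletion KK) (jK q₁)) (algebraMap KK (v.adicCompletion KK) (jK q₂))) := by
    intro q₁ q₂
    rw [cl_pow h hd hU hs (hint q₁) (hint q₂)]
    have e := R1a_ev hQ u (2 * jK q₁) (2 * jK q₂)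
    have e' : ev (mp (algebraMap KK F) u) s ^ 63 - 1 - 2 * (jF F q₁ * s + jF F q₂ * s ^ 2) =
        ev (mp (algebraMap KK F) u) s ^ 63 - 1 - (algebraMap KK F (2 * jK q₁) * s + algebraMap KK F (2 * jK q₂) * s ^ 2) := by
      rw [map_mul, map_mul, map_ofNat, jF_apply, jF_apply]
      ring
    rw [← e'] at e
    rw [R1a_int hD0 hQ h2 e (N := 2) (by
      have e3 : (2 : F) ^ 2 * ((ev (mp (algebraMap KK F) u) s ^ 63 - 1 - 2 * (jF F q₁ * s + jF F q₂ * s ^ 2)) / 4) =
          ev (mp (algebraMap KK F) u) s ^ 63 - 1 - 2 * (jF F q₁ * s + jF F q₂ * s ^ 2) := by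
        ring
      rw [e3]
      have i2 : IsIntegral ℤ (2 : F) := by
        have := isIntegral_algebraMap (R := ℤ) (A := F) (x := 2)
        simpa using this
      exact (((hi.pow 63).sub isIntegral_one).sub (i2.mul (((R1a_jF q₁).mul (R1a_s hQ)).add ((R1a_jF q₂).mul ((R1a_s hQ).pow 2))))))]
    rw [hdv, one_pow, mul_one, mul_one, pow_le_pow_iff_left₀ bot_le bot_le (by norm_num), pow_le_pow_iff_left₀ bot_le bot_le (by norm_num)]
    rw [← mp_pw]
    unfold Cg
    rw [hv2]
    refine and_congr ?_ (and_congr ?_ ?_)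
    · show _ ↔ Valued.v (algebraMap KK (v.adicCompletion KK) (pw (jK D) 63 u).1 - 1) ≤ _
      rw [← R1a_val, map_sub, map_one]
    · show _ ↔ Valued.v (algebraMap KK (v.adicCompletion KK) (pw (jK D) 63 u).2.1 - 2 * algebraMap KK (v.adicCompletion KK) (jK q₁)) ≤ _
      rw [← R1a_val, map_sub, map_mul, map_ofNat]
    · show _ ↔ Valued.v (algebraMap KK (v.adicCompletion KK) (pw (jK D) 63 u).2.2 - 2 * algebraMap KK (v.adicCompletion KK) (jK q₂)) ≤ _
      rw [← R1a_val, map_sub, map_mul, map_ofNat]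
  have v2 : ∀ a : Eis, (2 : Eis) ∣ a → Valued.v (algebraMap KK (v.adicCompletion KK) (jK a)) ≤
      (Valued.v (2 : v.adicCompletion KK) : WithZero (Multiplicative ℤ)) := by
    intro a ha
    have := (val2_le h2 a 1).2 (by rw [pow_one]; exact ha)
    rwa [pow_one] at this
  constructor
  · rintro ⟨q₁, q₂, hW, hq⟩
    rw [key] at hq
    rcases hW with ⟨-, e, d', a, he, hd', ha, h4, hq1, hq2⟩ | ⟨h01, -⟩
    · have he' : algebraMap KK (v.adicCompletion KK) (jK e) = 1 ∨ algebraMap KK (v.adicCompletion KK) (jK e) = algebraMap KK (v.adicCompletion KK) (jK om) ∨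
          algebraMap KK (v.adicCompletion KK) (jK e) = algebraMap KK (v.adicCompletion KK) (jK om) ^ 2 := by
        rcases he with rfl | rfl | rfl | rfl
        · exfalso
          apply hk
          rw [zero_mul, sub_zero] at h4
          exact (show (2 : Eis) ∣ 4 from ⟨2, by norm_num⟩).trans h4
        · left
          rw [map_one, map_one]
        · right
          left
          rfl
        · right
          right
          rw [map_pow, map_pow]
      have ha' : algebraMap KK (v.adicCompletion KK) (jK a) = 0 ∨ algebraMap KK (v.adicCompletion KK) (jK a) = 1 ∨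
          algebraMap KK (v.adicCompletion KK) (jK a) = algebraMap KK (v.adicCompletion KK) (jK om) ∨
          algebraMap KK (v.adicCompletion KK) (jK a) = algebraMap KK (v.adicCompletion KK) (jK om) ^ 2 := by
        rcases ha with rfl | rfl | rfl | rfl
        · left
          rw [map_zero, map_zero]
        · right
          left
          rw [map_one, map_one]
        · right
          right
          left
          rfl
        · right
          right
          right
          rw [map_pow, map_pow]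
      have hde : Valued.v (algebraMap KK (v.adicCompletion KK) (jK D) - algebraMap KK (v.adicCompletion KK) (jK e) *
          (1 + 2 * algebraMap KK (v.adicCompletion KK) (jK d'))) ≤ (Valued.v (2 : v.adicCompletion KK) : WithZero (Multiplicative ℤ)) ^ 2 := by
        have h3 := (val2_le h2 (D - e * (1 + 2 * d')) 2).2 (by
          have : (2 : Eis) ^ 2 = 4 := by norm_num
          rw [this]
          exact h4)
        simpa only [map_sub, map_mul, map_add, map_one, map_ofNat] using h3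
      refine (locU h hd he' (hint d') hde hU hs (hint q₁) (hint q₂) hq).2 ?_
      refine (lam_iff h he' (hint d') (hint q₁) (hint q₂)).2 ⟨_, ha', ?_, ?_⟩
      · have := v2 _ hq1
        simpa only [map_sub, map_mul] using this
      · have := v2 _ hq2
        simpa only [map_sub, map_mul, map_add, map_pow] using this
    · exact absurd h01 (by norm_num)
  · intro hl
    obtain ⟨q₁, q₂, h1, h1', hq⟩ := cl_exists h hd hU hs
    obtain ⟨e, f, he3, he, hf, hef⟩ := exists_unit4 h hd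
    have hde : Valued.v (algebraMap KK (v.adicCompletion KK) (jK D) - e * (1 + 2 * f)) ≤
        (Valued.v (2 : v.adicCompletion KK) : WithZero (Multiplicative ℤ)) ^ 2 := by
      rw [← hef, sub_self, map_zero]
      exact bot_le
    have h3 := (locU h hd he hf hde hU hs h1 h1' hq).1 hl
    obtain ⟨a, ha, ha1, ha2⟩ := (lam_iff h he hf h1 h1').1 h3
    obtain ⟨e', he', hee⟩ : ∃ e' : Eis, R4 e' ∧ e = algebraMap KK (v.adicCompletion KK) (jK e') := by
      rcases he with rfl | rfl | rfl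
      · exact ⟨1, Or.inr (Or.inl rfl), by rw [map_one, map_one]⟩
      · exact ⟨om, Or.inr (Or.inr (Or.inl rfl)), rfl⟩
      · exact ⟨om ^ 2, Or.inr (Or.inr (Or.inr rfl)), by rw [map_pow, map_pow]⟩
    obtain ⟨a', ha', haa⟩ : ∃ a' : Eis, R4 a' ∧ a = algebraMap KK (v.adicCompletion KK) (jK a') := by
      rcases ha with rfl | rfl | rfl | rfl
      · exact ⟨0, Or.inl rfl, by rw [map_zero, map_zero]⟩
      · exact ⟨1, Or.inr (Or.inl rfl), by rw [map_one, map_one]⟩
      · exact ⟨om, Or.inr (Or.inr (Or.inl rfl)), rfl⟩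
      · exact ⟨om ^ 2, Or.inr (Or.inr (Or.inr rfl)), by rw [map_pow, map_pow]⟩
    obtain ⟨d', hd', hdd⟩ : ∃ d' : Eis, R4 d' ∧ Valued.v (f - algebraMap KK (v.adicCompletion KK) (jK d')) ≤
        (Valued.v (2 : v.adicCompletion KK) : WithZero (Multiplicative ℤ)) := by
      rcases h.res f hf with h5 | h5 | h5 | h5
      · exact ⟨0, Or.inl rfl, by rw [map_zero, map_zero, sub_zero]; exact h5⟩
      · exact ⟨1, Or.inr (Or.inl rfl), by rw [map_one, map_one]; exact h5⟩
      · exact ⟨om, Or.inr (Or.inr (Or.inl rfl)), h5⟩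
      · exact ⟨om ^ 2, Or.inr (Or.inr (Or.inr rfl)), by rw [map_pow, map_pow]; exact h5⟩
    have hei : Valued.v e ≤ (1 : WithZero (Multiplicative ℤ)) := by
      rw [hee]
      exact hint e'
    have hai : Valued.v a ≤ (1 : WithZero (Multiplicative ℤ)) := by
      rw [haa]
      exact hint a'
    refine ⟨a' * d', a' ^ 2 * (d' + e'), Or.inl ⟨rfl, e', d', a', he', hd', ha', ?_, ?_, ?_⟩, ?_⟩
    · have h5 : (2 : Eis) ^ 2 ∣ D - e' * (1 + 2 * d') := by
        rw [← val2_le h2]
        have e4 : algebraMap KK (v.adicCompletion KK) (jK (D - e' * (1 + 2 * d'))) =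
            (algebraMap KK (v.adicCompletion KK) (jK D) - e * (1 + 2 * f)) + 2 * ((f - algebraMap KK (v.adicCompletion KK) (jK d')) * e) := by
          simp only [map_sub, map_mul, map_add, map_one, map_ofNat]
          rw [hee]
          ring
        rw [e4]
        exact R1a_addr hde (R1a_two (R1a_mulr hdd hei))
      have e5 : (2 : Eis) ^ 2 = 4 := by norm_num
      rwa [e5] at h5
    · rw [sub_self]
      exact dvd_zero _
    · rw [sub_self]
      exact dvd_zero _
    · rw [key]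
      refine cl_congr h hq ?_ ?_
      · have e6 : q₁ - algebraMap KK (v.adicCompletion KK) (jK (a' * d')) = (q₁ - a * f) + (f - algebraMap KK (v.adicCompletion KK) (jK d')) * a := by
          rw [map_mul, map_mul, ← haa]
          ring
        rw [e6]
        exact R1a_addr ha1 (R1a_mulr hdd hai)
      · have e6 : q₂ - algebraMap KK (v.adicCompletion KK) (jK (a' ^ 2 * (d' + e'))) =
            (q₂ - a ^ 2 * (f + e)) + (f - algebraMap KK (v.adicCompletion KK) (jK d')) * (a * a) := by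
          rw [map_mul, map_mul, map_pow, map_pow, map_add, map_add, ← haa, ← hee]
          ring
        rw [e6]
        exact R1a_addr ha2 (R1a_mulr hdd (R1a_mul hai hai))

/-- [R1b] -/
theorem on2_3 {D' : Eis} (hk : ¬ (2 : Eis) ∣ D') (hDD : D = 8 * D') : (∃ q₁ q₂ : Eis, (2 : Eis) ∣ q₂ ∧
    IsIntegral ℤ ((ev (mp (algebraMap KK F) u) s ^ 63 - 1 - 2 * (jF F q₁ * (s / 2) + jF F q₂ * (s / 2) ^ 2)) / 4)) ↔
    LocA (algebraMap KK (v.adicCompletion KK) (jK D)) (mp (algebraMap KK (v.adicCompletion KK)) u) := by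
  have hcz := R1a_cz v
  have hD0 : D ≠ 0 := cl2_ne hD
  have h := lc2_of_place h2
  have hd : Valued.v (algebraMap KK (v.adicCompletion KK) (jK D')) = (1 : WithZero (Multiplicative ℤ)) := val2_one h2 hk
  have hdv' : v.valuation KK (jK D') = 1 := by rw [← R1a_val, hd]
  have hDK : jK D = 2 ^ 3 * jK D' := by
    rw [hDD, map_mul, map_ofNat]
    norm_num
  have hdv : v.valuation KK (jK D) = v.valuation KK 2 ^ 3 := by
    rw [hDK, map_mul, hdv', mul_one, map_pow]
  have hdd : algebraMap KK (v.adicCompletion KK) (jK D) = 8 * algebraMap KK (v.adicCompletion KK) (jK D') := by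
    rw [hDK, map_mul, map_pow, map_ofNat]
    norm_num
  have h20 : v.valuation KK 2 ≠ 0 := (Valuation.ne_zero_iff _).2 two_ne_zero
  have hv2 := R1a_v2 v
  have hnm : nm (8 * algebraMap KK (v.adicCompletion KK) (jK D')) (mp (algebraMap KK (v.adicCompletion KK)) u) = 1 := by
    rw [← hdd, mp_nm, hn, map_one]
  have hV4 : (Valued.v (4 : v.adicCompletion KK) : WithZero (Multiplicative ℤ)) = Valued.v (2 : v.adicCompletion KK) ^ 2 := by
    rw [← map_pow]
    norm_num
  have hnm' : nm (algebraMap KK (v.adicCompletion KK) (jK D')) (t8 (mp (algebraMap KK (v.adicCompletion KK)) u)) = 1 := by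
    rw [t8_nm, hnm]
  have hU : Un (Valued.v : Valuation (v.adicCompletion KK) (WithZero (Multiplicative ℤ))) (algebraMap KK (v.adicCompletion KK) (jK D'))
      (t8 (mp (algebraMap KK (v.adicCompletion KK)) u)) := by
    have h3 := (int_coef hD0 hQ h2 (N := 0) (u := u) (by rw [pow_zero, one_mul]; exact hi)).1 hi
    rw [hdv, ← pow_mul, mul_comm 3 2, pow_mul, ← mul_pow, ← mul_pow] at h3
    refine ⟨⟨?_, ?_, ?_⟩, ?_⟩
    · show Valued.v (algebraMap KK (v.adicCompletion KK) u.1) ≤ (1 : WithZero (Multiplicative ℤ))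
      rw [R1a_val]
      exact h3.1
    · show Valued.v (2 * algebraMap KK (v.adicCompletion KK) u.2.1) ≤ (1 : WithZero (Multiplicative ℤ))
      rw [map_mul, R1a_val, hv2, mul_comm]
      exact (pow_le_one_iff (by norm_num)).1 h3.2.1
    · show Valued.v (4 * algebraMap KK (v.adicCompletion KK) u.2.2) ≤ (1 : WithZero (Multiplicative ℤ))
      rw [map_mul, R1a_val, hV4, hv2, mul_comm]
      exact (pow_le_one_iff (by norm_num)).1 h3.2.2
    · rw [hnm', map_one]
  have hs : IsSquare (nm (8 * algebraMap KK (v.adicCompletion KK) (jK D')) (mp (algebraMap KK (v.adicCompletion KK)) u)) := by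
    rw [hnm]
    exact ⟨1, by ring⟩
  have hs' : IsSquare (nm (algebraMap KK (v.adicCompletion KK) (jK D')) (t8 (mp (algebraMap KK (v.adicCompletion KK)) u))) := by
    rw [hnm']
    exact ⟨1, by ring⟩
  have hint : ∀ a : Eis, Valued.v (algebraMap KK (v.adicCompletion KK) (jK a)) ≤ (1 : WithZero (Multiplicative ℤ)) := by
    intro a
    rw [R1a_val]
    exact HeightOneSpectrum.valuation_le_one v (eE a)
  -- translation
  have key : ∀ q₁ q₂ : Eis,
      (IsIntegral ℤ ((ev (mp (algebraMap KK F) u) s ^ 63 - 1 - 2 * (jF F q₁ * (s / 2) + jF F q₂ * (s / 2) ^ 2)) / 4) ↔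
      CL (Valued.v : Valuation (v.adicCompletion KK) (WithZero (Multiplicative ℤ))) (algebraMap KK (v.adicCompletion KK) (jK D'))
        (t8 (mp (algebraMap KK (v.adicCompletion KK)) u)) (algebraMap KK (v.adicCompletion KK) (jK q₁)) (algebraMap KK (v.adicCompletion KK) (jK q₂))) := by
    intro q₁ q₂
    rw [cl_pow h hd hU hs' (hint q₁) (hint q₂)]
    have e := R1a_ev hQ u (jK q₁) (jK q₂ / 2)
    have e' : ev (mp (algebraMap KK F) u) s ^ 63 - 1 - 2 * (jF F q₁ * (s / 2) + jF F q₂ * (s / 2) ^ 2) =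
        ev (mp (algebraMap KK F) u) s ^ 63 - 1 - (algebraMap KK F (jK q₁) * s + algebraMap KK F (jK q₂ / 2) * s ^ 2) := by
      rw [map_div₀, map_ofNat, jF_apply, jF_apply]
      ring
    rw [← e'] at e
    rw [R1a_int hD0 hQ h2 e (N := 3) (by
      have e3 : (2 : F) ^ 3 * ((ev (mp (algebraMap KK F) u) s ^ 63 - 1 - 2 * (jF F q₁ * (s / 2) + jF F q₂ * (s / 2) ^ 2)) / 4) =
          2 * (ev (mp (algebraMap KK F) u) s ^ 63 - 1 - jF F q₁ * s) - jF F q₂ * s ^ 2 := by
        ring
      rw [e3]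
      have i2 : IsIntegral ℤ (2 : F) := by
        have := isIntegral_algebraMap (R := ℤ) (A := F) (x := 2)
        simpa using this
      exact (i2.mul (((hi.pow 63).sub isIntegral_one).sub ((R1a_jF q₁).mul (R1a_s hQ)))).sub ((R1a_jF q₂).mul ((R1a_s hQ).pow 2)))]
    rw [hdv, ← pow_mul (v.valuation KK 2) 3 2, mul_comm 3 2, pow_mul (v.valuation KK 2) 2 3, ← mul_pow, ← mul_pow,
      pow_le_pow_iff_left₀ bot_le bot_le (by norm_num), pow_le_pow_iff_left₀ bot_le bot_le (by norm_num)]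
    rw [← t8_pw, ← hdd, ← mp_pw]
    unfold Cg
    rw [hv2]
    refine and_congr ?_ (and_congr ?_ ?_)
    · show _ ↔ Valued.v (algebraMap KK (v.adicCompletion KK) (pw (jK D) 63 u).1 - 1) ≤ _
      rw [← R1a_val, map_sub, map_one]
    · show _ ↔ Valued.v (2 * algebraMap KK (v.adicCompletion KK) (pw (jK D) 63 u).2.1 - 2 * algebraMap KK (v.adicCompletion KK) (jK q₁)) ≤ _
      rw [← mul_sub, ← map_sub, map_mul, R1a_val, hv2, mul_comm]
    · show _ ↔ Valued.v (4 * algebraMap KK (v.adicCompletion KK) (pw (jK D) 63 u).2.2 - 2 * algebraMap KK (v.adicCompletion KK) (jK q₂)) ≤ _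
      have e7 : 4 * algebraMap KK (v.adicCompletion KK) (pw (jK D) 63 u).2.2 - 2 * algebraMap KK (v.adicCompletion KK) (jK q₂) =
          4 * algebraMap KK (v.adicCompletion KK) ((pw (jK D) 63 u).2.2 - jK q₂ / 2) := by
        rw [map_sub, map_div₀, map_ofNat]
        ring
      rw [e7, map_mul, R1a_val, hV4, hv2, mul_comm]
  have v2 : ∀ a : Eis, (2 : Eis) ∣ a ↔ Valued.v (algebraMap KK (v.adicCompletion KK) (jK a)) ≤
      (Valued.v (2 : v.adicCompletion KK) : WithZero (Multiplicative ℤ)) := by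
    intro a
    have := val2_le h2 a 1
    rw [pow_one, pow_one] at this
    exact this.symm
  obtain ⟨e, he3, he, hde⟩ := exists_zeta h hd
  have he' : e = algebraMap KK (v.adicCompletion KK) (jK om) ∨ e = algebraMap KK (v.adicCompletion KK) (jK om) ^ 2 := by
    rcases he with rfl | he
    · exfalso
      refine hD.two3 D' hDD ((v2 _).2 ?_)
      rw [map_sub, map_sub, map_one, map_one]
      exact hde
    · exact he
  constructor
  · rintro ⟨q₁, q₂, hq2, hq⟩
    rw [key] at hq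
    have := conv8 h hd he' hde hU hs (hint q₁) ((v2 _).1 hq2) hq
    rwa [hdd]
  · intro hl
    obtain ⟨q₁, q₂, h1, h1', hq⟩ := cl_exists h hd hU hs'
    have hl' : LocA (8 * algebraMap KK (v.adicCompletion KK) (jK D')) (mp (algebraMap KK (v.adicCompletion KK)) u) := by
      rwa [← hdd]
    have h3 := dir8 h hd he' hde hU hs h1 h1' hq hl'
    obtain ⟨a₁, ha₁⟩ := approx2 h2 1 h1
    obtain ⟨a₂, ha₂⟩ := approx2 h2 1 h1'
    rw [pow_one] at ha₁ ha₂
    refine ⟨a₁, a₂, (v2 _).2 ?_, ?_⟩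
    · have e8 : algebraMap KK (v.adicCompletion KK) (jK a₂) = q₂ - (q₂ - algebraMap KK (v.adicCompletion KK) (jK a₂)) := by ring
      rw [e8]
      exact (Valuation.map_sub _ _ _).trans (max_le h3 ha₂)
    · rw [key]
      exact cl_congr h hq ha₁ ha₂

/-- [R1c] -/
theorem on2_R {k : ℕ} {D' : Eis} (hk : k = 2 ∨ k = 4 ∨ k = 5) (hk' : ¬ (2 : Eis) ∣ D') (hDD : D = 2 ^ k * D') :
    IsIntegral ℤ ((ev (mp (algebraMap KK F) u) s ^ 3 - 1) ^ 3 / 4) ↔
    LocA (algebraMap KK (v.adicCompletion KK) (jK D)) (mp (algebraMap KK (v.adicCompletion KK)) u) := by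
  have hC : CharZero (v.adicCompletion KK) :=
    charZero_of_injective_algebraMap (algebraMap KK (v.adicCompletion KK)).injective
  have hL := lc2_of_place h2
  have hf := val2_one h2 hk'
  set f : v.adicCompletion KK := algebraMap KK (v.adicCompletion KK) (jK D') with hfdef
  have hf0 : f ≠ 0 := by
    intro h0
    rw [h0, map_zero] at hf
    exact zero_ne_one hf
  have hd : algebraMap KK (v.adicCompletion KK) (jK D) = 2 ^ k * f := by
    rw [hDD, map_mul, map_mul, map_pow, map_pow, map_ofNat, map_ofNat]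
  have htwo := hL.two
  have hvd : (Valued.v (algebraMap KK (v.adicCompletion KK) (jK D)) : WithZero (Multiplicative ℤ)) = WithZero.exp (-(k : ℤ)) := by
    rw [hd, map_mul, map_pow, hf, mul_one, htwo, ← WithZero.exp_nsmul]
    congr 1
    simp
  have hvd2 : (Valued.v (algebraMap KK (v.adicCompletion KK) (jK D)) : WithZero (Multiplicative ℤ)) ^ 2 =
      WithZero.exp (-((2 * k : ℕ) : ℤ)) := by
    rw [hvd, ← WithZero.exp_nsmul]
    congr 1
    simp
  have hv2n : ∀ (n : ℕ) (x : v.adicCompletion KK), (Valued.v (2 ^ n * x) : WithZero (Multiplicative ℤ)) =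
      WithZero.exp (-(n : ℤ)) * Valued.v x := by
    intro n x
    rw [map_mul, map_pow, htwo, ← WithZero.exp_nsmul]
    congr 2
    simp
  have hsq : IsSquare (nm (algebraMap KK (v.adicCompletion KK) (jK D)) (mp (algebraMap KK (v.adicCompletion KK)) u)) := by
    rw [mp_nm, hn, map_one]
    exact IsSquare.one
  have hδ1 : (Valued.v (2 * f) : WithZero (Multiplicative ℤ)) = Valued.v (2 : v.adicCompletion KK) := by
    rw [map_mul, hf, mul_one]
  have hδ2 : (Valued.v (2 * f ^ 2) : WithZero (Multiplicative ℤ)) = Valued.v (2 : v.adicCompletion KK) := by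
    rw [map_mul, map_pow, hf, one_pow, mul_one]
  rcases hk with rfl | rfl | rfl
  · -- `4 f`
    have hd4 : algebraMap KK (v.adicCompletion KK) (jK D) = 4 * f := by rw [hd]; norm_num
    have hnsq : ∀ y : v.adicCompletion KK, Valued.v y ≤ (1 : WithZero (Multiplicative ℤ)) →
        ¬ Valued.v (f - y ^ 2 - 2) ≤ (Valued.v (2 : v.adicCompletion KK) : WithZero (Multiplicative ℤ)) ^ 2 := by
      intro y hy hcon
      obtain ⟨a, ha⟩ := approx2 h2 2 hy
      refine hD.two2 D' hk' (by rw [hDD]; norm_num) a ?_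
      have h4 : (4 : Eis) = 2 ^ 2 := by norm_num
      rw [h4, ← val2_le h2]
      have e1 : algebraMap KK (v.adicCompletion KK) (jK (D' - a ^ 2 - 2)) =
          (f - y ^ 2 - 2) + (y - algebraMap KK (v.adicCompletion KK) (jK a)) * (y + algebraMap KK (v.adicCompletion KK) (jK a)) := by
        rw [hfdef]
        simp only [map_sub, map_pow, map_ofNat]
        ring
      rw [e1]
      refine Valuation.map_add_le _ hcon ?_
      rw [map_mul]
      have h5 : Valued.v (y + algebraMap KK (v.adicCompletion KK) (jK a)) ≤ (1 : WithZero (Multiplicative ℤ)) := by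
        refine Valuation.map_add_le _ hy ?_
        have := (val2_le h2 a 0).2 (by rw [pow_zero]; exact one_dvd a)
        rwa [pow_zero] at this
      exact (mul_le_of_le_one_right' h5).trans ha
    have hgen := r1c_gen hD hQ h2 hn hi (N := n4 f) (δ := 2 * f ^ 2) hδ2 (fun a b => by rw [hd4, n4_mu hf0])
      (fun a => by rw [hd4, n4_nm hf0]) (fun a => by simp only [n4, r1c_m])
      (fun a => by
        simp only [n4, r1c_q]
        refine Prod.ext rfl (Prod.ext ?_ ?_)
        · show 2 * (a.2.2 / 4) = 2 * a.2.2 / 4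
          ring
        · show a.2.1 / 4 / f = a.2.1 / f / 4
          ring)
      (fun a => by
        have e1 := r1c_exp (x := Valued.v a.2.1) (m := 2) (n := 0) (by norm_num) (by norm_num)
        have e2 := r1c_exp (x := Valued.v a.2.2) (m := 4) (n := 1) (by norm_num) (by norm_num)
        have e3 := hv2n 1 a.2.2
        have e4 : (Valued.v (a.2.1 / f) : WithZero (Multiplicative ℤ)) = Valued.v a.2.1 := by rw [map_div₀, hf, div_one]
        have e5 : (WithZero.exp (-((0 : ℕ) : ℤ)) : WithZero (Multiplicative ℤ)) = 1 := by simp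
        rw [pow_one] at e3
        rw [e5, one_mul] at e1
        rw [← e3] at e2
        rw [hvd2, hvd]
        unfold In
        simp only [n4]
        rw [e4, ← e1, ← e2]
        constructor
        · rintro ⟨g1, g2, g3⟩
          exact ⟨g1, g3, g2⟩
        · rintro ⟨g1, g2, g3⟩
          exact ⟨g1, g3, g2⟩)
    rw [hgen.2]
    constructor
    · intro hr
      rw [hd4] at hsq ⊢
      exact convB4 hL hf hnsq hgen.1 hsq hr
    · intro hl
      rw [hd4] at hl
      exact dirB4 hL hf hnsq hgen.1 hl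
  · -- `16 f`
    have hd16 : algebraMap KK (v.adicCompletion KK) (jK D) = 16 * f := by rw [hd]; norm_num
    have hd8 : (16 : v.adicCompletion KK) * f = 8 * (2 * f) := by ring
    have hgen := r1c_gen hD hQ h2 hn hi (N := t8) (δ := 2 * f) hδ1 (fun a b => by rw [hd16, hd8, t8_mu])
      (fun a => by rw [hd16, hd8, t8_nm]) (fun a => by simp only [t8, r1c_m])
      (fun a => by
        simp only [t8, r1c_q]
        refine Prod.ext rfl (Prod.ext ?_ ?_)
        · show 2 * (a.2.1 / 4) = 2 * a.2.1 / 4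
          ring
        · show 4 * (a.2.2 / 4) = 4 * a.2.2 / 4
          ring)
      (fun a => by
        have e1 := r1c_exp (x := Valued.v a.2.1) (m := 4) (n := 1) (by norm_num) (by norm_num)
        have e2 := r1c_exp (x := Valued.v a.2.2) (m := 8) (n := 2) (by norm_num) (by norm_num)
        have e3 := hv2n 1 a.2.1
        have e4 := hv2n 2 a.2.2
        rw [pow_one] at e3
        have e5 : (2 : v.adicCompletion KK) ^ 2 = 4 := by norm_num
        rw [e5] at e4
        rw [← e3] at e1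
        rw [← e4] at e2
        rw [hvd2, hvd]
        unfold In
        simp only [t8]
        rw [← e1, ← e2])
    rw [hgen.2]
    constructor
    · intro hr
      rw [hd16] at hsq ⊢
      exact convB16 hL hf hgen.1 hsq hr
    · intro hl
      rw [hd16] at hl
      exact dirB16 hL hf hgen.1 hl
  · -- `32 f`
    have hd32 : algebraMap KK (v.adicCompletion KK) (jK D) = 32 * f := by rw [hd]; norm_num
    have hd8 : (32 : v.adicCompletion KK) * f = 8 * (4 * f) := by ring
    have hgen := r1c_gen hD hQ h2 hn hi (N := fun a => n4 f (t8 a)) (δ := 2 * f ^ 2) hδ2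
      (fun a b => by rw [hd32, hd8, t8_mu, n4_mu hf0])
      (fun a => by rw [hd32, hd8, n4_nm hf0, t8_nm]) (fun a => by simp only [t8, n4, r1c_m])
      (fun a => by
        simp only [t8, n4, r1c_q]
        refine Prod.ext rfl (Prod.ext ?_ ?_)
        · show 2 * (4 * (a.2.2 / 4)) = 2 * (4 * a.2.2) / 4
          ring
        · show 2 * (a.2.1 / 4) / f = 2 * a.2.1 / f / 4
          ring)
      (fun a => by
        have e1 := r1c_exp (x := Valued.v a.2.1) (m := 5) (n := 1) (by norm_num) (by norm_num)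
        have e2 := r1c_exp (x := Valued.v a.2.2) (m := 10) (n := 3) (by norm_num) (by norm_num)
        have e3 := hv2n 1 a.2.1
        have e4 := hv2n 3 a.2.2
        rw [pow_one] at e3
        have e5 : (2 : v.adicCompletion KK) ^ 3 * a.2.2 = 2 * (4 * a.2.2) := by ring
        have e6 : (Valued.v (2 * a.2.1 / f) : WithZero (Multiplicative ℤ)) = Valued.v (2 * a.2.1) := by
          rw [map_div₀, hf, div_one]
        rw [e5] at e4
        rw [← e3] at e1
        rw [← e4] at e2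
        rw [hvd2, hvd]
        unfold In
        simp only [t8, n4]
        rw [e6, ← e1, ← e2]
        constructor
        · rintro ⟨g1, g2, g3⟩
          exact ⟨g1, g3, g2⟩
        · rintro ⟨g1, g2, g3⟩
          exact ⟨g1, g3, g2⟩)
    rw [hgen.2]
    constructor
    · intro hr
      rw [hd32] at hsq ⊢
      exact convB32 hL hf hgen.1 hsq hr
    · intro hl
      rw [hd32] at hl
      exact dirB32 hL hf hgen.1 hl

/-- [R1d] -/
theorem on2_1 {D' : Eis} (hk' : ¬ (2 : Eis) ∣ D') (hDD : D = 2 * D') : (∃ (a : Eis) (c : F), R4 a ∧ IsIntegral ℤ c ∧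
    IsIntegral ℤ ((ev (mp (algebraMap KK F) u) s * c ^ 2 - 1 - jF F a * s - jF F (a ^ 3 * D)) / 4)) ↔
    LocA (algebraMap KK (v.adicCompletion KK) (jK D)) (mp (algebraMap KK (v.adicCompletion KK)) u) := by
  have hD0 : D ≠ 0 := cl2_ne hD
  have : CharZero (v.adicCompletion KK) := charZero_of_injective_algebraMap (algebraMap KK (v.adicCompletion KK)).injective
  have h := lc2_of_place h2
  have hval : ∀ x : KK, Valued.v (algebraMap KK (v.adicCompletion KK) x) = v.valuation KK x := fun x =>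
    HeightOneSpectrum.valuedAdicCompletion_eq_valuation' v x
  have hd : Valued.v (algebraMap KK (v.adicCompletion KK) (jK D)) =
      (Valued.v (2 : v.adicCompletion KK) : WithZero (Multiplicative ℤ)) := by
    rw [hDD, map_mul, map_mul, map_mul, val2_one h2 hk', mul_one, map_ofNat, map_ofNat]
  have hdle : Valued.v (algebraMap KK (v.adicCompletion KK) (jK D)) ≤ (1 : WithZero (Multiplicative ℤ)) := by
    rw [hd]; exact (two_lt h).1.le
  have hvD : v.valuation KK (jK D) = WithZero.exp (-1 : ℤ) := by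
    rw [← hval, hd, h.two]
  have hnU : nm (algebraMap KK (v.adicCompletion KK) (jK D)) (mp (algebraMap KK (v.adicCompletion KK)) u) = 1 := by
    rw [mp_nm, hn, map_one]
  have hUn : Un (Valued.v : Valuation (v.adicCompletion KK) (WithZero (Multiplicative ℤ)))
      (algebraMap KK (v.adicCompletion KK) (jK D)) (mp (algebraMap KK (v.adicCompletion KK)) u) :=
    ⟨in_of_nmR h hd (by rw [hnU, map_one]), by rw [hnU, map_one]⟩
  have hsq : IsSquare (nm (algebraMap KK (v.adicCompletion KK) (jK D)) (mp (algebraMap KK (v.adicCompletion KK)) u)) := by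
    rw [hnU]; exact IsSquare.one
  -- the criterion
  have hint : ∀ (t : KK × KK × KK) (N : ℕ), IsIntegral ℤ (2 ^ N * ev (mp (algebraMap KK F) t) s) →
      (IsIntegral ℤ (ev (mp (algebraMap KK F) t) s) ↔
        In (Valued.v : Valuation (v.adicCompletion KK) (WithZero (Multiplicative ℤ)))
          (mp (algebraMap KK (v.adicCompletion KK)) t)) := by
    intro t N hN
    rw [int_coef hD0 hQ h2 hN, hvD]
    simp only [In, mp, hval, r1d_one, r1d_two]
  have htt : ∀ (a : Eis) (γ : KK × KK × KK),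
      ev (mp (algebraMap KK F) (((mu (jK D) u (mu (jK D) γ γ)).1 - 1 - jK (a ^ 3 * D)) / 4,
        ((mu (jK D) u (mu (jK D) γ γ)).2.1 - jK a) / 4, (mu (jK D) u (mu (jK D) γ γ)).2.2 / 4)) s =
      (ev (mp (algebraMap KK F) u) s * ev (mp (algebraMap KK F) γ) s ^ 2 - 1 - jF F a * s - jF F (a ^ 3 * D)) / 4 := by
    intro a γ
    have e1 : ev (mp (algebraMap KK F) u) s * ev (mp (algebraMap KK F) γ) s ^ 2 =
        ev (mp (algebraMap KK F) (mu (jK D) u (mu (jK D) γ γ))) s := by
      rw [ev_mul hD0 hQ, ev_mul hD0 hQ]; ring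
    rw [e1]
    simp only [ev, mp, map_sub, map_div₀, map_one, map_ofNat, jF_apply]
    ring
  have hCg : ∀ (a : Eis) (γ : KK × KK × KK),
      In (Valued.v : Valuation (v.adicCompletion KK) (WithZero (Multiplicative ℤ)))
        (mp (algebraMap KK (v.adicCompletion KK)) (((mu (jK D) u (mu (jK D) γ γ)).1 - 1 - jK (a ^ 3 * D)) / 4,
        ((mu (jK D) u (mu (jK D) γ γ)).2.1 - jK a) / 4, (mu (jK D) u (mu (jK D) γ γ)).2.2 / 4)) ↔
      Cg (Valued.v : Valuation (v.adicCompletion KK) (WithZero (Multiplicative ℤ))) 2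
        (mu (algebraMap KK (v.adicCompletion KK) (jK D)) (mp (algebraMap KK (v.adicCompletion KK)) u)
          (mu (algebraMap KK (v.adicCompletion KK) (jK D)) (mp (algebraMap KK (v.adicCompletion KK)) γ)
            (mp (algebraMap KK (v.adicCompletion KK)) γ)))
        (1 + algebraMap KK (v.adicCompletion KK) (jK a) ^ 3 * algebraMap KK (v.adicCompletion KK) (jK D),
          algebraMap KK (v.adicCompletion KK) (jK a), 0) := by
    intro a γ
    rw [← mp_mu, ← mp_mu]
    have h20 : (Valued.v (2 : v.adicCompletion KK) : WithZero (Multiplicative ℤ)) ≠ 0 := (two_lt h).2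
    have e4 : ∀ x : v.adicCompletion KK, Valued.v (x / 4) ≤ (1 : WithZero (Multiplicative ℤ)) ↔
        Valued.v x ≤ (Valued.v (2 : v.adicCompletion KK) : WithZero (Multiplicative ℤ)) ^ 2 := by
      intro x
      have e5 : (Valued.v (4 : v.adicCompletion KK) : WithZero (Multiplicative ℤ)) = Valued.v (2 : v.adicCompletion KK) ^ 2 := by
        rw [← map_pow]; norm_num
      rw [map_div₀, e5, div_le_one₀ (pow_pos (zero_lt_iff.2 h20) 2)]
    simp only [In, Cg, mp, map_sub, map_div₀ (algebraMap KK (v.adicCompletion KK)), map_one, map_ofNat, e4, map_mul, map_pow, sub_zero]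
    rw [sub_sub]
  constructor
  · rintro ⟨a, c, ha, hc, hz⟩
    obtain ⟨γ, rfl⟩ := exists_trip hD0 hQ c
    rw [← htt a γ] at hz
    have hΓ := (hint γ 0 (by rw [pow_zero, one_mul]; exact hc)).1 hc
    have hc2 := (hCg a γ).1 ((hint _ 0 (by rw [pow_zero, one_mul]; exact hz)).1 hz)
    have ha' : algebraMap KK (v.adicCompletion KK) (jK a) = 0 ∨ algebraMap KK (v.adicCompletion KK) (jK a) = 1 ∨
        algebraMap KK (v.adicCompletion KK) (jK a) = algebraMap KK (v.adicCompletion KK) (jK om) ∨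
        algebraMap KK (v.adicCompletion KK) (jK a) = algebraMap KK (v.adicCompletion KK) (jK om) ^ 2 := by
      rcases ha with rfl | rfl | rfl | rfl
      · left; rw [map_zero, map_zero]
      · right; left; rw [map_one, map_one]
      · right; right; left; rfl
      · right; right; right; rw [map_pow, map_pow]
    have haint : Valued.v (algebraMap KK (v.adicCompletion KK) (jK a)) ≤ (1 : WithZero (Multiplicative ℤ)) := by
      have := (val2_le h2 a 0).2 (by rw [pow_zero]; exact one_dvd _)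
      rwa [pow_zero] at this
    have hRin : In (Valued.v : Valuation (v.adicCompletion KK) (WithZero (Multiplicative ℤ)))
        (1 + algebraMap KK (v.adicCompletion KK) (jK a) ^ 3 * algebraMap KK (v.adicCompletion KK) (jK D),
          algebraMap KK (v.adicCompletion KK) (jK a), 0) := by
      refine ⟨?_, haint, by simp⟩
      refine (Valuation.map_add _ _ _).trans (max_le (by rw [map_one]) ?_)
      rw [map_mul, map_pow]
      exact mul_le_one' (pow_le_one' haint 3) hdle
    have hR1 : Valued.v (1 + algebraMap KK (v.adicCompletion KK) (jK a) ^ 3 * algebraMap KK (v.adicCompletion KK) (jK D)) =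
        (1 : WithZero (Multiplicative ℤ)) := by
      have hlt : Valued.v (algebraMap KK (v.adicCompletion KK) (jK a) ^ 3 * algebraMap KK (v.adicCompletion KK) (jK D)) <
          (Valued.v (1 : v.adicCompletion KK) : WithZero (Multiplicative ℤ)) := by
        rw [map_mul, map_pow, map_one, hd]
        exact lt_of_le_of_lt (mul_le_of_le_one_left' (pow_le_one' haint 3)) (two_lt h).1
      rw [Valuation.map_add_eq_of_lt_left _ hlt, map_one]
    have hRun := (unR_iff h hd hRin).2 hR1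
    have hW : Un (Valued.v : Valuation (v.adicCompletion KK) (WithZero (Multiplicative ℤ)))
        (algebraMap KK (v.adicCompletion KK) (jK D)) _ := un_cg h hdle (by norm_num) hc2 ⟨hRin, hRun⟩
    have hG1 : Valued.v (nm (algebraMap KK (v.adicCompletion KK) (jK D)) (mp (algebraMap KK (v.adicCompletion KK)) γ)) =
        (1 : WithZero (Multiplicative ℤ)) := by
      have e := hW.2
      rw [nm_mu, nm_mu, hnU, one_mul, map_mul, ← sq] at e
      exact r1d_sq e
    exact convC h hd hUn hsq ⟨hΓ, hG1⟩ ha' hc2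
  · intro hl
    obtain ⟨g, a', hg, ha', hc2⟩ := dirC h hd hUn hsq hl
    obtain ⟨a, ha, rfl⟩ : ∃ a : Eis, R4 a ∧ a' = algebraMap KK (v.adicCompletion KK) (jK a) := by
      rcases ha' with rfl | rfl | rfl | rfl
      · exact ⟨0, Or.inl rfl, by rw [map_zero, map_zero]⟩
      · exact ⟨1, Or.inr (Or.inl rfl), by rw [map_one, map_one]⟩
      · exact ⟨om, Or.inr (Or.inr (Or.inl rfl)), rfl⟩
      · exact ⟨om ^ 2, Or.inr (Or.inr (Or.inr rfl)), by rw [map_pow, map_pow]⟩
    obtain ⟨γ₀, h0⟩ := approx2 h2 2 hg.1.1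
    obtain ⟨γ₁, h1⟩ := approx2 h2 2 hg.1.2.1
    obtain ⟨γ₂, h3⟩ := approx2 h2 2 hg.1.2.2
    have hgc : Cg (Valued.v : Valuation (v.adicCompletion KK) (WithZero (Multiplicative ℤ))) 2
        (mp (algebraMap KK (v.adicCompletion KK)) (jK γ₀, jK γ₁, jK γ₂)) g := cg_symm ⟨h0, h1, h3⟩
    have hgi := cg_in h hgc hg.1
    have hs3 : IsIntegral ℤ s := by
      refine IsIntegral.of_pow (n := 3) (by norm_num) ?_
      rw [hQ.cu]; exact JD.int_jF F D
    have hci : IsIntegral ℤ (ev (mp (algebraMap KK F) (jK γ₀, jK γ₁, jK γ₂)) s) := by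
      have e : ev (mp (algebraMap KK F) (jK γ₀, jK γ₁, jK γ₂)) s = jF F γ₀ + jF F γ₁ * s + jF F γ₂ * s ^ 2 := rfl
      rw [e]
      exact ((JD.int_jF F γ₀).add ((JD.int_jF F γ₁).mul hs3)).add ((JD.int_jF F γ₂).mul (hs3.pow 2))
    have hcg : Cg (Valued.v : Valuation (v.adicCompletion KK) (WithZero (Multiplicative ℤ))) 2
        (mu (algebraMap KK (v.adicCompletion KK) (jK D)) (mp (algebraMap KK (v.adicCompletion KK)) u)
          (mu (algebraMap KK (v.adicCompletion KK) (jK D)) (mp (algebraMap KK (v.adicCompletion KK)) (jK γ₀, jK γ₁, jK γ₂))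
            (mp (algebraMap KK (v.adicCompletion KK)) (jK γ₀, jK γ₁, jK γ₂))))
        (1 + algebraMap KK (v.adicCompletion KK) (jK a) ^ 3 * algebraMap KK (v.adicCompletion KK) (jK D),
          algebraMap KK (v.adicCompletion KK) (jK a), 0) :=
      cg_trans (cg_mu h hdle (cg_refl 2 _) (cg_mu h hdle hgc hgc hgi hgi) hUn.1 (in_mu hdle hgi hgi)) hc2
    refine ⟨a, _, ha, hci, ?_⟩
    rw [← htt a (jK γ₀, jK γ₁, jK γ₂)]
    refine (hint _ 2 ?_).2 ((hCg a _).2 hcg)
    rw [htt a (jK γ₀, jK γ₁, jK γ₂)]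
    have e : (2 : F) ^ 2 * ((ev (mp (algebraMap KK F) u) s * ev (mp (algebraMap KK F) (jK γ₀, jK γ₁, jK γ₂)) s ^ 2 - 1 -
        jF F a * s - jF F (a ^ 3 * D)) / 4) = ev (mp (algebraMap KK F) u) s *
        ev (mp (algebraMap KK F) (jK γ₀, jK γ₁, jK γ₂)) s ^ 2 - 1 - jF F a * s - jF F (a ^ 3 * D) := by
      field_simp; ring
    rw [e]
    exact (((hi.mul (hci.pow 2)).sub isIntegral_one).sub ((JD.int_jF F a).mul hs3)).sub (JD.int_jF F _)

omit h2 in
/-- [R1e] -/
theorem on2F_iff : On2F D s (ev (mp (algebraMap KK F) u) s) ↔ L2 D u := by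
  obtain ⟨k, D', hk5, hDD, hD'⟩ := exists_k hD
  obtain ⟨v, h2⟩ := exists_place2
  have hL : L2 D u ↔ LocA (algebraMap KK (v.adicCompletion KK) (jK D)) (mp (algebraMap KK (v.adicCompletion KK)) u) := by
    constructor
    · intro h
      exact h v h2
    · intro h v' h2'
      obtain rfl := place2_unique h2 h2'
      exact h
  rw [hL]
  -- the three alternatives
  have a1 : ∀ (m : ℕ) (D'' : Eis), D = 8 ^ m * D'' → ¬ (2 : Eis) ∣ D'' → 3 * m = k ∧ D'' = D' := by
    intro m D'' h1 h3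
    have e : (2 : Eis) ^ (3 * m) * D'' = 2 ^ k * D' := by
      rw [← hDD, h1, pow_mul]
      norm_num
    exact two_unique h3 hD' e
  have a2 : ∀ (j : ℕ) (D'' : Eis), D = 2 ^ j * D'' → ¬ (2 : Eis) ∣ D'' → j = k ∧ D'' = D' := by
    intro j D'' h1 h3
    exact two_unique h3 hD' (h1.symm.trans hDD)
  have a3 : ∀ (D'' : Eis), D = 2 * D'' → ¬ (2 : Eis) ∣ D'' → 1 = k ∧ D'' = D' := by
    intro D'' h1 h3
    exact a2 1 D'' (by rw [pow_one]; exact h1) h3
  have hk : k = 0 ∨ k = 3 ∨ (k = 2 ∨ k = 4 ∨ k = 5) ∨ k = 1 := by omega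
  rcases hk with hk | hk | hk | hk
  · -- `k = 0`
    subst hk
    have hDD' : D = D' := by rw [hDD, pow_zero, one_mul]
    subst hDD'
    rw [← on2_0 hD hQ h2 hn hi hD']
    constructor
    · rintro (⟨m, D'', q₁, q₂, hm, h1, h3, hW, hI⟩ | ⟨j, D'', hj, h1, h3, -⟩ | ⟨D'', h1, h3, -⟩)
      · obtain ⟨h4, rfl⟩ := a1 m D'' h1 h3
        have hm0 : m = 0 := by omega
        subst hm0
        refine ⟨q₁, q₂, hW, ?_⟩
        rw [pow_zero, div_one] at hI
        exact hI
      · have := (a2 j D'' h1 h3).1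
        omega
      · have := (a3 D'' h1 h3).1
        omega
    · rintro ⟨q₁, q₂, hW, hI⟩
      refine Or.inl ⟨0, D, q₁, q₂, Nat.zero_le _, by rw [pow_zero, one_mul], hD', hW, ?_⟩
      rw [pow_zero, div_one]
      exact hI
  · -- `k = 3`
    subst hk
    have hDD' : D = 8 * D' := by rw [hDD]; norm_num
    rw [← on2_3 hD hQ h2 hn hi hD' hDD']
    constructor
    · rintro (⟨m, D'', q₁, q₂, hm, h1, h3, hW, hI⟩ | ⟨j, D'', hj, h1, h3, -⟩ | ⟨D'', h1, h3, -⟩)
      · obtain ⟨h4, rfl⟩ := a1 m D'' h1 h3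
        have hm1 : m = 1 := by omega
        subst hm1
        refine ⟨q₁, q₂, ?_, ?_⟩
        · rcases hW with ⟨h5, -⟩ | ⟨-, h5⟩
          · exact absurd h5 one_ne_zero
          · exact h5
        · rw [pow_one] at hI
          exact hI
      · have := (a2 j D'' h1 h3).1
        omega
      · have := (a3 D'' h1 h3).1
        omega
    · rintro ⟨q₁, q₂, hq, hI⟩
      refine Or.inl ⟨1, D', q₁, q₂, le_refl _, by rw [pow_one]; exact hDD', hD', Or.inr ⟨rfl, hq⟩, ?_⟩
      rw [pow_one]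
      exact hI
  · -- `k = 2, 4, 5`
    rw [← on2_R hD hQ h2 hn hi hk hD' hDD]
    constructor
    · rintro (⟨m, D'', q₁, q₂, hm, h1, h3, -, -⟩ | ⟨j, D'', hj, h1, h3, hI⟩ | ⟨D'', h1, h3, -⟩)
      · have := (a1 m D'' h1 h3).1
        omega
      · exact hI
      · have := (a3 D'' h1 h3).1
        omega
    · intro hI
      exact Or.inr (Or.inl ⟨k, D', hk, hDD, hD', hI⟩)
  · -- `k = 1`
    subst hk
    have hDD' : D = 2 * D' := by rw [hDD, pow_one]
    rw [← on2_1 hD hQ h2 hn hi hD' hDD']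
    constructor
    · rintro (⟨m, D'', q₁, q₂, hm, h1, h3, -, -⟩ | ⟨j, D'', hj, h1, h3, -⟩ | ⟨D'', h1, h3, hI⟩)
      · have := (a1 m D'' h1 h3).1
        omega
      · have := (a2 j D'' h1 h3).1
        omega
      · exact hI
    · intro hI
      exact Or.inr (Or.inr ⟨D', hDD', hD', hI⟩)

end

end JT
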