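import Pool.Agent.JG.SQ
import Pool.Agent.JT.UC

/-!
# [JT-SP2] the places of `ℚ(ω)`: the conditions of `Cl2` in the completions

As JG/SP.lean.
-/

set_option autoImplicit false

open NumberField IsDedekindDomain
open scoped Classical

namespace JT

open CM27 CF JZ
open JD (ED ED_map jK)
open CU (la om eE t5b_lo)
open JG (approxG dvd_powG Good2 GoodL)

/-- [SP2] -/
theorem exists_kc2 {D : Eis} (hD : Cl2 D) {b : Eis} (hb : Prime b) : ∃ (k : ℕ) (c : Eis), k ≤ 5 ∧ ¬ b ∣ c ∧ D = b ^ k * c := by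
  classical
  have hex : ∃ n : ℕ, ¬ b ^ n ∣ D := ⟨6, hD.free b hb⟩
  have h6 : Nat.find hex ≤ 6 := Nat.find_min' hex (hD.free b hb)
  have h0 : Nat.find hex ≠ 0 := by
    intro h0
    have h1 := Nat.find_spec hex
    rw [h0, pow_zero] at h1
    exact h1 (one_dvd D)
  have h1 : b ^ (Nat.find hex - 1) ∣ D := by
    by_contra h2
    have h3 := Nat.find_min' hex h2
    omega
  obtain ⟨c, hc⟩ := h1
  refine ⟨Nat.find hex - 1, c, by omega, ?_, hc⟩
  rintro ⟨c', rfl⟩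
  apply Nat.find_spec hex
  refine ⟨c', ?_⟩
  have e : Nat.find hex = Nat.find hex - 1 + 1 := by omega
  rw [e, pow_succ, mul_assoc]
  exact hc

section
variable {D : Eis} (v : HeightOneSpectrum (𝓞 KK))

/-- [SP2] -/
theorem places2 (hD : Cl2 D) :
    (v.asIdeal = Ideal.span {eE la} ∧ ∃ (k : ℕ) (c : Eis), k ≤ 5 ∧ ¬ la ∣ c ∧ D = la ^ k * c) ∨
    (v.asIdeal = Ideal.span {eE (2 : Eis)} ∧ IsUnit (3 : v.adicCompletionIntegers KK) ∧ Irreducible (2 : v.adicCompletionIntegers KK) ∧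
      ∃ (k : ℕ) (c : Eis), k ≤ 5 ∧ ¬ (2 : Eis) ∣ c ∧ D = 2 ^ k * c) ∨
    (∃ b : Eis, Prime b ∧ Primary b ∧ v.asIdeal = Ideal.span {eE b} ∧ ¬ b ∣ 6 ∧ IsUnit (6 : v.adicCompletionIntegers KK) ∧
      ∃ (k : ℕ) (c : Eis), k ≤ 5 ∧ ¬ b ∣ c ∧ D = b ^ k * c) := by
  have hdom : IsDomain Eis := eis_isDomain
  rcases CU.gen_cases (v := v) with hv | ⟨b, hb, hp, hv⟩
  · left
    exact ⟨hv, exists_kc2 hD CU.la_prime⟩
  right
  have hb3 : ¬ b ∣ 3 := CU.primary_not_three hp hb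
  by_cases hb2 : b ∣ 2
  · left
    have hass : Associated b 2 := hb.irreducible.associated_of_dvd TH.b4_two_prime.irreducible hb2
    have hv2 : v.asIdeal = Ideal.span {eE (2 : Eis)} := by
      rw [hv]
      exact CU.s1_span hass
    have u3 : IsUnit (3 : v.adicCompletionIntegers KK) := by
      have h1 := CU.t5b_unit hv 3 hb3
      rwa [map_ofNat] at h1
    refine ⟨hv2, u3, ?_, exists_kc2 hD TH.b4_two_prime⟩
    have h1 := CU.t5b_irr' TH.b4_two_prime hv2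
    rwa [map_ofNat] at h1
  · right
    have h6 : ¬ b ∣ 6 := by
      intro h3
      have h4 : (6 : Eis) = 2 * 3 := by norm_num
      rw [h4] at h3
      exact (hb.dvd_or_dvd h3).elim hb2 hb3
    refine ⟨b, hb, hp, hv, h6, ?_, exists_kc2 hD hb⟩
    have h1 := CU.t5b_unit hv 6 h6
    rwa [map_ofNat] at h1

/-- [SP2] -/
theorem not_cuG' {v : HeightOneSpectrum (𝓞 KK)} {b : Eis} (hb : Prime b) (hv : v.asIdeal = Ideal.span {eE b}) (n : ℕ) (c : Eis)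
    (x : v.adicCompletionIntegers KK) (h : t5b_lo v b ^ n ∣ t5b_lo v c - x ^ 3) : ∃ m : Eis, b ^ n ∣ c - m ^ 3 := by
  obtain ⟨m, hm⟩ := approxG hb hv n x
  refine ⟨m, (dvd_powG hb hv n (c - m ^ 3)).1 ?_⟩
  have h1 : t5b_lo v (c - m ^ 3) = (t5b_lo v c - x ^ 3) + (x - t5b_lo v m) * (x ^ 2 + x * t5b_lo v m + t5b_lo v m ^ 2) := by
    rw [map_sub, map_pow]
    ring
  rw [h1]
  exact dvd_add h (hm.mul_right _)

theorem cond_p2 (hD : Cl2 D) {b : Eis} (hb : Prime b) (hv : v.asIdeal = Ideal.span {eE b}) (h6 : ¬ b ∣ 6) {k : ℕ} {c : Eis}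
    (hc : ¬ b ∣ c) (he : D = b ^ k * c) (hk : k = 3) (x : v.adicCompletionIntegers KK) :
    ¬ t5b_lo v b ∣ t5b_lo v c - x ^ 3 := by
  intro h
  rw [← pow_one (t5b_lo v b)] at h
  obtain ⟨m, hm⟩ := not_cuG' hb hv 1 c x h
  rw [pow_one] at hm
  subst hk
  exact hD.odd b c hb h6 hc he m hm

theorem cond_two3 (hD : Cl2 D) (hv : v.asIdeal = Ideal.span {eE (2 : Eis)}) {k : ℕ} {c : Eis}
    (he : D = 2 ^ k * c) (hk : k = 3) : ¬ (2 : v.adicCompletionIntegers KK) ∣ t5b_lo v c - 1 := by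
  intro h
  have h2 : t5b_lo v (2 : Eis) ^ 1 = (2 : v.adicCompletionIntegers KK) := by
    rw [map_ofNat, pow_one]
  have h1 : t5b_lo v (c - 1) = t5b_lo v c - 1 := by rw [map_sub, map_one]
  rw [← h2, ← h1] at h
  have h3 := (dvd_powG TH.b4_two_prime hv 1 (c - 1)).1 h
  rw [pow_one] at h3
  subst hk
  exact hD.two3 c (by rw [he]; norm_num) h3

theorem cond_two2 (hD : Cl2 D) (hv : v.asIdeal = Ideal.span {eE (2 : Eis)}) {k : ℕ} {c : Eis}
    (hc : ¬ (2 : Eis) ∣ c) (he : D = 2 ^ k * c) (hk : k = 2) (y : v.adicCompletionIntegers KK) :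
    ¬ (4 : v.adicCompletionIntegers KK) ∣ t5b_lo v c - y ^ 2 - 2 := by
  intro h
  have h2 : t5b_lo v (2 : Eis) ^ 2 = (4 : v.adicCompletionIntegers KK) := by
    rw [map_ofNat]
    norm_num
  have h1 : t5b_lo v c - y ^ 2 - 2 = t5b_lo v (c - 2) - y ^ 2 := by
    rw [map_sub, map_ofNat]
    ring
  rw [← h2, h1] at h
  obtain ⟨m, hm⟩ := JG.not_sqG' TH.b4_two_prime hv 2 (c - 2) y h
  subst hk
  have h4 : (2 : Eis) ^ 2 = 4 := by norm_num
  rw [h4] at hm he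
  refine hD.two2 c hc he m ?_
  have h5 : c - m ^ 2 - 2 = c - 2 - m ^ 2 := by ring
  rw [h5]
  exact hm

theorem cond_la2 (hD : Cl2 D) (hv : v.asIdeal = Ideal.span {eE la}) {k : ℕ} {c : Eis} (hc : ¬ la ∣ c) (he : D = la ^ k * c) :
    (k = 0 → ∀ η : v.adicCompletionIntegers KK, (η = 1 ∨ η = -1) → ¬ t5b_lo v la ^ 4 ∣ t5b_lo v c - η) ∧
    (¬ GoodL D → k = 3 → ∀ η : v.adicCompletionIntegers KK, (η = 1 ∨ η = -1) → ¬ t5b_lo v la ^ 3 ∣ t5b_lo v c - η) := by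
  have hη : ∀ η' : v.adicCompletionIntegers KK, (η' = 1 ∨ η' = -1) →
      ∃ η : Eis, (η = 1 ∨ η = -1) ∧ η' = t5b_lo v η := by
    intro η' hη'
    rcases hη' with rfl | rfl
    · exact ⟨1, Or.inl rfl, (map_one _).symm⟩
    · exact ⟨-1, Or.inr rfl, by rw [map_neg, map_one]⟩
  refine ⟨?_, ?_⟩
  · rintro rfl η' hη' h
    obtain ⟨η, hη1, rfl⟩ := hη η' hη'
    rw [pow_zero, one_mul] at he
    rw [← map_sub] at h
    have h1 := (dvd_powG CU.la_prime hv 4 (c - η)).1 h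
    rw [← he] at h1
    exact hD.lam η hη1 h1
  · rintro hG rfl η' hη' h
    obtain ⟨η, hη1, rfl⟩ := hη η' hη'
    rw [← map_sub] at h
    obtain ⟨c', hc'⟩ := (dvd_powG CU.la_prime hv 3 (c - η)).1 h
    refine hG ⟨η, c', hη1, ?_⟩
    rw [he]
    linear_combination la ^ 3 * hc'

end

end JT
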