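import Pool.Agent.JT.N2

/-!
# [JT-X1] the cocycle of a triple

PROOF. `exists_t`: a root `ρ₀`, `o` in `L`; choose square roots `t₀` of `u(ρ₀)`, `t₁` of `u(o ρ₀)` (nonzero, since `nm d u = n² ≠ 0`: `nm_ev`), `t₂ = n / (t₀ t₁)`: `t₂² = u(o² ρ₀)` by `nm_ev`. `t ρ = if ρ = ρ₀ then t₀ else if ρ = o ρ₀ then t₁ else t₂`. `prod` for all `o', ρ`: `o' = o` or `o² `(roots of `X² + X + 1`), `ρ ∈ {ρ₀, o ρ₀, o² ρ₀}`: the product is
always over the three roots.
`exists_cz`: for `σ` put `ε ρ' = ` the sign with `σ (t ρ) = ε ρ' * t ρ'`, `ρ = σ⁻¹ ρ'` (`(σ (t ρ))² = σ (u(ρ)) = u(σ ρ) = (t (σ ρ))²`); product `1`: apply `σ` to `TD.prod` (`σ n = n`); `sg_surj` gives `c σ`. Crossed: for every root `ρ`: `στ (t ρ) = σ (sg (τ ρ) (c τ) t (τ ρ)) = sg (τ ρ) (c τ) sg (σ τ ρ) (c σ) t (σ τ ρ)`, and `sg (σ τ ρ) (σ (c τ)) = sg (τ ρ) (c τ)`;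
so `sg ρ'' (c (σ τ)) = sg ρ'' (c σ + σ (c τ))` for all roots, `sg_inj`. Locally constant: `c σ` depends only on `σ` on the six elements `ρ_i`, `t ρ_i` (`CM27.fin_loc_apply`, see `JD.n1_loc_ptE`; finite intersection of open sets; or: `c σ = c τ` if `σ` and `τ` agree on these elements, by `sg_inj`).
`cz_loc`: given `ι : L →ₐ[F] Lv`. The roots in `Lv` are the `ι ρ`. First alternative of `LocA`: `u = g²` over `Fv` with `nm g = n` (replace `g` by `-g`); `ι (t ρ) = ε (ι ρ) * ev (mp g) (ι ρ)`, product of the `ε` is 1, `Q = T` with `sg ρ' T = ε ρ'` (`sg_surj`): for `τ`, `σ` with `ι σ = τ ι`: `τ (ι (t ρ)) = ε (ι ρ) ev (mp g) (τ ι ρ)` and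
`= ι (σ (t ρ)) = sg (σ ρ) (c σ) ι (t (σ ρ)) = sg (σ ρ) (c σ) ε (τ ι ρ) ev (mp g) (τ ι ρ)`, so `sg (τ ι ρ) (ptE ι (c σ)) = sg (σ ρ) (c σ) = ε (ι ρ) ε (τ ι ρ) = sg (τ ι ρ) (τ T - T)`; `sg_inj`. Second alternative: `u (x + T) = g²` over `Fv`, `y² = x³ + d`, `(nm g)² = n² y²`; replacing `g` by `-g`: `nm g = n y`. `r ρ' = ev (mp g) ρ' / ι (t ρ)` (`ρ' = ι ρ`):
`r² = x + ρ'`, product `y`. `halfE`: `Q` with `2 Q = (x, y)`, `rr ρ' Q = r ρ'`. For `τ`, `σ`: `S := τ Q - Q` is killed by 2 (`2 S = τ (x, y) - (x, y) = 0`), `τ (r ρ') = rr (τ ρ') (τ Q) = sg (τ ρ') S * r (τ ρ')` (`rr_ptE`, `rr_add`), and `τ (r ρ') = ev (mp g) (τ ρ') / (sg (σ ρ) (c σ) ι (t (σ ρ))) = sg (σ ρ) (c σ) * r (τ ρ')`. So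
`sg ρ'' S = sg ρ'' (ptE ι (c σ))` for all roots `ρ'' = τ ρ'` with `r ρ'' ≠ 0`, i. e. `x + ρ'' ≠ 0`: at least two of the three roots (if `y = 0` one of them is excluded); `sg_inj2` (for a suitable choice of the root `ρ` there).
-/

set_option autoImplicit false

open NumberField IsDedekindDomain
open scoped Classical

namespace JT

open JD (ED ptE Coc LocTriv)
open CUD (gal_comm alg_comm tau_comm am_ne am_o)

/-- [X1a] -/
theorem exists_t {K L : Type} [Field K] [CharZero K] [Field L] [Algebra K L] [IsAlgClosed L] {d o : K} (hd : d ≠ 0)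
    (ho : o ^ 2 + o + 1 = 0) {u : K × K × K} {n : K} (hn : n ≠ 0) (hu : nm d u = n ^ 2) : ∃ t : L → L, TD d u n t := by
  have : CharZero L := charZero_of_injective_algebraMap (algebraMap K L).injective
  obtain ⟨ρ₀, h₀⟩ := IsAlgClosed.exists_pow_nat_eq (algebraMap K L d) (n := 3) (by norm_num)
  have hdL : algebraMap K L d ≠ 0 := am_ne hd
  have hoL : algebraMap K L o ^ 2 + algebraMap K L o + 1 = 0 := am_o ho
  set w : L := algebraMap K L o with hw
  have hw3 : w ^ 3 = 1 := by linear_combination (w - 1) * hoL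
  have hρ0 : ρ₀ ≠ 0 := root_ne hdL h₀
  have h3 : (3 : L) ≠ 0 := three_ne_zero
  have hw1 : w ≠ 1 := by
    intro h
    rw [h] at hoL
    exact h3 (by linear_combination hoL)
  have hw0 : w ≠ 0 := by
    intro h
    rw [h] at hoL
    norm_num at hoL
  have hw2 : w ^ 2 ≠ 1 := by
    intro h
    exact hw1 (by linear_combination hw3 - w * h)
  set N : L := algebraMap K L n with hN
  have hN0 : N ≠ 0 := am_ne hn
  obtain ⟨t₀, ht₀⟩ := IsAlgClosed.exists_pow_nat_eq (ev (mp (algebraMap K L) u) ρ₀) (n := 2) (by norm_num)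
  obtain ⟨t₁, ht₁⟩ := IsAlgClosed.exists_pow_nat_eq (ev (mp (algebraMap K L) u) (w * ρ₀)) (n := 2) (by norm_num)
  have hnm := nm_ev hoL h₀ (mp (algebraMap K L) u)
  rw [mp_nm, hu, map_pow, ← hN, ← ht₀, ← ht₁] at hnm
  have ht00 : t₀ ≠ 0 := by
    rintro rfl
    exact pow_ne_zero 2 hN0 (by rw [← hnm]; ring)
  have ht10 : t₁ ≠ 0 := by
    rintro rfl
    exact pow_ne_zero 2 hN0 (by rw [← hnm]; ring)
  have e10 : w * ρ₀ ≠ ρ₀ := fun h => hw1 (mul_right_cancel₀ hρ0 (by rw [h, one_mul]))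
  have e20 : w ^ 2 * ρ₀ ≠ ρ₀ := fun h => hw2 (mul_right_cancel₀ hρ0 (by rw [h, one_mul]))
  have e21 : w ^ 2 * ρ₀ ≠ w * ρ₀ := by
    intro h
    have h5 : w ^ 2 = w := mul_right_cancel₀ hρ0 h
    exact hw1 (mul_left_cancel₀ hw0 (by rw [← sq, h5, mul_one]))
  let t : L → L := fun ρ => if ρ = ρ₀ then t₀ else if ρ = w * ρ₀ then t₁ else N / (t₀ * t₁)
  have v0 : t ρ₀ = t₀ := if_pos rfl
  have v1 : t (w * ρ₀) = t₁ := by
    show (if w * ρ₀ = ρ₀ then t₀ else if w * ρ₀ = w * ρ₀ then t₁ else N / (t₀ * t₁)) = t₁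
    rw [if_neg e10, if_pos rfl]
  have v2 : t (w ^ 2 * ρ₀) = N / (t₀ * t₁) := by
    show (if w ^ 2 * ρ₀ = ρ₀ then t₀ else if w ^ 2 * ρ₀ = w * ρ₀ then t₁ else N / (t₀ * t₁)) = N / (t₀ * t₁)
    rw [if_neg e20, if_neg e21]
  have hprod : t₀ * t₁ * (N / (t₀ * t₁)) = N := by field_simp
  refine ⟨t, ⟨fun ρ hρ => ?_, hn, hu, fun o' ρ ho' hρ => ?_⟩⟩
  · rcases root_cases hoL h₀ hρ with rfl | rfl | rfl
    · rw [v0, ht₀]
    · rw [v1, ht₁]
    · rw [v2, div_pow, div_eq_iff (pow_ne_zero 2 (mul_ne_zero ht00 ht10))]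
      linear_combination -hnm
  · have ho2 : o' = w ∨ o' = w ^ 2 := by
      have h5 : (o' - w) * (o' - w ^ 2) = 0 := by
        linear_combination ho' - o' * hoL + hw3
      rcases mul_eq_zero.1 h5 with h | h
      · exact Or.inl (sub_eq_zero.1 h)
      · exact Or.inr (sub_eq_zero.1 h)
    have c1 : w * (w * ρ₀) = w ^ 2 * ρ₀ := by ring
    have c2 : w * (w ^ 2 * ρ₀) = ρ₀ := by linear_combination ρ₀ * hw3
    have c3 : w ^ 2 * (w * ρ₀) = ρ₀ := by linear_combination ρ₀ * hw3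
    have c4 : w ^ 2 * (w ^ 2 * ρ₀) = w * ρ₀ := by linear_combination w * ρ₀ * hw3
    have c5 : (w ^ 2) ^ 2 = w := by linear_combination w * hw3
    rcases ho2 with rfl | rfl
    · rcases root_cases hoL h₀ hρ with rfl | rfl | rfl
      · rw [v0, v1, v2]; exact hprod
      · rw [c1, c3, v0, v1, v2]; linear_combination hprod
      · rw [c2, c4, v0, v1, v2]; linear_combination hprod
    · rw [c5]
      rcases root_cases hoL h₀ hρ with rfl | rfl | rfl
      · rw [v0, v1, v2]; linear_combination hprod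
      · rw [c1, c3, v0, v1, v2]; linear_combination hprod
      · rw [c2, c4, v0, v1, v2]; linear_combination hprod

theorem x1_root {K L : Type} [Field K] [Field L] [Algebra K L] {d : K} (σ : L ≃ₐ[K] L) {ρ : L}
    (h : ρ ^ 3 = algebraMap K L d) : (σ ρ) ^ 3 = algebraMap K L d := by
  rw [← map_pow, h, AlgEquiv.commutes]

theorem x1_ev {K L : Type} [Field K] [Field L] [Algebra K L] (σ : L ≃ₐ[K] L) (u : K × K × K) (ρ : L) :
    σ (ev (mp (algebraMap K L) u) ρ) = ev (mp (algebraMap K L) u) (σ ρ) := by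
  simp only [ev, mp, map_add, map_mul, map_pow, AlgEquiv.commutes]

theorem x1_pm {L : Type} [Field L] {a b : L} (h : a ^ 2 = b ^ 2) : ∃ e : ℤ, (e = 1 ∨ e = -1) ∧ a = (e : L) * b := by
  rcases sq_eq_sq_iff_eq_or_eq_neg.1 h with h | h
  · exact ⟨1, Or.inl rfl, by rw [h]; push_cast; ring⟩
  · exact ⟨-1, Or.inr rfl, by rw [h]; push_cast; ring⟩

theorem x1_sq {z : ℤ} (h : z = 1 ∨ z = -1) : z * z = 1 := by
  rcases h with rfl | rfl <;> norm_num

/-- a point which has the signs of `σ` is `c σ` -/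
theorem x1_unique {K L : Type} [Field K] [CharZero K] [Field L] [Algebra K L] [IsAlgClosed L] {d o : K} (hd : d ≠ 0)
    (ho : o ^ 2 + o + 1 = 0) {u : K × K × K} {n : K} {t : L → L} (ht : TD d u n t) (σ : L ≃ₐ[K] L)
    (S S' : (ED (algebraMap K L d)).toAffine.Point) (hS : TwoE S) (hS' : TwoE S')
    (h : ∀ ρ : L, ρ ^ 3 = algebraMap K L d → σ (t ρ) = (sg (σ ρ) S : L) * t (σ ρ))
    (h' : ∀ ρ : L, ρ ^ 3 = algebraMap K L d → σ (t ρ) = (sg (σ ρ) S' : L) * t (σ ρ)) : S = S' := by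
  have : CharZero L := charZero_of_injective_algebraMap (algebraMap K L).injective
  obtain ⟨ρ₀, hρ₀⟩ := IsAlgClosed.exists_pow_nat_eq (algebraMap K L d) (n := 3) (by norm_num)
  refine sg_inj (am_ne hd) (am_o ho) hρ₀ S S' hS hS' fun ρ' h1 => ?_
  have h2 : (σ.symm ρ') ^ 3 = algebraMap K L d := x1_root σ.symm h1
  have e1 := h _ h2
  have e2 := h' _ h2
  rw [AlgEquiv.apply_symm_apply] at e1 e2
  rw [e1] at e2
  have h3 := (ht.ev_ne (am_o ho) h1).2
  have h4 := mul_right_cancel₀ h3 e2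
  exact_mod_cast h4

/-- [X1b] -/
theorem exists_cz {K L : Type} [Field K] [CharZero K] [Field L] [Algebra K L] [IsAlgClosure K L] {d o : K} (hd : d ≠ 0)
    (ho : o ^ 2 + o + 1 = 0) {u : K × K × K} {n : K} {t : L → L} (ht : TD d u n t) :
    ∃ c : (L ≃ₐ[K] L) → (ED (algebraMap K L d)).toAffine.Point, (∀ σ, TwoE (c σ)) ∧ Coc K L d c ∧ Ksg t c := by
  have : CharZero L := charZero_of_injective_algebraMap (algebraMap K L).injective
  have : IsAlgClosed L := IsAlgClosure.isAlgClosed K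
  have : Algebra.IsAlgebraic K L := IsAlgClosure.isAlgebraic
  obtain ⟨ρ₀, hρ₀⟩ := IsAlgClosed.exists_pow_nat_eq (algebraMap K L d) (n := 3) (by norm_num)
  have hoL : algebraMap K L o ^ 2 + algebraMap K L o + 1 = 0 := am_o ho
  have hex : ∀ σ : L ≃ₐ[K] L, ∃ T : (ED (algebraMap K L d)).toAffine.Point, TwoE T ∧
      ∀ ρ : L, ρ ^ 3 = algebraMap K L d → σ (t ρ) = (sg (σ ρ) T : L) * t (σ ρ) := by
    intro σ
    have h1 : ∀ ρ' : L, ∃ e : ℤ, ρ' ^ 3 = algebraMap K L d → (e = 1 ∨ e = -1) ∧ σ (t (σ.symm ρ')) = (e : L) * t ρ' := by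
      intro ρ'
      by_cases h' : ρ' ^ 3 = algebraMap K L d
      · have h2 : (σ (t (σ.symm ρ'))) ^ 2 = t ρ' ^ 2 := by
          rw [← map_pow, ht.sq _ (x1_root σ.symm h'), ht.sq _ h', x1_ev, AlgEquiv.apply_symm_apply]
        obtain ⟨e, he, h3⟩ := x1_pm h2
        exact ⟨e, fun _ => ⟨he, h3⟩⟩
      · exact ⟨1, fun h => absurd h h'⟩
    choose ε hε using h1
    have hp : ε ρ₀ * ε (algebraMap K L o * ρ₀) * ε (algebraMap K L o ^ 2 * ρ₀) = 1 := by
      have h2 := ht.prod (algebraMap K L o) (σ.symm ρ₀) hoL (x1_root σ.symm hρ₀)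
      have h3 := congrArg σ h2
      have e1 : algebraMap K L o * σ.symm ρ₀ = σ.symm (algebraMap K L o * ρ₀) := by
        rw [map_mul, AlgEquiv.commutes]
      have e2 : algebraMap K L o ^ 2 * σ.symm ρ₀ = σ.symm (algebraMap K L o ^ 2 * ρ₀) := by
        rw [map_mul, map_pow, AlgEquiv.commutes]
      rw [map_mul, map_mul, AlgEquiv.commutes, e1, e2, (hε _ hρ₀).2, (hε _ (root_om hoL hρ₀)).2, (hε _ (root_om2 hoL hρ₀)).2,
        ← ht.prod (algebraMap K L o) ρ₀ hoL hρ₀] at h3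
      have n0 := (ht.ev_ne hoL hρ₀).2
      have n1 := (ht.ev_ne hoL (root_om hoL hρ₀)).2
      have n2 := (ht.ev_ne hoL (root_om2 hoL hρ₀)).2
      have h4 : ((ε ρ₀ : L) * (ε (algebraMap K L o * ρ₀) : L) * (ε (algebraMap K L o ^ 2 * ρ₀) : L)) *
          (t ρ₀ * t (algebraMap K L o * ρ₀) * t (algebraMap K L o ^ 2 * ρ₀)) =
          1 * (t ρ₀ * t (algebraMap K L o * ρ₀) * t (algebraMap K L o ^ 2 * ρ₀)) := by
        rw [one_mul]
        linear_combination h3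
      have h5 := mul_right_cancel₀ (mul_ne_zero (mul_ne_zero n0 n1) n2) h4
      exact_mod_cast h5
    obtain ⟨T, hT, hTs⟩ := sg_surj (am_ne hd) hoL hρ₀ ε (fun ρ' h' => (hε ρ' h').1) hp
    refine ⟨T, hT, fun ρ hρ => ?_⟩
    have h6 := (hε _ (x1_root σ hρ)).2
    rw [AlgEquiv.symm_apply_apply] at h6
    rw [h6, hTs _ (x1_root σ hρ)]
  choose c hcT hcs using hex
  refine ⟨c, hcT, ⟨?_, ?_⟩, hcs⟩
  · rw [IsLocallyConstant.iff_exists_open]
    intro σ
    obtain ⟨U0, hU0, hσ0, hU0'⟩ := (IsLocallyConstant.iff_exists_open _).1 (CM27.fin_loc_apply (F := K) ρ₀) σ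
    obtain ⟨U1, hU1, hσ1, hU1'⟩ := (IsLocallyConstant.iff_exists_open _).1 (CM27.fin_loc_apply (F := K) (t ρ₀)) σ
    obtain ⟨U2, hU2, hσ2, hU2'⟩ := (IsLocallyConstant.iff_exists_open _).1
      (CM27.fin_loc_apply (F := K) (t (algebraMap K L o * ρ₀))) σ
    obtain ⟨U3, hU3, hσ3, hU3'⟩ := (IsLocallyConstant.iff_exists_open _).1
      (CM27.fin_loc_apply (F := K) (t (algebraMap K L o ^ 2 * ρ₀))) σ
    refine ⟨(U0 ∩ U1) ∩ (U2 ∩ U3), (hU0.inter hU1).inter (hU2.inter hU3), ⟨⟨hσ0, hσ1⟩, ⟨hσ2, hσ3⟩⟩, fun τ hτ => ?_⟩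
    have k0 : τ ρ₀ = σ ρ₀ := hU0' τ hτ.1.1
    have k1 : τ (t ρ₀) = σ (t ρ₀) := hU1' τ hτ.1.2
    have k2 : τ (t (algebraMap K L o * ρ₀)) = σ (t (algebraMap K L o * ρ₀)) := hU2' τ hτ.2.1
    have k3 : τ (t (algebraMap K L o ^ 2 * ρ₀)) = σ (t (algebraMap K L o ^ 2 * ρ₀)) := hU3' τ hτ.2.2
    refine x1_unique hd ho ht σ _ _ (hcT τ) (hcT σ) (fun ρ hρ => ?_) (hcs σ)
    have k4 : τ ρ = σ ρ ∧ τ (t ρ) = σ (t ρ) := by
      rcases root_cases hoL hρ₀ hρ with rfl | rfl | rfl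
      · exact ⟨k0, k1⟩
      · refine ⟨?_, k2⟩
        rw [map_mul, map_mul, k0, AlgEquiv.commutes, AlgEquiv.commutes]
      · refine ⟨?_, k3⟩
        rw [map_mul, map_mul, map_pow, map_pow, k0, AlgEquiv.commutes, AlgEquiv.commutes]
    rw [← k4.2, ← k4.1]
    exact hcs τ ρ hρ
  · intro σ τ
    have h7 : TwoE (ptE (σ : L →+* L) (gal_comm σ d) (c τ)) := (twoE_ptE _ _ _).2 (hcT τ)
    refine x1_unique hd ho ht (σ * τ) _ _ (hcT _) (twoE_add _ _ (hcT σ) h7) (hcs (σ * τ)) fun ρ hρ => ?_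
    have h8 : (σ * τ) ρ = σ (τ ρ) := rfl
    have h9 : (σ * τ) (t ρ) = σ (τ (t ρ)) := rfl
    have h10 : sg (σ (τ ρ)) (ptE (σ : L →+* L) (gal_comm σ d) (c τ)) = sg (τ ρ) (c τ) :=
      sg_ptE (σ : L →+* L) (gal_comm σ d) (τ ρ) (c τ)
    rw [h8, h9, sg_add (am_ne hd) hoL (x1_root σ (x1_root τ hρ)) _ _ (hcT σ) h7, h10, hcs τ ρ hρ, map_mul, map_intCast,
      hcs σ (τ ρ) (x1_root τ hρ), Int.cast_mul]
    ring

theorem x1_nonsing {K : Type} [Field K] [CharZero K] {d : K} (hd : d ≠ 0) {x y : K} (h : y ^ 2 = x ^ 3 + d) :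
    (ED d).toAffine.Nonsingular x y := by
  rw [WeierstrassCurve.Affine.nonsingular_iff, WeierstrassCurve.Affine.equation_iff]
  simp only [ED, WeierstrassCurve.toAffine]
  refine ⟨by linear_combination h, ?_⟩
  by_contra hc
  push Not at hc
  obtain ⟨h1, h2⟩ := hc
  have h3 : (3 : K) * x ^ 2 = 0 := by linear_combination -h1
  have h4 : (2 : K) * y = 0 := by linear_combination h2
  have h5 : x = 0 := by
    rcases mul_eq_zero.1 h3 with h | h
    · exact absurd h three_ne_zero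
    · exact pow_eq_zero_iff (two_ne_zero) |>.1 h
  have h6 : y = 0 := (mul_eq_zero.1 h4).resolve_left two_ne_zero
  apply hd
  rw [h5, h6] at h
  linear_combination -h

/-- the local condition gives a point -/
theorem x1_core {K L : Type} [Field K] [CharZero K] [Field L] [Algebra K L] [IsAlgClosed L] {d o : K} (hd : d ≠ 0)
    (ho : o ^ 2 + o + 1 = 0) {u : K × K × K} {n : K} {t : L → L} (ht : TD d u n t) {D : L} (hD : algebraMap K L d = D)
    (h : LocA d u) : ∃ Q : (ED D).toAffine.Point, ∀ (τ : L ≃ₐ[K] L) (hτ : (τ : L →+* L) D = D) (S : (ED D).toAffine.Point),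
      TwoE S → (∀ ρ : L, ρ ^ 3 = D → τ (t ρ) = (sg (τ ρ) S : L) * t (τ ρ)) → S = ptE (τ : L →+* L) hτ Q - Q := by
  subst hD
  have : CharZero L := charZero_of_injective_algebraMap (algebraMap K L).injective
  obtain ⟨ρ₀, hρ₀⟩ := IsAlgClosed.exists_pow_nat_eq (algebraMap K L d) (n := 3) (by norm_num)
  have hoL : algebraMap K L o ^ 2 + algebraMap K L o + 1 = 0 := am_o ho
  rcases h with ⟨g, hg⟩ | ⟨x, y, hxy, g, hg⟩
  · -- `u` is a square
    have h1 : nm d g ^ 2 = n ^ 2 := by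
      rw [← ht.nm, hg, nm_mu]
      ring
    have hg' : ∃ g' : K × K × K, u = mu d g' g' ∧ nm d g' = n := by
      rcases sq_eq_sq_iff_eq_or_eq_neg.1 h1 with h2 | h2
      · exact ⟨g, hg, h2⟩
      · refine ⟨(-g.1, -g.2.1, -g.2.2), ?_, ?_⟩
        · rw [hg]
          simp only [mu, Prod.mk.injEq]
          refine ⟨?_, ?_, ?_⟩ <;> ring
        · have h3 : nm d (-g.1, -g.2.1, -g.2.2) = - nm d g := by
            simp only [nm]
            ring
          rw [h3, h2, neg_neg]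
    obtain ⟨g', hg1, hg2⟩ := hg'
    have h3 : ∀ ρ' : L, ∃ e : ℤ, ρ' ^ 3 = algebraMap K L d → (e = 1 ∨ e = -1) ∧
        t ρ' = (e : L) * ev (mp (algebraMap K L) g') ρ' := by
      intro ρ'
      by_cases h' : ρ' ^ 3 = algebraMap K L d
      · have h2 : (t ρ') ^ 2 = ev (mp (algebraMap K L) g') ρ' ^ 2 := by
          rw [ht.sq _ h', hg1, mp_mu, ev_mu h']
          ring
        obtain ⟨e, he, h3⟩ := x1_pm h2
        exact ⟨e, fun _ => ⟨he, h3⟩⟩
      · exact ⟨1, fun h => absurd h h'⟩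
    choose ε hε using h3
    have hp : ε ρ₀ * ε (algebraMap K L o * ρ₀) * ε (algebraMap K L o ^ 2 * ρ₀) = 1 := by
      have h4 := ht.prod (algebraMap K L o) ρ₀ hoL hρ₀
      have h5 := nm_ev hoL hρ₀ (mp (algebraMap K L) g')
      rw [mp_nm, hg2] at h5
      rw [(hε _ hρ₀).2, (hε _ (root_om hoL hρ₀)).2, (hε _ (root_om2 hoL hρ₀)).2] at h4
      have h6 : ((ε ρ₀ : L) * (ε (algebraMap K L o * ρ₀) : L) * (ε (algebraMap K L o ^ 2 * ρ₀) : L)) * algebraMap K L n =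
          1 * algebraMap K L n := by
        rw [one_mul]
        nth_rewrite 2 [← h4]
        rw [← h5]
        ring
      have h7 := mul_right_cancel₀ ((map_ne_zero _).2 ht.n0) h6
      exact_mod_cast h7
    obtain ⟨T, hT, hTs⟩ := sg_surj (am_ne hd) hoL hρ₀ ε (fun ρ' h' => (hε ρ' h').1) hp
    refine ⟨T, fun τ hτ S hS hSs => ?_⟩
    have hτT : TwoE (ptE (τ : L →+* L) hτ T) := (twoE_ptE _ _ _).2 hT
    refine x1_unique hd ho ht τ _ _ hS (twoE_sub _ _ hτT hT) hSs fun ρ hρ => ?_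
    have h8 : sg (τ ρ) (ptE (τ : L →+* L) hτ T) = sg ρ T := sg_ptE (τ : L →+* L) hτ ρ T
    rw [sg_sub (am_ne hd) hoL (x1_root τ hρ) _ _ hτT hT, h8, hTs ρ hρ, hTs _ (x1_root τ hρ), (hε _ hρ).2,
      (hε _ (x1_root τ hρ)).2, map_mul, map_intCast, x1_ev]
    have h9 : (ε (τ ρ) : L) * (ε (τ ρ) : L) = 1 := by exact_mod_cast x1_sq (hε _ (x1_root τ hρ)).1
    push_cast
    linear_combination -((ε ρ : L) * ev (mp (algebraMap K L) g') (τ ρ)) * h9
  · -- the class of a point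
    have h1 : nm d g ^ 2 = (n * y) ^ 2 := by
      rw [mul_pow, hxy, ← nm_pt, ← ht.nm, ← nm_mu, hg, nm_mu]
      ring
    have hg' : ∃ g' : K × K × K, mu d u (x, 1, 0) = mu d g' g' ∧ nm d g' = n * y := by
      rcases sq_eq_sq_iff_eq_or_eq_neg.1 h1 with h2 | h2
      · exact ⟨g, hg, h2⟩
      · refine ⟨(-g.1, -g.2.1, -g.2.2), ?_, ?_⟩
        · rw [hg]
          simp only [mu, Prod.mk.injEq]
          refine ⟨?_, ?_, ?_⟩ <;> ring
        · have h3 : nm d (-g.1, -g.2.1, -g.2.2) = - nm d g := by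
            simp only [nm]
            ring
          rw [h3, h2, neg_neg]
    obtain ⟨g', hg1, hg2⟩ := hg'
    have hxyL : algebraMap K L y ^ 2 = algebraMap K L x ^ 3 + algebraMap K L d := by
      rw [← map_pow, hxy, map_add, map_pow]
    have hN := x1_nonsing (am_ne hd) hxyL
    set r : L → L := fun ρ' => ev (mp (algebraMap K L) g') ρ' / t ρ' with hr
    have htn : ∀ ρ' : L, ρ' ^ 3 = algebraMap K L d → t ρ' ≠ 0 := fun ρ' h' => (ht.ev_ne hoL h').2
    have hr2 : ∀ ρ' : L, ρ' ^ 3 = algebraMap K L d → r ρ' ^ 2 = algebraMap K L x + ρ' := by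
      intro ρ' h'
      have h4 : ev (mp (algebraMap K L) g') ρ' ^ 2 = t ρ' ^ 2 * (algebraMap K L x + ρ') := by
        have h5 : ev (mp (algebraMap K L) (mu d u (x, 1, 0))) ρ' = ev (mp (algebraMap K L) (mu d g' g')) ρ' := by rw [hg1]
        rw [mp_mu, mp_mu, ev_mu h', ev_mu h', ← ht.sq _ h'] at h5
        have h6 : ev (mp (algebraMap K L) (x, 1, 0)) ρ' = algebraMap K L x + ρ' := by
          simp only [ev, mp, map_one, map_zero]
          ring
        rw [h6] at h5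
        rw [h5]
        ring
      simp only [hr]
      rw [div_pow, h4, mul_comm, mul_div_assoc, div_self (pow_ne_zero 2 (htn _ h')), mul_one]
    have hrp : r ρ₀ * r (algebraMap K L o * ρ₀) * r (algebraMap K L o ^ 2 * ρ₀) = algebraMap K L y := by
      have h5 := nm_ev hoL hρ₀ (mp (algebraMap K L) g')
      rw [mp_nm, hg2, map_mul] at h5
      have h4 := ht.prod (algebraMap K L o) ρ₀ hoL hρ₀
      simp only [hr]
      rw [div_mul_div_comm, div_mul_div_comm, h5, h4, mul_div_assoc, mul_comm, div_mul_cancel₀]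
      exact (map_ne_zero _).2 ht.n0
    obtain ⟨Q, hQ2, hQr⟩ := halfE (am_ne hd) hoL hρ₀ hN r hr2 hrp
    refine ⟨Q, fun τ hτ S hS hSs => ?_⟩
    have hS' : TwoE (ptE (τ : L →+* L) hτ Q - Q) := by
      rw [twoE_iff, nsmul_sub, ← JD.ptE_nsmul, hQ2, sub_eq_zero]
      simp only [ptE, WeierstrassCurve.Affine.Point.some.injEq]
      exact ⟨τ.commutes x, τ.commutes y⟩
    have hkey : ∀ ρ : L, ρ ^ 3 = algebraMap K L d → r ρ ≠ 0 → sg ρ S = sg ρ (ptE (τ : L →+* L) hτ Q - Q) := by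
      intro ρ hρ h0
      have k0 : (τ.symm ρ) ^ 3 = algebraMap K L d := x1_root τ.symm hρ
      have k1 : rr (τ (τ.symm ρ)) (ptE (τ : L →+* L) hτ Q) = τ (rr (τ.symm ρ) Q) :=
        rr_ptE (τ : L →+* L) hτ (τ.symm ρ) Q
      rw [AlgEquiv.apply_symm_apply, hQr _ k0] at k1
      have k2 : ptE (τ : L →+* L) hτ Q = Q + (ptE (τ : L →+* L) hτ Q - Q) := by abel
      rw [k2, rr_add (am_ne hd) hoL hρ _ _ hS', hQr _ hρ] at k1
      have k3 : τ (r (τ.symm ρ)) = (sg ρ S : L) * r ρ := by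
        simp only [hr]
        have k4 := hSs _ k0
        rw [AlgEquiv.apply_symm_apply] at k4
        rw [map_div₀, k4, x1_ev, AlgEquiv.apply_symm_apply]
        have k5 : (sg ρ S : L) * (sg ρ S : L) = 1 := by exact_mod_cast x1_sq (sg_pm ρ S)
        have k6 := htn _ hρ
        have k7 : (sg ρ S : L) ≠ 0 := left_ne_zero_of_mul_eq_one k5
        rw [div_eq_iff (mul_ne_zero k7 k6)]
        have k8 : ev (mp (algebraMap K L) g') ρ / t ρ * t ρ = ev (mp (algebraMap K L) g') ρ := div_mul_cancel₀ _ k6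
        linear_combination (-(sg ρ S : L) * (sg ρ S : L)) * k8 - ev (mp (algebraMap K L) g') ρ * k5
      rw [k3] at k1
      have k9 := mul_right_cancel₀ h0 k1
      exact_mod_cast k9.symm
    have hρ1 : ∃ ρ : L, ρ ^ 3 = algebraMap K L d ∧ r (algebraMap K L o * ρ) ≠ 0 ∧ r (algebraMap K L o ^ 2 * ρ) ≠ 0 := by
      have ho0 : algebraMap K L o ≠ 0 := by
        intro h
        rw [h] at hoL
        norm_num at hoL
      have hne : ∀ ρ : L, ρ ^ 3 = algebraMap K L d → algebraMap K L x + ρ = 0 →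
          r (algebraMap K L o * ρ) ≠ 0 ∧ r (algebraMap K L o ^ 2 * ρ) ≠ 0 := by
        intro ρ hρ h0
        have hρ0 := root_ne (am_ne hd) hρ
        have ho3 : algebraMap K L o ^ 3 = 1 := by linear_combination (algebraMap K L o - 1) * hoL
        have hom : algebraMap K L o ≠ 1 := by
          intro h
          rw [h] at hoL
          norm_num at hoL
        constructor
        · intro h1
          have h2 := hr2 _ (root_om hoL hρ)
          rw [h1] at h2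
          have h3 : (algebraMap K L o - 1) * ρ = 0 := by linear_combination -h2 - h0
          rcases mul_eq_zero.1 h3 with h | h
          · exact hom (sub_eq_zero.1 h)
          · exact hρ0 h
        · intro h1
          have h2 := hr2 _ (root_om2 hoL hρ)
          rw [h1] at h2
          have h3 : (algebraMap K L o ^ 2 - 1) * ρ = 0 := by linear_combination -h2 - h0
          rcases mul_eq_zero.1 h3 with h | h
          · apply hom
            have h4 : algebraMap K L o = algebraMap K L o ^ 3 := by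
              linear_combination -algebraMap K L o * h
            rw [h4, ho3]
          · exact hρ0 h
      by_cases c1 : r ρ₀ = 0
      · refine ⟨ρ₀, hρ₀, hne _ hρ₀ ?_⟩
        rw [← hr2 _ hρ₀, c1]
        ring
      · by_cases c2 : r (algebraMap K L o * ρ₀) = 0
        · refine ⟨_, root_om hoL hρ₀, hne _ (root_om hoL hρ₀) ?_⟩
          rw [← hr2 _ (root_om hoL hρ₀), c2]
          ring
        · by_cases c3 : r (algebraMap K L o ^ 2 * ρ₀) = 0
          · refine ⟨_, root_om2 hoL hρ₀, hne _ (root_om2 hoL hρ₀) ?_⟩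
            rw [← hr2 _ (root_om2 hoL hρ₀), c3]
            ring
          · exact ⟨ρ₀, hρ₀, c2, c3⟩
    obtain ⟨ρ, hρ, n1, n2⟩ := hρ1
    exact sg_inj2 (am_ne hd) hoL hρ _ _ hS hS' (hkey _ (root_om hoL hρ) n1) (hkey _ (root_om2 hoL hρ) n2)

/-- [X1c] -/
theorem cz_loc {F L : Type} [Field F] [CharZero F] [Field L] [Algebra F L] [IsAlgClosure F L] {d o : F} (hd : d ≠ 0)
    (ho : o ^ 2 + o + 1 = 0) {c : (L ≃ₐ[F] L) → (ED (algebraMap F L d)).toAffine.Point} (hT : ∀ σ, TwoE (c σ))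
    {u : F × F × F} {n : F} {t : L → L} (ht : TD d u n t) (hk : Ksg t c)
    (Fv Lv : Type) [Field Fv] [Algebra F Fv] [Field Lv] [Algebra Fv Lv] [IsAlgClosure Fv Lv]
    [Algebra F Lv] [IsScalarTower F Fv Lv] (h : LocA (algebraMap F Fv d) (mp (algebraMap F Fv) u)) :
    LocTriv c Fv Lv := by
  have : CharZero Fv := charZero_of_injective_algebraMap (algebraMap F Fv).injective
  have : CharZero Lv := charZero_of_injective_algebraMap (algebraMap Fv Lv).injective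
  have : CharZero L := charZero_of_injective_algebraMap (algebraMap F L).injective
  have : IsAlgClosed L := IsAlgClosure.isAlgClosed F
  have : IsAlgClosed Lv := IsAlgClosure.isAlgClosed Fv
  intro ι
  have htow : ∀ x : F, algebraMap Fv Lv (algebraMap F Fv x) = algebraMap F Lv x := fun x =>
    (IsScalarTower.algebraMap_apply F Fv Lv x).symm
  obtain ⟨ρ₀, hρ₀⟩ := IsAlgClosed.exists_pow_nat_eq (algebraMap F L d) (n := 3) (by norm_num)
  have hoL : algebraMap F L o ^ 2 + algebraMap F L o + 1 = 0 := am_o ho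
  have hoLv : algebraMap F Lv o ^ 2 + algebraMap F Lv o + 1 = 0 := am_o ho
  have hιρ : ∀ ρ : L, ρ ^ 3 = algebraMap F L d → (ι ρ) ^ 3 = algebraMap F Lv d := by
    intro ρ hρ
    rw [← map_pow, hρ, ι.commutes]
  -- the roots in `Lv` are the images of the roots in `L`
  have hroots : ∀ ρ' : Lv, ρ' ^ 3 = algebraMap F Lv d → ∃ ρ : L, ρ ^ 3 = algebraMap F L d ∧ ι ρ = ρ' := by
    intro ρ' h'
    rcases root_cases hoLv (hιρ _ hρ₀) h' with h1 | h1 | h1
    · exact ⟨ρ₀, hρ₀, h1.symm⟩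
    · exact ⟨_, root_om hoL hρ₀, by rw [h1, map_mul, ι.commutes]⟩
    · exact ⟨_, root_om2 hoL hρ₀, by rw [h1, map_mul, map_pow, ι.commutes]⟩
  set tv : Lv → Lv := fun ρ' => if h : ∃ ρ : L, ι ρ = ρ' then ι (t h.choose) else 0 with htv
  have htvι : ∀ ρ : L, tv (ι ρ) = ι (t ρ) := by
    intro ρ
    have h1 : ∃ ρ1 : L, ι ρ1 = ι ρ := ⟨ρ, rfl⟩
    simp only [htv]
    rw [dif_pos h1]
    have h2 : h1.choose = ρ := ι.injective h1.choose_spec
    rw [h2]
  have hevι : ∀ ρ : L, ev (mp (algebraMap Fv Lv) (mp (algebraMap F Fv) u)) (ι ρ) = ι (ev (mp (algebraMap F L) u) ρ) := by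
    intro ρ
    simp only [ev, mp, map_add, map_mul, map_pow, ι.commutes, htow]
  have htd : TD (K := Fv) (L := Lv) (algebraMap F Fv d) (mp (algebraMap F Fv) u) (algebraMap F Fv n) tv := by
    refine ⟨?_, ?_, ?_, ?_⟩
    · intro ρ' h'
      rw [htow] at h'
      obtain ⟨ρ, hρ, rfl⟩ := hroots ρ' h'
      rw [htvι, hevι, ← map_pow, ht.sq _ hρ]
    · exact (map_ne_zero _).2 ht.n0
    · rw [mp_nm, ht.nm, map_pow]
    · intro o' ρ' ho' h'
      rw [htow] at h'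
      obtain ⟨ρ, hρ, rfl⟩ := hroots ρ' h'
      have h1 : (o' - algebraMap F Lv o) * (o' - algebraMap F Lv (o ^ 2)) = 0 := by
        rw [map_pow]
        have h3 : algebraMap F Lv o ^ 3 = 1 := by linear_combination (algebraMap F Lv o - 1) * hoLv
        linear_combination ho' - o' * hoLv + h3
      have h2 : ∃ o1 : F, o1 ^ 2 + o1 + 1 = 0 ∧ o' = algebraMap F Lv o1 := by
        rcases mul_eq_zero.1 h1 with h | h
        · exact ⟨o, ho, sub_eq_zero.1 h⟩
        · exact ⟨o ^ 2, by linear_combination (o ^ 2 - o + 1) * ho, sub_eq_zero.1 h⟩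
      obtain ⟨o1, ho1, rfl⟩ := h2
      have e1 : algebraMap F Lv o1 * ι ρ = ι (algebraMap F L o1 * ρ) := by rw [map_mul, ι.commutes]
      have e2 : algebraMap F Lv o1 ^ 2 * ι ρ = ι (algebraMap F L o1 ^ 2 * ρ) := by rw [map_mul, map_pow, ι.commutes]
      rw [e1, e2, htvι, htvι, htvι, ← map_mul, ← map_mul, ht.prod _ _ (am_o ho1) hρ, ι.commutes, htow]
  obtain ⟨Q, hQ⟩ := x1_core (o := algebraMap F Fv o) (am_ne hd) (am_o ho) htd (D := algebraMap F Lv d) (htow d) h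
  refine ⟨Q, fun τ σ hστ => ?_⟩
  refine hQ τ (tau_comm F Fv Lv τ d) _ ((twoE_ptE _ _ _).2 (hT σ)) fun ρ' h' => ?_
  obtain ⟨ρ, hρ, rfl⟩ := hroots ρ' h'
  have h1 : sg (ι (σ ρ)) (ptE (ι : L →+* Lv) (alg_comm ι d) (c σ)) = sg (σ ρ) (c σ) :=
    sg_ptE (ι : L →+* Lv) (alg_comm ι d) (σ ρ) (c σ)
  rw [htvι, ← hστ, ← hστ, h1, htvι, hk σ ρ hρ, map_mul, map_intCast]

end JT
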